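import Mathlib

set_option autoImplicit false

/-!
# Finite continued fractions with last partial quotient `> 1` and the parity of their lengths
-/

namespace Pool.Agent.R343.CFP

open Finset

/-- the value of the continued fraction `[c₁, c₂, …]` -/
def cfVal : List ℕ → ℚ
  | [] => 0
  | [c] => c
  | c :: d :: l => c + 1 / cfVal (d :: l)

/-- `l` is the expansion of `p / n` with positive partial quotients, the last one being `> 1` -/
def IsExp (p n : ℕ) (l : List ℕ) : Prop :=
  (∀ c ∈ l, 0 < c) ∧ (∃ c ∈ l.getLast?, 1 < c) ∧ cfVal l = (p : ℚ) / n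

/-- admissible lists -/
def Adm (l : List ℕ) : Prop := (∀ c ∈ l, 0 < c) ∧ (∃ c ∈ l.getLast?, 1 < c)

theorem Adm.tail {c d : ℕ} {l : List ℕ} (h : Adm (c :: d :: l)) : Adm (d :: l) := by
  refine ⟨fun x hx => h.1 x (List.mem_cons_of_mem _ hx), ?_⟩
  obtain ⟨x, hx, h1⟩ := h.2
  exact ⟨x, by simpa using hx, h1⟩

theorem Adm.cons {c d : ℕ} {l : List ℕ} (hc : 0 < c) (h : Adm (d :: l)) : Adm (c :: d :: l) := by
  refine ⟨fun x hx => ?_, ?_⟩
  · rcases List.mem_cons.1 hx with h1 | h1
    · rw [h1]; exact hc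
    · exact h.1 x h1
  · obtain ⟨x, hx, h1⟩ := h.2
    exact ⟨x, by simpa using hx, h1⟩

theorem Adm.single {c : ℕ} (h : Adm [c]) : 1 < c := by
  obtain ⟨x, hx, h1⟩ := h.2
  simp at hx
  omega

theorem Adm.one_lt : ∀ {l : List ℕ}, Adm l → 1 < cfVal l
  | [], h => by
    obtain ⟨x, hx, _⟩ := h.2
    simp at hx
  | [c], h => by
    have := h.single
    rw [cfVal]
    exact_mod_cast this
  | c :: d :: l, h => by
    have h1 := h.tail.one_lt
    have h2 : 0 < c := h.1 c (by simp)
    rw [cfVal]
    have h3 : (1 : ℚ) ≤ c := by exact_mod_cast h2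
    have h4 : 0 < 1 / cfVal (d :: l) := by positivity
    linarith

theorem Adm.bounds {c d : ℕ} {l : List ℕ} (h : Adm (c :: d :: l)) :
    (c : ℚ) < cfVal (c :: d :: l) ∧ cfVal (c :: d :: l) < c + 1 := by
  have h1 := h.tail.one_lt
  rw [cfVal]
  constructor
  · have h4 : 0 < 1 / cfVal (d :: l) := by positivity
    linarith
  · have h4 : 1 / cfVal (d :: l) < 1 := by
      rw [div_lt_one (by linarith)]
      exact h1
    linarith

theorem unique : ∀ {l l' : List ℕ}, Adm l → Adm l' → cfVal l = cfVal l' → l = l'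
  | [], _, h, _, _ => by
    obtain ⟨x, hx, _⟩ := h.2
    simp at hx
  | _ :: _, [], _, h', _ => by
    obtain ⟨x, hx, _⟩ := h'.2
    simp at hx
  | [c], [c'], _, _, he => by
    rw [cfVal, cfVal] at he
    have : c = c' := by exact_mod_cast he
    rw [this]
  | [c], c' :: d' :: l', _, h', he => by
    exfalso
    have h1 := h'.bounds
    rw [← he, cfVal] at h1
    have h2 : c' < c := by exact_mod_cast h1.1
    have h3 : c < c' + 1 := by exact_mod_cast h1.2
    omega
  | c :: d :: l, [c'], h, _, he => by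
    exfalso
    have h1 := h.bounds
    rw [he, cfVal] at h1
    have h2 : c < c' := by exact_mod_cast h1.1
    have h3 : c' < c + 1 := by exact_mod_cast h1.2
    omega
  | c :: d :: l, c' :: d' :: l', h, h', he => by
    have h1 := h.bounds
    have h2 := h'.bounds
    have h3 : (c : ℚ) < c' + 1 := by linarith [h1.1, h2.2]
    have h4 : (c' : ℚ) < c + 1 := by linarith [h1.2, h2.1]
    have h5 : c < c' + 1 := by exact_mod_cast h3
    have h6 : c' < c + 1 := by exact_mod_cast h4
    have h7 : c = c' := by omega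
    subst h7
    rw [cfVal, cfVal] at he
    have h8 : cfVal (d :: l) = cfVal (d' :: l') := by
      have h9 : 1 / cfVal (d :: l) = 1 / cfVal (d' :: l') := by linarith
      have h10 := h.tail.one_lt
      have h11 := h'.tail.one_lt
      have := congrArg (fun x => 1 / x) h9
      simpa using this
    rw [unique h.tail h'.tail h8]

theorem exists_exp : ∀ (n p : ℕ), 0 < n → n < p → ∃ l, Adm l ∧ cfVal l = (p : ℚ) / n := by
  intro n
  induction n using Nat.strong_induction_on with
  | _ n ih =>
    intro p hn hp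
    have hn' : (n : ℚ) ≠ 0 := by exact_mod_cast hn.ne'
    have hdiv := Nat.div_add_mod p n
    rcases Nat.eq_zero_or_pos (p % n) with h | h
    · refine ⟨[p / n], ⟨?_, ?_⟩, ?_⟩
      · intro c hc
        rw [List.mem_singleton] at hc
        rw [hc]
        exact Nat.div_pos hp.le hn
      · refine ⟨p / n, by simp, ?_⟩
        by_contra hcon
        have h1 : p / n ≤ 1 := by omega
        have h2 : n * (p / n) ≤ n * 1 := Nat.mul_le_mul_left n h1
        omega
      · rw [cfVal, eq_div_iff hn']
        rw [h] at hdiv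
        have : p / n * n = p := by rw [mul_comm]; omega
        exact_mod_cast this
    · obtain ⟨l, hl, hv⟩ := ih (p % n) (Nat.mod_lt _ hn) n h (Nat.mod_lt _ hn)
      cases l with
      | nil =>
        obtain ⟨x, hx, _⟩ := hl.2
        simp at hx
      | cons d l =>
        refine ⟨p / n :: d :: l, hl.cons (Nat.div_pos hp.le hn), ?_⟩
        rw [cfVal, hv, one_div_div]
        have h1 : ((p % n : ℕ) : ℚ) = p - n * ((p / n : ℕ) : ℚ) := by
          rw [eq_sub_iff_add_eq, add_comm]
          exact_mod_cast hdiv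
        rw [h1]
        field_simp
        ring

/-- the last but one convergent -/
theorem inv : ∀ (l : List ℕ) (p n : ℕ), Adm l → 0 < n → Nat.Coprime n p →
    cfVal l = (p : ℚ) / n → ∃ u v : ℕ, 0 < u ∧ 2 * u ≤ p ∧ 2 * v ≤ n ∧
      (n : ℤ) * u - p * v = (-1) ^ (l.length + 1)
  | [], _, _, h, _, _, _ => by
    obtain ⟨x, hx, _⟩ := h.2
    simp at hx
  | [c], p, n, h, hn, hc, he => by
    have hn' : (n : ℚ) ≠ 0 := by exact_mod_cast hn.ne'
    rw [cfVal, eq_div_iff hn'] at he
    have h1 : c * n = p := by exact_mod_cast he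
    have h2 : n = 1 := by
      have : Nat.gcd n p = n := by
        rw [← h1]
        exact Nat.gcd_mul_left_right _ _
      rw [← this]
      exact hc
    subst h2
    have h3 := h.single
    refine ⟨1, 0, by norm_num, by omega, by norm_num, ?_⟩
    simp
  | c :: d :: l, p, n, h, hn, hc, he => by
    have hn' : (n : ℚ) ≠ 0 := by exact_mod_cast hn.ne'
    have hn0 : (0 : ℚ) < n := by exact_mod_cast hn
    have hx := h.tail.one_lt
    have hb := h.bounds
    rw [he] at hb
    have h1 : c * n < p := by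
      have := (lt_div_iff₀ hn0).1 hb.1
      exact_mod_cast this
    obtain ⟨r, hr⟩ : ∃ r, p = c * n + r := ⟨p - c * n, by omega⟩
    have hr0 : 0 < r := by omega
    have hr' : (r : ℚ) ≠ 0 := by exact_mod_cast hr0.ne'
    have h2 : cfVal (d :: l) = (n : ℚ) / r := by
      rw [cfVal, hr] at he
      push_cast at he
      have h3 : 1 / cfVal (d :: l) = (r : ℚ) / n := by
        field_simp at he ⊢
        linarith
      rw [← one_div_div, ← h3, one_div_one_div]
    have h3 : Nat.Coprime r n := by
      rw [hr] at hc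
      have h4 : Nat.Coprime n r := by
        have := hc
        rwa [Nat.coprime_mul_right_add_right] at this
      exact h4.symm
    obtain ⟨u, v, hu, h4, h5, h6⟩ := inv (d :: l) n r h.tail hr0 h3 h2
    refine ⟨c * u + v, u, ?_, ?_, h4, ?_⟩
    · have : 0 < c := h.1 c (by simp)
      positivity
    · rw [hr]
      nlinarith
    · rw [hr]
      rw [List.length_cons, pow_succ, ← h6]
      push_cast
      ring

theorem isExp_iff (p n : ℕ) (l : List ℕ) : IsExp p n l ↔ Adm l ∧ cfVal l = (p : ℚ) / n := by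
  unfold IsExp Adm
  rw [and_assoc]

theorem existsUnique (p n : ℕ) (hn : 0 < n) (hnp : n < p) : ∃! l, IsExp p n l := by
  obtain ⟨l, hl, hv⟩ := exists_exp n p hn hnp
  refine ⟨l, (isExp_iff p n l).2 ⟨hl, hv⟩, ?_⟩
  intro l' hl'
  rw [isExp_iff] at hl'
  exact unique hl'.1 hl (hl'.2.trans hv.symm)

/-- the length of the expansion -/
noncomputable def len (p n : ℕ) : ℕ := by
  classical
  exact if h : ∃ l, IsExp p n l then h.choose.length else 0

theorem len_eq (p n : ℕ) (hn : 0 < n) (hnp : n < p) (l : List ℕ) (hl : IsExp p n l) :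
    len p n = l.length := by
  have h : ∃ l, IsExp p n l := ⟨l, hl⟩
  unfold len
  rw [dif_pos h]
  rw [(existsUnique p n hn hnp).unique h.choose_spec hl]

/-- the parity of the length and the inverse modulo `p` -/
theorem parity (p n : ℕ) (hn : 0 < n) (hnp : n < p) (hc : Nat.Coprime n p) (hodd : Odd p) :
    (-1 : ℤ) ^ (len p n + 1) = if 2 * ((n : ZMod p)⁻¹).val < p then 1 else -1 := by
  obtain ⟨l, hl, _⟩ := existsUnique p n hn hnp
  have hl' := (isExp_iff p n l).1 hl
  rw [len_eq p n hn hnp l hl]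
  obtain ⟨u, v, hu, h1, h2, h3⟩ := inv l p n hl'.1 hn hc hl'.2
  have h4 : ((n : ZMod p)) * u = (((-1 : ℤ) ^ (l.length + 1) : ℤ) : ZMod p) := by
    rw [← h3]
    push_cast
    rw [ZMod.natCast_self, zero_mul, sub_zero]
  have hu2 : 2 * u < p := by
    obtain ⟨k, hk⟩ := hodd
    omega
  have h5 : (n : ZMod p) * (n : ZMod p)⁻¹ = 1 := ZMod.coe_mul_inv_eq_one n hc
  have : NeZero p := ⟨by omega⟩
  rcases neg_one_pow_eq_or ℤ (l.length + 1) with h | h
  · rw [h]
    rw [h, Int.cast_one] at h4
    have h6 : (n : ZMod p)⁻¹ = u := by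
      calc (n : ZMod p)⁻¹ = (n : ZMod p)⁻¹ * ((n : ZMod p) * u) := by rw [h4, mul_one]
        _ = ((n : ZMod p) * (n : ZMod p)⁻¹) * u := by ring
        _ = u := by rw [h5, one_mul]
    rw [h6, ZMod.val_natCast_of_lt (by omega), if_pos hu2]
  · rw [h]
    rw [h] at h4
    have h6 : (n : ZMod p)⁻¹ = ((p - u : ℕ) : ZMod p) := by
      rw [Nat.cast_sub (by omega), ZMod.natCast_self, zero_sub]
      calc (n : ZMod p)⁻¹ = - ((n : ZMod p)⁻¹ * ((-1 : ℤ) : ZMod p)) := by push_cast; ring
        _ = - ((n : ZMod p)⁻¹ * ((n : ZMod p) * u)) := by rw [h4]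
        _ = - (((n : ZMod p) * (n : ZMod p)⁻¹) * u) := by ring
        _ = -u := by rw [h5, one_mul]
    rw [h6, ZMod.val_natCast_of_lt (by omega), if_neg (by omega)]

end Pool.Agent.R343.CFP
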