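import Pool.Agent.R343.CFP

set_option autoImplicit false

/-!
# Counting the `n` with `(n / p) = ± (-1) ^ λ(n)`
-/

namespace Pool.Agent.R343.CFP

open Finset

/-- the reduced residues -/
def red (p : ℕ) : Finset ℕ := (range p).filter fun n => Nat.Coprime n p

/-- the inverse modulo `p` -/
def w (p n : ℕ) : ℕ := ((n : ZMod p)⁻¹).val

theorem w_mem (p n : ℕ) (hp : 0 < p) (h : n ∈ red p) : w p n ∈ red p := by
  have : NeZero p := ⟨by omega⟩
  unfold red at *
  rw [mem_filter, mem_range] at *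
  refine ⟨ZMod.val_lt _, ?_⟩
  have h5 : (n : ZMod p) * (n : ZMod p)⁻¹ = 1 := ZMod.coe_mul_inv_eq_one n h.2
  rw [← ZMod.isUnit_iff_coprime]
  unfold w
  rw [ZMod.natCast_zmod_val]
  exact IsUnit.of_mul_eq_one (n : ZMod p) (by rw [mul_comm]; exact h5)

theorem w_w (p n : ℕ) (hp : 0 < p) (h : n ∈ red p) : w p (w p n) = n := by
  have : NeZero p := ⟨by omega⟩
  have h1 := w_mem p n hp h
  unfold red at *
  rw [mem_filter, mem_range] at *
  have h5 : (n : ZMod p) * (n : ZMod p)⁻¹ = 1 := ZMod.coe_mul_inv_eq_one n h.2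
  have h6 : ((w p n : ℕ) : ZMod p) = (n : ZMod p)⁻¹ := by
    unfold w
    rw [ZMod.natCast_zmod_val]
  have h7 : ((w p n : ℕ) : ZMod p) * ((w p n : ℕ) : ZMod p)⁻¹ = 1 :=
    ZMod.coe_mul_inv_eq_one _ h1.2
  have h8 : ((w p n : ℕ) : ZMod p)⁻¹ = n := by
    calc ((w p n : ℕ) : ZMod p)⁻¹ = ((n : ZMod p) * (n : ZMod p)⁻¹) * ((w p n : ℕ) : ZMod p)⁻¹ := by
          rw [h5, one_mul]
      _ = (n : ZMod p) * (((w p n : ℕ) : ZMod p) * ((w p n : ℕ) : ZMod p)⁻¹) := by rw [h6]; ring
      _ = n := by rw [h7, mul_one]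
  have h9 : w p (w p n) = (((w p n : ℕ) : ZMod p)⁻¹).val := rfl
  rw [h9, h8, ZMod.val_natCast_of_lt h.1]

theorem jacobi_w (p n : ℕ) (hp : 0 < p) (h : n ∈ red p) :
    jacobiSym (w p n : ℤ) p = jacobiSym (n : ℤ) p := by
  have : NeZero p := ⟨by omega⟩
  unfold red at h
  rw [mem_filter, mem_range] at h
  have h5 : (n : ZMod p) * (n : ZMod p)⁻¹ = 1 := ZMod.coe_mul_inv_eq_one n h.2
  have h6 : ((w p n : ℕ) : ZMod p) = (n : ZMod p)⁻¹ := by
    unfold w
    rw [ZMod.natCast_zmod_val]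
  have h1 : jacobiSym ((n : ℤ) * (w p n : ℤ)) p = 1 := by
    have e1 : (((n : ℤ) * (w p n : ℤ) : ℤ) : ZMod p) = ((1 : ℤ) : ZMod p) := by
      push_cast
      rw [h6, h5]
    rw [ZMod.intCast_eq_intCast_iff] at e1
    have e2 := jacobiSym.mod_left ((n : ℤ) * (w p n : ℤ)) p
    rw [e2, e1, ← jacobiSym.mod_left, jacobiSym.one_left]
  rw [jacobiSym.mul_left] at h1
  have h2 : jacobiSym (n : ℤ) p ^ 2 = 1 := by
    apply jacobiSym.sq_one
    rw [Int.gcd_natCast_natCast]
    exact h.2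
  calc jacobiSym (w p n : ℤ) p = jacobiSym (n : ℤ) p ^ 2 * jacobiSym (w p n : ℤ) p := by
        rw [h2, one_mul]
    _ = jacobiSym (n : ℤ) p * (jacobiSym (n : ℤ) p * jacobiSym (w p n : ℤ) p) := by ring
    _ = _ := by rw [h1, mul_one]

/-- the sign -/
def sg (p m : ℕ) : ℤ := if 2 * m < p then 1 else -1

theorem sum_len (p : ℕ) (hodd : Odd p) (hp1 : 1 < p) :
    ∑ n ∈ red p, jacobiSym (n : ℤ) p * (-1) ^ (len p n + 1) =
      ∑ m ∈ red p, jacobiSym (m : ℤ) p * sg p m := by
  have hp : 0 < p := by omega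
  apply Finset.sum_nbij' (w p) (w p)
  · intro n hn; exact w_mem p n hp hn
  · intro n hn; exact w_mem p n hp hn
  · intro n hn; exact w_w p n hp hn
  · intro n hn; exact w_w p n hp hn
  · intro n hn
    rw [jacobi_w p n hp hn]
    unfold red at hn
    rw [mem_filter, mem_range] at hn
    have hn0 : 0 < n := by
      rcases Nat.eq_zero_or_pos n with h | h
      · rw [h, Nat.coprime_zero_left] at hn
        omega
      · exact h
    rw [parity p n hn0 hn.1 hn.2 hodd]
    rfl

/-- the half sum -/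
def S (p : ℕ) : ℤ := ∑ m ∈ (range p).filter fun m => 2 * m < p, jacobiSym (m : ℤ) p

theorem sum_sg (p : ℕ) (hodd : Odd p) (hp1 : 1 < p) :
    ∑ m ∈ red p, jacobiSym (m : ℤ) p * sg p m = (1 - jacobiSym (-1) p) * S p := by
  have : NeZero p := ⟨by omega⟩
  have h1 : ∑ m ∈ red p, jacobiSym (m : ℤ) p * sg p m =
      ∑ m ∈ range p, jacobiSym (m : ℤ) p * sg p m := by
    unfold red
    rw [Finset.sum_filter]
    apply Finset.sum_congr rfl
    intro m _
    split_ifs with h
    · rfl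
    · rw [jacobiSym.eq_zero_iff_not_coprime.2, zero_mul]
      rwa [Int.gcd_natCast_natCast]
  rw [h1, ← Finset.sum_filter_add_sum_filter_not (range p) (fun m => 2 * m < p)]
  have h2 : ∑ m ∈ (range p).filter (fun m => 2 * m < p), jacobiSym (m : ℤ) p * sg p m = S p := by
    unfold S
    apply Finset.sum_congr rfl
    intro m hm
    rw [mem_filter] at hm
    unfold sg
    rw [if_pos hm.2, mul_one]
  have h3 : ∑ m ∈ (range p).filter (fun m => ¬ 2 * m < p), jacobiSym (m : ℤ) p * sg p m =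
      ∑ m ∈ ((range p).filter (fun m => 2 * m < p)).erase 0, - jacobiSym (-1) p * jacobiSym (m : ℤ) p := by
    apply Finset.sum_nbij' (fun m => p - m) (fun m => p - m)
    · intro m hm
      rw [mem_filter, mem_range] at hm
      rw [mem_erase, mem_filter, mem_range]
      obtain ⟨k, hk⟩ := hodd
      omega
    · intro m hm
      rw [mem_erase, mem_filter, mem_range] at hm
      rw [mem_filter, mem_range]
      omega
    · intro m hm
      rw [mem_filter, mem_range] at hm
      omega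
    · intro m hm
      rw [mem_erase, mem_filter, mem_range] at hm
      omega
    · intro m hm
      rw [mem_filter, mem_range] at hm
      unfold sg
      rw [if_neg hm.2]
      have e1 : ((p - m : ℕ) : ℤ) = (p : ℤ) - m := by
        rw [Nat.cast_sub hm.1.le]
      have e2 : jacobiSym (m : ℤ) p = jacobiSym (-1) p * jacobiSym ((p - m : ℕ) : ℤ) p := by
        rw [← jacobiSym.mul_left, e1, jacobiSym.mod_left (m : ℤ),
          jacobiSym.mod_left (-1 * ((p : ℤ) - m))]
        have : (-1 * ((p : ℤ) - m)) = m + (-1) * p := by ring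
        rw [this, Int.add_mul_emod_self_right]
      rw [e2]
      ring
  have h4 : S p = ∑ m ∈ ((range p).filter (fun m => 2 * m < p)).erase 0, jacobiSym (m : ℤ) p := by
    unfold S
    rw [Finset.sum_erase]
    rw [Nat.cast_zero]
    exact jacobiSym.zero_left hp1
  rw [h2, h3, ← Finset.mul_sum, ← h4]
  ring

end Pool.Agent.R343.CFP
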