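import Pool.Agent.R343.CFP2

set_option autoImplicit false

/-!
# The two counts
-/

namespace Pool.Agent.R343.CFP

open Finset

/-- the set of the `n` with `(n / p) = (-1) ^ (λ(n) + e)` -/
def MM (p e : ℕ) : Set ℕ :=
  {n | 0 < n ∧ n < p ∧ ∃ l, IsExp p n l ∧ jacobiSym (n : ℤ) p = (-1) ^ (l.length + e)}

/-- the sign of `n` -/
noncomputable def g (p n : ℕ) : ℤ := jacobiSym (n : ℤ) p * (-1) ^ (len p n + 1)

theorem red_pos (p n : ℕ) (hp : 1 < p) (h : n ∈ red p) : 0 < n ∧ n < p ∧ Nat.Coprime n p := by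
  unfold red at h
  rw [mem_filter, mem_range] at h
  refine ⟨?_, h.1, h.2⟩
  rcases Nat.eq_zero_or_pos n with h1 | h1
  · rw [h1, Nat.coprime_zero_left] at h
    omega
  · exact h1

theorem g_pm (p n : ℕ) (h : n ∈ red p) : g p n = 1 ∨ g p n = -1 := by
  unfold g
  have h2 : jacobiSym (n : ℤ) p = 1 ∨ jacobiSym (n : ℤ) p = -1 := by
    unfold red at h
    rw [mem_filter, mem_range] at h
    apply jacobiSym.eq_one_or_neg_one
    rw [Int.gcd_natCast_natCast]
    exact h.2
  rcases h2 with h2 | h2 <;> rcases neg_one_pow_eq_or ℤ (len p n + 1) with h3 | h3 <;>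
    rw [h2, h3] <;> norm_num

theorem MM_eq (p : ℕ) (hp : 1 < p) (e : ℕ) :
    MM p e = (((red p).filter fun n => g p n = (-1) ^ (e + 1) : Finset ℕ) : Set ℕ) := by
  have : NeZero p := ⟨by omega⟩
  ext n
  rw [mem_coe, mem_filter]
  constructor
  · rintro ⟨h0, h1, l, hl, h2⟩
    have h3 : n ∈ red p := by
      unfold red
      rw [mem_filter, mem_range]
      refine ⟨h1, ?_⟩
      by_contra hc
      rw [jacobiSym.eq_zero_iff_not_coprime.2] at h2
      · rcases neg_one_pow_eq_or ℤ (l.length + e) with h | h <;> rw [h] at h2 <;> norm_num at h2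
      · rwa [Int.gcd_natCast_natCast]
    refine ⟨h3, ?_⟩
    unfold g
    rw [len_eq p n h0 h1 l hl, h2, ← pow_add]
    have : l.length + e + (l.length + 1) = 2 * l.length + (e + 1) := by ring
    rw [this, pow_add, pow_mul]
    norm_num
  · rintro ⟨h3, h4⟩
    obtain ⟨h0, h1, hc⟩ := red_pos p n hp h3
    obtain ⟨l, hl, _⟩ := existsUnique p n h0 h1
    refine ⟨h0, h1, l, hl, ?_⟩
    unfold g at h4
    rw [len_eq p n h0 h1 l hl] at h4
    have h5 : ((-1 : ℤ) ^ (l.length + 1)) * (-1) ^ (l.length + 1) = 1 := by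
      rw [← pow_add, ← two_mul, pow_mul]; norm_num
    calc jacobiSym (n : ℤ) p = (jacobiSym (n : ℤ) p * (-1) ^ (l.length + 1)) *
          (-1) ^ (l.length + 1) := by rw [mul_assoc, h5, mul_one]
      _ = (-1) ^ (e + 1) * (-1) ^ (l.length + 1) := by rw [h4]
      _ = (-1) ^ (l.length + e + 2) := by rw [← pow_add]; congr 1; ring
      _ = (-1) ^ (l.length + e) := by rw [pow_add]; norm_num

theorem MM_zero (p : ℕ) (hp : 1 < p) :
    (MM p 0).ncard = ((red p).filter fun n => g p n = -1).card := by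
  rw [MM_eq p hp, Set.ncard_coe_finset]
  norm_num

theorem MM_one (p : ℕ) (hp : 1 < p) :
    (MM p 1).ncard = ((red p).filter fun n => g p n = 1).card := by
  rw [MM_eq p hp, Set.ncard_coe_finset]
  norm_num

theorem sum_card (p : ℕ) (hp : 1 < p) :
    ((MM p 1).ncard : ℤ) - (MM p 0).ncard = ∑ n ∈ red p, g p n := by
  rw [MM_zero p hp, MM_one p hp, Finset.card_filter, Finset.card_filter]
  push_cast
  rw [← Finset.sum_sub_distrib]
  apply Finset.sum_congr rfl
  intro n hn
  rcases g_pm p n hn with h | h <;> rw [h] <;> norm_num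

theorem add_card (p : ℕ) (hp : 1 < p) : (MM p 1).ncard + (MM p 0).ncard = p.totient := by
  rw [MM_zero p hp, MM_one p hp]
  have h1 : (red p).filter (fun n => g p n = -1) = (red p).filter (fun n => ¬ g p n = 1) := by
    apply Finset.filter_congr
    intro n hn
    rcases g_pm p n hn with h | h <;> rw [h] <;> norm_num
  rw [h1, Finset.card_filter_add_card_filter_not]
  unfold red
  rw [Nat.totient_eq_card_coprime]
  congr 1
  apply Finset.filter_congr
  intro n _
  exact Nat.coprime_comm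

/-- the difference of the counts -/
theorem sub_card (p : ℕ) (hodd : Odd p) (hp : 1 < p) :
    ((MM p 1).ncard : ℤ) - (MM p 0).ncard = (1 - jacobiSym (-1) p) * S p := by
  rw [sum_card p hp, ← sum_sg p hodd hp, ← sum_len p hodd hp]
  rfl

theorem card_zero (p : ℕ) (hodd : Odd p) (hp : 1 < p) :
    (MM p 0).ncard = ((red p).filter fun m : ℕ => jacobiSym (m : ℤ) p * sg p m = -1).card := by
  rw [MM_zero p hp]
  have hp0 : 0 < p := by omega
  have hg : ∀ n ∈ red p, g p n = jacobiSym (w p n : ℤ) p * sg p (w p n) := by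
    intro n hn
    obtain ⟨h0, h1, hc⟩ := red_pos p n hp hn
    unfold g
    rw [jacobi_w p n hp0 hn, parity p n h0 h1 hc hodd]
    rfl
  apply Finset.card_nbij' (w p) (w p)
  · intro n hn
    rw [coe_filter, Set.mem_ofPred_eq] at *
    exact ⟨w_mem p n hp0 hn.1, by rw [← hg n hn.1]; exact hn.2⟩
  · intro n hn
    rw [coe_filter, Set.mem_ofPred_eq] at *
    refine ⟨w_mem p n hp0 hn.1, ?_⟩
    rw [hg _ (w_mem p n hp0 hn.1), w_w p n hp0 hn.1]
    exact hn.2
  · intro n hn
    rw [coe_filter, Set.mem_ofPred_eq] at hn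
    exact w_w p n hp0 hn.1
  · intro n hn
    rw [coe_filter, Set.mem_ofPred_eq] at hn
    exact w_w p n hp0 hn.1

end Pool.Agent.R343.CFP
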