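import Mathlib

set_option autoImplicit false

/-!
Weights: powers of `y` in a ring with a relation `y ^ Q + c p y ^ (Q / p) ∈ (terms of larger weight)`.
-/

namespace Pool.Agent.R343.Cyc

variable {R : Type*} [CommRing R]

/-- generated by the `π ^ c y ^ i` of weight `c φ + i ≥ w` -/
def W (π y : R) (φ w : ℕ) : Ideal R :=
  Ideal.span {r | ∃ c i : ℕ, w ≤ c * φ + i ∧ r = π ^ c * y ^ i}

/-- generated by the `π ^ c y ^ i` of weight `c φ + i ≥ w`, with `c ≥ 1` -/
def W' (π y : R) (φ w : ℕ) : Ideal R :=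
  Ideal.span {r | ∃ c i : ℕ, 1 ≤ c ∧ w ≤ c * φ + i ∧ r = π ^ c * y ^ i}

lemma mem_W {π y : R} {φ w c i : ℕ} (h : w ≤ c * φ + i) : π ^ c * y ^ i ∈ W π y φ w :=
  Ideal.subset_span ⟨c, i, h, rfl⟩

lemma mem_W' {π y : R} {φ w c i : ℕ} (hc : 1 ≤ c) (h : w ≤ c * φ + i) :
    π ^ c * y ^ i ∈ W' π y φ w :=
  Ideal.subset_span ⟨c, i, hc, h, rfl⟩

lemma W_mul {π y : R} {φ w : ℕ} {r : R} (hr : r ∈ W π y φ w) (c i : ℕ) {w' : ℕ}
    (hw : w' ≤ w + (c * φ + i)) : π ^ c * y ^ i * r ∈ W π y φ w' := by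
  unfold W at hr
  induction hr using Submodule.span_induction with
  | mem x hx =>
    obtain ⟨c', i', h, rfl⟩ := hx
    have : π ^ c * y ^ i * (π ^ c' * y ^ i') = π ^ (c + c') * y ^ (i + i') := by ring
    rw [this]
    apply mem_W
    rw [add_mul]; omega
  | zero => rw [mul_zero]; exact zero_mem _
  | add x z _ _ hx hz => rw [mul_add]; exact add_mem hx hz
  | smul a x _ hx =>
    rw [smul_eq_mul, mul_left_comm]
    exact Ideal.mul_mem_left _ _ hx

lemma W'_le {π y : R} {φ w : ℕ} {r : R} (hr : r ∈ W' π y φ w) : r ∈ W π y φ w := by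
  apply Ideal.span_mono _ hr
  rintro _ ⟨c, i, _, h, rfl⟩
  exact ⟨c, i, h, rfl⟩

lemma W'_mul {π y : R} {φ w : ℕ} {r : R} (hr : r ∈ W' π y φ w) {w' : ℕ} (hw : w' + φ ≤ w) :
    ∃ s ∈ W π y φ w', r = π * s := by
  unfold W' at hr
  induction hr using Submodule.span_induction with
  | mem x hx =>
    obtain ⟨c, i, hc, h, rfl⟩ := hx
    obtain ⟨c, rfl⟩ := Nat.exists_eq_add_of_le hc
    refine ⟨π ^ c * y ^ i, mem_W ?_, by ring⟩
    rw [add_mul, one_mul] at h; omega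
  | zero => exact ⟨0, zero_mem _, by ring⟩
  | add x z _ _ hx hz =>
    obtain ⟨s, hs, rfl⟩ := hx
    obtain ⟨t, ht, rfl⟩ := hz
    exact ⟨s + t, add_mem hs ht, by ring⟩
  | smul a x _ hx =>
    obtain ⟨s, hs, rfl⟩ := hx
    exact ⟨a * s, Ideal.mul_mem_left _ _ hs, by rw [smul_eq_mul]; ring⟩

section

variable {π y : R} {Q φ q c : ℕ} {u : R} (hQ : Q = φ + q) (hq : 1 ≤ q) (hφ : 1 ≤ φ)
  (hrel : y ^ Q + u * π * y ^ q ∈ W' π y φ (Q + 1))

include hQ hrel

lemma relQ : y ^ Q ∈ W' π y φ Q := by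
  have h1 : u * π * y ^ q ∈ W' π y φ Q := by
    have : u * π * y ^ q = u * (π ^ 1 * y ^ q) := by ring
    rw [this]
    apply Ideal.mul_mem_left
    apply mem_W' le_rfl
    omega
  have h2 : y ^ Q + u * π * y ^ q ∈ W' π y φ Q := by
    apply Ideal.span_mono _ hrel
    rintro _ ⟨c, i, hc, h, rfl⟩
    exact ⟨c, i, hc, by omega, rfl⟩
  have := sub_mem h2 h1
  simpa using this

lemma claimA {i : ℕ} (hi : Q ≤ i) {w : ℕ} (hw : w + φ ≤ i) : ∃ s ∈ W π y φ w, y ^ i = π * s := by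
  obtain ⟨s, hs, h⟩ := W'_mul (w' := q) (relQ hQ hrel) (by omega)
  obtain ⟨t, rfl⟩ := Nat.exists_eq_add_of_le hi
  refine ⟨π ^ 0 * y ^ t * s, W_mul hs 0 t (by omega), ?_⟩
  rw [pow_add, h]
  ring

lemma claimB (j : ℕ) : ∀ w : ℕ, Q + j * φ ≤ w → ∀ r ∈ W π y φ w, π ^ (j + 1) ∣ r := by
  have key : ∀ j : ℕ, (∀ w : ℕ, Q + j * φ ≤ w → ∀ c i : ℕ, w ≤ c * φ + i →
      π ^ (j + 1) ∣ π ^ c * y ^ i) → ∀ w : ℕ, Q + j * φ ≤ w → ∀ r ∈ W π y φ w, π ^ (j + 1) ∣ r := by
    intro j hj w hw r hr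
    unfold W at hr
    induction hr using Submodule.span_induction with
    | mem x hx =>
      obtain ⟨c, i, h, rfl⟩ := hx
      exact hj w hw c i h
    | zero => exact dvd_zero _
    | add x z _ _ hx hz => exact dvd_add hx hz
    | smul a x _ hx => exact Dvd.dvd.mul_left hx _
  induction j with
  | zero =>
    apply key
    intro w hw c i h
    rw [zero_add, pow_one]
    rcases Nat.eq_zero_or_pos c with rfl | hc
    · rw [pow_zero, one_mul]
      obtain ⟨s, _, hs⟩ := claimA hQ hrel (i := i) (w := q) (by omega) (by omega)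
      exact ⟨s, hs⟩
    · exact Dvd.dvd.mul_right (dvd_pow_self _ (by omega)) _
  | succ j ih =>
    apply key
    intro w hw c i h
    rcases Nat.eq_zero_or_pos c with rfl | hc
    · rw [pow_zero, one_mul]
      have hw' : Q + j * φ + φ ≤ i := by
        have : (j + 1) * φ = j * φ + φ := by ring
        omega
      obtain ⟨s, hs, hs'⟩ := claimA hQ hrel (i := i) (w := Q + j * φ) (by omega) hw'
      rw [hs', pow_succ' π (j + 1)]
      exact mul_dvd_mul_left _ (ih _ le_rfl s hs)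
    · obtain ⟨c, rfl⟩ : ∃ c', c = c' + 1 := ⟨c - 1, by omega⟩
      have e : π ^ (c + 1) * y ^ i = π * (π ^ c * y ^ i) := by ring
      rw [e, pow_succ' π (j + 1)]
      apply mul_dvd_mul_left
      apply ih (Q + j * φ) le_rfl
      apply mem_W
      have : (j + 1) * φ = j * φ + φ := by ring
      have : (c + 1) * φ = c * φ + φ := by ring
      omega

include hq hφ in
lemma claimC (j : ℕ) : y ^ (Q - 1 + j * φ) - (-(u * π)) ^ j * y ^ (Q - 1) ∈ W π y φ (Q + j * φ) := by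
  induction j with
  | zero => simp
  | succ j ih =>
    have e1 : y ^ (Q - 1 + (j + 1) * φ) - (-(u * π)) ^ (j + 1) * y ^ (Q - 1) =
        π ^ 0 * y ^ φ * (y ^ (Q - 1 + j * φ) - (-(u * π)) ^ j * y ^ (Q - 1)) +
          (-u) ^ j * (π ^ j * y ^ (φ - 1) * (y ^ Q + u * π * y ^ q)) := by
      have h1 : y ^ (Q - 1 + (j + 1) * φ) = y ^ φ * y ^ (Q - 1 + j * φ) := by
        rw [← pow_add]; congr 1; ring
      have h2 : y ^ φ * y ^ (Q - 1) = y ^ (φ - 1) * y ^ Q := by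
        rw [← pow_add, ← pow_add]; congr 1; omega
      have h3 : y ^ (Q - 1) = y ^ (φ - 1) * y ^ q := by
        rw [← pow_add]; congr 1; omega
      have h4 : (-(u * π)) ^ j = (-u) ^ j * π ^ j := by rw [← mul_pow]; congr 1; ring
      have h5 : (-(u * π)) ^ (j + 1) = (-u) ^ j * π ^ j * (-(u * π)) := by rw [pow_succ, h4]
      rw [h1, h5, h4]
      linear_combination ((-u) ^ j * π ^ j) * h2 + (-(u * π)) * (-u) ^ j * π ^ j * (-1) * h3
    rw [e1]
    apply add_mem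
    · apply W_mul ih
      have : (j + 1) * φ = j * φ + φ := by ring
      omega
    · apply Ideal.mul_mem_left
      apply W_mul (W'_le hrel)
      have : (j + 1) * φ = j * φ + φ := by ring
      omega

end

end Pool.Agent.R343.Cyc
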