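import Mathlib
import Pool.Agent.R343.CycW

set_option autoImplicit false

/-!
The relation given by the binomial theorem, and the nilpotency statements.
-/

namespace Pool.Agent.R343.Cyc

open Finset

lemma choose_weight {p a i : ℕ} (hp : p.Prime) (ha : 1 ≤ a) (hi0 : 0 < i) (hi : i < p ^ a)
    (hiq : i ≠ p ^ (a - 1)) :
    ∃ s : ℕ, 1 ≤ s ∧ p ^ s ∣ (p ^ a).choose i ∧
      p ^ a + 1 ≤ s * (p ^ (a - 1) * (p - 1)) + i := by
  have hsum := Nat.factorization_choose_prime_pow_add_factorization (p := p) (n := a) (k := i) hp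
    hi.le (by omega)
  set s := ((p ^ a).choose i).factorization p with hs
  set v := i.factorization p with hv
  have hvd : p ^ v ∣ i := Nat.ordProj_dvd i p
  have hva : v < a := by
    have h1 : p ^ v ≤ i := Nat.le_of_dvd hi0 hvd
    exact (Nat.pow_lt_pow_iff_right hp.one_lt).1 (lt_of_le_of_lt h1 hi)
  have hp2 := hp.two_le
  have hq0 : 0 < p ^ (a - 1) := pow_pos hp.pos _
  have hpa : p ^ a = p * p ^ (a - 1) := by
    rw [← pow_succ']; congr 1; omega
  have hφ : p ^ (a - 1) * (p - 1) + p ^ (a - 1) = p ^ a := by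
    rw [hpa]
    obtain ⟨t, rfl⟩ := Nat.exists_eq_add_of_le hp.one_le
    rw [Nat.add_sub_cancel_left]; ring
  refine ⟨s, by omega, Nat.ordProj_dvd _ _, ?_⟩
  rcases Nat.lt_or_ge s 2 with h | h
  · have hs1 : s = 1 := by omega
    have hv1 : v = a - 1 := by omega
    rw [hs1, one_mul]
    obtain ⟨i', hi'⟩ := hvd
    rw [hv1] at hi'
    have : 2 ≤ i' := by
      by_contra hlt
      interval_cases i'
      · omega
      · rw [mul_one] at hi'; exact hiq hi'
    have : p ^ (a - 1) * 2 ≤ i := by rw [hi']; exact Nat.mul_le_mul_left _ this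
    omega
  · have h1 : 2 * (p ^ (a - 1) * (p - 1)) ≤ s * (p ^ (a - 1) * (p - 1)) :=
      Nat.mul_le_mul_right _ h
    have h2 : 2 * p ^ (a - 1) ≤ p ^ a := by rw [hpa]; exact Nat.mul_le_mul_right _ hp2
    omega

variable {R : Type*} [CommRing R]

lemma rel {p a : ℕ} (hp : p.Prime) (ha : 1 ≤ a) {y : R} (hy : (y - 1) ^ p ^ a = (-1) ^ p ^ a) :
    ∃ u : ℤ, ¬ (p : ℤ) ∣ u ∧ y ^ p ^ a + (u : R) * (p : R) * y ^ p ^ (a - 1) ∈
      W' (p : R) y (p ^ (a - 1) * (p - 1)) (p ^ a + 1) := by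
  have hp2 := hp.two_le
  set Q := p ^ a with hQ
  set q := p ^ (a - 1) with hq
  have hq0 : 0 < q := pow_pos hp.pos _
  have hQq : Q = p * q := by
    rw [hQ, hq, ← pow_succ']; congr 1; omega
  have hqQ : q < Q := by rw [hQq]; nlinarith
  -- the coefficient
  have hsum := Nat.factorization_choose_prime_pow_add_factorization (p := p) (n := a) (k := q) hp
    hqQ.le (by omega)
  have hfq : q.factorization p = a - 1 := by
    rw [hq, hp.factorization_pow, Finsupp.single_eq_same]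
  have hf1 : (Q.choose q).factorization p = 1 := by rw [hfq, ← hQ] at hsum; omega
  obtain ⟨c, hc⟩ : p ∣ Q.choose q := by
    have := Nat.ordProj_dvd (Q.choose q) p
    rwa [hf1, pow_one] at this
  have hpc : ¬ p ∣ c := by
    rintro ⟨c', rfl⟩
    have h2 : p ^ 2 ∣ Q.choose q := ⟨c', by rw [hc]; ring⟩
    have := (hp.pow_dvd_iff_le_factorization (Nat.choose_pos hqQ.le).ne').1 h2
    omega
  refine ⟨(-1) ^ (Q - q) * c, ?_, ?_⟩
  · intro h
    have h1 : (p : ℤ) ∣ c := by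
      rcases neg_one_pow_eq_or ℤ (Q - q) with h' | h'
      · rwa [h', one_mul] at h
      · rw [h', neg_one_mul, dvd_neg] at h; exact h
    exact hpc (by exact_mod_cast h1)
  -- the binomial sum
  have hbin2 : ∑ i ∈ (range Q).erase 0, y ^ i * (-1) ^ (Q - i) * (Q.choose i : R) + y ^ Q = 0 := by
    have h0 : (0 : ℕ) ∈ range Q := mem_range.2 (by omega)
    have h1 : ∑ i ∈ range (Q + 1), y ^ i * (-1) ^ (Q - i) * (Q.choose i : R) = (-1) ^ Q := by
      rw [← hy, sub_eq_add_neg, add_pow]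
    rw [sum_range_succ, ← add_sum_erase _ _ h0] at h1
    simp only [pow_zero, one_mul, Nat.sub_zero, Nat.choose_zero_right, Nat.cast_one, mul_one,
      Nat.sub_self, Nat.choose_self] at h1
    linear_combination h1
  have hqm : q ∈ (range Q).erase 0 := by
    rw [mem_erase, mem_range]; exact ⟨by omega, hqQ⟩
  rw [← add_sum_erase _ _ hqm] at hbin2
  have e1 : y ^ Q + (((-1) ^ (Q - q) * c : ℤ) : R) * (p : R) * y ^ q =
      -∑ i ∈ ((range Q).erase 0).erase q, y ^ i * (-1) ^ (Q - i) * (Q.choose i : R) := by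
    rw [hc] at hbin2
    push_cast at hbin2 ⊢
    linear_combination hbin2
  rw [e1]
  apply neg_mem
  apply sum_mem
  intro i hi
  rw [mem_erase, mem_erase, mem_range] at hi
  obtain ⟨s, hs1, ⟨d, hd⟩, hs3⟩ := choose_weight hp ha (by omega : 0 < i) hi.2.2 hi.1
  rw [← hQ] at hd
  have e2 : y ^ i * (-1) ^ (Q - i) * (Q.choose i : R) =
      ((-1) ^ (Q - i) * d) * ((p : R) ^ s * y ^ i) := by
    rw [hd]; push_cast; ring
  rw [e2]
  apply Ideal.mul_mem_left
  exact mem_W' hs1 hs3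

/-- nilpotency -/
lemma nil_of_rel {p a k : ℕ} (hp : p.Prime) (ha : 1 ≤ a) (hk : 1 ≤ k) {y : R}
    (hpk : (p : R) ^ k = 0) (hy : (y - 1) ^ p ^ a = (-1) ^ p ^ a) :
    y ^ (p ^ (a - 1) * (p + (k - 1) * (p - 1))) = 0 := by
  obtain ⟨u, _, hrel⟩ := rel hp ha hy
  have hQ : p ^ a = p ^ (a - 1) * (p - 1) + p ^ (a - 1) := by
    obtain ⟨a, rfl⟩ : ∃ a', a = a' + 1 := ⟨a - 1, by omega⟩
    obtain ⟨t, rfl⟩ := Nat.exists_eq_add_of_le hp.one_le
    rw [Nat.add_sub_cancel_left, Nat.add_sub_cancel, pow_succ]; ring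
  have h := claimB hQ hrel (k - 1) (p ^ a + (k - 1) * (p ^ (a - 1) * (p - 1))) le_rfl
    ((p : R) ^ 0 * y ^ (p ^ a + (k - 1) * (p ^ (a - 1) * (p - 1)))) (mem_W (by omega))
  rw [Nat.sub_add_cancel hk, hpk, zero_dvd_iff, pow_zero, one_mul] at h
  have e : p ^ (a - 1) * (p + (k - 1) * (p - 1)) = p ^ a + (k - 1) * (p ^ (a - 1) * (p - 1)) := by
    rw [hQ]
    obtain ⟨t, rfl⟩ := Nat.exists_eq_add_of_le hp.one_le
    rw [Nat.add_sub_cancel_left]; ring
  rw [e, h]

/-- the lower bound: in a ring in which `p` is not a zero divisor -/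
lemma not_dvd_of_rel {p a k : ℕ} (hp : p.Prime) (ha : 1 ≤ a) (hk : 1 ≤ k) {y : R}
    (hreg : ∀ r : R, (p : R) * r = 0 → r = 0) (hy : (y - 1) ^ p ^ a = (-1) ^ p ^ a)
    (hnd : ¬ (p : R) ∣ y ^ (p ^ a - 1)) :
    ¬ (p : R) ^ k ∣ y ^ (p ^ (a - 1) * (p + (k - 1) * (p - 1)) - 1) := by
  intro hdvd
  obtain ⟨u, hu, hrel⟩ := rel hp ha hy
  have hp2 := hp.two_le
  have hq0 : 0 < p ^ (a - 1) := pow_pos hp.pos _
  have hQ : p ^ a = p ^ (a - 1) * (p - 1) + p ^ (a - 1) := by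
    obtain ⟨a, rfl⟩ : ∃ a', a = a' + 1 := ⟨a - 1, by omega⟩
    obtain ⟨t, rfl⟩ := Nat.exists_eq_add_of_le hp.one_le
    rw [Nat.add_sub_cancel_left, Nat.add_sub_cancel, pow_succ]; ring
  have hφ : 1 ≤ p ^ (a - 1) * (p - 1) := Nat.mul_pos hq0 (by omega)
  have hC := claimC hQ hq0 hφ hrel (k - 1)
  have hB := claimB hQ hrel (k - 1) _ le_rfl _ hC
  rw [Nat.sub_add_cancel hk] at hB
  have e : p ^ (a - 1) * (p + (k - 1) * (p - 1)) - 1 =
      p ^ a - 1 + (k - 1) * (p ^ (a - 1) * (p - 1)) := by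
    have : p ^ (a - 1) * (p + (k - 1) * (p - 1)) = p ^ a + (k - 1) * (p ^ (a - 1) * (p - 1)) := by
      rw [hQ]
      obtain ⟨t, rfl⟩ := Nat.exists_eq_add_of_le hp.one_le
      rw [Nat.add_sub_cancel_left]; ring
    omega
  rw [e] at hdvd
  have h1 : (p : R) ^ k ∣ (-((u : R) * (p : R))) ^ (k - 1) * y ^ (p ^ a - 1) := by
    have := dvd_sub hdvd hB
    simpa using this
  obtain ⟨r, hr⟩ := h1
  have hcancel : ∀ (j : ℕ) (s : R), (p : R) ^ j * s = 0 → s = 0 := by
    intro j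
    induction j with
    | zero => intro s hs; simpa using hs
    | succ j ih =>
      intro s hs
      rw [pow_succ, mul_assoc] at hs
      exact hreg _ (ih _ hs)
  have h2 : (-(u : R)) ^ (k - 1) * y ^ (p ^ a - 1) = (p : R) * r := by
    have h3 : (p : R) ^ (k - 1) * ((-(u : R)) ^ (k - 1) * y ^ (p ^ a - 1) - (p : R) * r) = 0 := by
      have e3 : (p : R) ^ k = (p : R) ^ (k - 1) * p := by
        rw [← pow_succ, Nat.sub_add_cancel hk]
      have e4 : (-((u : R) * (p : R))) ^ (k - 1) = (-(u : R)) ^ (k - 1) * (p : R) ^ (k - 1) := by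
        rw [← mul_pow]; congr 1; ring
      rw [e3, e4] at hr
      linear_combination hr
    exact sub_eq_zero.1 (hcancel _ _ h3)
  -- `u` is a unit modulo `p`
  obtain ⟨x, z, hxz⟩ : IsCoprime ((-u) ^ (k - 1)) (p : ℤ) := by
    apply IsCoprime.pow_left
    apply IsCoprime.neg_left
    rw [isCoprime_comm]
    exact (Prime.coprime_iff_not_dvd (Nat.prime_iff_prime_int.1 hp)).2 hu
  apply hnd
  have hxz' : (x : R) * (-(u : R)) ^ (k - 1) + (z : R) * (p : R) = 1 := by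
    have h5 := congrArg (Int.cast : ℤ → R) hxz
    push_cast at h5
    exact h5
  refine ⟨(x : R) * r + (z : R) * y ^ (p ^ a - 1), ?_⟩
  linear_combination (x : R) * h2 - y ^ (p ^ a - 1) * hxz'

end Pool.Agent.R343.Cyc
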