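import Mathlib
import Pool.Agent.R343.CycRel

set_option autoImplicit false

/-!
The ring `ℤ[x] / (x ^ Q ± 1)`.
-/

namespace Pool.Agent.R343.Cyc

open Polynomial

/-- the polynomial `x ^ Q - (-1) ^ Q` -/
noncomputable def G (Q : ℕ) : ℤ[X] := X ^ Q - C ((-1) ^ Q)

lemma G_monic {Q : ℕ} (hQ : 1 ≤ Q) : (G Q).Monic := monic_X_pow_sub_C _ (by omega)

lemma G_natDegree {Q : ℕ} : (G Q).natDegree = Q := natDegree_X_pow_sub_C

lemma map_eq_zero_dvd {p : ℕ} {q : ℤ[X]} (h : q.map (Int.castRingHom (ZMod p)) = 0) :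
    ∃ r : ℤ[X], q = C (p : ℤ) * r := by
  have : C (p : ℤ) ∣ q := by
    rw [C_dvd_iff_dvd_coeff]
    intro i
    have h1 := congrArg (fun f => coeff f i) h
    simp only [coeff_map, coeff_zero, eq_intCast] at h1
    exact (ZMod.intCast_zmod_eq_zero_iff_dvd _ _).1 h1
  exact this

lemma reg {p Q : ℕ} (hp : p.Prime) (hQ : 1 ≤ Q) (r : AdjoinRoot (G Q))
    (h : (p : AdjoinRoot (G Q)) * r = 0) : r = 0 := by
  have : Fact p.Prime := ⟨hp⟩
  obtain ⟨r, rfl⟩ := AdjoinRoot.mk_surjective r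
  have h1 : AdjoinRoot.mk (G Q) (C (p : ℤ) * r) = 0 := by
    rw [map_mul, ← h]; simp
  rw [AdjoinRoot.mk_eq_zero] at h1 ⊢
  obtain ⟨q, hq⟩ := h1
  have h2 : (G Q).map (Int.castRingHom (ZMod p)) * q.map (Int.castRingHom (ZMod p)) = 0 := by
    rw [← Polynomial.map_mul, ← hq, Polynomial.map_mul]
    simp
  have h3 : (G Q).map (Int.castRingHom (ZMod p)) ≠ 0 := ((G_monic hQ).map _).ne_zero
  obtain ⟨q', rfl⟩ := map_eq_zero_dvd ((mul_eq_zero.1 h2).resolve_left h3)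
  have h4 : C (p : ℤ) ≠ 0 := by simpa using hp.ne_zero
  refine ⟨q', mul_left_cancel₀ h4 ?_⟩
  rw [hq]; ring

lemma ndvd {p Q : ℕ} (hp : p.Prime) (hQ : 1 ≤ Q) :
    ¬ (p : AdjoinRoot (G Q)) ∣ (1 + AdjoinRoot.root (G Q)) ^ (Q - 1) := by
  have : Fact p.Prime := ⟨hp⟩
  rintro ⟨r, hr⟩
  obtain ⟨r, rfl⟩ := AdjoinRoot.mk_surjective r
  have h1 : AdjoinRoot.mk (G Q) ((1 + X) ^ (Q - 1) - C (p : ℤ) * r) = 0 := by
    rw [map_sub, map_mul, map_pow, map_add, map_one, AdjoinRoot.mk_X, hr]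
    simp
  rw [AdjoinRoot.mk_eq_zero] at h1
  obtain ⟨q, hq⟩ := h1
  have h2 : (G Q).map (Int.castRingHom (ZMod p)) ∣ (1 + X) ^ (Q - 1) := by
    refine ⟨q.map (Int.castRingHom (ZMod p)), ?_⟩
    rw [← Polynomial.map_mul, ← hq]
    simp
  have e : (1 + X : (ZMod p)[X]) = X + C 1 := by rw [C_1, add_comm]
  refine ((G_monic hQ).map (Int.castRingHom (ZMod p))).not_dvd_of_natDegree_lt ?_ ?_ h2
  · exact pow_ne_zero _ (by rw [e]; exact X_add_C_ne_zero 1)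
  · rw [(G_monic hQ).natDegree_map, G_natDegree, e, natDegree_pow, natDegree_X_add_C]
    omega

/-- a quotient ring in which `1 + x` is nilpotent of the right index -/
lemma exists_ring {p n k : ℕ} (hp : p.Prime) (hn0 : 0 < n) (hn : Even n) (hpn : p ∣ n) (hk : 1 ≤ k) :
    ∃ (D : Type) (_ : CommRing D) (x : D), x ^ n = 1 ∧ (p : D) ^ k = 0 ∧ IsNilpotent (1 + x) ∧
      (1 + x) ^ (p ^ (n.factorization p - 1) * (p + (k - 1) * (p - 1)) - 1) ≠ 0 := by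
  set a := n.factorization p with ha
  have ha1 : 1 ≤ a := (hp.dvd_iff_one_le_factorization hn0.ne').1 hpn
  set Q := p ^ a with hQ
  have hQ1 : 1 ≤ Q := pow_pos hp.pos _
  have hroot : (AdjoinRoot.root (G Q)) ^ Q = (-1) ^ Q := by
    have h : AdjoinRoot.mk (G Q) (X ^ Q - C ((-1) ^ Q)) = 0 := AdjoinRoot.mk_self (f := G Q)
    have h3 : AdjoinRoot.mk (G Q) (X ^ Q - C ((-1) ^ Q)) =
        (AdjoinRoot.root (G Q)) ^ Q - (-1) ^ Q := by
      rw [map_sub, map_pow, AdjoinRoot.mk_X]; simp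
    rw [h3] at h
    exact sub_eq_zero.1 h
  have e : 1 + AdjoinRoot.root (G Q) - 1 = AdjoinRoot.root (G Q) := by ring
  have hnd := not_dvd_of_rel hp ha1 hk (y := 1 + AdjoinRoot.root (G Q)) (reg hp hQ1)
    (by rw [e]; exact hroot) (ndvd hp hQ1)
  set J : Ideal (AdjoinRoot (G Q)) := Ideal.span {(p : AdjoinRoot (G Q)) ^ k} with hJ
  have hpJ : ((p : ℕ) : AdjoinRoot (G Q) ⧸ J) ^ k = 0 := by
    have : Ideal.Quotient.mk J ((p : AdjoinRoot (G Q)) ^ k) = 0 :=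
      Ideal.Quotient.eq_zero_iff_mem.2 (Ideal.subset_span rfl)
    rw [← this]; simp
  have hxQ : (Ideal.Quotient.mk J (AdjoinRoot.root (G Q))) ^ Q = (-1) ^ Q := by
    rw [← map_pow, hroot]; simp
  refine ⟨AdjoinRoot (G Q) ⧸ J, inferInstance, Ideal.Quotient.mk J (AdjoinRoot.root (G Q)), ?_, hpJ,
    ?_, ?_⟩
  · obtain ⟨N, hN⟩ : Q ∣ n := Nat.ordProj_dvd n p
    rw [hN, pow_mul, hxQ, ← pow_mul, ← hN, hn.neg_one_pow]
  · refine ⟨_, nil_of_rel hp ha1 hk hpJ ?_⟩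
    have e2 : 1 + Ideal.Quotient.mk J (AdjoinRoot.root (G Q)) - 1 =
        Ideal.Quotient.mk J (AdjoinRoot.root (G Q)) := by ring
    rw [e2]; exact hxQ
  · intro h
    apply hnd
    rw [← map_one (Ideal.Quotient.mk J), ← map_add, ← map_pow,
      Ideal.Quotient.eq_zero_iff_mem, hJ, Ideal.mem_span_singleton] at h
    exact h

end Pool.Agent.R343.Cyc
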