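import Mathlib
import Pool.Agent.R343.CycRel

set_option autoImplicit false

/-!
The power of `1 + x` which vanishes if `x ^ n = 1`, `p ^ k = 0` and `1 + x` is nilpotent.
-/

namespace Pool.Agent.R343.Cyc

open Finset

/-- the contribution of the prime `p` -/
def primeTerm (m n p : ℕ) : ℕ :=
  if Even n ∧ p ∣ n then
    p ^ (n.factorization p - 1) * (p + (m.factorization p - 1) * (p - 1))
  else if p = 2 then m.factorization 2 else 1

variable {R : Type*} [CommRing R]

lemma isUnit_of {S c y : R} (h : y ∣ S - c) (hc : IsUnit c) (hy : IsNilpotent y) : IsUnit S := by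
  obtain ⟨t, ht⟩ := h
  have e : S = c + y * t := by linear_combination ht
  rw [e]
  have hn : IsNilpotent (y * t) := by
    obtain ⟨N, hN⟩ := hy
    exact ⟨N, by rw [mul_pow, hN, zero_mul]⟩
  exact hn.isUnit_add_left_of_commute hc (Commute.all _ _)

lemma isUnit_int {p k : ℕ} (hpk : (p : R) ^ k = 0) {c : ℤ} (hc : IsCoprime c (p : ℤ)) :
    IsUnit (c : R) := by
  obtain ⟨a, b, hab⟩ := hc.pow_right (n := k)
  have h := congrArg (Int.cast : ℤ → R) hab
  push_cast at h
  rw [hpk, mul_zero, add_zero] at h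
  exact IsUnit.of_mul_eq_one _ (by rw [mul_comm]; exact h)

lemma dvd_pow_sub (y x : R) (hx : y = 1 + x) (j : ℕ) : y ∣ x ^ j - (-1) ^ j := by
  have : y = x - (-1) := by rw [hx]; ring
  rw [this]
  exact sub_dvd_pow_sub_pow x (-1) j

/-- odd `p`, even `n` -/
lemma odd_even {p n k : ℕ} (hp : p.Prime) (hp2 : p ≠ 2) (hn0 : 0 < n) (hn : Even n)
    (hpk : (p : R) ^ k = 0) {x : R} (hx : x ^ n = 1) (hy : IsNilpotent (1 + x)) :
    x ^ p ^ (n.factorization p) = -1 := by
  set a := n.factorization p with ha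
  set Q := p ^ a with hQ
  obtain ⟨N, hN⟩ : Q ∣ n := Nat.ordProj_dvd n p
  have hpodd : Odd p := hp.odd_of_ne_two hp2
  have hQodd : Odd Q := hpodd.pow
  have hNp : ¬ p ∣ N := by
    rintro ⟨N', rfl⟩
    have h2 : p ^ (a + 1) ∣ n := ⟨N', by rw [hN, hQ]; ring⟩
    have := (hp.pow_dvd_iff_le_factorization hn0.ne').1 h2
    omega
  obtain ⟨M, hM⟩ : Even N := by
    rw [hN, Nat.even_mul] at hn
    rcases hn with h | h
    · exact absurd h (Nat.not_even_iff_odd.2 hQodd)
    · exact h
  set S : R := (x ^ Q - 1) * ∑ i ∈ range M, (x ^ Q) ^ (2 * i) with hS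
  have h0 : (x ^ Q + 1) * S = 0 := by
    have hg : (∑ i ∈ range M, ((x ^ Q) ^ 2) ^ i) * ((x ^ Q) ^ 2 - 1) = ((x ^ Q) ^ 2) ^ M - 1 :=
      geom_sum_mul _ _
    have e1 : ((x ^ Q) ^ 2) ^ M = 1 := by
      rw [← pow_mul, ← pow_mul, ← hx, hN, hM]; congr 1; ring
    rw [e1, sub_self] at hg
    have e2 : ∑ i ∈ range M, (x ^ Q) ^ (2 * i) = ∑ i ∈ range M, ((x ^ Q) ^ 2) ^ i :=
      sum_congr rfl fun i _ => pow_mul _ _ _
    rw [hS, e2]
    linear_combination hg
  have hyx : (1 + x) ∣ S - ((-(N : ℤ) : ℤ) : R) := by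
    have h1 : (1 + x) ∣ (x ^ Q - 1) - (-2) := by
      have := dvd_pow_sub (1 + x) x rfl Q
      rw [hQodd.neg_one_pow] at this
      have e : x ^ Q - 1 - (-2) = x ^ Q - (-1) := by ring
      rw [e]; exact this
    have h2 : (1 + x) ∣ (∑ i ∈ range M, (x ^ Q) ^ (2 * i)) - (M : R) := by
      have e : (∑ i ∈ range M, (x ^ Q) ^ (2 * i)) - (M : R) =
          ∑ i ∈ range M, ((x ^ Q) ^ (2 * i) - 1) := by
        rw [sum_sub_distrib]; simp
      rw [e]
      apply dvd_sum
      intro i _
      have := dvd_pow_sub (1 + x) x rfl (Q * (2 * i))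
      rw [pow_mul, Even.neg_one_pow ⟨Q * i, by ring⟩] at this
      exact this
    obtain ⟨s, hs⟩ := h1
    obtain ⟨t, ht⟩ := h2
    refine ⟨s * (∑ i ∈ range M, (x ^ Q) ^ (2 * i)) - 2 * t, ?_⟩
    rw [hS, hM]
    push_cast
    linear_combination (∑ i ∈ range M, (x ^ Q) ^ (2 * i)) * hs - 2 * ht
  have hSu : IsUnit S := by
    apply isUnit_of hyx _ hy
    apply isUnit_int hpk
    apply IsCoprime.neg_left
    rw [isCoprime_comm]
    exact (Prime.coprime_iff_not_dvd (Nat.prime_iff_prime_int.1 hp)).2 (by exact_mod_cast hNp)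
  have h3 : x ^ Q + 1 = 0 := by
    have := hSu.mul_left_eq_zero.1 h0
    exact this
  linear_combination h3

/-- `p = 2` -/
lemma two_case {n k : ℕ} (hn0 : 0 < n) (hpk : (2 : R) ^ k = 0) {x : R} (hx : x ^ n = 1)
    (hy : IsNilpotent (1 + x)) : x ^ 2 ^ (n.factorization 2) = 1 := by
  set a := n.factorization 2 with ha
  set Q := 2 ^ a with hQ
  obtain ⟨N, hN⟩ : Q ∣ n := Nat.ordProj_dvd n 2
  have hNp : ¬ 2 ∣ N := by
    rintro ⟨N', rfl⟩
    have h2 : 2 ^ (a + 1) ∣ n := ⟨N', by rw [hN, hQ]; ring⟩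
    have := (Nat.prime_two.pow_dvd_iff_le_factorization hn0.ne').1 h2
    omega
  have hNodd : Odd N := Nat.odd_iff.2 (by omega)
  set S : R := ∑ i ∈ range N, (x ^ Q) ^ i with hS
  have h0 : (x ^ Q - 1) * S = 0 := by
    have hg : S * (x ^ Q - 1) = (x ^ Q) ^ N - 1 := geom_sum_mul _ _
    rw [← pow_mul, ← hN, hx, sub_self] at hg
    rw [mul_comm]; exact hg
  have hSu : IsUnit S := by
    rcases Nat.eq_zero_or_pos a with h | h
    · -- `Q = 1`
      have hQ1 : Q = 1 := by rw [hQ, h, pow_zero]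
      have h1 : (1 + x) ∣ S - 1 := by
        have e : S - 1 = ∑ i ∈ range N, (x ^ i - (-1) ^ i) := by
          rw [sum_sub_distrib, hS, hQ1]
          simp only [pow_one]
          congr 1
          rw [neg_one_geom_sum, if_neg (Nat.not_even_iff_odd.2 hNodd)]
        rw [e]
        exact dvd_sum fun i _ => dvd_pow_sub _ _ rfl i
      exact isUnit_of h1 isUnit_one hy
    · have hQe : Even Q := (Nat.even_pow.2 ⟨even_two, by omega⟩)
      have h1 : (1 + x) ∣ S - ((N : ℤ) : R) := by
        have e : S - ((N : ℤ) : R) = ∑ i ∈ range N, ((x ^ Q) ^ i - 1) := by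
          rw [sum_sub_distrib, hS]; simp
        rw [e]
        apply dvd_sum
        intro i _
        have := dvd_pow_sub (1 + x) x rfl (Q * i)
        rw [pow_mul, (hQe.mul_right i).neg_one_pow] at this
        exact this
      apply isUnit_of h1 _ hy
      apply isUnit_int (p := 2) (k := k) (by exact_mod_cast hpk)
      rw [isCoprime_comm]
      exact (Prime.coprime_iff_not_dvd Int.prime_two).2 (by exact_mod_cast hNp)
  have h3 : x ^ Q - 1 = 0 := hSu.mul_left_eq_zero.1 h0
  linear_combination h3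

lemma nil_pow {p m n : ℕ} (hp : p.Prime) (hn0 : 0 < n) (hm0 : 0 < m) (hpm : p ∣ m)
    (hpk : (p : R) ^ m.factorization p = 0) {x : R} (hx : x ^ n = 1) (hy : IsNilpotent (1 + x)) :
    (1 + x) ^ primeTerm m n p = 0 := by
  have hk : 1 ≤ m.factorization p := (hp.dvd_iff_one_le_factorization hm0.ne').1 hpm
  unfold primeTerm
  split_ifs with h1 h2
  · have ha : 1 ≤ n.factorization p := (hp.dvd_iff_one_le_factorization hn0.ne').1 h1.2
    apply nil_of_rel hp ha hk hpk
    have e : 1 + x - 1 = x := by ring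
    rw [e]
    by_cases hp2 : p = 2
    · subst hp2
      rw [two_case hn0 (by exact_mod_cast hpk) hx hy, Even.neg_one_pow]
      exact Nat.even_pow.2 ⟨even_two, by omega⟩
    · rw [odd_even hp hp2 hn0 h1.1 hpk hx hy, Odd.neg_one_pow]
      exact (hp.odd_of_ne_two hp2).pow
  · subst h2
    have hodd : ¬ Even n := fun h => h1 ⟨h, h.two_dvd⟩
    have ha : n.factorization 2 = 0 := by
      rw [Nat.factorization_eq_zero_iff]
      right; left
      exact fun h => hodd (even_iff_two_dvd.2 h)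
    have hx1 : x = 1 := by
      have := two_case hn0 (by exact_mod_cast hpk) hx hy
      rwa [ha, pow_zero, pow_one] at this
    rw [hx1]
    have : (1 : R) + 1 = ((2 : ℕ) : R) := by norm_num
    rw [this, hpk]
  · rw [pow_one]
    by_cases hn : Even n
    · have hpn : ¬ p ∣ n := fun h => h1 ⟨hn, h⟩
      have ha : n.factorization p = 0 := by
        rw [Nat.factorization_eq_zero_iff]
        right; left; exact hpn
      have := odd_even hp h2 hn0 hn hpk hx hy
      rw [ha, pow_zero, pow_one] at this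
      rw [this]; ring
    · -- the ring is trivial
      have hodd : Odd n := Nat.not_even_iff_odd.1 hn
      have h3 : (1 + x) ∣ (0 : R) - ((-2 : ℤ) : R) := by
        have := dvd_pow_sub (1 + x) x rfl n
        rw [hx, hodd.neg_one_pow] at this
        have e : (0 : R) - ((-2 : ℤ) : R) = 1 - -1 := by push_cast; ring
        rw [e]; exact this
      have hu : IsUnit (0 : R) := by
        apply isUnit_of h3 _ hy
        apply isUnit_int hpk
        apply IsCoprime.neg_left
        have h4 : IsCoprime ((2 : ℕ) : ℤ) (p : ℤ) :=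
          Nat.isCoprime_iff_coprime.2 ((Nat.coprime_primes Nat.prime_two hp).2 (Ne.symm h2))
        exact_mod_cast h4
      rw [isUnit_zero_iff] at hu
      calc (1 + x) = (1 + x) * 1 := by ring
        _ = (1 + x) * 0 := by rw [hu]
        _ = 0 := mul_zero _

end Pool.Agent.R343.Cyc
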