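import Pool.Agent.R805.PropA.Comb

/-!
# A weighted shift on `c₀(ℤ)`: the exponents of the weights (proof design: helper286)
-/

set_option autoImplicit false

namespace Pool.Agent.R343.HFH

open Filter Topology Finset
open scoped ZeroAtInfty
open Pool.Agent.R805.PropA (Mq Mq_ge mk mk_apply c0_norm_le c0_apply_le c0_tendsto norm_two_zpow
  cnt cnt_le upperDensity exists_freq)

section shift

variable (a : ℤ → ℤ) (ha : ∀ n, a (n + 1) ≤ a n + 1)

include ha in
lemma sh_tendsto (x : C₀(ℤ, ℂ)) :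
    Tendsto (fun n : ℤ => (2 : ℂ) ^ (a (n + 1) - a n) * x (n + 1)) cofinite (𝓝 0) := by
  have h1 : Tendsto (fun n : ℤ => x (n + 1)) cofinite (𝓝 0) :=
    (c0_tendsto x).comp (add_left_injective (1 : ℤ)).tendsto_cofinite
  have h2 : Tendsto (fun n : ℤ => 2 * ‖x (n + 1)‖) cofinite (𝓝 0) := by
    have := (h1.norm).const_mul 2
    simpa using this
  refine squeeze_zero_norm (fun n => ?_) h2
  rw [norm_mul, norm_two_zpow]
  gcongr
  calc (2 : ℝ) ^ (a (n + 1) - a n) ≤ 2 ^ (1 : ℤ) :=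
        zpow_le_zpow_right₀ (by norm_num) (by have := ha n; linarith)
    _ = 2 := by norm_num

/-- The weighted shift as a linear map. -/
noncomputable def Shlin : C₀(ℤ, ℂ) →ₗ[ℂ] C₀(ℤ, ℂ) where
  toFun x := mk (fun n => (2 : ℂ) ^ (a (n + 1) - a n) * x (n + 1)) (sh_tendsto a ha x)
  map_add' x y := by
    ext n
    simp [mul_add]
  map_smul' c x := by
    ext n
    simp only [mk_apply, ZeroAtInftyContinuousMap.coe_smul, Pi.smul_apply, smul_eq_mul,
      RingHom.id_apply]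
    ring

/-- The weighted shift. -/
noncomputable def Sh : C₀(ℤ, ℂ) →L[ℂ] C₀(ℤ, ℂ) :=
  LinearMap.mkContinuous (Shlin a ha) 2 (by
    intro x
    refine c0_norm_le (by positivity) fun n => ?_
    change ‖(2 : ℂ) ^ (a (n + 1) - a n) * x (n + 1)‖ ≤ 2 * ‖x‖
    rw [norm_mul, norm_two_zpow]
    have h1 : (2 : ℝ) ^ (a (n + 1) - a n) ≤ 2 := by
      calc (2 : ℝ) ^ (a (n + 1) - a n) ≤ 2 ^ (1 : ℤ) :=
            zpow_le_zpow_right₀ (by norm_num) (by have := ha n; linarith)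
        _ = 2 := by norm_num
    exact mul_le_mul h1 (c0_apply_le x _) (norm_nonneg _) (by norm_num))

lemma Sh_apply (x : C₀(ℤ, ℂ)) (n : ℤ) :
    Sh a ha x n = (2 : ℂ) ^ (a (n + 1) - a n) * x (n + 1) := rfl

lemma Sh_pow_apply (x : C₀(ℤ, ℂ)) (k : ℕ) (n : ℤ) :
    ((Sh a ha) ^ k) x n = (2 : ℂ) ^ (a (n + k) - a n) * x (n + k) := by
  induction k generalizing n with
  | zero => simp
  | succ k ih =>
    rw [pow_succ', mul_apply_eq_comp, Sh_apply, ih, ← mul_assoc,
      ← zpow_add₀ (by norm_num : (2 : ℂ) ≠ 0)]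
    have h1 : n + 1 + (k : ℤ) = n + ((k + 1 : ℕ) : ℤ) := by push_cast; ring
    rw [h1]
    congr 2
    ring

end shift

/-- exponent of the beginning of the window `j` -/
def al (j : ℕ) : ℕ := (j + 1) ^ 2 + 10

lemma al_succ (j : ℕ) : al (j + 1) = al j + 2 * j + 3 := by unfold al; ring

lemma al_ge (j : ℕ) : j + 11 ≤ al j := by
  unfold al
  nlinarith

lemma al_mono {i j : ℕ} (h : i ≤ j) : al i ≤ al j := by
  unfold al
  gcongr

lemma al_lt {i j : ℕ} (h : i < j) : al i < al j := by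
  have h1 := al_mono (show i + 1 ≤ j from h)
  rw [al_succ] at h1
  omega

/-- beginning of the window `j` -/
def aw (j : ℕ) : ℤ := 2 ^ al j

lemma aw_ge (j : ℕ) : (16 * j + 100 : ℤ) ≤ aw j := by
  unfold aw
  have h1 := al_ge j
  have h2 : (2 : ℤ) ^ (j + 11) ≤ 2 ^ al j := pow_le_pow_right₀ (by norm_num) h1
  have h3 : (j : ℤ) < 2 ^ j := by exact_mod_cast Nat.lt_two_pow_self
  have h4 : (2 : ℤ) ^ (j + 11) = 2048 * 2 ^ j := by rw [pow_add]; norm_num; ring
  linarith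

lemma aw_succ (j : ℕ) : 8 * aw j ≤ aw (j + 1) := by
  unfold aw
  rw [al_succ]
  have : (2 : ℤ) ^ (al j + 3) ≤ 2 ^ (al j + 2 * j + 3) := pow_le_pow_right₀ (by norm_num) (by omega)
  rw [pow_add] at this
  linarith

lemma aw_mono {i j : ℕ} (h : i ≤ j) : aw i ≤ aw j :=
  pow_le_pow_right₀ (by norm_num) (al_mono h)

/-- `l` lies in a window -/
def inW (l : ℤ) : Prop := ∃ j, aw j ≤ l ∧ l ≤ 2 * aw j

/-- the good set of level `q` -/
def G (q : ℕ) (g : ℤ) : Prop := (∃ j : ℤ, 1 ≤ j ∧ g = j * Mq q) ∨ (aw q ≤ g ∧ ¬ inW g)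

lemma G_ge {q : ℕ} {g : ℤ} (h : G q g) : (4 * q + 4 : ℤ) ≤ g := by
  rcases h with ⟨j, hj, rfl⟩ | ⟨h, -⟩
  · have := Mq_ge q
    nlinarith
  · have := aw_ge q
    linarith

/-- `n ≤ 2 q - |k - g|` for some `q` and some `g` in the good set of level `q` -/
def D (k : ℤ) (n : ℕ) : Prop := ∃ q : ℕ, ∃ g : ℤ, G q g ∧ (n : ℤ) + |k - g| ≤ 2 * q

lemma D_bound {k : ℤ} {n : ℕ} (h : D k n) : (n : ℤ) ≤ k := by
  obtain ⟨q, g, hg, h⟩ := h
  have h1 := G_ge hg
  have h2 := neg_le_abs (k - g)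
  linarith

lemma bdd (k : ℤ) : BddAbove {n : ℕ | n = 0 ∨ D k n} := by
  refine ⟨k.toNat, ?_⟩
  rintro n (rfl | hn)
  · exact Nat.zero_le _
  · have := D_bound hn
    omega

/-- The exponent of the weights on the negative side. -/
noncomputable def v (k : ℤ) : ℕ := sSup {n : ℕ | n = 0 ∨ D k n}

lemma v_mem (k : ℤ) : v k = 0 ∨ D k (v k) :=
  Nat.sSup_mem (s := {n : ℕ | n = 0 ∨ D k n}) ⟨0, Or.inl rfl⟩ (bdd k)

lemma le_v {k : ℤ} {n : ℕ} (h : D k n) : n ≤ v k := le_csSup (bdd k) (Or.inr h)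

lemma v_le (k : ℤ) : (v k : ℤ) ≤ max k 0 := by
  rcases v_mem k with h | h
  · rw [h]; simp
  · exact (D_bound h).trans (le_max_left _ _)

/-- `v` is 1-Lipschitz -/
lemma v_lip (k l : ℤ) : (v k : ℤ) ≤ v l + |k - l| := by
  rcases v_mem k with h | h
  · rw [h]; positivity
  · obtain ⟨q, g, hg, h⟩ := h
    by_cases h0 : (v k : ℤ) ≤ |k - l|
    · have : (0 : ℤ) ≤ v l := by positivity
      linarith
    · push Not at h0
      have hd : D l ((v k : ℤ) - |k - l|).toNat := by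
        refine ⟨q, g, hg, ?_⟩
        rw [Int.toNat_of_nonneg (by linarith)]
        have h1 : |l - g| ≤ |l - k| + |k - g| := by
          have := abs_add_le (l - k) (k - g)
          have h2 : l - k + (k - g) = l - g := by ring
          rwa [h2] at this
        rw [abs_sub_comm l k] at h1
        linarith
      have h1 := le_v hd
      have h2 : (((v k : ℤ) - |k - l|).toNat : ℤ) = (v k : ℤ) - |k - l| :=
        Int.toNat_of_nonneg (by linarith)
      have h3 : (((v k : ℤ) - |k - l|).toNat : ℤ) ≤ v l := by exact_mod_cast h1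
      linarith

lemma v_mul {q : ℕ} {j : ℤ} (hj : 1 ≤ j) : 2 * q ≤ v (j * Mq q) := by
  apply le_v
  refine ⟨q, j * Mq q, Or.inl ⟨j, hj, rfl⟩, ?_⟩
  rw [sub_self, abs_zero]
  push_cast
  linarith

/-- between the windows -/
lemma v_gap {j : ℕ} {l : ℤ} (h1 : 2 * aw j < l) (h2 : l < aw (j + 1)) : 2 * j ≤ v l := by
  apply le_v
  refine ⟨j, l, Or.inr ⟨?_, ?_⟩, ?_⟩
  · have := aw_ge j
    linarith
  · rintro ⟨i, hi1, hi2⟩
    rcases le_or_gt i j with h | h
    · have := aw_mono h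
      linarith
    · have := aw_mono (show j + 1 ≤ i from h)
      linarith
  · rw [sub_self, abs_zero]
    push_cast
    linarith

/-- inside of a window only the multiples of the periods count -/
lemma v_window {j : ℕ} {l : ℤ} (h1 : aw j + 2 * j < l) (h2 : l < 2 * aw j - 2 * j) {q : ℕ} {g : ℤ}
    {n : ℕ} (hn : 1 ≤ n) (hg : G q g) (h : (n : ℤ) + |l - g| ≤ 2 * q) :
    ∃ i : ℤ, 1 ≤ i ∧ g = i * Mq q := by
  rcases hg with hg | ⟨hg1, hg2⟩
  · exact hg
  · exfalso
    have hn' : (1 : ℤ) ≤ n := by exact_mod_cast hn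
    have h3 := le_abs_self (l - g)
    have h4 := neg_le_abs (l - g)
    rcases le_or_gt q j with hqj | hqj
    · have hqj' : (q : ℤ) ≤ j := by exact_mod_cast hqj
      exact hg2 ⟨j, by linarith, by linarith⟩
    · have h5 := aw_mono (show j + 1 ≤ q from hqj)
      have h6 := aw_succ j
      have h7 := aw_ge q
      have h8 : (0 : ℤ) ≤ q := by positivity
      have h9 : (0 : ℤ) ≤ j := by positivity
      linarith

/-- The exponents: `T^k x (n) = 2 ^ (ex (n + k) - ex n) x (n + k)`. -/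
noncomputable def ex (n : ℤ) : ℤ := max n 0 + v (-n)

lemma ex_of_nonneg {n : ℤ} (hn : 0 ≤ n) : ex n = n := by
  have h := v_le (-n)
  unfold ex
  rw [max_eq_right (by linarith)] at h
  rw [max_eq_left hn]
  omega

lemma ex_of_nonpos {n : ℤ} (hn : n ≤ 0) : ex n = v (-n) := by
  unfold ex
  rw [max_eq_right hn, zero_add]

lemma ex_nonneg (n : ℤ) : 0 ≤ ex n := by
  unfold ex
  positivity

lemma ex_lip (n : ℤ) : ex (n + 1) ≤ ex n + 1 := by
  rcases le_or_gt 0 n with h | h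
  · rw [ex_of_nonneg h, ex_of_nonneg (by linarith)]
  · rw [ex_of_nonpos h.le, ex_of_nonpos (by linarith)]
    have := v_lip (-(n + 1)) (-n)
    have h2 : -(n + 1) - -n = -1 := by ring
    rw [h2, abs_neg, abs_one] at this
    exact this

lemma ex_le_abs (n : ℤ) : ex n ≤ |n| := by
  rcases le_or_gt 0 n with h | h
  · rw [ex_of_nonneg h]; exact le_abs_self n
  · rw [ex_of_nonpos h.le]
    have := v_le (-n)
    rw [max_eq_left (by linarith)] at this
    exact this.trans (neg_le_abs n)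

/-- The operator. -/
noncomputable def T : C₀(ℤ, ℂ) →L[ℂ] C₀(ℤ, ℂ) := Sh ex ex_lip

lemma T_pow_apply (x : C₀(ℤ, ℂ)) (k : ℕ) (n : ℤ) :
    (T ^ k) x n = (2 : ℂ) ^ (ex (n + k) - ex n) * x (n + k) := Sh_pow_apply ex ex_lip x k n

end Pool.Agent.R343.HFH
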