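import Pool.Agent.R343.HFH1

/-!
# Choice of the visiting sets: the combinatorial part (proof design: helper286)
-/

set_option autoImplicit false

namespace Pool.Agent.R343.HFH

open Filter Topology Finset

/-- one type in one block -/
lemma step (A0 : Set ℕ) (e g b s a : ℕ) (U : Finset ℕ)
    (hU : (U.card : ℝ) ≤ 2 ^ s / 2 ^ (g + 5)) (hbs : b ≤ s) (ha : 8 * a ≤ 2 ^ (s - b))
    (hg : g + 6 ≤ b) (hh : b + 2 * (e + 1) + g + 3 ≤ s) [DecidablePred (· ∈ A0)]
    (hA : 2 ^ s ≤ 2 ^ (g + 2) * ((Ico (2 ^ s) (2 ^ (s + 1))).filter (· ∈ A0)).card) :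
    ∃ (y : ℕ) (B : Finset ℕ),
      (∀ n ∈ B, n ∈ A0 ∧ 2 ^ s + 3 * a ≤ n ∧ n < 2 ^ (s + 1) ∧ n ∉ U) ∧
      (∀ n ∈ B, y * 2 ^ (s - b) ≤ n ∧ n < (y + 1) * 2 ^ (s - b)) ∧
      (∀ m ∈ B, ∀ n ∈ B, m % 4 ^ (e + 1) = n % 4 ^ (e + 1)) ∧
      2 ^ s ≤ 2 ^ (b + 2 * (e + 1) + g + 3) * B.card := by
  classical
  set A1 : Finset ℕ := (Ico (2 ^ s) (2 ^ (s + 1))).filter
    (fun n => n ∈ A0 ∧ 2 ^ s + 3 * a ≤ n ∧ n ∉ U) with hA1
  -- size of `A1`
  have hsub : (Ico (2 ^ s) (2 ^ (s + 1))).filter (· ∈ A0) ⊆
      A1 ∪ (Ico (2 ^ s) (2 ^ s + 3 * a) ∪ U) := by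
    intro n hn
    rw [mem_filter, mem_Ico] at hn
    rw [mem_union, mem_union, hA1, mem_filter, mem_Ico, mem_Ico]
    by_cases h1 : n ∈ U
    · exact Or.inr (Or.inr h1)
    · by_cases h2 : 2 ^ s + 3 * a ≤ n
      · exact Or.inl ⟨hn.1, hn.2, h2, h1⟩
      · exact Or.inr (Or.inl ⟨hn.1.1, by omega⟩)
  have hcard : ((Ico (2 ^ s) (2 ^ (s + 1))).filter (· ∈ A0)).card ≤
      A1.card + (3 * a + U.card) := by
    refine (card_le_card hsub).trans ((card_union_le _ _).trans ?_)
    refine Nat.add_le_add_left ((card_union_le _ _).trans ?_) _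
    rw [Nat.card_Ico]
    omega
  have hcard' : (((Ico (2 ^ s) (2 ^ (s + 1))).filter (· ∈ A0)).card : ℝ) ≤
      A1.card + (3 * a + U.card) := by exact_mod_cast hcard
  have hA' : (2 : ℝ) ^ s ≤ 2 ^ (g + 2) *
      ((Ico (2 ^ s) (2 ^ (s + 1))).filter (· ∈ A0)).card := by exact_mod_cast hA
  have ha' : (8 : ℝ) * a * 2 ^ (g + 6) ≤ 2 ^ s := by
    have h1 : 8 * a * 2 ^ (g + 6) ≤ 2 ^ s := by
      calc 8 * a * 2 ^ (g + 6) ≤ 2 ^ (s - b) * 2 ^ b :=
            Nat.mul_le_mul ha (Nat.pow_le_pow_right (by norm_num) hg)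
        _ = 2 ^ s := by rw [← pow_add]; congr 1; omega
    exact_mod_cast h1
  rw [le_div_iff₀ (by positivity)] at hU
  have hA1c : (2 : ℝ) ^ s ≤ 2 ^ (g + 3) * A1.card := by
    have hgp : (0 : ℝ) < 2 ^ g := by positivity
    have e2 : (2 : ℝ) ^ (g + 2) = 4 * 2 ^ g := by rw [pow_add]; ring
    have e3 : (2 : ℝ) ^ (g + 3) = 8 * 2 ^ g := by rw [pow_add]; ring
    have e5 : (2 : ℝ) ^ (g + 5) = 32 * 2 ^ g := by rw [pow_add]; ring
    have e6 : (2 : ℝ) ^ (g + 6) = 64 * 2 ^ g := by rw [pow_add]; ring
    rw [e2] at hA'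
    rw [e5] at hU
    rw [e6] at ha'
    rw [e3]
    have h1 : 4 * (2 : ℝ) ^ g * ((Ico (2 ^ s) (2 ^ (s + 1))).filter (· ∈ A0)).card ≤
        4 * 2 ^ g * (A1.card + (3 * a + U.card)) := by gcongr
    nlinarith
  have hA1n : 2 ^ (s - g - 3) ≤ A1.card := by
    have h1 : 2 ^ s ≤ 2 ^ (g + 3) * A1.card := by exact_mod_cast hA1c
    have h2 : 2 ^ s = 2 ^ (g + 3) * 2 ^ (s - g - 3) := by
      rw [← pow_add]; congr 1; omega
    rw [h2] at h1
    exact Nat.le_of_mul_le_mul_left h1 (by positivity)
  -- pigeonhole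
  set S : Finset (ℕ × ℕ) := Ico (2 ^ b) (2 ^ (b + 1)) ×ˢ range (4 ^ (e + 1)) with hS
  have hScard : S.card = 2 ^ (b + 2 * (e + 1)) := by
    rw [hS, card_product, Nat.card_Ico, card_range]
    have h1 : 2 ^ (b + 1) - 2 ^ b = 2 ^ b := by rw [pow_succ]; omega
    have h2 : (4 : ℕ) ^ (e + 1) = 2 ^ (2 * (e + 1)) := by
      rw [pow_mul]; norm_num
    rw [h1, h2, ← pow_add]
  have hmap : ∀ n ∈ A1, (n / 2 ^ (s - b), n % 4 ^ (e + 1)) ∈ S := by
    intro n hn
    rw [hA1, mem_filter, mem_Ico] at hn
    rw [hS, mem_product, mem_Ico, mem_range]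
    have hpos : 0 < 2 ^ (s - b) := by positivity
    refine ⟨⟨?_, ?_⟩, Nat.mod_lt _ (by positivity)⟩
    · rw [Nat.le_div_iff_mul_le hpos, ← pow_add]
      have : b + (s - b) = s := by omega
      rw [this]
      exact hn.1.1
    · rw [Nat.div_lt_iff_lt_mul hpos, ← pow_add]
      have : b + 1 + (s - b) = s + 1 := by omega
      rw [this]
      exact hn.1.2
  have hne : S.Nonempty := by
    rw [← card_pos, hScard]
    positivity
  obtain ⟨y, hy, hyc⟩ := exists_le_card_fiber_of_mul_le_card_of_maps_to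
    (n := 2 ^ (s - (b + 2 * (e + 1) + g + 3))) hmap hne (by
      rw [hScard, ← pow_add]
      refine le_trans (le_of_eq ?_) hA1n
      congr 1
      omega)
  refine ⟨y.1, A1.filter (fun n => (n / 2 ^ (s - b), n % 4 ^ (e + 1)) = y), ?_, ?_, ?_, ?_⟩
  · intro n hn
    rw [mem_filter, hA1, mem_filter, mem_Ico] at hn
    exact ⟨hn.1.2.1, hn.1.2.2.1, hn.1.1.2, hn.1.2.2.2⟩
  · intro n hn
    rw [mem_filter] at hn
    have h1 : n / 2 ^ (s - b) = y.1 := congrArg Prod.fst hn.2
    have hpos : 0 < 2 ^ (s - b) := by positivity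
    rw [← h1]
    constructor
    · exact Nat.div_mul_le_self _ _
    · rw [← Nat.div_lt_iff_lt_mul hpos]
      exact Nat.lt_succ_self _
  · intro m hm n hn
    rw [mem_filter] at hm hn
    have h1 : m % 4 ^ (e + 1) = y.2 := congrArg Prod.snd hm.2
    have h2 : n % 4 ^ (e + 1) = y.2 := congrArg Prod.snd hn.2
    rw [h1, h2]
  · calc 2 ^ s = 2 ^ (b + 2 * (e + 1) + g + 3) * 2 ^ (s - (b + 2 * (e + 1) + g + 3)) := by
          rw [← pow_add]; congr 1; omega
      _ ≤ _ := Nat.mul_le_mul_left _ hyc

/-- type `t` is active in the block `s` of the range `j` -/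
def act (b c : ℕ → ℕ) (s j t : ℕ) : Prop := c t ≤ j ∧ al j + b t + 3 ≤ s

/-- the parameters -/
structure Par (e g b c : ℕ → ℕ) : Prop where
  b1 : ∀ t, g t + t + 6 ≤ b t
  b2 : ∀ t k, t < k → g t + (k - t) + 6 ≤ b k
  c2 : ∀ t, b t + 2 * (e t + 1) + g t + 3 ≤ c t

lemma geo (t n : ℕ) : ∑ k ∈ Ico (t + 1) (t + 1 + n), (1 / 2 : ℝ) ^ (k - t) = 1 - (1 / 2) ^ n := by
  induction n with
  | zero => simp
  | succ n ih =>
    rw [← add_assoc, sum_Ico_succ_top (by omega), ih]
    have : t + 1 + n - t = n + 1 := by omega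
    rw [this, pow_succ]
    ring

open Classical in
/-- one block: all types -/
lemma block (A : ℕ → Set ℕ) {e g b c : ℕ → ℕ} (P : Par e g b c) (s j : ℕ) :
    ∃ B : ℕ → Finset ℕ,
      (∀ t, ∀ n ∈ B t, act b c s j t ∧ n ∈ A t ∧ 2 ^ s + 3 * 2 ^ al j ≤ n ∧ n < 2 ^ (s + 1)) ∧
      (∀ t, ∀ m ∈ B t, ∀ n ∈ B t, m % 4 ^ (e t + 1) = n % 4 ^ (e t + 1)) ∧
      (∀ t k, t ≠ k → ∀ m ∈ B t, ∀ n ∈ B k, 2 * 2 ^ al j < |(m : ℤ) - n|) ∧
      (∀ t, act b c s j t →
        2 ^ s ≤ 2 ^ (g t + 2) * ((Ico (2 ^ s) (2 ^ (s + 1))).filter (· ∈ A t)).card →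
        2 ^ s ≤ 2 ^ (b t + 2 * (e t + 1) + g t + 3) * (B t).card) := by
  have key : ∀ i, i ≤ s + 1 → ∃ (B : ℕ → Finset ℕ) (J : ℕ → ℕ → Prop) (x : ℕ → ℕ),
      (∀ t, s + 1 ≤ t + i → ∀ n, J t n → act b c s j t ∧ x t ≤ n ∧ n < x t + 2 ^ (s - b t)) ∧
      (∀ t, s + 1 ≤ t + i → ∀ n ∈ B t, J t n ∧ act b c s j t ∧ n ∈ A t ∧
        2 ^ s + 3 * 2 ^ al j ≤ n ∧ n < 2 ^ (s + 1)) ∧
      (∀ t, s + 1 ≤ t + i → ∀ m ∈ B t, ∀ n ∈ B t, m % 4 ^ (e t + 1) = n % 4 ^ (e t + 1)) ∧
      (∀ t k, s + 1 ≤ t + i → t < k → ∀ m ∈ B t, ∀ n, J k n → 2 * 2 ^ al j < |(m : ℤ) - n|) ∧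
      (∀ t, s + 1 ≤ t + i → act b c s j t →
        2 ^ s ≤ 2 ^ (g t + 2) * ((Ico (2 ^ s) (2 ^ (s + 1))).filter (· ∈ A t)).card →
        2 ^ s ≤ 2 ^ (b t + 2 * (e t + 1) + g t + 3) * (B t).card) := by
    intro i
    induction i with
    | zero =>
      intro _
      refine ⟨fun _ => ∅, fun _ _ => False, fun _ => 0, ?_, ?_, ?_, ?_, ?_⟩
      · intro t _ n h; exact absurd h id
      · intro t _ n h; exact absurd h (notMem_empty n)
      · intro t _ n h; exact absurd h (notMem_empty n)
      · intro t k _ _ n h; exact absurd h (notMem_empty n)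
      · intro t ht ha
        exfalso
        have h1 := ha.2
        have h2 := P.b1 t
        omega
    | succ i ih =>
      intro hi
      obtain ⟨B, J, x, h1, h2, h3, h4, h5⟩ := ih (by omega)
      set t0 := s - i with ht0
      -- do we have something to do?
      by_cases hgood : act b c s j t0 ∧
          2 ^ s ≤ 2 ^ (g t0 + 2) * ((Ico (2 ^ s) (2 ^ (s + 1))).filter (· ∈ A t0)).card
      · obtain ⟨hact, hgd⟩ := hgood
        have hact1 := hact.1
        have hact2 := hact.2
        have hPb1 := P.b1 t0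
        have hPc2 := P.c2 t0
        have halj := al_ge j
        -- forbidden set
        set U : Finset ℕ := ((Ico (t0 + 1) (t0 + 1 + i)).filter (act b c s j)).biUnion
          (fun k => Ico (x k - 2 * 2 ^ al j) (x k + 2 ^ (s - b k) + 2 * 2 ^ al j)) with hU
        have hUc : (U.card : ℝ) ≤ 2 ^ s / 2 ^ (g t0 + 5) := by
          have e1 : U.card ≤ ∑ k ∈ (Ico (t0 + 1) (t0 + 1 + i)).filter (act b c s j),
              (2 ^ (s - b k) + 4 * 2 ^ al j) := by
            refine card_biUnion_le.trans (sum_le_sum fun k hk => ?_)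
            rw [Nat.card_Ico]
            generalize 2 ^ al j = W
            generalize 2 ^ (s - b k) = W'
            omega
          have e2 : ((∑ k ∈ (Ico (t0 + 1) (t0 + 1 + i)).filter (act b c s j),
              (2 ^ (s - b k) + 4 * 2 ^ al j) : ℕ) : ℝ) ≤
              ∑ k ∈ Ico (t0 + 1) (t0 + 1 + i), 2 ^ s / 2 ^ (g t0 + 5) * (1 / 2 : ℝ) ^ (k - t0) := by
            push_cast
            refine (sum_le_sum (g := fun k => 2 ^ s / 2 ^ (g t0 + 5) * (1 / 2 : ℝ) ^ (k - t0))
              fun k hk => ?_).trans (sum_le_sum_of_subset_of_nonneg (filter_subset _ _)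
                fun k _ _ => by positivity)
            rw [mem_filter, mem_Ico] at hk
            have hk2 := hk.2.2
            have hb2 := P.b2 t0 k (by omega)
            have e3 : 4 * 2 ^ al j ≤ 2 ^ (s - b k) := by
              calc 4 * 2 ^ al j = 2 ^ (al j + 2) := by rw [pow_add]; ring
                _ ≤ 2 ^ (s - b k) := Nat.pow_le_pow_right (by norm_num) (by omega)
            have e4 : (4 : ℝ) * 2 ^ al j ≤ 2 ^ (s - b k) := by exact_mod_cast e3
            have e5 : (2 : ℝ) ^ (s - b k) * 2 ^ (g t0 + (k - t0) + 6) ≤ 2 ^ s := by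
              rw [← pow_add]
              exact pow_le_pow_right₀ (by norm_num) (by omega)
            have e6 : (2 : ℝ) ^ (g t0 + (k - t0) + 6) = 2 * (2 ^ (g t0 + 5) * 2 ^ (k - t0)) := by
              rw [← pow_add, ← pow_succ']
              congr 1
              omega
            rw [e6] at e5
            rw [one_div, inv_pow, ← div_eq_mul_inv, div_div, le_div_iff₀ (by positivity)]
            calc ((2 : ℝ) ^ (s - b k) + 4 * 2 ^ al j) * (2 ^ (g t0 + 5) * 2 ^ (k - t0)) ≤
                (2 ^ (s - b k) + 2 ^ (s - b k)) * (2 ^ (g t0 + 5) * 2 ^ (k - t0)) := by gcongr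
              _ = 2 ^ (s - b k) * (2 * (2 ^ (g t0 + 5) * 2 ^ (k - t0))) := by ring
              _ ≤ 2 ^ s := e5
          rw [← mul_sum, geo] at e2
          have e3 : ((U.card : ℕ) : ℝ) ≤ 2 ^ s / 2 ^ (g t0 + 5) * (1 - (1 / 2) ^ i) :=
            le_trans (by exact_mod_cast e1) e2
          refine e3.trans ?_
          have e4 : (1 : ℝ) - (1 / 2) ^ i ≤ 1 := by
            have : (0 : ℝ) ≤ (1 / 2) ^ i := by positivity
            linarith
          calc (2 : ℝ) ^ s / 2 ^ (g t0 + 5) * (1 - (1 / 2) ^ i) ≤ 2 ^ s / 2 ^ (g t0 + 5) * 1 := by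
                gcongr
            _ = _ := mul_one _
        obtain ⟨y, B0, b1, b2, b3, b4⟩ := step (A t0) (e t0) (g t0) (b t0) s (2 ^ al j) U hUc
          (by omega) (by
            calc 8 * 2 ^ al j = 2 ^ (al j + 3) := by rw [pow_add]; ring
              _ ≤ 2 ^ (s - b t0) := Nat.pow_le_pow_right (by norm_num) (by omega))
          (by omega) (by omega) hgd
        refine ⟨Function.update B t0 B0, Function.update J t0 (fun n => y * 2 ^ (s - b t0) ≤ n ∧
          n < y * 2 ^ (s - b t0) + 2 ^ (s - b t0)), Function.update x t0 (y * 2 ^ (s - b t0)),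
          ?_, ?_, ?_, ?_, ?_⟩
        · intro t ht n hn
          by_cases htt : t = t0
          · subst htt
            rw [Function.update_self] at hn ⊢
            exact ⟨hact, hn⟩
          · rw [Function.update_of_ne htt] at hn ⊢
            exact h1 t (by omega) n hn
        · intro t ht n hn
          by_cases htt : t = t0
          · subst htt
            rw [Function.update_self] at hn ⊢
            obtain ⟨q1, q2, q3, -⟩ := b1 n hn
            obtain ⟨q4, q5⟩ := b2 n hn
            refine ⟨⟨q4, ?_⟩, hact, q1, q2, q3⟩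
            rw [add_mul, one_mul] at q5
            exact q5
          · rw [Function.update_of_ne htt] at hn ⊢
            exact h2 t (by omega) n hn
        · intro t ht
          by_cases htt : t = t0
          · subst htt
            rw [Function.update_self]
            exact b3
          · rw [Function.update_of_ne htt]
            exact h3 t (by omega)
        · intro t k ht htk m hm n hn
          have hk0 : k ≠ t0 := by omega
          rw [Function.update_of_ne hk0] at hn
          by_cases htt : t = t0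
          · subst htt
            rw [Function.update_self] at hm
            obtain ⟨-, -, -, q4⟩ := b1 m hm
            obtain ⟨p1, p2, p3⟩ := h1 k (by omega) n hn
            by_contra hcon
            push Not at hcon
            apply q4
            rw [hU, mem_biUnion]
            refine ⟨k, mem_filter.2 ⟨mem_Ico.2 ⟨htk, ?_⟩, p1⟩, mem_Ico.2 ?_⟩
            · have p4 := p1.2
              have p5 := P.b1 k
              omega
            · rw [abs_le] at hcon
              obtain ⟨c1, c2⟩ := hcon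
              have c3 : ((2 ^ al j : ℕ) : ℤ) = 2 ^ al j := by push_cast; rfl
              rw [← c3] at c1 c2
              generalize 2 ^ al j = W at *
              generalize 2 ^ (s - b k) = W' at *
              omega
          · rw [Function.update_of_ne htt] at hm
            exact h4 t k (by omega) htk m hm n hn
        · intro t ht
          by_cases htt : t = t0
          · subst htt
            rw [Function.update_self]
            intro _ _
            exact b4
          · rw [Function.update_of_ne htt]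
            exact h5 t (by omega)
      · refine ⟨Function.update B t0 ∅, Function.update J t0 (fun _ => False), x,
          ?_, ?_, ?_, ?_, ?_⟩
        · intro t ht n hn
          by_cases htt : t = t0
          · subst htt
            rw [Function.update_self] at hn
            exact absurd hn id
          · rw [Function.update_of_ne htt] at hn
            exact h1 t (by omega) n hn
        · intro t ht n hn
          by_cases htt : t = t0
          · subst htt
            rw [Function.update_self] at hn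
            exact absurd hn (notMem_empty n)
          · rw [Function.update_of_ne htt] at hn ⊢
            exact h2 t (by omega) n hn
        · intro t ht
          by_cases htt : t = t0
          · subst htt
            rw [Function.update_self]
            intro m hm
            exact absurd hm (notMem_empty m)
          · rw [Function.update_of_ne htt]
            exact h3 t (by omega)
        · intro t k ht htk m hm n hn
          have hk0 : k ≠ t0 := by omega
          rw [Function.update_of_ne hk0] at hn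
          by_cases htt : t = t0
          · subst htt
            rw [Function.update_self] at hm
            exact absurd hm (notMem_empty m)
          · rw [Function.update_of_ne htt] at hm
            exact h4 t k (by omega) htk m hm n hn
        · intro t ht hact hgd
          by_cases htt : t = t0
          · subst htt
            exact absurd ⟨hact, hgd⟩ hgood
          · rw [Function.update_of_ne htt]
            exact h5 t (by omega) hact hgd
  obtain ⟨B, J, x, h1, h2, h3, h4, h5⟩ := key (s + 1) le_rfl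
  refine ⟨B, fun t n hn => (h2 t (by omega) n hn).2, fun t => h3 t (by omega), ?_,
    fun t => h5 t (by omega)⟩
  intro t k htk m hm n hn
  rcases lt_or_gt_of_ne htk with h | h
  · exact h4 t k (by omega) h m hm n (h2 k (by omega) n hn).1
  · rw [abs_sub_comm]
    exact h4 k t (by omega) h n hn m (h2 t (by omega) m hm).1

end Pool.Agent.R343.HFH
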