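import Pool.Agent.R343.HFH2

/-!
# The visiting sets (proof design: helper286)
-/

set_option autoImplicit false

namespace Pool.Agent.R343.HFH

open Filter Topology Finset
open Pool.Agent.R805.PropA (Mq Mq_ge cnt cnt_le Mq_cast)

open Classical in
lemma good (A : Set ℕ) (g u : ℕ) (hu : g + 2 ≤ u) (h : 2 ^ u ≤ 2 ^ g * cnt A (2 ^ u)) :
    ∃ s, u ≤ s + (g + 2) ∧ s < u ∧
      2 ^ s ≤ 2 ^ (g + 2) * ((Ico (2 ^ s) (2 ^ (s + 1))).filter (· ∈ A)).card := by
  by_contra hcon
  push Not at hcon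
  set C : ℕ → ℕ := fun s => ((Ico 1 (2 ^ s)).filter (· ∈ A)).card with hC
  have hCs : ∀ s, C (s + 1) ≤ C s + ((Ico (2 ^ s) (2 ^ (s + 1))).filter (· ∈ A)).card := by
    intro s
    have h1 : (Ico 1 (2 ^ (s + 1))).filter (· ∈ A) ⊆
        (Ico 1 (2 ^ s)).filter (· ∈ A) ∪ (Ico (2 ^ s) (2 ^ (s + 1))).filter (· ∈ A) := by
      intro n hn
      rw [mem_filter, mem_Ico] at hn
      rw [mem_union, mem_filter, mem_filter, mem_Ico, mem_Ico]
      by_cases h : n < 2 ^ s
      · exact Or.inl ⟨⟨hn.1.1, h⟩, hn.2⟩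
      · exact Or.inr ⟨⟨not_lt.1 h, hn.1.2⟩, hn.2⟩
    exact (card_le_card h1).trans (card_union_le _ _)
  have hclaim : ∀ i, i ≤ g + 2 → 2 ^ (g + 2) * C (u - (g + 2) + i) ≤
      2 ^ (g + 2) * C (u - (g + 2)) + 2 ^ (u - (g + 2) + i) := by
    intro i
    induction i with
    | zero => intro _; simp
    | succ i ih =>
      intro hi
      have h1 := ih (by omega)
      have h2 := hcon (u - (g + 2) + i) (by omega) (by omega)
      have h3 := hCs (u - (g + 2) + i)
      have h4 := Nat.mul_le_mul_left (2 ^ (g + 2)) h3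
      rw [Nat.mul_add] at h4
      rw [← add_assoc, pow_succ 2 (u - (g + 2) + i)]
      linarith
  have h1 := hclaim (g + 2) le_rfl
  have h2 : u - (g + 2) + (g + 2) = u := by omega
  rw [h2] at h1
  have h3 : C (u - (g + 2)) ≤ 2 ^ (u - (g + 2)) := by
    refine (card_filter_le _ _).trans ?_
    rw [Nat.card_Ico]
    exact Nat.sub_le _ _
  have h4 : 2 ^ (g + 2) * C (u - (g + 2)) ≤ 2 ^ u := by
    calc 2 ^ (g + 2) * C (u - (g + 2)) ≤ 2 ^ (g + 2) * 2 ^ (u - (g + 2)) :=
          Nat.mul_le_mul_left _ h3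
      _ = 2 ^ u := by rw [← pow_add]; congr 1; omega
  have h5 : cnt A (2 ^ u) ≤ C u + 1 := by
    have h6 : (Icc 1 (2 ^ u)).filter (· ∈ A) ⊆ insert (2 ^ u) ((Ico 1 (2 ^ u)).filter (· ∈ A)) := by
      intro n hn
      rw [mem_filter, mem_Icc] at hn
      rw [mem_insert, mem_filter, mem_Ico]
      by_cases h : n = 2 ^ u
      · exact Or.inl h
      · exact Or.inr ⟨⟨hn.1.1, lt_of_le_of_ne hn.1.2 h⟩, hn.2⟩
    exact (card_le_card h6).trans (card_insert_le _ _)
  have h6 : 2 ^ u ≤ 2 ^ g * (C u + 1) := h.trans (Nat.mul_le_mul_left _ h5)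
  have h7 : 2 ^ (g + 2) = 4 * 2 ^ g := by rw [pow_add]; ring
  have h8 : 2 ^ (g + 2) ≤ 2 ^ u := Nat.pow_le_pow_right (by norm_num) hu
  have h9 : 0 < 2 ^ g := by positivity
  rw [h7] at h1 h4 h8
  nlinarith

lemma exists_al {u : ℕ} (hu : al 0 ≤ u) : ∃ j, al j ≤ u ∧ u < al (j + 1) := by
  classical
  have hex : ∃ j, u < al (j + 1) := ⟨u, by have := al_ge (u + 1); omega⟩
  refine ⟨Nat.find hex, ?_, Nat.find_spec hex⟩
  rcases Nat.eq_zero_or_pos (Nat.find hex) with h | h
  · rw [h]; exact hu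
  · have h1 := Nat.find_min hex (show Nat.find hex - 1 < Nat.find hex by omega)
    have h2 : Nat.find hex - 1 + 1 = Nat.find hex := by omega
    rw [h2] at h1
    exact not_lt.1 h1

/-- the combinatorial core of the positive part -/
theorem comb_main (A : ℕ → Set ℕ) (e : ℕ → ℕ)
    (hA : ∀ t, ∃ g N0 : ℕ, ∀ N, N0 ≤ N → N ≤ 2 ^ g * cnt (A t) N) :
    ∃ B : ℕ → Set ℕ, (∀ t, B t ⊆ A t) ∧
      (∀ i k, ∀ m ∈ B i, ∀ n ∈ B k, n < m → e i + e k ≤ v ((m : ℤ) - n)) ∧
      (∀ i k, i ≠ k → ∀ n ∈ B i, n ∉ B k) ∧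
      (∀ k, ∀ n ∈ B k, 4 * e k ≤ n) ∧
      (∀ t, ∃ g N0 : ℕ, ∀ N, N0 ≤ N → N ≤ 2 ^ g * cnt (B t) N) := by
  classical
  choose g N0 hg using hA
  set b : ℕ → ℕ := fun t => (∑ i ∈ range (t + 1), g i) + t + 6 with hb
  set c : ℕ → ℕ := fun t => b t + 2 * (e t + 1) + g t + 3 + 4 * e t with hc
  have P : Par e g b c := by
    refine ⟨fun t => ?_, fun t k htk => ?_, fun t => ?_⟩
    · have : g t ≤ ∑ i ∈ range (t + 1), g i :=
        single_le_sum (f := g) (fun _ _ => Nat.zero_le _) (mem_range.2 (by omega))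
      simp only [hb]
      omega
    · have : g t ≤ ∑ i ∈ range (k + 1), g i :=
        single_le_sum (f := g) (fun _ _ => Nat.zero_le _) (mem_range.2 (by omega))
      simp only [hb]
      omega
    · simp only [hc]
      omega
  choose Bl h1 h2 h3 h4 using fun s j => block A P s j
  -- the block and the range are determined
  have hrange : ∀ s j t, ∀ n ∈ Bl s j t, c t ≤ j ∧ al j + 3 ≤ s := by
    intro s j t n hn
    have := (h1 s j t n hn).1
    exact ⟨this.1, by have := this.2; omega⟩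
  have hle : ∀ s j s' j', al j + 3 ≤ s → s' + 1 ≤ al (j' + 1) → s ≤ s' → j ≤ j' := by
    intro s j s' j' q1 q2 q3
    by_contra hcon
    push Not at hcon
    have := al_mono (show j' + 1 ≤ j from hcon)
    omega
  refine ⟨fun t => {n | ∃ s j, s + 1 ≤ al (j + 1) ∧ n ∈ Bl s j t}, ?_, ?_, ?_, ?_, ?_⟩
  · rintro t n ⟨s, j, -, hn⟩
    exact (h1 s j t n hn).2.1
  · rintro i k m ⟨s, j, hs, hm⟩ n ⟨s', j', hs', hn⟩ hnm
    obtain ⟨-, -, m1, m2⟩ := h1 s j i m hm
    obtain ⟨-, -, n1, n2⟩ := h1 s' j' k n hn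
    obtain ⟨ci, ai⟩ := hrange s j i m hm
    obtain ⟨ck, ak⟩ := hrange s' j' k n hn
    have hci : 4 * e i ≤ c i := by simp only [hc]; omega
    have hck : 4 * e k ≤ c k := by simp only [hc]; omega
    have hss : s' ≤ s := by
      by_contra hcon
      push Not at hcon
      have : 2 ^ (s + 1) ≤ 2 ^ s' := Nat.pow_le_pow_right (by norm_num) hcon
      omega
    have hjj : j' ≤ j := hle s' j' s j ak hs hss
    have haw : aw j = ((2 ^ al j : ℕ) : ℤ) := by unfold aw; push_cast; rfl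
    have haw' : aw (j + 1) = ((2 ^ al (j + 1) : ℕ) : ℤ) := by unfold aw; push_cast; rfl
    have hpow : 2 ^ (s + 1) ≤ 2 ^ al (j + 1) := Nat.pow_le_pow_right (by norm_num) hs
    have hlt2 : (m : ℤ) - n < aw (j + 1) := by rw [haw']; omega
    rcases Nat.lt_or_ge s' s with hlt | hge
    · have hp : 2 ^ (s' + 1) ≤ 2 ^ s := Nat.pow_le_pow_right (by norm_num) hlt
      have hgap := v_gap (j := j) (l := (m : ℤ) - n) (by
        rw [haw]
        have : 0 < 2 ^ al j := by positivity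
        generalize 2 ^ al j = W at *
        omega) hlt2
      omega
    · obtain rfl : s' = s := le_antisymm hss hge
      obtain rfl : j' = j := le_antisymm hjj (hle s' j s' j' ai hs' le_rfl)
      by_cases hik : i = k
      · subst hik
        have hmod := h2 s' j' i m hm n hn
        obtain ⟨q, hq⟩ : (4 ^ (e i + 1)) ∣ m - n := (Nat.modEq_iff_dvd' hnm.le).1 hmod.symm
        have hq1 : 1 ≤ q := by
          rcases Nat.eq_zero_or_pos q with h | h
          · rw [h, mul_zero] at hq; omega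
          · exact h
        have hv := v_mul (q := e i) (j := (q : ℤ)) (by exact_mod_cast hq1)
        have hmn : (m : ℤ) - n = q * Mq (e i) := by
          rw [Mq_cast, ← Nat.cast_mul, mul_comm q, ← hq]
          omega
        rw [hmn]
        omega
      · have hd := h3 s' j' i k hik m hm n hn
        have habs : |(m : ℤ) - n| = (m : ℤ) - n := abs_of_nonneg (by omega)
        rw [habs] at hd
        have hgap := v_gap (j := j') (l := (m : ℤ) - n) (by unfold aw; exact hd) hlt2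
        omega
  · rintro i k hik n ⟨s, j, hs, hn⟩ ⟨s', j', hs', hn'⟩
    obtain ⟨-, -, m1, m2⟩ := h1 s j i n hn
    obtain ⟨-, -, n1, n2⟩ := h1 s' j' k n hn'
    obtain ⟨ci, ai⟩ := hrange s j i n hn
    obtain ⟨ck, ak⟩ := hrange s' j' k n hn'
    have hss : s = s' := by
      rcases lt_trichotomy s s' with h | h | h
      · have : 2 ^ (s + 1) ≤ 2 ^ s' := Nat.pow_le_pow_right (by norm_num) h
        omega
      · exact h
      · have : 2 ^ (s' + 1) ≤ 2 ^ s := Nat.pow_le_pow_right (by norm_num) h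
        omega
    subst hss
    obtain rfl : j = j' := le_antisymm (hle s j s j' ai hs' le_rfl) (hle s j' s j ak hs le_rfl)
    have := h3 s j i k hik n hn n hn'
    rw [sub_self, abs_zero] at this
    have h5 : (0 : ℤ) < 2 ^ al j := by positivity
    linarith
  · rintro k n ⟨s, j, hs, hn⟩
    obtain ⟨-, -, m1, m2⟩ := h1 s j k n hn
    obtain ⟨ck, ak⟩ := hrange s j k n hn
    have h5 := al_ge j
    have h6 : s < 2 ^ s := Nat.lt_two_pow_self
    have hck : 4 * e k ≤ c k := by simp only [hc]; omega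
    omega
  · intro t
    set w := g t + 2 with hw
    set W := w + b t + 3 with hW
    set h := b t + 2 * (e t + 1) + g t + 3 with hh
    set j0 := c t + W + 1 + N0 t with hj0
    refine ⟨W + w + 1 + h, 2 ^ al j0, fun N hN => ?_⟩
    have hN0 : N ≠ 0 := by
      have : 0 < 2 ^ al j0 := by positivity
      omega
    set u := Nat.log 2 N with hu
    have hu1 : 2 ^ u ≤ N := Nat.pow_log_le_self 2 hN0
    have hu2 : N < 2 ^ (u + 1) := Nat.lt_pow_succ_log_self (by norm_num) N
    have hu3 : al j0 ≤ u := by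
      by_contra hcon
      push Not at hcon
      have : 2 ^ (u + 1) ≤ 2 ^ al j0 := Nat.pow_le_pow_right (by norm_num) hcon
      omega
    obtain ⟨j, hj1, hj2⟩ := exists_al ((al_mono (Nat.zero_le j0)).trans hu3)
    have hj3 : j0 ≤ j := by
      by_contra hcon
      push Not at hcon
      have := al_mono (show j + 1 ≤ j0 from hcon)
      omega
    -- the choice of `u'` and `j'`
    obtain ⟨u', j', p1, p2, p3, p4, p5⟩ : ∃ u' j', u' ≤ u ∧ u ≤ u' + W ∧ c t ≤ j' ∧
        al j' + b t + 3 + w ≤ u' ∧ u' ≤ al (j' + 1) ∧ al j ≤ u' := by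
      by_cases hcase : al j + W ≤ u
      · exact ⟨u, j, le_rfl, by omega, by omega, by omega, by omega, by omega⟩
      · obtain ⟨i, rfl⟩ : ∃ i, j = i + 1 := ⟨j - 1, by omega⟩
        have := al_succ i
        exact ⟨al (i + 1), i, hj1, by omega, by omega, by omega, le_rfl, le_rfl⟩
    obtain ⟨p5, p6⟩ := p5
    have hu' : N0 t ≤ 2 ^ u' := by
      have q1 := al_ge j
      have q2 : u' < 2 ^ u' := Nat.lt_two_pow_self
      omega
    obtain ⟨s, s1, s2, s3⟩ := good (A t) (g t) u' (by omega) (hg t _ hu')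
    have hact : act b c s j' t := ⟨p3, by omega⟩
    have hcard := h4 s j' t hact s3
    have hsub : Bl s j' t ⊆ (Icc 1 N).filter
        (· ∈ {n | ∃ s j, s + 1 ≤ al (j + 1) ∧ n ∈ Bl s j t}) := by
      intro n hn
      obtain ⟨-, -, m1, m2⟩ := h1 s j' t n hn
      rw [mem_filter, mem_Icc]
      have q1 : 2 ^ (s + 1) ≤ 2 ^ u := Nat.pow_le_pow_right (by norm_num) (by omega)
      have q2 : 0 < 2 ^ s := by positivity
      exact ⟨⟨by omega, by omega⟩, s, j', by omega, hn⟩
    have hcnt : (Bl s j' t).card ≤ cnt {n | ∃ s j, s + 1 ≤ al (j + 1) ∧ n ∈ Bl s j t} N :=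
      card_le_card hsub
    calc N ≤ 2 ^ (u + 1) := hu2.le
      _ ≤ 2 ^ (W + w + 1 + s) := Nat.pow_le_pow_right (by norm_num) (by omega)
      _ = 2 ^ (W + w + 1) * 2 ^ s := by rw [pow_add]
      _ ≤ 2 ^ (W + w + 1) * (2 ^ h * (Bl s j' t).card) := Nat.mul_le_mul_left _ hcard
      _ = 2 ^ (W + w + 1 + h) * (Bl s j' t).card := by rw [← mul_assoc, ← pow_add]
      _ ≤ _ := Nat.mul_le_mul_left _ hcnt

end Pool.Agent.R343.HFH
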