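import Pool.Agent.R343.HFH3

/-!
# The counting argument of the negative part

The statement and proof follow the module of helper805 for MP_b9874d_an.
-/

set_option autoImplicit false

namespace Pool.Agent.R343.HFH

open Filter Topology Finset
open Pool.Agent.R805.PropA (Mq Mq_ge Mq_cast cnt cnt_le upperDensity exists_freq card_near width_le
  tail_le)

/-- The combinatorial contradiction. -/
theorem comb2 (A : Set ℕ) (hA : 0 < upperDensity A)
    (h : ∀ q₁ : ℕ, ∃ A' : Set ℕ, 0 < upperDensity A' ∧ ∀ N : ℕ, ∃ K : ℕ, ∀ n ∈ A, ∀ m ∈ A', 1 ≤ n →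
      n ≤ N → K ≤ m → ∃ q ≥ q₁, ∃ j : ℤ, 1 ≤ j ∧ |(m : ℤ) - n - j * Mq q| ≤ (2 * q : ℕ)) :
    False := by
  classical
  obtain ⟨c, hc, hcf⟩ := exists_freq hA
  -- the level
  obtain ⟨q₁, hq₁⟩ : ∃ q₁ : ℕ, 2 * (1 / 2 : ℝ) ^ q₁ ≤ c / 4 := by
    obtain ⟨q₁, h1⟩ := exists_pow_lt_of_lt_one (show 0 < c / 8 by positivity)
      (show (1 / 2 : ℝ) < 1 by norm_num)
    exact ⟨q₁, by linarith⟩
  obtain ⟨A', hA', hK'⟩ := h q₁
  obtain ⟨c', hc', hcf'⟩ := exists_freq hA'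
  obtain ⟨Q, hQ⟩ : ∃ Q : ℕ, 6 * (1 / 2 : ℝ) ^ Q < c * c' / 4 := by
    obtain ⟨q₁, h1⟩ := exists_pow_lt_of_lt_one (show 0 < c * c' / 24 by positivity)
      (show (1 / 2 : ℝ) < 1 by norm_num)
    exact ⟨q₁, by linarith⟩
  set C : ℝ := ∑ q ∈ Ico q₁ Q, (2 * ((2 * q : ℕ) : ℝ) + 1) with hC
  have hC0 : 0 ≤ C := sum_nonneg fun q _ => by positivity
  obtain ⟨N, hN, hNpos, hNC⟩ : ∃ N : ℕ, c * N ≤ cnt A N ∧ 0 < N ∧ C ≤ c / 4 * N := by
    obtain ⟨N, h1, h2⟩ := (hcf.and_eventually (eventually_ge_atTop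
      (⌈C / (c / 4)⌉₊ + 1))).exists
    refine ⟨N, h1, by omega, ?_⟩
    have h3 : C / (c / 4) ≤ N := (Nat.le_ceil _).trans (by exact_mod_cast (by omega))
    rw [div_le_iff₀ (by positivity)] at h3
    linarith
  obtain ⟨K, hK⟩ := hK' N
  obtain ⟨L, hL, hLN⟩ : ∃ L : ℕ, c' * L ≤ cnt A' L ∧ ((N + K : ℕ) : ℝ) ≤ c' / 2 * L := by
    obtain ⟨L, h1, h2⟩ := (hcf'.and_eventually (eventually_ge_atTop
      (⌈((N + K : ℕ) : ℝ) / (c' / 2)⌉₊ + 1))).exists
    refine ⟨L, h1, ?_⟩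
    have h3 : ((N + K : ℕ) : ℝ) / (c' / 2) ≤ L :=
      (Nat.le_ceil _).trans (by exact_mod_cast (by omega))
    rw [div_le_iff₀ (by positivity)] at h3
    linarith
  have hNpos' : (0 : ℝ) < N := by exact_mod_cast hNpos
  have hLpos : (0 : ℝ) < L := by
    have : (0 : ℝ) < ((N + K : ℕ) : ℝ) := by push_cast; positivity
    by_contra hcon
    push Not at hcon
    nlinarith
  set A₁ := (Icc 1 N).filter (· ∈ A) with hA₁
  set A₂ := (Icc 1 L).filter (fun m => m ∈ A' ∧ N + K ≤ m) with hA₂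
  have hA₁c : c * N ≤ A₁.card := hN
  have hA₂c : c' / 2 * L ≤ A₂.card := by
    have h1 : (Icc 1 L).filter (· ∈ A') ⊆ A₂ ∪ Icc 1 (N + K) := by
      intro m hm
      rw [mem_filter, mem_Icc] at hm
      rw [mem_union, hA₂, mem_filter, mem_Icc, mem_Icc]
      by_cases hmk : N + K ≤ m
      · exact Or.inl ⟨hm.1, hm.2, hmk⟩
      · exact Or.inr ⟨hm.1.1, by omega⟩
    have h2 : cnt A' L ≤ A₂.card + (N + K) := by
      refine (card_le_card h1).trans ((card_union_le _ _).trans ?_)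
      simp
    have h3 : (cnt A' L : ℝ) ≤ A₂.card + ((N + K : ℕ) : ℝ) := by exact_mod_cast h2
    linarith
  -- the two kinds of pairs
  set P₁ : ℕ → ℕ → Prop := fun m n => ∃ q, q₁ ≤ q ∧ q < Q ∧ ∃ j : ℤ, 1 ≤ j ∧
    |(m : ℤ) - n - j * Mq q| ≤ (2 * q : ℕ) with hP₁
  set P₂ : ℕ → ℕ → Prop := fun m n => ∃ q, Q ≤ q ∧ ∃ j : ℤ, 1 ≤ j ∧
    |(m : ℤ) - n - j * Mq q| ≤ (2 * q : ℕ) with hP₂
  have hcover : ∀ m ∈ A₂, ∀ n ∈ A₁, P₁ m n ∨ P₂ m n := by
    intro m hm n hn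
    rw [hA₂, mem_filter, mem_Icc] at hm
    rw [hA₁, mem_filter, mem_Icc] at hn
    obtain ⟨q, hq, j, hj, hjj⟩ := hK n hn.2 m hm.2.1 hn.1.1 hn.1.2 (by omega)
    by_cases hqQ : q < Q
    · exact Or.inl ⟨q, hq, hqQ, j, hj, hjj⟩
    · exact Or.inr ⟨q, by omega, j, hj, hjj⟩
  have hone : ∀ m, ((A₁.filter (P₁ m)).card : ℝ) ≤ c / 4 * N + C := by
    intro m
    have h1 : A₁.filter (P₁ m) ⊆ (Ico q₁ Q).biUnion (fun q => (Icc 1 N).filter
        (fun n : ℕ => ∃ j : ℤ, |(m : ℤ) - n - j * Mq q| ≤ (2 * q : ℕ))) := by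
      intro n hn
      rw [mem_filter, hA₁, mem_filter] at hn
      obtain ⟨q, hq, hqQ, j, hj, hjj⟩ := hn.2
      rw [mem_biUnion]
      exact ⟨q, mem_Ico.2 ⟨hq, hqQ⟩, mem_filter.2 ⟨hn.1.1, j, hjj⟩⟩
    calc ((A₁.filter (P₁ m)).card : ℝ) ≤ ((∑ q ∈ Ico q₁ Q, ((Icc 1 N).filter
        (fun n : ℕ => ∃ j : ℤ, |(m : ℤ) - n - j * Mq q| ≤ (2 * q : ℕ))).card : ℕ) : ℝ) := by
          exact_mod_cast (card_le_card h1).trans card_biUnion_le
      _ = ∑ q ∈ Ico q₁ Q, (((Icc 1 N).filter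
        (fun n : ℕ => ∃ j : ℤ, |(m : ℤ) - n - j * Mq q| ≤ (2 * q : ℕ))).card : ℝ) := by
          push_cast; rfl
      _ ≤ ∑ q ∈ Ico q₁ Q, (N * (1 / 2 : ℝ) ^ q + (2 * ((2 * q : ℕ) : ℝ) + 1)) := by
          refine sum_le_sum fun q _ => ?_
          have h2 := card_near N (4 ^ (q + 1)) (2 * q) (by positivity) m
            (fun n : ℕ => ∃ j : ℤ, |(m : ℤ) - n - j * Mq q| ≤ (2 * q : ℕ)) (by
              rintro n ⟨j, hj⟩
              exact ⟨j, by rw [← Mq_cast]; exact hj⟩)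
          refine h2.trans ?_
          have h3 := mul_le_mul_of_nonneg_left (width_le q) hNpos'.le
          have h4 : (2 * ((2 * q : ℕ) : ℝ) + 1) * (N / ((4 ^ (q + 1) : ℕ) : ℝ) + 1) =
              N * ((2 * ((2 * q : ℕ) : ℝ) + 1) / ((4 ^ (q + 1) : ℕ) : ℝ)) +
              (2 * ((2 * q : ℕ) : ℝ) + 1) := by ring
          rw [h4]
          linarith
      _ = N * ∑ q ∈ Ico q₁ Q, (1 / 2 : ℝ) ^ q + C := by
          rw [sum_add_distrib, mul_sum]
      _ ≤ N * (c / 4) + C := by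
          gcongr
          exact (tail_le _ _).trans hq₁
      _ = c / 4 * N + C := by ring
  have htwo : ∀ n, (((Icc 1 L).filter (fun m => P₂ m n)).card : ℝ) ≤
      L * (6 * (1 / 2 : ℝ) ^ Q) := by
    intro n
    have h1 : (Icc 1 L).filter (fun m => P₂ m n) ⊆ (Ico Q (L + 1)).biUnion
        (fun q => (Icc 1 L).filter (fun m : ℕ => 4 ^ (q + 1) ≤ 2 * L ∧
          ∃ j : ℤ, |(n : ℤ) - m - j * Mq q| ≤ (2 * q : ℕ))) := by
      intro m hm
      rw [mem_filter, mem_Icc] at hm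
      obtain ⟨q, hq, j, hj, hjj⟩ := hm.2
      have h2 := Mq_ge q
      have h3 : Mq q ≤ j * Mq q := by nlinarith
      have h4 := neg_le_abs ((m : ℤ) - n - j * Mq q)
      have h5 : (m : ℤ) ≤ L := by exact_mod_cast hm.1.2
      have h6 : Mq q ≤ L + 2 * q := by push_cast at hjj; linarith
      have h7 : (q : ℤ) < L + 1 := by linarith
      rw [mem_biUnion]
      refine ⟨q, mem_Ico.2 ⟨hq, by exact_mod_cast h7⟩, mem_filter.2 ⟨mem_Icc.2 hm.1, ?_, -j, ?_⟩⟩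
      · have h8 : Mq q ≤ 2 * L := by linarith
        rw [Mq_cast] at h8
        exact_mod_cast h8
      · have h9 : (n : ℤ) - m - -j * Mq q = -((m : ℤ) - n - j * Mq q) := by ring
        rw [h9, abs_neg]
        exact hjj
    calc (((Icc 1 L).filter (fun m => P₂ m n)).card : ℝ) ≤
        ((∑ q ∈ Ico Q (L + 1), ((Icc 1 L).filter (fun m : ℕ => 4 ^ (q + 1) ≤ 2 * L ∧
          ∃ j : ℤ, |(n : ℤ) - m - j * Mq q| ≤ (2 * q : ℕ))).card : ℕ) : ℝ) := by
          exact_mod_cast (card_le_card h1).trans card_biUnion_le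
      _ = ∑ q ∈ Ico Q (L + 1), (((Icc 1 L).filter (fun m : ℕ => 4 ^ (q + 1) ≤ 2 * L ∧
          ∃ j : ℤ, |(n : ℤ) - m - j * Mq q| ≤ (2 * q : ℕ))).card : ℝ) := by
          push_cast; rfl
      _ ≤ ∑ q ∈ Ico Q (L + 1), (3 * L * (1 / 2 : ℝ) ^ q) := by
          refine sum_le_sum fun q _ => ?_
          by_cases hqL : 4 ^ (q + 1) ≤ 2 * L
          · have h2 := card_near L (4 ^ (q + 1)) (2 * q) (by positivity) n
              (fun m : ℕ => 4 ^ (q + 1) ≤ 2 * L ∧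
                ∃ j : ℤ, |(n : ℤ) - m - j * Mq q| ≤ (2 * q : ℕ)) (by
                rintro m ⟨-, j, hj⟩
                exact ⟨j, by rw [← Mq_cast]; exact hj⟩)
            refine h2.trans ?_
            have h3 := mul_le_mul_of_nonneg_left (width_le q)
              (show (0 : ℝ) ≤ 3 * L by positivity)
            refine le_trans ?_ h3
            have h5 : ((4 ^ (q + 1) : ℕ) : ℝ) ≤ 2 * L := by exact_mod_cast hqL
            have h6 : (0 : ℝ) < ((4 ^ (q + 1) : ℕ) : ℝ) := by positivity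
            have h7 : (1 : ℝ) ≤ 2 * L / ((4 ^ (q + 1) : ℕ) : ℝ) := by
              rw [le_div_iff₀ h6]; linarith
            have h8 : (L : ℝ) / ((4 ^ (q + 1) : ℕ) : ℝ) + 1 ≤
                3 * L / ((4 ^ (q + 1) : ℕ) : ℝ) := by
              have : 3 * (L : ℝ) / ((4 ^ (q + 1) : ℕ) : ℝ) =
                L / ((4 ^ (q + 1) : ℕ) : ℝ) + 2 * L / ((4 ^ (q + 1) : ℕ) : ℝ) := by ring
              linarith
            calc (2 * ((2 * q : ℕ) : ℝ) + 1) * (L / ((4 ^ (q + 1) : ℕ) : ℝ) + 1) ≤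
                (2 * ((2 * q : ℕ) : ℝ) + 1) * (3 * L / ((4 ^ (q + 1) : ℕ) : ℝ)) := by gcongr
              _ = 3 * L * ((2 * ((2 * q : ℕ) : ℝ) + 1) / ((4 ^ (q + 1) : ℕ) : ℝ)) := by ring
          · rw [filter_false_of_mem]
            · simp only [card_empty, Nat.cast_zero]; positivity
            · rintro m - ⟨h2, -⟩
              exact hqL h2
      _ = 3 * L * ∑ q ∈ Ico Q (L + 1), (1 / 2 : ℝ) ^ q := by rw [mul_sum]
      _ ≤ 3 * L * (2 * (1 / 2 : ℝ) ^ Q) := by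
          gcongr
          exact tail_le _ _
      _ = L * (6 * (1 / 2 : ℝ) ^ Q) := by ring
  -- the count
  have hmain : (A₂.card : ℝ) * A₁.card ≤
      A₂.card * (c / 4 * N + C) + N * (L * (6 * (1 / 2 : ℝ) ^ Q)) := by
    have h1 : (A₂.card : ℝ) * A₁.card = ∑ m ∈ A₂, ∑ n ∈ A₁, (1 : ℝ) := by
      simp [mul_comm]
    have h2 : ∑ m ∈ A₂, ∑ n ∈ A₁, (1 : ℝ) ≤
        ∑ m ∈ A₂, ∑ n ∈ A₁, ((if P₁ m n then (1 : ℝ) else 0) + (if P₂ m n then (1 : ℝ) else 0)) := by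
      refine sum_le_sum fun m hm => sum_le_sum fun n hn => ?_
      rcases hcover m hm n hn with h | h
      · rw [if_pos h]; split_ifs <;> norm_num
      · rw [if_pos h]; split_ifs <;> norm_num
    have h3 : ∑ m ∈ A₂, ∑ n ∈ A₁,
        ((if P₁ m n then (1 : ℝ) else 0) + (if P₂ m n then (1 : ℝ) else 0)) =
        ∑ m ∈ A₂, ((A₁.filter (P₁ m)).card : ℝ) +
        ∑ n ∈ A₁, ((A₂.filter (fun m => P₂ m n)).card : ℝ) := by
      simp only [sum_add_distrib]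
      congr 1
      · refine sum_congr rfl fun m _ => ?_
        rw [sum_boole]
      · rw [sum_comm]
        refine sum_congr rfl fun n _ => ?_
        rw [sum_boole]
    have h4 : ∑ m ∈ A₂, ((A₁.filter (P₁ m)).card : ℝ) ≤ A₂.card * (c / 4 * N + C) := by
      calc _ ≤ ∑ m ∈ A₂, (c / 4 * N + C) := sum_le_sum fun m _ => hone m
        _ = _ := by rw [sum_const, nsmul_eq_mul]
    have h5 : ∑ n ∈ A₁, ((A₂.filter (fun m => P₂ m n)).card : ℝ) ≤
        N * (L * (6 * (1 / 2 : ℝ) ^ Q)) := by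
      calc _ ≤ ∑ n ∈ A₁, (L * (6 * (1 / 2 : ℝ) ^ Q)) := by
            refine sum_le_sum fun n _ => le_trans ?_ (htwo n)
            have : A₂.filter (fun m => P₂ m n) ⊆ (Icc 1 L).filter (fun m => P₂ m n) :=
              filter_subset_filter _ (filter_subset _ _)
            exact_mod_cast card_le_card this
        _ = A₁.card * (L * (6 * (1 / 2 : ℝ) ^ Q)) := by rw [sum_const, nsmul_eq_mul]
        _ ≤ N * (L * (6 * (1 / 2 : ℝ) ^ Q)) := by
            gcongr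
            exact_mod_cast cnt_le A N
    rw [h1]
    linarith
  have hfin : (A₂.card : ℝ) * (c / 2 * N) ≤ N * (L * (6 * (1 / 2 : ℝ) ^ Q)) := by
    have h1 : (A₂.card : ℝ) * (c * N) ≤ A₂.card * A₁.card := by gcongr
    have h2 : (A₂.card : ℝ) * (c / 4 * N + C) ≤ A₂.card * (c / 4 * N + c / 4 * N) := by gcongr
    nlinarith
  have h1 : c' / 2 * L * (c / 2 * N) ≤ A₂.card * (c / 2 * N) := by gcongr
  have h2 : c' / 2 * L * (c / 2 * N) ≤ N * (L * (6 * (1 / 2 : ℝ) ^ Q)) := h1.trans hfin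
  have h3 : N * (L * (6 * (1 / 2 : ℝ) ^ Q)) < N * (L * (c * c' / 4)) := by gcongr
  have h4 : c' / 2 * L * (c / 2 * N) = N * (L * (c * c' / 4)) := by ring
  linarith

end Pool.Agent.R343.HFH
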