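import Pool.Agent.R343.HFH4

/-!
# The shift is hereditarily frequently hypercyclic (proof design: helper286)
-/

set_option autoImplicit false

namespace Pool.Agent.R343.HFH

open Filter Topology Finset
open scoped ZeroAtInfty
open Pool.Agent.R805.PropA (Mq Mq_ge mk mk_apply c0_norm_le c0_apply_le c0_tendsto norm_two_zpow
  cnt cnt_le upperDensity exists_freq)

lemma cnt_mono {A B : Set ℕ} (h : A ⊆ B) (N : ℕ) : cnt A N ≤ cnt B N := by
  classical
  unfold cnt
  exact card_le_card (fun n hn => by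
    rw [mem_filter] at hn ⊢
    exact ⟨hn.1, h hn.2⟩)

lemma cutoff (y : C₀(ℤ, ℂ)) {δ : ℝ} (hδ : 0 < δ) :
    ∃ d : ℕ, ∀ n : ℤ, (d : ℤ) < |n| → ‖y n‖ ≤ δ / 4 := by
  have h1 : ∀ᶠ n : ℤ in cofinite, ‖y n‖ < δ / 4 := by
    have := (c0_tendsto y).norm
    rw [norm_zero] at this
    exact this.eventually (gt_mem_nhds (by positivity))
  rw [eventually_cofinite] at h1
  obtain ⟨B, hB⟩ := (h1.image (fun n : ℤ => n.natAbs)).bddAbove
  refine ⟨B, fun n hn => ?_⟩
  by_contra hcon
  push Not at hcon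
  have h2 : n.natAbs ≤ B := hB ⟨n, by simpa using hcon.le, rfl⟩
  have h3 : (n.natAbs : ℤ) = |n| := Int.natCast_natAbs n
  omega

lemma exists_e (d : ℕ) (δ C : ℝ) (hδ : 0 < δ) :
    ∃ e : ℕ, d + 1 ≤ e ∧ (1 / 2 : ℝ) ^ e ≤ δ / 4 ∧ 4 ^ d * C ≤ 2 ^ e := by
  obtain ⟨e1, h1⟩ := exists_pow_lt_of_lt_one (show 0 < δ / 4 by positivity)
    (show (1 / 2 : ℝ) < 1 by norm_num)
  obtain ⟨e2, h2⟩ := pow_unbounded_of_one_lt (4 ^ d * C) (show (1 : ℝ) < 2 by norm_num)
  refine ⟨d + 1 + e1 + e2, by omega, ?_, ?_⟩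
  · refine le_trans ?_ h1.le
    exact pow_le_pow_of_le_one (by norm_num) (by norm_num) (by omega)
  · exact h2.le.trans (pow_le_pow_right₀ (by norm_num) (by omega))

lemma toNat_tendsto : Tendsto Int.toNat atTop atTop := Pool.Agent.R805.PropA.tendsto_toNat

/-- hereditary frequent hypercyclicity -/
theorem pos (V : ℕ → Set C₀(ℤ, ℂ)) (hV : ∀ i, IsOpen (V i)) (hne : ∀ i, (V i).Nonempty)
    (A : ℕ → Set ℕ) (hA : ∀ t, ∃ g N0 : ℕ, ∀ N, N0 ≤ N → N ≤ 2 ^ g * cnt (A t) N) :
    ∃ x : C₀(ℤ, ℂ), ∀ i, ∃ g N0 : ℕ, ∀ N, N0 ≤ N →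
      N ≤ 2 ^ g * cnt ({n : ℕ | (T ^ n) x ∈ V i} ∩ A i) N := by
  classical
  choose y hy using hne
  choose δ hδ hball using fun i => Metric.isOpen_iff.1 (hV i) (y i) (hy i)
  choose d hd using fun i => cutoff (y i) (hδ i)
  choose e he1 he2 he3 using fun i => exists_e (d i) (δ i) ‖y i‖ (hδ i)
  obtain ⟨B, hBA, hpair, hdisj, hlarge, hdens⟩ := comb_main A e hA
  -- hits
  set hit : ℤ → ℕ × ℕ → Prop := fun l p => p.2 ∈ B p.1 ∧ |l - p.2| ≤ d p.1 with hhit
  have hpair' : ∀ i k, ∀ m ∈ B i, ∀ n ∈ B k, n < m → (e i : ℤ) + e k ≤ (m : ℤ) - n := by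
    intro i k m hm n hn hnm
    have h1 := hpair i k m hm n hn hnm
    have h2 := v_le ((m : ℤ) - n)
    rw [max_eq_left (by omega)] at h2
    omega
  have huniq : ∀ l p p', hit l p → hit l p' → p = p' := by
    rintro l ⟨k, n⟩ ⟨k', n'⟩ ⟨h1, h2⟩ ⟨h3, h4⟩
    simp only at h1 h2 h3 h4
    have h5 := he1 k
    have h6 := he1 k'
    obtain ⟨c1, c2⟩ := abs_le.1 h2
    obtain ⟨c3, c4⟩ := abs_le.1 h4
    have hnn : n = n' := by
      rcases lt_trichotomy n n' with h | h | h
      · have := hpair' k' k n' h3 n h1 h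
        omega
      · exact h
      · have := hpair' k k' n h1 n' h3 h
        omega
    subst hnn
    by_cases hk : k = k'
    · rw [hk]
    · exact absurd h3 (hdisj k k' hk n h1)
  set X : ℤ → ℂ := fun l => if h : ∃ p, hit l p then
    (2 : ℂ) ^ (ex (l - h.choose.2)) * y h.choose.1 (l - h.choose.2) else 0 with hX
  have hXhit : ∀ l k n, hit l (k, n) → X l = (2 : ℂ) ^ (ex (l - n)) * y k (l - n) := by
    intro l k n h
    have hex : ∃ p, hit l p := ⟨_, h⟩
    have h1 := huniq l _ _ hex.choose_spec h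
    simp only [hX]
    rw [dif_pos hex, h1]
  have hXnot : ∀ l, (¬ ∃ p, hit l p) → X l = 0 := fun l h => by
    simp only [hX]
    rw [dif_neg h]
  have hXnorm : ∀ l k n, hit l (k, n) → ‖X l‖ ≤ (2 : ℝ) ^ ((e k : ℤ) - d k) := by
    intro l k n h
    rw [hXhit l k n h, norm_mul, norm_two_zpow]
    have h1 : ex (l - n) ≤ d k := (ex_le_abs _).trans h.2
    have h2 : (2 : ℝ) ^ ex (l - n) ≤ 2 ^ (d k : ℤ) := zpow_le_zpow_right₀ (by norm_num) h1
    have h3 : (2 : ℝ) ^ ((e k : ℤ) - d k) = 2 ^ e k / 2 ^ d k := by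
      rw [zpow_sub₀ (by norm_num), zpow_natCast, zpow_natCast]
    have h4 : (4 : ℝ) ^ d k = 2 ^ d k * 2 ^ d k := by rw [← mul_pow]; norm_num
    have h5 := he3 k
    rw [h4] at h5
    rw [zpow_natCast] at h2
    rw [h3, le_div_iff₀ (by positivity)]
    calc (2 : ℝ) ^ ex (l - n) * ‖y k (l - n)‖ * 2 ^ d k ≤ 2 ^ d k * ‖y k‖ * 2 ^ d k := by
          gcongr
          exact c0_apply_le _ _
      _ = 2 ^ d k * 2 ^ d k * ‖y k‖ := by ring
      _ ≤ _ := h5
  -- the vector
  set x : ℤ → ℂ := fun l => (2 : ℂ) ^ (-ex l) * X l with hx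
  have hhitpos : ∀ l k n, hit l (k, n) → (3 * e k : ℤ) ≤ l := by
    intro l k n h
    have h1 := hlarge k n h.1
    have h2 := (abs_le.1 h.2).1
    have h3 := he1 k
    simp only at h2
    omega
  have hxlim : Tendsto x cofinite (𝓝 0) := by
    rw [Int.cofinite_eq]
    refine Tendsto.sup ?_ ?_
    · refine tendsto_const_nhds.congr' ?_
      filter_upwards [eventually_lt_atBot (0 : ℤ)] with l hl
      simp only [hx]
      rw [hXnot l, mul_zero]
      rintro ⟨⟨k, n⟩, h⟩
      have := hhitpos l k n h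
      omega
    · have h1 : Tendsto (fun l : ℤ => (3 / 4 : ℝ) ^ l.toNat) atTop (𝓝 0) :=
        (tendsto_pow_atTop_nhds_zero_of_lt_one (by norm_num) (by norm_num)).comp toNat_tendsto
      refine squeeze_zero_norm' ?_ h1
      filter_upwards [eventually_ge_atTop (0 : ℤ)] with l hl
      simp only [hx]
      by_cases hex : ∃ p, hit l p
      · obtain ⟨⟨k, n⟩, h⟩ := hex
        have h2 := hhitpos l k n h
        rw [norm_mul, norm_two_zpow, ex_of_nonneg hl]
        have h3 : ‖X l‖ ≤ (2 : ℝ) ^ (e k : ℤ) := (hXnorm l k n h).trans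
          (zpow_le_zpow_right₀ (by norm_num) (by omega))
        rw [zpow_natCast] at h3
        have h4 : (2 : ℝ) ^ (-l) = (1 / 2) ^ l.toNat := by
          have : (2 : ℝ) ^ l = 2 ^ l.toNat := by rw [← zpow_natCast, Int.toNat_of_nonneg hl]
          rw [zpow_neg, this, one_div, inv_pow]
        have h5 : (2 : ℝ) ^ e k ≤ (3 / 2) ^ l.toNat := by
          calc (2 : ℝ) ^ e k ≤ ((3 / 2) ^ 3) ^ e k := by gcongr; norm_num
            _ = (3 / 2) ^ (3 * e k) := by rw [← pow_mul]
            _ ≤ (3 / 2) ^ l.toNat := pow_le_pow_right₀ (by norm_num) (by omega)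
        rw [h4]
        calc (1 / 2 : ℝ) ^ l.toNat * ‖X l‖ ≤ (1 / 2) ^ l.toNat * (3 / 2) ^ l.toNat := by
              gcongr
              exact h3.trans h5
          _ = (3 / 4) ^ l.toNat := by rw [← mul_pow]; norm_num
      · rw [hXnot l hex, mul_zero, norm_zero]
        positivity
  refine ⟨mk x hxlim, fun i => ?_⟩
  obtain ⟨g, N0, hgN⟩ := hdens i
  refine ⟨g, N0, fun N hN => (hgN N hN).trans (Nat.mul_le_mul_left _ (cnt_mono ?_ N))⟩
  intro m hm
  refine ⟨?_, hBA i hm⟩
  rw [Set.mem_ofPred_eq]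
  refine hball i ?_
  rw [Metric.mem_ball, dist_eq_norm]
  refine lt_of_le_of_lt (c0_norm_le (C := δ i / 2) (by have := hδ i; positivity) fun n => ?_)
    (half_lt_self (hδ i))
  rw [ZeroAtInftyContinuousMap.sub_apply, T_pow_apply, mk_apply]
  have hval : (2 : ℂ) ^ (ex (n + m) - ex n) * x (n + m) = (2 : ℂ) ^ (-ex n) * X (n + m) := by
    simp only [hx]
    rw [← mul_assoc, ← zpow_add₀ (by norm_num : (2 : ℂ) ≠ 0)]
    congr 2
    ring
  rw [hval]
  have hδi := hδ i
  by_cases hn : |n| ≤ d i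
  · have h1 : hit (n + m) (i, m) := ⟨hm, by
      show |n + (m : ℤ) - m| ≤ _
      rw [add_sub_cancel_right]; exact hn⟩
    rw [hXhit _ _ _ h1, add_sub_cancel_right, ← mul_assoc,
      ← zpow_add₀ (by norm_num : (2 : ℂ) ≠ 0), neg_add_cancel, zpow_zero, one_mul, sub_self,
      norm_zero]
    positivity
  · push Not at hn
    have h1 := hd i n hn
    have h2 : ‖(2 : ℂ) ^ (-ex n) * X (n + m)‖ ≤ δ i / 4 := by
      by_cases hex : ∃ p, hit (n + m) p
      · obtain ⟨⟨k, n'⟩, h⟩ := hex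
        obtain ⟨hB', hdist⟩ := h
        simp only at hB' hdist
        obtain ⟨c1, c2⟩ := abs_le.1 hdist
        have hei := he1 i
        have hek := he1 k
        have hkey : (e i : ℤ) + e k - d k ≤ ex n := by
          rcases lt_trichotomy m n' with hlt | heq | hgt
          · have h3 := hpair' k i n' hB' m hm hlt
            have h4 : (e i : ℤ) + e k - d k ≤ n := by omega
            rw [ex_of_nonneg (by omega)]
            exact h4
          · exfalso
            subst heq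
            have hki : k = i := by
              by_contra hne
              exact hdisj k i hne m hB' hm
            subst hki
            rw [add_sub_cancel_right] at hdist
            omega
          · have h3 := hpair' i k m hm n' hB' hgt
            have h4 := hpair i k m hm n' hB' hgt
            rw [ex_of_nonpos (by omega)]
            have h5 := v_lip ((m : ℤ) - n') (-n)
            have h6 : |(m : ℤ) - n' - -n| ≤ d k := by
              have : (m : ℤ) - n' - -n = n + m - n' := by ring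
              rw [this]
              exact hdist
            omega
        rw [norm_mul, norm_two_zpow]
        have h3 : (2 : ℝ) ^ (-ex n) ≤ 2 ^ (-((e i : ℤ) + e k - d k)) :=
          zpow_le_zpow_right₀ (by norm_num) (by omega)
        calc (2 : ℝ) ^ (-ex n) * ‖X (n + m)‖ ≤
            2 ^ (-((e i : ℤ) + e k - d k)) * 2 ^ ((e k : ℤ) - d k) :=
              mul_le_mul h3 (hXnorm _ _ _ ⟨hB', hdist⟩) (norm_nonneg _) (by positivity)
          _ = (1 / 2) ^ e i := by
              rw [← zpow_add₀ (by norm_num : (2 : ℝ) ≠ 0)]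
              have : -((e i : ℤ) + e k - d k) + ((e k : ℤ) - d k) = -(e i : ℤ) := by ring
              rw [this, zpow_neg, zpow_natCast, one_div, inv_pow]
          _ ≤ δ i / 4 := he2 i
      · rw [hXnot _ hex, mul_zero, norm_zero]
        positivity
    calc _ ≤ _ := norm_sub_le _ _
      _ ≤ δ i / 4 + δ i / 4 := add_le_add h2 h1
      _ = δ i / 2 := by ring

end Pool.Agent.R343.HFH
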