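import Pool.Agent.R343.HFH5

/-!
# The shift is not hereditarily U-frequently hypercyclic (proof design: helper286)
-/

set_option autoImplicit false

namespace Pool.Agent.R343.HFH

open Filter Topology Finset
open scoped ZeroAtInfty
open Pool.Agent.R805.PropA (Mq Mq_ge mk mk_apply c0_norm_le c0_apply_le c0_tendsto norm_two_zpow
  cnt cnt_le upperDensity exists_freq ratio_le ratio_nonneg upperDensity_eq)

/-- unit vectors -/
noncomputable def E (k : ℤ) : C₀(ℤ, ℂ) := mk (fun n => if n = k then 1 else 0) (by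
  refine tendsto_const_nhds.congr' ?_
  have : ∀ᶠ n : ℤ in cofinite, n ≠ k := by
    rw [eventually_cofinite]
    exact (Set.finite_singleton k).subset (by intro n hn; simpa using hn)
  filter_upwards [this] with n hn
  rw [if_neg hn])

lemma E_apply (k n : ℤ) : E k n = if n = k then 1 else 0 := rfl

lemma sum_apply (s : Finset ℤ) (c : ℤ → ℂ) (k : ℤ) :
    (∑ n ∈ s, c n • E n) k = if k ∈ s then c k else 0 := by
  classical
  induction s using Finset.induction_on with
  | empty => simp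
  | insert a s ha ih =>
    rw [sum_insert ha, ZeroAtInftyContinuousMap.add_apply, ih, ZeroAtInftyContinuousMap.smul_apply,
      E_apply, smul_eq_mul]
    by_cases hk : k = a
    · subst hk
      rw [if_pos rfl, if_neg ha, if_pos (mem_insert_self _ _)]
      ring
    · rw [if_neg hk, mul_zero, zero_add]
      by_cases hks : k ∈ s
      · rw [if_pos hks, if_pos (mem_insert_of_mem hks)]
      · rw [if_neg hks, if_neg]
        rw [mem_insert]
        tauto

lemma lin_ind : LinearIndependent ℂ E := by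
  rw [linearIndependent_iff']
  intro s c h i hi
  have := congrArg (fun f : C₀(ℤ, ℂ) => f i) h
  simp only [sum_apply, if_pos hi] at this
  simpa using this

lemma not_finite : ¬ FiniteDimensional ℂ C₀(ℤ, ℂ) := by
  intro h
  have := lin_ind.finite
  exact _root_.not_finite ℤ

lemma mem_closure (y : C₀(ℤ, ℂ)) :
    y ∈ closure (Submodule.span ℂ (Set.range E) : Set C₀(ℤ, ℂ)) := by
  rw [Metric.mem_closure_iff]
  intro ε hε
  obtain ⟨d, hd⟩ := cutoff y hε
  refine ⟨∑ n ∈ Icc (-(d : ℤ)) d, y n • E n, ?_, ?_⟩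
  · exact Submodule.sum_mem _ fun n _ => Submodule.smul_mem _ _
      (Submodule.subset_span (Set.mem_range_self n))
  · rw [dist_eq_norm]
    refine lt_of_le_of_lt (c0_norm_le (C := ε / 4) (by positivity) fun k => ?_) (by linarith)
    rw [ZeroAtInftyContinuousMap.sub_apply, sum_apply]
    by_cases hk : k ∈ Icc (-(d : ℤ)) d
    · rw [if_pos hk, sub_self, norm_zero]
      positivity
    · rw [if_neg hk, sub_zero]
      apply hd
      rw [mem_Icc, ← abs_le] at hk
      exact not_le.1 hk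

lemma separable : TopologicalSpace.SeparableSpace C₀(ℤ, ℂ) := by
  rw [← TopologicalSpace.isSeparable_univ_iff]
  have h1 : TopologicalSpace.IsSeparable (Submodule.span ℂ (Set.range E) : Set C₀(ℤ, ℂ)) :=
    (TopologicalSpace.isSeparable_range continuous_of_discreteTopology).span
  exact h1.closure.mono fun y _ => mem_closure y

/-- the sets of times of the negative part -/
def Astar : Set ℕ := {m | ∃ j : ℕ, 3 * aw j ≤ 2 * (m : ℤ) ∧ (m : ℤ) + 2 * j + 1 ≤ 2 * aw j}

lemma ud_pos {A : Set ℕ} {c : ℝ} (hc : 0 < c) (h : ∃ᶠ N : ℕ in atTop, c ≤ (cnt A N : ℝ) / N) :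
    0 < upperDensity A := by
  rw [upperDensity_eq]
  have hbd : IsBoundedUnder (· ≤ ·) atTop (fun N : ℕ => (cnt A N : ℝ) / N) :=
    isBoundedUnder_of ⟨1, fun N => ratio_le A N⟩
  exact lt_of_lt_of_le hc (le_limsup_of_frequently_le h hbd)

lemma cnt_all {A : Set ℕ} (h : ∀ n, n ∈ A) (N : ℕ) : N ≤ cnt A N := by
  classical
  have h2 : (Icc 1 N).card = N := by rw [Nat.card_Icc]; omega
  unfold cnt
  conv_lhs => rw [← h2]
  refine card_le_card (fun n hn => ?_)
  rw [mem_filter]
  exact ⟨hn, h n⟩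

lemma ud_univ : 0 < upperDensity (Set.univ : Set ℕ) := by
  refine ud_pos one_pos (Eventually.frequently ?_)
  filter_upwards [eventually_gt_atTop 0] with N hN
  have h1 : cnt (Set.univ : Set ℕ) N = N := by
    exact le_antisymm (cnt_le _ _) (cnt_all (fun n => Set.mem_univ n) N)
  rw [h1, div_self (by exact_mod_cast hN.ne')]

lemma ud_Astar : 0 < upperDensity Astar := by
  classical
  refine ud_pos (c := 1 / 8) (by norm_num) ?_
  rw [frequently_atTop]
  intro b
  set a : ℕ := 2 ^ (al b - 1) with ha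
  have hal := al_ge b
  have haw : aw b = 2 * a := by
    unfold aw
    rw [ha]
    push_cast
    rw [← pow_succ']
    have h0 : al b - 1 + 1 = al b := by omega
    rw [h0]
  have hge := aw_ge b
  rw [haw] at hge
  refine ⟨4 * a, by omega, ?_⟩
  have h1 : Icc (3 * a) (4 * a - 2 * b - 1) ⊆ (Icc 1 (4 * a)).filter (· ∈ Astar) := by
    intro m hm
    rw [mem_Icc] at hm
    rw [mem_filter, mem_Icc]
    refine ⟨⟨by omega, by omega⟩, b, ?_, ?_⟩
    · rw [haw]; omega
    · rw [haw]; omega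
  have h2 : a - 2 * b ≤ cnt Astar (4 * a) := by
    refine le_trans ?_ (card_le_card h1)
    rw [Nat.card_Icc]
    omega
  have h3 : a ≤ 2 * cnt Astar (4 * a) := by omega
  have h4 : (0 : ℝ) < a := by
    have : 0 < a := by positivity
    exact_mod_cast this
  have h5 : (a : ℝ) ≤ 2 * cnt Astar (4 * a) := by exact_mod_cast h3
  rw [le_div_iff₀ (by push_cast; positivity)]
  push_cast
  linarith

/-- the open sets of the negative part -/
noncomputable def VV : ℕ → Set C₀(ℤ, ℂ)
  | 0 => Metric.ball (E 0) (1 / 4)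
  | (q + 1) => Metric.ball (E 0) ((1 / 2) ^ (2 * q + 3))

/-- the sets of times of the negative part -/
def AA : ℕ → Set ℕ
  | 0 => Set.univ
  | (_ + 1) => Astar

/-- no vector works for the family `VV`, `AA` -/
theorem neg (x : C₀(ℤ, ℂ)) (h : ∀ i, 0 < upperDensity ({n : ℕ | (T ^ n) x ∈ VV i} ∩ AA i)) :
    False := by
  refine comb2 _ (h 0) fun q₁ => ⟨_, h (q₁ + 1), fun N => ⟨8 * N + 8, ?_⟩⟩
  rintro n ⟨hn, -⟩ m ⟨hm, j, hj1, hj2⟩ hn1 hnN hmK
  rw [Set.mem_ofPred_eq] at hn hm
  change (T ^ n) x ∈ Metric.ball (E 0) (1 / 4) at hn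
  change (T ^ m) x ∈ Metric.ball (E 0) ((1 / 2) ^ (2 * q₁ + 3)) at hm
  rw [Metric.mem_ball, dist_eq_norm] at hn hm
  -- the coordinate 0 of `T^n x`
  have h1 : 3 / 4 ≤ (2 : ℝ) ^ n * ‖x n‖ := by
    have h2 := c0_apply_le ((T ^ n) x - E 0) 0
    rw [ZeroAtInftyContinuousMap.sub_apply, T_pow_apply, zero_add,
      ex_of_nonneg (by positivity), ex_of_nonneg le_rfl, sub_zero, E_apply, if_pos rfl] at h2
    have h3 : ‖(1 : ℂ)‖ - ‖(2 : ℂ) ^ (n : ℤ) * x n‖ ≤ ‖(2 : ℂ) ^ (n : ℤ) * x n - 1‖ := by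
      rw [norm_sub_rev]
      exact norm_sub_norm_le _ _
    rw [norm_mul, norm_two_zpow, zpow_natCast, norm_one] at h3
    linarith
  -- the coordinate `n - m` of `T^m x`
  have h2 := c0_apply_le ((T ^ m) x - E 0) ((n : ℤ) - m)
  rw [ZeroAtInftyContinuousMap.sub_apply, T_pow_apply, sub_add_cancel,
    ex_of_nonneg (by positivity), ex_of_nonpos (by omega), E_apply, if_neg (by omega), sub_zero,
    norm_mul, norm_two_zpow] at h2
  have h3 : -((n : ℤ) - m) = m - n := by ring
  rw [h3] at h2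
  set w := v ((m : ℤ) - n) with hw
  have h4 : (2 : ℝ) ^ ((n : ℤ) - (w : ℤ)) * ‖x n‖ < (1 / 2) ^ (2 * q₁ + 3) := h2.trans_lt hm
  rw [zpow_sub₀ (by norm_num), zpow_natCast, zpow_natCast] at h4
  have h5 : 2 * q₁ + 1 ≤ w := by
    by_contra hcon
    push Not at hcon
    have h6 : (2 : ℝ) ^ w ≤ 2 ^ (2 * q₁) := pow_le_pow_right₀ (by norm_num) (by omega)
    have h7 : (0 : ℝ) < 2 ^ w := by positivity
    have h8 : (2 : ℝ) ^ n / 2 ^ w * ‖x n‖ = (2 ^ n * ‖x n‖) / 2 ^ w := by ring
    rw [h8, div_lt_iff₀ h7] at h4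
    have h9 : (1 / 2 : ℝ) ^ (2 * q₁ + 3) * 2 ^ w ≤ (1 / 2) ^ (2 * q₁ + 3) * 2 ^ (2 * q₁) := by
      gcongr
    have h10 : (1 / 2 : ℝ) ^ (2 * q₁ + 3) * 2 ^ (2 * q₁) = 1 / 8 := by
      rw [pow_add, mul_right_comm, ← mul_pow]
      norm_num
    linarith
  have h6 := v_mem ((m : ℤ) - n)
  rw [← hw] at h6
  rcases h6 with h6 | ⟨q, g, hG, hgg⟩
  · omega
  · have hge := aw_ge j
    have hN' : (n : ℤ) ≤ N := by exact_mod_cast hnN
    have hmK' : (8 * N + 8 : ℤ) ≤ m := by exact_mod_cast hmK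
    obtain ⟨i, hi, hgi⟩ := v_window (j := j) (l := (m : ℤ) - n) (by omega) (by omega)
      (n := w) (by omega) hG hgg
    have h8 := abs_nonneg ((m : ℤ) - n - g)
    refine ⟨q, by omega, i, hi, ?_⟩
    rw [← hgi]
    push_cast
    omega

end Pool.Agent.R343.HFH
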