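import Pool.Agent.R343.CFP2
import Pool.Agent.H843R2.KZ.T_POS
import Pool.Agent.H268R2.RZ_HT
import Pool.Agent.H379R2.W.JChar
import Pool.Agent.H916R2.OddChar

set_option autoImplicit false

/-!
# The sum of the Jacobi symbols `(m / p)` over `m < p / 2` is nonnegative for `p ≡ 3 (mod 4)`
-/

namespace Pool.Agent.R343.CFP

open Finset Pool.Agent.H379R2.W Pool.Agent.H916R2
open scoped ZMod

theorem jacobi_neg_one (d : ℕ) (h3 : d % 4 = 3) : jacobiSym (-1) d = -1 := by
  rw [jacobiSym.at_neg_one (by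
    rw [Nat.odd_iff]; omega)]
  exact ZMod.χ₄_nat_three_mod_four h3

/-- the Gauss sum -/
theorem gauss_sum (d k : ℕ) (h3 : d % 4 = 3) (hs : Squarefree d) :
    ∑ r ∈ range d, ((jacobiSym (r : ℤ) d : ℤ) : ℂ) *
      Complex.exp (-(2 * Real.pi * Complex.I * ((r : ℂ) * k) / d)) =
      -Complex.I * Real.sqrt d * ((jacobiSym (k : ℤ) d : ℤ) : ℂ) := by
  have hodd : Odd d := by rw [Nat.odd_iff]; omega
  have h1 := Pool.Agent.H268R2.RZHT.Gk_all (k : ℤ) d hodd hs
  rw [Pool.Agent.H987R2.RZ.Gk_eq, Pool.Agent.H987R2.RZ.Cs_zero (k : ℤ) d h3, zero_add] at h1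
  have h0 := Pool.Agent.H987R2.RZ.Cs_zero (k : ℤ) d h3
  have h2 : ∑ r ∈ range d, ((jacobiSym (r : ℤ) d : ℤ) : ℂ) *
      Complex.exp (-(2 * Real.pi * Complex.I * ((r : ℂ) * k) / d)) =
      (Pool.Agent.H987R2.RZ.Cs (k : ℤ) d : ℂ) -
        (Pool.Agent.H987R2.RZ.Sn (k : ℤ) d : ℂ) * Complex.I := by
    unfold Pool.Agent.H987R2.RZ.Cs Pool.Agent.H987R2.RZ.Sn
    rw [Complex.ofReal_sum, Complex.ofReal_sum, Finset.sum_mul, ← Finset.sum_sub_distrib]
    refine Finset.sum_congr rfl fun b _ => ?_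
    have h3 : (-(2 * Real.pi * Complex.I * ((b : ℂ) * k) / d) : ℂ) =
        ((-(2 * Real.pi * (((k : ℤ) : ℝ)) * (b : ℝ) / (d : ℝ)) : ℝ) : ℂ) * Complex.I := by
      push_cast; ring
    rw [h3, Complex.exp_mul_I, ← Complex.ofReal_cos, ← Complex.ofReal_sin, Real.cos_neg,
      Real.sin_neg]
    unfold Pool.Agent.H306R2.RZ.js
    push_cast
    ring
  rw [h2, h0, h1]
  unfold Pool.Agent.H306R2.RZ.js
  push_cast
  ring

theorem dft_jchar (d : ℕ) [NeZero d] (h3 : d % 4 = 3) (hs : Squarefree d) (k : ZMod d) :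
    ZMod.dft (fun j => jchar d j) k = -Complex.I * Real.sqrt d * jchar d k := by
  rw [ZMod.dft_apply]
  have h1 := gauss_sum d k.val h3 hs
  have h2 : jchar d k = ((jacobiSym (k.val : ℤ) d : ℤ) : ℂ) := rfl
  rw [h2, ← h1]
  apply Finset.sum_nbij' (fun x : ZMod d => x.val) (fun i : ℕ => (i : ZMod d))
  · intro x _
    exact mem_range.2 (ZMod.val_lt x)
  · intro i _
    exact mem_univ _
  · intro x _
    exact ZMod.natCast_zmod_val x
  · intro i hi
    exact ZMod.val_natCast_of_lt (mem_range.1 hi)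
  · intro x _
    have h4 : jchar d x = ((jacobiSym (x.val : ℤ) d : ℤ) : ℂ) := rfl
    rw [h4, smul_eq_mul, mul_comm]
    congr 1
    have h5 : (-(x * k) : ZMod d) = ((-((x.val : ℤ) * (k.val : ℤ)) : ℤ) : ZMod d) := by
      push_cast
      rw [ZMod.natCast_zmod_val, ZMod.natCast_zmod_val]
    rw [h5, ZMod.stdAddChar_coe]
    congr 1
    push_cast
    ring

theorem jchar_odd (d : ℕ) [NeZero d] (h3 : d % 4 = 3) : (jchar d).Odd := by
  unfold DirichletCharacter.Odd
  have h1 : (-1 : ZMod d) = ((d - 1 : ℕ) : ZMod d) := by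
    rw [Nat.cast_sub (by omega), ZMod.natCast_self, Nat.cast_one, zero_sub]
  rw [h1, jchar_apply]
  have h2 : jacobiSym ((d - 1 : ℕ) : ℤ) d = -1 := by
    rw [← jacobi_neg_one d h3, jacobiSym.mod_left, jacobiSym.mod_left (-1)]
    congr 1
    rw [Nat.cast_sub (by omega)]
    push_cast
    rw [show (d : ℤ) - 1 = -1 + (d : ℤ) by ring, Int.add_emod_right]
  rw [h2]
  norm_num

theorem jchar_ne_one (d : ℕ) [NeZero d] (h3 : d % 4 = 3) : jchar d ≠ 1 := by
  intro h
  have h1 := jchar_odd d h3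
  unfold DirichletCharacter.Odd at h1
  rw [h] at h1
  rw [MulChar.one_apply (by simp : IsUnit (-1 : ZMod d))] at h1
  norm_num at h1

theorem jchar_sq (d : ℕ) [NeZero d] : (jchar d) ^ 2 = 1 := by
  rw [← MulChar.isQuadratic_iff_sq_eq_one]
  intro a
  have h4 : jchar d a = ((jacobiSym (a.val : ℤ) d : ℤ) : ℂ) := rfl
  rw [h4]
  rcases jacobiSym.trichotomy (a.val : ℤ) d with h | h | h <;> rw [h] <;> simp

open Complex HurwitzZeta ZMod in
/-- the value of the `L`-function at `1` -/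
theorem L_one (d : ℕ) [NeZero d] (h3 : d % 4 = 3) (hs : Squarefree d) :
    ∑ j : ZMod d, jchar d j * (saw j : ℂ) =
      -((2 * d * Real.sqrt d / Real.pi : ℝ) : ℂ) * (jchar d).LFunction 1 := by
  have hodd := jchar_odd d h3
  have h0 : (fun j : ZMod d => jchar d j) 0 = 0 := by
    have h2 : jchar d (0 : ZMod d) = ((jacobiSym ((0 : ZMod d).val : ℤ) d : ℤ) : ℂ) := rfl
    simp only
    rw [h2, ZMod.val_zero]
    have : jacobiSym ((0 : ℕ) : ℤ) d = 0 := by
      rw [Nat.cast_zero]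
      exact jacobiSym.zero_left (by omega)
    rw [this]
    norm_num
  have hLF := ZMod.LFunction_dft (fun j : ZMod d => jchar d j) (s := 1) (Or.inl h0)
  have hm : (d : ℂ) ≠ 0 := Nat.cast_ne_zero.mpr (NeZero.ne d)
  have hlhs : ZMod.LFunction (ZMod.dft fun j : ZMod d => jchar d j) 1 =
      (-Complex.I * Real.sqrt d) * DirichletCharacter.LFunction (jchar d) 1 := by
    have e1 : (ZMod.dft fun j : ZMod d => jchar d j) =
        fun k => -Complex.I * Real.sqrt d * jchar d k := by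
      funext k
      exact dft_jchar d h3 hs k
    rw [e1]
    unfold DirichletCharacter.LFunction ZMod.LFunction
    simp only [mul_sum]
    refine sum_congr rfl fun j _ => ?_
    ring
  have hrhs : ∑ j : ZMod d, jchar d j * expZeta (toAddCircle (-j)) 1 =
      (-I) * ∑ j : ZMod d, jchar d j * sinZeta (toAddCircle j) 1 := by
    have h1 : ∑ j : ZMod d, jchar d j * expZeta (toAddCircle (-j)) 1 =
        ∑ j : ZMod d, (- jchar d j) * expZeta (toAddCircle j) 1 := by
      rw [← Equiv.sum_comp (Equiv.neg (ZMod d))]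
      refine sum_congr rfl fun j _ => ?_
      simp only [Equiv.neg_apply, neg_neg]
      rw [DirichletCharacter.Odd.eval_neg (ψ := jchar d) j hodd]
    have h2 : 2 * ∑ j : ZMod d, jchar d j * expZeta (toAddCircle (-j)) 1 =
        2 * ((-I) * ∑ j : ZMod d, jchar d j * sinZeta (toAddCircle j) 1) := by
      rw [two_mul]
      nth_rewrite 2 [h1]
      rw [← sum_add_distrib, mul_sum, mul_sum]
      refine sum_congr rfl fun j _ => ?_
      rw [sinZeta_eq, map_neg]
      have hI : (2 : ℂ) * I ≠ 0 := by simp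
      field_simp
      ring
    exact mul_left_cancel₀ two_ne_zero h2
  rw [hlhs, hrhs] at hLF
  have h5 : ∑ j : ZMod d, jchar d j * sinZeta (toAddCircle j) 1 =
      -(Real.pi / (2 * d)) * ∑ j : ZMod d, jchar d j * (saw j : ℂ) := by
    rw [mul_sum]
    refine sum_congr rfl fun j _ => ?_
    rw [sinZeta_toAddCircle]
    ring
  rw [h5] at hLF
  have hpi : (Real.pi : ℂ) ≠ 0 := by exact_mod_cast Real.pi_ne_zero
  have hI : I ≠ 0 := I_ne_zero
  push_cast
  have h6 : (Real.sqrt d : ℂ) * DirichletCharacter.LFunction (jchar d) 1 =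
      -(Real.pi / (2 * d)) * ∑ j : ZMod d, jchar d j * (saw j : ℂ) := by
    have h7 : (-I) * ((Real.sqrt d : ℂ) * DirichletCharacter.LFunction (jchar d) 1) =
      (-I) * (-(Real.pi / (2 * d)) * ∑ j : ZMod d, jchar d j * (saw j : ℂ)) := by
      rw [← hLF]; ring
    exact mul_left_cancel₀ (neg_ne_zero.2 hI) h7
  have h8 : -(2 * (d : ℂ) * Real.sqrt d / Real.pi) * DirichletCharacter.LFunction (jchar d) 1 =
      -(2 * (d : ℂ) / Real.pi) * (Real.sqrt d * DirichletCharacter.LFunction (jchar d) 1) := by ring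
  rw [h8, h6]
  field_simp

/-- the first moment -/
def T (d : ℕ) : ℤ := ∑ r ∈ range d, (r : ℤ) * jacobiSym (r : ℤ) d

theorem sum_jacobi_zero (d : ℕ) (h3 : d % 4 = 3) : ∑ r ∈ range d, jacobiSym (r : ℤ) d = 0 := by
  have : NeZero d := ⟨by omega⟩
  have h1 := MulChar.sum_eq_zero_of_ne_one (jchar_ne_one d h3)
  have h2 : ((∑ r ∈ range d, jacobiSym (r : ℤ) d : ℤ) : ℂ) = ∑ j : ZMod d, jchar d j := by
    push_cast
    symm
    apply Finset.sum_nbij' (fun x : ZMod d => x.val) (fun i : ℕ => (i : ZMod d))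
    · intro x _
      exact mem_range.2 (ZMod.val_lt x)
    · intro i _
      exact mem_univ _
    · intro x _
      exact ZMod.natCast_zmod_val x
    · intro i hi
      exact ZMod.val_natCast_of_lt (mem_range.1 hi)
    · intro x _
      rfl
  rw [h1] at h2
  exact_mod_cast h2

theorem T_nonpos (d : ℕ) (h3 : d % 4 = 3) (hs : Squarefree d) : T d ≤ 0 := by
  have : NeZero d := ⟨by omega⟩
  have h1 := L_one d h3 hs
  have h2 := Pool.Agent.H843R2.KZ.POS_ok d (jchar d) (jchar_sq d) (jchar_ne_one d h3)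
  rw [h2] at h1
  have h4 : ∑ j : ZMod d, jchar d j * (saw j : ℂ) = ((2 * T d : ℤ) : ℂ) := by
    have e1 : ∑ j : ZMod d, jchar d j * (saw j : ℂ) =
        ∑ r ∈ range d, (((2 * (r : ℤ) - d) * jacobiSym (r : ℤ) d : ℤ) : ℂ) := by
      apply Finset.sum_nbij' (fun x : ZMod d => x.val) (fun i : ℕ => (i : ZMod d))
      · intro x _
        exact mem_range.2 (ZMod.val_lt x)
      · intro i _
        exact mem_univ _
      · intro x _
        exact ZMod.natCast_zmod_val x
      · intro i hi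
        exact ZMod.val_natCast_of_lt (mem_range.1 hi)
      · intro x _
        have h4 : jchar d x = ((jacobiSym (x.val : ℤ) d : ℤ) : ℂ) := rfl
        rw [h4]
        unfold saw
        split_ifs with hx
        · rw [hx, ZMod.val_zero]
          have : jacobiSym ((0 : ℕ) : ℤ) d = 0 := by
            rw [Nat.cast_zero]
            exact jacobiSym.zero_left (by omega)
          rw [this]
          simp
        · push_cast
          ring
    rw [e1, ← Int.cast_sum]
    congr 1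
    have e2 : ∀ r ∈ range d, (2 * (r : ℤ) - d) * jacobiSym (r : ℤ) d =
        2 * ((r : ℤ) * jacobiSym (r : ℤ) d) - d * jacobiSym (r : ℤ) d := by
      intro r _
      ring
    rw [Finset.sum_congr rfl e2, Finset.sum_sub_distrib, ← Finset.mul_sum, ← Finset.mul_sum,
      sum_jacobi_zero d h3, mul_zero, sub_zero]
    rfl
  rw [h4] at h1
  have h5 : ((2 * T d : ℤ) : ℝ) = -(2 * d * Real.sqrt d / Real.pi) * ‖(jchar d).LFunction 1‖ := by
    exact_mod_cast h1
  have h6 : ((2 * T d : ℤ) : ℝ) ≤ 0 := by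
    rw [h5, neg_mul]
    have := Real.pi_pos
    have : 0 ≤ (2 * d * Real.sqrt d / Real.pi) * ‖(jchar d).LFunction 1‖ := by positivity
    linarith
  have h7 : (2 * T d : ℤ) ≤ 0 := by exact_mod_cast h6
  omega

theorem split2 (h : ℕ) (f : ℕ → ℤ) : ∑ r ∈ range (2 * h + 1), f r =
    f 0 + ∑ s ∈ range h, (f (2 * (s + 1)) + f (2 * h + 1 - 2 * (s + 1))) := by
  have h1 : ∑ r ∈ range (2 * h + 1), f r = f 0 + ∑ s ∈ range h, (f (2 * (s + 1)) + f (2 * s + 1)) := by
    induction h with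
    | zero => simp
    | succ h ih =>
      rw [show 2 * (h + 1) + 1 = 2 * h + 1 + 1 + 1 by ring, Finset.sum_range_succ,
        Finset.sum_range_succ, ih, Finset.sum_range_succ _ h]
      rw [show 2 * (h + 1) = 2 * h + 1 + 1 by ring]
      ring
  rw [h1, Finset.sum_add_distrib, Finset.sum_add_distrib,
    ← Finset.sum_range_reflect (fun s => f (2 * s + 1)) h]
  congr 2
  apply Finset.sum_congr rfl
  intro s hs
  rw [mem_range] at hs
  congr 1
  omega

theorem split1 (h : ℕ) (f : ℕ → ℤ) : ∑ r ∈ range (2 * h + 1), f r =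
    f 0 + ∑ s ∈ range h, (f (s + 1) + f (2 * h + 1 - (s + 1))) := by
  rw [show 2 * h + 1 = h + h + 1 by ring, Finset.sum_range_succ', Finset.sum_range_add,
    Finset.sum_add_distrib, ← Finset.sum_range_reflect (fun s => f (h + s + 1)) h, add_comm]
  congr 2
  apply Finset.sum_congr rfl
  intro s hs
  rw [mem_range] at hs
  congr 1
  omega

theorem S_range (d h : ℕ) (hd : d = 2 * h + 1) (hd1 : 1 < d) :
    S d = ∑ s ∈ range h, jacobiSym ((s + 1 : ℕ) : ℤ) d := by
  unfold S
  have h1 : (range d).filter (fun m => 2 * m < d) = range (h + 1) := by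
    ext m
    rw [mem_filter, mem_range, mem_range]
    omega
  rw [h1, Finset.sum_range_succ']
  have : jacobiSym ((0 : ℕ) : ℤ) d = 0 := by
    rw [Nat.cast_zero]
    have : NeZero d := ⟨by omega⟩
    exact jacobiSym.zero_left hd1
  rw [this, add_zero]

theorem jacobi_sub (d r : ℕ) (h3 : d % 4 = 3) (hr : r ≤ d) :
    jacobiSym ((d - r : ℕ) : ℤ) d = - jacobiSym (r : ℤ) d := by
  rw [← neg_one_mul, ← jacobi_neg_one d h3, ← jacobiSym.mul_left, Nat.cast_sub hr,
    jacobiSym.mod_left ((d : ℤ) - r), jacobiSym.mod_left (-1 * (r : ℤ))]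
  congr 1
  rw [show (d : ℤ) - r = -1 * r + (d : ℤ) by ring, Int.add_emod_right]

/-- the half sum and the first moment -/
theorem S_T (d : ℕ) (h3 : d % 4 = 3) : (d : ℤ) * S d = (jacobiSym 2 d - 2) * T d := by
  obtain ⟨h, hd⟩ : ∃ h, d = 2 * h + 1 := ⟨d / 2, by omega⟩
  have hS := S_range d h hd (by omega)
  set χ : ℕ → ℤ := fun r => jacobiSym (r : ℤ) d with hχ
  set A : ℤ := ∑ s ∈ range h, ((s + 1 : ℕ) : ℤ) * χ (s + 1) with hA
  have hS' : S d = ∑ s ∈ range h, χ (s + 1) := hS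
  have h1 : T d = 2 * A - d * S d := by
    have e1 : T d = ∑ r ∈ range (2 * h + 1), (r : ℤ) * χ r := by rw [← hd]; rfl
    rw [e1, split1, hS', hA, Finset.mul_sum, Finset.mul_sum, ← Finset.sum_sub_distrib]
    rw [Nat.cast_zero, zero_mul, zero_add]
    apply Finset.sum_congr rfl
    intro s hs
    rw [mem_range] at hs
    have e2 : χ (2 * h + 1 - (s + 1)) = - χ (s + 1) := by
      simp only [hχ]
      rw [← hd]
      exact jacobi_sub d (s + 1) h3 (by omega)
    rw [e2]
    have e3 : ((2 * h + 1 - (s + 1) : ℕ) : ℤ) = (d : ℤ) - ((s + 1 : ℕ) : ℤ) := by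
      rw [Nat.cast_sub (by omega), hd]
    rw [e3]
    ring
  have h2 : T d = jacobiSym 2 d * (4 * A - d * S d) := by
    have e1 : T d = ∑ r ∈ range (2 * h + 1), (r : ℤ) * χ r := by rw [← hd]; rfl
    rw [e1, split2, hS', hA, Finset.mul_sum, Finset.mul_sum, ← Finset.sum_sub_distrib,
      Finset.mul_sum]
    rw [Nat.cast_zero, zero_mul, zero_add]
    apply Finset.sum_congr rfl
    intro s hs
    rw [mem_range] at hs
    have e2 : χ (2 * h + 1 - 2 * (s + 1)) = - (jacobiSym 2 d * χ (s + 1)) := by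
      simp only [hχ]
      rw [← hd, jacobi_sub d (2 * (s + 1)) h3 (by omega), Nat.cast_mul, jacobiSym.mul_left]
      rfl
    have e4 : χ (2 * (s + 1)) = jacobiSym 2 d * χ (s + 1) := by
      simp only [hχ]
      rw [Nat.cast_mul, jacobiSym.mul_left]
      rfl
    rw [e2, e4]
    have e3 : ((2 * h + 1 - 2 * (s + 1) : ℕ) : ℤ) = (d : ℤ) - 2 * ((s + 1 : ℕ) : ℤ) := by
      rw [Nat.cast_sub (by omega), hd]
      push_cast
      ring
    rw [e3]
    push_cast
    ring
  have h4 : jacobiSym 2 d ^ 2 = 1 := by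
    apply jacobiSym.sq_one
    have : Int.gcd 2 (d : ℤ) = Nat.gcd 2 d := by
      exact Int.gcd_natCast_natCast 2 d
    rw [this, hd]
    simp
  have h5 : jacobiSym 2 d * T d = 4 * A - d * S d := by
    rw [h2, ← mul_assoc, ← sq, h4, one_mul]
  linear_combination (-1) * h5 + 2 * h1

theorem S_nonneg_sqfree (d : ℕ) (h3 : d % 4 = 3) (hs : Squarefree d) : 0 ≤ S d := by
  have h1 := S_T d h3
  have h2 := T_nonpos d h3 hs
  have h4 : jacobiSym 2 d ≤ 1 := by
    rcases jacobiSym.trichotomy 2 d with h | h | h <;> rw [h] <;> norm_num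
  have h5 : 0 ≤ (d : ℤ) * S d := by
    rw [h1]
    exact mul_nonneg_of_nonpos_of_nonpos (by omega) h2
  have h6 : (0 : ℤ) < d := by
    have : 0 < d := by omega
    exact_mod_cast this
  exact nonneg_of_mul_nonneg_right h5 h6

end Pool.Agent.R343.CFP
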