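import Pool.Agent.R343.HalfSum

set_option autoImplicit false

/-!
# Reduction of the half sum to the squarefree part
-/

namespace Pool.Agent.R343.CFP

open Finset

/-- the half sum over the integers without prime factor in `Q` -/
def F (Q : Finset ℕ) (k d : ℕ) : ℤ :=
  ∑ m ∈ (range (k * d)).filter (fun m => 2 * m < k * d ∧ ∀ q ∈ Q, ¬ q ∣ m), jacobiSym (m : ℤ) d

theorem jacobi_add_self (d m : ℕ) : jacobiSym ((d + m : ℕ) : ℤ) d = jacobiSym (m : ℤ) d := by
  rw [jacobiSym.mod_left, jacobiSym.mod_left (m : ℤ)]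
  congr 1
  push_cast
  rw [add_comm, Int.add_emod_right]

theorem sum_shift (d n t : ℕ) (h3 : d % 4 = 3) :
    ∑ m ∈ range (t * d + n), jacobiSym (m : ℤ) d = ∑ m ∈ range n, jacobiSym (m : ℤ) d := by
  induction t with
  | zero => simp
  | succ t ih =>
    rw [show (t + 1) * d + n = d + (t * d + n) by ring, Finset.sum_range_add,
      sum_jacobi_zero d h3, zero_add, ← ih]
    apply Finset.sum_congr rfl
    intro m _
    exact jacobi_add_self d m

theorem F_empty (k d : ℕ) (hk : Odd k) (h3 : d % 4 = 3) : F ∅ k d = S d := by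
  obtain ⟨h, hd⟩ : ∃ h, d = 2 * h + 1 := ⟨d / 2, by omega⟩
  obtain ⟨t, ht⟩ := hk
  have h1 : (range (k * d)).filter (fun m => 2 * m < k * d ∧ ∀ q ∈ (∅ : Finset ℕ), ¬ q ∣ m) =
      range (t * d + (h + 1)) := by
    ext m
    rw [mem_filter, mem_range, mem_range]
    have h2 : k * d = 2 * (t * d) + d := by rw [ht]; ring
    constructor
    · rintro ⟨h3, h4, _⟩
      omega
    · intro h5
      refine ⟨by omega, by omega, by simp⟩
  unfold F
  rw [h1, sum_shift d (h + 1) t h3, S]
  congr 1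
  ext m
  rw [mem_filter, mem_range, mem_range]
  omega

theorem F_insert (Q : Finset ℕ) (q k d : ℕ) (hq : q.Prime) (hQ : ∀ r ∈ Q, Nat.Prime r)
    (hqQ : q ∉ Q) (hd : 0 < d) :
    F (insert q Q) (q * k) d = F Q (q * k) d - jacobiSym (q : ℤ) d * F Q k d := by
  have h1 : F Q (q * k) d = F (insert q Q) (q * k) d +
      ∑ m ∈ (range (q * k * d)).filter (fun m => (2 * m < q * k * d ∧ ∀ q ∈ Q, ¬ q ∣ m) ∧ q ∣ m),
        jacobiSym (m : ℤ) d := by
    unfold F
    rw [← Finset.sum_filter_add_sum_filter_not ((range (q * k * d)).filter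
      (fun m => 2 * m < q * k * d ∧ ∀ q ∈ Q, ¬ q ∣ m)) (fun m => ¬ q ∣ m)]
    congr 1
    · rw [Finset.filter_filter]
      congr 1
      ext m
      rw [mem_filter, mem_filter]
      constructor
      · rintro ⟨h1, ⟨h2, h3⟩, h4⟩
        refine ⟨h1, h2, ?_⟩
        intro r hr
        rcases mem_insert.1 hr with h5 | h5
        · rw [h5]; exact h4
        · exact h3 r h5
      · rintro ⟨h1, h2, h3⟩
        exact ⟨h1, ⟨h2, fun r hr => h3 r (mem_insert_of_mem hr)⟩, h3 q (mem_insert_self _ _)⟩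
    · rw [Finset.filter_filter]
      congr 1
      ext m
      rw [mem_filter, mem_filter, not_not]
  have h2 : ∑ m ∈ (range (q * k * d)).filter
      (fun m => (2 * m < q * k * d ∧ ∀ q ∈ Q, ¬ q ∣ m) ∧ q ∣ m), jacobiSym (m : ℤ) d =
      jacobiSym (q : ℤ) d * F Q k d := by
    unfold F
    rw [Finset.mul_sum]
    symm
    apply Finset.sum_nbij' (fun m => q * m) (fun m => m / q)
    · intro m hm
      rw [mem_filter, mem_range] at *
      obtain ⟨h3, h4, h5⟩ := hm
      refine ⟨?_, ⟨?_, ?_⟩, dvd_mul_right _ _⟩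
      · rw [mul_assoc]; exact Nat.mul_lt_mul_of_pos_left h3 hq.pos
      · calc 2 * (q * m) = q * (2 * m) := by ring
          _ < q * (k * d) := Nat.mul_lt_mul_of_pos_left h4 hq.pos
          _ = q * k * d := by ring
      · intro r hr hdvd
        rcases (hQ r hr).dvd_mul.1 hdvd with h6 | h6
        · have := (Nat.prime_dvd_prime_iff_eq (hQ r hr) hq).1 h6
          rw [this] at hr
          exact hqQ hr
        · exact h5 r hr h6
    · intro m hm
      rw [mem_filter, mem_range] at *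
      obtain ⟨h3, ⟨h4, h5⟩, h6⟩ := hm
      obtain ⟨m', rfl⟩ := h6
      rw [Nat.mul_div_cancel_left _ hq.pos]
      refine ⟨?_, ?_, ?_⟩
      · rw [mul_assoc] at h3
        exact Nat.lt_of_mul_lt_mul_left h3
      · have : q * (2 * m') < q * (k * d) := by
          calc q * (2 * m') = 2 * (q * m') := by ring
            _ < q * k * d := h4
            _ = q * (k * d) := by ring
        exact Nat.lt_of_mul_lt_mul_left this
      · intro r hr hdvd
        exact h5 r hr (dvd_mul_of_dvd_right hdvd _)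
    · intro m _
      exact Nat.mul_div_cancel_left _ hq.pos
    · intro m hm
      rw [mem_filter] at hm
      exact Nat.mul_div_cancel' hm.2.2
    · intro m _
      rw [Nat.cast_mul, jacobiSym.mul_left]
  rw [h1, h2]
  ring

theorem F_eq (Q : Finset ℕ) (d : ℕ) (h3 : d % 4 = 3) (hQ : ∀ r ∈ Q, Nat.Prime r) :
    ∀ k : ℕ, Odd k → (∏ r ∈ Q, r) ∣ k → F Q k d = S d * ∏ r ∈ Q, (1 - jacobiSym (r : ℤ) d) := by
  induction Q using Finset.induction_on with
  | empty =>
    intro k hk _
    rw [F_empty k d hk h3]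
    simp
  | insert q Q hqQ ih =>
    intro k hk hdvd
    rw [Finset.prod_insert hqQ] at hdvd
    obtain ⟨k', rfl⟩ : q ∣ k := dvd_trans (dvd_mul_right _ _) hdvd
    have hq : q.Prime := hQ q (mem_insert_self _ _)
    have hQ' : ∀ r ∈ Q, Nat.Prime r := fun r hr => hQ r (mem_insert_of_mem hr)
    have h1 : (∏ r ∈ Q, r) ∣ k' := Nat.dvd_of_mul_dvd_mul_left hq.pos hdvd
    have h2 : Odd k' := Nat.Odd.of_mul_right hk
    rw [F_insert Q q k' d hq hQ' hqQ (by omega), ih hQ' (q * k') hk (h1.mul_left _),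
      ih hQ' k' h2 h1, Finset.prod_insert hqQ]
    ring

theorem jacobi_sq_mul (m b a : ℕ) (hb : 0 < b) (ha : 0 < a) : jacobiSym (m : ℤ) (b ^ 2 * a) =
    if (∀ q ∈ b.primeFactors, ¬ q ∣ m) then jacobiSym (m : ℤ) a else 0 := by
  have : NeZero (b ^ 2) := ⟨by positivity⟩
  have : NeZero a := ⟨by omega⟩
  rw [jacobiSym.mul_right, jacobiSym.pow_right]
  split_ifs with h
  · rw [jacobiSym.sq_one, one_mul]
    rw [Int.gcd_natCast_natCast]
    apply Nat.coprime_of_dvd
    intro q hq h1 h2
    exact h q (Nat.mem_primeFactors.2 ⟨hq, h2, by omega⟩) h1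
  · push Not at h
    obtain ⟨q, hq, hqm⟩ := h
    have hb' : NeZero b := ⟨by omega⟩
    rw [jacobiSym.eq_zero_iff_not_coprime.2]
    · simp
    · rw [Int.gcd_natCast_natCast]
      intro hc
      have h1 := Nat.mem_primeFactors.1 hq
      have h2 := Nat.dvd_gcd hqm h1.2.1
      have hc' : Nat.gcd m b = 1 := hc
      rw [hc'] at h2
      exact h1.1.one_lt.ne' (Nat.dvd_one.1 h2)

/-- **Dirichlet.** The half sum is nonnegative. -/
theorem S_nonneg (p : ℕ) (h3 : p % 4 = 3) : 0 ≤ S p := by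
  obtain ⟨a, b, hab, hs⟩ := Nat.sq_mul_squarefree p
  have hp : 0 < p := by omega
  have hb : 0 < b := by
    rcases Nat.eq_zero_or_pos b with h | h
    · rw [h] at hab; simp at hab; omega
    · exact h
  have ha : 0 < a := by
    rcases Nat.eq_zero_or_pos a with h | h
    · rw [h] at hab; simp at hab; omega
    · exact h
  have hpodd : Odd p := by rw [Nat.odd_iff]; omega
  have hbodd : Odd (b ^ 2) := by
    rw [← hab] at hpodd
    exact Nat.Odd.of_mul_left hpodd
  have hb1 : b ^ 2 % 4 = 1 := by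
    have hb' : Odd b := by
      by_contra hcon
      rw [Nat.not_odd_iff_even] at hcon
      have h5 : Even (b ^ 2) := by
        rw [sq]
        exact hcon.mul_right b
      exact (Nat.not_even_iff_odd.2 hbodd) h5
    obtain ⟨c, hc⟩ := hb'
    rw [hc]
    ring_nf
    omega
  have ha3 : a % 4 = 3 := by
    rw [← hab, Nat.mul_mod, hb1] at h3
    omega
  have h1 : S p = F b.primeFactors (b ^ 2) a := by
    unfold S F
    rw [← hab, ← Finset.filter_filter, Finset.sum_filter (fun m => ∀ q ∈ b.primeFactors, ¬ q ∣ m)]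
    apply Finset.sum_congr rfl
    intro m _
    rw [jacobi_sq_mul m b a hb ha]
  rw [h1, F_eq b.primeFactors a ha3 (fun r hr => Nat.prime_of_mem_primeFactors hr) (b ^ 2) hbodd
    ((Nat.prod_primeFactors_dvd b).trans (Dvd.intro_left (b ^ (2 - 1)) (by rw [sq]; simp)))]
  apply mul_nonneg (S_nonneg_sqfree a ha3 hs)
  apply Finset.prod_nonneg
  intro r _
  rcases jacobiSym.trichotomy (r : ℤ) a with h | h | h <;> rw [h] <;> norm_num

end Pool.Agent.R343.CFP
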