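import Pool.Agent.R343.LP1
import Pool.Agent.Y731.FG.Fin1

set_option autoImplicit false
set_option linter.unusedSectionVars false
set_option linter.unusedVariables false

/-! # Values of compressible polynomials over function fields -/

namespace Pool.Agent.R343.FF

open Finset Pool.Agent.R343.LP _root_.FF

/-- the value at `τ` of the polynomial with the coefficient word `a` of length `N` -/
def val {k L : Type} [Field k] [Field L] [Algebra k L] (a : ℕ → k) (N : ℕ) (τ : L) : L :=
  ∑ j ∈ range N, algebraMap k L (a j) * τ ^ (N - 1 - j)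

section

variable {k L : Type} [Field k] [Field L] [Algebra k L]

/-- a root of unity is a constant -/
theorem root_const [IsAlgClosed k] {τ : L} {p : ℕ} (hp : 0 < p) (h : τ ^ p = 1) :
    τ ∈ Set.range (algebraMap k L) := by
  have h1 : IsIntegral k τ := by
    refine IsIntegral.of_pow hp ?_
    rw [h]
    exact isIntegral_one
  have hm := minpoly.monic h1
  have hi := minpoly.irreducible h1
  have h2 : (minpoly k τ).degree = 1 := IsAlgClosed.degree_eq_one_of_irreducible k hi
  refine ⟨-(minpoly k τ).coeff 0, ?_⟩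
  have h3 : Polynomial.aeval τ (minpoly k τ) = 0 := minpoly.aeval k τ
  have hq : (minpoly k τ).leadingCoeff = 1 := hm
  rw [Polynomial.eq_X_add_C_of_degree_eq_one h2, hq, Polynomial.C_1, one_mul, map_add,
    Polynomial.aeval_X, Polynomial.aeval_C, add_eq_zero_iff_eq_neg] at h3
  rw [map_neg]
  exact h3.symm

/-- one word -/
theorem one_word [IsAlgClosed k] (a : ℕ → k) (N z : ℕ) (hLZ : LZ a N z) (τ : L) :
    ∃ D : L, D ≠ 0 ∧ SP τ (Set.range (algebraMap k L)) (2 ^ z) D ∧
      SP τ (Set.range (algebraMap k L)) (6 ^ z) (D * val a N τ) := by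
  have hA0 : (0 : L) ∈ Set.range (algebraMap k L) := ⟨0, map_zero _⟩
  have hA1 : (1 : L) ∈ Set.range (algebraMap k L) := ⟨1, map_one _⟩
  have hA : ∀ w ∈ Set.range (algebraMap k L), -w ∈ Set.range (algebraMap k L) := by
    rintro w ⟨c, rfl⟩
    exact ⟨-c, map_neg _ _⟩
  by_cases ht : ∀ p, 0 < p → τ ^ p ≠ 1
  · obtain ⟨c, hc0, hcz, hph⟩ := hLZ
    have hmono : ∀ i ≤ z, ∀ j ≤ i, c j ≤ c i := by
      intro i hi
      induction i with
      | zero =>
        intro j hj
        rw [Nat.le_zero.1 hj]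
      | succ i ih =>
        intro j hj
        have h1 : c i ≤ c (i + 1) := by
          rcases hph i (by omega) with h | h
          · omega
          · exact h.1
        rcases Nat.lt_or_ge i j with h2 | h2
        · rw [show j = i + 1 by omega]
        · exact (ih (by omega) j h2).trans h1
    obtain ⟨D, hD, hw, hm⟩ := lz_sparse τ (fun j => algebraMap k L (a j))
      (Set.range (algebraMap k L)) hA0 hA ht c hc0 z N (fun j _ => ⟨a j, rfl⟩)
      (fun i hi => hcz ▸ hmono z le_rfl i hi)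
      (fun i hi => by
        rcases hph i hi with h | ⟨h1, p, h2, h3, h4⟩
        · exact Or.inl h
        · exact Or.inr ⟨h1, p, h2, h3, fun j h5 h6 => by
            show algebraMap k L (a j) = algebraMap k L (a (j - p))
            rw [h4 j h5 h6]⟩) z le_rfl
    refine ⟨D, hD, ?_, ?_⟩
    · have h1 := hw 1 hA1
      rwa [smul_eq_mul, mul_one] at h1
    · have h1 := hm N (by rw [hcz])
      rw [P_eq, smul_eq_mul] at h1
      have h2 : val a N τ = ∑ j ∈ range N, τ ^ (N - 1 - j) • algebraMap k L (a j) := by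
        unfold val
        exact Finset.sum_congr rfl fun j _ => by rw [smul_eq_mul, mul_comm]
      rwa [h2]
  · push Not at ht
    obtain ⟨p, hp, h⟩ := ht
    obtain ⟨c, hc⟩ := root_const (k := k) hp h
    refine ⟨1, one_ne_zero, (SP.of_mem hA1).mono hA0 (Nat.one_le_two_pow), ?_⟩
    rw [one_mul]
    have h1 : val a N τ ∈ Set.range (algebraMap k L) := by
      refine ⟨∑ j ∈ range N, a j * c ^ (N - 1 - j), ?_⟩
      unfold val
      rw [map_sum]
      exact Finset.sum_congr rfl fun j _ => by rw [map_mul, map_pow, hc]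
    exact (SP.of_mem h1).mono hA0 (Nat.one_le_pow _ _ (by norm_num))

/-- `y` is a sum of `m` elements of `A` -/
def Sm (A : Set L) (m : ℕ) (y : L) : Prop := ∃ t : Fin m → L, (∀ j, t j ∈ A) ∧ y = ∑ j, t j

theorem Sm.mono {A : Set L} (h0 : (0 : L) ∈ A) {m m' : ℕ} {y : L} (h : Sm A m y) (hm : m ≤ m') :
    Sm A m' y := by
  obtain ⟨s, rfl⟩ := Nat.exists_eq_add_of_le hm
  obtain ⟨t, ht, rfl⟩ := h
  refine ⟨Fin.append t fun _ => 0, fun j => ?_, ?_⟩
  · refine Fin.addCases (fun i => ?_) (fun i => ?_) j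
    · rw [Fin.append_left]; exact ht i
    · rw [Fin.append_right]; exact h0
  · rw [Fin.sum_univ_add]
    simp

theorem Sm.mul {A : Set L} (hA : ∀ x ∈ A, ∀ y ∈ A, x * y ∈ A) {m m' : ℕ} {y y' : L}
    (h : Sm A m y) (h' : Sm A m' y') : Sm A (m * m') (y * y') := by
  obtain ⟨t, ht, rfl⟩ := h
  obtain ⟨t', ht', rfl⟩ := h'
  refine ⟨fun i => t (finProdFinEquiv.symm i).1 * t' (finProdFinEquiv.symm i).2,
    fun i => hA _ (ht _) _ (ht' _), ?_⟩
  rw [Finset.sum_mul_sum, ← Fintype.sum_prod_type',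
    ← Equiv.sum_comp finProdFinEquiv.symm (fun q : Fin m × Fin m' => t q.1 * t' q.2)]

theorem Sm.prod {A : Set L} (h1 : (1 : L) ∈ A) (hA : ∀ x ∈ A, ∀ y ∈ A, x * y ∈ A)
    {ι : Type} (s : Finset ι) (m : ℕ) (y : ι → L) (h : ∀ i ∈ s, Sm A m (y i)) :
    Sm A (m ^ s.card) (∏ i ∈ s, y i) := by
  classical
  induction s using Finset.induction_on with
  | empty =>
    rw [Finset.card_empty, pow_zero, Finset.prod_empty]
    exact ⟨fun _ => 1, fun _ => h1, by simp⟩
  | insert a s ha ih =>
    rw [Finset.card_insert_of_notMem ha, pow_succ', Finset.prod_insert ha]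
    exact (h a (Finset.mem_insert_self a s)).mul hA
      (ih fun i hi => h i (Finset.mem_insert_of_mem hi))

end

section places

variable {k L : Type} [Field k] [Field L] [Algebra k L]

/-- zero and the elements which are units at all places at which all `τ i` are units -/
def Un {ι : Type} (τ : ι → L) : Set L :=
  {g | g = 0 ∨ ∀ P : Place k L, (∀ i, P.ord (τ i) = 0) → P.ord g = 0}

theorem Un.zero {ι : Type} (τ : ι → L) : (0 : L) ∈ Un (k := k) τ := Or.inl rfl

theorem Un.one {ι : Type} (τ : ι → L) : (1 : L) ∈ Un (k := k) τ :=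
  Or.inr fun P _ => P.ord_one

theorem Un.mul {ι : Type} (τ : ι → L) : ∀ x ∈ Un (k := k) τ, ∀ y ∈ Un (k := k) τ,
    x * y ∈ Un (k := k) τ := by
  intro x hx y hy
  by_cases hx0 : x = 0
  · left; rw [hx0, zero_mul]
  by_cases hy0 : y = 0
  · left; rw [hy0, mul_zero]
  right
  intro P hP
  rw [P.ord_mul hx0 hy0, (hx.resolve_left hx0) P hP, (hy.resolve_left hy0) P hP, add_zero]

theorem sm_of_sp {ι : Type} (τ : ι → L) (i : ι) {m : ℕ} {y : L}
    (h : SP (τ i) (Set.range (algebraMap k L)) m y) : Sm (Un (k := k) τ) m y := by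
  obtain ⟨l, v, hv, rfl⟩ := h
  refine ⟨fun j => τ i ^ l j • v j, fun j => ?_, rfl⟩
  obtain ⟨c, hc⟩ := hv j
  show τ i ^ l j • v j ∈ _
  rw [smul_eq_mul]
  refine Un.mul τ _ ?_ _ ?_
  · right
    intro P hP
    rw [P.ord_pow, hP i, mul_zero]
  · by_cases h0 : c = 0
    · left
      rw [← hc, h0, map_zero]
    · right
      intro P _
      rw [← hc, P.ord_const h0]

/-- **Common denominator.** -/
theorem common [IsAlgClosed k] {ι : Type} [Fintype ι] (a : ι → ℕ → k) (N : ι → ℕ) (z : ℕ)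
    (hLZ : ∀ i, LZ (a i) (N i) z) (τ : ι → L) :
    ∃ D : L, D ≠ 0 ∧ ∀ i, Sm (Un (k := k) τ) ((6 ^ z) ^ Fintype.card ι)
      (D * val (a i) (N i) (τ i)) := by
  classical
  choose D hD h1 h2 using fun i => one_word (a i) (N i) z (hLZ i) (τ i)
  refine ⟨∏ i, D i, Finset.prod_ne_zero_iff.2 fun i _ => hD i, fun i => ?_⟩
  have h3 : (∏ j, D j) * val (a i) (N i) (τ i) =
      ∏ j, if j = i then D j * val (a i) (N i) (τ i) else D j := by
    rw [← Finset.mul_prod_erase _ _ (Finset.mem_univ i),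
      ← Finset.mul_prod_erase _ (fun j => if j = i then D j * val (a i) (N i) (τ i) else D j)
        (Finset.mem_univ i), if_pos rfl]
    have h4 : ∏ j ∈ univ.erase i, (if j = i then D j * val (a i) (N i) (τ i) else D j) =
        ∏ j ∈ univ.erase i, D j := by
      refine Finset.prod_congr rfl fun j hj => ?_
      rw [if_neg (Finset.ne_of_mem_erase hj)]
    rw [h4]
    ring
  rw [h3, ← Finset.card_univ]
  refine Sm.prod (Un.one τ) (Un.mul τ) _ _ _ fun j _ => ?_
  split_ifs with hj
  · subst hj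
    exact sm_of_sp τ j (h2 j)
  · exact (sm_of_sp τ j (h1 j)).mono (Un.zero τ) (Nat.pow_le_pow_left (by norm_num) z)

/-- **Sums of products of units and values of compressible polynomials.** -/
theorem terms [IsAlgClosed k] {n r : ℕ} (z : ℕ) (x : Fin n → L) (u : Fin n → Fin r → L)
    (τ : Fin n → Fin r → L) (a : Fin n → Fin r → ℕ → k) (N : Fin n → Fin r → ℕ)
    (hLZ : ∀ c j, LZ (a c j) (N c j) z)
    (hx : ∀ c, x c = ∑ j, u c j * val (a c j) (N c j) (τ c j)) :
    ∃ (D : L) (t : Fin n → Fin (r * (6 ^ z) ^ (n * r)) → L), D ≠ 0 ∧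
      (∀ c, D * x c = ∑ i, t c i) ∧
      ∀ (P : Place k L), (∀ c j, P.ord (τ c j) = 0) → ∀ c i, t c i ≠ 0 →
        ∃ j, u c j ≠ 0 ∧ P.ord (t c i) = P.ord (u c j) := by
  classical
  obtain ⟨D, hD, h1⟩ := common (ι := Fin n × Fin r) (fun i => a i.1 i.2) (fun i => N i.1 i.2) z
    (fun i => hLZ i.1 i.2) (fun i => τ i.1 i.2)
  rw [Fintype.card_prod, Fintype.card_fin, Fintype.card_fin] at h1
  choose g hg1 hg2 using h1
  refine ⟨D, fun c i => u c (finProdFinEquiv.symm i).1 *
    g (c, (finProdFinEquiv.symm i).1) (finProdFinEquiv.symm i).2, hD, fun c => ?_, ?_⟩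
  · rw [hx, Finset.mul_sum,
      Equiv.sum_comp finProdFinEquiv.symm (fun q : Fin r × Fin ((6 ^ z) ^ (n * r)) =>
        u c q.1 * g (c, q.1) q.2), Fintype.sum_prod_type]
    refine Finset.sum_congr rfl fun j _ => ?_
    have h2 : D * val (a c j) (N c j) (τ c j) = ∑ i, g (c, j) i := hg2 (c, j)
    show D * (u c j * val (a c j) (N c j) (τ c j)) = ∑ i, u c j * g (c, j) i
    rw [← Finset.mul_sum, ← h2]
    ring
  · intro P hP c i h0
    have hu := left_ne_zero_of_mul h0
    have hg := right_ne_zero_of_mul h0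
    refine ⟨_, hu, ?_⟩
    rw [P.ord_mul hu hg, ((hg1 _ _).resolve_left hg) P (fun i => hP i.1 i.2), add_zero]

end places

end Pool.Agent.R343.FF
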