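import Pool.Agent.R343.LP1

set_option autoImplicit false
set_option linter.unusedSectionVars false
set_option linter.unusedVariables false

/-! # Expansions of numbers with a simultaneous approximation measure are not compressible -/

namespace Pool.Agent.R343.LD

open Finset Pool.Agent.R343.LP

/-- `y` is the value of the expansion `a_0, a_1, …` in base `b` -/
def Exp (b : ℕ) (a : ℕ → ℤ) (y : ℝ) : Prop :=
  HasSum (fun i : ℕ => (a i : ℝ) / (b : ℝ) ^ (i + 1)) y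

/-- integral prefixes -/
def pre (b : ℕ) (a : ℕ → ℤ) : ℕ → ℤ
  | 0 => 0
  | k + 1 => b * pre b a k + a k

theorem tail {b : ℕ} (hb : 2 ≤ b) {a : ℕ → ℤ} {y : ℝ} (hy : Exp b a y) (k : ℕ) :
    HasSum (fun i : ℕ => (a (i + k) : ℝ) / (b : ℝ) ^ (i + 1)) ((b : ℝ) ^ k * y - pre b a k) := by
  have hb0 : (b : ℝ) ≠ 0 := by
    have : (0 : ℝ) < b := by exact_mod_cast (by omega : 0 < b)
    exact this.ne'
  induction k with
  | zero =>
    simp only [add_zero, pow_zero, one_mul, pre, Int.cast_zero, sub_zero]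
    exact hy
  | succ k ih =>
    have h1 := (hasSum_nat_add_iff' (f := fun i : ℕ => (a (i + k) : ℝ) / (b : ℝ) ^ (i + 1)) 1).2 ih
    have h2 := h1.mul_left (b : ℝ)
    have e1 : (fun i : ℕ => (b : ℝ) * ((a (i + 1 + k) : ℝ) / (b : ℝ) ^ (i + 1 + 1))) =
        fun i : ℕ => (a (i + (k + 1)) : ℝ) / (b : ℝ) ^ (i + 1) := by
      funext i
      rw [show i + 1 + k = i + (k + 1) by omega, pow_succ' (b : ℝ) (i + 1)]
      field_simp
    have e2 : (b : ℝ) * ((b : ℝ) ^ k * y - pre b a k -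
        ∑ i ∈ range 1, (a (i + k) : ℝ) / (b : ℝ) ^ (i + 1)) =
        (b : ℝ) ^ (k + 1) * y - pre b a (k + 1) := by
      rw [Finset.sum_range_one, zero_add, zero_add, pow_one, pre]
      push_cast
      field_simp
      ring
    rw [e1, e2] at h2
    exact h2

theorem geom {b : ℕ} (hb : 2 ≤ b) (M : ℝ) (d : ℕ) : ∃ s : ℝ,
    HasSum (fun i : ℕ => M / (b : ℝ) ^ (i + d + 1)) s ∧ (0 ≤ M → s ≤ M / (b : ℝ) ^ d) := by
  have hb2 : (2 : ℝ) ≤ b := by exact_mod_cast hb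
  have hb0 : (0 : ℝ) < b := by linarith
  have hr : (b : ℝ)⁻¹ < 1 := inv_lt_one_of_one_lt₀ (by linarith)
  have h1 := (hasSum_geometric_of_lt_one (inv_pos.2 hb0).le hr).mul_left (M / (b : ℝ) ^ (d + 1))
  refine ⟨M / (b : ℝ) ^ (d + 1) * (1 - (b : ℝ)⁻¹)⁻¹, ?_, ?_⟩
  · have e1 : (fun i : ℕ => M / (b : ℝ) ^ (i + d + 1)) =
        fun i : ℕ => M / (b : ℝ) ^ (d + 1) * ((b : ℝ)⁻¹) ^ i := by
      funext i
      rw [show i + d + 1 = (d + 1) + i by omega, pow_add, inv_pow]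
      field_simp
    rw [e1]
    exact h1
  · intro hM
    have h2 : (1 - (b : ℝ)⁻¹)⁻¹ ≤ b := by
      rw [inv_le_comm₀ (by linarith) hb0]
      have h3 : (b : ℝ)⁻¹ ≤ 2⁻¹ := inv_anti₀ (by norm_num) hb2
      linarith
    calc M / (b : ℝ) ^ (d + 1) * (1 - (b : ℝ)⁻¹)⁻¹ ≤ M / (b : ℝ) ^ (d + 1) * b :=
          mul_le_mul_of_nonneg_left h2 (by positivity)
      _ = M / (b : ℝ) ^ d := by
        rw [pow_succ]
        field_simp

/-- **The approximation which belongs to a copied phrase.** -/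
theorem approx {b h : ℕ} (hb : 2 ≤ b) {a : ℕ → ℤ} (ha : ∀ i, |a i| ≤ ((b ^ h : ℕ) : ℤ)) {y : ℝ}
    (hy : Exp b a y) {n m p : ℕ} (hp0 : 0 < p) (hpn : p ≤ n) (hnm : n ≤ m)
    (hcopy : ∀ j, n ≤ j → j < m → a j = a (j - p)) :
    ∃ P : ℤ, |((b ^ (n - p) * (b ^ p - 1) : ℕ) : ℝ) * y - P| ≤
      2 * (b : ℝ) ^ h / (b : ℝ) ^ (m - n) := by
  have hb0 : (0 : ℝ) < b := by exact_mod_cast (by omega : 0 < b)
  refine ⟨pre b a n - pre b a (n - p), ?_⟩
  have h1 := (tail hb hy n).sub (tail hb hy (n - p))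
  have h2 := (hasSum_nat_add_iff' (f := fun i : ℕ => (a (i + n) : ℝ) / (b : ℝ) ^ (i + 1) -
    (a (i + (n - p)) : ℝ) / (b : ℝ) ^ (i + 1)) (m - n)).2 h1
  have h0 : ∑ i ∈ range (m - n), ((a (i + n) : ℝ) / (b : ℝ) ^ (i + 1) -
      (a (i + (n - p)) : ℝ) / (b : ℝ) ^ (i + 1)) = 0 := by
    refine Finset.sum_eq_zero fun i hi => ?_
    rw [Finset.mem_range] at hi
    rw [hcopy (i + n) (by omega) (by omega), show i + n - p = i + (n - p) by omega, sub_self]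
  rw [h0, sub_zero] at h2
  obtain ⟨s, hs1, hs2⟩ := geom hb (2 * (b : ℝ) ^ h) (m - n)
  have hbd : ∀ i : ℕ, |(a i : ℝ)| ≤ (b : ℝ) ^ h := by
    intro i
    have h3 := ha i
    have h4 : ((|a i| : ℤ) : ℝ) ≤ (((b ^ h : ℕ) : ℤ) : ℝ) := by exact_mod_cast h3
    rw [Int.cast_abs] at h4
    push_cast at h4
    exact h4
  have h3 : |(b : ℝ) ^ n * y - pre b a n - ((b : ℝ) ^ (n - p) * y - pre b a (n - p))| ≤ s := by
    rw [← h2.tsum_eq, ← Real.norm_eq_abs]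
    refine tsum_of_norm_bounded hs1 fun i => ?_
    rw [Real.norm_eq_abs, ← sub_div, abs_div, abs_of_pos (by positivity : (0 : ℝ) <
      (b : ℝ) ^ (i + (m - n) + 1))]
    refine div_le_div_of_nonneg_right ?_ (by positivity)
    refine (abs_sub _ _).trans ?_
    have h4 := hbd (i + (m - n) + n)
    have h5 := hbd (i + (m - n) + (n - p))
    linarith
  have h4 : ((b ^ (n - p) * (b ^ p - 1) : ℕ) : ℝ) * y - ((pre b a n - pre b a (n - p) : ℤ) : ℝ) =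
      (b : ℝ) ^ n * y - pre b a n - ((b : ℝ) ^ (n - p) * y - pre b a (n - p)) := by
    have h5 : 1 ≤ b ^ p := Nat.one_le_pow _ _ (by omega)
    have h6 : (b : ℝ) ^ n = (b : ℝ) ^ (n - p) * (b : ℝ) ^ p := by
      rw [← pow_add, Nat.sub_add_cancel hpn]
    push_cast [Nat.cast_sub h5]
    rw [h6]
    ring
  rw [h4]
  exact h3.trans (hs2 (by positivity))

/-- the size of the denominator -/
theorem den_size {b n p : ℕ} (hb : 2 ≤ b) (hp0 : 0 < p) (hpn : p ≤ n) :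
    b ^ (n - p) * (b ^ p - 1) ≤ b ^ n ∧ b ^ (n - 1) ≤ b ^ (n - p) * (b ^ p - 1) := by
  have h1 : b ^ n = b ^ (n - p) * b ^ p := by rw [← pow_add, Nat.sub_add_cancel hpn]
  have h2 : b ^ (n - 1) = b ^ (n - p) * b ^ (p - 1) := by
    rw [← pow_add]
    congr 1
    omega
  have h3 : b ^ p = b * b ^ (p - 1) := by
    rw [← pow_succ']
    congr 1
    omega
  have h4 : 1 ≤ b ^ (p - 1) := Nat.one_le_pow _ _ (by omega)
  rw [h1, h2]
  refine ⟨Nat.mul_le_mul_left _ (Nat.sub_le _ _), Nat.mul_le_mul_left _ ?_⟩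
  rw [h3]
  have h5 : 2 * b ^ (p - 1) ≤ b * b ^ (p - 1) := Nat.mul_le_mul_right _ hb
  omega

/-- the approximation by a rational number -/
theorem approx' {b h : ℕ} (hb : 2 ≤ b) {a : ℕ → ℤ} (ha : ∀ i, |a i| ≤ ((b ^ h : ℕ) : ℤ)) {y : ℝ}
    (hy : Exp b a y) {n m p : ℕ} (hp0 : 0 < p) (hpn : p ≤ n) (hnm : n ≤ m)
    (hcopy : ∀ j, n ≤ j → j < m → a j = a (j - p)) :
    ∃ (q : ℕ) (P : ℤ), q = b ^ (n - p) * (b ^ p - 1) ∧ 1 ≤ q ∧ q ≤ b ^ n ∧
      |(q : ℝ) * y - P| * (b : ℝ) ^ m ≤ q * (2 * (b : ℝ) ^ (h + 1)) := by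
  have hb0 : (0 : ℝ) < b := by exact_mod_cast (by omega : 0 < b)
  obtain ⟨P, hP⟩ := approx hb ha hy hp0 hpn hnm hcopy
  obtain ⟨h1, h2⟩ := den_size hb hp0 hpn
  refine ⟨_, P, rfl, (Nat.one_le_pow _ _ (by omega)).trans h2, h1, ?_⟩
  have h3 := mul_le_mul_of_nonneg_right hP (by positivity : (0 : ℝ) ≤ (b : ℝ) ^ m)
  refine h3.trans ?_
  have h4 : (b : ℝ) ^ m = (b : ℝ) ^ (m - n) * (b : ℝ) ^ n := by
    rw [← pow_add, Nat.sub_add_cancel hnm]
  have h5 : (b : ℝ) ^ n = (b : ℝ) ^ (n - 1) * b := by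
    rw [← pow_succ, Nat.sub_add_cancel (by omega)]
  have h6 : 2 * (b : ℝ) ^ h / (b : ℝ) ^ (m - n) * (b : ℝ) ^ m =
      (b : ℝ) ^ (n - 1) * (2 * (b : ℝ) ^ (h + 1)) := by
    rw [h4, h5, pow_succ]
    field_simp
  rw [h6]
  refine mul_le_mul_of_nonneg_right ?_ (by positivity)
  have h7 : ((b ^ (n - 1) : ℕ) : ℝ) ≤ ((b ^ (n - p) * (b ^ p - 1) : ℕ) : ℝ) := by exact_mod_cast h2
  rw [Nat.cast_pow] at h7
  exact h7

end Pool.Agent.R343.LD
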