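import Pool.Agent.R343.LD1

set_option autoImplicit false
set_option linter.unusedSectionVars false
set_option linter.unusedVariables false

/-! # Expansions of numbers with a simultaneous approximation measure are not compressible -/

namespace Pool.Agent.R343.LD

open Finset Pool.Agent.R343.LP

/-- the measure -/
def Ms (T : Finset ℕ) (x : ℕ → ℝ) (μ c0 : ℝ) : Prop :=
  ∀ q : ℕ, 1 ≤ q → ∀ p : ℕ → ℤ, ∃ j ∈ T, c0 ≤ (q : ℝ) ^ (μ - 1) * |(q : ℝ) * x j - p j|

/-- a window without break points -/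
theorem free_window (T : Finset ℕ) (z : ℕ → ℕ) (β : ℕ → ℕ → ℝ) (K A : ℝ) (hK : 1 < K)
    (hA : 0 < A) : ∃ r ≤ ∑ j ∈ T, z j, ∀ j ∈ T, ∀ i, 1 ≤ i → i ≤ z j →
      ¬ (A * K ^ r < β j i ∧ β j i ≤ A * K ^ (r + 1)) := by
  classical
  by_contra hcon
  push Not at hcon
  set Z := ∑ j ∈ T, z j with hZ
  have h1 : ∀ r : ℕ, ∃ t : Σ _ : ℕ, ℕ, r ≤ Z → t ∈ T.sigma (fun j => Icc 1 (z j)) ∧
      A * K ^ r < β t.1 t.2 ∧ β t.1 t.2 ≤ A * K ^ (r + 1) := by
    intro r
    by_cases hr : r ≤ Z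
    · obtain ⟨j, hj, i, h1, h2, h3, h4⟩ := hcon r hr
      exact ⟨⟨j, i⟩, fun _ => ⟨Finset.mem_sigma.2 ⟨hj, Finset.mem_Icc.2 ⟨h1, h2⟩⟩, h3, h4⟩⟩
    · exact ⟨⟨0, 0⟩, fun h => absurd h hr⟩
  choose f hf using h1
  have hcard : (T.sigma (fun j => Icc 1 (z j))).card < (range (Z + 1)).card := by
    rw [Finset.card_sigma, Finset.card_range]
    have h2 : ∑ j ∈ T, (Icc 1 (z j)).card = Z := by
      rw [hZ]
      exact Finset.sum_congr rfl fun j _ => by rw [Nat.card_Icc]; omega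
    omega
  obtain ⟨r, hr, r', hr', hne, heq⟩ := Finset.exists_ne_map_eq_of_card_lt_of_maps_to hcard
    (f := f) (fun r hr => (hf r (by
      have := Finset.mem_range.1 (Finset.mem_coe.1 hr)
      omega)).1)
  rw [Finset.mem_range] at hr hr'
  have key : ∀ r r', r < r' → r' ≤ Z → f r = f r' → False := by
    intro r r' h h' he
    have h3 := (hf r (by omega)).2.2
    have h4 := (hf r' h').2.1
    rw [he] at h3
    have h5 : K ^ (r + 1) ≤ K ^ r' := pow_le_pow_right₀ hK.le (by omega)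
    have h6 : A * K ^ (r + 1) ≤ A * K ^ r' := mul_le_mul_of_nonneg_left h5 hA.le
    linarith
  rcases lt_or_gt_of_ne hne with h | h
  · exact key r r' h (by omega) heq
  · exact key r' r h (by omega) heq.symm

/-- **Separate bases.** -/
theorem sep (T : Finset ℕ) (x : ℕ → ℝ) (μ c : ℝ) (hμ : 1 ≤ μ) (hc : 0 < c) (hM : Ms T x μ c)
    (h : ℕ) : ∃ C : ℝ, 0 < C ∧ ∀ b : ℕ → ℕ, (∀ j ∈ T, 2 ≤ b j) → ∀ a : ℕ → ℕ → ℤ,
      (∀ j ∈ T, ∀ i, |a j i| ≤ ((b j ^ h : ℕ) : ℤ)) → (∀ j ∈ T, ∃ n : ℤ, Exp (b j) (a j) (x j - n)) →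
      ∀ L z : ℕ → ℕ, (∀ j ∈ T, LZ (a j) (L j) (z j)) → ∀ Λ : ℝ,
        (∀ j ∈ T, Λ ≤ L j * Real.log (b j)) →
        Λ ≤ C * (∑ j ∈ T, Real.log (b j)) * (T.card * μ + 1) ^ (∑ j ∈ T, z j) := by
  classical
  have hT : T.Nonempty := by
    obtain ⟨j, hj, -⟩ := hM 1 le_rfl (fun _ => 0)
    exact ⟨j, hj⟩
  have hcard : (1 : ℝ) ≤ T.card := by exact_mod_cast hT.card_pos
  obtain ⟨K, hK⟩ : ∃ K : ℝ, K = T.card * μ + 1 := ⟨_, rfl⟩
  have hK2 : 2 ≤ K := by
    rw [hK]
    nlinarith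
  have hl2 : 0 < Real.log 2 := Real.log_pos one_lt_two
  obtain ⟨C0, hC0⟩ : ∃ C0 : ℝ, C0 = h + 2 + |Real.log (2 / c)| / Real.log 2 := ⟨_, rfl⟩
  have hC01 : 1 ≤ C0 := by
    rw [hC0]
    have h1 : 0 ≤ |Real.log (2 / c)| / Real.log 2 := by positivity
    have h2 : (0 : ℝ) ≤ h := Nat.cast_nonneg _
    linarith
  refine ⟨C0 * K, by positivity, ?_⟩
  intro b hb a ha hex L z hLZ Λ hΛ
  obtain ⟨B, hB⟩ : ∃ B : ℝ, B = ∑ j ∈ T, Real.log (b j) := ⟨_, rfl⟩
  have hlb : ∀ j ∈ T, Real.log 2 ≤ Real.log (b j) := fun j hj =>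
    Real.log_le_log (by norm_num) (by exact_mod_cast hb j hj)
  have hlB : ∀ j ∈ T, Real.log (b j) ≤ B := by
    intro j hj
    rw [hB]
    exact Finset.single_le_sum (f := fun j => Real.log (b j))
      (fun j hj => hl2.le.trans (hlb j hj)) hj
  have hB2 : Real.log 2 ≤ B := by
    obtain ⟨j, hj⟩ := hT
    exact (hlb j hj).trans (hlB j hj)
  have hB0 : 0 < B := by linarith
  rw [← hB, ← hK]
  by_contra hcon
  push Not at hcon
  obtain ⟨A, hA⟩ : ∃ A : ℝ, A = C0 * B := ⟨_, rfl⟩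
  have hA0 : 0 < A := by
    rw [hA]
    positivity
  have hBA : B ≤ A := by
    rw [hA]
    nlinarith
  choose! cc hc0 hcz hph using hLZ
  obtain ⟨r, hr, hfree⟩ := free_window T z (fun j i => cc j i * Real.log (b j)) K A
    (by linarith) hA0
  obtain ⟨t, ht⟩ : ∃ t : ℝ, t = A * K ^ r := ⟨_, rfl⟩
  have htA : A ≤ t := by
    rw [ht]
    have h1 : 1 ≤ K ^ r := one_le_pow₀ (by linarith)
    nlinarith
  have ht0 : 0 < t := by linarith
  have hKt : A * K ^ (r + 1) = K * t := by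
    rw [ht, pow_succ]
    ring
  have hKtΛ : K * t < Λ := by
    refine lt_of_le_of_lt ?_ hcon
    rw [ht, hA]
    have h1 : K ^ r ≤ K ^ (∑ j ∈ T, z j) := pow_le_pow_right₀ (by linarith) hr
    have h2 := mul_le_mul_of_nonneg_left h1 (by positivity : 0 ≤ C0 * K * B)
    calc K * (C0 * B * K ^ r) = C0 * K * B * K ^ r := by ring
      _ ≤ _ := h2
  rw [← ht, hKt] at hfree
  -- the phrases
  have hphrase : ∀ j ∈ T, ∃ (q : ℕ) (P n : ℤ), 1 ≤ q ∧ (q : ℝ) ≤ Real.exp t ∧
      |(q : ℝ) * (x j - n) - P| * Real.exp (K * t) ≤ q * (2 * Real.exp ((h + 1) * B)) := by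
    intro j hj
    have hlj := hlb j hj
    have hlj0 : 0 < Real.log (b j) := by linarith
    have hbj0 : (0 : ℝ) < b j := by
      have := hb j hj
      exact_mod_cast (by omega : 0 < b j)
    obtain ⟨i, hi1, hi2, hi3⟩ : ∃ i, i < z j ∧ (cc j i : ℝ) * Real.log (b j) ≤ t ∧
        t < (cc j (i + 1) : ℝ) * Real.log (b j) := by
      by_contra hno
      push Not at hno
      have h1 : ∀ i ≤ z j, (cc j i : ℝ) * Real.log (b j) ≤ t := by
        intro i
        induction i with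
        | zero =>
          intro _
          rw [hc0 j hj, Nat.cast_zero, zero_mul]
          exact ht0.le
        | succ i ih =>
          intro hi
          exact hno i (by omega) (ih (by omega))
      have h2 := h1 (z j) le_rfl
      rw [hcz j hj] at h2
      have h3 := hΛ j hj
      have h4 : t ≤ K * t := by nlinarith
      linarith
    have hbig : K * t < (cc j (i + 1) : ℝ) * Real.log (b j) := by
      by_contra hno
      push Not at hno
      exact hfree j hj (i + 1) (by omega) (by omega) ⟨hi3, hno⟩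
    obtain ⟨n0, hn0⟩ := hex j hj
    rcases hph j hj i hi1 with hlit | ⟨hnm, p, hp0, hpn, hcopy⟩
    · exfalso
      rw [hlit] at hbig
      push_cast at hbig
      have h1 := hlB j hj
      nlinarith
    · obtain ⟨q, P, -, hq1, hq2, hq3⟩ := approx' (hb j hj) (ha j hj) hn0 hp0 hpn hnm hcopy
      refine ⟨q, P, n0, hq1, ?_, ?_⟩
      · have h1 : (q : ℝ) ≤ (b j : ℝ) ^ (cc j i) := by exact_mod_cast hq2
        refine h1.trans ?_
        rw [← Real.exp_log (pow_pos hbj0 _), Real.log_pow]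
        exact Real.exp_le_exp.2 hi2
      · have h1 : Real.exp (K * t) ≤ (b j : ℝ) ^ (cc j (i + 1)) := by
          rw [← Real.exp_log (pow_pos hbj0 (cc j (i + 1))), Real.log_pow]
          exact Real.exp_le_exp.2 hbig.le
        have h2 : (b j : ℝ) ^ (h + 1) ≤ Real.exp ((h + 1) * B) := by
          rw [← Real.exp_log (pow_pos hbj0 (h + 1)), Real.log_pow]
          refine Real.exp_le_exp.2 ?_
          push_cast
          exact mul_le_mul_of_nonneg_left (hlB j hj) (by positivity)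
        calc |(q : ℝ) * (x j - n0) - P| * Real.exp (K * t)
            ≤ |(q : ℝ) * (x j - n0) - P| * (b j : ℝ) ^ (cc j (i + 1)) :=
              mul_le_mul_of_nonneg_left h1 (abs_nonneg _)
          _ ≤ q * (2 * (b j : ℝ) ^ (h + 1)) := hq3
          _ ≤ _ := by
            refine mul_le_mul_of_nonneg_left ?_ (Nat.cast_nonneg _)
            linarith
  choose! q P n hq1 hq2 hq3 using hphrase
  -- the common denominator
  have hq0 : ∀ j ∈ T, (0 : ℝ) < q j := fun j hj => by exact_mod_cast hq1 j hj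
  have hQ1 : 1 ≤ ∏ j ∈ T, q j := Nat.one_le_iff_ne_zero.2
    (Finset.prod_ne_zero_iff.2 fun j hj => by have := hq1 j hj; omega)
  obtain ⟨j, hj, hmeas⟩ := hM (∏ j ∈ T, q j) hQ1
    (fun j => (∏ i ∈ T.erase j, q i : ℕ) * (P j + n j * q j))
  have hQ : ((∏ j ∈ T, q j : ℕ) : ℝ) = q j * ((∏ i ∈ T.erase j, q i : ℕ) : ℝ) := by
    rw [← Finset.mul_prod_erase T q hj]
    push_cast
    ring
  obtain ⟨R, hR⟩ : ∃ R : ℝ, R = ((∏ i ∈ T.erase j, q i : ℕ) : ℝ) := ⟨_, rfl⟩
  obtain ⟨Q, hQd⟩ : ∃ Q : ℝ, Q = ((∏ j ∈ T, q j : ℕ) : ℝ) := ⟨_, rfl⟩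
  have hR0 : 0 ≤ R := by
    rw [hR]
    exact Nat.cast_nonneg _
  rw [← hQd, ← hR] at hQ
  have hQ1' : 1 ≤ Q := by
    rw [hQd]
    exact_mod_cast hQ1
  have hQ0 : 0 < Q := by linarith
  have e1 : |Q * x j - ((((∏ i ∈ T.erase j, q i : ℕ) * (P j + n j * q j) : ℤ)) : ℝ)| =
      R * |(q j : ℝ) * (x j - n j) - P j| := by
    have e0 : Q * x j - ((((∏ i ∈ T.erase j, q i : ℕ) * (P j + n j * q j) : ℤ)) : ℝ) =
        R * ((q j : ℝ) * (x j - n j) - P j) := by
      push_cast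
      push_cast at hR
      rw [hQ, hR]
      ring
    rw [e0, abs_mul, abs_of_nonneg hR0]
  have hmeas' : c ≤ Q ^ (μ - 1) * (R * |(q j : ℝ) * (x j - n j) - P j|) := by
    rw [← e1, hQd]
    exact hmeas
  have hE : 0 < Real.exp (K * t) := Real.exp_pos _
  have h1 : c * Real.exp (K * t) ≤ Q ^ (μ - 1) * (Q * (2 * Real.exp ((h + 1) * B))) := by
    calc c * Real.exp (K * t) ≤ Q ^ (μ - 1) * (R * |(q j : ℝ) * (x j - n j) - P j|) *
          Real.exp (K * t) := mul_le_mul_of_nonneg_right hmeas' hE.le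
      _ = Q ^ (μ - 1) * (R * (|(q j : ℝ) * (x j - n j) - P j| * Real.exp (K * t))) := by ring
      _ ≤ Q ^ (μ - 1) * (R * (q j * (2 * Real.exp ((h + 1) * B)))) := by
        refine mul_le_mul_of_nonneg_left ?_ (Real.rpow_nonneg hQ0.le _)
        exact mul_le_mul_of_nonneg_left (hq3 j hj) hR0
      _ = _ := by rw [hQ]; ring
  have h2 : Q ^ (μ - 1) * Q = Q ^ μ := by
    rw [← Real.rpow_add_one hQ0.ne']
    congr 1
    ring
  have h3 : Q ≤ Real.exp (T.card * t) := by
    rw [hQd, Nat.cast_prod]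
    calc ∏ i ∈ T, (q i : ℝ) ≤ ∏ i ∈ T, Real.exp t :=
          Finset.prod_le_prod (fun i _ => Nat.cast_nonneg _) fun i hi => hq2 i hi
      _ = Real.exp (T.card * t) := by
        rw [Finset.prod_const, ← Real.exp_nat_mul]
  have h4 : Q ^ μ ≤ Real.exp (μ * (T.card * t)) := by
    calc Q ^ μ ≤ (Real.exp (T.card * t)) ^ μ :=
          Real.rpow_le_rpow hQ0.le h3 (by linarith)
      _ = Real.exp (μ * (T.card * t)) := by
        rw [← Real.exp_mul]
        congr 1
        ring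
  have h5 : c * Real.exp (K * t) ≤ Real.exp (μ * (T.card * t)) * (2 * Real.exp ((h + 1) * B)) := by
    refine h1.trans ?_
    rw [← mul_assoc, h2]
    exact mul_le_mul_of_nonneg_right h4 (by positivity)
  have h6 : K * t = μ * (T.card * t) + t := by
    rw [hK]
    ring
  rw [h6, Real.exp_add] at h5
  have h7 : c * Real.exp t ≤ 2 * Real.exp ((h + 1) * B) := by
    have h8 : Real.exp (μ * (T.card * t)) * (c * Real.exp t) ≤
        Real.exp (μ * (T.card * t)) * (2 * Real.exp ((h + 1) * B)) := by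
      calc _ = c * (Real.exp (μ * (T.card * t)) * Real.exp t) := by ring
        _ ≤ _ := h5
    exact le_of_mul_le_mul_left h8 (Real.exp_pos _)
  have h8 : Real.exp t ≤ 2 / c * Real.exp ((h + 1) * B) := by
    rw [div_mul_eq_mul_div, le_div_iff₀ hc]
    linarith
  have h9 : t ≤ Real.log (2 / c) + (h + 1) * B := by
    have h10 := Real.log_le_log (Real.exp_pos _) h8
    rwa [Real.log_exp, Real.log_mul (by positivity) (Real.exp_pos _).ne', Real.log_exp] at h10
  have h10 : A = (h + 2) * B + |Real.log (2 / c)| / Real.log 2 * B := by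
    rw [hA, hC0]
    ring
  have h11 : |Real.log (2 / c)| ≤ |Real.log (2 / c)| / Real.log 2 * B := by
    rw [div_mul_eq_mul_div, le_div_iff₀ hl2]
    exact mul_le_mul_of_nonneg_left hB2 (abs_nonneg _)
  have h12 := le_abs_self (Real.log (2 / c))
  nlinarith

/-- **One base and one parsing.** -/
theorem joint (T : Finset ℕ) (x : ℕ → ℝ) (μ c : ℝ) (hμ : 2 ≤ μ) (hc : 0 < c) (hM : Ms T x μ c)
    (h : ℕ) : ∃ C : ℝ, 0 < C ∧ ∀ b : ℕ, 2 ≤ b → ∀ a : ℕ → ℕ → ℤ,
      (∀ j ∈ T, ∀ i, |a j i| ≤ ((b ^ h : ℕ) : ℤ)) → (∀ j ∈ T, ∃ n : ℤ, Exp b (a j) (x j - n)) →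
      ∀ L z : ℕ, LZ (fun i => fun j : T => a j i) L z → (L : ℝ) ≤ C * μ ^ z := by
  classical
  have hl2 : 0 < Real.log 2 := Real.log_pos one_lt_two
  obtain ⟨C1, hC1⟩ : ∃ C1 : ℝ, C1 = h + 2 + |Real.log (2 / c)| / Real.log 2 := ⟨_, rfl⟩
  have hC11 : 1 ≤ C1 := by
    rw [hC1]
    have h1 : 0 ≤ |Real.log (2 / c)| / Real.log 2 := by positivity
    have h2 : (0 : ℝ) ≤ h := Nat.cast_nonneg _
    linarith
  refine ⟨C1, by linarith, ?_⟩
  intro b hb a ha hex L z hLZ
  obtain ⟨cc, hc0, hcz, hph⟩ := hLZ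
  have hb0 : (0 : ℝ) < b := by exact_mod_cast (by omega : 0 < b)
  have hlb : Real.log 2 ≤ Real.log b := Real.log_le_log (by norm_num) (by exact_mod_cast hb)
  have hlb0 : 0 < Real.log b := by linarith
  have hstep : ∀ i < z, (cc (i + 1) : ℝ) ≤ μ * cc i + C1 := by
    intro i hi
    have hci : (0 : ℝ) ≤ cc i := Nat.cast_nonneg _
    rcases hph i hi with hlit | ⟨hnm, p, hp0, hpn, hcopy⟩
    · rw [hlit]
      push_cast
      nlinarith
    · choose! n hn using hex
      have happ : ∀ j ∈ T, ∃ P : ℤ,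
          |((b ^ (cc i - p) * (b ^ p - 1) : ℕ) : ℝ) * (x j - n j) - P| * (b : ℝ) ^ (cc (i + 1)) ≤
            ((b ^ (cc i - p) * (b ^ p - 1) : ℕ) : ℝ) * (2 * (b : ℝ) ^ (h + 1)) := by
        intro j hj
        obtain ⟨q, P, hq, -, -, hP⟩ := approx' hb (ha j hj) (hn j hj) hp0 hpn hnm
          (fun l h1 h2 => congrFun (hcopy l h1 h2) ⟨j, hj⟩)
        rw [hq] at hP
        exact ⟨P, hP⟩
      choose! P hP using happ
      obtain ⟨h1, h2⟩ := den_size (b := b) (n := cc i) (p := p) hb hp0 hpn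
      have hq1 : 1 ≤ b ^ (cc i - p) * (b ^ p - 1) := (Nat.one_le_pow _ _ (by omega)).trans h2
      obtain ⟨q, hq⟩ : ∃ q : ℕ, q = b ^ (cc i - p) * (b ^ p - 1) := ⟨_, rfl⟩
      rw [← hq] at h1 hq1
      simp only [← hq] at hP
      obtain ⟨j, hj, hmeas⟩ := hM q hq1 (fun j => P j + n j * q)
      have e1 : (q : ℝ) * x j - ((P j + n j * q : ℤ) : ℝ) = (q : ℝ) * (x j - n j) - P j := by
        push_cast
        ring
      rw [e1] at hmeas
      have hq0 : (0 : ℝ) < q := by exact_mod_cast hq1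
      have h3 : c * (b : ℝ) ^ (cc (i + 1)) ≤ (q : ℝ) ^ μ * (2 * (b : ℝ) ^ (h + 1)) := by
        calc c * (b : ℝ) ^ (cc (i + 1)) ≤ (q : ℝ) ^ (μ - 1) * |(q : ℝ) * (x j - n j) - P j| *
              (b : ℝ) ^ (cc (i + 1)) := mul_le_mul_of_nonneg_right hmeas (by positivity)
          _ = (q : ℝ) ^ (μ - 1) * (|(q : ℝ) * (x j - n j) - P j| * (b : ℝ) ^ (cc (i + 1))) := by
            ring
          _ ≤ (q : ℝ) ^ (μ - 1) * (q * (2 * (b : ℝ) ^ (h + 1))) :=
            mul_le_mul_of_nonneg_left (hP j hj) (Real.rpow_nonneg hq0.le _)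
          _ = _ := by
            rw [← mul_assoc, ← Real.rpow_add_one hq0.ne']
            congr 2
            ring
      have h4 : (q : ℝ) ^ μ ≤ Real.exp (μ * (cc i * Real.log b)) := by
        have h5 : (q : ℝ) ≤ (b : ℝ) ^ (cc i) := by exact_mod_cast h1
        calc (q : ℝ) ^ μ ≤ ((b : ℝ) ^ (cc i)) ^ μ := Real.rpow_le_rpow hq0.le h5 (by linarith)
          _ = Real.exp (μ * (cc i * Real.log b)) := by
            rw [Real.rpow_def_of_pos (by positivity), Real.log_pow]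
            congr 1
            ring
      have h5 : c * Real.exp (cc (i + 1) * Real.log b) ≤
          Real.exp (μ * (cc i * Real.log b)) * (2 * Real.exp ((h + 1) * Real.log b)) := by
        have h6 : (b : ℝ) ^ (cc (i + 1)) = Real.exp (cc (i + 1) * Real.log b) := by
          rw [← Real.exp_log (pow_pos hb0 (cc (i + 1))), Real.log_pow]
        have h7 : (b : ℝ) ^ (h + 1) = Real.exp ((h + 1) * Real.log b) := by
          rw [← Real.exp_log (pow_pos hb0 (h + 1)), Real.log_pow]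
          push_cast
          rfl
        rw [h6, h7] at h3
        exact h3.trans (mul_le_mul_of_nonneg_right h4 (by positivity))
      have h6 : Real.exp (cc (i + 1) * Real.log b) ≤
          2 / c * (Real.exp (μ * (cc i * Real.log b)) * Real.exp ((h + 1) * Real.log b)) := by
        rw [div_mul_eq_mul_div, le_div_iff₀ hc]
        linarith
      have h7 := Real.log_le_log (Real.exp_pos _) h6
      rw [Real.log_exp, Real.log_mul (by positivity) (by positivity),
        Real.log_mul (by positivity) (by positivity), Real.log_exp, Real.log_exp] at h7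
      have h8 : Real.log (2 / c) ≤ |Real.log (2 / c)| / Real.log 2 * Real.log b := by
        refine (le_abs_self _).trans ?_
        rw [div_mul_eq_mul_div, le_div_iff₀ hl2]
        exact mul_le_mul_of_nonneg_left hlb (abs_nonneg _)
      have h9 : (cc (i + 1) : ℝ) * Real.log b ≤
          (μ * cc i + (h + 1) + |Real.log (2 / c)| / Real.log 2) * Real.log b := by
        calc _ ≤ _ := h7
          _ ≤ |Real.log (2 / c)| / Real.log 2 * Real.log b + (μ * (cc i * Real.log b) +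
              (h + 1) * Real.log b) := by linarith
          _ = _ := by ring
      have h10 := le_of_mul_le_mul_right h9 hlb0
      rw [hC1]
      linarith
  have hall : ∀ i ≤ z, (cc i : ℝ) ≤ C1 * (μ ^ i - 1) := by
    intro i
    induction i with
    | zero =>
      intro _
      rw [hc0]
      simp
    | succ i ih =>
      intro hi
      have h1 := ih (by omega)
      have h2 := hstep i (by omega)
      have h3 : μ * cc i ≤ μ * (C1 * (μ ^ i - 1)) := mul_le_mul_of_nonneg_left h1 (by linarith)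
      calc (cc (i + 1) : ℝ) ≤ μ * (C1 * (μ ^ i - 1)) + C1 := by linarith
        _ = C1 * (μ ^ (i + 1) - (μ - 1)) := by ring
        _ ≤ C1 * (μ ^ (i + 1) - 1) := by
          refine mul_le_mul_of_nonneg_left ?_ (by linarith)
          linarith
  have h1 := hall z le_rfl
  rw [hcz] at h1
  have h2 : C1 * (μ ^ z - 1) ≤ C1 * μ ^ z := mul_le_mul_of_nonneg_left (by linarith) (by linarith)
  linarith

end Pool.Agent.R343.LD
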