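import Pool.Agent.R343.LD2

set_option autoImplicit false
set_option linter.unusedSectionVars false
set_option linter.unusedVariables false

/-! # At every large scale one of the expansions has many phrases -/

namespace Pool.Agent.R343.LD

open Finset Pool.Agent.R343.LP

theorem large (T : Finset ℕ) (x : ℕ → ℝ) (μ c : ℝ) (hμ : 1 ≤ μ) (hc : 0 < c) (hM : Ms T x μ c)
    (h : ℕ) (κ : ℝ) (hκ : T.card * Real.log (T.card * μ + 1) < κ) :
    ∃ L₀ : ℕ, ∀ b : ℕ, 2 ≤ b → ∀ a : ℕ → ℕ → ℤ,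
      (∀ j ∈ T, ∀ i, |a j i| ≤ ((b ^ h : ℕ) : ℤ)) → (∀ j ∈ T, ∃ n : ℤ, Exp b (a j) (x j - n)) →
      ∀ L : ℕ, L₀ ≤ L → ∃ j ∈ T, ∀ z : ℕ, LZ (a j) L z → Real.log L ≤ κ * z := by
  classical
  have hT : T.Nonempty := by
    obtain ⟨j, hj, -⟩ := hM 1 le_rfl (fun _ => 0)
    exact ⟨j, hj⟩
  have hcard : (1 : ℝ) ≤ T.card := by exact_mod_cast hT.card_pos
  obtain ⟨K, hK⟩ : ∃ K : ℝ, K = T.card * μ + 1 := ⟨_, rfl⟩
  have hK2 : 2 ≤ K := by
    rw [hK]
    nlinarith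
  have hlK : 0 < Real.log K := Real.log_pos (by linarith)
  obtain ⟨C, hC, hmain⟩ := sep T x μ c hμ hc hM h
  rw [← hK] at hκ
  have hκ0 : 0 < κ := lt_of_le_of_lt (by positivity) hκ
  obtain ⟨θ, hθ⟩ : ∃ θ : ℝ, θ = T.card * Real.log K / κ := ⟨_, rfl⟩
  have hθ1 : θ < 1 := by
    rw [hθ, div_lt_one hκ0]
    exact hκ
  obtain ⟨E, hE⟩ : ∃ E : ℝ, E = Real.log (C * T.card) / (1 - θ) := ⟨_, rfl⟩
  refine ⟨⌈Real.exp E⌉₊ + 2, ?_⟩
  intro b hb a ha hex L hL
  by_contra hcon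
  push Not at hcon
  choose! z hz1 hz2 using hcon
  have hlb0 : 0 < Real.log b := Real.log_pos (by exact_mod_cast (by omega : 1 < b))
  have h1 := hmain (fun _ => b) (fun j _ => hb) a ha hex (fun _ => L) z hz1
    (L * Real.log b) (fun j _ => le_rfl)
  rw [← hK, Finset.sum_const, nsmul_eq_mul] at h1
  have hL1 : Real.exp E + 1 ≤ L := by
    have h2 := Nat.le_ceil (Real.exp E)
    have h3 : ((⌈Real.exp E⌉₊ + 2 : ℕ) : ℝ) ≤ L := by exact_mod_cast hL
    push_cast at h3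
    linarith
  have hE0 := Real.exp_pos E
  have hL0 : (0 : ℝ) < L := by linarith
  have h2 : (L : ℝ) ≤ C * T.card * K ^ (∑ j ∈ T, z j) := by
    have h3 : (L : ℝ) * Real.log b ≤ C * T.card * K ^ (∑ j ∈ T, z j) * Real.log b := by
      calc _ ≤ _ := h1
        _ = _ := by ring
    exact le_of_mul_le_mul_right h3 hlb0
  have h3 := Real.log_le_log hL0 h2
  rw [Real.log_mul (by positivity) (by positivity), Real.log_pow] at h3
  have h4 : κ * ((∑ j ∈ T, z j : ℕ) : ℝ) ≤ T.card * Real.log L := by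
    push_cast
    rw [Finset.mul_sum]
    calc ∑ j ∈ T, κ * (z j : ℝ) ≤ ∑ j ∈ T, Real.log L := Finset.sum_le_sum fun j hj => (hz2 j hj).le
      _ = _ := by rw [Finset.sum_const, nsmul_eq_mul]
  have h5 : ((∑ j ∈ T, z j : ℕ) : ℝ) * Real.log K ≤ θ * Real.log L := by
    have h6 : ((∑ j ∈ T, z j : ℕ) : ℝ) ≤ T.card * Real.log L / κ := by
      rw [le_div_iff₀ hκ0]
      linarith
    have h7 := mul_le_mul_of_nonneg_right h6 hlK.le
    calc _ ≤ _ := h7
      _ = θ * Real.log L := by rw [hθ]; ring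
  have h6 : (1 - θ) * Real.log L ≤ Real.log (C * T.card) := by linarith
  have h7 : Real.log L ≤ E := by
    rw [hE, le_div_iff₀ (by linarith)]
    linarith
  have h8 : (L : ℝ) ≤ Real.exp E := by
    rw [← Real.exp_log hL0]
    exact Real.exp_le_exp.2 h7
  linarith

end Pool.Agent.R343.LD
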