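import Pool.Agent.R343.LD3

set_option autoImplicit false
set_option linter.unusedSectionVars false
set_option linter.unusedVariables false

/-! # Expansions of numbers with a measure for approximations with independent denominators -/

namespace Pool.Agent.R343.LD

open Finset Pool.Agent.R343.LP

/-- the measure with independent denominators -/
def MsP (T : Finset ℕ) (x : ℕ → ℝ) (μ c0 : ℝ) : Prop :=
  ∀ q : ℕ → ℕ, (∀ j ∈ T, 1 ≤ q j) → ∀ p : ℕ → ℤ, ∃ j ∈ T,
    c0 ≤ ((∏ j ∈ T, q j : ℕ) : ℝ) ^ μ * |x j - (p j : ℝ) / q j|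

/-- **Separate bases.** -/
theorem sepP (T : Finset ℕ) (x : ℕ → ℝ) (μ c : ℝ) (hμ : 1 ≤ μ) (hc : 0 < c) (hM : MsP T x μ c)
    (h : ℕ) : ∃ C : ℝ, 0 < C ∧ ∀ b : ℕ → ℕ, (∀ j ∈ T, 2 ≤ b j) → ∀ a : ℕ → ℕ → ℤ,
      (∀ j ∈ T, ∀ i, |a j i| ≤ ((b j ^ h : ℕ) : ℤ)) → (∀ j ∈ T, ∃ n : ℤ, Exp (b j) (a j) (x j - n)) →
      ∀ L z : ℕ → ℕ, (∀ j ∈ T, LZ (a j) (L j) (z j)) → ∀ Λ : ℝ,
        (∀ j ∈ T, Λ ≤ L j * Real.log (b j)) →
        Λ ≤ C * (∑ j ∈ T, Real.log (b j)) * (T.card * μ + 1) ^ (∑ j ∈ T, z j) := by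
  classical
  have hT : T.Nonempty := by
    obtain ⟨j, hj, -⟩ := hM (fun _ => 1) (fun _ _ => le_rfl) (fun _ => 0)
    exact ⟨j, hj⟩
  have hcard : (1 : ℝ) ≤ T.card := by exact_mod_cast hT.card_pos
  obtain ⟨K, hK⟩ : ∃ K : ℝ, K = T.card * μ + 1 := ⟨_, rfl⟩
  have hK2 : 2 ≤ K := by
    rw [hK]
    nlinarith
  have hl2 : 0 < Real.log 2 := Real.log_pos one_lt_two
  obtain ⟨C0, hC0⟩ : ∃ C0 : ℝ, C0 = h + 2 + |Real.log (2 / c)| / Real.log 2 := ⟨_, rfl⟩
  have hC01 : 1 ≤ C0 := by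
    rw [hC0]
    have h1 : 0 ≤ |Real.log (2 / c)| / Real.log 2 := by positivity
    have h2 : (0 : ℝ) ≤ h := Nat.cast_nonneg _
    linarith
  refine ⟨C0 * K, by positivity, ?_⟩
  intro b hb a ha hex L z hLZ Λ hΛ
  obtain ⟨B, hB⟩ : ∃ B : ℝ, B = ∑ j ∈ T, Real.log (b j) := ⟨_, rfl⟩
  have hlb : ∀ j ∈ T, Real.log 2 ≤ Real.log (b j) := fun j hj =>
    Real.log_le_log (by norm_num) (by exact_mod_cast hb j hj)
  have hlB : ∀ j ∈ T, Real.log (b j) ≤ B := by
    intro j hj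
    rw [hB]
    exact Finset.single_le_sum (f := fun j => Real.log (b j))
      (fun j hj => hl2.le.trans (hlb j hj)) hj
  have hB2 : Real.log 2 ≤ B := by
    obtain ⟨j, hj⟩ := hT
    exact (hlb j hj).trans (hlB j hj)
  have hB0 : 0 < B := by linarith
  rw [← hB, ← hK]
  by_contra hcon
  push Not at hcon
  obtain ⟨A, hA⟩ : ∃ A : ℝ, A = C0 * B := ⟨_, rfl⟩
  have hA0 : 0 < A := by
    rw [hA]
    positivity
  have hBA : B ≤ A := by
    rw [hA]
    nlinarith
  choose! cc hc0 hcz hph using hLZ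
  obtain ⟨r, hr, hfree⟩ := free_window T z (fun j i => cc j i * Real.log (b j)) K A
    (by linarith) hA0
  obtain ⟨t, ht⟩ : ∃ t : ℝ, t = A * K ^ r := ⟨_, rfl⟩
  have htA : A ≤ t := by
    rw [ht]
    have h1 : 1 ≤ K ^ r := one_le_pow₀ (by linarith)
    nlinarith
  have ht0 : 0 < t := by linarith
  have hKt : A * K ^ (r + 1) = K * t := by
    rw [ht, pow_succ]
    ring
  have hKtΛ : K * t < Λ := by
    refine lt_of_le_of_lt ?_ hcon
    rw [ht, hA]
    have h1 : K ^ r ≤ K ^ (∑ j ∈ T, z j) := pow_le_pow_right₀ (by linarith) hr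
    have h2 := mul_le_mul_of_nonneg_left h1 (by positivity : 0 ≤ C0 * K * B)
    calc K * (C0 * B * K ^ r) = C0 * K * B * K ^ r := by ring
      _ ≤ _ := h2
  rw [← ht, hKt] at hfree
  -- the phrases
  have hphrase : ∀ j ∈ T, ∃ (q : ℕ) (P n : ℤ), 1 ≤ q ∧ (q : ℝ) ≤ Real.exp t ∧
      |(q : ℝ) * (x j - n) - P| * Real.exp (K * t) ≤ q * (2 * Real.exp ((h + 1) * B)) := by
    intro j hj
    have hlj := hlb j hj
    have hlj0 : 0 < Real.log (b j) := by linarith
    have hbj0 : (0 : ℝ) < b j := by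
      have := hb j hj
      exact_mod_cast (by omega : 0 < b j)
    obtain ⟨i, hi1, hi2, hi3⟩ : ∃ i, i < z j ∧ (cc j i : ℝ) * Real.log (b j) ≤ t ∧
        t < (cc j (i + 1) : ℝ) * Real.log (b j) := by
      by_contra hno
      push Not at hno
      have h1 : ∀ i ≤ z j, (cc j i : ℝ) * Real.log (b j) ≤ t := by
        intro i
        induction i with
        | zero =>
          intro _
          rw [hc0 j hj, Nat.cast_zero, zero_mul]
          exact ht0.le
        | succ i ih =>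
          intro hi
          exact hno i (by omega) (ih (by omega))
      have h2 := h1 (z j) le_rfl
      rw [hcz j hj] at h2
      have h3 := hΛ j hj
      have h4 : t ≤ K * t := by nlinarith
      linarith
    have hbig : K * t < (cc j (i + 1) : ℝ) * Real.log (b j) := by
      by_contra hno
      push Not at hno
      exact hfree j hj (i + 1) (by omega) (by omega) ⟨hi3, hno⟩
    obtain ⟨n0, hn0⟩ := hex j hj
    rcases hph j hj i hi1 with hlit | ⟨hnm, p, hp0, hpn, hcopy⟩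
    · exfalso
      rw [hlit] at hbig
      push_cast at hbig
      have h1 := hlB j hj
      nlinarith
    · obtain ⟨q, P, -, hq1, hq2, hq3⟩ := approx' (hb j hj) (ha j hj) hn0 hp0 hpn hnm hcopy
      refine ⟨q, P, n0, hq1, ?_, ?_⟩
      · have h1 : (q : ℝ) ≤ (b j : ℝ) ^ (cc j i) := by exact_mod_cast hq2
        refine h1.trans ?_
        rw [← Real.exp_log (pow_pos hbj0 _), Real.log_pow]
        exact Real.exp_le_exp.2 hi2
      · have h1 : Real.exp (K * t) ≤ (b j : ℝ) ^ (cc j (i + 1)) := by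
          rw [← Real.exp_log (pow_pos hbj0 (cc j (i + 1))), Real.log_pow]
          exact Real.exp_le_exp.2 hbig.le
        have h2 : (b j : ℝ) ^ (h + 1) ≤ Real.exp ((h + 1) * B) := by
          rw [← Real.exp_log (pow_pos hbj0 (h + 1)), Real.log_pow]
          refine Real.exp_le_exp.2 ?_
          push_cast
          exact mul_le_mul_of_nonneg_left (hlB j hj) (by positivity)
        calc |(q : ℝ) * (x j - n0) - P| * Real.exp (K * t)
            ≤ |(q : ℝ) * (x j - n0) - P| * (b j : ℝ) ^ (cc j (i + 1)) :=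
              mul_le_mul_of_nonneg_left h1 (abs_nonneg _)
          _ ≤ q * (2 * (b j : ℝ) ^ (h + 1)) := hq3
          _ ≤ _ := by
            refine mul_le_mul_of_nonneg_left ?_ (Nat.cast_nonneg _)
            linarith
  choose! q P n hq1 hq2 hq3 using hphrase
  -- the common denominator
  have hq0 : ∀ j ∈ T, (0 : ℝ) < q j := fun j hj => by exact_mod_cast hq1 j hj
  have hQ1 : 1 ≤ ∏ j ∈ T, q j := Nat.one_le_iff_ne_zero.2
    (Finset.prod_ne_zero_iff.2 fun j hj => by have := hq1 j hj; omega)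
  obtain ⟨j, hj, hmeas⟩ := hM q hq1 (fun j => P j + n j * q j)
  obtain ⟨Q, hQd⟩ : ∃ Q : ℝ, Q = ((∏ j ∈ T, q j : ℕ) : ℝ) := ⟨_, rfl⟩
  have hQ1' : 1 ≤ Q := by
    rw [hQd]
    exact_mod_cast hQ1
  have hQ0 : 0 < Q := by linarith
  have hqj := hq0 j hj
  have e1 : |x j - ((P j + n j * q j : ℤ) : ℝ) / q j| * q j = |(q j : ℝ) * (x j - n j) - P j| := by
    rw [← abs_of_pos hqj, ← abs_mul, abs_of_pos hqj]
    congr 1
    push_cast
    field_simp
    ring
  rw [← hQd] at hmeas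
  have hE : 0 < Real.exp (K * t) := Real.exp_pos _
  have h0 : |x j - ((P j + n j * q j : ℤ) : ℝ) / q j| * Real.exp (K * t) ≤
      2 * Real.exp ((h + 1) * B) := by
    have h1 := hq3 j hj
    rw [← e1] at h1
    refine le_of_mul_le_mul_left ?_ hqj
    calc _ = |x j - ((P j + n j * q j : ℤ) : ℝ) / q j| * q j * Real.exp (K * t) := by ring
      _ ≤ _ := h1
  have h1 : c * Real.exp (K * t) ≤ Q ^ μ * (2 * Real.exp ((h + 1) * B)) := by
    calc c * Real.exp (K * t) ≤ Q ^ μ * |x j - ((P j + n j * q j : ℤ) : ℝ) / q j| *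
          Real.exp (K * t) := mul_le_mul_of_nonneg_right hmeas hE.le
      _ = Q ^ μ * (|x j - ((P j + n j * q j : ℤ) : ℝ) / q j| * Real.exp (K * t)) := by ring
      _ ≤ _ := mul_le_mul_of_nonneg_left h0 (Real.rpow_nonneg hQ0.le _)
  have h3 : Q ≤ Real.exp (T.card * t) := by
    rw [hQd, Nat.cast_prod]
    calc ∏ i ∈ T, (q i : ℝ) ≤ ∏ i ∈ T, Real.exp t :=
          Finset.prod_le_prod (fun i _ => Nat.cast_nonneg _) fun i hi => hq2 i hi
      _ = Real.exp (T.card * t) := by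
        rw [Finset.prod_const, ← Real.exp_nat_mul]
  have h4 : Q ^ μ ≤ Real.exp (μ * (T.card * t)) := by
    calc Q ^ μ ≤ (Real.exp (T.card * t)) ^ μ :=
          Real.rpow_le_rpow hQ0.le h3 (by linarith)
      _ = Real.exp (μ * (T.card * t)) := by
        rw [← Real.exp_mul]
        congr 1
        ring
  have h5 : c * Real.exp (K * t) ≤ Real.exp (μ * (T.card * t)) * (2 * Real.exp ((h + 1) * B)) := by
    refine h1.trans ?_
    exact mul_le_mul_of_nonneg_right h4 (by positivity)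
  have h6 : K * t = μ * (T.card * t) + t := by
    rw [hK]
    ring
  rw [h6, Real.exp_add] at h5
  have h7 : c * Real.exp t ≤ 2 * Real.exp ((h + 1) * B) := by
    have h8 : Real.exp (μ * (T.card * t)) * (c * Real.exp t) ≤
        Real.exp (μ * (T.card * t)) * (2 * Real.exp ((h + 1) * B)) := by
      calc _ = c * (Real.exp (μ * (T.card * t)) * Real.exp t) := by ring
        _ ≤ _ := h5
    exact le_of_mul_le_mul_left h8 (Real.exp_pos _)
  have h8 : Real.exp t ≤ 2 / c * Real.exp ((h + 1) * B) := by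
    rw [div_mul_eq_mul_div, le_div_iff₀ hc]
    linarith
  have h9 : t ≤ Real.log (2 / c) + (h + 1) * B := by
    have h10 := Real.log_le_log (Real.exp_pos _) h8
    rwa [Real.log_exp, Real.log_mul (by positivity) (Real.exp_pos _).ne', Real.log_exp] at h10
  have h10 : A = (h + 2) * B + |Real.log (2 / c)| / Real.log 2 * B := by
    rw [hA, hC0]
    ring
  have h11 : |Real.log (2 / c)| ≤ |Real.log (2 / c)| / Real.log 2 * B := by
    rw [div_mul_eq_mul_div, le_div_iff₀ hl2]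
    exact mul_le_mul_of_nonneg_left hB2 (abs_nonneg _)
  have h12 := le_abs_self (Real.log (2 / c))
  nlinarith

theorem largeP (T : Finset ℕ) (x : ℕ → ℝ) (μ c : ℝ) (hμ : 1 ≤ μ) (hc : 0 < c) (hM : MsP T x μ c)
    (h : ℕ) (κ : ℝ) (hκ : T.card * Real.log (T.card * μ + 1) < κ) :
    ∃ L₀ : ℕ, ∀ b : ℕ, 2 ≤ b → ∀ a : ℕ → ℕ → ℤ,
      (∀ j ∈ T, ∀ i, |a j i| ≤ ((b ^ h : ℕ) : ℤ)) → (∀ j ∈ T, ∃ n : ℤ, Exp b (a j) (x j - n)) →
      ∀ L : ℕ, L₀ ≤ L → ∃ j ∈ T, ∀ z : ℕ, LZ (a j) L z → Real.log L ≤ κ * z := by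
  classical
  have hT : T.Nonempty := by
    obtain ⟨j, hj, -⟩ := hM (fun _ => 1) (fun _ _ => le_rfl) (fun _ => 0)
    exact ⟨j, hj⟩
  have hcard : (1 : ℝ) ≤ T.card := by exact_mod_cast hT.card_pos
  obtain ⟨K, hK⟩ : ∃ K : ℝ, K = T.card * μ + 1 := ⟨_, rfl⟩
  have hK2 : 2 ≤ K := by
    rw [hK]
    nlinarith
  have hlK : 0 < Real.log K := Real.log_pos (by linarith)
  obtain ⟨C, hC, hmain⟩ := sepP T x μ c hμ hc hM h
  rw [← hK] at hκ
  have hκ0 : 0 < κ := lt_of_le_of_lt (by positivity) hκ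
  obtain ⟨θ, hθ⟩ : ∃ θ : ℝ, θ = T.card * Real.log K / κ := ⟨_, rfl⟩
  have hθ1 : θ < 1 := by
    rw [hθ, div_lt_one hκ0]
    exact hκ
  obtain ⟨E, hE⟩ : ∃ E : ℝ, E = Real.log (C * T.card) / (1 - θ) := ⟨_, rfl⟩
  refine ⟨⌈Real.exp E⌉₊ + 2, ?_⟩
  intro b hb a ha hex L hL
  by_contra hcon
  push Not at hcon
  choose! z hz1 hz2 using hcon
  have hlb0 : 0 < Real.log b := Real.log_pos (by exact_mod_cast (by omega : 1 < b))
  have h1 := hmain (fun _ => b) (fun j _ => hb) a ha hex (fun _ => L) z hz1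
    (L * Real.log b) (fun j _ => le_rfl)
  rw [← hK, Finset.sum_const, nsmul_eq_mul] at h1
  have hL1 : Real.exp E + 1 ≤ L := by
    have h2 := Nat.le_ceil (Real.exp E)
    have h3 : ((⌈Real.exp E⌉₊ + 2 : ℕ) : ℝ) ≤ L := by exact_mod_cast hL
    push_cast at h3
    linarith
  have hE0 := Real.exp_pos E
  have hL0 : (0 : ℝ) < L := by linarith
  have h2 : (L : ℝ) ≤ C * T.card * K ^ (∑ j ∈ T, z j) := by
    have h3 : (L : ℝ) * Real.log b ≤ C * T.card * K ^ (∑ j ∈ T, z j) * Real.log b := by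
      calc _ ≤ _ := h1
        _ = _ := by ring
    exact le_of_mul_le_mul_right h3 hlb0
  have h3 := Real.log_le_log hL0 h2
  rw [Real.log_mul (by positivity) (by positivity), Real.log_pow] at h3
  have h4 : κ * ((∑ j ∈ T, z j : ℕ) : ℝ) ≤ T.card * Real.log L := by
    push_cast
    rw [Finset.mul_sum]
    calc ∑ j ∈ T, κ * (z j : ℝ) ≤ ∑ j ∈ T, Real.log L := Finset.sum_le_sum fun j hj => (hz2 j hj).le
      _ = _ := by rw [Finset.sum_const, nsmul_eq_mul]
  have h5 : ((∑ j ∈ T, z j : ℕ) : ℝ) * Real.log K ≤ θ * Real.log L := by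
    have h6 : ((∑ j ∈ T, z j : ℕ) : ℝ) ≤ T.card * Real.log L / κ := by
      rw [le_div_iff₀ hκ0]
      linarith
    have h7 := mul_le_mul_of_nonneg_right h6 hlK.le
    calc _ ≤ _ := h7
      _ = θ * Real.log L := by rw [hθ]; ring
  have h6 : (1 - θ) * Real.log L ≤ Real.log (C * T.card) := by linarith
  have h7 : Real.log L ≤ E := by
    rw [hE, le_div_iff₀ (by linarith)]
    linarith
  have h8 : (L : ℝ) ≤ Real.exp E := by
    rw [← Real.exp_log hL0]
    exact Real.exp_le_exp.2 h7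
  linarith

end Pool.Agent.R343.LD
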