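import Pool.Agent.R343.LP1

set_option autoImplicit false

/-! # Words of bounded Lempel-Ziv complexity: a decomposition in which only the phrases of small
period contribute a denominator -/

namespace Pool.Agent.R343.LI

open Finset Pool.Agent.R343.LP

variable {K : Type} [Field K] {V : Type} [AddCommGroup V] [Module K V]

/-- the phrase from `n` to `m` is a letter or a copy from distance `p` -/
def Ph {α : Type} (a : ℕ → α) (n m p : ℕ) : Prop :=
  m = n + 1 ∨ (n ≤ m ∧ 0 < p ∧ p ≤ n ∧ ∀ j, n ≤ j → j < m → a j = a (j - p))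

/-- the factor which belongs to a phrase -/
noncomputable def fac (t : K) (p : ℕ → ℕ) (S : ℕ → Prop) (i : ℕ) : K :=
  open Classical in if S i ∧ 0 < p i then t ^ (p i) - 1 else 1

noncomputable def den (t : K) (p : ℕ → ℕ) (S : ℕ → Prop) (i : ℕ) : K :=
  ∏ k ∈ range i, fac t p S k

variable {t : K} {A : Set V} {T : ℕ} {y : V}

theorem fac_ne (ht : ∀ q, 0 < q → t ^ q ≠ 1) (p : ℕ → ℕ) (S : ℕ → Prop) (i : ℕ) :
    fac t p S i ≠ 0 := by
  unfold fac
  split_ifs with h
  · exact sub_ne_zero.2 (ht _ h.2)
  · exact one_ne_zero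

theorem den_ne (ht : ∀ q, 0 < q → t ^ q ≠ 1) (p : ℕ → ℕ) (S : ℕ → Prop) (i : ℕ) :
    den t p S i ≠ 0 := Finset.prod_ne_zero_iff.2 fun k _ => fac_ne ht p S k

theorem SP.fac (h0 : (0 : V) ∈ A) (hA : ∀ w ∈ A, -w ∈ A) (h : SP t A T y) (p : ℕ → ℕ)
    (S : ℕ → Prop) (i : ℕ) : SP t A (2 * T) (LI.fac t p S i • y) := by
  unfold LI.fac
  split_ifs with hS
  · have h1 := (h.pow (p i)).sub hA h
    rw [sub_smul, one_smul, two_mul]
    exact h1
  · rw [one_smul]
    exact h.mono h0 (by omega)

/-- a copied phrase with few periods -/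
theorem big_copy (hA : ∀ w ∈ A, -w ∈ A) (a : ℕ → V) {n m p : ℕ} (hp0 : 0 < p) (hp : p ≤ n)
    (h : ∀ j, n ≤ j → j < m → a j = a (j - p)) (D : K)
    (hT : ∀ k ≤ n, SP t A T (D • P t a k)) :
    ∀ l, n + l ≤ m → SP t A (T + 2 * T * (l / p + 1)) (D • P t a (n + l)) := by
  intro l
  induction l using Nat.strong_induction_on with
  | _ l ih =>
    intro hl
    have h1 := P_copy t a hp h l hl
    have h2 := ((hT n le_rfl).sub hA (hT (n - p) (by omega))).pow l
    have e : D • P t a (n + l) = D • P t a (n + l - p) +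
        t ^ l • (D • P t a n - D • P t a (n - p)) := by
      rw [h1, smul_add, ← smul_sub, smul_smul, smul_smul, mul_comm]
    rw [e]
    by_cases hlp : l < p
    · have h3 := (hT (n + l - p) (by omega)).add h2
      have e2 : T + 2 * T * (l / p + 1) = T + (T + T) := by
        rw [Nat.div_eq_of_lt hlp]; ring
      rw [e2]
      exact h3
    · have h3 := ih (l - p) (by omega) (by omega)
      have e3 : n + (l - p) = n + l - p := by omega
      rw [e3] at h3
      have h4 := h3.add h2
      have e4 : l / p = (l - p) / p + 1 := by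
        obtain ⟨k, rfl⟩ := Nat.exists_eq_add_of_le (le_of_not_gt hlp)
        rw [Nat.add_sub_cancel_left, Nat.add_div_left _ hp0]
      rw [e4]
      have e5 : T + 2 * T * ((l - p) / p + 1 + 1) = T + 2 * T * ((l - p) / p + 1) + (T + T) := by
        ring
      rw [e5]
      exact h4

/-- **The decomposition.** -/
theorem mixed (t : K) (a : ℕ → V) (A : Set V) (hA0 : (0 : V) ∈ A) (hA : ∀ w ∈ A, -w ∈ A)
    (c p : ℕ → ℕ) (hc0 : c 0 = 0) (z L W : ℕ)
    (ha : ∀ j < L, a j ∈ A) (hcL : ∀ i ≤ z, c i ≤ L)
    (hph : ∀ i < z, Ph a (c i) (c (i + 1)) (p i)) (S : ℕ → Prop)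
    (hS : ∀ i < z, S i ∨ c (i + 1) ≤ W * p i) :
    ∀ i ≤ z, (∀ w ∈ A, SP t A (2 ^ i) (den t p S i • w)) ∧
      ∀ m ≤ c i, SP t A ((2 * W + 6) ^ i) (den t p S i • P t a m) := by
  intro i
  induction i with
  | zero =>
    intro _
    refine ⟨fun w hw => ?_, fun m hm => ?_⟩
    · rw [den, Finset.range_zero, Finset.prod_empty, one_smul]; exact SP.of_mem hw
    · rw [hc0] at hm
      obtain rfl : m = 0 := by omega
      rw [P, smul_zero]
      exact SP.zero hA0 _
  | succ i ih =>
    intro hi
    obtain ⟨hw, hm⟩ := ih (by omega)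
    have hden : den t p S (i + 1) = fac t p S i * den t p S i := by
      unfold den
      rw [Finset.prod_range_succ, mul_comm]
    have h26 : 2 ^ i ≤ (2 * W + 6) ^ i := Nat.pow_le_pow_left (by omega) i
    obtain ⟨T, hTdef⟩ : ∃ T, T = (2 * W + 6) ^ i := ⟨_, rfl⟩
    have hT1 : (2 * W + 6) ^ (i + 1) = (2 * W + 6) * T := by rw [pow_succ, hTdef, mul_comm]
    rw [← hTdef] at hm h26
    rw [hT1]
    have hold : ∀ m ≤ c i, SP t A (2 * T) (den t p S (i + 1) • P t a m) := by
      intro m hmm
      rw [hden, mul_smul]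
      exact SP.fac hA0 hA (hm m hmm) p S i
    refine ⟨fun w hwA => ?_, fun m hmm => ?_⟩
    · rw [hden, mul_smul, pow_succ, mul_comm (2 ^ i)]
      exact SP.fac hA0 hA (hw w hwA) p S i
    · by_cases hmi : m ≤ c i
      · exact (hold m hmi).mono hA0 (Nat.mul_le_mul_right _ (by omega))
      rcases hph i (by omega) with hlit | ⟨hnm, hp0, hpn, hcopy⟩
      · have e : m = c i + 1 := by omega
        have hai : a (c i) ∈ A := ha _ (by have := hcL (i + 1) hi; omega)
        have h1 := SP.fac hA0 hA (((hm (c i) le_rfl).pow 1).add (hw _ hai)) p S i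
        have e2 : den t p S (i + 1) • P t a m = fac t p S i •
            (t ^ 1 • den t p S i • P t a (c i) + den t p S i • a (c i)) := by
          rw [e, P, hden, mul_smul, smul_add (den t p S i), pow_one, smul_smul, smul_smul,
            mul_comm t]
        rw [e2]
        refine h1.mono hA0 ?_
        have : 2 * (T + 2 ^ i) ≤ 4 * T := by omega
        exact this.trans (Nat.mul_le_mul_right _ (by omega))
      · obtain ⟨l, rfl⟩ := Nat.exists_eq_add_of_le (le_of_not_ge hmi)
        by_cases hSi : S i
        · have hfac : fac t p S i = t ^ (p i) - 1 := by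
            unfold fac
            rw [if_pos ⟨hSi, hp0⟩]
          have hl : l = l % p i + p i * (l / p i) := (Nat.mod_add_div l (p i)).symm
          obtain ⟨r, hr⟩ : ∃ r, r = l % p i := ⟨_, rfl⟩
          obtain ⟨q, hq⟩ : ∃ q, q = l / p i := ⟨_, rfl⟩
          have hrp : r < p i := by rw [hr]; exact Nat.mod_lt _ hp0
          rw [← hr, ← hq] at hl
          have h1 := P_iter t a hp0 hpn hcopy r q (by rw [← hl]; exact hmm)
          rw [← hl] at h1
          have h2 := hm (c i - p i + r) (by omega)
          have h3 := hm (c i) le_rfl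
          have h4 := hm (c i - p i) (by omega)
          obtain ⟨D, hD⟩ : ∃ D, D = den t p S i := ⟨_, rfl⟩
          rw [← hD] at h2 h3 h4
          have e : den t p S (i + 1) • P t a (c i + l) =
              (t ^ (p i) • D • P t a (c i - p i + r) - D • P t a (c i - p i + r)) +
              ((t ^ (r + p i * (q + 1)) • D • P t a (c i) - t ^ r • D • P t a (c i)) -
              (t ^ (r + p i * (q + 1)) • D • P t a (c i - p i) -
                t ^ r • D • P t a (c i - p i))) := by
            rw [hden, hfac, ← hD, mul_comm, mul_smul, h1]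
            simp only [smul_sub, sub_smul, smul_add, one_smul, smul_smul]
            simp only [mul_comm D]
          rw [e]
          have h5 := ((h2.pow (p i)).sub hA h2).add
            ((((h3.pow (r + p i * (q + 1))).sub hA (h3.pow r))).sub hA
              ((h4.pow (r + p i * (q + 1))).sub hA (h4.pow r)))
          refine h5.mono hA0 ?_
          have : T + T + (T + T + (T + T)) = 6 * T := by ring
          rw [this]
          exact Nat.mul_le_mul_right _ (by omega)
        · have hfac : fac t p S i = 1 := by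
            unfold fac
            rw [if_neg (fun h => hSi h.1)]
          rw [hden, hfac, one_mul]
          have h1 := big_copy hA a hp0 hpn hcopy (den t p S i) hm l hmm
          refine h1.mono hA0 ?_
          have h2 : c (i + 1) ≤ W * p i := (hS i (by omega)).resolve_left hSi
          have h3 : l / p i ≤ W := by
            have : l ≤ W * p i := by omega
            exact Nat.div_le_of_le_mul (by rw [mul_comm]; exact this)
          calc T + 2 * T * (l / p i + 1) ≤ T + 2 * T * (W + 1) := by gcongr
            _ = (2 * W + 3) * T := by ring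
            _ ≤ (2 * W + 6) * T := Nat.mul_le_mul_right _ (by omega)

end Pool.Agent.R343.LI
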