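import Pool.Agent.R343.LI1
import Pool.Agent.Y215.AF.Main

set_option autoImplicit false
set_option linter.unusedSectionVars false

/-! # Integral points with Lempel-Ziv compressible coordinates: the height bound -/

namespace Pool.Agent.R343.LI

open Finset MvPolynomial NumberField Height Module
open Pool.Agent.Helper259.AbsHt Pool.Agent.TH409.SH Pool.Agent.Y215.SK Pool.Agent.W235.RM
open Pool.Agent.Y215.AF Pool.Agent.R343.LP

/-- `y = t ^ m * ∑ a_j t ^ (N - 1 - j)` for some `t`, not a root of unity, with a power in `Γ`, an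
integer `m` and a word `a_0, …, a_(N-1)` with at most `z` Lempel-Ziv phrases, with letters of height
at most `B`, and `N h(t) ≤ Λ` -/
def LZVal (Γ : Subgroup Qbarˣ) (z : ℕ) (B Λ : ℝ) (y : Qbar) : Prop :=
  ∃ (t : Qbarˣ) (a : ℕ → Qbar) (N : ℕ) (m : ℤ), t ∈ DivHull Γ ∧
    (∀ q, 0 < q → (t : Qbar) ^ q ≠ 1) ∧ LZ a N z ∧ (∀ j < N, h1 (a j) ≤ B) ∧
    N * h1 (t : Qbar) ≤ Λ ∧
    y = ((t ^ m : Qbarˣ) : Qbar) * ∑ j ∈ range N, (t : Qbar) ^ (N - 1 - j) * a j

theorem hull_zpow (Γ : Subgroup Qbarˣ) (t : Qbarˣ) (ht : t ∈ DivHull Γ) (m : ℤ) :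
    t ^ m ∈ DivHull Γ := by
  obtain ⟨k, hk, h⟩ := ht
  refine ⟨k, hk, ?_⟩
  rw [← zpow_natCast, ← zpow_mul, mul_comm, zpow_mul, zpow_natCast]
  exact Γ.zpow_mem h m

/-- letters and their negatives, and zero -/
def lets (a : ℕ → Qbar) (N : ℕ) : Set Qbar := {w | w = 0 ∨ ∃ q, q < N ∧ (w = a q ∨ w = - a q)}

theorem lets_neg (a : ℕ → Qbar) (N : ℕ) : ∀ w ∈ lets a N, -w ∈ lets a N := by
  rintro w (rfl | ⟨q, hq, rfl | rfl⟩)
  · left; simp
  · right; exact ⟨q, hq, Or.inr rfl⟩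
  · right; exact ⟨q, hq, Or.inl (neg_neg _)⟩

theorem lets_h (a : ℕ → Qbar) (N : ℕ) (B : ℝ) (hB : 0 ≤ B) (ha : ∀ j < N, h1 (a j) ≤ B) :
    ∀ w ∈ lets a N, h1 w ≤ B := by
  rintro w (rfl | ⟨q, hq, rfl | rfl⟩)
  · rw [h1_zero]; exact hB
  · exact ha q hq
  · rw [h1_neg]; exact ha q hq

theorem den_h (t : Qbar) (p : ℕ → ℕ) (S : ℕ → Prop) (E : ℝ) (hE : 0 ≤ E) :
    ∀ z : ℕ, (∀ k < z, S k → p k * h1 t ≤ E) →
      h1 (den t p S z) ≤ z * (E + Real.log 2) := by
  intro z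
  have hl : 0 ≤ Real.log 2 := Real.log_nonneg (by norm_num)
  induction z with
  | zero =>
    intro _
    rw [den, Finset.range_zero, Finset.prod_empty, h1_one]
    simp
  | succ z ih =>
    intro h
    have h2 := ih fun k hk => h k (by omega)
    have hden : den t p S (z + 1) = den t p S z * fac t p S z := by
      unfold den
      rw [Finset.prod_range_succ]
    rw [hden]
    refine (h1_mul_le _ _).trans ?_
    have h3 : h1 (fac t p S z) ≤ E + Real.log 2 := by
      unfold fac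
      split_ifs with hS
      · refine (h1_sub_le _ _).trans ?_
        rw [h1_pow, h1_one]
        have := h z (by omega) hS.1
        linarith
      · rw [h1_one]
        linarith
    push_cast
    linarith

/-- one coordinate -/
theorem coord (Γ : Subgroup Qbarˣ) (z W : ℕ) (B E : ℝ) (hB : 0 ≤ B) (hE : 0 ≤ E)
    (t : Qbarˣ) (a : ℕ → Qbar) (N : ℕ) (m : ℤ) (htΓ : t ∈ DivHull Γ)
    (ht : ∀ q, 0 < q → (t : Qbar) ^ q ≠ 1) (c p : ℕ → ℕ) (hc0 : c 0 = 0) (hcz : c z = N)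
    (hph : ∀ i < z, Ph a (c i) (c (i + 1)) (p i)) (ha : ∀ j < N, h1 (a j) ≤ B)
    (hb : ∀ k < z, (p k * h1 (t : Qbar) ≤ E) ∨ N ≤ W * p k) :
    ∃ (u : Fin ((2 * W + 6) ^ z) → Qbarˣ) (v : Fin ((2 * W + 6) ^ z) → Qbar),
      (∀ j, u j ∈ DivHull Γ) ∧ (∀ j, h1 (v j) ≤ B + z * (E + Real.log 2)) ∧
      ((t ^ m : Qbarˣ) : Qbar) * ∑ j ∈ range N, (t : Qbar) ^ (N - 1 - j) * a j =
        ∑ j, (u j : Qbar) * v j := by
  have hcmono : ∀ i < z, c i ≤ c (i + 1) := by
    intro i hi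
    rcases hph i hi with h | ⟨h, _⟩
    · omega
    · exact h
  have hcL : ∀ i ≤ z, c i ≤ N := by
    intro i hi
    rw [← hcz]
    have : ∀ j, i + j ≤ z → c i ≤ c (i + j) := by
      intro j
      induction j with
      | zero => intro _; exact le_rfl
      | succ j ih =>
        intro hj
        exact (ih (by omega)).trans (hcmono (i + j) (by omega))
    have h1 := this (z - i) (by omega)
    have h2 : i + (z - i) = z := by omega
    rwa [h2] at h1
  let S : ℕ → Prop := fun k => p k * h1 (t : Qbar) ≤ E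
  obtain ⟨-, hm⟩ := mixed (t : Qbar) a (lets a N) (Or.inl rfl) (lets_neg a N) c p hc0 z N W
    (fun j hj => Or.inr ⟨j, hj, Or.inl rfl⟩) hcL hph S
    (fun i hi => (hb i hi).imp id fun h => (hcL (i + 1) (by omega)).trans h) z le_rfl
  obtain ⟨l, v, hv, he⟩ := hm N (by rw [hcz])
  set D := den (t : Qbar) p S z with hD
  have hD0 : D ≠ 0 := den_ne ht p S z
  have hDh : h1 D ≤ z * (E + Real.log 2) := den_h _ p S E hE z fun k _ h => h
  refine ⟨fun j => t ^ (m + (l j : ℤ)), fun j => v j / D, fun j => hull_zpow Γ t htΓ _,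
    fun j => ?_, ?_⟩
  · refine (h1_div_le _ _).trans ?_
    have := lets_h a N B hB ha _ (hv j)
    linarith
  · have h2 : P (t : Qbar) a N = ∑ j, (t : Qbar) ^ (l j) * (v j / D) := by
      have h3 : D * P (t : Qbar) a N = ∑ j, (t : Qbar) ^ (l j) * v j := he
      have h4 : ∑ j, (t : Qbar) ^ (l j) * (v j / D) = (∑ j, (t : Qbar) ^ (l j) * v j) / D := by
        rw [Finset.sum_div]
        exact Finset.sum_congr rfl fun j _ => by rw [mul_div_assoc]
      rw [h4, ← h3, mul_div_cancel_left₀ _ hD0]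
    have h5 : ∑ j ∈ range N, (t : Qbar) ^ (N - 1 - j) * a j = P (t : Qbar) a N := by
      rw [P_eq]
      rfl
    rw [h5, h2, Finset.mul_sum]
    refine Finset.sum_congr rfl fun j _ => ?_
    show _ = ((t ^ (m + (l j : ℤ)) : Qbarˣ) : Qbar) * (v j / D)
    rw [zpow_add, Units.val_mul, zpow_natCast, Units.val_pow_eq_pow_val, mul_assoc]

variable {K : Type} [Field K] [NumberField K] {ι κ : Type} {n : ℕ}
  (F : ι → MvPolynomial (Fin n) (𝓞 K)) (G : κ → MvPolynomial (Fin n) (𝓞 K))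

theorem hAV_le {r : ℕ} (V : Fin r → Fin n → Qbar) (B : ℝ) (h : ∀ j a, h1 (V j a) ≤ B) :
    hAV V ≤ (r * n : ℕ) * B := by
  classical
  unfold hAV hA
  refine (height_le_sum _).trans ?_
  rw [Fintype.sum_option]
  simp only [Option.elim]
  rw [h1_one, zero_add]
  refine (Finset.sum_le_card_nsmul _ _ B fun p _ => h _ _).trans ?_
  rw [nsmul_eq_mul]
  simp

theorem direct (hH : HullHeights F G) [Algebra K Qbar] (Γ : Subgroup Qbarˣ) (hΓ : Γ.FG)
    (z T : ℕ) : ∃ C : ℝ, 0 ≤ C ∧ ∀ (B E : ℝ), 0 ≤ B → 0 ≤ E → ∀ x : Fin n → Qbar, OffPt F G x →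
      (∀ i, ∃ (u : Fin T → Qbarˣ) (v : Fin T → Qbar), (∀ j, u j ∈ DivHull Γ) ∧
        (∀ j, h1 (v j) ≤ B + z * (E + Real.log 2)) ∧ x i = ∑ j, (u j : Qbar) * v j) →
      hA x ≤ C * (1 + B + E) := by
  classical
  obtain ⟨C, hC⟩ := hH (n * T) Γ hΓ
  have hl : 0 ≤ Real.log 2 := Real.log_nonneg (by norm_num)
  obtain ⟨R, hR⟩ : ∃ R : ℝ, R = ((n * T * n : ℕ) : ℝ) := ⟨_, rfl⟩
  have hR0 : 0 ≤ R := by rw [hR]; exact Nat.cast_nonneg _
  have hz0 : (0 : ℝ) ≤ z := Nat.cast_nonneg z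
  refine ⟨|C| * (1 + R * (1 + z + z * Real.log 2)), by positivity, ?_⟩
  intro B E hB hE x hx hrep
  choose u v hu hv hxe using hrep
  have hsum : ∀ a, x a = ∑ j, ((u (finProdFinEquiv.symm j).1 (finProdFinEquiv.symm j).2 : Qbarˣ) :
      Qbar) * (if (finProdFinEquiv.symm j).1 = a then
        v (finProdFinEquiv.symm j).1 (finProdFinEquiv.symm j).2 else 0) := by
    intro a
    rw [← Equiv.sum_comp finProdFinEquiv, Fintype.sum_prod_type]
    simp only [Equiv.symm_apply_apply]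
    rw [Finset.sum_eq_single a]
    · rw [hxe a]
      simp only [if_true]
    · intro b _ hb
      refine Finset.sum_eq_zero fun j _ => ?_
      rw [if_neg hb, mul_zero]
    · intro h
      exact absurd (Finset.mem_univ _) h
  have hxf : (fun a => ∑ j, ((u (finProdFinEquiv.symm j).1 (finProdFinEquiv.symm j).2 : Qbarˣ) :
      Qbar) * (if (finProdFinEquiv.symm j).1 = a then
        v (finProdFinEquiv.symm j).1 (finProdFinEquiv.symm j).2 else 0)) = x :=
    funext fun a => (hsum a).symm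
  have h1 := hC (fun j => u (finProdFinEquiv.symm j).1 (finProdFinEquiv.symm j).2)
    (fun j a => if (finProdFinEquiv.symm j).1 = a then
        v (finProdFinEquiv.symm j).1 (finProdFinEquiv.symm j).2 else 0) (fun j => hu _ _)
    (by rw [hxf]; exact hx)
  rw [hxf] at h1
  have hE1 : 0 ≤ B + z * (E + Real.log 2) := by positivity
  have h2 : hAV (fun (j : Fin (n * T)) (a : Fin n) => if (finProdFinEquiv.symm j).1 = a then
        v (finProdFinEquiv.symm j).1 (finProdFinEquiv.symm j).2 else 0) ≤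
        ((n * T) * n : ℕ) * (B + z * (E + Real.log 2)) := by
    refine hAV_le _ _ fun j a => ?_
    by_cases h : (finProdFinEquiv.symm j).1 = a
    · simp only [if_pos h]
      exact hv _ _
    · simp only [if_neg h]
      rw [h1_zero]
      exact hE1
  rw [← hR] at h2
  refine h1.trans ?_
  have h3 : (1 : ℝ) + R * (B + z * (E + Real.log 2)) ≤
      (1 + R * (1 + z + z * Real.log 2)) * (1 + B + E) := by
    have e1 : 0 ≤ R * z := by positivity
    have e2 : 0 ≤ R * z * Real.log 2 := by positivity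
    nlinarith [mul_nonneg hR0 hB, mul_nonneg hR0 hE, mul_nonneg e1 hB, mul_nonneg e1 hE,
      mul_nonneg e2 hB, mul_nonneg e2 hE]
  have h9 := hAV_nonneg (fun (j : Fin (n * T)) (a : Fin n) => if (finProdFinEquiv.symm j).1 = a then
        v (finProdFinEquiv.symm j).1 (finProdFinEquiv.symm j).2 else 0)
  calc C * (1 + hAV _) ≤ |C| * (1 + hAV _) :=
        mul_le_mul_of_nonneg_right (le_abs_self C) (by linarith)
    _ ≤ |C| * ((1 + R * (1 + z + z * Real.log 2)) * (1 + B + E)) :=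
        mul_le_mul_of_nonneg_left (by linarith) (abs_nonneg C)
    _ = _ := by ring

/-- the data of a point with compressible coordinates -/
def Data [Algebra K Qbar] (Γ : Subgroup Qbarˣ) (z : ℕ) (M B : ℝ) (x : Fin n → Qbar)
    (t : Fin n → Qbarˣ) (a : Fin n → ℕ → Qbar) (N : Fin n → ℕ) (m : Fin n → ℤ)
    (c p : Fin n → ℕ → ℕ) : Prop :=
  OffPt F G x ∧ ∀ i, t i ∈ DivHull Γ ∧ (∀ q, 0 < q → (t i : Qbar) ^ q ≠ 1) ∧ c i 0 = 0 ∧
    c i z = N i ∧ (∀ k < z, Ph (a i) (c i k) (c i (k + 1)) (p i k)) ∧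
    (∀ j < N i, h1 (a i j) ≤ B) ∧ N i * h1 (t i : Qbar) ≤ M * (1 + hA x) ∧
    x i = ((t i ^ m i : Qbarˣ) : Qbar) * ∑ j ∈ range (N i), (t i : Qbar) ^ (N i - 1 - j) * a i j

theorem nomid (hH : HullHeights F G) [Algebra K Qbar] (Γ : Subgroup Qbarˣ) (hΓ : Γ.FG)
    (z : ℕ) (M : ℝ) (hM : 0 ≤ M) (δ : ℝ) (hδ : 0 < δ) :
    ∃ δ' : ℝ, 0 < δ' ∧ δ' ≤ δ ∧ ∃ C : ℝ, 0 ≤ C ∧ ∀ B : ℝ, 0 ≤ B →
      ∀ (x : Fin n → Qbar) t a N m c p, Data F G Γ z M B x t a N m c p →
      (∀ i, ∀ k < z, p i k * h1 (t i : Qbar) < δ' * (1 + hA x) ∨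
        δ * (1 + hA x) ≤ p i k * h1 (t i : Qbar)) → hA x ≤ C * (1 + B) := by
  obtain ⟨C, hC0, hC⟩ := direct F G hH Γ hΓ z ((2 * ⌈M / δ⌉₊ + 6) ^ z)
  have hC1 : (0 : ℝ) < 2 * (C + 1) := by linarith
  refine ⟨min δ (1 / (2 * (C + 1))), lt_min hδ (by positivity), min_le_left _ _,
    2 * C + 1, by linarith, ?_⟩
  intro B hB x t a N m c p hdat hmid
  obtain ⟨hx, hd⟩ := hdat
  have hx0 := hA_nonneg x
  set δ' := min δ (1 / (2 * (C + 1))) with hδ'
  have hδ'0 : 0 < δ' := lt_min hδ (by positivity)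
  have hδ'1 : C * δ' ≤ 1 / 2 := by
    have h1 : δ' ≤ 1 / (2 * (C + 1)) := min_le_right _ _
    calc C * δ' ≤ (C + 1) * (1 / (2 * (C + 1))) := by
          apply mul_le_mul (by linarith) h1 hδ'0.le (by linarith)
      _ = 1 / 2 := by field_simp
  have h1 := hC B (δ' * (1 + hA x)) hB (by positivity) x hx (fun i => ?_)
  · have h2 : C * (1 + B + δ' * (1 + hA x)) = C * (1 + B) + (C * δ') * (1 + hA x) := by ring
    rw [h2] at h1
    have h3 : (C * δ') * (1 + hA x) ≤ 1 / 2 * (1 + hA x) :=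
      mul_le_mul_of_nonneg_right hδ'1 (by linarith)
    nlinarith
  · obtain ⟨k1, k2, k3, k4, k5, k6, k7, k8⟩ := hd i
    have hbb : ∀ k < z, (p i k * h1 (t i : Qbar) ≤ δ' * (1 + hA x)) ∨
        N i ≤ ⌈M / δ⌉₊ * p i k := by
      intro k hk
      rcases hmid i k hk with h | h
      · exact Or.inl h.le
      · right
        have hpos : 0 < δ * (1 + hA x) := by positivity
        have hh : 0 < h1 (t i : Qbar) := by
          by_contra hcon
          have e : h1 (t i : Qbar) = 0 := le_antisymm (not_lt.1 hcon) (h1_nonneg _)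
          rw [e, mul_zero] at h
          linarith
        have e1 : (N i : ℝ) * h1 (t i : Qbar) ≤ (M / δ * p i k) * h1 (t i : Qbar) := by
          refine k7.trans ?_
          calc M * (1 + hA x) = M / δ * (δ * (1 + hA x)) := by field_simp
            _ ≤ M / δ * (p i k * h1 (t i : Qbar)) :=
                mul_le_mul_of_nonneg_left h (by positivity)
            _ = _ := by ring
        have e2 : (N i : ℝ) ≤ M / δ * p i k := le_of_mul_le_mul_right e1 hh
        have e3 : (N i : ℝ) ≤ (⌈M / δ⌉₊ * p i k : ℕ) := by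
          push_cast
          refine e2.trans ?_
          exact mul_le_mul_of_nonneg_right (Nat.le_ceil _) (Nat.cast_nonneg _)
        exact_mod_cast e3
    obtain ⟨u, v, hu, hv, he⟩ := coord Γ z ⌈M / δ⌉₊ B (δ' * (1 + hA x)) hB (by positivity) (t i)
      (a i) (N i) (m i) k1 k2 (c i) (p i) k3 k4 k5 k6 hbb
    refine ⟨u, v, hu, hv, ?_⟩
    rw [k8, he]

open Classical in
theorem claim (hH : HullHeights F G) [Algebra K Qbar] (Γ : Subgroup Qbarˣ) (hΓ : Γ.FG)
    (z : ℕ) (M : ℝ) (hM : 0 ≤ M) : ∀ (s : ℕ) (δ : ℝ), 0 < δ → ∃ C : ℝ, 0 ≤ C ∧ ∀ B : ℝ, 0 ≤ B →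
      ∀ (x : Fin n → Qbar) t a N m c p, Data F G Γ z M B x t a N m c p →
      (Finset.univ.filter fun q : Fin n × Fin z =>
        p q.1 q.2 * h1 (t q.1 : Qbar) < δ * (1 + hA x)).card ≤ s → hA x ≤ C * (1 + B) := by
  intro s
  induction s with
  | zero =>
    intro δ hδ
    obtain ⟨δ', h0, hle, C, hC0, hC⟩ := nomid F G hH Γ hΓ z M hM δ hδ
    refine ⟨C, hC0, fun B hB x t a N m c p hd hcard => hC B hB x t a N m c p hd ?_⟩
    intro i k hk
    right
    by_contra hcon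
    have : (i, (⟨k, hk⟩ : Fin z)) ∈ (Finset.univ.filter fun q : Fin n × Fin z =>
        p q.1 q.2 * h1 (t q.1 : Qbar) < δ * (1 + hA x)) := by
      rw [Finset.mem_filter]
      exact ⟨Finset.mem_univ _, not_le.1 hcon⟩
    have h2 := Finset.card_pos.2 ⟨_, this⟩
    omega
  | succ s ih =>
    intro δ hδ
    obtain ⟨δ', h0, hle, C, hC0, hC⟩ := nomid F G hH Γ hΓ z M hM δ hδ
    obtain ⟨C', hC0', hC'⟩ := ih δ' h0
    refine ⟨max C C', le_max_of_le_left hC0, fun B hB x t a N m c p hd hcard => ?_⟩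
    have hx0 := hA_nonneg x
    by_cases hmid : ∀ i, ∀ k < z, p i k * h1 (t i : Qbar) < δ' * (1 + hA x) ∨
        δ * (1 + hA x) ≤ p i k * h1 (t i : Qbar)
    · refine (hC B hB x t a N m c p hd hmid).trans ?_
      exact mul_le_mul_of_nonneg_right (le_max_left _ _) (by linarith)
    · push Not at hmid
      obtain ⟨i, k, hk, h3, h4⟩ := hmid
      refine (hC' B hB x t a N m c p hd ?_).trans
        (mul_le_mul_of_nonneg_right (le_max_right _ _) (by linarith))
      have hss : (Finset.univ.filter fun q : Fin n × Fin z =>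
          p q.1 q.2 * h1 (t q.1 : Qbar) < δ' * (1 + hA x)) ⊂
          (Finset.univ.filter fun q : Fin n × Fin z =>
          p q.1 q.2 * h1 (t q.1 : Qbar) < δ * (1 + hA x)) := by
        rw [Finset.ssubset_iff_of_subset]
        · refine ⟨(i, ⟨k, hk⟩), ?_, ?_⟩
          · rw [Finset.mem_filter]
            exact ⟨Finset.mem_univ _, h4⟩
          · rw [Finset.mem_filter]
            rintro ⟨_, h5⟩
            exact absurd h5 (not_lt.2 h3)
        · intro q hq
          rw [Finset.mem_filter] at hq ⊢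
          refine ⟨Finset.mem_univ _, hq.2.trans_le ?_⟩
          exact mul_le_mul_of_nonneg_right hle (by linarith)
      have := Finset.card_lt_card hss
      omega

/-- The points of `V` outside `V'` over `Qbar` all of whose coordinates are compressible: their
heights are bounded, linearly in the heights of the letters. -/
def LZHeights (F : ι → MvPolynomial (Fin n) (𝓞 K)) (G : κ → MvPolynomial (Fin n) (𝓞 K)) : Prop :=
  ∀ [Algebra K Qbar] (Γ : Subgroup Qbarˣ), Γ.FG → ∀ (z : ℕ) (M : ℝ), ∃ C : ℝ, ∀ B : ℝ, 0 ≤ B →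
    ∀ x : Fin n → Qbar, OffPt F G x → (∀ i, LZVal Γ z B (M * (1 + hA x)) (x i)) →
      hA x ≤ C * (1 + B)

theorem lzHeights (hH : HullHeights F G) : LZHeights F G := by
  classical
  intro _ Γ hΓ z M
  obtain ⟨C, hC0, hC⟩ := claim F G hH Γ hΓ z |M| (abs_nonneg M) (n * z) 1 one_pos
  refine ⟨C, fun B hB x hx h => ?_⟩
  choose t a N m h1 h2 h3 h4 h5 h6 using h
  have h3' : ∀ i, ∃ c p : ℕ → ℕ, c 0 = 0 ∧ c z = N i ∧ ∀ k < z, Ph (a i) (c k) (c (k + 1)) (p k) := by
    intro i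
    obtain ⟨c, hc0, hcz, hph⟩ := h3 i
    have : ∀ k, ∃ p, k < z → Ph (a i) (c k) (c (k + 1)) p := by
      intro k
      by_cases hk : k < z
      · rcases hph k hk with h | ⟨h, p, hp0, hp1, hp2⟩
        · exact ⟨0, fun _ => Or.inl h⟩
        · exact ⟨p, fun _ => Or.inr ⟨h, hp0, hp1, hp2⟩⟩
      · exact ⟨0, fun h => absurd h hk⟩
    choose p hp using this
    exact ⟨c, p, hc0, hcz, hp⟩
  choose c p hc0 hcz hph using h3'
  have hx0 := hA_nonneg x
  refine hC B hB x t a N m c p ⟨hx, fun i => ⟨h1 i, h2 i, hc0 i, hcz i, hph i, h4 i, ?_, h6 i⟩⟩ ?_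
  · refine (h5 i).trans ?_
    exact mul_le_mul_of_nonneg_right (le_abs_self M) (by linarith)
  · refine (Finset.card_le_univ _).trans ?_
    simp

end Pool.Agent.R343.LI
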