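import Pool.Agent.R343.LI2

set_option autoImplicit false
set_option linter.unusedSectionVars false

/-! # Compressible points on Laurent curves -/

namespace Pool.Agent.R343.LI

open Finset Height Module NumberField
open Pool.Agent.R343.LP

/-! ## words with long runs of zeros -/

/-- the word with the letters `co 0, co 1, …` at the multiples of `m`, and zeros elsewhere -/
def blockWord {α : Type} [Zero α] (co : ℕ → α) (m : ℕ) (j : ℕ) : α :=
  if m ∣ j then co (j / m) else 0

/-- the cuts of the word -/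
def cuts (m k : ℕ) : ℕ := (k / 3) * m + k % 3

theorem block_lz {α : Type} [Zero α] (co : ℕ → α) (m D : ℕ) (hm : 2 ≤ m) :
    LZ (blockWord co m) (m * D + 1) (3 * D + 1) := by
  refine ⟨cuts m, by simp [cuts], ?_, ?_⟩
  · unfold cuts
    have h1 : (3 * D + 1) / 3 = D := by omega
    have h2 : (3 * D + 1) % 3 = 1 := by omega
    rw [h1, h2, mul_comm]
  · intro k hk
    obtain ⟨b, r, hr, rfl⟩ : ∃ b r, r < 3 ∧ k = 3 * b + r :=
      ⟨k / 3, k % 3, Nat.mod_lt _ (by norm_num), by omega⟩
    have hc : ∀ b r, r < 3 → cuts m (3 * b + r) = b * m + r := by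
      intro b r hr
      unfold cuts
      have h1 : (3 * b + r) / 3 = b := by omega
      have h2 : (3 * b + r) % 3 = r := by omega
      rw [h1, h2]
    rcases (by omega : r = 0 ∨ r = 1 ∨ r = 2) with h | h | h
    · subst h
      left
      rw [hc b 0 (by norm_num), hc b 1 (by norm_num)]
    · subst h
      left
      rw [hc b 1 (by norm_num), show 3 * b + 1 + 1 = 3 * b + 2 by ring, hc b 2 (by norm_num)]
    · subst h
      right
      have e : 3 * b + 2 + 1 = 3 * (b + 1) + 0 := by ring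
      rw [hc b 2 (by norm_num), e, hc (b + 1) 0 (by norm_num)]
      have e2 : (b + 1) * m = b * m + m := by ring
      rw [e2]
      refine ⟨by omega, 1, one_pos, by omega, ?_⟩
      intro j hj1 hj2
      have hnd : ∀ i, b * m < i → i < b * m + m → ¬ m ∣ i := by
        rintro i h1 h2 ⟨q, rfl⟩
        have h3 : b < q := by
          by_contra hcon
          have : m * q ≤ b * m := by
            rw [mul_comm]
            exact Nat.mul_le_mul_right m (not_lt.1 hcon)
          omega
        have h4 : (b + 1) * m ≤ m * q := by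
          rw [mul_comm m q]
          exact Nat.mul_le_mul_right m h3
        rw [e2] at h4
        omega
      unfold blockWord
      rw [if_neg (hnd j (by omega) (by omega)), if_neg (hnd (j - 1) (by omega) (by omega))]

theorem block_sum {L : Type} [Field L] (R : Polynomial L) (D m : ℕ) (hm : 0 < m)
    (hR : R.natDegree ≤ D) (b : L) :
    ∑ j ∈ range (m * D + 1), b ^ (m * D + 1 - 1 - j) *
      blockWord (fun k => R.coeff (D - k)) m j = R.eval (b ^ m) := by
  classical
  have h1 : ∑ j ∈ range (m * D + 1), b ^ (m * D + 1 - 1 - j) *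
      blockWord (fun k => R.coeff (D - k)) m j =
      ∑ j ∈ (range (m * D + 1)).filter (fun j => m ∣ j), b ^ (m * D - j) * R.coeff (D - j / m) := by
    rw [Finset.sum_filter]
    refine Finset.sum_congr rfl fun j _ => ?_
    unfold blockWord
    rw [Nat.add_sub_cancel]
    split_ifs
    · rfl
    · rw [mul_zero]
  have h2 : (range (m * D + 1)).filter (fun j => m ∣ j) = (range (D + 1)).image (fun k => m * k) := by
    ext j
    simp only [Finset.mem_filter, Finset.mem_range, Finset.mem_image]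
    constructor
    · rintro ⟨h, q, rfl⟩
      refine ⟨q, ?_, rfl⟩
      have : m * q ≤ m * D := by omega
      have := Nat.le_of_mul_le_mul_left this hm
      omega
    · rintro ⟨q, hq, rfl⟩
      refine ⟨?_, dvd_mul_right _ _⟩
      have : m * q ≤ m * D := Nat.mul_le_mul_left m (by omega)
      omega
  rw [h1, h2, Finset.sum_image (fun x _ y _ h => Nat.eq_of_mul_eq_mul_left hm h),
    Polynomial.eval_eq_sum_range' (Nat.lt_succ_of_le hR),
    ← Finset.sum_range_reflect (fun q => R.coeff q * (b ^ m) ^ q)]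
  refine Finset.sum_congr rfl fun k hk => ?_
  have hk' := Finset.mem_range.1 hk
  have e : D.succ - 1 - k = D - k := by omega
  rw [Nat.mul_div_cancel_left _ hm, ← Nat.mul_sub, pow_mul, mul_comm, e]

/-! ## growth of polynomials -/

theorem growth (R : Polynomial ℂ) (hR : R ≠ 0) : ∃ c : ℝ, 0 < c ∧ ∃ C : ℝ, ∀ s : ℝ, 1 ≤ s →
    s ^ R.natDegree * (c * s - C) ≤ s * ‖R.eval (s : ℂ)‖ := by
  refine ⟨‖R.leadingCoeff‖, norm_pos_iff.2 (Polynomial.leadingCoeff_ne_zero.2 hR),
    ∑ i ∈ range R.natDegree, ‖R.coeff i‖, fun s hs => ?_⟩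
  have hs0 : 0 < s := by linarith
  have h1 : R.eval (s : ℂ) = ∑ i ∈ range R.natDegree, R.coeff i * (s : ℂ) ^ i +
      R.leadingCoeff * (s : ℂ) ^ R.natDegree := by
    rw [Polynomial.eval_eq_sum_range, Finset.sum_range_succ]
    rfl
  have h2 : ‖∑ i ∈ range R.natDegree, R.coeff i * (s : ℂ) ^ i‖ * s ≤
      (∑ i ∈ range R.natDegree, ‖R.coeff i‖) * s ^ R.natDegree := by
    refine (mul_le_mul_of_nonneg_right (norm_sum_le _ _) hs0.le).trans ?_
    rw [Finset.sum_mul, Finset.sum_mul]
    refine Finset.sum_le_sum fun i hi => ?_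
    have hi' := Finset.mem_range.1 hi
    rw [norm_mul, norm_pow, Complex.norm_real, Real.norm_of_nonneg hs0.le, mul_assoc, ← pow_succ]
    exact mul_le_mul_of_nonneg_left (pow_le_pow_right₀ hs (by omega)) (norm_nonneg _)
  have h3 : ‖R.leadingCoeff * (s : ℂ) ^ R.natDegree‖ = ‖R.leadingCoeff‖ * s ^ R.natDegree := by
    rw [norm_mul, norm_pow, Complex.norm_real, Real.norm_of_nonneg hs0.le]
  have h4 : ‖R.leadingCoeff * (s : ℂ) ^ R.natDegree‖ -
      ‖∑ i ∈ range R.natDegree, R.coeff i * (s : ℂ) ^ i‖ ≤ ‖R.eval (s : ℂ)‖ := by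
    rw [h1, add_comm]
    have := norm_sub_norm_le (R.leadingCoeff * (s : ℂ) ^ R.natDegree)
      (-(∑ i ∈ range R.natDegree, R.coeff i * (s : ℂ) ^ i))
    rw [norm_neg, sub_neg_eq_add] at this
    exact this
  have h5 := mul_le_mul_of_nonneg_left h4 hs0.le
  rw [h3] at h5
  nlinarith

/-- heights along a Laurent curve at the powers of `b` -/
theorem height_growth {L : Type} [Field L] [NumberField L] (R : Polynomial L) (hR : R ≠ 0) (E : ℤ)
    (hE : 1 ≤ (R.natDegree : ℤ) + E) (b : ℕ) (hb : 2 ≤ b) :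
    ∃ C : ℝ, 0 ≤ C ∧ ∀ m : ℕ, (m : ℝ) ≤
      C * (1 + logHeight₁ (((b : L) ^ m) ^ E * R.eval ((b : L) ^ m))) := by
  obtain ⟨ψ⟩ : Nonempty (L →+* ℂ) := inferInstance
  have hRψ : R.map ψ ≠ 0 := (Polynomial.map_ne_zero_iff ψ.injective).2 hR
  obtain ⟨c, hc, C, h⟩ := growth (R.map ψ) hRψ
  rw [Polynomial.natDegree_map] at h
  have hb1 : (1 : ℝ) < b := by exact_mod_cast (by omega : 1 < b)
  have hb0 : (0 : ℝ) < b := by linarith
  have hlb : 0 < Real.log b := Real.log_pos hb1
  have key : ∀ m : ℕ, c * (b : ℝ) ^ m - C ≤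
      Real.exp (logHeight₁ (((b : L) ^ m) ^ E * R.eval ((b : L) ^ m))) := by
    intro m
    refine le_trans ?_ (Pool.Agent.Y215.SK.place_le_height (InfinitePlace.mk ψ) _)
    rw [InfinitePlace.apply]
    by_cases hneg : c * (b : ℝ) ^ m - C ≤ 0
    · exact hneg.trans (norm_nonneg _)
    rw [not_le] at hneg
    have hs1 : (1 : ℝ) ≤ (b : ℝ) ^ m := one_le_pow₀ hb1.le
    have hs0 : (0 : ℝ) < (b : ℝ) ^ m := by positivity
    have h1 := h ((b : ℝ) ^ m) hs1
    have hψb : ψ ((b : L) ^ m) = (((b : ℝ) ^ m : ℝ) : ℂ) := by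
      rw [map_pow, map_natCast]
      push_cast
      rfl
    have h2 : ψ (((b : L) ^ m) ^ E * R.eval ((b : L) ^ m)) =
        ((((b : ℝ) ^ m : ℝ) : ℂ)) ^ E * (R.map ψ).eval ((((b : ℝ) ^ m : ℝ) : ℂ)) := by
      rw [map_mul, map_zpow₀, hψb, ← hψb, Polynomial.eval_map, Polynomial.eval₂_at_apply]
    rw [h2, norm_mul, norm_zpow, Complex.norm_real, Real.norm_of_nonneg hs0.le]
    set s : ℝ := (b : ℝ) ^ m with hs
    have h3 : s ^ E * (s ^ R.natDegree * (c * s - C)) ≤ s ^ E * (s * ‖(R.map ψ).eval (s : ℂ)‖) :=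
      mul_le_mul_of_nonneg_left h1 (zpow_nonneg hs0.le _)
    have h4 : s ^ E * (s ^ R.natDegree * (c * s - C)) = s * (s ^ (E + R.natDegree - 1) *
        (c * s - C)) := by
      have : s ^ (E + R.natDegree - 1) = s ^ E * s ^ R.natDegree / s := by
        rw [zpow_sub_one₀ hs0.ne', zpow_add₀ hs0.ne', zpow_natCast]
        rfl
      rw [this]
      field_simp
    rw [h4] at h3
    have h5 : s ^ (E + R.natDegree - 1) * (c * s - C) ≤ s ^ E * ‖(R.map ψ).eval (s : ℂ)‖ := by
      have e : s ^ E * (s * ‖(R.map ψ).eval (s : ℂ)‖) = s * (s ^ E * ‖(R.map ψ).eval (s : ℂ)‖) := by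
        ring
      rw [e] at h3
      exact le_of_mul_le_mul_left h3 hs0
    refine le_trans ?_ h5
    have h6 : (1 : ℝ) ≤ s ^ (E + R.natDegree - 1) := one_le_zpow₀ hs1 (by omega)
    nlinarith
  have hlog2 : (1 : ℝ) / 2 ≤ Real.log b := by
    have h1 : Real.log 2 ≤ Real.log b := Real.log_le_log (by norm_num) (by exact_mod_cast hb)
    have := Real.log_two_gt_d9
    linarith
  obtain ⟨C0, hC0⟩ : ∃ C0 : ℝ, C0 = max 1 (2 * |Real.log (c / 2)| + 2 * |Real.log (2 * |C| / c + 1)| +
    2) := ⟨_, rfl⟩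
  refine ⟨C0, by rw [hC0]; exact le_max_of_le_left (by norm_num), fun m => ?_⟩
  set H := logHeight₁ (((b : L) ^ m) ^ E * R.eval ((b : L) ^ m)) with hH
  have hH0 : 0 ≤ H := zero_le_logHeight₁ _
  have hC1 : 2 * |Real.log (c / 2)| + 2 * |Real.log (2 * |C| / c + 1)| + 2 ≤ C0 := by
    rw [hC0]; exact le_max_right _ _
  have hbm : Real.log ((b : ℝ) ^ m) = m * Real.log b := Real.log_pow _ _
  by_cases hcase : (b : ℝ) ^ m ≤ 2 * |C| / c + 1
  · have h1 : m * Real.log b ≤ Real.log (2 * |C| / c + 1) := by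
      rw [← hbm]
      exact Real.log_le_log (by positivity) hcase
    have h2 : (m : ℝ) ≤ 2 * |Real.log (2 * |C| / c + 1)| := by
      have h3 := le_abs_self (Real.log (2 * |C| / c + 1))
      have h4 : (m : ℝ) * (1 / 2) ≤ m * Real.log b :=
        mul_le_mul_of_nonneg_left hlog2 (Nat.cast_nonneg m)
      linarith
    have h5 := abs_nonneg (Real.log (c / 2))
    nlinarith
  · rw [not_le] at hcase
    have h1 : c / 2 * (b : ℝ) ^ m ≤ c * (b : ℝ) ^ m - C := by
      have h2 : 2 * |C| ≤ c * (b : ℝ) ^ m := by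
        have h3 : 2 * |C| / c ≤ (b : ℝ) ^ m := by linarith
        rw [div_le_iff₀ hc] at h3
        linarith
      have := le_abs_self C
      linarith
    have h2 : c / 2 * (b : ℝ) ^ m ≤ Real.exp H := h1.trans (key m)
    have h3 : Real.log (c / 2) + m * Real.log b ≤ H := by
      rw [← hbm, ← Real.log_mul (by positivity) (by positivity)]
      rw [Real.log_le_iff_le_exp (by positivity)]
      exact h2
    have h4 : (m : ℝ) * (1 / 2) ≤ m * Real.log b :=
      mul_le_mul_of_nonneg_left hlog2 (Nat.cast_nonneg m)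
    have h5 := neg_abs_le (Real.log (c / 2))
    have h6 := abs_nonneg (Real.log (2 * |C| / c + 1))
    nlinarith [abs_nonneg (Real.log (c / 2))]

end Pool.Agent.R343.LI
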