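import Pool.Agent.R343.LI3

set_option autoImplicit false
set_option linter.unusedSectionVars false

/-! # Integral points with Lempel-Ziv compressible coordinates: the equivalence -/

namespace Pool.Agent.R343.LI

open Finset MvPolynomial NumberField Height Module
open Pool.Agent.Helper259.AbsHt Pool.Agent.TH409.SH Pool.Agent.Y215.SK Pool.Agent.W235.RM
open Pool.Agent.Y215.AF Pool.Agent.R343.LP
open Pool.Agent.H159R3.Exp (Laur ExpCurvesIn FinitelyManyIntegral)

variable {K : Type} [Field K] [NumberField K] {ι κ : Type} {n : ℕ}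
  (σ : K →+* ℂ) (F : ι → MvPolynomial (Fin n) (𝓞 K)) (G : κ → MvPolynomial (Fin n) (𝓞 K))

/-- The points of `V` outside `V'` over a number field all of whose coordinates are compressible
are finite in number. -/
def LZRational (F : ι → MvPolynomial (Fin n) (𝓞 K)) (G : κ → MvPolynomial (Fin n) (𝓞 K)) : Prop :=
  ∀ [Algebra K Qbar] (Γ : Subgroup Qbarˣ), Γ.FG → ∀ (z : ℕ) (M B : ℝ) (L : Type) [Field L]
    [NumberField L] (φ : L →+* Qbar),
    {x : Fin n → L | OffPt F G (fun a => φ (x a)) ∧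
      ∀ i, LZVal Γ z B (M * (1 + hA (fun a => φ (x a)))) (φ (x i))}.Finite

/-- The points `x` of `V` outside `V'` over a number field `L` whose coordinates have the form
`b ^ m * ∑ a_j b ^ (N - 1 - j)`, where the word `a_0, …, a_(N-1)` of elements of `L` of height at
most `B` has at most `z` Lempel-Ziv phrases and `N` is at most `M` times one plus the sum of the
heights of the coordinates, are finite in number. -/
def LZBase (b : ℕ) (F : ι → MvPolynomial (Fin n) (𝓞 K)) (G : κ → MvPolynomial (Fin n) (𝓞 K)) :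
    Prop :=
  ∀ (L : Type) [Field L] [NumberField L] [Algebra K L] (z : ℕ) (M B : ℝ),
    {x : Fin n → L | OffPt F G x ∧ ∀ i, ∃ (a : ℕ → L) (N : ℕ) (m : ℤ), LZ a N z ∧
      (∀ j < N, logHeight₁ (a j) ≤ B) ∧ N ≤ M * (1 + ∑ i, logHeight₁ (x i)) ∧
      x i = (b : L) ^ m * ∑ j ∈ range N, (b : L) ^ (N - 1 - j) * a j}.Finite

theorem LZVal.mono {Γ : Subgroup Qbarˣ} {z : ℕ} {B B' Λ : ℝ} {y : Qbar} (h : LZVal Γ z B Λ y)
    (hB : B ≤ B') : LZVal Γ z B' Λ y := by
  obtain ⟨t, a, N, m, h1, h2, h3, h4, h5, h6⟩ := h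
  exact ⟨t, a, N, m, h1, h2, h3, fun j hj => (h4 j hj).trans hB, h5, h6⟩

theorem rational_of_lz (h : LZHeights F G) : LZRational F G := by
  intro _ Γ hΓ z M B L _ _ φ
  obtain ⟨C, hC⟩ := h Γ hΓ z M
  refine (northcott_affQ L φ (C * (1 + max B 0))).subset ?_
  rintro x ⟨hx, hl⟩
  exact hC (max B 0) (le_max_right _ _) _ hx fun i => (hl i).mono (le_max_left _ _)

theorem LZ.map {α β : Type} (f : α → β) {a : ℕ → α} {N z : ℕ} (h : LZ a N z) :
    LZ (fun j => f (a j)) N z := by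
  obtain ⟨c, h0, h1, h2⟩ := h
  refine ⟨c, h0, h1, fun i hi => ?_⟩
  rcases h2 i hi with h | ⟨h, p, hp0, hp1, hp2⟩
  · exact Or.inl h
  · exact Or.inr ⟨h, p, hp0, hp1, fun j hj1 hj2 => congrArg f (hp2 j hj1 hj2)⟩

theorem zp_fg (t : Qbarˣ) : (Subgroup.zpowers t).FG := ⟨{t}, by simp [Subgroup.zpowers_eq_closure]⟩

theorem base_of_rational (h : LZRational F G) (b : ℕ) (hb : 2 ≤ b) : LZBase b F G := by
  classical
  intro L _ _ _ z M B
  obtain ⟨φ⟩ := exists_emb L
  let _ : Algebra K Qbar := (φ.comp (algebraMap K L)).toAlgebra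
  have hb0 : (b : Qbar) ≠ 0 := by
    have : b ≠ 0 := by omega
    exact_mod_cast this
  let t : Qbarˣ := Units.mk0 (b : Qbar) hb0
  have hpos : (0 : ℝ) < finrank ℚ L := by exact_mod_cast Module.finrank_pos
  have hone : (1 : ℝ) ≤ finrank ℚ L := by exact_mod_cast Module.finrank_pos
  refine (h (Subgroup.zpowers t) (zp_fg t) z
    (|M| * (1 + n * finrank ℚ L) * h1 (b : Qbar)) (max B 0) L φ).subset ?_
  rintro x ⟨hx, hl⟩
  refine ⟨offPt_map F G φ x hx, fun i => ?_⟩
  obtain ⟨a, N, m, h1', h2, h3, h4⟩ := hl i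
  refine ⟨t, fun j => φ (a j), N, m, ⟨1, one_pos, by rw [pow_one]; exact Subgroup.mem_zpowers t⟩,
    ?_, LZ.map φ h1', fun j hj => ?_, ?_, ?_⟩
  · intro q hq h5
    have h6 : ((b ^ q : ℕ) : Qbar) = ((1 : ℕ) : Qbar) := by
      push_cast
      exact h5
    have h7 : b ^ q = 1 := Nat.cast_injective h6
    have := Nat.one_lt_pow hq.ne' (by omega : 1 < b)
    omega
  · show h1 (φ (a j)) ≤ _
    rw [h1_eq L φ, div_le_iff₀ hpos]
    refine (h2 j hj).trans ?_
    refine (le_max_left B 0).trans ?_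
    exact le_mul_of_one_le_right (le_max_right _ _) hone
  · have h5 : ∀ i, logHeight₁ (x i) ≤ finrank ℚ L * hA (fun a => φ (x a)) := by
      intro i
      have h6 := h1_le_hA (fun a => φ (x a)) i
      rw [h1_eq L φ, div_le_iff₀ hpos] at h6
      linarith
    have h6 : ∑ i, logHeight₁ (x i) ≤ n * (finrank ℚ L * hA (fun a => φ (x a))) := by
      refine (Finset.sum_le_card_nsmul _ _ _ fun i _ => h5 i).trans ?_
      rw [nsmul_eq_mul, Finset.card_univ, Fintype.card_fin]
    have h7 : 0 ≤ ∑ i, logHeight₁ (x i) := Finset.sum_nonneg fun i _ => zero_le_logHeight₁ _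
    have h8 := hA_nonneg (fun a => φ (x a))
    have h9 : (N : ℝ) ≤ |M| * (1 + n * finrank ℚ L) * (1 + hA (fun a => φ (x a))) := by
      refine h3.trans ?_
      calc M * (1 + ∑ i, logHeight₁ (x i)) ≤ |M| * (1 + ∑ i, logHeight₁ (x i)) :=
            mul_le_mul_of_nonneg_right (le_abs_self M) (by linarith)
        _ ≤ |M| * ((1 + n * finrank ℚ L) * (1 + hA (fun a => φ (x a)))) := by
            refine mul_le_mul_of_nonneg_left ?_ (abs_nonneg M)
            have : (0 : ℝ) ≤ n * finrank ℚ L := by positivity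
            nlinarith
        _ = _ := by ring
    calc (N : ℝ) * h1 (t : Qbar) ≤ |M| * (1 + n * finrank ℚ L) * (1 + hA (fun a => φ (x a))) *
          h1 (t : Qbar) := mul_le_mul_of_nonneg_right h9 (h1_nonneg _)
      _ = _ := by
          show _ * h1 (b : Qbar) = _
          ring
  · rw [h4, map_mul, map_zpow₀, map_natCast, map_sum]
    congr 1
    · rw [Units.val_zpow_eq_zpow_val]
      rfl
    · refine Finset.sum_congr rfl fun j _ => ?_
      rw [map_mul, map_pow, map_natCast]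
      rfl

/-- the polynomials of a curve, in both directions -/
theorem curve_data (h : HasLaurent F G) : ∃ (L : Type) (_ : Field L) (_ : NumberField L)
    (_ : Algebra K L) (R : Fin n → Polynomial L) (E : ℤ) (l : κ) (S : Polynomial L) (i0 : Fin n),
    (∀ t : L, t ≠ 0 → ∀ i, eval₂ ((algebraMap K L).comp (algebraMap (𝓞 K) K))
      (fun j => t ^ E * (R j).eval t) (F i) = 0) ∧
    S ≠ 0 ∧ (∀ t : L, t ≠ 0 → S.eval t ≠ 0 →
      eval₂ ((algebraMap K L).comp (algebraMap (𝓞 K) K)) (fun j => t ^ E * (R j).eval t)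
        (G l) ≠ 0) ∧ R i0 ≠ 0 ∧ 1 ≤ ((R i0).natDegree : ℤ) + E := by
  classical
  obtain ⟨L, _, _, _, v, hv, hvF, ⟨l, hl⟩, k1, j1, hk1⟩ := h
  obtain ⟨e, Q, hQ⟩ := Laur.common v hv
  obtain ⟨M, S, hS⟩ := Laur.eval₂ ((algebraMap K L).comp (algebraMap (𝓞 K) K)) v hv (G l)
  have hS0 : S ≠ 0 := by
    rintro rfl
    have := hS 1 one_ne_zero
    rw [Polynomial.eval_zero, one_pow, mul_one] at this
    exact hl this
  have hQz : ∀ t : L, t ≠ 0 → v t = fun j => t ^ (-(e : ℤ)) * (Q j).eval t := by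
    intro t ht
    funext j
    rw [hQ t ht j, zpow_neg, zpow_natCast]
    field_simp
  -- a coefficient at a place other than `e`
  have hq : ∃ q, q ≠ e ∧ (Q j1).coeff q ≠ 0 := by
    by_contra hcon
    push Not at hcon
    have h1 : Q j1 = Polynomial.C ((Q j1).coeff e) * Polynomial.X ^ e := by
      ext q
      rw [Polynomial.coeff_C_mul, Polynomial.coeff_X_pow]
      by_cases hqe : q = e
      · rw [if_pos hqe, mul_one, hqe]
      · rw [if_neg hqe, mul_zero, hcon q hqe]
    have h2 : ∀ t : L, t ≠ 0 → v t j1 = (Q j1).coeff e := by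
      intro t ht
      rw [hQ t ht j1, h1]
      simp only [Polynomial.eval_mul, Polynomial.eval_C, Polynomial.eval_pow, Polynomial.eval_X,
        Polynomial.coeff_C_mul, Polynomial.coeff_X_pow, if_true, mul_one]
      rw [mul_div_assoc, div_self (pow_ne_zero _ ht), mul_one]
    apply hk1
    rw [h2 _ (pow_ne_zero _ two_ne_zero), h2 1 one_ne_zero]
  obtain ⟨q, hqe, hq0⟩ := hq
  rcases lt_or_gt_of_ne hqe with hlt | hgt
  · -- reversed curve
    obtain ⟨D, hD⟩ : ∃ D : ℕ, ∀ j, (Q j).natDegree ≤ D :=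
      ⟨∑ j, (Q j).natDegree, fun j =>
        Finset.single_le_sum (f := fun j => (Q j).natDegree) (fun _ _ => Nat.zero_le _)
          (Finset.mem_univ j)⟩
    have hrefl : ∀ (p : Polynomial L) (N : ℕ), p.natDegree ≤ N → ∀ t : L, t ≠ 0 →
        p.eval t⁻¹ = (p.reflect N).eval t * (t⁻¹) ^ N := by
      intro p N hN t ht
      have ht' : t⁻¹ ≠ 0 := inv_ne_zero ht
      let _ : Invertible t⁻¹ := invertibleOfNonzero ht'
      have h1 := Polynomial.eval₂_reflect_mul_pow (RingHom.id L) t⁻¹ N p hN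
      rw [invOf_eq_inv, inv_inv] at h1
      exact h1.symm
    have hvz : ∀ t : L, t ≠ 0 → (fun j => t ^ ((e : ℤ) - D) * ((Q j).reflect D).eval t) =
        v t⁻¹ := by
      intro t ht
      rw [hQz _ (inv_ne_zero ht)]
      funext j
      rw [hrefl (Q j) D (hD j) t ht, zpow_sub₀ ht, zpow_natCast, zpow_natCast, zpow_neg,
        zpow_natCast, inv_pow, inv_pow, inv_inv]
      field_simp
    refine ⟨L, inferInstance, inferInstance, inferInstance, fun j => (Q j).reflect D,
      (e : ℤ) - D, l, S.reflect S.natDegree, j1, ?_, ?_, ?_, ?_, ?_⟩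
    · intro t ht i
      rw [hvz t ht]
      exact hvF i _ (inv_ne_zero ht)
    · intro h3
      exact hS0 (Polynomial.reflect_eq_zero_iff.1 h3)
    · intro t ht hSt
      rw [hvz t ht]
      intro h3
      have h4 : eval₂ ((algebraMap K L).comp (algebraMap (𝓞 K) K)) (v t⁻¹) (G l) * t⁻¹ ^ M =
        S.eval t⁻¹ := hS t⁻¹ (inv_ne_zero ht)
      rw [h3, zero_mul, hrefl S _ le_rfl t ht] at h4
      rcases mul_eq_zero.1 h4.symm with h5 | h5
      · exact hSt h5
      · exact pow_ne_zero _ (inv_ne_zero ht) h5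
    · intro h3
      have h4 := Polynomial.reflect_eq_zero_iff.1 h3
      rw [h4, Polynomial.coeff_zero] at hq0
      exact hq0 rfl
    · have h3 : q ≤ D := (Polynomial.le_natDegree_of_ne_zero hq0).trans (hD j1)
      have h4 : ((Q j1).reflect D).coeff (D - q) ≠ 0 := by
        rw [Polynomial.coeff_reflect, Polynomial.revAt_le (Nat.sub_le _ _), Nat.sub_sub_self h3]
        exact hq0
      have h5 := Polynomial.le_natDegree_of_ne_zero h4
      show 1 ≤ (((Q j1).reflect D).natDegree : ℤ) + ((e : ℤ) - D)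
      omega
  · refine ⟨L, inferInstance, inferInstance, inferInstance, Q, -(e : ℤ), l, S, j1, ?_, hS0, ?_,
      ?_, ?_⟩
    · intro t ht i
      rw [← hQz t ht]
      exact hvF i t ht
    · intro t ht hSt
      rw [← hQz t ht]
      intro h3
      have h4 : eval₂ ((algebraMap K L).comp (algebraMap (𝓞 K) K)) (v t) (G l) * t ^ M =
        S.eval t := hS t ht
      rw [h3, zero_mul] at h4
      exact hSt h4.symm
    · rintro h3
      rw [h3, Polynomial.coeff_zero] at hq0
      exact hq0 rfl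
    · have := Polynomial.le_natDegree_of_ne_zero hq0
      omega

theorem not_base_of_hasLaurent (h : HasLaurent F G) (b : ℕ) (hb : 2 ≤ b) : ¬ LZBase b F G := by
  classical
  intro hfin
  obtain ⟨L, _, _, _, R, E, l, S, i0, hF, hS0, hG, hR0, hE⟩ := curve_data F G h
  obtain ⟨C, hC0, hC⟩ := height_growth (R i0) hR0 E hE b hb
  obtain ⟨D, hD⟩ : ∃ D : ℕ, ∀ j, (R j).natDegree ≤ D :=
    ⟨∑ j, (R j).natDegree, fun j =>
      Finset.single_le_sum (f := fun j => (R j).natDegree) (fun _ _ => Nat.zero_le _)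
        (Finset.mem_univ j)⟩
  set X : ℕ → Fin n → L := fun m i => ((b : L) ^ m) ^ E * (R i).eval ((b : L) ^ m) with hX
  have hbL : (b : L) ≠ 0 := by
    have : b ≠ 0 := by omega
    exact_mod_cast this
  have hinj : Function.Injective fun m : ℕ => (b : L) ^ m := by
    intro m1 m2 h12
    have h3 : ((b ^ m1 : ℕ) : L) = ((b ^ m2 : ℕ) : L) := by
      push_cast
      exact h12
    exact Nat.pow_right_injective hb (Nat.cast_injective h3)
  have hA : {m : ℕ | 2 ≤ m ∧ S.eval ((b : L) ^ m) ≠ 0}.Infinite := by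
    have h1 : {m : ℕ | S.eval ((b : L) ^ m) = 0}.Finite := by
      refine (S.roots.toFinset.finite_toSet.preimage hinj.injOn).subset ?_
      intro m hm
      rw [Set.mem_preimage, Finset.mem_coe, Multiset.mem_toFinset,
        Polynomial.mem_roots hS0]
      exact hm
    have h2 : {m : ℕ | 2 ≤ m ∧ S.eval ((b : L) ^ m) ≠ 0} =
        ({m : ℕ | m < 2} ∪ {m : ℕ | S.eval ((b : L) ^ m) = 0})ᶜ := by
      ext m
      simp only [Set.mem_setOf_eq, Set.mem_compl_iff, Set.mem_union, not_or, not_lt]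
    rw [h2]
    exact ((Set.finite_lt_nat 2).union h1).infinite_compl
  have hHs : ∀ m, logHeight₁ (X m i0) ≤ ∑ i, logHeight₁ (X m i) := fun m =>
    Finset.single_le_sum (f := fun i => logHeight₁ (X m i))
      (fun _ _ => zero_le_logHeight₁ _) (Finset.mem_univ i0)
  have hCs : ∀ m : ℕ, (m : ℝ) ≤ C * (1 + ∑ i, logHeight₁ (X m i)) := fun m =>
    (hC m).trans (mul_le_mul_of_nonneg_left (by linarith [hHs m]) hC0)
  obtain ⟨B, hB⟩ : ∃ B : ℝ, B = ∑ i, ∑ k ∈ range (D + 1), logHeight₁ ((R i).coeff k) := ⟨_, rfl⟩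
  have hBk : ∀ i, ∀ k ≤ D, logHeight₁ ((R i).coeff k) ≤ B := by
    intro i k hk
    rw [hB]
    refine le_trans ?_ (Finset.single_le_sum
      (f := fun i => ∑ k ∈ range (D + 1), logHeight₁ ((R i).coeff k))
      (fun _ _ => Finset.sum_nonneg fun _ _ => zero_le_logHeight₁ _) (Finset.mem_univ i))
    exact Finset.single_le_sum (f := fun k => logHeight₁ ((R i).coeff k))
      (fun _ _ => zero_le_logHeight₁ _) (Finset.mem_range.2 (by omega))
  have hB0 : 0 ≤ B := by
    rw [hB]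
    exact Finset.sum_nonneg fun _ _ => Finset.sum_nonneg fun _ _ => zero_le_logHeight₁ _
  have hT := hfin L (3 * D + 1) (C * D + 1) B
  set T := {x : Fin n → L | OffPt F G x ∧ ∀ i, ∃ (a : ℕ → L) (N : ℕ) (m : ℤ), LZ a N (3 * D + 1) ∧
      (∀ j < N, logHeight₁ (a j) ≤ B) ∧ N ≤ (C * D + 1) * (1 + ∑ i, logHeight₁ (x i)) ∧
      x i = (b : L) ^ m * ∑ j ∈ range N, (b : L) ^ (N - 1 - j) * a j} with hTdef
  have hmem : ∀ m ∈ {m : ℕ | 2 ≤ m ∧ S.eval ((b : L) ^ m) ≠ 0}, X m ∈ T := by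
    rintro m ⟨hm2, hmS⟩
    have hbm : (b : L) ^ m ≠ 0 := pow_ne_zero _ hbL
    refine ⟨⟨fun i => hF _ hbm i, l, hG _ hbm hmS⟩, fun i => ?_⟩
    refine ⟨blockWord (fun k => (R i).coeff (D - k)) m, m * D + 1, m * E, block_lz _ m D hm2,
      fun j hj => ?_, ?_, ?_⟩
    · unfold blockWord
      split_ifs
      · exact hBk i _ (Nat.sub_le _ _)
      · rw [logHeight₁_zero]
        exact hB0
    · have h1 := hCs m
      have h2 : 0 ≤ ∑ i, logHeight₁ (X m i) := Finset.sum_nonneg fun _ _ => zero_le_logHeight₁ _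
      have h3 : (m : ℝ) * D ≤ C * (1 + ∑ i, logHeight₁ (X m i)) * D :=
        mul_le_mul_of_nonneg_right h1 (Nat.cast_nonneg D)
      push_cast
      nlinarith
    · rw [block_sum (R i) D m (by omega) (hD i) (b : L)]
      show ((b : L) ^ m) ^ E * (R i).eval ((b : L) ^ m) = _
      rw [zpow_mul, zpow_natCast]
  obtain ⟨H, hH⟩ : ∃ H : ℝ, ∀ x ∈ T, ∑ i, logHeight₁ (x i) ≤ H := by
    obtain ⟨H, hH⟩ := (hT.image fun x : Fin n → L => ∑ i, logHeight₁ (x i)).bddAbove
    exact ⟨H, fun x hx => hH (Set.mem_image_of_mem _ hx)⟩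
  refine hA ((Set.finite_le_nat ⌈C * (1 + H)⌉₊).subset ?_)
  intro m hm
  have h1 := hH _ (hmem m hm)
  have h2 : (m : ℝ) ≤ C * (1 + H) := (hCs m).trans (mul_le_mul_of_nonneg_left (by linarith) hC0)
  have h3 : (m : ℝ) ≤ (⌈C * (1 + H)⌉₊ : ℝ) := h2.trans (Nat.le_ceil _)
  exact_mod_cast h3

/-- The equivalence. -/
theorem tfaeLZ [Finite ι] (b : ℕ) (hb : 2 ≤ b) : List.TFAE [ExpCurvesIn σ F G, GmCurvesIn σ F G,
    LZHeights F G, LZRational F G, LZBase b F G] := by
  have h0 := tfaeU σ F G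
  have h12 : GmCurvesIn σ F G → HullHeights F G := (h0.out 1 2).1
  tfae_have 1 ↔ 2 := h0.out 0 1
  tfae_have 2 → 3 := fun h => lzHeights F G (h12 h)
  tfae_have 3 → 4 := rational_of_lz F G
  tfae_have 4 → 5 := fun h => base_of_rational F G h b hb
  tfae_have 5 → 1 := fun h => by
    by_contra h2
    exact not_base_of_hasLaurent F G (hasLaurent_of_exp F G σ h2) b hb h
  tfae_finish

end Pool.Agent.R343.LI
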