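import Mathlib

set_option autoImplicit false

/-! # Words of bounded Lempel-Ziv complexity have sparse values, after multiplication by a
nonzero factor -/

namespace Pool.Agent.R343.LP

open Finset

variable {K : Type} [Field K] {V : Type} [AddCommGroup V] [Module K V]

/-- the letters in the positions `n ≤ j < m` of the word `a` form one phrase: it is a single letter,
or a copy of a block of letters starting at an earlier position (which may overlap the phrase) -/
def Phrase {α : Type} (a : ℕ → α) (n m : ℕ) : Prop :=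
  m = n + 1 ∨ (n ≤ m ∧ ∃ p, 0 < p ∧ p ≤ n ∧ ∀ j, n ≤ j → j < m → a j = a (j - p))

/-- the prefix of length `L` of `a` is a concatenation of `z` phrases -/
def LZ {α : Type} (a : ℕ → α) (L z : ℕ) : Prop :=
  ∃ c : ℕ → ℕ, c 0 = 0 ∧ c z = L ∧ ∀ i < z, Phrase a (c i) (c (i + 1))

/-- values of the prefixes -/
def P (t : K) (a : ℕ → V) : ℕ → V
  | 0 => 0
  | m + 1 => t • P t a m + a m

theorem P_eq (t : K) (a : ℕ → V) (m : ℕ) :
    P t a m = ∑ j ∈ range m, t ^ (m - 1 - j) • a j := by
  induction m with
  | zero => simp [P]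
  | succ m ih =>
    rw [P, ih, Finset.sum_range_succ, Finset.smul_sum]
    have h0 : m + 1 - 1 - m = 0 := by omega
    rw [h0, pow_zero, one_smul]
    congr 1
    refine Finset.sum_congr rfl fun j hj => ?_
    have hj' := Finset.mem_range.1 hj
    rw [smul_smul, ← pow_succ']
    congr 2
    omega

/-- sums of `T` terms `t ^ l • v`, `v ∈ A` -/
def SP (t : K) (A : Set V) (T : ℕ) (y : V) : Prop :=
  ∃ (l : Fin T → ℕ) (v : Fin T → V), (∀ j, v j ∈ A) ∧ y = ∑ j, t ^ (l j) • v j

variable {t : K} {A : Set V} {T T' : ℕ} {y y' : V}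

theorem SP.add (h : SP t A T y) (h' : SP t A T' y') : SP t A (T + T') (y + y') := by
  obtain ⟨l, v, hv, rfl⟩ := h
  obtain ⟨l', v', hv', rfl⟩ := h'
  refine ⟨Fin.append l l', Fin.append v v', ?_, ?_⟩
  · intro j
    refine Fin.addCases (fun i => ?_) (fun i => ?_) j
    · rw [Fin.append_left]; exact hv i
    · rw [Fin.append_right]; exact hv' i
  · rw [Fin.sum_univ_add]
    simp only [Fin.append_left, Fin.append_right]

theorem SP.neg (hA : ∀ w ∈ A, -w ∈ A) (h : SP t A T y) : SP t A T (-y) := by
  obtain ⟨l, v, hv, rfl⟩ := h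
  refine ⟨l, fun j => -v j, fun j => hA _ (hv j), ?_⟩
  simp only [smul_neg, Finset.sum_neg_distrib]

theorem SP.pow (h : SP t A T y) (e : ℕ) : SP t A T (t ^ e • y) := by
  obtain ⟨l, v, hv, rfl⟩ := h
  refine ⟨fun j => e + l j, v, hv, ?_⟩
  rw [Finset.smul_sum]
  refine Finset.sum_congr rfl fun j _ => ?_
  rw [smul_smul, ← pow_add]

theorem SP.zero (h0 : (0 : V) ∈ A) (T : ℕ) : SP t A T 0 :=
  ⟨fun _ => 0, fun _ => 0, fun _ => h0, by simp⟩

theorem SP.mono (h0 : (0 : V) ∈ A) (h : SP t A T y) (hT : T ≤ T') : SP t A T' y := by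
  obtain ⟨s, rfl⟩ := Nat.exists_eq_add_of_le hT
  have := h.add (SP.zero (t := t) h0 s)
  rwa [add_zero] at this

theorem SP.sub (hA : ∀ w ∈ A, -w ∈ A) (h : SP t A T y) (h' : SP t A T' y') :
    SP t A (T + T') (y - y') := by
  rw [sub_eq_add_neg]
  exact h.add (h'.neg hA)

theorem SP.of_mem {w : V} (hw : w ∈ A) : SP t A 1 w :=
  ⟨fun _ => 0, fun _ => w, fun _ => hw, by simp⟩

/-- the basic relation in a copied phrase -/
theorem P_copy (t : K) (a : ℕ → V) {n m p : ℕ} (hp : p ≤ n)
    (h : ∀ j, n ≤ j → j < m → a j = a (j - p)) :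
    ∀ l, n + l ≤ m → P t a (n + l) = P t a (n + l - p) + t ^ l • (P t a n - P t a (n - p)) := by
  intro l
  induction l with
  | zero => intro _; simp
  | succ l ih =>
    intro hl
    have h1 := ih (by omega)
    have h2 := h (n + l) (by omega) (by omega)
    have e1 : n + (l + 1) = n + l + 1 := by omega
    have e2 : n + (l + 1) - p = (n + l - p) + 1 := by omega
    rw [e2, e1, P, P, h1, h2, pow_succ' t l, mul_smul, smul_add]
    abel

/-- iterated relation -/
theorem P_iter (t : K) (a : ℕ → V) {n m p : ℕ} (hp0 : 0 < p) (hp : p ≤ n)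
    (h : ∀ j, n ≤ j → j < m → a j = a (j - p)) (r : ℕ) :
    ∀ q, n + (r + p * q) ≤ m → (t ^ p - 1) • P t a (n + (r + p * q)) =
      (t ^ p - 1) • P t a (n - p + r) +
        (t ^ (r + p * (q + 1)) - t ^ r) • (P t a n - P t a (n - p)) := by
  intro q
  induction q with
  | zero =>
    intro hl
    have h1 := P_copy t a hp h (r + p * 0) hl
    have e1 : n + (r + p * 0) - p = n - p + r := by
      rw [mul_zero]; omega
    rw [h1, e1, smul_add, smul_smul]
    congr 2
    rw [mul_zero, zero_add, mul_one, add_zero, pow_add]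
    ring
  | succ q ih =>
    intro hl
    have hmul : p * (q + 1) = p * q + p := by ring
    have h0 := ih (by rw [hmul] at hl; omega)
    have h1 := P_copy t a hp h (r + p * (q + 1)) hl
    have e1 : n + (r + p * (q + 1)) - p = n + (r + p * q) := by
      rw [hmul]; omega
    rw [h1, e1, smul_add, h0, smul_smul, add_assoc, ← add_smul]
    congr 2
    have e2 : r + p * (q + 1 + 1) = (r + p * (q + 1)) + p := by ring
    rw [e2, pow_add t (r + p * (q + 1)) p]
    ring

/-- **Words with `z` phrases have sparse values.** -/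
theorem lz_sparse (t : K) (a : ℕ → V) (A : Set V) (hA0 : (0 : V) ∈ A) (hA : ∀ w ∈ A, -w ∈ A)
    (ht : ∀ p, 0 < p → t ^ p ≠ 1) (c : ℕ → ℕ) (hc0 : c 0 = 0) (z L : ℕ)
    (ha : ∀ j < L, a j ∈ A) (hcL : ∀ i ≤ z, c i ≤ L)
    (hph : ∀ i < z, Phrase a (c i) (c (i + 1))) :
    ∀ i ≤ z, ∃ D : K, D ≠ 0 ∧ (∀ w ∈ A, SP t A (2 ^ i) (D • w)) ∧
      ∀ m ≤ c i, SP t A (6 ^ i) (D • P t a m) := by
  intro i
  induction i with
  | zero =>
    intro _
    refine ⟨1, one_ne_zero, fun w hw => ?_, fun m hm => ?_⟩
    · rw [one_smul]; exact SP.of_mem hw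
    · rw [hc0] at hm
      obtain rfl : m = 0 := by omega
      rw [P, smul_zero]
      exact SP.zero hA0 _
  | succ i ih =>
    intro hi
    obtain ⟨D, hD, hw, hm⟩ := ih (by omega)
    have h26 : 2 ^ i ≤ 6 ^ i := Nat.pow_le_pow_left (by norm_num) i
    rcases hph i (by omega) with hlit | ⟨hnm, p, hp0, hpn, hcopy⟩
    · refine ⟨D, hD, fun w hwA => (hw w hwA).mono hA0 (Nat.pow_le_pow_right (by norm_num) (by omega)),
        fun m hmm => ?_⟩
      by_cases hmi : m ≤ c i
      · exact (hm m hmi).mono hA0 (Nat.pow_le_pow_right (by norm_num) (by omega))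
      · have e : m = c i + 1 := by omega
        have hai : a (c i) ∈ A := ha _ (by have := hcL (i + 1) hi; omega)
        have h1 := ((hm (c i) le_rfl).pow 1).add (hw _ hai)
        rw [e, P, smul_add, smul_smul, mul_comm D t, mul_smul]
        rw [pow_one] at h1
        refine h1.mono hA0 ?_
        rw [pow_succ]
        omega
    · refine ⟨(t ^ p - 1) * D, mul_ne_zero (sub_ne_zero.2 (ht p hp0)) hD, fun w hwA => ?_,
        fun m hmm => ?_⟩
      · have h1 := ((hw w hwA).pow p).sub hA (hw w hwA)
        have e : ((t ^ p - 1) * D) • w = t ^ p • D • w - D • w := by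
          rw [mul_smul, sub_smul, one_smul]
        rw [e]
        refine h1.mono hA0 ?_
        rw [pow_succ]
        omega
      · by_cases hmi : m ≤ c i
        · have h1 := ((hm m hmi).pow p).sub hA (hm m hmi)
          have e : ((t ^ p - 1) * D) • P t a m = t ^ p • D • P t a m - D • P t a m := by
            rw [mul_smul, sub_smul, one_smul]
          rw [e]
          refine h1.mono hA0 ?_
          rw [pow_succ]
          omega
        · obtain ⟨l, rfl⟩ := Nat.exists_eq_add_of_le (le_of_not_ge hmi)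
          have hl : l = l % p + p * (l / p) := (Nat.mod_add_div l p).symm
          obtain ⟨r, hr⟩ : ∃ r, r = l % p := ⟨_, rfl⟩
          obtain ⟨q, hq⟩ : ∃ q, q = l / p := ⟨_, rfl⟩
          have hrp : r < p := by rw [hr]; exact Nat.mod_lt _ hp0
          rw [← hr, ← hq] at hl
          have h1 := P_iter t a hp0 hpn hcopy r q (by rw [← hl]; exact hmm)
          rw [← hl] at h1
          have h2 := hm (c i - p + r) (by omega)
          have h3 := hm (c i) le_rfl
          have h4 := hm (c i - p) (by omega)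
          have e : ((t ^ p - 1) * D) • P t a (c i + l) =
              (t ^ p • D • P t a (c i - p + r) - D • P t a (c i - p + r)) +
              ((t ^ (r + p * (q + 1)) • D • P t a (c i) - t ^ r • D • P t a (c i)) -
              (t ^ (r + p * (q + 1)) • D • P t a (c i - p) - t ^ r • D • P t a (c i - p))) := by
            rw [mul_comm, mul_smul, h1]
            simp only [smul_sub, sub_smul, smul_add, one_smul, smul_smul]
            simp only [mul_comm D]
          rw [e]
          have h5 := ((h2.pow p).sub hA h2).add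
            ((((h3.pow (r + p * (q + 1))).sub hA (h3.pow r))).sub hA
              ((h4.pow (r + p * (q + 1))).sub hA (h4.pow r)))
          refine h5.mono hA0 ?_
          rw [pow_succ]
          omega

end Pool.Agent.R343.LP
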