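import Pool.Agent.R343.LP1
import Pool.Agent.TH409.SH.Fin2

set_option autoImplicit false

/-! # Words of bounded Lempel-Ziv complexity on varieties without rational curves -/

namespace Pool.Agent.R343.LP

open Finset Height Height.AdmissibleAbsValues Pool.Agent.H533R3.SL MvPolynomial NumberField
  Pool.Agent.H458.Sp Pool.Agent.TH409.SH

/-- `x ≠ 0` is the value in base `t` of the word `a 0, …, a (L - 1)` of digit vectors -/
def Represents {n : ℕ} {K : Type} [Field K] (t : K) (a : ℕ → Fin (n + 1) → K) (L : ℕ)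
    (x : Fin (n + 1) → K) : Prop :=
  x ≠ 0 ∧ ∀ i, x i = ∑ j ∈ range L, t ^ (L - 1 - j) * a j i

/-- the height of the tuple of all digits of a word -/
noncomputable def wordHeight (K : Type) [Field K] [NumberField K] {n : ℕ}
    (a : ℕ → Fin (n + 1) → K) (L : ℕ) : ℝ :=
  ah K (fun q : Fin L × Fin (n + 1) => a q.1 q.2)

variable {n : ℕ}

theorem signs_height (K : Type) [Field K] [NumberField K] :
    mulHeight (![1, -1, 0] : Fin 3 → K) = 1 := by
  have h1 : (![1, -1, 0] : Fin 3 → K) ^ 2 = ![1, 1, 0] := by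
    ext i; fin_cases i <;> simp
  have h2 : (![1, 1, 0] : Fin 3 → K) ^ 2 = ![1, 1, 0] := by
    ext i; fin_cases i <;> simp
  have h3 := mulHeight_pow (![1, 1, 0] : Fin 3 → K) 2
  rw [h2] at h3
  have h4 := mulHeight_pow (![1, -1, 0] : Fin 3 → K) 2
  rw [h1] at h4
  have p1 := one_le_mulHeight (![1, 1, 0] : Fin 3 → K)
  have p2 := one_le_mulHeight (![1, -1, 0] : Fin 3 → K)
  nlinarith

/-- the digits, their negatives and zero -/
def digs {K : Type} [Field K] (a : ℕ → Fin (n + 1) → K) (L : ℕ) : Set (Fin (n + 1) → K) :=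
  {w | ∃ q, q < L ∧ ∃ s : Fin 3, w = (![1, -1, 0] : Fin 3 → K) s • a q}

theorem digs_zero {K : Type} [Field K] (a : ℕ → Fin (n + 1) → K) {L : ℕ} (hL : 0 < L) :
    (0 : Fin (n + 1) → K) ∈ digs a L := ⟨0, hL, 2, by simp⟩

theorem digs_mem {K : Type} [Field K] (a : ℕ → Fin (n + 1) → K) {L : ℕ} :
    ∀ j < L, a j ∈ digs a L := fun j hj => ⟨j, hj, 0, by simp⟩

theorem digs_neg {K : Type} [Field K] (a : ℕ → Fin (n + 1) → K) {L : ℕ} :
    ∀ w ∈ digs a L, -w ∈ digs a L := by
  rintro w ⟨q, hq, s, rfl⟩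
  fin_cases s
  · exact ⟨q, hq, 1, by simp⟩
  · exact ⟨q, hq, 0, by simp⟩
  · exact ⟨q, hq, 2, by simp⟩

theorem digs_height (K : Type) [Field K] [NumberField K] (a : ℕ → Fin (n + 1) → K) (L T : ℕ)
    (v : Fin T → Fin (n + 1) → K) (hv : ∀ j, v j ∈ digs a L) :
    ah K (fun q : Fin T × Fin (n + 1) => v q.1 q.2) ≤ wordHeight K a L := by
  unfold wordHeight ah
  refine div_le_div_of_nonneg_right ?_ (finrank_pos' K).le
  choose q hq s hs using hv
  by_cases hX : (fun q : Fin L × Fin (n + 1) => a q.1 q.2) = 0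
  · have : (fun q : Fin T × Fin (n + 1) => v q.1 q.2) = 0 := by
      funext p
      have h1 := congrFun hX (⟨q p.1, hq p.1⟩, p.2)
      simp only [Pi.zero_apply] at h1
      show v p.1 p.2 = 0
      rw [hs p.1, Pi.smul_apply, h1, smul_zero]
    rw [this, hX]
    simp
  · have hY : (![1, -1, 0] : Fin 3 → K) ≠ 0 := by
      intro h
      have := congrFun h 0
      simp at this
    have h1 := logHeight_fun_mul_eq hX hY
    have h2 : logHeight (![1, -1, 0] : Fin 3 → K) = 0 := by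
      rw [logHeight_eq_log_mulHeight, signs_height, Real.log_one]
    rw [h2, add_zero] at h1
    rw [← h1]
    have h3 := logHeight_comp_le
      (fun p : Fin T × Fin (n + 1) => (((⟨q p.1, hq p.1⟩ : Fin L), p.2), s p.1))
      (fun p : (Fin L × Fin (n + 1)) × Fin 3 => a p.1.1 p.1.2 * (![1, -1, 0] : Fin 3 → K) p.2)
    refine le_trans (le_of_eq ?_) h3
    congr 1
    funext p
    show v p.1 p.2 = _
    rw [hs p.1, Pi.smul_apply, smul_eq_mul, mul_comm]
    rfl

/-- a word of complexity at most `z` represents, up to a factor, a sum of `6 ^ z` terms -/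
theorem onSparse_of_lz {K : Type} [Field K] (t : K)
    (ht : ∀ p, 0 < p → t ^ p ≠ 1) (a : ℕ → Fin (n + 1) → K) (L z : ℕ) (x : Fin (n + 1) → K)
    (hLZ : LZ a L z) (hx : Represents t a L x) :
    ∃ D : K, D ≠ 0 ∧ ∃ (l : Fin (6 ^ z) → ℕ) (v : Fin (6 ^ z) → Fin (n + 1) → K),
      (∀ j, v j ∈ digs a L) ∧ OnSparse t l v (fun i => D * x i) := by
  obtain ⟨hx0, hxe⟩ := hx
  have hL : 0 < L := by
    rcases Nat.eq_zero_or_pos L with h | h
    · exfalso
      apply hx0
      funext i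
      rw [hxe i, h]
      simp
    · exact h
  obtain ⟨c, hc0, hcz, hph⟩ := hLZ
  have hcmono : ∀ i < z, c i ≤ c (i + 1) := by
    intro i hi
    rcases hph i hi with h | ⟨h, _⟩
    · omega
    · exact h
  have hcL : ∀ i ≤ z, c i ≤ L := by
    intro i hi
    rw [← hcz]
    have : ∀ j, i + j ≤ z → c i ≤ c (i + j) := by
      intro j
      induction j with
      | zero => intro _; exact le_rfl
      | succ j ih =>
        intro hj
        exact (ih (by omega)).trans (hcmono (i + j) (by omega))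
    have h1 := this (z - i) (by omega)
    have h2 : i + (z - i) = z := by omega
    rwa [h2] at h1
  obtain ⟨D, hD, -, hm⟩ := lz_sparse t a (digs a L) (digs_zero a hL) (digs_neg a) ht c hc0 z L
    (digs_mem a) hcL hph z le_rfl
  obtain ⟨l, v, hv, he⟩ := hm L (by rw [hcz])
  refine ⟨D, hD, l, v, hv, ?_, ?_⟩
  · intro h
    apply hx0
    funext i
    have := congrFun h i
    simp only [Pi.zero_apply, mul_eq_zero] at this
    exact this.resolve_left hD
  · intro i
    have h1 := congrFun he i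
    rw [Pi.smul_apply, P_eq, Finset.sum_apply, Finset.sum_apply] at h1
    simp only [Pi.smul_apply, smul_eq_mul] at h1
    show D * x i = _
    rw [hxe i, h1]

theorem isZero_smul {k : Type} [Field k] (FF : Set (MvPolynomial (Fin (n + 1)) (𝓞 k)))
    (hom : ∀ F ∈ FF, ∃ e, F.IsHomogeneous e) {K : Type} [Field K] [Algebra k K] (D : K)
    (x : Fin (n + 1) → K) (h : IsZero FF x) : IsZero FF (fun i => D * x i) := by
  intro F hF
  obtain ⟨e, he⟩ := hom F hF
  rw [aeval_smul_homog _ (he.map _) D x, h F hF, mul_zero]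

theorem ah_smul (K : Type) [Field K] [NumberField K] (D : K) (hD : D ≠ 0) (x : Fin (n + 1) → K) :
    ah K (fun i => D * x i) = ah K x := by
  unfold ah
  congr 1
  exact logHeight_smul_eq_logHeight x hD

/-- **The bound for words of Lempel-Ziv complexity at most `z`.** -/
theorem lz_bound (k : Type) [Field k] [NumberField k] (n : ℕ)
    (FF : Set (MvPolynomial (Fin (n + 1)) (𝓞 k))) (d : ℕ) (hd : 1 ≤ d) (A : ℝ) (hA : 1 ≤ A)
    (hFF : ∀ F ∈ FF, (∃ e, e ≤ d ∧ F.IsHomogeneous e) ∧ nrm F ≤ A) (hno : NoRatCurve FF)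
    (z : ℕ) :
    ∀ (K : Type) [Field K] [NumberField K] [Algebra k K] (t : K) (L : ℕ)
      (a : ℕ → Fin (n + 1) → K) (x : Fin (n + 1) → K), (∀ p, 0 < p → t ^ p ≠ 1) → LZ a L z →
      Represents t a L x → IsZero FF x →
      ah K x ≤ (1 + 8 * (4 * d) ^ (6 ^ z)) *
        (d * wordHeight K a L + Real.log (A * 6 ^ (z * d))) := by
  intro K _ _ _ t L a x ht hLZ hx hz
  obtain ⟨D, hD, l, v, hv, hs⟩ := onSparse_of_lz t ht a L z x hLZ hx
  have h1 := (noRat_main k n FF d hd A hA hFF hno (6 ^ z) (Nat.one_le_pow _ _ (by norm_num))).1 K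
    t l v _ hs (isZero_smul FF (fun F hF => by
      obtain ⟨⟨e, _, he⟩, _⟩ := hFF F hF
      exact ⟨e, he⟩) D x hz)
  rw [ah_smul K D hD x] at h1
  have h2 := digs_height K a L (6 ^ z) v hv
  refine h1.trans ?_
  have h3 : ((6 ^ z : ℕ) : ℝ) ^ d = 6 ^ (z * d) := by
    push_cast
    rw [← pow_mul]
  rw [h3]
  gcongr

/-- finiteness -/
theorem lz_finite (k : Type) [Field k] [NumberField k] (n : ℕ)
    (FF : Set (MvPolynomial (Fin (n + 1)) (𝓞 k))) (d : ℕ) (hd : 1 ≤ d) (A : ℝ) (hA : 1 ≤ A)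
    (hFF : ∀ F ∈ FF, (∃ e, e ≤ d ∧ F.IsHomogeneous e) ∧ nrm F ≤ A) (hno : NoRatCurve FF)
    (z : ℕ) (K : Type) [Field K] [NumberField K] [Algebra k K] (B : ℝ) :
    {P : Projectivization K (Fin (n + 1) → K) | ∃ (t : K) (L : ℕ) (a : ℕ → Fin (n + 1) → K)
      (x : Fin (n + 1) → K) (h : x ≠ 0), P = Projectivization.mk K x h ∧
      (∀ p, 0 < p → t ^ p ≠ 1) ∧ LZ a L z ∧ Represents t a L x ∧ IsZero FF x ∧
      wordHeight K a L ≤ B}.Finite := by
  refine finite_of_bound K ((1 + 8 * (4 * d) ^ (6 ^ z)) * (d * B + Real.log (A * 6 ^ (z * d)))) _ ?_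
  rintro P ⟨t, L, a, x, h, hP, ht, hLZ, hx, hz, hB⟩
  refine ⟨x, h, hP, (lz_bound k n FF d hd A hA hFF hno z K t L a x ht hLZ hx hz).trans ?_⟩
  gcongr

/-- there is a power of `t` equal to one only if the torsion order is such -/
theorem torsion_pow (K : Type) [Field K] [NumberField K] :
    ∃ w : ℕ, 0 < w ∧ ∀ t : K, ∀ p, 0 < p → t ^ p = 1 → t ^ w = 1 := by
  refine ⟨NumberField.Units.torsionOrder K, NumberField.Units.torsionOrder_pos K, ?_⟩
  intro t p hp h
  have ht0 : t ≠ 0 := by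
    rintro rfl
    rw [zero_pow hp.ne'] at h
    exact zero_ne_one h
  have hint : IsIntegral ℤ t := by
    refine ⟨Polynomial.X ^ p - 1, Polynomial.monic_X_pow_sub_C 1 hp.ne', ?_⟩
    simp [h]
  let u : 𝓞 K := ⟨t, hint⟩
  have hu : u ^ p = 1 := by
    apply RingOfIntegers.ext
    show algebraMap (𝓞 K) K (u ^ p) = algebraMap (𝓞 K) K 1
    rw [map_pow, map_one]
    exact h
  let U : (𝓞 K)ˣ := Units.ofPowEqOne u p hu hp.ne'
  have hU : U ∈ NumberField.Units.torsion K := by
    rw [NumberField.Units.torsion, CommGroup.mem_torsion, isOfFinOrder_iff_pow_eq_one]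
    refine ⟨p, hp, ?_⟩
    apply Units.ext
    exact hu
  have h2 : (⟨U, hU⟩ : NumberField.Units.torsion K) ^ NumberField.Units.torsionOrder K = 1 :=
    pow_card_eq_one'
  have h3 : U ^ NumberField.Units.torsionOrder K = 1 := congrArg Subtype.val h2
  have h4 : u ^ NumberField.Units.torsionOrder K = 1 := congrArg Units.val h3
  have h5 := congrArg (algebraMap (𝓞 K) K) h4
  rw [map_pow, map_one] at h5
  exact h5

theorem lz_self {α : Type} (a : ℕ → α) (L : ℕ) : LZ a L L :=
  ⟨fun i => i, rfl, rfl, fun _ _ => Or.inl rfl⟩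

/-- if there is a rational curve, the heights are unbounded on the points represented by one word
with varying bases -/
theorem lz_unbounded (k : Type) [Field k] [NumberField k] (n : ℕ)
    (FF : Set (MvPolynomial (Fin (n + 1)) (𝓞 k))) (h : ¬ NoRatCurve FF) :
    ∃ (L : ℕ) (K : Type) (_ : Field K) (_ : NumberField K) (_ : Algebra k K)
      (a : ℕ → Fin (n + 1) → K), ∀ B : ℝ, ∃ (t : K) (x : Fin (n + 1) → K),
      (∀ p, 0 < p → t ^ p ≠ 1) ∧ Represents t a L x ∧ IsZero FF x ∧ B < ah K x := by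
  unfold NoRatCurve at h
  push Not at h
  obtain ⟨K, iK, iN, iA, q, hq, i, j, a, b, hcon⟩ := h
  set N : ℕ := Finset.univ.sup (fun i => (q i).natDegree) + 1 with hN
  have hqc : ∀ (i : Fin (n + 1)) (t : K),
      (q i).eval t = ∑ m ∈ range N, t ^ (N - 1 - m) * (q i).coeff (N - 1 - m) := by
    intro i t
    have hlt : (q i).natDegree < N := by
      have := Finset.le_sup (f := fun i => (q i).natDegree) (Finset.mem_univ i)
      omega
    rw [Polynomial.eval_eq_sum_range' hlt, ← Finset.sum_range_reflect]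
    exact Finset.sum_congr rfl fun m _ => mul_comm _ _
  obtain ⟨w, hw0, hw⟩ := torsion_pow K
  have hg : (Polynomial.X ^ w - 1 : Polynomial K) ≠ 0 :=
    (Polynomial.monic_X_pow_sub_C (1 : K) hw0.ne').ne_zero
  refine ⟨N, K, iK, iN, iA, fun m i => (q i).coeff (N - 1 - m), fun B => ?_⟩
  obtain ⟨t, ht1, ht2, ht3⟩ := curve_unbounded q ⟨i, j, a, b, hcon⟩ _ hg
    (B * Module.finrank ℚ K)
  refine ⟨t, fun i => (q i).eval t, ?_, ⟨ht1, fun i => hqc i t⟩, ?_, ?_⟩
  · intro p hp h1
    apply ht2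
    have := hw t p hp h1
    simp [this]
  · intro F hF
    have := MvPolynomial.comp_aeval_apply (R := k) q
      ((Polynomial.aeval t : Polynomial K →ₐ[K] K).restrictScalars k)
      (MvPolynomial.map (algebraMap (𝓞 k) k) F)
    rw [hq F hF, map_zero] at this
    exact this.symm
  · unfold ah
    rw [lt_div_iff₀ (finrank_pos' K)]
    exact ht3

/-- the heights of the points of `X` which are represented by words of bounded complexity with
digits of bounded height are bounded -/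
def LZBounded {n : ℕ} {k : Type} [Field k] [NumberField k]
    (FF : Set (MvPolynomial (Fin (n + 1)) (𝓞 k))) : Prop :=
  ∀ (z : ℕ) (B : ℝ), ∃ C : ℝ, ∀ (K : Type) [Field K] [NumberField K] [Algebra k K] (t : K)
    (L : ℕ) (a : ℕ → Fin (n + 1) → K) (x : Fin (n + 1) → K), (∀ p, 0 < p → t ^ p ≠ 1) →
    LZ a L z → Represents t a L x → IsZero FF x → wordHeight K a L ≤ B → ah K x ≤ C

theorem lz_iff (k : Type) [Field k] [NumberField k] (n : ℕ)
    (FF : Set (MvPolynomial (Fin (n + 1)) (𝓞 k))) (d : ℕ) (hd : 1 ≤ d) (A : ℝ) (hA : 1 ≤ A)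
    (hFF : ∀ F ∈ FF, (∃ e, e ≤ d ∧ F.IsHomogeneous e) ∧ nrm F ≤ A) :
    NoRatCurve FF ↔ LZBounded FF := by
  constructor
  · intro hno z B
    refine ⟨(1 + 8 * (4 * d) ^ (6 ^ z)) * (d * B + Real.log (A * 6 ^ (z * d))), ?_⟩
    intro K _ _ _ t L a x ht hLZ hx hz hB
    refine (lz_bound k n FF d hd A hA hFF hno z K t L a x ht hLZ hx hz).trans ?_
    gcongr
  · intro h
    by_contra hcon
    obtain ⟨L, K, iK, iN, iA, a, hB⟩ := lz_unbounded k n FF hcon
    obtain ⟨C, hC⟩ := h L (wordHeight K a L)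
    obtain ⟨t, x, ht, hx, hz, hlt⟩ := hB C
    exact absurd (hC K t L a x ht (lz_self a L) hx hz le_rfl) (not_le.2 hlt)

end Pool.Agent.R343.LP
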