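import Pool.Agent.R343.LP2
import Pool.Agent.TH409.FB.Luc

set_option autoImplicit false

/-! # Words of bounded Lempel-Ziv complexity and hyperelliptic curves -/

namespace Pool.Agent.R343.LP

open Finset Height Height.AdmissibleAbsValues Pool.Agent.H533R3.SL NumberField
  Pool.Agent.TH409.SH Pool.Agent.TH409.FB

theorem hyp_lz (K : Type) [Field K] [NumberField K] (f : Polynomial ℤ)
    (hf : (f.map (Int.castRingHom ℚ)).Separable) (hd : 3 ≤ f.natDegree) (M : ℝ) (hM : 1 ≤ M)
    (hfM : ∀ i, |(f.coeff i : ℝ)| ≤ M) (x y : ℤ) (hxy : y ^ 2 = f.eval x) (t : K)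
    (ht : ∀ p, 0 < p → t ^ p ≠ 1) (L z : ℕ) (a : ℕ → Fin 3 → K) (hLZ : LZ a L z) (w : K)
    (hw : w ≠ 0) (h0 : w = ∑ j ∈ range L, t ^ (L - 1 - j) * a j 0)
    (h1 : w * x = ∑ j ∈ range L, t ^ (L - 1 - j) * a j 1)
    (h2 : w * y = ∑ j ∈ range L, t ^ (L - 1 - j) * a j 2) :
    Real.log (max |(x : ℝ)| 1) ≤ (1 + 8 * (4 * f.natDegree) ^ (6 ^ z)) *
      (f.natDegree * wordHeight K a L +
        Real.log ((f.natDegree + 2) * M * 6 ^ (z * f.natDegree))) := by
  have hx : Represents t a L (fun i => w * (![1, (x : K), (y : K)] : Fin 3 → K) i) := by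
    refine ⟨?_, ?_⟩
    · intro h
      have := congrFun h 0
      simp at this
      exact hw this
    · intro i
      fin_cases i
      · simpa using h0
      · simpa using h1
      · simpa using h2
  obtain ⟨D, hD, l, v, hv, hs⟩ := onSparse_of_lz t ht a L z _ hLZ hx
  have e0 := hs.2 0
  have e1 := hs.2 1
  have e2 := hs.2 2
  simp only [Matrix.cons_val_zero, mul_one] at e0
  simp only [Matrix.cons_val_one, Matrix.cons_val_zero] at e1
  simp only [Matrix.cons_val] at e2
  rw [← mul_assoc] at e1 e2
  have h3 := hyp_log K f hf hd M hM hfM (r := 6 ^ z) (Nat.one_le_pow _ _ (by norm_num)) t l v x y hxy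
    (D * w) (mul_ne_zero hD hw) e0 e1 e2
  refine h3.trans ?_
  have h4 := digs_height K a L (6 ^ z) v hv
  have h5 : ((6 ^ z : ℕ) : ℝ) ^ f.natDegree = 6 ^ (z * f.natDegree) := by
    push_cast
    rw [← pow_mul]
  rw [h5]
  gcongr

/-- adding a marker to the last letter costs one phrase -/
theorem lz_mark {α β : Type} (a : ℕ → α) (c : ℕ → β) (L z : ℕ) (hL : 0 < L) (h : LZ a L z)
    (hc : ∀ i j, i + 1 < L → j + 1 < L → a i = a j → c i = c j) : LZ c L (z + 1) := by
  rcases Nat.lt_or_ge 1 L with hL1 | hL1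
  · obtain ⟨b, hb0, hbz, hph⟩ := h
    refine ⟨fun i => if i ≤ z then min (b i) (L - 1) else L, ?_, ?_, ?_⟩
    · simp [hb0]
    · simp
    · intro i hi
      by_cases hiz : i < z
      · have e1 : i ≤ z := hiz.le
        have e2 : i + 1 ≤ z := hiz
        simp only [e1, e2, if_true]
        rcases Nat.lt_or_ge (b i) (L - 1) with hlt | hge
        · rcases hph i hiz with hlit | ⟨hnm, p, hp0, hpn, hcopy⟩
          · left
            omega
          · right
            refine ⟨by omega, p, hp0, by omega, ?_⟩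
            intro j hj1 hj2
            apply hc
            · omega
            · omega
            · exact hcopy j (by omega) (by omega)
        · right
          have hmono : L - 1 ≤ b (i + 1) := by
            rcases hph i hiz with hlit | ⟨hnm, _⟩
            · omega
            · omega
          refine ⟨by omega, 1, by omega, by omega, ?_⟩
          intro j hj1 hj2
          omega
      · have e1 : i = z := by omega
        subst e1
        simp only [le_refl, if_true]
        have e2 : ¬ (i + 1 ≤ i) := by omega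
        simp only [e2, if_false]
        left
        omega
  · have hL' : L = 1 := by omega
    subst hL'
    refine ⟨fun i => min i 1, rfl, by simp, ?_⟩
    intro i hi
    rcases Nat.eq_zero_or_pos i with rfl | hi0
    · left; simp
    · show Phrase c (min i 1) (min (i + 1) 1)
      have e1 : min i 1 = 1 := by omega
      have e2 : min (i + 1) 1 = 1 := by omega
      rw [e1, e2]
      right
      exact ⟨le_rfl, 1, one_pos, le_rfl, fun j h1 h2 => by omega⟩

theorem hyp_digits (f : Polynomial ℤ)
    (hf : (f.map (Int.castRingHom ℚ)).Separable) (hd : 3 ≤ f.natDegree) (M : ℝ) (hM : 1 ≤ M)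
    (hfM : ∀ i, |(f.coeff i : ℝ)| ≤ M) (x y : ℤ) (hxy : y ^ 2 = f.eval x) (b : ℤ)
    (hb : 2 ≤ |b|) (L z : ℕ) (B : ℝ) (hB : 1 ≤ B) (a a' : ℕ → ℤ) (ha : ∀ j < L, |(a j : ℝ)| ≤ B)
    (ha' : ∀ j < L, |(a' j : ℝ)| ≤ B) (hLZ : LZ (fun j => (a j, a' j)) L z)
    (hx : x = ∑ j ∈ range L, b ^ (L - 1 - j) * a j)
    (hy : y = ∑ j ∈ range L, b ^ (L - 1 - j) * a' j) :
    max |(x : ℝ)| 1 ≤ ((f.natDegree + 2) * M * (6 ^ (z + 1) * B) ^ f.natDegree) ^
      (1 + 8 * (4 * f.natDegree) ^ (6 ^ (z + 1))) := by
  have hE1 : (1 : ℝ) ≤ (f.natDegree + 2) * M * (6 ^ (z + 1) * B) ^ f.natDegree := by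
    have h1 : (1 : ℝ) ≤ 6 ^ (z + 1) := one_le_pow₀ (by norm_num)
    have h2 : (1 : ℝ) ≤ (6 ^ (z + 1) * B) ^ f.natDegree := one_le_pow₀ (by nlinarith)
    have h3 : (0 : ℝ) ≤ f.natDegree := Nat.cast_nonneg _
    have h4 : (1 : ℝ) ≤ (f.natDegree + 2) * M := by nlinarith
    nlinarith
  rcases Nat.eq_zero_or_pos L with hL | hL
  · have hx0 : x = 0 := by rw [hx, hL]; simp
    rw [hx0]
    simp only [Int.cast_zero, abs_zero]
    rw [max_eq_right zero_le_one]
    exact one_le_pow₀ hE1
  · set c : ℕ → Fin 3 → ℚ := fun j => ![if j = L - 1 then 1 else 0, (a j : ℚ), (a' j : ℚ)] with hc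
    have hLZc : LZ c L (z + 1) := by
      refine lz_mark _ c L z hL hLZ ?_
      intro i j hi hj hij
      simp only [Prod.mk.injEq] at hij
      have e1 : i ≠ L - 1 := by omega
      have e2 : j ≠ L - 1 := by omega
      simp only [hc, e1, e2, if_false, hij.1, hij.2]
    have ht : ∀ p, 0 < p → ((b : ℚ)) ^ p ≠ 1 := by
      intro p hp h
      have h1 : b ^ p = 1 := by exact_mod_cast h
      have h2 : |b| ^ p = 1 := by rw [← abs_pow, h1, abs_one]
      have h3 : (1 : ℤ) < |b| ^ p := one_lt_pow₀ (by omega) hp.ne'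
      omega
    have h0 : (1 : ℚ) = ∑ j ∈ range L, (b : ℚ) ^ (L - 1 - j) * c j 0 := by
      have : ∀ j ∈ range L, (b : ℚ) ^ (L - 1 - j) * c j 0 = if j = L - 1 then 1 else 0 := by
        intro j hj
        simp only [hc, Matrix.cons_val_zero]
        split_ifs with h
        · rw [h]; simp
        · simp
      rw [Finset.sum_congr rfl this, Finset.sum_ite_eq' (range L) (L - 1)]
      rw [if_pos (Finset.mem_range.2 (by omega))]
    have h1 : (1 : ℚ) * (x : ℚ) = ∑ j ∈ range L, (b : ℚ) ^ (L - 1 - j) * c j 1 := by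
      rw [one_mul, hx]
      push_cast
      refine Finset.sum_congr rfl fun j _ => ?_
      simp [hc]
    have h2 : (1 : ℚ) * (y : ℚ) = ∑ j ∈ range L, (b : ℚ) ^ (L - 1 - j) * c j 2 := by
      rw [one_mul, hy]
      push_cast
      refine Finset.sum_congr rfl fun j _ => ?_
      simp [hc]
    have hmain := hyp_lz ℚ f hf hd M hM hfM x y hxy (b : ℚ) ht L (z + 1) c hLZc 1 one_ne_zero h0 h1 h2
    have hH : mulHeight (fun q : Fin L × Fin 3 => c q.1 q.2) ≤ B ^ totalWeight ℚ := by
      have hints := height_ints (K := ℚ) (fun q : Fin L × Fin 3 =>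
        (![if (q.1 : ℕ) = L - 1 then 1 else 0, a q.1, a' q.1] : Fin 3 → ℤ) q.2) B hB (by
          rintro ⟨j, g⟩
          fin_cases g
          · simp only
            split_ifs with h
            · simpa using hB
            · simpa using le_trans zero_le_one hB
          · simpa using ha j j.2
          · simpa using ha' j j.2)
      refine le_trans (le_of_eq ?_) hints
      congr 1
      funext q
      obtain ⟨j, g⟩ := q
      fin_cases g
      · simp only [hc]
        by_cases h : (j : ℕ) = L - 1
        · simp [h]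
        · simp [h]
      · simp [hc]
      · simp [hc]
    have hW : wordHeight ℚ c L ≤ Real.log B := by
      unfold wordHeight ah
      rw [Module.finrank_self]
      simp only [Nat.cast_one, div_one]
      rw [logHeight_eq_log_mulHeight]
      refine (Real.log_le_log (mulHeight_pos _) hH).trans ?_
      rw [Real.log_pow, totalWeight_eq_finrank, Module.finrank_self]
      simp
    have hlogB : 0 ≤ Real.log B := Real.log_nonneg hB
    have hfin : Real.log (max |(x : ℝ)| 1) ≤ (1 + 8 * (4 * f.natDegree) ^ (6 ^ (z + 1))) *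
        Real.log ((f.natDegree + 2) * M * (6 ^ (z + 1) * B) ^ f.natDegree) := by
      refine hmain.trans ?_
      have hB0 : 0 < B := by linarith
      have e : Real.log ((f.natDegree + 2) * M * (6 ^ (z + 1) * B) ^ f.natDegree) =
          f.natDegree * Real.log B +
          Real.log ((f.natDegree + 2) * M * 6 ^ ((z + 1) * f.natDegree)) := by
        rw [mul_pow, ← pow_mul, ← mul_assoc, Real.log_mul, Real.log_pow]
        · ring
        · positivity
        · positivity
      rw [e]
      gcongr
    have hpos : 0 < max |(x : ℝ)| 1 := lt_of_lt_of_le one_pos (le_max_right _ _)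
    rw [← Real.log_le_log_iff hpos (by positivity), Real.log_pow]
    refine hfin.trans (le_of_eq ?_)
    push_cast
    ring

end Pool.Agent.R343.LP
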