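import Pool.Agent.R343.LI1

set_option autoImplicit false
set_option linter.unusedSectionVars false

/-! # Transfer from sparse integers to integers with compressible expansions -/

namespace Pool.Agent.R343.LT

open Finset Pool.Agent.R343.LP Pool.Agent.R343.LI

/-- `x` is the value in base `b` of a word of `N` integral letters of absolute value at most `B` with
at most `z` Lempel-Ziv phrases, `N log b ≤ Λ` -/
def LZInt (b : ℕ) (z : ℕ) (B : ℤ) (Λ : ℝ) (x : ℤ) : Prop :=
  ∃ (a : ℕ → ℤ) (N : ℕ), LZ a N z ∧ (∀ j < N, |a j| ≤ B) ∧ N * Real.log b ≤ Λ ∧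
    x = ∑ j ∈ range N, (b : ℤ) ^ (N - 1 - j) * a j

/-- `D x` is a sum of `T` terms `v b ^ l` with integers `v`, `|v| ≤ B` -/
def SpInt (b : ℕ) (T : ℕ) (B : ℤ) (x : ℤ) : Prop :=
  ∃ (l : Fin T → ℕ) (v : Fin T → ℤ), (∀ j, |v j| ≤ B) ∧ x = ∑ j, v j * (b : ℤ) ^ l j

/-- integral letters as rational numbers -/
def lett (B : ℤ) : Set ℚ := {w | ∃ n : ℤ, |n| ≤ B ∧ w = n}

theorem pow_ne_one {b : ℕ} (hb : 2 ≤ b) (q : ℕ) (hq : 0 < q) : (b : ℚ) ^ q ≠ 1 := by
  have h : (1 : ℚ) < (b : ℚ) ^ q := one_lt_pow₀ (by exact_mod_cast hb) hq.ne'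
  exact h.ne'

/-- the natural number which is the denominator -/
theorem den_nat {b : ℕ} (hb : 2 ≤ b) (p : ℕ → ℕ) (S : ℕ → Prop) (E : ℝ) (hE : 0 ≤ E) :
    ∀ z : ℕ, (∀ k < z, S k → p k * Real.log b ≤ E) →
      ∃ D : ℕ, 0 < D ∧ Real.log D ≤ z * E ∧ den (b : ℚ) p S z = D := by
  intro z
  induction z with
  | zero =>
    intro _
    refine ⟨1, one_pos, by simp, ?_⟩
    rw [den, Finset.range_zero, Finset.prod_empty]
    simp
  | succ z ih =>
    intro h
    obtain ⟨D, hD0, hD1, hD2⟩ := ih fun k hk => h k (by omega)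
    have hden : den (b : ℚ) p S (z + 1) = den (b : ℚ) p S z * fac (b : ℚ) p S z := by
      unfold den
      rw [Finset.prod_range_succ]
    have hb0 : 0 < b := by omega
    by_cases hS : S z ∧ 0 < p z
    · have hf : fac (b : ℚ) p S z = ((b ^ p z - 1 : ℕ) : ℚ) := by
        unfold fac
        rw [if_pos hS, Nat.cast_sub (Nat.one_le_pow _ _ hb0)]
        push_cast
        rfl
      have h2 : 2 ≤ b ^ p z := by
        calc 2 ≤ b := hb
          _ = b ^ 1 := (pow_one b).symm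
          _ ≤ b ^ p z := Nat.pow_le_pow_right hb0 hS.2
      have h3 : 0 < b ^ p z - 1 := by omega
      refine ⟨D * (b ^ p z - 1), Nat.mul_pos hD0 h3, ?_, ?_⟩
      · rw [Nat.cast_mul, Real.log_mul (by positivity) (by
          have : ((b ^ p z - 1 : ℕ) : ℝ) ≠ 0 := by exact_mod_cast h3.ne'
          exact this)]
        have h4 : Real.log ((b ^ p z - 1 : ℕ) : ℝ) ≤ E := by
          refine le_trans ?_ (h z (by omega) hS.1)
          rw [← Real.log_pow]
          refine Real.log_le_log (by exact_mod_cast h3) ?_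
          have : b ^ p z - 1 ≤ b ^ p z := Nat.sub_le _ _
          exact_mod_cast this
        push_cast
        linarith
      · rw [hden, hD2, hf, Nat.cast_mul]
    · refine ⟨D, hD0, ?_, ?_⟩
      · push_cast
        linarith
      · rw [hden, hD2]
        unfold fac
        rw [if_neg hS, mul_one]

/-- one coordinate -/
theorem coordInt {b : ℕ} (hb : 2 ≤ b) (z W : ℕ) (B : ℤ) (hB : 0 ≤ B) (E : ℝ) (hE : 0 ≤ E)
    (a : ℕ → ℤ) (N : ℕ) (c p : ℕ → ℕ) (hc0 : c 0 = 0) (hcz : c z = N)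
    (hph : ∀ i < z, Ph a (c i) (c (i + 1)) (p i)) (ha : ∀ j < N, |a j| ≤ B)
    (hbd : ∀ k < z, (p k * Real.log b ≤ E) ∨ N ≤ W * p k) :
    ∃ D : ℕ, 0 < D ∧ Real.log D ≤ z * E ∧
      SpInt b ((2 * W + 6) ^ z) B (D * ∑ j ∈ range N, (b : ℤ) ^ (N - 1 - j) * a j) := by
  have hcmono : ∀ i < z, c i ≤ c (i + 1) := by
    intro i hi
    rcases hph i hi with h | ⟨h, _⟩
    · omega
    · exact h
  have hcL : ∀ i ≤ z, c i ≤ N := by
    intro i hi
    rw [← hcz]
    have : ∀ j, i + j ≤ z → c i ≤ c (i + j) := by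
      intro j
      induction j with
      | zero => intro _; exact le_rfl
      | succ j ih =>
        intro hj
        exact (ih (by omega)).trans (hcmono (i + j) (by omega))
    have h1 := this (z - i) (by omega)
    have h2 : i + (z - i) = z := by omega
    rwa [h2] at h1
  let S : ℕ → Prop := fun k => p k * Real.log b ≤ E
  obtain ⟨D, hD0, hD1, hD2⟩ := den_nat hb p S E hE z fun k _ h => h
  obtain ⟨-, hm⟩ := mixed (b : ℚ) (fun j => (a j : ℚ)) (lett B) ⟨0, by simpa using hB, by simp⟩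
    (by
      rintro w ⟨n, hn, rfl⟩
      exact ⟨-n, by rwa [abs_neg], by push_cast; rfl⟩) c p hc0 z N W
    (fun j hj => ⟨a j, ha j hj, rfl⟩) hcL
    (fun i hi => by
      rcases hph i hi with h | ⟨h1, h2, h3, h4⟩
      · exact Or.inl h
      · exact Or.inr ⟨h1, h2, h3, fun j hj1 hj2 => by
          show ((a j : ℤ) : ℚ) = ((a (j - p i) : ℤ) : ℚ)
          rw [h4 j hj1 hj2]⟩) S
    (fun i hi => (hbd i hi).imp id fun h => (hcL (i + 1) (by omega)).trans h) z le_rfl
  obtain ⟨l, v, hv, he⟩ := hm N (by rw [hcz])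
  choose n hn1 hn2 using hv
  refine ⟨D, hD0, hD1, l, n, hn1, ?_⟩
  have h1 : (((D : ℤ) * ∑ j ∈ range N, (b : ℤ) ^ (N - 1 - j) * a j : ℤ) : ℚ) =
      ((∑ j, n j * (b : ℤ) ^ l j : ℤ) : ℚ) := by
    push_cast
    rw [hD2, P_eq] at he
    simp only [smul_eq_mul] at he
    rw [he]
    refine Finset.sum_congr rfl fun j _ => ?_
    rw [hn2 j, mul_comm]
  exact_mod_cast h1

/-- **Transfer.** -/
theorem transfer {ι X : Type} [Fintype ι] [DecidableEq ι] (b : ι → ℕ) (hb : ∀ i, 2 ≤ b i) (z : ℕ)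
    (B : ℤ) (hB : 0 ≤ B) (M : ℝ) (hM : 0 ≤ M) (Φ : ℝ → X → Prop)
    (hmono : ∀ C C' P, C ≤ C' → Φ C P → Φ C' P) (H : X → ℝ) (hH : ∀ P, 0 ≤ H P)
    (x : X → ι → ℤ)
    (hyp : ∀ T : ℕ, ∃ δ : ℝ, 0 < δ ∧ ∃ C : ℝ, ∀ (P : X) (D : ι → ℕ), (∀ i, 0 < D i) →
      (∀ i, Real.log (D i) ≤ δ * (1 + H P)) → (∀ i, SpInt (b i) T B (D i * x P i)) → Φ C P) :
    ∃ C : ℝ, ∀ P : X, (∀ i, LZInt (b i) z B (M * (1 + H P)) (x P i)) → Φ C P := by
  classical
  -- the data
  let Dat : X → (ι → ℕ → ℤ) → (ι → ℕ) → (ι → ℕ → ℕ) → (ι → ℕ → ℕ) → Prop := fun P a N c p =>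
    ∀ i, c i 0 = 0 ∧ c i z = N i ∧ (∀ k < z, Ph (a i) (c i k) (c i (k + 1)) (p i k)) ∧
      (∀ j < N i, |a i j| ≤ B) ∧ N i * Real.log (b i) ≤ M * (1 + H P) ∧
      x P i = ∑ j ∈ range (N i), (b i : ℤ) ^ (N i - 1 - j) * a i j
  have hlog : ∀ i, 0 < Real.log (b i) := fun i =>
    Real.log_pos (by exact_mod_cast (hb i))
  -- no period of middle size
  have nomid : ∀ δ : ℝ, 0 < δ → ∃ δ' : ℝ, 0 < δ' ∧ δ' ≤ δ ∧ ∃ C : ℝ, ∀ P a N c p,
      Dat P a N c p → (∀ i, ∀ k < z, p i k * Real.log (b i) < δ' * (1 + H P) ∨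
        δ * (1 + H P) ≤ p i k * Real.log (b i)) → Φ C P := by
    intro δ hδ
    obtain ⟨δ1, hδ1, C, hC⟩ := hyp ((2 * ⌈M / δ⌉₊ + 6) ^ z)
    refine ⟨min δ (δ1 / (z + 1)), lt_min hδ (by positivity), min_le_left _ _, C, ?_⟩
    intro P a N c p hd hmid
    have hHP := hH P
    set δ' := min δ (δ1 / (z + 1)) with hδ'
    have hδ'0 : 0 < δ' := lt_min hδ (by positivity)
    have hzδ : z * δ' ≤ δ1 := by
      have h1 : δ' ≤ δ1 / (z + 1) := min_le_right _ _
      rw [le_div_iff₀ (by positivity)] at h1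
      nlinarith
    have hco : ∀ i, ∃ D : ℕ, 0 < D ∧ Real.log D ≤ δ1 * (1 + H P) ∧
        SpInt (b i) ((2 * ⌈M / δ⌉₊ + 6) ^ z) B (D * x P i) := by
      intro i
      obtain ⟨k1, k2, k3, k4, k5, k6⟩ := hd i
      obtain ⟨D, hD0, hD1, hD2⟩ := coordInt (hb i) z ⌈M / δ⌉₊ B hB (δ' * (1 + H P))
        (by positivity) (a i) (N i) (c i) (p i) k1 k2 k3 k4 (by
          intro k hk
          rcases hmid i k hk with h | h
          · exact Or.inl h.le
          · right
            have e1 : (N i : ℝ) * Real.log (b i) ≤ (M / δ * p i k) * Real.log (b i) := by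
              refine k5.trans ?_
              calc M * (1 + H P) = M / δ * (δ * (1 + H P)) := by field_simp
                _ ≤ M / δ * (p i k * Real.log (b i)) :=
                    mul_le_mul_of_nonneg_left h (by positivity)
                _ = _ := by ring
            have e2 : (N i : ℝ) ≤ M / δ * p i k := le_of_mul_le_mul_right e1 (hlog i)
            have e3 : (N i : ℝ) ≤ (⌈M / δ⌉₊ * p i k : ℕ) := by
              push_cast
              refine e2.trans ?_
              exact mul_le_mul_of_nonneg_right (Nat.le_ceil _) (Nat.cast_nonneg _)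
            exact_mod_cast e3)
      refine ⟨D, hD0, ?_, ?_⟩
      · refine hD1.trans ?_
        calc (z : ℝ) * (δ' * (1 + H P)) = (z * δ') * (1 + H P) := by ring
          _ ≤ δ1 * (1 + H P) := mul_le_mul_of_nonneg_right hzδ (by linarith)
      · rw [k6]
        exact hD2
    choose D hD0 hD1 hD2 using hco
    exact hC P D hD0 hD1 hD2
  have claim : ∀ (s : ℕ) (δ : ℝ), 0 < δ → ∃ C : ℝ, ∀ P a N c p, Dat P a N c p →
      (Finset.univ.filter fun q : ι × Fin z =>
        p q.1 q.2 * Real.log (b q.1) < δ * (1 + H P)).card ≤ s → Φ C P := by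
    intro s
    induction s with
    | zero =>
      intro δ hδ
      obtain ⟨δ', h0, hle, C, hC⟩ := nomid δ hδ
      refine ⟨C, fun P a N c p hd hcard => hC P a N c p hd ?_⟩
      intro i k hk
      right
      by_contra hcon
      have : (i, (⟨k, hk⟩ : Fin z)) ∈ (Finset.univ.filter fun q : ι × Fin z =>
          p q.1 q.2 * Real.log (b q.1) < δ * (1 + H P)) := by
        rw [Finset.mem_filter]
        exact ⟨Finset.mem_univ _, not_le.1 hcon⟩
      have h2 := Finset.card_pos.2 ⟨_, this⟩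
      omega
    | succ s ih =>
      intro δ hδ
      obtain ⟨δ', h0, hle, C, hC⟩ := nomid δ hδ
      obtain ⟨C', hC'⟩ := ih δ' h0
      refine ⟨max C C', fun P a N c p hd hcard => ?_⟩
      have hHP := hH P
      by_cases hmid : ∀ i, ∀ k < z, p i k * Real.log (b i) < δ' * (1 + H P) ∨
          δ * (1 + H P) ≤ p i k * Real.log (b i)
      · exact hmono _ _ _ (le_max_left _ _) (hC P a N c p hd hmid)
      · push Not at hmid
        obtain ⟨i, k, hk, h3, h4⟩ := hmid
        refine hmono _ _ _ (le_max_right _ _) (hC' P a N c p hd ?_)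
        have hss : (Finset.univ.filter fun q : ι × Fin z =>
            p q.1 q.2 * Real.log (b q.1) < δ' * (1 + H P)) ⊂
            (Finset.univ.filter fun q : ι × Fin z =>
            p q.1 q.2 * Real.log (b q.1) < δ * (1 + H P)) := by
          rw [Finset.ssubset_iff_of_subset]
          · refine ⟨(i, ⟨k, hk⟩), ?_, ?_⟩
            · rw [Finset.mem_filter]
              exact ⟨Finset.mem_univ _, h4⟩
            · rw [Finset.mem_filter]
              rintro ⟨_, h5⟩
              exact absurd h5 (not_lt.2 h3)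
          · intro q hq
            rw [Finset.mem_filter] at hq ⊢
            refine ⟨Finset.mem_univ _, hq.2.trans_le ?_⟩
            exact mul_le_mul_of_nonneg_right hle (by linarith)
        have := Finset.card_lt_card hss
        omega
  obtain ⟨C, hC⟩ := claim (Fintype.card ι * z) 1 one_pos
  refine ⟨C, fun P h => ?_⟩
  choose a N h1 h2 h3 h4 using h
  have h1' : ∀ i, ∃ c p : ℕ → ℕ, c 0 = 0 ∧ c z = N i ∧
      ∀ k < z, Ph (a i) (c k) (c (k + 1)) (p k) := by
    intro i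
    obtain ⟨c, hc0, hcz, hph⟩ := h1 i
    have : ∀ k, ∃ p, k < z → Ph (a i) (c k) (c (k + 1)) p := by
      intro k
      by_cases hk : k < z
      · rcases hph k hk with h | ⟨h, p, hp0, hp1, hp2⟩
        · exact ⟨0, fun _ => Or.inl h⟩
        · exact ⟨p, fun _ => Or.inr ⟨h, hp0, hp1, hp2⟩⟩
      · exact ⟨0, fun h => absurd h hk⟩
    choose p hp using this
    exact ⟨c, p, hc0, hcz, hp⟩
  choose c p hc0 hcz hph using h1'
  refine hC P a N c p (fun i => ⟨hc0 i, hcz i, hph i, h2 i, h3 i, h4 i⟩) ?_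
  refine (Finset.card_le_univ _).trans ?_
  simp

end Pool.Agent.R343.LT
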