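import Pool.Agent.R343.LT3
import Pool.Agent.TH551.HA.Fin

set_option autoImplicit false
set_option linter.unusedSectionVars false

/-! # Hall's inequality for integers with compressible expansions -/

namespace Pool.Agent.R343.LT

open Finset Pool.Agent.R343.LP Pool.Agent.R343.LI

/-- `x` is a sum of products of an element of `Γ` and an integer with a compressible expansion in
base `b i` -/
def Comp (Γ : Subgroup ℚˣ) {r : ℕ} (b : Fin r → ℕ) (z : ℕ) (B : ℤ) (Λ : ℝ) (x : ℤ) : Prop :=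
  ∃ (g : Fin r → ℚˣ) (w : Fin r → ℤ), (∀ i, g i ∈ Γ) ∧ (∀ i, LZWd (b i) z B Λ (w i)) ∧
    (x : ℚ) = ∑ i, ((g i : ℚˣ) : ℚ) * w i

/-- the base as a unit -/
noncomputable def ub (b : ℕ) : ℚˣ := if h : (b : ℚ) ≠ 0 then Units.mk0 (b : ℚ) h else 1

lemma ub_val {b : ℕ} (hb : 2 ≤ b) : ((ub b : ℚˣ) : ℚ) = b := by
  have h : (b : ℚ) ≠ 0 := by
    have : b ≠ 0 := by omega
    exact_mod_cast this
  unfold ub
  rw [dif_pos h]
  rfl

lemma abs_le_real {n : ℤ} {B : ℤ} (h : |n| ≤ B) : |(n : ℝ)| ≤ B := by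
  rw [← Int.cast_abs]
  exact_mod_cast h

theorem one_le_max {p q : ℕ} (hp : 1 ≤ p) (hq : 1 ≤ q) {x y : ℤ} (hne : y ^ q ≠ x ^ p) :
    (1 : ℝ) ≤ max (|(x : ℝ)| ^ p) (|(y : ℝ)| ^ q) := by
  by_cases hx : x = 0
  · have hy : y ≠ 0 := by
      rintro rfl
      apply hne
      rw [hx, zero_pow (by omega), zero_pow (by omega)]
    refine le_max_of_le_right (one_le_pow₀ ?_)
    have : 1 ≤ |y| := Int.one_le_abs hy
    exact_mod_cast this
  · refine le_max_of_le_left (one_le_pow₀ ?_)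
    have : 1 ≤ |x| := Int.one_le_abs hx
    exact_mod_cast this

/-- **Hall's inequality.** -/
theorem hallLZ (p q : ℕ) (hp : 1 ≤ p) (hq : 1 ≤ q) (Γ : Subgroup ℚˣ) (hΓ : Γ.FG) {r r' : ℕ}
    (b : Fin r → ℕ) (hb : ∀ i, 2 ≤ b i) (b' : Fin r' → ℕ) (hb' : ∀ i, 2 ≤ b' i) (z : ℕ) (B : ℤ)
    (hB : 0 ≤ B) (M ε : ℝ) (hM : 0 ≤ M) (hε : 0 < ε) :
    ∃ C : ℝ, 0 < C ∧ ∀ x y : ℤ, y ^ q ≠ x ^ p →
      Comp Γ b z B (M * (1 + Real.log (max (|(x : ℝ)| ^ p) (|(y : ℝ)| ^ q)))) x →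
      Comp Γ b' z B (M * (1 + Real.log (max (|(x : ℝ)| ^ p) (|(y : ℝ)| ^ q)))) y →
      (max (|(x : ℝ)| ^ p) (|(y : ℝ)| ^ q)) ^ (1 - 1 / (p : ℝ) - 1 / (q : ℝ) - ε) ≤
        C * |(y : ℝ) ^ q - (x : ℝ) ^ p| := by
  classical
  let ι := Fin r ⊕ Fin r'
  let X := ((ℤ × ℤ) × (Fin r → Γ) × (Fin r' → Γ)) × (ι → ℤ)
  let bb : ι → ℕ := Sum.elim b b'
  have hbb : ∀ i, 2 ≤ bb i := by
    rintro (i | i)
    · exact hb i
    · exact hb' i
  let Z : ℤ → ℤ → ℝ := fun x y => max (|(x : ℝ)| ^ p) (|(y : ℝ)| ^ q)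
  let H : X → ℝ := fun P => Real.log (max 1 (Z P.1.1.1 P.1.1.2))
  let Φ : ℝ → X → Prop := fun C P =>
    (P.1.1.1 : ℚ) = ∑ i, ((P.1.2.1 i : ℚˣ) : ℚ) * P.2 (Sum.inl i) →
    (P.1.1.2 : ℚ) = ∑ i, ((P.1.2.2 i : ℚˣ) : ℚ) * P.2 (Sum.inr i) →
    P.1.1.2 ^ q ≠ P.1.1.1 ^ p →
    (Z P.1.1.1 P.1.1.2) ^ (1 - 1 / (p : ℝ) - 1 / (q : ℝ) - ε) ≤
      C * |(P.1.1.2 : ℝ) ^ q - (P.1.1.1 : ℝ) ^ p|
  have hmono : ∀ C C' P, C ≤ C' → Φ C P → Φ C' P := by
    intro C C' P hC h h1 h2 h3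
    exact (h h1 h2 h3).trans (mul_le_mul_of_nonneg_right hC (abs_nonneg _))
  have hH : ∀ P, 0 ≤ H P := fun P => Real.log_nonneg (le_max_left _ _)
  obtain ⟨C, hC⟩ := transferQ bb hbb z B hB M hM Φ hmono H hH (fun P => P.2) (by
    intro T
    -- the group
    let Γ' : Subgroup ℚˣ := Γ ⊔ Subgroup.closure (Set.range fun i => ub (bb i))
    have hΓ' : Γ'.FG := hΓ.sup ((Subgroup.fg_iff _).2 ⟨_, rfl, Set.finite_range _⟩)
    let J := ι × Fin T
    let e : Fin (Fintype.card J) ≃ J := (Fintype.equivFin J).symm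
    obtain ⟨K, hK, hall⟩ := Pool.Agent.TH551.HA.hallPow p q (Fintype.card J) hp hq Γ' hΓ' (ε / 2)
      (by positivity)
    obtain ⟨R, hR⟩ : ∃ R : ℝ, R = K * (p + q : ℕ) + (p * q : ℕ) := ⟨_, rfl⟩
    have hp0 : (0 : ℝ) < p := by exact_mod_cast hp
    have hR0 : 0 < R := by rw [hR]; positivity
    have hcard : (0 : ℝ) < Fintype.card ι + 1 := by positivity
    have hB0 : (0 : ℝ) ≤ B := by exact_mod_cast hB
    refine ⟨ε / (2 * (Fintype.card ι + 1) * R), by positivity,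
      max 1 (Real.exp (K * Real.log (K * (B + 1)) + ε / 2)), ?_⟩
    rintro ⟨⟨⟨x, y⟩, g, h⟩, w⟩ D hD0 hDlog hsp hx hy hne
    simp only at hx hy hne
    have hZ1 : 1 ≤ Z x y := one_le_max hp hq hne
    have hZ0 : 0 < Z x y := by linarith
    have hHZ : H (((x, y), g, h), w) = Real.log (Z x y) := by
      show Real.log (max 1 (Z x y)) = _
      rw [max_eq_right hZ1]
    rw [hHZ] at hDlog
    have hlZ : 0 ≤ Real.log (Z x y) := Real.log_nonneg hZ1
    have hdiff : (1 : ℝ) ≤ |(y : ℝ) ^ q - (x : ℝ) ^ p| := by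
      have h1 : (1 : ℤ) ≤ |y ^ q - x ^ p| := Int.one_le_abs (sub_ne_zero.2 hne)
      have h2 : ((1 : ℤ) : ℝ) ≤ ((|y ^ q - x ^ p| : ℤ) : ℝ) := by exact_mod_cast h1
      push_cast at h2
      exact h2
    show (Z x y) ^ (1 - 1 / (p : ℝ) - 1 / (q : ℝ) - ε) ≤ _ * |(y : ℝ) ^ q - (x : ℝ) ^ p|
    rcases le_or_gt (1 - 1 / (p : ℝ) - 1 / (q : ℝ) - ε) 0 with hθ | hθ
    · calc (Z x y) ^ (1 - 1 / (p : ℝ) - 1 / (q : ℝ) - ε) ≤ 1 :=
            Real.rpow_le_one_of_one_le_of_nonpos hZ1 hθ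
        _ ≤ 1 * |(y : ℝ) ^ q - (x : ℝ) ^ p| := by rwa [one_mul]
        _ ≤ _ := mul_le_mul_of_nonneg_right (le_max_left _ _) (abs_nonneg _)
    -- the common denominator
    obtain ⟨DD, hDD⟩ : ∃ DD : ℕ, DD = ∏ s, D s := ⟨_, rfl⟩
    have hDD0 : 0 < DD := by
      rw [hDD]
      exact Finset.prod_pos fun s _ => hD0 s
    let Q : ι → ℕ := fun s => ∏ s' ∈ Finset.univ.erase s, D s'
    have hQ : ∀ s, Q s * D s = DD := fun s => by
      rw [hDD]
      exact Finset.prod_erase_mul _ _ (Finset.mem_univ s)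
    have hQ1 : ∀ s, 1 ≤ Q s := fun s => Finset.prod_pos fun s' _ => hD0 s'
    have hQle : ∀ s, Q s ≤ DD := fun s => by
      rw [← hQ s]
      exact Nat.le_mul_of_pos_right _ (hD0 s)
    have hDDlog : Real.log DD ≤ Fintype.card ι * (ε / (2 * (Fintype.card ι + 1) * R) *
        (1 + Real.log (Z x y))) := by
      rw [hDD]
      push_cast
      rw [Real.log_prod (fun s _ => by exact_mod_cast (hD0 s).ne')]
      refine (Finset.sum_le_sum fun s _ => hDlog s).trans ?_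
      rw [Finset.sum_const, Finset.card_univ, nsmul_eq_mul]
    have hDDlog2 : R * Real.log DD ≤ ε / 2 * (1 + Real.log (Z x y)) := by
      calc R * Real.log DD ≤ R * (Fintype.card ι * (ε / (2 * (Fintype.card ι + 1) * R) *
            (1 + Real.log (Z x y)))) := mul_le_mul_of_nonneg_left hDDlog hR0.le
        _ = (Fintype.card ι / (Fintype.card ι + 1)) * (ε / 2 * (1 + Real.log (Z x y))) := by
            field_simp
        _ ≤ 1 * (ε / 2 * (1 + Real.log (Z x y))) := by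
            refine mul_le_mul_of_nonneg_right ?_ (by positivity)
            rw [div_le_one hcard]
            linarith
        _ = _ := one_mul _
    choose l v hv hlv using hsp
    have hubm : ∀ s, ub (bb s) ∈ Γ' := fun s =>
      Subgroup.mem_sup_right (Subgroup.subset_closure ⟨s, rfl⟩)
    let gg : ι → ℚˣ := Sum.elim (fun i => (g i : ℚˣ)) (fun i => (h i : ℚˣ))
    have hggm : ∀ s, gg s ∈ Γ' := by
      rintro (i | i)
      · exact Subgroup.mem_sup_left (g i).2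
      · exact Subgroup.mem_sup_left (h i).2
    let uJ : J → Γ' := fun t => ⟨gg t.1 * ub (bb t.1) ^ l t.1 t.2,
      Γ'.mul_mem (hggm _) (Γ'.zpow_mem (hubm _) _)⟩
    have huJ : ∀ t : J, (((uJ t : ℚˣ)) : ℚ) = (gg t.1 : ℚ) * (bb t.1 : ℚ) ^ l t.1 t.2 := by
      intro t
      show ((gg t.1 * ub (bb t.1) ^ l t.1 t.2 : ℚˣ) : ℚ) = _
      rw [Units.val_mul, Units.val_zpow_eq_zpow_val, ub_val (hbb _)]
    let aJ : J → ℤ := fun t => Sum.elim (fun _ => (DD : ℤ) ^ (q - 1) * Q t.1 * v t.1 t.2)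
      (fun _ => 0) t.1
    let cJ : J → ℤ := fun t => Sum.elim (fun _ => 0)
      (fun _ => (DD : ℤ) ^ (p - 1) * Q t.1 * v t.1 t.2) t.1
    obtain ⟨MM, hMM⟩ : ∃ MM : ℝ, MM = (DD : ℝ) ^ (p + q) * (B + 1) := ⟨_, rfl⟩
    have hDD1 : (1 : ℝ) ≤ DD := by exact_mod_cast hDD0
    have hMM1 : 1 ≤ MM := by
      rw [hMM]
      have h1 : (1 : ℝ) ≤ (DD : ℝ) ^ (p + q) := one_le_pow₀ hDD1
      nlinarith
    have hcoef : ∀ (n : ℕ) (hn : n + 1 ≤ p + q) (t : J),
        |(((DD : ℤ) ^ n * Q t.1 * v t.1 t.2 : ℤ) : ℝ)| ≤ MM := by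
      intro n hn t
      have h1 := abs_le_real (hv t.1 t.2)
      push_cast
      rw [abs_mul, abs_mul, abs_of_pos (show (0 : ℝ) < (DD : ℝ) ^ n by positivity),
        abs_of_nonneg (Nat.cast_nonneg _), hMM]
      have h2 : (Q t.1 : ℝ) ≤ DD := by exact_mod_cast hQle t.1
      calc (DD : ℝ) ^ n * Q t.1 * |(v t.1 t.2 : ℝ)| ≤ (DD : ℝ) ^ n * DD * (B + 1) := by
            refine mul_le_mul (mul_le_mul_of_nonneg_left h2 (by positivity)) (by linarith)
              (abs_nonneg _) (by positivity)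
        _ = (DD : ℝ) ^ (n + 1) * (B + 1) := by rw [pow_succ]
        _ ≤ (DD : ℝ) ^ (p + q) * (B + 1) := by
            refine mul_le_mul_of_nonneg_right (pow_le_pow_right₀ hDD1 hn) (by linarith)
    have haJ : ∀ t, |(aJ t : ℝ)| ≤ MM := by
      intro t
      rcases ht : t.1 with i | i
      · have e1 : aJ t = (DD : ℤ) ^ (q - 1) * Q t.1 * v t.1 t.2 := by
          show Sum.elim _ _ t.1 = _
          rw [ht]
          rfl
        rw [e1]
        exact hcoef (q - 1) (by omega) t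
      · have e1 : aJ t = 0 := by
          show Sum.elim _ _ t.1 = _
          rw [ht]
          rfl
        rw [e1, Int.cast_zero, abs_zero]
        linarith
    have hcJ : ∀ t, |(cJ t : ℝ)| ≤ MM := by
      intro t
      rcases ht : t.1 with i | i
      · have e1 : cJ t = 0 := by
          show Sum.elim _ _ t.1 = _
          rw [ht]
          rfl
        rw [e1, Int.cast_zero, abs_zero]
        linarith
      · have e1 : cJ t = (DD : ℤ) ^ (p - 1) * Q t.1 * v t.1 t.2 := by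
          show Sum.elim _ _ t.1 = _
          rw [ht]
          rfl
        rw [e1]
        exact hcoef (p - 1) (by omega) t
    have hsum : ∀ s : ι, ∑ j, (v s j : ℚ) * (bb s : ℚ) ^ l s j = D s * w s := by
      intro s
      have h1 := hlv s
      push_cast at h1
      exact h1.symm
    have hterm : ∀ (n : ℕ) (s : ι), ∑ j : Fin T, ((gg s : ℚ) * (bb s : ℚ) ^ l s j) *
        (((DD : ℤ) ^ n * Q s * v s j : ℤ) : ℚ) = (DD : ℚ) ^ (n + 1) * ((gg s : ℚ) * w s) := by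
      intro n s
      have h1 : ∀ j : Fin T, ((gg s : ℚ) * (bb s : ℚ) ^ l s j) *
          (((DD : ℤ) ^ n * Q s * v s j : ℤ) : ℚ) = ((DD : ℚ) ^ n * Q s * (gg s : ℚ)) *
            ((v s j : ℚ) * (bb s : ℚ) ^ l s j) := by
        intro j
        push_cast
        ring
      simp_rw [h1]
      rw [← Finset.mul_sum, hsum s]
      have h2 : (Q s : ℚ) * D s = DD := by exact_mod_cast hQ s
      rw [pow_succ, ← h2]
      ring
    have hxx : (((DD : ℤ) ^ q * x : ℤ) : ℚ) = ∑ j, ((uJ (e j) : ℚˣ) : ℚ) * aJ (e j) := by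
      rw [Equiv.sum_comp e (fun t => (((uJ t : ℚˣ)) : ℚ) * aJ t), Fintype.sum_prod_type,
        Fintype.sum_sum_type]
      have h1 : ∀ i : Fin r, ∑ j : Fin T, (((uJ (Sum.inl i, j) : ℚˣ)) : ℚ) * aJ (Sum.inl i, j) =
          (DD : ℚ) ^ q * ((g i : ℚˣ) * w (Sum.inl i)) := by
        intro i
        have h2 := hterm (q - 1) (Sum.inl i)
        rw [Nat.sub_add_cancel hq] at h2
        simp_rw [huJ]
        exact h2
      have h2 : ∀ i : Fin r', ∑ j : Fin T, (((uJ (Sum.inr i, j) : ℚˣ)) : ℚ) * aJ (Sum.inr i, j) =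
          0 := by
        intro i
        refine Finset.sum_eq_zero fun j _ => ?_
        show _ * ((0 : ℤ) : ℚ) = 0
        rw [Int.cast_zero, mul_zero]
      simp_rw [h1, h2]
      rw [Finset.sum_const_zero, add_zero, ← Finset.mul_sum, ← hx]
      push_cast
      rfl
    have hyy : (((DD : ℤ) ^ p * y : ℤ) : ℚ) = ∑ j, ((uJ (e j) : ℚˣ) : ℚ) * cJ (e j) := by
      rw [Equiv.sum_comp e (fun t => (((uJ t : ℚˣ)) : ℚ) * cJ t), Fintype.sum_prod_type,
        Fintype.sum_sum_type]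
      have h1 : ∀ i : Fin r', ∑ j : Fin T, (((uJ (Sum.inr i, j) : ℚˣ)) : ℚ) * cJ (Sum.inr i, j) =
          (DD : ℚ) ^ p * ((h i : ℚˣ) * w (Sum.inr i)) := by
        intro i
        have h2 := hterm (p - 1) (Sum.inr i)
        rw [Nat.sub_add_cancel hp] at h2
        simp_rw [huJ]
        exact h2
      have h2 : ∀ i : Fin r, ∑ j : Fin T, (((uJ (Sum.inl i, j) : ℚˣ)) : ℚ) * cJ (Sum.inl i, j) =
          0 := by
        intro i
        refine Finset.sum_eq_zero fun j _ => ?_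
        show _ * ((0 : ℤ) : ℚ) = 0
        rw [Int.cast_zero, mul_zero]
      simp_rw [h1, h2]
      rw [Finset.sum_const_zero, zero_add, ← Finset.mul_sum, ← hy]
      push_cast
      rfl
    have hDDZ : (DD : ℤ) ≠ 0 := by exact_mod_cast hDD0.ne'
    have hpow : ∀ x y : ℤ, ((DD : ℤ) ^ p * y) ^ q - ((DD : ℤ) ^ q * x) ^ p =
        (DD : ℤ) ^ (p * q) * (y ^ q - x ^ p) := by
      intro x y
      rw [mul_pow, mul_pow, ← pow_mul, ← pow_mul, mul_comm q p]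
      ring
    have hne' : ((DD : ℤ) ^ p * y) ^ q ≠ ((DD : ℤ) ^ q * x) ^ p := by
      intro h1
      have h2 := hpow x y
      rw [h1, sub_self] at h2
      rcases mul_eq_zero.1 h2.symm with h3 | h3
      · exact pow_ne_zero _ hDDZ h3
      · exact hne (sub_eq_zero.1 h3)
    have hmain := hall MM hMM1 (fun j => uJ (e j)) (fun j => aJ (e j)) (fun j => cJ (e j))
      (fun j => haJ _) (fun j => hcJ _) _ _ hxx hyy hne'
    have hmaxeq : max (|(((DD : ℤ) ^ q * x : ℤ) : ℝ)| ^ p) (|(((DD : ℤ) ^ p * y : ℤ) : ℝ)| ^ q) =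
        (DD : ℝ) ^ (p * q) * Z x y := by
      show _ = (DD : ℝ) ^ (p * q) * max (|(x : ℝ)| ^ p) (|(y : ℝ)| ^ q)
      rw [mul_max_of_nonneg _ _ (by positivity)]
      push_cast
      rw [abs_mul, abs_mul, mul_pow, mul_pow, abs_of_pos (show (0 : ℝ) < (DD : ℝ) ^ q by positivity),
        abs_of_pos (show (0 : ℝ) < (DD : ℝ) ^ p by positivity), ← pow_mul, ← pow_mul, mul_comm q p]
    have hdiffeq : |(((DD : ℤ) ^ p * y : ℤ) : ℝ) ^ q - (((DD : ℤ) ^ q * x : ℤ) : ℝ) ^ p| =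
        (DD : ℝ) ^ (p * q) * |(y : ℝ) ^ q - (x : ℝ) ^ p| := by
      have h1 : (((DD : ℤ) ^ p * y : ℤ) : ℝ) ^ q - (((DD : ℤ) ^ q * x : ℤ) : ℝ) ^ p =
          (DD : ℝ) ^ (p * q) * ((y : ℝ) ^ q - (x : ℝ) ^ p) := by
        have h2 := congrArg (fun n : ℤ => (n : ℝ)) (hpow x y)
        push_cast at h2
        push_cast
        exact h2
      rw [h1, abs_mul, abs_of_pos (by positivity)]
    rw [hmaxeq, hdiffeq] at hmain
    obtain ⟨Δ, hΔ⟩ : ∃ Δ : ℝ, Δ = |(y : ℝ) ^ q - (x : ℝ) ^ p| := ⟨_, rfl⟩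
    rw [← hΔ] at hmain hdiff ⊢
    have hΔ0 : 0 < Δ := by linarith
    -- conclusion
    have hs : 0 < 1 - 1 / (p : ℝ) - 1 / (q : ℝ) - ε / 2 := by linarith
    have h1 : (Z x y) ^ (1 - 1 / (p : ℝ) - 1 / (q : ℝ) - ε / 2) ≤
        (K * MM) ^ K * ((DD : ℝ) ^ (p * q) * Δ) := by
      refine le_trans ?_ hmain
      refine Real.rpow_le_rpow hZ0.le ?_ hs.le
      have h2 : (1 : ℝ) ≤ (DD : ℝ) ^ (p * q) := one_le_pow₀ hDD1
      nlinarith
    have h2 : (Z x y) ^ (1 - 1 / (p : ℝ) - 1 / (q : ℝ) - ε) =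
        (Z x y) ^ (1 - 1 / (p : ℝ) - 1 / (q : ℝ) - ε / 2) * (Z x y) ^ (-(ε / 2)) := by
      rw [← Real.rpow_add hZ0]
      congr 1
      ring
    have hKM : 0 < K * MM := by positivity
    have h3 : (K * MM) ^ K * (DD : ℝ) ^ (p * q) * (Z x y) ^ (-(ε / 2)) ≤
        Real.exp (K * Real.log (K * (B + 1)) + ε / 2) := by
      have hDDp : (0 : ℝ) < DD := by linarith
      have e1 : (K * MM) ^ K = Real.exp (Real.log (K * MM) * K) := Real.rpow_def_of_pos hKM _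
      have e2 : (DD : ℝ) ^ (p * q) = Real.exp ((p * q : ℕ) * Real.log DD) := by
        rw [Real.exp_nat_mul, Real.exp_log hDDp]
      have e3 : (Z x y) ^ (-(ε / 2)) = Real.exp (Real.log (Z x y) * (-(ε / 2))) :=
        Real.rpow_def_of_pos hZ0 _
      have e4 : Real.log (K * MM) = Real.log (K * (B + 1)) + (p + q : ℕ) * Real.log DD := by
        rw [hMM]
        have h5 : K * ((DD : ℝ) ^ (p + q) * (B + 1)) = (K * (B + 1)) * (DD : ℝ) ^ (p + q) := by ring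
        rw [h5, Real.log_mul (by positivity) (by positivity), Real.log_pow]
      rw [e1, e2, e3, ← Real.exp_add, ← Real.exp_add, e4]
      refine Real.exp_le_exp.2 ?_
      rw [hR] at hDDlog2
      nlinarith
    calc (Z x y) ^ (1 - 1 / (p : ℝ) - 1 / (q : ℝ) - ε)
        = (Z x y) ^ (1 - 1 / (p : ℝ) - 1 / (q : ℝ) - ε / 2) * (Z x y) ^ (-(ε / 2)) := h2
      _ ≤ ((K * MM) ^ K * ((DD : ℝ) ^ (p * q) * Δ)) * (Z x y) ^ (-(ε / 2)) :=
          mul_le_mul_of_nonneg_right h1 (by positivity)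
      _ = ((K * MM) ^ K * (DD : ℝ) ^ (p * q) * (Z x y) ^ (-(ε / 2))) * Δ := by ring
      _ ≤ Real.exp (K * Real.log (K * (B + 1)) + ε / 2) * Δ :=
          mul_le_mul_of_nonneg_right h3 hΔ0.le
      _ ≤ _ := mul_le_mul_of_nonneg_right (le_max_right _ _) hΔ0.le)
  refine ⟨max C 1, by positivity, ?_⟩
  rintro x y hne ⟨g, w, hg, hw, hx⟩ ⟨h, w', hh, hw', hy⟩
  have hZ1 : 1 ≤ max (|(x : ℝ)| ^ p) (|(y : ℝ)| ^ q) := one_le_max hp hq hne
  have h1 := hC (((x, y), (fun i => ⟨g i, hg i⟩), (fun i => ⟨h i, hh i⟩)), Sum.elim w w') (by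
    have e : H (((x, y), (fun i => ⟨g i, hg i⟩), (fun i => ⟨h i, hh i⟩)), Sum.elim w w') =
        Real.log (max (|(x : ℝ)| ^ p) (|(y : ℝ)| ^ q)) := by
      show Real.log (max 1 (max (|(x : ℝ)| ^ p) (|(y : ℝ)| ^ q))) = _
      rw [max_eq_right hZ1]
    rw [e]
    rintro (i | i)
    · exact hw i
    · exact hw' i) hx hy hne
  exact h1.trans (mul_le_mul_of_nonneg_right (le_max_left _ _) (abs_nonneg _))

end Pool.Agent.R343.LT
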