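import Pool.Agent.R343.LT1

set_option autoImplicit false
set_option linter.unusedSectionVars false

/-! # Transfer from sparse numbers to integers with compressible expansions, both directions -/

namespace Pool.Agent.R343.LT

open Finset Pool.Agent.R343.LP Pool.Agent.R343.LI

/-- `x` is the value in base `b` of a word of `N` integral letters of absolute value at most `B` with
at most `z` Lempel-Ziv phrases, `N log b ≤ Λ`; the first letter is the highest or the lowest one -/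
def LZWd (b : ℕ) (z : ℕ) (B : ℤ) (Λ : ℝ) (x : ℤ) : Prop :=
  ∃ (a : ℕ → ℤ) (N : ℕ), LZ a N z ∧ (∀ j < N, |a j| ≤ B) ∧ N * Real.log b ≤ Λ ∧
    (x = ∑ j ∈ range N, (b : ℤ) ^ (N - 1 - j) * a j ∨ x = ∑ j ∈ range N, (b : ℤ) ^ j * a j)

/-- `x` is a sum of `T` terms `v b ^ l` with integers `v`, `l`, `|v| ≤ B` -/
def SpQ (b : ℕ) (T : ℕ) (B : ℤ) (x : ℤ) : Prop :=
  ∃ (l : Fin T → ℤ) (v : Fin T → ℤ), (∀ j, |v j| ≤ B) ∧ (x : ℚ) = ∑ j, (v j : ℚ) * (b : ℚ) ^ l j

theorem SpInt.toQ {b T : ℕ} {B x : ℤ} (h : SpInt b T B x) : SpQ b T B x := by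
  obtain ⟨l, v, hv, he⟩ := h
  refine ⟨fun j => l j, v, hv, ?_⟩
  rw [he]
  push_cast
  rfl

/-- the denominator for the inverse base -/
theorem den_inv {b : ℕ} (hb : 2 ≤ b) (p : ℕ → ℕ) (S : ℕ → Prop) :
    ∀ z : ℕ, ∃ (s : ℕ) (σ : ℤ), (σ = 1 ∨ σ = -1) ∧
      (σ : ℚ) * (b : ℚ) ^ s * den ((b : ℚ)⁻¹) p S z = den (b : ℚ) p S z := by
  have hb0 : (b : ℚ) ≠ 0 := by
    have : b ≠ 0 := by omega
    exact_mod_cast this
  intro z
  induction z with
  | zero =>
    refine ⟨0, 1, Or.inl rfl, ?_⟩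
    rw [den, den, Finset.range_zero, Finset.prod_empty, Finset.prod_empty]
    simp
  | succ z ih =>
    obtain ⟨s, σ, hσ, he⟩ := ih
    have hden : ∀ t : ℚ, den t p S (z + 1) = den t p S z * fac t p S z := by
      intro t
      unfold den
      rw [Finset.prod_range_succ]
    by_cases hS : S z ∧ 0 < p z
    · refine ⟨s + p z, -σ, by rcases hσ with rfl | rfl <;> simp, ?_⟩
      have hf : ∀ t : ℚ, fac t p S z = t ^ p z - 1 := by
        intro t
        unfold fac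
        rw [if_pos hS]
      rw [hden, hden, hf, hf, ← he, pow_add, inv_pow]
      push_cast
      field_simp
      ring
    · refine ⟨s, σ, hσ, ?_⟩
      have hf : ∀ t : ℚ, fac t p S z = 1 := by
        intro t
        unfold fac
        rw [if_neg hS]
      rw [hden, hden, hf, hf, mul_one, mul_one, he]

theorem pow_inv_ne_one {b : ℕ} (hb : 2 ≤ b) (q : ℕ) (hq : 0 < q) : ((b : ℚ)⁻¹) ^ q ≠ 1 := by
  rw [inv_pow]
  intro h
  exact pow_ne_one hb q hq (inv_eq_one.1 h)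

/-- one coordinate, lowest letter first -/
theorem coordRev {b : ℕ} (hb : 2 ≤ b) (z W : ℕ) (B : ℤ) (hB : 0 ≤ B) (E : ℝ) (hE : 0 ≤ E)
    (a : ℕ → ℤ) (N : ℕ) (c p : ℕ → ℕ) (hc0 : c 0 = 0) (hcz : c z = N)
    (hph : ∀ i < z, Ph a (c i) (c (i + 1)) (p i)) (ha : ∀ j < N, |a j| ≤ B)
    (hbd : ∀ k < z, (p k * Real.log b ≤ E) ∨ N ≤ W * p k) :
    ∃ D : ℕ, 0 < D ∧ Real.log D ≤ z * E ∧
      SpQ b ((2 * W + 6) ^ z) B (D * ∑ j ∈ range N, (b : ℤ) ^ j * a j) := by
  have hcmono : ∀ i < z, c i ≤ c (i + 1) := by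
    intro i hi
    rcases hph i hi with h | ⟨h, _⟩
    · omega
    · exact h
  have hcL : ∀ i ≤ z, c i ≤ N := by
    intro i hi
    rw [← hcz]
    have : ∀ j, i + j ≤ z → c i ≤ c (i + j) := by
      intro j
      induction j with
      | zero => intro _; exact le_rfl
      | succ j ih =>
        intro hj
        exact (ih (by omega)).trans (hcmono (i + j) (by omega))
    have h1 := this (z - i) (by omega)
    have h2 : i + (z - i) = z := by omega
    rwa [h2] at h1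
  let S : ℕ → Prop := fun k => p k * Real.log b ≤ E
  obtain ⟨D, hD0, hD1, hD2⟩ := den_nat hb p S E hE z fun k _ h => h
  obtain ⟨-, hm⟩ := mixed ((b : ℚ)⁻¹) (fun j => (a j : ℚ)) (lett B) ⟨0, by simpa using hB, by simp⟩
    (by
      rintro w ⟨n, hn, rfl⟩
      exact ⟨-n, by rwa [abs_neg], by push_cast; rfl⟩) c p hc0 z N W
    (fun j hj => ⟨a j, ha j hj, rfl⟩) hcL
    (fun i hi => by
      rcases hph i hi with h | ⟨h1, h2, h3, h4⟩
      · exact Or.inl h
      · exact Or.inr ⟨h1, h2, h3, fun j hj1 hj2 => by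
          show ((a j : ℤ) : ℚ) = ((a (j - p i) : ℤ) : ℚ)
          rw [h4 j hj1 hj2]⟩) S
    (fun i hi => (hbd i hi).imp id fun h => (hcL (i + 1) (by omega)).trans h) z le_rfl
  obtain ⟨l, v, hv, he⟩ := hm N (by rw [hcz])
  choose n hn1 hn2 using hv
  obtain ⟨s, σ, hσ, hden⟩ := den_inv hb p S z
  have hb0 : (b : ℚ) ≠ 0 := by
    have : b ≠ 0 := by omega
    exact_mod_cast this
  refine ⟨D, hD0, hD1, fun j => (N : ℤ) - 1 + s - l j, fun j => σ * n j, fun j => ?_, ?_⟩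
  · rw [abs_mul]
    have h1 : |σ| = 1 := by rcases hσ with rfl | rfl <;> simp
    rw [h1, one_mul]
    exact hn1 j
  rw [P_eq] at he
  simp only [smul_eq_mul] at he
  have h2 : ∑ j ∈ range N, (b : ℚ) ^ j * (a j : ℚ) =
      (b : ℚ) ^ ((N : ℤ) - 1) * ∑ j ∈ range N, ((b : ℚ)⁻¹) ^ (N - 1 - j) * (a j : ℚ) := by
    rw [Finset.mul_sum]
    refine Finset.sum_congr rfl fun j hj => ?_
    have hj' := Finset.mem_range.1 hj
    rw [← mul_assoc]
    congr 1
    rw [inv_pow, ← zpow_natCast, ← zpow_natCast, ← zpow_neg, ← zpow_add₀ hb0]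
    congr 1
    push_cast [Nat.cast_sub (show j ≤ N - 1 by omega), Nat.cast_sub (show 1 ≤ N by omega)]
    ring
  have h3 : ((D * ∑ j ∈ range N, (b : ℤ) ^ j * a j : ℤ) : ℚ) =
      (D : ℚ) * ∑ j ∈ range N, (b : ℚ) ^ j * (a j : ℚ) := by
    push_cast
    rfl
  rw [h3, h2, ← hD2, ← hden]
  calc (σ : ℚ) * (b : ℚ) ^ s * den ((b : ℚ)⁻¹) p S z *
        ((b : ℚ) ^ ((N : ℤ) - 1) * ∑ j ∈ range N, ((b : ℚ)⁻¹) ^ (N - 1 - j) * (a j : ℚ))
      = (σ : ℚ) * (b : ℚ) ^ s * (b : ℚ) ^ ((N : ℤ) - 1) * (den ((b : ℚ)⁻¹) p S z *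
        ∑ j ∈ range N, ((b : ℚ)⁻¹) ^ (N - 1 - j) * (a j : ℚ)) := by ring
    _ = ∑ j, ((σ * n j : ℤ) : ℚ) * (b : ℚ) ^ ((N : ℤ) - 1 + s - l j) := by
      rw [he, Finset.mul_sum]
      refine Finset.sum_congr rfl fun j _ => ?_
      have e1 : (b : ℚ) ^ ((N : ℤ) - 1 + s - l j) =
          (b : ℚ) ^ ((N : ℤ) - 1) * (b : ℚ) ^ s * ((b : ℚ)⁻¹) ^ l j := by
        rw [inv_pow, ← zpow_natCast (b : ℚ) s, ← zpow_natCast (b : ℚ) (l j), ← zpow_neg,
          ← zpow_add₀ hb0, ← zpow_add₀ hb0]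
        congr 1
      rw [hn2 j, e1]
      push_cast
      ring

/-- **Transfer**, both directions. -/
theorem transferQ {ι X : Type} [Fintype ι] [DecidableEq ι] (b : ι → ℕ) (hb : ∀ i, 2 ≤ b i) (z : ℕ)
    (B : ℤ) (hB : 0 ≤ B) (M : ℝ) (hM : 0 ≤ M) (Φ : ℝ → X → Prop)
    (hmono : ∀ C C' P, C ≤ C' → Φ C P → Φ C' P) (H : X → ℝ) (hH : ∀ P, 0 ≤ H P)
    (x : X → ι → ℤ)
    (hyp : ∀ T : ℕ, ∃ δ : ℝ, 0 < δ ∧ ∃ C : ℝ, ∀ (P : X) (D : ι → ℕ), (∀ i, 0 < D i) →
      (∀ i, Real.log (D i) ≤ δ * (1 + H P)) → (∀ i, SpQ (b i) T B (D i * x P i)) → Φ C P) :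
    ∃ C : ℝ, ∀ P : X, (∀ i, LZWd (b i) z B (M * (1 + H P)) (x P i)) → Φ C P := by
  classical
  -- the data
  let Dat : X → (ι → ℕ → ℤ) → (ι → ℕ) → (ι → ℕ → ℕ) → (ι → ℕ → ℕ) → Prop := fun P a N c p =>
    ∀ i, c i 0 = 0 ∧ c i z = N i ∧ (∀ k < z, Ph (a i) (c i k) (c i (k + 1)) (p i k)) ∧
      (∀ j < N i, |a i j| ≤ B) ∧ N i * Real.log (b i) ≤ M * (1 + H P) ∧
      (x P i = ∑ j ∈ range (N i), (b i : ℤ) ^ (N i - 1 - j) * a i j ∨
        x P i = ∑ j ∈ range (N i), (b i : ℤ) ^ j * a i j)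
  have hlog : ∀ i, 0 < Real.log (b i) := fun i =>
    Real.log_pos (by exact_mod_cast (hb i))
  -- no period of middle size
  have nomid : ∀ δ : ℝ, 0 < δ → ∃ δ' : ℝ, 0 < δ' ∧ δ' ≤ δ ∧ ∃ C : ℝ, ∀ P a N c p,
      Dat P a N c p → (∀ i, ∀ k < z, p i k * Real.log (b i) < δ' * (1 + H P) ∨
        δ * (1 + H P) ≤ p i k * Real.log (b i)) → Φ C P := by
    intro δ hδ
    obtain ⟨δ1, hδ1, C, hC⟩ := hyp ((2 * ⌈M / δ⌉₊ + 6) ^ z)
    refine ⟨min δ (δ1 / (z + 1)), lt_min hδ (by positivity), min_le_left _ _, C, ?_⟩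
    intro P a N c p hd hmid
    have hHP := hH P
    set δ' := min δ (δ1 / (z + 1)) with hδ'
    have hδ'0 : 0 < δ' := lt_min hδ (by positivity)
    have hzδ : z * δ' ≤ δ1 := by
      have h1 : δ' ≤ δ1 / (z + 1) := min_le_right _ _
      rw [le_div_iff₀ (by positivity)] at h1
      nlinarith
    have hco : ∀ i, ∃ D : ℕ, 0 < D ∧ Real.log D ≤ δ1 * (1 + H P) ∧
        SpQ (b i) ((2 * ⌈M / δ⌉₊ + 6) ^ z) B (D * x P i) := by
      intro i
      obtain ⟨k1, k2, k3, k4, k5, k6⟩ := hd i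
      have hbnd : ∀ k < z, (p i k * Real.log (b i) ≤ δ' * (1 + H P)) ∨ N i ≤ ⌈M / δ⌉₊ * p i k := by
          intro k hk
          rcases hmid i k hk with h | h
          · exact Or.inl h.le
          · right
            have e1 : (N i : ℝ) * Real.log (b i) ≤ (M / δ * p i k) * Real.log (b i) := by
              refine k5.trans ?_
              calc M * (1 + H P) = M / δ * (δ * (1 + H P)) := by field_simp
                _ ≤ M / δ * (p i k * Real.log (b i)) :=
                    mul_le_mul_of_nonneg_left h (by positivity)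
                _ = _ := by ring
            have e2 : (N i : ℝ) ≤ M / δ * p i k := le_of_mul_le_mul_right e1 (hlog i)
            have e3 : (N i : ℝ) ≤ (⌈M / δ⌉₊ * p i k : ℕ) := by
              push_cast
              refine e2.trans ?_
              exact mul_le_mul_of_nonneg_right (Nat.le_ceil _) (Nat.cast_nonneg _)
            exact_mod_cast e3
      have hfin : ∀ D : ℕ, Real.log D ≤ z * (δ' * (1 + H P)) → Real.log D ≤ δ1 * (1 + H P) := by
        intro D hD1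
        refine hD1.trans ?_
        calc (z : ℝ) * (δ' * (1 + H P)) = (z * δ') * (1 + H P) := by ring
          _ ≤ δ1 * (1 + H P) := mul_le_mul_of_nonneg_right hzδ (by linarith)
      rcases k6 with k6 | k6
      · obtain ⟨D, hD0, hD1, hD2⟩ := coordInt (hb i) z ⌈M / δ⌉₊ B hB (δ' * (1 + H P))
          (by positivity) (a i) (N i) (c i) (p i) k1 k2 k3 k4 hbnd
        refine ⟨D, hD0, hfin D hD1, ?_⟩
        rw [k6]
        exact hD2.toQ
      · obtain ⟨D, hD0, hD1, hD2⟩ := coordRev (hb i) z ⌈M / δ⌉₊ B hB (δ' * (1 + H P))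
          (by positivity) (a i) (N i) (c i) (p i) k1 k2 k3 k4 hbnd
        refine ⟨D, hD0, hfin D hD1, ?_⟩
        rw [k6]
        exact hD2
    choose D hD0 hD1 hD2 using hco
    exact hC P D hD0 hD1 hD2
  have claim : ∀ (s : ℕ) (δ : ℝ), 0 < δ → ∃ C : ℝ, ∀ P a N c p, Dat P a N c p →
      (Finset.univ.filter fun q : ι × Fin z =>
        p q.1 q.2 * Real.log (b q.1) < δ * (1 + H P)).card ≤ s → Φ C P := by
    intro s
    induction s with
    | zero =>
      intro δ hδ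
      obtain ⟨δ', h0, hle, C, hC⟩ := nomid δ hδ
      refine ⟨C, fun P a N c p hd hcard => hC P a N c p hd ?_⟩
      intro i k hk
      right
      by_contra hcon
      have : (i, (⟨k, hk⟩ : Fin z)) ∈ (Finset.univ.filter fun q : ι × Fin z =>
          p q.1 q.2 * Real.log (b q.1) < δ * (1 + H P)) := by
        rw [Finset.mem_filter]
        exact ⟨Finset.mem_univ _, not_le.1 hcon⟩
      have h2 := Finset.card_pos.2 ⟨_, this⟩
      omega
    | succ s ih =>
      intro δ hδ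
      obtain ⟨δ', h0, hle, C, hC⟩ := nomid δ hδ
      obtain ⟨C', hC'⟩ := ih δ' h0
      refine ⟨max C C', fun P a N c p hd hcard => ?_⟩
      have hHP := hH P
      by_cases hmid : ∀ i, ∀ k < z, p i k * Real.log (b i) < δ' * (1 + H P) ∨
          δ * (1 + H P) ≤ p i k * Real.log (b i)
      · exact hmono _ _ _ (le_max_left _ _) (hC P a N c p hd hmid)
      · push Not at hmid
        obtain ⟨i, k, hk, h3, h4⟩ := hmid
        refine hmono _ _ _ (le_max_right _ _) (hC' P a N c p hd ?_)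
        have hss : (Finset.univ.filter fun q : ι × Fin z =>
            p q.1 q.2 * Real.log (b q.1) < δ' * (1 + H P)) ⊂
            (Finset.univ.filter fun q : ι × Fin z =>
            p q.1 q.2 * Real.log (b q.1) < δ * (1 + H P)) := by
          rw [Finset.ssubset_iff_of_subset]
          · refine ⟨(i, ⟨k, hk⟩), ?_, ?_⟩
            · rw [Finset.mem_filter]
              exact ⟨Finset.mem_univ _, h4⟩
            · rw [Finset.mem_filter]
              rintro ⟨_, h5⟩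
              exact absurd h5 (not_lt.2 h3)
          · intro q hq
            rw [Finset.mem_filter] at hq ⊢
            refine ⟨Finset.mem_univ _, hq.2.trans_le ?_⟩
            exact mul_le_mul_of_nonneg_right hle (by linarith)
        have := Finset.card_lt_card hss
        omega
  obtain ⟨C, hC⟩ := claim (Fintype.card ι * z) 1 one_pos
  refine ⟨C, fun P h => ?_⟩
  choose a N h1 h2 h3 h4 using h
  have h1' : ∀ i, ∃ c p : ℕ → ℕ, c 0 = 0 ∧ c z = N i ∧
      ∀ k < z, Ph (a i) (c k) (c (k + 1)) (p k) := by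
    intro i
    obtain ⟨c, hc0, hcz, hph⟩ := h1 i
    have : ∀ k, ∃ p, k < z → Ph (a i) (c k) (c (k + 1)) p := by
      intro k
      by_cases hk : k < z
      · rcases hph k hk with h | ⟨h, p, hp0, hp1, hp2⟩
        · exact ⟨0, fun _ => Or.inl h⟩
        · exact ⟨p, fun _ => Or.inr ⟨h, hp0, hp1, hp2⟩⟩
      · exact ⟨0, fun h => absurd h hk⟩
    choose p hp using this
    exact ⟨c, p, hc0, hcz, hp⟩
  choose c p hc0 hcz hph using h1'
  refine hC P a N c p (fun i => ⟨hc0 i, hcz i, hph i, h2 i, h3 i, h4 i⟩) ?_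
  refine (Finset.card_le_univ _).trans ?_
  simp

end Pool.Agent.R343.LT
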