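import Pool.Agent.R343.LT3

set_option autoImplicit false
set_option linter.unusedSectionVars false

/-! # Integers whose digits are compressible -/

namespace Pool.Agent.R343.LT

open Finset Pool.Agent.R343.LP Pool.Agent.R343.LI

/-- the digit of `|x|` in base `b` at the place `i` (the last digit has the place `0`) -/
def digit (b : ℕ) (x : ℤ) (i : ℕ) : ℕ := x.natAbs / b ^ i % b

/-- the number of digits of `|x|` in base `b` -/
def places (b : ℕ) (x : ℤ) : ℕ := (Nat.digits b x.natAbs).length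

/-- the digits of `|x|` in base `b`, read upwards or downwards, form a word with `z` phrases -/
def LZDigits (b z : ℕ) (x : ℤ) : Prop :=
  LZ (fun j => digit b x j) (places b x) z ∨
    LZ (fun j => digit b x (places b x - 1 - j)) (places b x) z

theorem LZ_map {α β : Type} (f : α → β) {a : ℕ → α} {N z : ℕ} (h : LZ a N z) :
    LZ (fun j => f (a j)) N z := by
  obtain ⟨c, hc0, hcz, h⟩ := h
  refine ⟨c, hc0, hcz, fun i hi => ?_⟩
  rcases h i hi with h1 | ⟨h1, p, hp0, hp, h2⟩
  · exact Or.inl h1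
  · exact Or.inr ⟨h1, p, hp0, hp, fun j hj1 hj2 => congrArg f (h2 j hj1 hj2)⟩

theorem sum_digits (b n : ℕ) : ∀ N : ℕ, ∑ i ∈ range N, b ^ i * (n / b ^ i % b) = n % b ^ N := by
  intro N
  induction N with
  | zero => simp [Nat.mod_one]
  | succ N ih =>
    rw [Finset.sum_range_succ, ih, pow_succ, Nat.mod_mul]

theorem places_le {b : ℕ} (hb : 2 ≤ b) (x : ℤ) :
    places b x * Real.log b ≤ Real.log b + Real.log (max 1 |(x : ℝ)|) := by
  have hb0 : (0 : ℝ) < b := by
    have : 0 < b := by omega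
    exact_mod_cast this
  have hlb : 0 ≤ Real.log b := Real.log_nonneg (by
    have : 1 ≤ b := by omega
    exact_mod_cast this)
  by_cases hx : x = 0
  · unfold places
    rw [hx]
    simp only [Int.natAbs_zero, Nat.digits_zero, List.length_nil, Nat.cast_zero, zero_mul,
      Int.cast_zero, abs_zero]
    rw [max_eq_left zero_le_one, Real.log_one, add_zero]
    exact hlb
  · have h0 : x.natAbs ≠ 0 := Int.natAbs_ne_zero.2 hx
    have h1 := Nat.base_pow_length_digits_le' (b - 2) x.natAbs h0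
    have e : b - 2 + 2 = b := by omega
    rw [e] at h1
    have h2 : (b : ℝ) ^ places b x ≤ b * |(x : ℝ)| := by
      have h3 : ((b ^ places b x : ℕ) : ℝ) ≤ ((b * x.natAbs : ℕ) : ℝ) := by exact_mod_cast h1
      push_cast at h3
      rwa [Nat.cast_natAbs, Int.cast_abs] at h3
    have hx0 : 0 < |(x : ℝ)| := abs_pos.2 (by exact_mod_cast hx)
    have h3 := Real.log_le_log (by positivity) h2
    rw [Real.log_pow, Real.log_mul hb0.ne' hx0.ne'] at h3
    have h4 : Real.log |(x : ℝ)| ≤ Real.log (max 1 |(x : ℝ)|) :=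
      Real.log_le_log hx0 (le_max_right _ _)
    linarith

theorem LZDigits.toWd {b z : ℕ} (hb : 2 ≤ b) {x : ℤ} (h : LZDigits b z x) {Λ : ℝ}
    (hΛ : places b x * Real.log b ≤ Λ) : LZWd b z b Λ x := by
  obtain ⟨N, hN⟩ : ∃ N, N = places b x := ⟨_, rfl⟩
  have hb0 : 0 < b := by omega
  have hlt : x.natAbs < b ^ N := by
    rw [hN]
    have := Nat.lt_base_pow_length_digits' (b := b - 2) (m := x.natAbs)
    have e : b - 2 + 2 = b := by omega
    rw [e] at this
    exact this
  have hs1 := sum_digits b x.natAbs N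
  rw [Nat.mod_eq_of_lt hlt] at hs1
  have hs2 : ∑ j ∈ range N, (b : ℤ) ^ j * ((digit b x j : ℕ) : ℤ) = x.natAbs := by
    have h1 : ((∑ i ∈ range N, b ^ i * (x.natAbs / b ^ i % b) : ℕ) : ℤ) = x.natAbs := by
      rw [hs1]
    push_cast at h1
    push_cast [digit]
    exact h1
  have hsx : x = Int.sign x * x.natAbs := (Int.sign_mul_natAbs x).symm
  have hdig : ∀ i, (digit b x i : ℤ) < b := fun i => by
    have : digit b x i < b := Nat.mod_lt _ hb0
    exact_mod_cast this
  have hsg : |Int.sign x| ≤ 1 := by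
    rcases lt_trichotomy x 0 with hx | hx | hx
    · rw [Int.sign_eq_neg_one_of_neg hx]; simp
    · rw [hx]; simp
    · rw [Int.sign_eq_one_of_pos hx]; simp
  have hbound : ∀ i, |Int.sign x * (digit b x i : ℤ)| ≤ b := fun i => by
    rw [abs_mul]
    have h1 : |((digit b x i : ℕ) : ℤ)| = digit b x i := Nat.abs_cast _
    rw [h1]
    have h2 : (0 : ℤ) ≤ digit b x i := Int.natCast_nonneg _
    have h3 := hdig i
    nlinarith
  unfold LZDigits at h
  rw [← hN] at h hΛ
  rcases h with h | h
  · refine ⟨fun j => Int.sign x * (digit b x j : ℤ), N,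
      LZ_map (fun n : ℕ => Int.sign x * (n : ℤ)) h, fun j _ => hbound j, hΛ, Or.inr ?_⟩
    calc x = Int.sign x * x.natAbs := hsx
      _ = Int.sign x * ∑ j ∈ range N, (b : ℤ) ^ j * ((digit b x j : ℕ) : ℤ) := by rw [hs2]
      _ = _ := by
        rw [Finset.mul_sum]
        exact Finset.sum_congr rfl fun j _ => by ring
  · refine ⟨fun j => Int.sign x * (digit b x (N - 1 - j) : ℤ), N,
      LZ_map (fun n : ℕ => Int.sign x * (n : ℤ)) h, fun j _ => hbound _, hΛ, Or.inl ?_⟩
    calc x = Int.sign x * x.natAbs := hsx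
      _ = Int.sign x * ∑ j ∈ range N, (b : ℤ) ^ j * ((digit b x j : ℕ) : ℤ) := by rw [hs2]
      _ = Int.sign x * ∑ j ∈ range N, (b : ℤ) ^ (N - 1 - j) *
            ((digit b x (N - 1 - j) : ℕ) : ℤ) := by
        rw [Finset.sum_range_reflect (fun j => (b : ℤ) ^ j * ((digit b x j : ℕ) : ℤ)) N]
      _ = _ := by
        rw [Finset.mul_sum]
        exact Finset.sum_congr rfl fun j _ => by ring

end Pool.Agent.R343.LT

namespace Pool.Agent.R343.LT

open Finset Pool.Agent.R343.LP Pool.Agent.R343.LI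

/-- the digits of `|x|` in base `b`, from the first to the last one, form a word with `z` phrases -/
def LZDown (b z : ℕ) (x : ℤ) : Prop :=
  LZ (fun j => digit b x (places b x - 1 - j)) (places b x) z

theorem LZDown.toInt {b z : ℕ} (hb : 2 ≤ b) {x : ℤ} (h : LZDown b z x) {Λ : ℝ}
    (hΛ : places b x * Real.log b ≤ Λ) : LZInt b z b Λ x := by
  obtain ⟨N, hN⟩ : ∃ N, N = places b x := ⟨_, rfl⟩
  have hb0 : 0 < b := by omega
  have hlt : x.natAbs < b ^ N := by
    rw [hN]
    have := Nat.lt_base_pow_length_digits' (b := b - 2) (m := x.natAbs)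
    have e : b - 2 + 2 = b := by omega
    rw [e] at this
    exact this
  have hs1 := sum_digits b x.natAbs N
  rw [Nat.mod_eq_of_lt hlt] at hs1
  have hs2 : ∑ j ∈ range N, (b : ℤ) ^ j * ((digit b x j : ℕ) : ℤ) = x.natAbs := by
    have h1 : ((∑ i ∈ range N, b ^ i * (x.natAbs / b ^ i % b) : ℕ) : ℤ) = x.natAbs := by
      rw [hs1]
    push_cast at h1
    push_cast [digit]
    exact h1
  have hsx : x = Int.sign x * x.natAbs := (Int.sign_mul_natAbs x).symm
  have hdig : ∀ i, (digit b x i : ℤ) < b := fun i => by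
    have : digit b x i < b := Nat.mod_lt _ hb0
    exact_mod_cast this
  have hsg : |Int.sign x| ≤ 1 := by
    rcases lt_trichotomy x 0 with hx | hx | hx
    · rw [Int.sign_eq_neg_one_of_neg hx]; simp
    · rw [hx]; simp
    · rw [Int.sign_eq_one_of_pos hx]; simp
  have hbound : ∀ i, |Int.sign x * (digit b x i : ℤ)| ≤ b := fun i => by
    rw [abs_mul]
    have h1 : |((digit b x i : ℕ) : ℤ)| = digit b x i := Nat.abs_cast _
    rw [h1]
    have h2 : (0 : ℤ) ≤ digit b x i := Int.natCast_nonneg _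
    have h3 := hdig i
    nlinarith
  unfold LZDown at h
  rw [← hN] at h hΛ
  refine ⟨fun j => Int.sign x * (digit b x (N - 1 - j) : ℤ), N,
      LZ_map (fun n : ℕ => Int.sign x * (n : ℤ)) h, fun j _ => hbound _, hΛ, ?_⟩
  calc x = Int.sign x * x.natAbs := hsx
    _ = Int.sign x * ∑ j ∈ range N, (b : ℤ) ^ j * ((digit b x j : ℕ) : ℤ) := by rw [hs2]
    _ = Int.sign x * ∑ j ∈ range N, (b : ℤ) ^ (N - 1 - j) *
          ((digit b x (N - 1 - j) : ℕ) : ℤ) := by
      rw [Finset.sum_range_reflect (fun j => (b : ℤ) ^ j * ((digit b x j : ℕ) : ℤ)) N]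
    _ = _ := by
      rw [Finset.mul_sum]
      exact Finset.sum_congr rfl fun j _ => by ring

end Pool.Agent.R343.LT
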