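import Pool.Agent.R343.LT4
import Pool.Agent.Results.MP_4eb8d9_nt.SparseProducts

set_option autoImplicit false
set_option linter.unusedSectionVars false

/-! # The Lang-Waldschmidt inequality for integers with compressible expansions -/

namespace Pool.Agent.R343.LT

open Finset Pool.Agent.R343.LP Pool.Agent.R343.LI
open Pool.Agent.Results.MP_4eb8d9_nt.SparseProducts

theorem const_mul (r B D k : ℕ) : const r B D k =
    const r 1 D k * B ^ (D + D * (4 * D * (4 * D) ^ r) * D + D * (2 * (k + 1))) := by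
  unfold const
  rw [mul_one]
  ring

theorem prod_zpow_sum {ι : Type} (s : Finset ι) (x : ℚ) (hx : x ≠ 0) (f : ι → ℤ) :
    ∏ i ∈ s, x ^ (f i) = x ^ (∑ i ∈ s, f i) := by
  classical
  induction s using Finset.induction_on with
  | empty => simp
  | insert a s ha ih => rw [Finset.prod_insert ha, Finset.sum_insert ha, ih, zpow_add₀ hx]

theorem lwLZ (b : ℕ) (hb : 2 ≤ b) (z k E : ℕ) (hE : 1 ≤ E) (B : ℤ) (hB : 0 ≤ B) (M ε : ℝ)
    (hM : 0 ≤ M) (hε : 0 < ε) :
    ∃ C : ℝ, 0 < C ∧ ∀ a : Fin k → ℤ, (∀ i, a i ≠ 0) →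
      (∀ i, LZInt b z B (M * (1 + Real.log (∏ i, |(a i : ℝ)|))) (a i)) →
      ∀ β : Fin k → ℤ, ∑ i, (β i).natAbs ≤ E → ∏ i, (a i : ℝ) ^ (β i) ≠ 1 →
      1 / (C * (∏ i, |(a i : ℝ)|) ^ (1 + ε)) ≤ |∏ i, (a i : ℝ) ^ (β i) - 1| := by
  classical
  let X := (Fin k → ℤ) × (Fin k → ℤ)
  let Z : (Fin k → ℤ) → ℝ := fun a => ∏ i, |(a i : ℝ)|
  let H : X → ℝ := fun P => Real.log (max 1 (Z P.1))
  let Φ : ℝ → X → Prop := fun C P => (∀ i, P.1 i ≠ 0) → ∑ i, (P.2 i).natAbs ≤ E →
    ∏ i, (P.1 i : ℝ) ^ (P.2 i) ≠ 1 →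
      1 ≤ C * ((Z P.1) ^ (1 + ε) * |∏ i, (P.1 i : ℝ) ^ (P.2 i) - 1|)
  have hZ : ∀ a : Fin k → ℤ, (∀ i, a i ≠ 0) → 1 ≤ Z a := by
    intro a ha
    refine Finset.prod_induction _ (fun x : ℝ => 1 ≤ x) (fun x y hx hy => by nlinarith) le_rfl
      fun i _ => ?_
    have : 1 ≤ |a i| := Int.one_le_abs (ha i)
    exact_mod_cast this
  have hZn : ∀ a : Fin k → ℤ, 0 ≤ Z a := fun a => Finset.prod_nonneg fun i _ => abs_nonneg _
  have hmono : ∀ C C' P, C ≤ C' → Φ C P → Φ C' P := by
    intro C C' P hC h h1 h2 h3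
    refine (h h1 h2 h3).trans (mul_le_mul_of_nonneg_right hC ?_)
    exact mul_nonneg (Real.rpow_nonneg (hZn _) _) (abs_nonneg _)
  have hH : ∀ P, 0 ≤ H P := fun P => Real.log_nonneg (le_max_left _ _)
  obtain ⟨C, hC⟩ := transfer (fun _ : Fin k => b) (fun _ => hb) z B hB M hM Φ hmono H hH
    (fun P => P.1) (by
    intro T
    let J := (Fin k × Fin T) ⊕ Unit
    obtain ⟨r, hr⟩ : ∃ r, r = Fintype.card J := ⟨_, rfl⟩
    let e0 : Fin (Fintype.card J) ≃ J := (Fintype.equivFin J).symm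
    obtain ⟨E', hE'⟩ : ∃ E', E' = 2 * E := ⟨_, rfl⟩
    obtain ⟨G, hG⟩ : ∃ G, G = E' + E' * (4 * E' * (4 * E') ^ (Fintype.card J)) * E' +
      E' * (2 * ((k + 1) + 1)) := ⟨_, rfl⟩
    obtain ⟨A, hA⟩ : ∃ A : ℕ, A = const (Fintype.card J) 1 E' (k + 1) := ⟨_, rfl⟩
    obtain ⟨BN, hBN⟩ : ∃ BN : ℕ, (BN : ℤ) = B + 1 := ⟨(B + 1).toNat, Int.toNat_of_nonneg (by omega)⟩
    have hBN1 : 1 ≤ BN := by omega
    refine ⟨ε / ((k + 1) * (G + (k + 1))), by positivity, A * BN ^ G * Real.exp ε, ?_⟩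
    rintro ⟨a, β⟩ D hD0 hDlog hsp ha hβ hne
    simp only at ha hβ hne
    have hZ1 := hZ a ha
    have hZ0 : 0 < Z a := by linarith
    have hHZ : H (a, β) = Real.log (Z a) := by
      show Real.log (max 1 (Z a)) = _
      rw [max_eq_right hZ1]
    rw [hHZ] at hDlog
    have hlZ : 0 ≤ Real.log (Z a) := Real.log_nonneg hZ1
    obtain ⟨DD, hDD⟩ : ∃ DD : ℕ, DD = ∏ s, D s := ⟨_, rfl⟩
    have hDD0 : 0 < DD := by
      rw [hDD]
      exact Finset.prod_pos fun s _ => hD0 s
    let Q : Fin k → ℕ := fun s => ∏ s' ∈ Finset.univ.erase s, D s'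
    have hQ : ∀ s, Q s * D s = DD := fun s => by
      rw [hDD]
      exact Finset.prod_erase_mul _ _ (Finset.mem_univ s)
    have hQle : ∀ s, Q s ≤ DD := fun s => by
      rw [← hQ s]
      exact Nat.le_mul_of_pos_right _ (hD0 s)
    have hDDlog : Real.log DD ≤ k * (ε / ((k + 1) * (G + (k + 1))) * (1 + Real.log (Z a))) := by
      rw [hDD]
      push_cast
      rw [Real.log_prod (fun s _ => by exact_mod_cast (hD0 s).ne')]
      refine (Finset.sum_le_sum fun s _ => hDlog s).trans ?_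
      rw [Finset.sum_const, Finset.card_univ, nsmul_eq_mul, Fintype.card_fin]
    have hk1 : (0 : ℝ) < k + 1 := by positivity
    have hG1 : (0 : ℝ) < G + (k + 1) := by positivity
    have hDDlog2 : (G + (k + 1)) * Real.log DD ≤ ε * (1 + Real.log (Z a)) := by
      calc (G + (k + 1)) * Real.log DD ≤ (G + (k + 1)) *
            (k * (ε / ((k + 1) * (G + (k + 1))) * (1 + Real.log (Z a)))) :=
            mul_le_mul_of_nonneg_left hDDlog hG1.le
        _ = (k / (k + 1)) * (ε * (1 + Real.log (Z a))) := by field_simp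
        _ ≤ 1 * (ε * (1 + Real.log (Z a))) := by
            refine mul_le_mul_of_nonneg_right ?_ (by positivity)
            rw [div_le_one hk1]
            linarith
        _ = _ := one_mul _
    choose l v hv hlv using hsp
    let eJ : J → ℕ := Sum.elim (fun t => l t.1 t.2) (fun _ => 0)
    let cJ : Fin (k + 1) → J → ℤ := Fin.lastCases (Sum.elim (fun _ => 0) (fun _ => (DD : ℤ)))
      (fun i => Sum.elim (fun t => if t.1 = i then (Q i : ℤ) * v i t.2 else 0) (fun _ => 0))
    have hcl : cJ (Fin.last k) = Sum.elim (fun _ => 0) (fun _ => (DD : ℤ)) := Fin.lastCases_last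
    have hci : ∀ i, cJ (Fin.castSucc i) = Sum.elim (fun t => if t.1 = i then (Q i : ℤ) * v i t.2
        else 0) (fun _ => 0) := fun i => Fin.lastCases_castSucc i
    have hcb : ∀ i j, |cJ i j| ≤ ((DD * BN : ℕ) : ℤ) := by
      intro i
      have h0 : (0 : ℤ) ≤ ((DD * BN : ℕ) : ℤ) := Int.natCast_nonneg _
      refine Fin.lastCases ?_ (fun i => ?_) i
      · rintro (t | t)
        · rw [hcl]
          simpa using h0
        · rw [hcl]
          show |(DD : ℤ)| ≤ _
          rw [Nat.abs_cast]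
          exact_mod_cast Nat.le_mul_of_pos_right _ hBN1
      · rintro (t | t)
        · rw [hci]
          show |if t.1 = i then (Q i : ℤ) * v i t.2 else 0| ≤ _
          split_ifs
          · rw [abs_mul, Nat.abs_cast]
            push_cast
            have h1 : (Q i : ℤ) ≤ DD := by exact_mod_cast hQle i
            refine mul_le_mul h1 ?_ (abs_nonneg _) (Int.natCast_nonneg _)
            rw [hBN]
            exact (hv i t.2).trans (by omega)
          · simpa using h0
        · rw [hci]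
          simpa using h0
    have hspl : sp b (fun j => eJ (e0 j)) (fun j => cJ (Fin.last k) (e0 j)) = DD := by
      unfold sp
      rw [Equiv.sum_comp e0 (fun t => cJ (Fin.last k) t * (b : ℤ) ^ eJ t), hcl,
        Fintype.sum_sum_type]
      simp [eJ]
    have hspi : ∀ i, sp b (fun j => eJ (e0 j)) (fun j => cJ (Fin.castSucc i) (e0 j)) =
        DD * a i := by
      intro i
      unfold sp
      rw [Equiv.sum_comp e0 (fun t => cJ (Fin.castSucc i) t * (b : ℤ) ^ eJ t), hci,
        Fintype.sum_sum_type, Fintype.sum_prod_type]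
      have h1 : ∀ i' : Fin k, ∑ j : Fin T, (Sum.elim (fun t : Fin k × Fin T =>
          if t.1 = i then (Q i : ℤ) * v i t.2 else 0) (fun _ : Unit => (0 : ℤ)) (Sum.inl (i', j))) *
          (b : ℤ) ^ eJ (Sum.inl (i', j)) = if i' = i then (DD : ℤ) * a i else 0 := by
        intro i'
        by_cases h : i' = i
        · subst h
          rw [if_pos rfl]
          have h2 : ∀ j : Fin T, (Sum.elim (fun t : Fin k × Fin T =>
              if t.1 = i' then (Q i' : ℤ) * v i' t.2 else 0) (fun _ : Unit => (0 : ℤ))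
              (Sum.inl (i', j))) * (b : ℤ) ^ eJ (Sum.inl (i', j)) =
              (Q i' : ℤ) * (v i' j * (b : ℤ) ^ l i' j) := by
            intro j
            show (if i' = i' then (Q i' : ℤ) * v i' j else 0) * (b : ℤ) ^ l i' j = _
            rw [if_pos rfl]
            ring
          rw [Finset.sum_congr rfl fun j _ => h2 j, ← Finset.mul_sum, ← hlv i']
          have h3 : ((Q i' : ℕ) : ℤ) * (D i' : ℕ) = DD := by exact_mod_cast hQ i'
          rw [← h3]
          ring
        · rw [if_neg h]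
          refine Finset.sum_eq_zero fun j _ => ?_
          show (if i' = i then (Q i : ℤ) * v i j else 0) * _ = 0
          rw [if_neg h, zero_mul]
      rw [Finset.sum_congr rfl fun i' _ => h1 i']
      simp
    have hDDZ : (DD : ℤ) ≠ 0 := by exact_mod_cast hDD0.ne'
    have hDDQ : (DD : ℚ) ≠ 0 := by exact_mod_cast hDD0.ne'
    let β' : Fin (k + 1) → ℤ := Fin.lastCases (-∑ i, β i) β
    have hβl : β' (Fin.last k) = -∑ i, β i := Fin.lastCases_last
    have hβi : ∀ i, β' (Fin.castSucc i) = β i := fun i => Fin.lastCases_castSucc i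
    have hprod : ∏ i, (sp b (fun j => eJ (e0 j)) (fun j => cJ i (e0 j)) : ℚ) ^ (β' i) =
        ∏ i, (a i : ℚ) ^ (β i) := by
      rw [Fin.prod_univ_castSucc]
      simp_rw [hβi, hspi, hβl, hspl]
      push_cast
      simp_rw [mul_zpow]
      rw [Finset.prod_mul_distrib, prod_zpow_sum _ _ hDDQ, zpow_neg]
      have h1 : (DD : ℚ) ^ (∑ i, β i) ≠ 0 := zpow_ne_zero _ hDDQ
      field_simp
    have h1 := result b hb (DD * BN) E' (by omega) (fun j => eJ (e0 j))
      (fun i j => cJ i (e0 j)) (fun i j => hcb i (e0 j)) (by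
        intro i
        refine Fin.lastCases ?_ (fun i => ?_) i
        · show sp b (fun j => eJ (e0 j)) (fun j => cJ (Fin.last k) (e0 j)) ≠ 0
          rw [hspl]
          exact hDDZ
        · show sp b (fun j => eJ (e0 j)) (fun j => cJ (Fin.castSucc i) (e0 j)) ≠ 0
          rw [hspi]
          exact mul_ne_zero hDDZ (ha i)) β' (by
        rw [Fin.sum_univ_castSucc]
        simp_rw [hβi, hβl]
        have h2 : (-∑ i, β i).natAbs ≤ ∑ i, (β i).natAbs := by
          rw [Int.natAbs_neg]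
          exact Int.natAbs_sum_le _ _
        omega) (by
        rw [hprod]
        intro h2
        apply hne
        have h3 : ((∏ i, (a i : ℚ) ^ (β i) : ℚ) : ℝ) = ((1 : ℚ) : ℝ) := by rw [h2]
        push_cast at h3
        exact h3)
    rw [hprod] at h1
    have h2 : ∏ i, |(sp b (fun j => eJ (e0 j)) (fun j => cJ i (e0 j)) : ℚ)| =
        (DD : ℚ) ^ (k + 1) * ∏ i, |(a i : ℚ)| := by
      rw [Fin.prod_univ_castSucc]
      simp_rw [hspi, hspl]
      push_cast
      simp_rw [abs_mul, Nat.abs_cast]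
      rw [Finset.prod_mul_distrib, Finset.prod_const, Finset.card_univ, Fintype.card_fin, pow_succ]
      ring
    rw [h2, const_mul, ← hG, ← hA] at h1
    obtain ⟨Δ, hΔ⟩ : ∃ Δ : ℝ, Δ = |∏ i, (a i : ℝ) ^ (β i) - 1| := ⟨_, rfl⟩
    have h3 : 1 / (((A : ℝ) * ((DD : ℝ) * BN) ^ G) * ((DD : ℝ) ^ (k + 1) * Z a)) ≤ Δ := by
      rw [hΔ]
      have h4 := (Rat.cast_le (K := ℝ)).2 h1
      push_cast at h4
      exact h4
    show 1 ≤ (A * BN ^ G * Real.exp ε) * ((Z a) ^ (1 + ε) *
      |∏ i, (a i : ℝ) ^ (β i) - 1|)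
    rw [← hΔ]
    have hA0 : 0 < A := by
      rw [hA]
      unfold const
      rw [mul_one]
      have h3 : 0 < 4 * (Fintype.card J) ^ E' := by
        have : 0 < Fintype.card J := Fintype.card_pos
        positivity
      have : 0 < Fintype.card J := Fintype.card_pos
      positivity
    have hA0R : (0 : ℝ) < A := by exact_mod_cast hA0
    have hDDR : (0 : ℝ) < DD := by exact_mod_cast hDD0
    have hBNR : (0 : ℝ) < BN := by exact_mod_cast hBN1
    have hden : 0 < ((A : ℝ) * ((DD : ℝ) * BN) ^ G) * ((DD : ℝ) ^ (k + 1) * Z a) := by positivity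
    rw [div_le_iff₀ hden] at h3
    have hΔ0 : 0 < Δ := by
      by_contra hcon
      push Not at hcon
      have := mul_nonpos_of_nonpos_of_nonneg hcon hden.le
      linarith
    have h5 : (DD : ℝ) ^ (G + (k + 1)) ≤ Real.exp ε * (Z a) ^ ε := by
      have e1 : (DD : ℝ) ^ (G + (k + 1)) = Real.exp ((G + (k + 1) : ℕ) * Real.log DD) := by
        rw [Real.exp_nat_mul, Real.exp_log hDDR]
      have e2 : (Z a) ^ ε = Real.exp (Real.log (Z a) * ε) := Real.rpow_def_of_pos hZ0 _
      rw [e1, e2, ← Real.exp_add]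
      refine Real.exp_le_exp.2 ?_
      push_cast
      linarith
    calc (1 : ℝ) ≤ Δ * (((A : ℝ) * ((DD : ℝ) * BN) ^ G) * ((DD : ℝ) ^ (k + 1) * Z a)) := h3
      _ = (A * BN ^ G * Z a * Δ) * (DD : ℝ) ^ (G + (k + 1)) := by
          rw [mul_pow, pow_add]
          ring
      _ ≤ (A * BN ^ G * Z a * Δ) * (Real.exp ε * (Z a) ^ ε) :=
          mul_le_mul_of_nonneg_left h5 (by positivity)
      _ = (A * BN ^ G * Real.exp ε) * ((Z a) ^ (1 + ε) * Δ) := by
          rw [Real.rpow_add hZ0, Real.rpow_one]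
          ring)
  refine ⟨max C 1, by positivity, ?_⟩
  intro a ha hLZ β hβ hne
  have hZ1 := hZ a ha
  have hZ0 : 0 < Z a := by linarith
  have h1 := hC (a, β) (by
    have e : H (a, β) = Real.log (∏ i, |(a i : ℝ)|) := by
      show Real.log (max 1 (Z a)) = _
      rw [max_eq_right hZ1]
    rw [e]
    exact hLZ) ha hβ hne
  have h2 : 1 ≤ max C 1 * ((Z a) ^ (1 + ε) * |∏ i, (a i : ℝ) ^ (β i) - 1|) := by
    refine le_trans h1 (mul_le_mul_of_nonneg_right (le_max_left _ _) ?_)
    exact mul_nonneg (Real.rpow_nonneg hZ0.le _) (abs_nonneg _)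
  show 1 / (max C 1 * (Z a) ^ (1 + ε)) ≤ _
  have h3 : 0 < max C 1 * (Z a) ^ (1 + ε) := by
    have : 0 < (Z a) ^ (1 + ε) := Real.rpow_pos_of_pos hZ0 _
    positivity
  rw [div_le_iff₀ h3]
  calc (1 : ℝ) ≤ max C 1 * ((Z a) ^ (1 + ε) * |∏ i, (a i : ℝ) ^ (β i) - 1|) := h2
    _ = _ := by ring

end Pool.Agent.R343.LT
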