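import Pool.Agent.R343.LT4
import Pool.Agent.Results.MP_6f1c57_nt.SparseQuadraticPoints

set_option autoImplicit false
set_option linter.unusedSectionVars false

/-! # The height inequality for quadratic points with compressible coordinates -/

namespace Pool.Agent.R343.LT

open Finset Pool.Agent.R343.LP Pool.Agent.R343.LI Polynomial
open Pool.Agent.Results.MP_6f1c57_nt.SparseQuadraticPoints

theorem sep_scale (f : ℤ[X]) (hf : (f.map (Int.castRingHom ℚ)).Separable) (s : ℤ) (hs : s ≠ 0) :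
    ((scaleRoots f s).map (Int.castRingHom ℚ)).Separable := by
  have hs0 : (s : ℚ) ≠ 0 := by exact_mod_cast hs
  obtain ⟨g, hg⟩ : ∃ g, g = f.map (Int.castRingHom ℚ) := ⟨_, rfl⟩
  have h1 : (scaleRoots f s).map (Int.castRingHom ℚ) =
      C ((s : ℚ) ^ f.natDegree) * g.comp (C ((s : ℚ)⁻¹) * X) := by
    ext i
    rw [coeff_map, coeff_scaleRoots, coeff_C_mul, comp_C_mul_X_coeff, hg, coeff_map]
    rcases le_or_gt i f.natDegree with h | h
    · have h2 : (s : ℚ) ^ f.natDegree = (s : ℚ) ^ (f.natDegree - i) * (s : ℚ) ^ i := by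
        rw [← pow_add, Nat.sub_add_cancel h]
      rw [h2, inv_pow, eq_intCast, eq_intCast]
      push_cast
      field_simp
    · rw [coeff_eq_zero_of_natDegree_lt h]
      simp
  rw [h1]
  have h2 : (g.comp (C ((s : ℚ)⁻¹) * X)).Separable := by
    unfold Separable
    have h3 : derivative (g.comp (C ((s : ℚ)⁻¹) * X)) =
        C ((s : ℚ)⁻¹) * (derivative g).comp (C ((s : ℚ)⁻¹) * X) := by
      rw [derivative_comp, derivative_C_mul, derivative_X, mul_one]
    rw [h3]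
    rw [← hg] at hf
    have h4 : IsCoprime (g.comp (C ((s : ℚ)⁻¹) * X)) ((derivative g).comp (C ((s : ℚ)⁻¹) * X)) := by
      have h5 := IsCoprime.map hf (compRingHom (C ((s : ℚ)⁻¹) * X))
      exact h5
    refine (isCoprime_mul_unit_left_right ?_ _ _).2 h4
    exact isUnit_C.2 (inv_ne_zero hs0).isUnit
  refine Separable.of_dvd h2 ?_
  exact ⟨C (((s : ℚ) ^ f.natDegree)⁻¹), by
    have h6 : C ((s : ℚ) ^ f.natDegree) * C (((s : ℚ) ^ f.natDegree)⁻¹) = (1 : ℚ[X]) := by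
      rw [← C_mul, mul_inv_cancel₀ (pow_ne_zero _ hs0), C_1]
    calc g.comp (C ((s : ℚ)⁻¹) * X) = (C ((s : ℚ) ^ f.natDegree) *
          C (((s : ℚ) ^ f.natDegree)⁻¹)) * g.comp (C ((s : ℚ)⁻¹) * X) := by rw [h6, one_mul]
      _ = _ := by ring⟩

theorem const_le (r B A n Y : ℕ) (hY : 1 ≤ Y) :
    const r (Y * B) (A * Y) n ≤ const r B A n *
      Y ^ ((1 + (max n 3 + 1) * (4 * (4 * max n 3) ^ r)) * (n - 2) + 2 * (max n 3 + 1)) := by
  obtain ⟨d, hd⟩ : ∃ d, d = max n 3 := ⟨_, rfl⟩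
  have hss : ss r (Y * B) (A * Y) d ≤ ss r B A d * Y ^ (d + 1) := by
    unfold ss
    have h1 : A * Y + 1 ≤ (A + 1) * Y := by nlinarith
    calc 2 * (A * Y + 1) * (r * (Y * B)) ^ d ≤ 2 * ((A + 1) * Y) * (r * (Y * B)) ^ d := by gcongr
      _ = 2 * (A + 1) * (r * B) ^ d * Y ^ (d + 1) := by
          rw [show r * (Y * B) = (r * B) * Y by ring, mul_pow, pow_succ]
          ring
  unfold const
  rw [← hd]
  obtain ⟨m, hm⟩ : ∃ m, m = 4 * (4 * d) ^ r := ⟨_, rfl⟩
  rw [← hm]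
  calc (r * (Y * B) * ss r (Y * B) (A * Y) d ^ m) ^ (n - 2) * ss r (Y * B) (A * Y) d ^ 2
      ≤ (r * (Y * B) * (ss r B A d * Y ^ (d + 1)) ^ m) ^ (n - 2) *
          (ss r B A d * Y ^ (d + 1)) ^ 2 := by gcongr
    _ = (r * B * ss r B A d ^ m) ^ (n - 2) * ss r B A d ^ 2 *
          Y ^ ((1 + (d + 1) * m) * (n - 2) + 2 * (d + 1)) := by
        rw [mul_pow (ss r B A d), ← pow_mul Y, mul_pow (ss r B A d) _ 2, ← pow_mul Y,
          show r * (Y * B) * (ss r B A d ^ m * Y ^ ((d + 1) * m)) =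
            (r * B * ss r B A d ^ m) * Y ^ (1 + (d + 1) * m) by
              rw [pow_add, pow_one]; ring, mul_pow (r * B * ss r B A d ^ m), ← pow_mul Y, pow_add Y,
          mul_comm 2 (d + 1)]
        ring

theorem vojLZ (f : ℤ[X]) (hf : (f.map (Int.castRingHom ℚ)).Separable) (hn : 3 ≤ f.natDegree)
    (b : ℕ) (hb : 2 ≤ b) (z : ℕ) (B : ℤ) (hB : 0 ≤ B) (M ε : ℝ) (hM : 0 ≤ M) (hε : 0 < ε) :
    ∃ C : ℝ, 0 < C ∧ ∀ x s D : ℤ, f.eval x = D * s ^ 2 → f.eval x ≠ 0 →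
      LZInt b z B (M * (1 + Real.log (max 1 |(x : ℝ)|))) x →
      LZInt b z B (M * (1 + Real.log (max 1 |(x : ℝ)|))) s →
      LZInt b z B (M * (1 + Real.log (max 1 |(x : ℝ)|))) D →
      (max 1 |(x : ℝ)|) ^ ((f.natDegree : ℝ) - 2 - ε) ≤ C * |(D : ℝ)| := by
  classical
  let X' := Fin 3 → ℤ
  let Z : X' → ℝ := fun P => max 1 |(P 0 : ℝ)|
  let H : X' → ℝ := fun P => Real.log (Z P)
  obtain ⟨n, hnn⟩ : ∃ n, n = f.natDegree := ⟨_, rfl⟩
  rw [← hnn] at hn ⊢
  let Φ : ℝ → X' → Prop := fun C P => f.eval (P 0) = P 2 * P 1 ^ 2 → f.eval (P 0) ≠ 0 →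
    (Z P) ^ ((n : ℝ) - 2 - ε) ≤ C * |(P 2 : ℝ)|
  have hmono : ∀ C C' P, C ≤ C' → Φ C P → Φ C' P := by
    intro C C' P hC h h1 h2
    exact (h h1 h2).trans (mul_le_mul_of_nonneg_right hC (abs_nonneg _))
  have hH : ∀ P, 0 ≤ H P := fun P => Real.log_nonneg (le_max_left _ _)
  obtain ⟨A, hA⟩ : ∃ A : ℕ, (A : ℤ) = ∑ k ∈ Finset.range (n + 1), |f.coeff k| :=
    ⟨(∑ k ∈ Finset.range (n + 1), |f.coeff k|).toNat,
      Int.toNat_of_nonneg (Finset.sum_nonneg fun _ _ => abs_nonneg _)⟩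
  obtain ⟨C, hC⟩ := transfer (fun _ : Fin 3 => b) (fun _ => hb) z B hB M hM Φ hmono H hH
    (fun P => P) (by
    intro T
    let J := Fin 3 × Fin T
    let e0 : Fin (Fintype.card J) ≃ J := (Fintype.equivFin J).symm
    obtain ⟨G, hG⟩ : ∃ G, G = (1 + (max n 3 + 1) * (4 * (4 * max n 3) ^ (Fintype.card J))) *
      (n - 2) + 2 * (max n 3 + 1) := ⟨_, rfl⟩
    obtain ⟨BN, hBN⟩ : ∃ BN : ℕ, (BN : ℤ) = B + 1 := ⟨(B + 1).toNat, Int.toNat_of_nonneg (by omega)⟩
    have hBN1 : 1 ≤ BN := by omega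
    obtain ⟨K, hK⟩ : ∃ K : ℕ, K = const (Fintype.card J) BN A n := ⟨_, rfl⟩
    obtain ⟨R, hR⟩ : ∃ R : ℕ, R = 2 * n * G + 2 * n := ⟨_, rfl⟩
    have hR0 : 0 < R := by omega
    have hRR : (0 : ℝ) < R := by exact_mod_cast hR0
    refine ⟨ε / (3 * R), by positivity, max 1 (K * Real.exp ε), ?_⟩
    intro P D hD0 hDlog hsp heq hne
    obtain ⟨x, hx⟩ : ∃ x, x = P 0 := ⟨_, rfl⟩
    obtain ⟨s, hs⟩ : ∃ s, s = P 1 := ⟨_, rfl⟩
    obtain ⟨D', hD'⟩ : ∃ D', D' = P 2 := ⟨_, rfl⟩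
    rw [← hx, ← hs, ← hD'] at heq
    rw [← hx] at hne
    have hD'0 : D' ≠ 0 := by
      rintro rfl
      rw [zero_mul] at heq
      exact hne heq
    have hDabs : (1 : ℝ) ≤ |(D' : ℝ)| := by
      have : 1 ≤ |D'| := Int.one_le_abs hD'0
      exact_mod_cast this
    have hZe : Z P = max 1 |(x : ℝ)| := by rw [hx]
    show (Z P) ^ ((n : ℝ) - 2 - ε) ≤ _ * |(P 2 : ℝ)|
    rw [← hD']
    by_cases hx0 : x = 0
    · rw [hZe, hx0, Int.cast_zero, abs_zero, max_eq_left zero_le_one, Real.one_rpow]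
      calc (1 : ℝ) ≤ 1 * |(D' : ℝ)| := by rwa [one_mul]
        _ ≤ _ := mul_le_mul_of_nonneg_right (le_max_left _ _) (abs_nonneg _)
    have hx1 : (1 : ℝ) ≤ |(x : ℝ)| := by
      have : 1 ≤ |x| := Int.one_le_abs hx0
      exact_mod_cast this
    rw [max_eq_right hx1] at hZe
    have hHe : H P = Real.log |(x : ℝ)| := by
      show Real.log (Z P) = _
      rw [hZe]
    rw [hHe] at hDlog
    rw [hZe]
    have hxpos : 0 < |(x : ℝ)| := by linarith
    obtain ⟨DD, hDD⟩ : ∃ DD : ℕ, DD = ∏ s, D s := ⟨_, rfl⟩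
    have hDD0 : 0 < DD := by
      rw [hDD]
      exact Finset.prod_pos fun s _ => hD0 s
    let Q : Fin 3 → ℕ := fun s => ∏ s' ∈ Finset.univ.erase s, D s'
    have hQ : ∀ s, Q s * D s = DD := fun s => by
      rw [hDD]
      exact Finset.prod_erase_mul _ _ (Finset.mem_univ s)
    have hQle : ∀ s, Q s ≤ DD := fun s => by
      rw [← hQ s]
      exact Nat.le_mul_of_pos_right _ (hD0 s)
    have hDDlog : R * Real.log DD ≤ ε * (1 + Real.log |(x : ℝ)|) := by
      have h1 : Real.log DD ≤ 3 * (ε / (3 * R) * (1 + Real.log |(x : ℝ)|)) := by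
        rw [hDD]
        push_cast
        rw [Real.log_prod (fun s _ => by exact_mod_cast (hD0 s).ne')]
        refine (Finset.sum_le_sum fun s _ => hDlog s).trans ?_
        rw [Finset.sum_const, Finset.card_univ, nsmul_eq_mul, Fintype.card_fin]
        norm_num
      calc R * Real.log DD ≤ R * (3 * (ε / (3 * R) * (1 + Real.log |(x : ℝ)|))) :=
            mul_le_mul_of_nonneg_left h1 hRR.le
        _ = _ := by field_simp
    choose l v hv hlv using hsp
    let eJ : J → ℕ := fun t => l t.1 t.2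
    let cJ : Fin 3 → ℕ → J → ℤ := fun i m t => if t.1 = i then (DD : ℤ) ^ m * Q i * v i t.2 else 0
    have hcb : ∀ i m, m + 1 ≤ 2 * n → ∀ t, |cJ i m t| ≤ ((DD ^ (2 * n) * BN : ℕ) : ℤ) := by
      intro i m hm t
      show |if t.1 = i then (DD : ℤ) ^ m * Q i * v i t.2 else 0| ≤ _
      split_ifs
      · rw [abs_mul, abs_mul, Nat.abs_cast, abs_pow, Nat.abs_cast]
        push_cast
        have h1 : (Q i : ℤ) ≤ DD := by exact_mod_cast hQle i
        have h2 : (1 : ℤ) ≤ DD := by exact_mod_cast hDD0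
        have h3 : (DD : ℤ) ^ m * Q i ≤ (DD : ℤ) ^ (2 * n) := by
          calc (DD : ℤ) ^ m * Q i ≤ (DD : ℤ) ^ m * DD := mul_le_mul_of_nonneg_left h1 (by positivity)
            _ = (DD : ℤ) ^ (m + 1) := (pow_succ _ _).symm
            _ ≤ _ := pow_le_pow_right₀ h2 hm
        refine mul_le_mul h3 ?_ (abs_nonneg _) (by positivity)
        rw [hBN]
        exact (hv i t.2).trans (by omega)
      · rw [abs_zero]
        exact Int.natCast_nonneg _
    have hspi : ∀ i m, sp b (fun j => eJ (e0 j)) (fun j => cJ i m (e0 j)) =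
        (DD : ℤ) ^ (m + 1) * P i := by
      intro i m
      unfold sp
      rw [Equiv.sum_comp e0 (fun t => cJ i m t * (b : ℤ) ^ eJ t), Fintype.sum_prod_type]
      have h1 : ∀ i' : Fin 3, ∑ j : Fin T, cJ i m (i', j) * (b : ℤ) ^ eJ (i', j) =
          if i' = i then (DD : ℤ) ^ (m + 1) * P i else 0 := by
        intro i'
        by_cases h : i' = i
        · subst h
          rw [if_pos rfl]
          have h2 : ∀ j : Fin T, cJ i' m (i', j) * (b : ℤ) ^ eJ (i', j) =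
              ((DD : ℤ) ^ m * Q i') * (v i' j * (b : ℤ) ^ l i' j) := by
            intro j
            show (if i' = i' then (DD : ℤ) ^ m * Q i' * v i' j else 0) * (b : ℤ) ^ l i' j = _
            rw [if_pos rfl]
            ring
          rw [Finset.sum_congr rfl fun j _ => h2 j, ← Finset.mul_sum, ← hlv i']
          have h3 : ((Q i' : ℕ) : ℤ) * (D i' : ℕ) = DD := by exact_mod_cast hQ i'
          rw [pow_succ, ← h3]
          ring
        · rw [if_neg h]
          refine Finset.sum_eq_zero fun j _ => ?_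
          show (if i' = i then (DD : ℤ) ^ m * Q i * v i j else 0) * _ = 0
          rw [if_neg h, zero_mul]
      rw [Finset.sum_congr rfl fun i' _ => h1 i']
      simp
    have hDDZ : (DD : ℤ) ≠ 0 := by exact_mod_cast hDD0.ne'
    obtain ⟨lam, hlam⟩ : ∃ lam : ℤ, lam = (DD : ℤ) ^ 2 := ⟨_, rfl⟩
    have hlam0 : lam ≠ 0 := by rw [hlam]; exact pow_ne_zero _ hDDZ
    have hev : (scaleRoots f lam).eval (lam * x) = lam ^ n * f.eval x := by
      rw [hnn]
      exact scaleRoots_eval_mul f x lam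
    have hres := result (scaleRoots f lam) (sep_scale f hf lam hlam0) (A * DD ^ (2 * n)) (by
        rw [natDegree_scaleRoots, ← hnn]
        push_cast
        rw [hA, Finset.sum_mul]
        refine Finset.sum_le_sum fun k hk => ?_
        rw [coeff_scaleRoots, abs_mul, ← hnn]
        refine mul_le_mul_of_nonneg_left ?_ (abs_nonneg _)
        rw [hlam, ← pow_mul, abs_pow, Nat.abs_cast]
        refine pow_le_pow_right₀ (by exact_mod_cast hDD0) ?_
        omega) b hb (Fintype.card J) (DD ^ (2 * n) * BN) (fun j => eJ (e0 j)) (fun j => cJ 0 1 (e0 j))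
      (fun j => cJ 1 0 (e0 j)) (fun j => cJ 2 (2 * n - 3) (e0 j))
      (fun j => hcb 0 1 (by omega) _) (fun j => hcb 1 0 (by omega) _)
      (fun j => hcb 2 (2 * n - 3) (by omega) _) (lam * x) ((DD : ℤ) * s) (lam ^ (n - 1) * D') (by
        rw [hspi, hlam, hx]) (by rw [hspi, hs, zero_add, pow_one]) (by
        rw [hspi, hD', hlam, ← pow_mul]
        congr 2
        omega) (by
        rw [hev, heq, hlam]
        obtain ⟨n', rfl⟩ : ∃ n', n = n' + 1 := ⟨n - 1, by omega⟩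
        rw [Nat.add_sub_cancel]
        ring) (by
        rw [hev]
        exact mul_ne_zero (pow_ne_zero _ hlam0) hne)
    rw [natDegree_scaleRoots, ← hnn] at hres
    have h1 : |x| ^ (n - 2) ≤ (K : ℤ) * (DD : ℤ) ^ R * |D'| := by
      have hlam1 : (1 : ℤ) ≤ |lam| := Int.one_le_abs hlam0
      have h2 : |x| ^ (n - 2) ≤ |lam * x| ^ (n - 2) := by
        refine pow_le_pow_left₀ (abs_nonneg _) ?_ _
        rw [abs_mul]
        nlinarith [abs_nonneg x]
      have h3 := const_le (Fintype.card J) BN A n (DD ^ (2 * n)) (Nat.one_le_pow _ _ hDD0)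
      rw [← hG, ← hK] at h3
      have h4 : ((const (Fintype.card J) (DD ^ (2 * n) * BN) (A * DD ^ (2 * n)) n : ℕ) : ℤ) ≤
          (K : ℤ) * ((DD : ℤ) ^ (2 * n)) ^ G := by exact_mod_cast h3
      have h5 : |lam ^ (n - 1) * D'| ≤ (DD : ℤ) ^ (2 * n) * |D'| := by
        rw [abs_mul, hlam, ← pow_mul, abs_pow, Nat.abs_cast]
        refine mul_le_mul_of_nonneg_right (pow_le_pow_right₀ (by exact_mod_cast hDD0) (by omega))
          (abs_nonneg _)
      calc |x| ^ (n - 2) ≤ |lam * x| ^ (n - 2) := h2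
        _ ≤ _ := hres
        _ ≤ ((K : ℤ) * ((DD : ℤ) ^ (2 * n)) ^ G) * ((DD : ℤ) ^ (2 * n) * |D'|) := by
            refine mul_le_mul h4 h5 (abs_nonneg _) (by positivity)
        _ = (K : ℤ) * (DD : ℤ) ^ R * |D'| := by
            rw [hR, pow_add, ← pow_mul]
            ring
    have h2 : |(x : ℝ)| ^ (n - 2) ≤ (K : ℝ) * (DD : ℝ) ^ R * |(D' : ℝ)| := by exact_mod_cast h1
    have h3 : |(x : ℝ)| ^ ((n : ℝ) - 2 - ε) = |(x : ℝ)| ^ (n - 2) * |(x : ℝ)| ^ (-ε) := by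
      rw [← Real.rpow_natCast, ← Real.rpow_add hxpos]
      congr 1
      rw [Nat.cast_sub (by omega)]
      push_cast
      ring
    have hDDR : (0 : ℝ) < DD := by exact_mod_cast hDD0
    have h4 : (DD : ℝ) ^ R * |(x : ℝ)| ^ (-ε) ≤ Real.exp ε := by
      have e1 : (DD : ℝ) ^ R = Real.exp (R * Real.log DD) := by
        rw [Real.exp_nat_mul, Real.exp_log hDDR]
      have e2 : |(x : ℝ)| ^ (-ε) = Real.exp (Real.log |(x : ℝ)| * (-ε)) :=
        Real.rpow_def_of_pos hxpos _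
      rw [e1, e2, ← Real.exp_add]
      refine Real.exp_le_exp.2 ?_
      linarith
    rw [h3]
    calc |(x : ℝ)| ^ (n - 2) * |(x : ℝ)| ^ (-ε) ≤
          ((K : ℝ) * (DD : ℝ) ^ R * |(D' : ℝ)|) * |(x : ℝ)| ^ (-ε) :=
          mul_le_mul_of_nonneg_right h2 (Real.rpow_nonneg hxpos.le _)
      _ = (K * |(D' : ℝ)|) * ((DD : ℝ) ^ R * |(x : ℝ)| ^ (-ε)) := by ring
      _ ≤ (K * |(D' : ℝ)|) * Real.exp ε := mul_le_mul_of_nonneg_left h4 (by positivity)
      _ = (K * Real.exp ε) * |(D' : ℝ)| := by ring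
      _ ≤ _ := mul_le_mul_of_nonneg_right (le_max_right _ _) (abs_nonneg _))
  refine ⟨max C 1, by positivity, ?_⟩
  intro x s D heq hne hx hs hD
  have h1 := hC ![x, s, D] (by
    intro i
    fin_cases i
    · exact hx
    · exact hs
    · exact hD) heq hne
  refine le_trans h1 (mul_le_mul_of_nonneg_right (le_max_left _ _) (abs_nonneg _))

end Pool.Agent.R343.LT
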