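import Pool.Agent.R343.LT4
import Pool.Agent.Results.MP_50a406_nt.SparseQuadratic

set_option autoImplicit false
set_option linter.unusedSectionVars false

/-! # Quadratic points with compressible coordinates on Fermat curves -/

namespace Pool.Agent.R343.LT

open Finset Pool.Agent.R343.LP Pool.Agent.R343.LI
open Pool.Agent.Results.MP_50a406_nt.SparseQuadratic

/-- `x ^ n + y ^ n = z ^ n` in the quadratic field `K`, `x, z ≠ 0`, `y / z` irrational, and `w` are
homogeneous coordinates of the trace and the norm of `y / z` and the norm of `x / z` -/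
def IsPoint (n : ℕ) (w : Fin 4 → ℤ) : Prop :=
  w 0 ≠ 0 ∧ ∃ (K : Type) (_ : Field K) (_ : NumberField K), Module.finrank ℚ K = 2 ∧
    ∃ x y z : K, x ^ n + y ^ n = z ^ n ∧ x ≠ 0 ∧ z ≠ 0 ∧ (∀ a : ℚ, y / z ≠ algebraMap ℚ K a) ∧
      Algebra.trace ℚ K (y / z) = (w 1 : ℚ) / w 0 ∧ Algebra.norm ℚ (y / z) = (w 2 : ℚ) / w 0 ∧
      Algebra.norm ℚ (x / z) = (w 3 : ℚ) / w 0

/-- the height -/
def hgt (w : Fin 4 → ℤ) : ℕ :=
  max (ht ((w 1 : ℚ) / w 0)) (max (ht ((w 2 : ℚ) / w 0)) (ht ((w 3 : ℚ) / w 0)))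

theorem sparse_bound (n : ℕ) (hn : 8 ≤ n) (b : ℕ) (hb : 2 ≤ b) (r B : ℕ) (e : Fin r → ℕ)
    (c : Fin 4 → Fin r → ℤ) (hc : ∀ i j, |c i j| ≤ B) (w : Fin 4 → ℤ) (hw : IsPoint n w)
    (D : ℚ) (hD : D ≠ 0) (h : ∀ i, D * w i = (sp b e (c i) : ℚ)) : hgt w ≤ bound n r B := by
  obtain ⟨hw0, K, _, _, hK, x, y, z, hxyz, hx, hz, hy, h1, h2, h3⟩ := hw
  have hw0Q : (w 0 : ℚ) ≠ 0 := by exact_mod_cast hw0
  have hsp0 : sp b e (c 0) ≠ 0 := by
    intro h0
    have h4 := h 0
    rw [h0, Int.cast_zero] at h4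
    exact (mul_ne_zero hD hw0Q) h4
  have hrat : ∀ i, (w i : ℚ) / w 0 = (sp b e (c i) : ℚ) / sp b e (c 0) := by
    intro i
    rw [← h i, ← h 0, mul_div_mul_left _ _ hD]
  have h4 := result hK n hn x y z hxyz hx hz hy b hb r B e c hc hsp0 (by rw [h1, hrat])
    (by rw [h2, hrat]) (by rw [h3, hrat])
  rw [h1, h2, h3] at h4
  exact max_le h4.1 (max_le h4.2.1 h4.2.2)

/-- integral letters, four components -/
def lett4 (B : ℕ) : Set (Fin 4 → ℚ) := {v | ∃ n : Fin 4 → ℤ, (∀ i, |n i| ≤ B) ∧ v = fun i => (n i : ℚ)}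

/-- joint words, both directions -/
theorem joint (n : ℕ) (hn : 8 ≤ n) (b : ℕ) (hb : 2 ≤ b) (z N B : ℕ) (a : ℕ → Fin 4 → ℤ)
    (hLZ : LZ a N z) (ha : ∀ j < N, ∀ i, |a j i| ≤ B) (w : Fin 4 → ℤ) (hw : IsPoint n w)
    (h : (∀ i, w i = ∑ j ∈ range N, (b : ℤ) ^ (N - 1 - j) * a j i) ∨
      ∀ i, w i = ∑ j ∈ range N, (b : ℤ) ^ j * a j i) : hgt w ≤ bound n (6 ^ z) B := by
  have hb0 : (b : ℚ) ≠ 0 := by
    have : b ≠ 0 := by omega
    exact_mod_cast this
  have key : ∀ t : ℚ, (∀ q, 0 < q → t ^ q ≠ 1) → ∃ D : ℚ, D ≠ 0 ∧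
      ∃ (l : Fin (6 ^ z) → ℕ) (v : Fin (6 ^ z) → Fin 4 → ℤ), (∀ j i, |v j i| ≤ B) ∧
      ∀ i, D * ∑ j ∈ range N, t ^ (N - 1 - j) * (a j i : ℚ) = ∑ j, t ^ l j * (v j i : ℚ) := by
    intro t ht
    obtain ⟨c, hc0, hcz, hph⟩ := hLZ
    have hcmono : ∀ i < z, c i ≤ c (i + 1) := by
      intro i hi
      rcases hph i hi with h | ⟨h, _⟩
      · omega
      · exact h
    have hcL : ∀ i ≤ z, c i ≤ N := by
      intro i hi
      rw [← hcz]
      have : ∀ j, i + j ≤ z → c i ≤ c (i + j) := by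
        intro j
        induction j with
        | zero => intro _; exact le_rfl
        | succ j ih =>
          intro hj
          exact (ih (by omega)).trans (hcmono (i + j) (by omega))
      have h1 := this (z - i) (by omega)
      have h2 : i + (z - i) = z := by omega
      rwa [h2] at h1
    obtain ⟨D, hD, -, hm⟩ := lz_sparse t (fun j => (fun i => (a j i : ℚ) : Fin 4 → ℚ)) (lett4 B)
      ⟨fun _ => 0, fun i => by simp, by funext i; simp⟩
      (by
        rintro v ⟨m, hm, rfl⟩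
        exact ⟨fun i => -m i, fun i => by rw [abs_neg]; exact hm i, by funext i; simp⟩)
      ht c hc0 z N (fun j hj => ⟨a j, ha j hj, rfl⟩) hcL
      (fun i hi => by
        rcases hph i hi with h | ⟨h1, p, h2, h3, h4⟩
        · exact Or.inl h
        · exact Or.inr ⟨h1, p, h2, h3, fun j hj1 hj2 => by
            show (fun i => ((a j i : ℤ) : ℚ)) = fun i => ((a (j - p) i : ℤ) : ℚ)
            rw [h4 j hj1 hj2]⟩) z le_rfl
    obtain ⟨l, v, hv, he⟩ := hm N (by rw [hcz])
    choose m hm1 hm2 using hv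
    refine ⟨D, hD, l, m, hm1, fun i => ?_⟩
    have h5 := congrFun he i
    rw [P_eq] at h5
    simp only [Pi.smul_apply, Finset.sum_apply, smul_eq_mul] at h5
    rw [h5]
    refine Finset.sum_congr rfl fun j _ => ?_
    rw [hm2 j]
  rcases h with h | h
  · obtain ⟨D, hD, l, v, hv, he⟩ := key b (fun q hq => pow_ne_one hb q hq)
    refine sparse_bound n hn b hb (6 ^ z) B l (fun i j => v j i) (fun i j => hv j i) w hw D hD ?_
    intro i
    rw [h i]
    push_cast [sp]
    rw [he i]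
    exact Finset.sum_congr rfl fun j _ => mul_comm _ _
  · have hinv : ∀ q, 0 < q → ((b : ℚ)⁻¹) ^ q ≠ 1 := by
      intro q hq h1
      rw [inv_pow] at h1
      exact pow_ne_one hb q hq (inv_eq_one.1 h1)
    obtain ⟨D, hD, l, v, hv, he⟩ := key ((b : ℚ)⁻¹) hinv
    obtain ⟨m, hm⟩ : ∃ m, ∀ j, l j ≤ m := ⟨∑ j, l j, fun j =>
      Finset.single_le_sum (f := l) (fun _ _ => Nat.zero_le _) (Finset.mem_univ j)⟩
    rcases Nat.eq_zero_or_pos N with hN | hN
    · exfalso
      apply hw.1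
      rw [h 0, hN]
      simp
    refine sparse_bound n hn b hb (6 ^ z) B (fun j => m - l j) (fun i j => v j i)
      (fun i j => hv j i) w hw (D * ((b : ℚ) ^ m / (b : ℚ) ^ (N - 1)))
      (mul_ne_zero hD (div_ne_zero (pow_ne_zero _ hb0) (pow_ne_zero _ hb0))) ?_
    intro i
    have h1 : ((w i : ℤ) : ℚ) = (b : ℚ) ^ (N - 1) *
        ∑ j ∈ range N, ((b : ℚ)⁻¹) ^ (N - 1 - j) * (a j i : ℚ) := by
      rw [h i]
      push_cast
      rw [Finset.mul_sum]
      refine Finset.sum_congr rfl fun j hj => ?_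
      have hj' := Finset.mem_range.1 hj
      rw [← mul_assoc]
      congr 1
      have h2 : (b : ℚ) ^ (N - 1) = (b : ℚ) ^ j * (b : ℚ) ^ (N - 1 - j) := by
        rw [← pow_add]
        congr 1
        omega
      rw [h2, inv_pow]
      field_simp
    rw [h1]
    have h3 : D * ((b : ℚ) ^ m / (b : ℚ) ^ (N - 1)) * ((b : ℚ) ^ (N - 1) *
        ∑ j ∈ range N, ((b : ℚ)⁻¹) ^ (N - 1 - j) * (a j i : ℚ)) = (b : ℚ) ^ m * (D *
        ∑ j ∈ range N, ((b : ℚ)⁻¹) ^ (N - 1 - j) * (a j i : ℚ)) := by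
      field_simp
    rw [h3, he i, Finset.mul_sum]
    push_cast [sp]
    refine Finset.sum_congr rfl fun j _ => ?_
    have h4 : (b : ℚ) ^ m = (b : ℚ) ^ (m - l j) * (b : ℚ) ^ l j := by
      rw [← pow_add, Nat.sub_add_cancel (hm j)]
    rw [h4, inv_pow]
    field_simp

theorem bound_mul (n r B Y : ℕ) : bound n r (Y * B) =
    bound n r B * Y ^ (1 + n * (4 * (4 * n) ^ r)) := by
  unfold bound
  obtain ⟨m, hm⟩ : ∃ m, m = 4 * (4 * n) ^ r := ⟨_, rfl⟩
  rw [← hm]
  rw [show r * (Y * B) = (r * B) * Y by ring, mul_pow (r * B) Y n, ← mul_assoc,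
    mul_pow _ (Y ^ n) m, ← pow_mul, pow_add, pow_one]
  ring

/-- separate words -/
theorem separate (n : ℕ) (hn : 8 ≤ n) (b : ℕ) (hb : 2 ≤ b) (z : ℕ) (B : ℤ) (hB : 0 ≤ B) (M : ℝ)
    (hM : 0 ≤ M) : ∃ C : ℝ, ∀ w : Fin 4 → ℤ, IsPoint n w →
      (∀ i, LZInt b z B (M * (1 + Real.log (hgt w))) (w i)) → (hgt w : ℝ) ≤ C := by
  classical
  let H : (Fin 4 → ℤ) → ℝ := fun w => Real.log (hgt w)
  let Φ : ℝ → (Fin 4 → ℤ) → Prop := fun C w => IsPoint n w → H w ≤ C
  have hmono : ∀ C C' P, C ≤ C' → Φ C P → Φ C' P := fun C C' P hC h h1 => (h h1).trans hC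
  have hH : ∀ P, 0 ≤ H P := fun P => Real.log_natCast_nonneg _
  obtain ⟨C, hC⟩ := transfer (fun _ : Fin 4 => b) (fun _ => hb) z B hB M hM Φ hmono H hH
    (fun P => P) (by
    intro T
    let J := Fin 4 × Fin T
    let e0 : Fin (Fintype.card J) ≃ J := (Fintype.equivFin J).symm
    obtain ⟨G, hG⟩ : ∃ G, G = 1 + n * (4 * (4 * n) ^ (Fintype.card J)) := ⟨_, rfl⟩
    obtain ⟨BN, hBN⟩ : ∃ BN : ℕ, (BN : ℤ) = B + 1 := ⟨(B + 1).toNat, Int.toNat_of_nonneg (by omega)⟩
    have hBN1 : 1 ≤ BN := by omega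
    have hG0 : 0 < G := by omega
    have hGR : (0 : ℝ) < G := by exact_mod_cast hG0
    refine ⟨1 / (8 * G), by positivity,
      2 * Real.log (bound n (Fintype.card J) BN) + 1, ?_⟩
    intro w D hD0 hDlog hsp hw
    obtain ⟨DD, hDD⟩ : ∃ DD : ℕ, DD = ∏ s, D s := ⟨_, rfl⟩
    have hDD0 : 0 < DD := by
      rw [hDD]
      exact Finset.prod_pos fun s _ => hD0 s
    let Q : Fin 4 → ℕ := fun s => ∏ s' ∈ Finset.univ.erase s, D s'
    have hQ : ∀ s, Q s * D s = DD := fun s => by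
      rw [hDD]
      exact Finset.prod_erase_mul _ _ (Finset.mem_univ s)
    have hQle : ∀ s, Q s ≤ DD := fun s => by
      rw [← hQ s]
      exact Nat.le_mul_of_pos_right _ (hD0 s)
    have hDDlog : G * Real.log DD ≤ 1 / 2 * (1 + H w) := by
      have h1 : Real.log DD ≤ 4 * (1 / (8 * G) * (1 + H w)) := by
        rw [hDD]
        push_cast
        rw [Real.log_prod (fun s _ => by exact_mod_cast (hD0 s).ne')]
        refine (Finset.sum_le_sum fun s _ => hDlog s).trans ?_
        rw [Finset.sum_const, Finset.card_univ, nsmul_eq_mul, Fintype.card_fin]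
        norm_num
      calc G * Real.log DD ≤ G * (4 * (1 / (8 * G) * (1 + H w))) :=
            mul_le_mul_of_nonneg_left h1 hGR.le
        _ = (4 / 8) * ((G : ℝ) / G) * (1 + H w) := by ring
        _ = 1 / 2 * (1 + H w) := by
            rw [div_self hGR.ne']
            norm_num
    choose l v hv hlv using hsp
    let eJ : J → ℕ := fun t => l t.1 t.2
    let cJ : Fin 4 → J → ℤ := fun i t => if t.1 = i then (Q i : ℤ) * v i t.2 else 0
    have hcb : ∀ i t, |cJ i t| ≤ ((DD * BN : ℕ) : ℤ) := by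
      intro i t
      show |if t.1 = i then (Q i : ℤ) * v i t.2 else 0| ≤ _
      split_ifs
      · rw [abs_mul, Nat.abs_cast]
        push_cast
        have h1 : (Q i : ℤ) ≤ DD := by exact_mod_cast hQle i
        refine mul_le_mul h1 ?_ (abs_nonneg _) (Int.natCast_nonneg _)
        rw [hBN]
        exact (hv i t.2).trans (by omega)
      · rw [abs_zero]
        exact Int.natCast_nonneg _
    have hspi : ∀ i, sp b (fun j => eJ (e0 j)) (fun j => cJ i (e0 j)) = (DD : ℤ) * w i := by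
      intro i
      unfold sp
      rw [Equiv.sum_comp e0 (fun t => cJ i t * (b : ℤ) ^ eJ t), Fintype.sum_prod_type]
      have h1 : ∀ i' : Fin 4, ∑ j : Fin T, cJ i (i', j) * (b : ℤ) ^ eJ (i', j) =
          if i' = i then (DD : ℤ) * w i else 0 := by
        intro i'
        by_cases h : i' = i
        · subst h
          rw [if_pos rfl]
          have h2 : ∀ j : Fin T, cJ i' (i', j) * (b : ℤ) ^ eJ (i', j) =
              (Q i' : ℤ) * (v i' j * (b : ℤ) ^ l i' j) := by
            intro j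
            show (if i' = i' then (Q i' : ℤ) * v i' j else 0) * (b : ℤ) ^ l i' j = _
            rw [if_pos rfl]
            ring
          rw [Finset.sum_congr rfl fun j _ => h2 j, ← Finset.mul_sum, ← hlv i']
          have h3 : ((Q i' : ℕ) : ℤ) * (D i' : ℕ) = DD := by exact_mod_cast hQ i'
          rw [← h3]
          ring
        · rw [if_neg h]
          refine Finset.sum_eq_zero fun j _ => ?_
          show (if i' = i then (Q i : ℤ) * v i j else 0) * _ = 0
          rw [if_neg h, zero_mul]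
      rw [Finset.sum_congr rfl fun i' _ => h1 i']
      simp
    have hDDQ : (DD : ℚ) ≠ 0 := by exact_mod_cast hDD0.ne'
    have h1 := sparse_bound n hn b hb (Fintype.card J) (DD * BN) (fun j => eJ (e0 j))
      (fun i j => cJ i (e0 j)) (fun i j => hcb i _) w hw DD hDDQ (fun i => by
        rw [hspi i]
        push_cast
        rfl)
    rw [bound_mul, ← hG] at h1
    show H w ≤ _
    rcases Nat.eq_zero_or_pos (hgt w) with h0 | h0
    · have e : H w = 0 := by
        show Real.log (hgt w) = 0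
        rw [h0]
        simp
      rw [e]
      have := Real.log_natCast_nonneg (bound n (Fintype.card J) BN)
      linarith
    · have hbp : 0 < bound n (Fintype.card J) BN := by
        by_contra hcon
        have e : bound n (Fintype.card J) BN = 0 := by omega
        rw [e, zero_mul] at h1
        omega
      have h2 : (hgt w : ℝ) ≤ (bound n (Fintype.card J) BN : ℝ) * (DD : ℝ) ^ G := by
        exact_mod_cast h1
      have h3 := Real.log_le_log (by exact_mod_cast h0) h2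
      rw [Real.log_mul (by exact_mod_cast hbp.ne') (by positivity), Real.log_pow] at h3
      have h4 : H w = Real.log (hgt w) := rfl
      rw [← h4] at h3
      linarith)
  refine ⟨Real.exp C, fun w hw h => ?_⟩
  have h1 : Real.log (hgt w) ≤ C := hC w h hw
  rcases Nat.eq_zero_or_pos (hgt w) with h0 | h0
  · rw [h0, Nat.cast_zero]
    exact (Real.exp_pos _).le
  · exact (Real.log_le_iff_le_exp (by exact_mod_cast h0)).1 h1

end Pool.Agent.R343.LT
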