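import Pool.Agent.R343.LT2

set_option autoImplicit false
set_option linter.unusedSectionVars false

/-! # A transfer principle for families of compressible integers and exceptional sets -/

namespace Pool.Agent.R343.LT

open Finset Pool.Agent.R343.LP Pool.Agent.R343.LI

/-- `y` is a sum of `k` products of elements of `Γ` and integers of absolute value at most `M` -/
def SpR (Γ : Subgroup ℚˣ) (k : ℕ) (M : ℝ) (y : ℚ) : Prop :=
  ∃ (u : Fin k → Γ) (c : Fin k → ℤ), (∀ j, |(c j : ℝ)| ≤ M) ∧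
    y = ∑ j, ((u j : ℚˣ) : ℚ) * c j

/-- `x` is a sum of products of an element of `Γ` and an integer with a compressible expansion in
base `b i` -/
def CompR (Γ : Subgroup ℚˣ) {r : ℕ} (b : Fin r → ℕ) (z : ℕ) (B : ℤ) (Λ : ℝ) (x : ℚ) : Prop :=
  ∃ (g : Fin r → ℚˣ) (w : Fin r → ℤ), (∀ i, g i ∈ Γ) ∧ (∀ i, LZWd (b i) z B Λ (w i)) ∧
    x = ∑ i, ((g i : ℚˣ) : ℚ) * w i

theorem CompR.one {Γ : Subgroup ℚˣ} {b z : ℕ} {B : ℤ} {Λ : ℝ} {x : ℤ} (h : LZWd b z B Λ x) :
    CompR Γ (fun _ : Fin 1 => b) z B Λ x :=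
  ⟨fun _ => 1, fun _ => x, fun _ => Γ.one_mem, fun _ => h, by simp⟩

/-- **Transfer** for integers which are sums of products of elements of `Γ` and compressible
integers. -/
theorem compTransfer {𝒳 𝒢 : Type} [Countable 𝒢] [Nonempty 𝒢] (p r : ℕ) (Γ : Subgroup ℚˣ)
    (hΓ : Γ.FG) (b : Fin p → Fin r → ℕ) (hb : ∀ i j, 2 ≤ b i j) (z : ℕ) (B : ℤ) (hB : 0 ≤ B)
    (M0 : ℝ) (hM0 : 0 ≤ M0) (Φ : ℝ → 𝒳 → Prop) (hmono : ∀ C C' P, C ≤ C' → Φ C P → Φ C' P)
    (Ψ : 𝒢 → 𝒳 → Prop) (hmul : ∀ G G', ∃ G'', ∀ P, Ψ G'' P → Ψ G P ∧ Ψ G' P)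
    (H : 𝒳 → ℝ) (hH : ∀ P, 0 ≤ H P) (x : 𝒳 → Fin p → ℚ)
    (hyp : ∀ (k : ℕ) (Γ' : Subgroup ℚˣ), Γ'.FG → Γ ≤ Γ' → ∃ δ : ℝ, 0 < δ ∧ ∃ (C : ℝ) (G : 𝒢),
      ∀ (P : 𝒳) (M : ℝ) (D : ℕ), 1 ≤ M → 0 < D → (D : ℝ) ≤ M →
      Real.log M ≤ δ * (1 + H P) + Real.log (B + 1) → (∀ i, SpR Γ' k M (D * x P i)) → Ψ G P →
      Φ C P) :
    ∃ (C : ℝ) (G : 𝒢), ∀ P, (∀ i, CompR Γ (b i) z B (M0 * (1 + H P)) (x P i)) → Ψ G P → Φ C P := by
  classical
  obtain ⟨en, hen⟩ := exists_surjective_nat 𝒢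
  let ι := Fin p × Fin r
  let X := 𝒳 × (Fin p → Fin r → Γ) × (ι → ℤ)
  let bb : ι → ℕ := fun s => b s.1 s.2
  have hbb : ∀ s, 2 ≤ bb s := fun s => hb s.1 s.2
  let Φ' : ℝ → X → Prop := fun C Q =>
    (∀ i, x Q.1 i = ∑ j, ((Q.2.1 i j : ℚˣ) : ℚ) * Q.2.2 (i, j)) →
    (∀ n : ℕ, (n : ℝ) ≤ C → Ψ (en n) Q.1) → Φ C Q.1
  have hmono' : ∀ C C' P, C ≤ C' → Φ' C P → Φ' C' P := by
    intro C C' P hC h h1 h2
    exact hmono _ _ _ hC (h h1 fun n hn => h2 n (hn.trans hC))
  obtain ⟨C, hC⟩ := transferQ bb hbb z B hB M0 hM0 Φ' hmono' (fun Q => H Q.1) (fun Q => hH _)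
    (fun Q => Q.2.2) (by
    intro T
    let Γ' : Subgroup ℚˣ := Γ ⊔ Subgroup.closure (Set.range fun i => ub (bb i))
    have hΓ' : Γ'.FG := hΓ.sup ((Subgroup.fg_iff _).2 ⟨_, rfl, Set.finite_range _⟩)
    let J := ι × Fin T
    let e : Fin (Fintype.card J) ≃ J := (Fintype.equivFin J).symm
    obtain ⟨δ, hδ, C, G, hCG⟩ := hyp (Fintype.card J) Γ' hΓ' le_sup_left
    obtain ⟨n, hn⟩ := hen G
    have hcard : (0 : ℝ) < Fintype.card ι + 1 := by positivity
    have hB0 : (0 : ℝ) ≤ B := by exact_mod_cast hB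
    refine ⟨δ / (Fintype.card ι + 1), by positivity, max C n, ?_⟩
    rintro ⟨P, g, w⟩ D hD0 hDlog hsp hx hΨ
    simp only at hx hΨ hDlog
    refine hmono _ _ _ (le_max_left _ _) ?_
    have hHP := hH P
    -- the common denominator
    obtain ⟨DD, hDD⟩ : ∃ DD : ℕ, DD = ∏ s, D s := ⟨_, rfl⟩
    have hDD0 : 0 < DD := by
      rw [hDD]
      exact Finset.prod_pos fun s _ => hD0 s
    let Q : ι → ℕ := fun s => ∏ s' ∈ Finset.univ.erase s, D s'
    have hQ : ∀ s, Q s * D s = DD := fun s => by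
      rw [hDD]
      exact Finset.prod_erase_mul _ _ (Finset.mem_univ s)
    have hQle : ∀ s, Q s ≤ DD := fun s => by
      rw [← hQ s]
      exact Nat.le_mul_of_pos_right _ (hD0 s)
    have hDDlog : Real.log DD ≤ Fintype.card ι * (δ / (Fintype.card ι + 1) * (1 + H P)) := by
      rw [hDD]
      push_cast
      rw [Real.log_prod (fun s _ => by exact_mod_cast (hD0 s).ne')]
      refine (Finset.sum_le_sum fun s _ => hDlog s).trans ?_
      rw [Finset.sum_const, Finset.card_univ, nsmul_eq_mul]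
    have hDDlog2 : Real.log DD ≤ δ * (1 + H P) := by
      refine hDDlog.trans ?_
      calc (Fintype.card ι : ℝ) * (δ / (Fintype.card ι + 1) * (1 + H P))
          = (Fintype.card ι / (Fintype.card ι + 1)) * (δ * (1 + H P)) := by
            field_simp
        _ ≤ 1 * (δ * (1 + H P)) := by
            refine mul_le_mul_of_nonneg_right ?_ (by positivity)
            rw [div_le_one hcard]
            linarith
        _ = _ := one_mul _
    choose l v hv hlv using hsp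
    have hubm : ∀ s, ub (bb s) ∈ Γ' := fun s =>
      Subgroup.mem_sup_right (Subgroup.subset_closure ⟨s, rfl⟩)
    let gg : ι → ℚˣ := fun s => (g s.1 s.2 : ℚˣ)
    have hggm : ∀ s, gg s ∈ Γ' := fun s => Subgroup.mem_sup_left (g s.1 s.2).2
    let uJ : J → Γ' := fun t => ⟨gg t.1 * ub (bb t.1) ^ l t.1 t.2,
      Γ'.mul_mem (hggm _) (Γ'.zpow_mem (hubm _) _)⟩
    have huJ : ∀ t : J, (((uJ t : ℚˣ)) : ℚ) = (gg t.1 : ℚ) * (bb t.1 : ℚ) ^ l t.1 t.2 := by
      intro t
      show ((gg t.1 * ub (bb t.1) ^ l t.1 t.2 : ℚˣ) : ℚ) = _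
      rw [Units.val_mul, Units.val_zpow_eq_zpow_val, ub_val (hbb _)]
    have hDD1 : (1 : ℝ) ≤ DD := by exact_mod_cast hDD0
    have hlogMM : Real.log ((DD : ℝ) * (B + 1)) = Real.log DD + Real.log (B + 1) :=
      Real.log_mul (by positivity) (by positivity)
    refine hCG P (DD * (B + 1)) DD (by nlinarith) hDD0 (by nlinarith)
      (by rw [hlogMM]; linarith) ?_ (by
        have := hΨ n (le_max_right _ _)
        rwa [hn] at this)
    intro i
    let cJ : J → ℤ := fun t => if t.1.1 = i then (Q t.1 : ℤ) * v t.1 t.2 else 0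
    refine ⟨fun j => uJ (e j), fun j => cJ (e j), fun j => ?_, ?_⟩
    · show |((if (e j).1.1 = i then (Q (e j).1 : ℤ) * v (e j).1 (e j).2 else 0 : ℤ) : ℝ)| ≤ _
      split_ifs
      · push_cast
        rw [abs_mul, abs_of_nonneg (Nat.cast_nonneg (Q (e j).1))]
        have h1 := abs_le_real (hv (e j).1 (e j).2)
        have h2 : (Q (e j).1 : ℝ) ≤ DD := by exact_mod_cast hQle (e j).1
        exact mul_le_mul h2 (by linarith) (abs_nonneg _) (by positivity)
      · rw [Int.cast_zero, abs_zero]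
        positivity
    · rw [Equiv.sum_comp e (fun t => (((uJ t : ℚˣ)) : ℚ) * cJ t), Fintype.sum_prod_type,
        Fintype.sum_prod_type]
      have h1 : ∀ (i' : Fin p) (j : Fin r), ∑ t : Fin T,
          (((uJ ((i', j), t) : ℚˣ)) : ℚ) * cJ ((i', j), t) =
          if i' = i then (DD : ℚ) * (((g i' j : ℚˣ) : ℚ) * w (i', j)) else 0 := by
        intro i' j
        by_cases h : i' = i
        · subst h
          rw [if_pos rfl]
          have h2 : ∀ t : Fin T, (((uJ ((i', j), t) : ℚˣ)) : ℚ) * cJ ((i', j), t) =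
              ((g i' j : ℚˣ) : ℚ) * (Q (i', j) : ℚ) *
                ((v (i', j) t : ℚ) * (bb (i', j) : ℚ) ^ l (i', j) t) := by
            intro t
            rw [huJ]
            show ((g i' j : ℚˣ) : ℚ) * (bb (i', j) : ℚ) ^ l (i', j) t *
              ((if i' = i' then (Q (i', j) : ℤ) * v (i', j) t else 0 : ℤ) : ℚ) = _
            rw [if_pos rfl]
            push_cast
            ring
          simp_rw [h2]
          rw [← Finset.mul_sum]
          have h3 := hlv (i', j)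
          push_cast at h3
          rw [← h3]
          have h4 : ((Q (i', j) : ℕ) : ℚ) * (D (i', j) : ℕ) = DD := by exact_mod_cast hQ (i', j)
          rw [← h4]
          ring
        · rw [if_neg h]
          refine Finset.sum_eq_zero fun t _ => ?_
          show _ * ((if i' = i then (Q (i', j) : ℤ) * v (i', j) t else 0 : ℤ) : ℚ) = 0
          rw [if_neg h, Int.cast_zero, mul_zero]
      simp_rw [h1]
      rw [Finset.sum_comm]
      simp only [Finset.sum_ite_eq', Finset.mem_univ, if_true]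
      rw [← Finset.mul_sum, ← hx i])
  -- the exceptional set
  have hfin : ∀ N : ℕ, ∃ G : 𝒢, ∀ P, Ψ G P → ∀ n ≤ N, Ψ (en n) P := by
    intro N
    induction N with
    | zero => exact ⟨en 0, fun P h n hn => by rw [Nat.le_zero.1 hn]; exact h⟩
    | succ N ih =>
      obtain ⟨G, hG⟩ := ih
      obtain ⟨G'', h⟩ := hmul G (en (N + 1))
      refine ⟨G'', fun P hP n hn => ?_⟩
      rcases Nat.lt_or_ge n (N + 1) with h1 | h1
      · exact hG P (h P hP).1 n (by omega)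
      · have : n = N + 1 := by omega
        rw [this]
        exact (h P hP).2
  obtain ⟨G, hG⟩ := hfin ⌊C⌋₊
  refine ⟨C, G, fun P hP hΨ => ?_⟩
  choose g w hg hw hx using hP
  refine hC (P, (fun i j => ⟨g i j, hg i j⟩), fun s => w s.1 s.2) (fun s => hw s.1 s.2) hx ?_
  intro n hn
  exact hG P hΨ n (Nat.le_floor hn)

end Pool.Agent.R343.LT
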