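import Pool.Agent.R343.LU2
import Pool.Agent.R343.LT4

set_option autoImplicit false
set_option linter.unusedSectionVars false

/-! # The abcd inequality for compressible integers -/

namespace Pool.Agent.R343.LT

open Finset Pool.Agent.R343.LP Pool.Agent.R343.LI

theorem absorb {L R C1 δ ε n lM lB : ℝ} (hC1 : 0 ≤ C1) (hn : 0 ≤ n) (hL : 0 ≤ L)
    (h : (1 - ε / 2) * L ≤ C1 * (1 + lM) + R) (hM : lM ≤ δ * (1 + n * L) + lB)
    (hδ : C1 * δ * n ≤ ε / 2) : (1 - ε) * L ≤ C1 * (1 + δ + lB) + R := by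
  have h1 : C1 * (1 + lM) ≤ C1 * (1 + (δ * (1 + n * L) + lB)) := by
    refine mul_le_mul_of_nonneg_left ?_ hC1
    linarith
  have h2 : C1 * δ * n * L ≤ ε / 2 * L := mul_le_mul_of_nonneg_right hδ hL
  nlinarith

/-- logarithmic height of a tuple of nonzero integers, up to constant factors -/
noncomputable def size {n : ℕ} (A : Fin n → ℤ) : ℝ := ∑ σ, Real.log (max 1 |(A σ : ℝ)|)

theorem size_nonneg {n : ℕ} (A : Fin n → ℤ) : 0 ≤ size A :=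
  Finset.sum_nonneg fun _ _ => Real.log_nonneg (le_max_left _ _)

theorem le_size {n : ℕ} (A : Fin n → ℤ) (σ : Fin n) : Real.log (max 1 |(A σ : ℝ)|) ≤ size A :=
  Finset.single_le_sum (f := fun σ => Real.log (max 1 |(A σ : ℝ)|))
    (fun _ _ => Real.log_nonneg (le_max_left _ _)) (Finset.mem_univ σ)

theorem size_le {n : ℕ} (A : Fin n → ℤ) (L : ℝ) (hL : ∀ σ, Real.log (max 1 |(A σ : ℝ)|) ≤ L) :
    size A ≤ n * L := by
  unfold size
  refine (Finset.sum_le_sum fun σ _ => hL σ).trans ?_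
  rw [Finset.sum_const, Finset.card_univ, Fintype.card_fin, nsmul_eq_mul]

theorem log_max_one {a : ℤ} (ha : a ≠ 0) : Real.log (max 1 |(a : ℝ)|) = Real.log |(a : ℝ)| := by
  have h1 : (1 : ℝ) ≤ |(a : ℝ)| := by
    have : 1 ≤ |a| := Int.one_le_abs ha
    exact_mod_cast this
  rw [max_eq_right h1]

theorem log_abs_nonneg (a : ℤ) : 0 ≤ Real.log |(a : ℝ)| := by
  by_cases h : a = 0
  · rw [h]
    simp
  · rw [← log_max_one h]
    exact Real.log_nonneg (le_max_left _ _)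

theorem abcdLZ (m p r : ℕ) (τ : Fin p → Fin (m + 2)) (e : Fin p → ℕ) (he : ∀ i, 1 ≤ e i)
    (Γ : Subgroup ℚˣ) (hΓ : Γ.FG) (b : Fin p → Fin r → ℕ) (hb : ∀ i j, 2 ≤ b i j) (z : ℕ)
    (B : ℤ) (hB : 0 ≤ B) (M0 ε : ℝ) (hM0 : 0 ≤ M0) (hε : 0 < ε) :
    ∃ (G : MvPolynomial (Fin (m + 1)) ℚ) (C : ℝ), (∃ d, G.IsHomogeneous d) ∧ G ≠ 0 ∧
      ∀ (x : Fin p → ℤ) (w A : Fin (m + 2) → ℤ), (∀ σ, ∃ g ∈ Γ, (w σ : ℚ) = (g : ℚ)) →
        (∀ σ, A σ = w σ * ∏ i with τ i = σ, x i ^ (e i)) → (∀ σ, A σ ≠ 0) →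
        ∑ σ, A σ = 0 → (∀ i, CompR Γ (b i) z B (M0 * (1 + size A)) (x i)) →
        MvPolynomial.aeval (fun i => (A (Fin.castSucc i) : ℚ)) G ≠ 0 →
        ∀ σ, (1 - ε) * Real.log |(A σ : ℝ)| ≤ C +
          (Real.log |((Finset.univ.gcd A : ℤ) : ℝ)| + ∑ i, Real.log |(x i : ℝ)|) := by
  classical
  let 𝒢 := {G : MvPolynomial (Fin (m + 1)) ℚ // (∃ e, G.IsHomogeneous e) ∧ G ≠ 0}
  haveI : Nonempty 𝒢 := ⟨⟨1, ⟨0, MvPolynomial.isHomogeneous_one _ _⟩, one_ne_zero⟩⟩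
  haveI : Countable 𝒢 := inferInstance
  let 𝒳 := (Fin p → ℤ) × (Fin (m + 2) → ℤ) × (Fin (m + 2) → ℤ)
  let Φ : ℝ → 𝒳 → Prop := fun C P => (∀ σ, ∃ g ∈ Γ, (P.2.1 σ : ℚ) = (g : ℚ)) →
        (∀ σ, P.2.2 σ = P.2.1 σ * ∏ i with τ i = σ, P.1 i ^ (e i)) → (∀ σ, P.2.2 σ ≠ 0) →
        ∑ σ, P.2.2 σ = 0 →
        ∀ σ, (1 - ε) * Real.log |(P.2.2 σ : ℝ)| ≤ C +
          (Real.log |((Finset.univ.gcd P.2.2 : ℤ) : ℝ)| + ∑ i, Real.log |(P.1 i : ℝ)|)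
  let Ψ : 𝒢 → 𝒳 → Prop := fun G P =>
    MvPolynomial.aeval (fun i => (P.2.2 (Fin.castSucc i) : ℚ)) G.1 ≠ 0
  obtain ⟨C, G, hC⟩ := compTransfer p r Γ hΓ b hb z B hB M0 hM0 Φ
    (fun C C' P hCC h h1 h2 h3 h4 σ => (h h1 h2 h3 h4 σ).trans (by linarith)) Ψ
    (fun G G' => ⟨⟨G.1 * G'.1, by
      obtain ⟨d, hd⟩ := G.2.1
      obtain ⟨d', hd'⟩ := G'.2.1
      exact ⟨d + d', hd.mul hd'⟩, mul_ne_zero G.2.2 G'.2.2⟩, fun P hP => by
        have h1 : MvPolynomial.aeval (fun i => (P.2.2 (Fin.castSucc i) : ℚ)) (G.1 * G'.1) ≠ 0 := hP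
        rw [map_mul] at h1
        exact ⟨left_ne_zero_of_mul h1, right_ne_zero_of_mul h1⟩⟩)
    (fun P => size P.2.2) (fun P => size_nonneg _) (fun P i => (P.1 i : ℚ)) (by
    intro k Γ' hΓ' hle
    obtain ⟨G, C1, hGh, hG0, hall⟩ := abcdD Pool.Agent.TH551.HA.ncF Pool.Agent.TH551.HA.csF
      Pool.Agent.TH551.HA.hbF Pool.Agent.TH551.HA.fwF m p k τ e he Γ' hΓ' (ε / 2)
      (by positivity)
    obtain ⟨C2, hC2⟩ : ∃ C2 : ℝ, C2 = max C1 0 + 1 := ⟨_, rfl⟩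
    have hC20 : 0 < C2 := by
      rw [hC2]
      positivity
    have hC12 : C1 ≤ C2 := by
      rw [hC2]
      linarith [le_max_left C1 0]
    have hm2 : (0 : ℝ) < (m + 2 : ℕ) := by positivity
    refine ⟨ε / 2 / (C2 * (m + 2 : ℕ)), by positivity,
      C2 * (1 + ε / 2 / (C2 * (m + 2 : ℕ)) + Real.log (B + 1)), ⟨G, hGh, hG0⟩, ?_⟩
    rintro ⟨x, w, A⟩ M D hM hD0 hDM hlM hsp hΨ hw hA hA0 hsum σ
    simp only at hw hA hA0 hsum hlM hsp
    choose u c hc hx using hsp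
    obtain ⟨σ0, hσ0⟩ := Finite.exists_max (fun i => |(A i : ℝ)|)
    have hA1 : ∀ σ, (1 : ℝ) ≤ |(A σ : ℝ)| := fun σ => by
      exact_mod_cast Int.one_le_abs (hA0 σ)
    have h1 := hall M hM D hD0 hDM u c hc x hx w A
      (fun σ => (hw σ).imp fun g hg => ⟨hle hg.1, hg.2⟩) hA hA0 hsum hΨ σ0
    obtain ⟨R, hR⟩ : ∃ R : ℝ, R = Real.log |((Finset.univ.gcd A : ℤ) : ℝ)| +
      ∑ i, Real.log |(x i : ℝ)| := ⟨_, rfl⟩
    obtain ⟨L, hL⟩ : ∃ L : ℝ, L = Real.log |(A σ0 : ℝ)| := ⟨_, rfl⟩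
    have hR0 : 0 ≤ R := by
      rw [hR]
      exact add_nonneg (log_abs_nonneg _) (Finset.sum_nonneg fun i _ => log_abs_nonneg _)
    have hL0 : 0 ≤ L := by
      rw [hL]
      exact log_abs_nonneg _
    have hLσ : ∀ σ, Real.log |(A σ : ℝ)| ≤ L := fun σ => by
      rw [hL]
      exact Real.log_le_log (by linarith [hA1 σ]) (hσ0 σ)
    have hsz : size A ≤ (m + 2 : ℕ) * L := size_le A L fun σ => by
      rw [log_max_one (hA0 σ)]
      exact hLσ σ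
    rw [← hR, ← hL] at h1
    show (1 - ε) * Real.log |(A σ : ℝ)| ≤ _ + (Real.log |((Finset.univ.gcd A : ℤ) : ℝ)| +
      ∑ i, Real.log |(x i : ℝ)|)
    rw [← hR]
    have hlM0 : 0 ≤ Real.log M := Real.log_nonneg hM
    have hδ0 : 0 < ε / 2 / (C2 * (m + 2 : ℕ)) := by positivity
    have h2 : (1 - ε) * L ≤ C2 * (1 + ε / 2 / (C2 * (m + 2 : ℕ)) + Real.log (B + 1)) + R := by
      refine absorb hC20.le hm2.le hL0 (h1.trans ?_) (lM := Real.log M) (n := (m + 2 : ℕ)) ?_ ?_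
      · have : C1 * (1 + Real.log M) ≤ C2 * (1 + Real.log M) :=
          mul_le_mul_of_nonneg_right hC12 (by linarith)
        linarith
      · refine hlM.trans ?_
        have : ε / 2 / (C2 * (m + 2 : ℕ)) * (1 + size A) ≤
            ε / 2 / (C2 * (m + 2 : ℕ)) * (1 + (m + 2 : ℕ) * L) :=
          mul_le_mul_of_nonneg_left (by linarith) hδ0.le
        linarith
      · have : C2 * (ε / 2 / (C2 * (m + 2 : ℕ))) * (m + 2 : ℕ) = ε / 2 := by field_simp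
        rw [this]
    have hB0 : (0 : ℝ) ≤ B := by exact_mod_cast hB
    have hlB : 0 ≤ Real.log ((B : ℝ) + 1) := Real.log_nonneg (by linarith)
    have h3 : 0 ≤ C2 * (1 + ε / 2 / (C2 * (m + 2 : ℕ)) + Real.log (B + 1)) := by positivity
    have h4 : 0 ≤ Real.log |(A σ : ℝ)| := log_abs_nonneg _
    rcases le_or_gt ε 1 with h5 | h5
    · have h6 := mul_le_mul_of_nonneg_left (hLσ σ) (show 0 ≤ 1 - ε by linarith)
      linarith
    · have h6 : (1 - ε) * Real.log |(A σ : ℝ)| ≤ 0 :=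
        mul_nonpos_of_nonpos_of_nonneg (by linarith) h4
      linarith)
  refine ⟨G.1, C, G.2.1, G.2.2, fun x w A hw hA hA0 hsum hLZ hG => ?_⟩
  exact hC (x, w, A) hLZ hG hw hA hA0 hsum

/-- from logarithms to powers -/
theorem pow_of_log {ε C : ℝ} {a : ℤ} (ha : a ≠ 0) {R : ℝ} (hR : 0 < R)
    (h : (1 - ε) * Real.log |(a : ℝ)| ≤ C + Real.log R) :
    |(a : ℝ)| ^ (1 - ε) ≤ Real.exp C * R := by
  have h1 : (0 : ℝ) < |(a : ℝ)| := abs_pos.2 (by exact_mod_cast ha)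
  rw [Real.rpow_def_of_pos h1]
  calc Real.exp (Real.log |(a : ℝ)| * (1 - ε)) ≤ Real.exp (C + Real.log R) :=
        Real.exp_le_exp.2 (by linarith)
    _ = _ := by rw [Real.exp_add, Real.exp_log hR]

theorem x_ne_zero' {p N : ℕ} {τ : Fin p → Fin N} {e : Fin p → ℕ} (he : ∀ i, 1 ≤ e i)
    {x : Fin p → ℤ} {w A : Fin N → ℤ} (hA : ∀ σ, A σ = w σ * ∏ i with τ i = σ, x i ^ (e i))
    (hA0 : ∀ σ, A σ ≠ 0) (i : Fin p) : x i ≠ 0 ∧ |(x i : ℝ)| ≤ |(A (τ i) : ℝ)| := by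
  have hdv : x i ∣ A (τ i) := by
    rw [hA]
    refine Dvd.dvd.mul_left ?_ _
    refine (dvd_pow_self (x i) (by have := he i; omega : e i ≠ 0)).trans ?_
    exact Finset.dvd_prod_of_mem (fun j => x j ^ (e j))
      (Finset.mem_filter.2 ⟨Finset.mem_univ _, rfl⟩)
  refine ⟨fun h0 => hA0 (τ i) (by rw [h0] at hdv; exact zero_dvd_iff.1 hdv), ?_⟩
  have h1 : (x i).natAbs ≤ (A (τ i)).natAbs :=
    Nat.le_of_dvd (Int.natAbs_pos.2 (hA0 _)) (Int.natAbs_dvd_natAbs.2 hdv)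
  have h2 : ((x i).natAbs : ℝ) ≤ ((A (τ i)).natAbs : ℝ) := by exact_mod_cast h1
  rwa [Nat.cast_natAbs, Nat.cast_natAbs, Int.cast_abs, Int.cast_abs] at h2

/-- the digits of the `x i` give compressible integers -/
theorem digits_comp {p N : ℕ} {τ : Fin p → Fin N} {e : Fin p → ℕ} (he : ∀ i, 1 ≤ e i)
    {b : Fin p → ℕ} (hb : ∀ i, 2 ≤ b i) {z : ℕ} (Γ : Subgroup ℚˣ)
    {x : Fin p → ℤ} {w A : Fin N → ℤ} (hA : ∀ σ, A σ = w σ * ∏ i with τ i = σ, x i ^ (e i))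
    (hA0 : ∀ σ, A σ ≠ 0) (hx : ∀ i, LZDigits (b i) z (x i)) (i : Fin p) :
    CompR Γ (fun _ : Fin 1 => b i) z ((∑ i, b i : ℕ) : ℤ)
      ((1 + ∑ i, Real.log (b i)) * (1 + size A)) (x i) := by
  have hlb : ∀ i, 0 ≤ Real.log (b i) := fun i => Real.log_nonneg (by
    have : 1 ≤ b i := by have := hb i; omega
    exact_mod_cast this)
  have hbs : b i ≤ ∑ i, b i :=
    Finset.single_le_sum (f := b) (fun _ _ => Nat.zero_le _) (Finset.mem_univ i)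
  have hls : Real.log (b i) ≤ ∑ i, Real.log (b i) :=
    Finset.single_le_sum (f := fun i => Real.log (b i)) (fun i _ => hlb i) (Finset.mem_univ i)
  have hs := size_nonneg A
  have h1 := LZDigits.toWd (hb i) (hx i) (Λ := (1 + ∑ i, Real.log (b i)) * (1 + size A)) (by
    refine (places_le (hb i) (x i)).trans ?_
    obtain ⟨h2, h3⟩ := x_ne_zero' he hA hA0 i
    have h4 : Real.log (max 1 |(x i : ℝ)|) ≤ Real.log (max 1 |(A (τ i) : ℝ)|) :=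
      Real.log_le_log (by positivity) (max_le_max le_rfl h3)
    have h5 := le_size A (τ i)
    have h6 : 0 ≤ ∑ i, Real.log (b i) := Finset.sum_nonneg fun i _ => hlb i
    nlinarith [mul_nonneg h6 hs])
  obtain ⟨a, N', h2, h3, h4, h5⟩ := h1
  refine CompR.one ⟨a, N', h2, fun j hj => (h3 j hj).trans ?_, h4, h5⟩
  exact_mod_cast hbs

end Pool.Agent.R343.LT
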