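import Pool.Agent.R343.LU3
import Pool.Agent.R343.LU4

set_option autoImplicit false
set_option linter.unusedSectionVars false

/-! # The n-term inequalities for compressible integers -/

namespace Pool.Agent.R343.LT

open Finset Pool.Agent.R343.LP Pool.Agent.R343.LI Pool.Agent.TH932.Germs Pool.Agent.TH551.HA
open Filter

theorem ntLZ (p r N : ℕ) (τ : Fin p → Fin N) (e : Fin p → ℕ) (he : ∀ i, 1 ≤ e i)
    (Γ : Subgroup ℚˣ) (hΓ : Γ.FG) (f : ℕ) (G : (Fin N → ℤ) → Prop)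
    (hG : ∀ (L : ℕ → ℝ) (hL : Tendsto L atTop atTop) (x : Fin p → ℕ → ℤ)
      (A : Fin N → ℕ → ℤ), CirB L hL e x A → (∀ σ t, A σ t ≠ 0) → (∀ i t, x i t ≠ 0) →
      (∀ t, G (fun σ => A σ t)) → ∀ ε : ℝ, 0 < ε → ∀ᶠ t in (UU : Filter ℕ), ∀ j,
      |(A j t : ℝ)| ≤ Real.exp (ε * L t) *
        (∏ i, |(x i t : ℝ)| ^ (min (e i) (N - 2))) ^ f)
    (b : Fin p → Fin r → ℕ) (hb : ∀ i j, 2 ≤ b i j) (z : ℕ)
    (B : ℤ) (hB : 0 ≤ B) (M0 ε : ℝ) (hM0 : 0 ≤ M0) (hε : 0 < ε) :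
    ∃ C : ℝ, ∀ (x : Fin p → ℤ) (w A : Fin N → ℤ), (∀ σ, ∃ g ∈ Γ, (w σ : ℚ) = (g : ℚ)) →
        (∀ σ, A σ = w σ * ∏ i with τ i = σ, x i ^ (e i)) → (∀ σ, A σ ≠ 0) →
        G A → (∀ i, CompR Γ (b i) z B (M0 * (1 + size A)) (x i)) →
        ∀ σ, (1 - ε) * Real.log |(A σ : ℝ)| ≤ C +
          Real.log ((∏ i, |(x i : ℝ)| ^ (min (e i) (N - 2))) ^ f) := by
  classical
  let 𝒳 := (Fin p → ℤ) × (Fin N → ℤ) × (Fin N → ℤ)
  let Φ : ℝ → 𝒳 → Prop := fun C P => (∀ σ, ∃ g ∈ Γ, (P.2.1 σ : ℚ) = (g : ℚ)) →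
        (∀ σ, P.2.2 σ = P.2.1 σ * ∏ i with τ i = σ, P.1 i ^ (e i)) → (∀ σ, P.2.2 σ ≠ 0) →
        G P.2.2 →
        ∀ σ, (1 - ε) * Real.log |(P.2.2 σ : ℝ)| ≤ C +
          Real.log ((∏ i, |(P.1 i : ℝ)| ^ (min (e i) (N - 2))) ^ f)
  obtain ⟨C, _, hC⟩ := compTransfer (𝒢 := Unit) p r Γ hΓ b hb z B hB M0 hM0 Φ
    (fun C C' P hCC h h1 h2 h3 h4 σ => (h h1 h2 h3 h4 σ).trans (by linarith)) (fun _ _ => True)
    (fun G G' => ⟨(), fun P hP => ⟨trivial, trivial⟩⟩)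
    (fun P => size P.2.2) (fun P => size_nonneg _) (fun P i => (P.1 i : ℚ)) (by
    intro k Γ' hΓ' hle
    obtain ⟨C1, hall⟩ := nt_logD ncF csF hbF fwF p k N τ e he Γ' hΓ' f G hG (ε / 2)
      (by positivity)
    obtain ⟨C2, hC2⟩ : ∃ C2 : ℝ, C2 = max C1 0 + 1 := ⟨_, rfl⟩
    have hC20 : 0 < C2 := by
      rw [hC2]
      positivity
    have hC12 : C1 ≤ C2 := by
      rw [hC2]
      linarith [le_max_left C1 0]
    have hm2 : (0 : ℝ) < N + 1 := by positivity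
    refine ⟨ε / 2 / (C2 * (N + 1)), by positivity,
      C2 * (1 + ε / 2 / (C2 * (N + 1)) + Real.log (B + 1)), (), ?_⟩
    rintro ⟨x, w, A⟩ M D hM hD0 hDM hlM hsp - hw hA hA0 hGA σ
    simp only at hw hA hA0 hGA hlM hsp
    choose u c hc hx using hsp
    haveI : Nonempty (Fin N) := ⟨σ⟩
    obtain ⟨σ0, hσ0⟩ := Finite.exists_max (fun i => |(A i : ℝ)|)
    have hA1 : ∀ σ, (1 : ℝ) ≤ |(A σ : ℝ)| := fun σ => by
      exact_mod_cast Int.one_le_abs (hA0 σ)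
    have h1 := hall M hM D hD0 hDM u c hc x hx w A
      (fun σ => (hw σ).imp fun g hg => ⟨hle hg.1, hg.2⟩) hA hA0 hGA σ0
    have hxn : ∀ i, (1 : ℝ) ≤ |(x i : ℝ)| := fun i => by
      exact_mod_cast Int.one_le_abs (x_ne_zero' he hA hA0 i).1
    obtain ⟨R, hR⟩ : ∃ R : ℝ, R = Real.log ((∏ i, |(x i : ℝ)| ^ (min (e i) (N - 2))) ^ f) :=
      ⟨_, rfl⟩
    obtain ⟨L, hL⟩ : ∃ L : ℝ, L = Real.log |(A σ0 : ℝ)| := ⟨_, rfl⟩
    have hR0 : 0 ≤ R := by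
      rw [hR]
      refine Real.log_nonneg (one_le_pow₀ ?_)
      calc (1 : ℝ) = ∏ _i : Fin p, (1 : ℝ) := by simp
        _ ≤ _ := Finset.prod_le_prod (fun _ _ => zero_le_one) fun i _ => one_le_pow₀ (hxn i)
    have hL0 : 0 ≤ L := by
      rw [hL]
      exact log_abs_nonneg _
    have hLσ : ∀ σ, Real.log |(A σ : ℝ)| ≤ L := fun σ => by
      rw [hL]
      exact Real.log_le_log (by linarith [hA1 σ]) (hσ0 σ)
    have hsz : size A ≤ (N + 1) * L := by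
      have := size_le A L fun σ => by
        rw [log_max_one (hA0 σ)]
        exact hLσ σ
      linarith
    rw [← hR, ← hL] at h1
    show (1 - ε) * Real.log |(A σ : ℝ)| ≤ _ + Real.log ((∏ i, |(x i : ℝ)| ^
      (min (e i) (N - 2))) ^ f)
    rw [← hR]
    have hlM0 : 0 ≤ Real.log M := Real.log_nonneg hM
    have hδ0 : 0 < ε / 2 / (C2 * (N + 1)) := by positivity
    have h2 : (1 - ε) * L ≤ C2 * (1 + ε / 2 / (C2 * (N + 1)) + Real.log (B + 1)) + R := by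
      refine absorb hC20.le hm2.le hL0 (h1.trans ?_) (lM := Real.log M) ?_ ?_
      · have : C1 * (1 + Real.log M) ≤ C2 * (1 + Real.log M) :=
          mul_le_mul_of_nonneg_right hC12 (by linarith)
        linarith
      · refine hlM.trans ?_
        have : ε / 2 / (C2 * (N + 1)) * (1 + size A) ≤
            ε / 2 / (C2 * (N + 1)) * (1 + (N + 1) * L) :=
          mul_le_mul_of_nonneg_left (by linarith) hδ0.le
        linarith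
      · have : C2 * (ε / 2 / (C2 * (N + 1))) * (N + 1) = ε / 2 := by field_simp
        rw [this]
    have hB0 : (0 : ℝ) ≤ B := by exact_mod_cast hB
    have hlB : 0 ≤ Real.log ((B : ℝ) + 1) := Real.log_nonneg (by linarith)
    have h3 : 0 ≤ C2 * (1 + ε / 2 / (C2 * (N + 1)) + Real.log (B + 1)) := by positivity
    have h4 : 0 ≤ Real.log |(A σ : ℝ)| := log_abs_nonneg _
    rcases le_or_gt ε 1 with h5 | h5
    · have h6 := mul_le_mul_of_nonneg_left (hLσ σ) (show 0 ≤ 1 - ε by linarith)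
      linarith
    · have h6 : (1 - ε) * Real.log |(A σ : ℝ)| ≤ 0 :=
        mul_nonpos_of_nonpos_of_nonneg (by linarith) h4
      linarith)
  exact ⟨C, fun x w A hw hA hA0 hGA hLZ => hC (x, w, A) hLZ trivial hw hA hA0 hGA⟩

theorem prod_pos_of {p N n : ℕ} {τ : Fin p → Fin N} {e : Fin p → ℕ} (he : ∀ i, 1 ≤ e i)
    {x : Fin p → ℤ} {w A : Fin N → ℤ} (hA : ∀ σ, A σ = w σ * ∏ i with τ i = σ, x i ^ (e i))
    (hA0 : ∀ σ, A σ ≠ 0) : (0 : ℝ) < ∏ i, |(x i : ℝ)| ^ (min (e i) n) :=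
  Finset.prod_pos fun i _ => pow_pos
    (abs_pos.2 (by exact_mod_cast (x_ne_zero' he hA hA0 i).1)) _

/-- pairwise coprime terms -/
theorem ntStrongLZ (p r N : ℕ) (τ : Fin p → Fin N) (e : Fin p → ℕ) (he : ∀ i, 1 ≤ e i)
    (Γ : Subgroup ℚˣ) (hΓ : Γ.FG)
    (b : Fin p → Fin r → ℕ) (hb : ∀ i j, 2 ≤ b i j) (z : ℕ)
    (B : ℤ) (hB : 0 ≤ B) (M0 ε : ℝ) (hM0 : 0 ≤ M0) (hε : 0 < ε) :
    ∃ K : ℝ, 0 < K ∧ ∀ (x : Fin p → ℤ) (w A : Fin N → ℤ), (∀ σ, ∃ g ∈ Γ, (w σ : ℚ) = (g : ℚ)) →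
        (∀ σ, A σ = w σ * ∏ i with τ i = σ, x i ^ (e i)) → (∀ σ, A σ ≠ 0) →
        ∑ σ, A σ = 0 → (∀ σ σ', σ ≠ σ' → IsCoprime (A σ) (A σ')) →
        (∀ i, CompR Γ (b i) z B (M0 * (1 + ∑ σ, Real.log (max 1 |(A σ : ℝ)|))) (x i)) →
        ∀ σ, |(A σ : ℝ)| ^ (1 - ε) ≤ K * ∏ i, |(x i : ℝ)| ^ (min (e i) (N - 2)) := by
  obtain ⟨C, hC⟩ := ntLZ p r N τ e he Γ hΓ 1
    (fun A => ∑ σ, A σ = 0 ∧ ∀ σ σ', σ ≠ σ' → IsCoprime (A σ) (A σ'))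
    (by
      intro L hL x A hcir hA0 hx0 hG ε hε
      have h := germStrong e x A hcir hA0 hx0 (fun t => (hG t).1)
        (fun σ σ' t h => (hG t).2 σ σ' h) ε hε
      simpa only [pow_one] using h) b hb z B hB M0 ε hM0 hε
  refine ⟨Real.exp C, Real.exp_pos _, fun x w A hw hA hA0 hsum hcop hx σ => ?_⟩
  have h := hC x w A hw hA hA0 ⟨hsum, hcop⟩ hx σ
  rw [pow_one] at h
  exact pow_of_log (hA0 σ) (prod_pos_of he hA hA0) h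

/-- coprime terms without vanishing subsums -/
theorem ntGcdLZ (p r N : ℕ) (τ : Fin p → Fin N) (e : Fin p → ℕ) (he : ∀ i, 1 ≤ e i)
    (Γ : Subgroup ℚˣ) (hΓ : Γ.FG)
    (b : Fin p → Fin r → ℕ) (hb : ∀ i j, 2 ≤ b i j) (z : ℕ)
    (B : ℤ) (hB : 0 ≤ B) (M0 ε : ℝ) (hM0 : 0 ≤ M0) (hε : 0 < ε) :
    ∃ K : ℝ, 0 < K ∧ ∀ (x : Fin p → ℤ) (w A : Fin N → ℤ), (∀ σ, ∃ g ∈ Γ, (w σ : ℚ) = (g : ℚ)) →
        (∀ σ, A σ = w σ * ∏ i with τ i = σ, x i ^ (e i)) → (∀ σ, A σ ≠ 0) →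
        ∑ σ, A σ = 0 → Finset.univ.gcd A = 1 →
        (∀ T : Finset (Fin N), T.Nonempty → T ≠ Finset.univ → ∑ σ ∈ T, A σ ≠ 0) →
        (∀ i, CompR Γ (b i) z B (M0 * (1 + ∑ σ, Real.log (max 1 |(A σ : ℝ)|))) (x i)) →
        ∀ σ, |(A σ : ℝ)| ^ (1 - ε) ≤
          K * (∏ i, |(x i : ℝ)| ^ (min (e i) (N - 2))) ^ (N - 2) := by
  obtain ⟨C, hC⟩ := ntLZ p r N τ e he Γ hΓ (N - 2)
    (fun A => ∑ σ, A σ = 0 ∧ Finset.univ.gcd A = 1 ∧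
      ∀ T : Finset (Fin N), T.Nonempty → T ≠ Finset.univ → ∑ σ ∈ T, A σ ≠ 0)
    (by
      intro L hL x A hcir hA0 hx0 hG ε hε
      exact germGcd e x A hcir hA0 hx0 (fun t => (hG t).1) (fun t => (hG t).2.1)
        (fun T h1 h2 t => (hG t).2.2 T h1 h2) ε hε) b hb z B hB M0 ε hM0 hε
  refine ⟨Real.exp C, Real.exp_pos _, fun x w A hw hA hA0 hsum hgcd hsub hx σ => ?_⟩
  have h := hC x w A hw hA hA0 ⟨hsum, hgcd, hsub⟩ hx σ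
  exact pow_of_log (hA0 σ) (pow_pos (prod_pos_of he hA hA0) _) h

end Pool.Agent.R343.LT
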