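import Pool.Agent.R343.LU2
import Pool.Agent.TH551.HA.OrbFin

set_option autoImplicit false
set_option linter.unusedSectionVars false
set_option linter.unusedVariables false

/-! # Campana points whose coordinates are sums of S-units with a common denominator

The proof is the one of `Pool.Agent.TH551.HA.orbMain`, with coefficients of the form `c / D`. -/

namespace Pool.Agent.R343.LT

open Filter Topology Pool.Agent.TH932.Germs Pool.Agent.TH551.SU Pool.Agent.TH551.ZP
open Pool.Agent.TH551.SU.CRV Pool.Agent.TH551.SU.Ht Pool.Agent.TH551.HA Height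

/-- **Sparse Campana points.** -/
theorem orbD (hcs : CSStmt) (hfw : FwStmt) (n q p k : ℕ)
    (FF : Finset (MvPolynomial (Fin (n + 1)) ℚ)) (hhom : ∀ F ∈ FF, ∃ e, F.IsHomogeneous e)
    (hprime : (Ideal.span (FF : Set (MvPolynomial (Fin (n + 1)) ℚ))).IsPrime)
    (B : Fin q → MvPolynomial (Fin (n + 1)) ℚ) (hB : ∀ i, ∃ e, (B i).IsHomogeneous e)
    (m : Fin q → ℕ∞)
    (hnu : ¬ OrbWeak (Ideal.span (FF : Set (MvPolynomial (Fin (n + 1)) ℚ))) B m)
    (τ : Fin p → Fin q) (e : Fin p → ℕ) (he : ∀ j, m (τ j) ≤ (e j : ℕ∞))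
    (Γ : Subgroup ℚˣ) (hΓ : Γ.FG) :
    ∃ (G : MvPolynomial (Fin (n + 1)) ℚ) (C : ℝ), (∃ e, G.IsHomogeneous e) ∧
      G ∉ Ideal.span (FF : Set (MvPolynomial (Fin (n + 1)) ℚ)) ∧
      ∀ M : ℝ, 1 ≤ M → ∀ D : ℕ, 0 < D → (D : ℝ) ≤ M →
        ∀ (u : Fin (n + 1) → Fin k → Γ) (v : Fin p → Fin k → Γ)
        (a : Fin (n + 1) → Fin k → ℤ) (c : Fin p → Fin k → ℤ),
        (∀ i j, |(a i j : ℝ)| ≤ M) → (∀ i j, |(c i j : ℝ)| ≤ M) →
        ∀ (x : Fin (n + 1) → ℚ) (z : Fin p → ℚ) (w : Fin q → ℚ),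
        (∀ i, (D : ℚ) * x i = ∑ j, ((u i j : ℚˣ) : ℚ) * a i j) →
        (∀ i, (D : ℚ) * z i = ∑ j, ((v i j : ℚˣ) : ℚ) * c i j) →
        (∀ i, ∃ g ∈ Γ, w i = ((g : ℚˣ) : ℚ)) →
        (∀ F ∈ FF, MvPolynomial.aeval x F = 0) →
        (∀ i, MvPolynomial.aeval x (B i) = w i * ∏ j with τ j = i, z j ^ (e j)) →
        MvPolynomial.aeval x G ≠ 0 → logHeight x ≤ C * (1 + Real.log M) := by
  classical
  set I : Ideal (MvPolynomial (Fin (n + 1)) ℚ) := Ideal.span (FF : Set _) with hI
  obtain ⟨s, b, hb, hbi, hΓb⟩ := exists_base Γ hΓ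
  by_contra hcon
  push Not at hcon
  -- an enumeration of the forms outside the ideal
  let T : Type := {G : MvPolynomial (Fin (n + 1)) ℚ // (∃ e, G.IsHomogeneous e) ∧ G ∉ I}
  have hT : Nonempty T := ⟨⟨1, ⟨0, MvPolynomial.isHomogeneous_one _ _⟩, fun h =>
    hprime.ne_top ((Ideal.eq_top_iff_one _).2 h)⟩⟩
  obtain ⟨g, hg⟩ := exists_surjective_nat T
  set GG' : ℕ → MvPolynomial (Fin (n + 1)) ℚ := fun t => ∏ i ∈ Finset.range (t + 1), (g i).1
    with hGG'
  have hGh : ∀ t, ∃ e, (GG' t).IsHomogeneous e := by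
    intro t
    choose e' he' using fun i => (g i).2.1
    exact ⟨_, MvPolynomial.IsHomogeneous.prod _ _ _ fun i _ => he' i⟩
  have hGI : ∀ t, GG' t ∉ I := by
    intro t h
    obtain ⟨i, _, hi⟩ := (hprime.prod_mem_iff).1 h
    exact (g i).2.2 hi
  choose M hM D hD0 hDM u v a c ha hc x z w hx hz hw hF hBx hGx hlt using fun t : ℕ =>
    hcon (GG' t) (t : ℝ) (hGh t) (hGI t)
  set L : ℕ → ℝ := fun t => logHeight (x t) with hLdef
  have hlM : ∀ t, 0 ≤ Real.log (M t) := fun t => Real.log_nonneg (hM t)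
  have hLt : ∀ t : ℕ, (t : ℝ) * (1 + Real.log (M t)) < L t := hlt
  have hL : Tendsto L atTop atTop := by
    refine tendsto_atTop_mono (fun t => ?_) tendsto_natCast_atTop_atTop
    have h1 := hLt t
    have h2 : 0 ≤ (t : ℝ) * Real.log (M t) := mul_nonneg (Nat.cast_nonneg t) (hlM t)
    rw [mul_add, mul_one] at h1
    linarith
  have hneg : ∀ y : ℕ → ℤ, (∀ t, |(y t : ℝ)| ≤ M t) → gm (fun t => (y t : ℚ)) ∈ KK L hL := by
    intro y hy
    refine ⟨y, fun _ => 1, ?_, Negl.one hL, by simp, by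
      congr 1
      funext t
      simp⟩
    intro ε' hε'
    have h1 : ∀ᶠ t : ℕ in atTop, 1 / ε' ≤ (t : ℝ) :=
      tendsto_natCast_atTop_atTop.eventually_ge_atTop _
    refine ev_of_atTop (h1.mono fun t ht => ?_)
    refine (hy t).trans ?_
    rw [← Real.exp_log (show 0 < M t by linarith [hM t])]
    refine Real.exp_le_exp.2 ?_
    have h2 := hLt t
    have h3 : 1 / ε' * Real.log (M t) ≤ (t : ℝ) * (1 + Real.log (M t)) := by
      have h5 : (0 : ℝ) ≤ t := Nat.cast_nonneg t
      nlinarith [mul_le_mul_of_nonneg_right ht (hlM t)]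
    have h5 : 1 / ε' * Real.log (M t) ≤ L t := h3.trans h2.le
    rw [one_div, inv_mul_le_iff₀ hε'] at h5
    exact h5
  -- the germs of units: coordinates, factors, units
  let T2 : Type := (Fin (n + 1) × Fin k) ⊕ ((Fin p × Fin k) ⊕ Fin q)
  let eqv : T2 ≃ Fin (Fintype.card T2) := Fintype.equivFin T2
  let f : T2 → ℕ → ℚ := Sum.elim (fun i t => ((u t i.1 i.2 : ℚˣ) : ℚ))
    (Sum.elim (fun i t => ((v t i.1 i.2 : ℚˣ) : ℚ)) (fun i t => w t i))
  have hf : ∀ i t, IsSU b (f i t) := by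
    intro i t
    rcases i with i | i | i
    · exact hΓb _ (u t i.1 i.2).2
    · exact hΓb _ (v t i.1 i.2).2
    · obtain ⟨g, hg, h1⟩ := hw t i
      show IsSU b (w t i)
      rw [h1]
      exact hΓb g hg
  set W : Fin (Fintype.card T2 + 1) → GG := Fin.cons 1 (fun j => gm (f (eqv.symm j))) with hW
  have hWs : ∀ i : T2, W (eqv i).succ = gm (f i) := by
    intro i
    rw [hW, Fin.cons_succ, Equiv.symm_apply_apply]
  have hWg : ∀ j, GSU b (W j) := by
    intro j
    rw [hW]
    refine Fin.cases ?_ (fun j => ?_) j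
    · simpa using GSU.one
    · rw [Fin.cons_succ]
      exact ⟨_, rfl, hf _⟩
  -- degrees
  choose! eF heF using hhom
  choose eB heB using hB
  set d : ℕ := ∑ F ∈ FF, eF F + ∑ i, (eB i + (1 + ∑ j, e j)) + 1 with hd
  obtain ⟨l, hl⟩ := hfw L hL (Fintype.card T2) W (fun j => GSU.ne_zero hb (hWg j)) d
  have hs : Setup' b hL W l d := ⟨hWg, hl⟩
  -- the lifts
  have hDne : gm (fun t => ((D t : ℤ) : ℚ)) ≠ 0 := gm_nat_ne hD0
  have hDK : gm (fun t => ((D t : ℤ) : ℚ)) ∈ KK L hL := hneg (fun t => (D t : ℤ)) fun t => by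
    show |(((D t : ℕ) : ℤ) : ℝ)| ≤ M t
    rw [Int.cast_natCast, abs_of_nonneg (Nat.cast_nonneg _)]
    exact hDM t
  choose X hX hX1 using fun i => exists_lift (hL := hL) W l
    (fun j : Fin k => (eqv (Sum.inl (i, j))).succ)
    (fun j => ⟨gm (fun t => (a t i j : ℚ)) / gm (fun t => ((D t : ℤ) : ℚ)),
      div_mem (hneg _ fun t => ha t i j) hDK⟩)
  choose Z hZ hZ1 using fun i => exists_lift (hL := hL) W l
    (fun j : Fin k => (eqv (Sum.inr (Sum.inl (i, j)))).succ)
    (fun j => ⟨gm (fun t => (c t i j : ℚ)) / gm (fun t => ((D t : ℤ) : ℚ)),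
      div_mem (hneg _ fun t => hc t i j) hDK⟩)
  have hX2 : ∀ i, (X i).eval 1 = gm (fun t => x t i) := by
    intro i
    rw [hX1]
    simp only [hWs]
    have h1 : ∀ j, (gm (fun t => (a t i j : ℚ)) / gm (fun t => ((D t : ℤ) : ℚ))) *
        gm (f (Sum.inl (i, j))) = (gm (fun t => ((D t : ℤ) : ℚ)))⁻¹ *
        gm (fun t => ((u t i j : ℚˣ) : ℚ) * a t i j) := by
      intro j
      have h2 : gm (fun t => ((u t i j : ℚˣ) : ℚ) * a t i j) =
          gm (fun t => (a t i j : ℚ)) * gm (f (Sum.inl (i, j))) := by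
        rw [gm_mul]
        congr 1
        funext t
        exact mul_comm _ _
      rw [h2, div_eq_mul_inv]
      ring
    simp only [h1]
    rw [← Finset.mul_sum, gm_sum', inv_mul_eq_iff_eq_mul₀ hDne, gm_mul]
    congr 1
    funext t
    rw [← hx t i]
    push_cast
    rfl
  have hZ2 : ∀ i, (Z i).eval 1 = gm (fun t => z t i) := by
    intro i
    rw [hZ1]
    simp only [hWs]
    have h1 : ∀ j, (gm (fun t => (c t i j : ℚ)) / gm (fun t => ((D t : ℤ) : ℚ))) *
        gm (f (Sum.inr (Sum.inl (i, j)))) = (gm (fun t => ((D t : ℤ) : ℚ)))⁻¹ *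
        gm (fun t => ((v t i j : ℚˣ) : ℚ) * c t i j) := by
      intro j
      have h2 : gm (fun t => ((v t i j : ℚˣ) : ℚ) * c t i j) =
          gm (fun t => (c t i j : ℚ)) * gm (f (Sum.inr (Sum.inl (i, j)))) := by
        rw [gm_mul]
        congr 1
        funext t
        exact mul_comm _ _
      rw [h2, div_eq_mul_inv]
      ring
    simp only [h1]
    rw [← Finset.mul_sum, gm_sum', inv_mul_eq_iff_eq_mul₀ hDne, gm_mul]
    congr 1
    funext t
    rw [← hz t i]
    push_cast
    rfl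
  have hev : ∀ F : MvPolynomial (Fin (n + 1)) ℚ, (MvPolynomial.aeval X F).eval 1 =
      gm (fun t => MvPolynomial.aeval (x t) F) := by
    intro F
    rw [eval_aeval]
    simp only [hX2]
    exact Main.aeval_gm (fun i t => x t i) F
  apply hnu
  refine ⟨GG, inferInstance, inferInstance, X, ?_, ?_, ?_, ?_⟩
  · -- the equations
    have h1 : ∀ F ∈ FF, MvPolynomial.aeval X F = 0 := by
      intro F hFF
      have h2 : eF F ≤ ∑ F ∈ FF, eF F := Finset.single_le_sum (fun _ _ => Nat.zero_le _) hFF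
      refine (Lift.aeval F (heF F hFF) X hX).eq_zero' hcs hb hbi hs (by omega) ?_
      rw [hev, ← gm_zero]
      congr 1
      funext t
      exact hF t F hFF
    intro F hFI
    have h2 : I ≤ RingHom.ker (MvPolynomial.aeval X : MvPolynomial (Fin (n + 1)) ℚ →ₐ[ℚ]
        Polynomial GG) := by
      rw [hI, Ideal.span_le]
      intro F hFF
      exact h1 F hFF
    exact h2 hFI
  · -- the point is generic
    intro G hGh' hGI' h0
    obtain ⟨s0, hs0⟩ := hg ⟨G, hGh', hGI'⟩
    rw [← eval_aeval, hev, ← gm_zero, gm_eq] at h0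
    have h1 : ∀ᶠ t : ℕ in (UU : Filter ℕ), s0 ≤ t :=
      ev_of_atTop (eventually_ge_atTop s0)
    obtain ⟨t, h2, h3⟩ := (h0.and h1).exists
    apply hGx t
    simp only [hGG', map_prod]
    refine Finset.prod_eq_zero (i := s0) (Finset.mem_range.2 (by omega)) ?_
    rw [hs0]
    exact h2
  · -- the curve is not constant
    by_contra hcst
    push Not at hcst
    have hx0 : ∀ t : ℕ, 1 ≤ t → x t ≠ 0 := by
      intro t ht h0
      have h1 := hLt t
      have h2 : L t = 0 := by
        rw [hLdef]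
        simp only
        rw [h0, logHeight_zero]
      rw [h2] at h1
      have h3 : 0 ≤ (t : ℝ) * (1 + Real.log (M t)) :=
        mul_nonneg (Nat.cast_nonneg t) (by linarith [hlM t])
      linarith
    obtain ⟨i', hi'⟩ : ∃ i', gm (fun t => x t i') ≠ 0 := by
      by_contra hno
      push Not at hno
      have h1 : ∀ᶠ t in (UU : Filter ℕ), ∀ i, x t i = 0 := by
        refine eventually_all.2 fun i => ?_
        have h2 := hno i
        rw [← gm_zero, gm_eq] at h2
        exact h2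
      have h2 : ∀ᶠ t : ℕ in (UU : Filter ℕ), 1 ≤ t := ev_of_atTop (eventually_ge_atTop 1)
      obtain ⟨t, h3, h4⟩ := (h1.and h2).exists
      exact hx0 t h4 (funext h3)
    have hXi' : X i' ≠ 0 := by
      intro h0
      apply hi'
      rw [← hX2, h0, Polynomial.eval_zero]
    have hlc : (X i').coeff (X i').natDegree ≠ 0 := Polynomial.leadingCoeff_ne_zero.2 hXi'
    set w0 := (X i').natDegree with hw0
    have h1d : 1 ≤ d := by omega
    have hK : ∀ i, (X i).coeff w0 / (X i').coeff w0 ∈ KK L hL := fun i =>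
      Lift.coeff_div' hb hs h1d (hX i) (hX i') w0 hlc
    have hprop : ∀ i, gm (fun t => x t i) = gm (fun t => x t i') *
        ((⟨_, hK i⟩ : KK L hL) : GG) := by
      intro i
      have h1 := congrArg (fun P => Polynomial.coeff P w0) (hcst i i')
      simp only [Polynomial.coeff_mul_C, hX2] at h1
      show _ = _ * ((X i).coeff w0 / (X i').coeff w0)
      field_simp
      rw [mul_comm (gm fun t => x t i'), h1]
      ring
    have h1 := Main.height_small hL x (gm (fun t => x t i')) (fun i => ⟨_, hK i⟩) hi' hprop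
      (1 / 2) (by norm_num)
    have h2 : ∀ᶠ t in (UU : Filter ℕ), 1 ≤ L t := ev_of_atTop (hL.eventually_ge_atTop 1)
    obtain ⟨t, h3, h4⟩ := (h1.and h2).exists
    have h5 : L t ≤ 1 / 2 * L t := h3
    linarith
  · -- the orbifold condition
    intro i
    have hE : Lift hL W l 1 (Polynomial.X ^ (l 0)) := by
      have h := Lift.gen (hL := hL) (U := W) (l := l) 0
      have h1 : W 0 = 1 := by rw [hW]; rfl
      rw [h1, Polynomial.C_1, one_mul] at h
      exact h
    set w1 := (eqv (Sum.inr (Sum.inr i))).succ with hw1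
    have hle : ∑ j with τ j = i, e j ≤ ∑ j, e j :=
      Finset.sum_le_sum_of_subset (Finset.filter_subset _ _)
    have hlhs : Lift hL W l (1 * (1 + ∑ j, e j) + eB i)
        ((Polynomial.X ^ (l 0)) ^ (1 + ∑ j, e j) * MvPolynomial.aeval X (B i)) :=
      (hE.pow _).mul (Lift.aeval (B i) (heB i) X hX)
    have hrhs : Lift hL W l (1 * (eB i + (∑ j, e j - ∑ j with τ j = i, e j)) + 1 +
        ∑ j with τ j = i, 1 * e j)
        ((Polynomial.X ^ (l 0)) ^ (eB i + (∑ j, e j - ∑ j with τ j = i, e j)) *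
          (Polynomial.C (W w1) * Polynomial.X ^ (l w1)) * ∏ j with τ j = i, Z j ^ (e j)) :=
      ((hE.pow _).mul (Lift.gen _)).mul (Lift.prod _ _ _ fun j _ => (hZ j).pow _)
    have hdeg : 1 * (eB i + (∑ j, e j - ∑ j with τ j = i, e j)) + 1 +
        ∑ j with τ j = i, 1 * e j = 1 * (1 + ∑ j, e j) + eB i := by
      simp only [one_mul]
      omega
    rw [hdeg] at hrhs
    have hle2 : eB i + (1 + ∑ j, e j) ≤ ∑ i, (eB i + (1 + ∑ j, e j)) :=
      Finset.single_le_sum (f := fun i => eB i + (1 + ∑ j, e j)) (fun _ _ => Nat.zero_le _)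
        (Finset.mem_univ i)
    have hz' : (Polynomial.X ^ (l 0)) ^ (1 + ∑ j, e j) * MvPolynomial.aeval X (B i) -
        (Polynomial.X ^ (l 0)) ^ (eB i + (∑ j, e j - ∑ j with τ j = i, e j)) *
          (Polynomial.C (W w1) * Polynomial.X ^ (l w1)) * ∏ j with τ j = i, Z j ^ (e j) = 0 := by
      refine (hlhs.sub hrhs).eq_zero' hcs hb hbi hs (by omega) ?_
      rw [Polynomial.eval_sub, Polynomial.eval_mul, Polynomial.eval_mul, Polynomial.eval_mul,
        hev, Polynomial.eval_prod]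
      simp only [Polynomial.eval_pow, Polynomial.eval_X, one_pow, one_mul, Polynomial.eval_mul,
        Polynomial.eval_C, mul_one, hZ2, gm_pow]
      rw [hw1, hWs]
      have h1 : ∏ j with τ j = i, gm (fun t => z t j ^ (e j)) =
          gm (fun t => ∏ j with τ j = i, z t j ^ (e j)) := by
        have key : ∀ A : Finset (Fin p), ∏ j ∈ A, gm (fun t => z t j ^ (e j)) =
            gm (fun t => ∏ j ∈ A, z t j ^ (e j)) := by
          intro A
          induction A using Finset.induction_on with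
          | empty => simp [gm_one]
          | insert y A hy ih =>
            rw [Finset.prod_insert hy, ih, gm_mul]
            congr 1
            funext t
            rw [Finset.prod_insert hy]
        exact key _
      rw [h1]
      show _ - gm (fun t => w t i) * _ = 0
      rw [gm_mul, sub_eq_zero]
      congr 1
      funext t
      exact hBx t i
    have hWc : W w1 ≠ 0 := GSU.ne_zero hb (hWg w1)
    intro g' hg' hgX hgQ N hN
    refine orb_cond (MvPolynomial.aeval X (B i)) (Finset.univ.filter (fun j => τ j = i)) Z e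
      (W w1) hWc (l 0 * (eB i + (∑ j, e j - ∑ j with τ j = i, e j)) + l w1)
      (l 0 * (1 + ∑ j, e j)) (m i) ?_ ?_ g' hg' hgX hgQ N hN
    · intro j hj
      have h1 := (Finset.mem_filter.1 hj).2
      rw [← h1]
      exact he j
    · have h1 := sub_eq_zero.1 hz'
      rw [← pow_mul, ← pow_mul] at h1
      rw [h1, pow_add]
      ring


end Pool.Agent.R343.LT
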