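import Pool.Agent.R343.LU3
import Pool.Agent.R343.LU6

set_option autoImplicit false
set_option linter.unusedSectionVars false

/-! # Campana points with compressible coordinates -/

namespace Pool.Agent.R343.LT

open Finset Pool.Agent.R343.LP Pool.Agent.R343.LI Pool.Agent.TH932.Germs Pool.Agent.TH551.HA
open Filter Height

/-- **Sparse Campana points** with a common denominator. -/
theorem campanaD (n q p k : ℕ)
    (FF : Finset (MvPolynomial (Fin (n + 1)) ℚ)) (hhom : ∀ F ∈ FF, ∃ e, F.IsHomogeneous e)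
    (hprime : (Ideal.span (FF : Set (MvPolynomial (Fin (n + 1)) ℚ))).IsPrime)
    (B : Fin q → MvPolynomial (Fin (n + 1)) ℚ)
    (hB : ∀ i, B i ∉ Ideal.span (FF : Set (MvPolynomial (Fin (n + 1)) ℚ)) ∧
      ∃ e, 1 ≤ e ∧ (B i).IsHomogeneous e)
    (m : Fin q → ℕ∞) (hm : ∃ i, m i = ⊤)
    (hnu : ¬ OrbUniruled (Ideal.span (FF : Set (MvPolynomial (Fin (n + 1)) ℚ))) B m)
    (τ : Fin p → Fin q) (e : Fin p → ℕ) (he : ∀ j, m (τ j) ≤ (e j : ℕ∞))
    (Γ : Subgroup ℚˣ) (hΓ : Γ.FG) :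
    ∃ (G : MvPolynomial (Fin (n + 1)) ℚ) (C : ℝ), (∃ e, G.IsHomogeneous e) ∧
      G ∉ Ideal.span (FF : Set (MvPolynomial (Fin (n + 1)) ℚ)) ∧
      ∀ M : ℝ, 1 ≤ M → ∀ D : ℕ, 0 < D → (D : ℝ) ≤ M →
        ∀ (u : Fin (n + 1) → Fin k → Γ) (v : Fin p → Fin k → Γ)
        (a : Fin (n + 1) → Fin k → ℤ) (c : Fin p → Fin k → ℤ),
        (∀ i j, |(a i j : ℝ)| ≤ M) → (∀ i j, |(c i j : ℝ)| ≤ M) →
        ∀ (x : Fin (n + 1) → ℚ) (z : Fin p → ℚ) (w : Fin q → ℚ),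
        (∀ i, (D : ℚ) * x i = ∑ j, ((u i j : ℚˣ) : ℚ) * a i j) →
        (∀ i, (D : ℚ) * z i = ∑ j, ((v i j : ℚˣ) : ℚ) * c i j) →
        (∀ i, ∃ g ∈ Γ, w i = ((g : ℚˣ) : ℚ)) →
        (∀ F ∈ FF, MvPolynomial.aeval x F = 0) →
        (∀ i, MvPolynomial.aeval x (B i) = w i * ∏ j with τ j = i, z j ^ (e j)) →
        MvPolynomial.aeval x G ≠ 0 → logHeight x ≤ C * (1 + Real.log M) := by
  refine orbD csF fwF n q p k FF hhom hprime B (fun i => ?_) m ?_ τ e he Γ hΓ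
  · obtain ⟨e, _, h⟩ := (hB i).2
    exact ⟨e, h⟩
  · rintro ⟨L, hL1, hL2, P, h1, h2, h3, h4⟩
    apply hnu
    have hB0 : ∀ i, MvPolynomial.aeval P (B i) ≠ 0 := by
      intro i h0
      obtain ⟨e, _, h⟩ := (hB i).2
      apply h2 (B i) ⟨e, h⟩ (hB i).1
      have h5 := congrArg (Polynomial.eval 1) h0
      rw [Polynomial.eval_zero, ← Polynomial.coe_evalRingHom, MvPolynomial.aeval_def,
        MvPolynomial.hom_eval₂] at h5
      rw [MvPolynomial.aeval_def, ← h5]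
      congr 1
      exact Subsingleton.elim _ _
    refine ⟨L, hL1, hL2, P, h1, h2, h3, ?_, fun i => ⟨hB0 i, h4 i⟩⟩
    intro g hg hgP
    by_contra hgX
    obtain ⟨i, hi⟩ := hm
    obtain ⟨e, he1, he2⟩ := (hB i).2
    have h5 : g ∣ MvPolynomial.aeval P (B i) := aeval_dvd (B i) he2 he1 P g hgP
    have h6 := h4 i g hg hgX h5 ((MvPolynomial.aeval P (B i)).natDegree + 1)
      (by rw [hi]; exact le_top)
    have h7 : 1 ≤ g.natDegree := hg.natDegree_pos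
    have h8 := Polynomial.natDegree_le_of_dvd h6 (hB0 i)
    rw [Polynomial.natDegree_pow] at h8
    nlinarith

/-- **Campana points with compressible coordinates.** -/
theorem campanaLZ (n q p r : ℕ)
    (FF : Finset (MvPolynomial (Fin (n + 1)) ℚ)) (hhom : ∀ F ∈ FF, ∃ e, F.IsHomogeneous e)
    (hprime : (Ideal.span (FF : Set (MvPolynomial (Fin (n + 1)) ℚ))).IsPrime)
    (B : Fin q → MvPolynomial (Fin (n + 1)) ℚ)
    (hB : ∀ i, B i ∉ Ideal.span (FF : Set (MvPolynomial (Fin (n + 1)) ℚ)) ∧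
      ∃ e, 1 ≤ e ∧ (B i).IsHomogeneous e)
    (m : Fin q → ℕ∞) (hm : ∃ i, m i = ⊤)
    (hnu : ¬ OrbUniruled (Ideal.span (FF : Set (MvPolynomial (Fin (n + 1)) ℚ))) B m)
    (τ : Fin p → Fin q) (e : Fin p → ℕ) (he : ∀ j, m (τ j) ≤ (e j : ℕ∞))
    (Γ : Subgroup ℚˣ) (hΓ : Γ.FG) (b : Fin (n + 1) → Fin r → ℕ) (c : Fin p → Fin r → ℕ)
    (hb : ∀ i j, 2 ≤ b i j) (hc : ∀ i j, 2 ≤ c i j) (z : ℕ) (B0 : ℤ) (hB0 : 0 ≤ B0)
    (M0 : ℝ) (hM0 : 0 ≤ M0) :
    ∃ (G : MvPolynomial (Fin (n + 1)) ℚ) (C : ℝ), (∃ e, G.IsHomogeneous e) ∧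
      G ∉ Ideal.span (FF : Set (MvPolynomial (Fin (n + 1)) ℚ)) ∧
      ∀ (x : Fin (n + 1) → ℚ) (y : Fin p → ℚ) (w : Fin q → ℚ),
        (∀ i, CompR Γ (b i) z B0 (M0 * (1 + logHeight x)) (x i)) →
        (∀ j, CompR Γ (c j) z B0 (M0 * (1 + logHeight x)) (y j)) →
        (∀ i, ∃ g ∈ Γ, w i = ((g : ℚˣ) : ℚ)) →
        (∀ F ∈ FF, MvPolynomial.aeval x F = 0) →
        (∀ i, MvPolynomial.aeval x (B i) = w i * ∏ j with τ j = i, y j ^ (e j)) →
        MvPolynomial.aeval x G ≠ 0 → logHeight x ≤ C := by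
  classical
  set I : Ideal (MvPolynomial (Fin (n + 1)) ℚ) := Ideal.span (FF : Set _) with hI
  let 𝒢 := {G : MvPolynomial (Fin (n + 1)) ℚ // (∃ e, G.IsHomogeneous e) ∧ G ∉ I}
  haveI : Nonempty 𝒢 := ⟨⟨1, ⟨0, MvPolynomial.isHomogeneous_one _ _⟩, fun h =>
    hprime.ne_top ((Ideal.eq_top_iff_one _).2 h)⟩⟩
  haveI : Countable 𝒢 := inferInstance
  let 𝒳 := (Fin (n + 1) → ℚ) × (Fin p → ℚ) × (Fin q → ℚ)
  let Φ : ℝ → 𝒳 → Prop := fun C P => (∀ i, ∃ g ∈ Γ, P.2.2 i = ((g : ℚˣ) : ℚ)) →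
        (∀ F ∈ FF, MvPolynomial.aeval P.1 F = 0) →
        (∀ i, MvPolynomial.aeval P.1 (B i) = P.2.2 i * ∏ j with τ j = i, P.2.1 j ^ (e j)) →
        logHeight P.1 ≤ C
  let Ψ : 𝒢 → 𝒳 → Prop := fun G P => MvPolynomial.aeval P.1 G.1 ≠ 0
  obtain ⟨C, G, hC⟩ := compTransfer ((n + 1) + p) r Γ hΓ (Fin.append b c)
    (fun i => by
      refine Fin.addCases (fun i => ?_) (fun i => ?_) i
      · rw [Fin.append_left]; exact hb i
      · rw [Fin.append_right]; exact hc i) z B0 hB0 M0 hM0 Φ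
    (fun C C' P hCC h h1 h2 h3 => (h h1 h2 h3).trans hCC) Ψ
    (fun G G' => ⟨⟨G.1 * G'.1, by
      obtain ⟨d, hd⟩ := G.2.1
      obtain ⟨d', hd'⟩ := G'.2.1
      exact ⟨d + d', hd.mul hd'⟩, fun h => by
        rcases hprime.mem_or_mem h with h1 | h1
        · exact G.2.2 h1
        · exact G'.2.2 h1⟩, fun P hP => by
        have h1 : MvPolynomial.aeval P.1 (G.1 * G'.1) ≠ 0 := hP
        rw [map_mul] at h1
        exact ⟨left_ne_zero_of_mul h1, right_ne_zero_of_mul h1⟩⟩)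
    (fun P => logHeight P.1) (fun P => logHeight_nonneg _) (fun P => Fin.append P.1 P.2.1) (by
    intro k Γ' hΓ' hle
    obtain ⟨G, C1, hGh, hGI, hall⟩ := campanaD n q p k FF hhom hprime B hB m hm hnu τ e he Γ' hΓ'
    obtain ⟨C2, hC2⟩ : ∃ C2 : ℝ, C2 = max C1 0 + 1 := ⟨_, rfl⟩
    have hC20 : 0 < C2 := by
      rw [hC2]
      positivity
    have hC12 : C1 ≤ C2 := by
      rw [hC2]
      linarith [le_max_left C1 0]
    refine ⟨1 / (2 * C2), by positivity,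
      2 * (C2 * (1 + 1 / (2 * C2) + Real.log (B0 + 1))), ⟨G, hGh, hGI⟩, ?_⟩
    rintro ⟨x, y, w⟩ M D hM hD0 hDM hlM hsp hΨ hw hF hBx
    simp only at hw hF hBx hlM hsp
    have hsx : ∀ i, SpR Γ' k M (D * x i) := fun i => by
      have := hsp (Fin.castAdd p i)
      rwa [Fin.append_left] at this
    have hsy : ∀ i, SpR Γ' k M (D * y i) := fun i => by
      have := hsp (Fin.natAdd (n + 1) i)
      rwa [Fin.append_right] at this
    choose u a ha hx using hsx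
    choose v c' hc' hy using hsy
    have h1 := hall M hM D hD0 hDM u v a c' ha hc' x y w hx hy
      (fun σ => (hw σ).imp fun g hg => ⟨hle hg.1, hg.2⟩) hF hBx hΨ
    show logHeight x ≤ _
    have hL0 : 0 ≤ logHeight x := logHeight_nonneg x
    have hlM0 : 0 ≤ Real.log M := Real.log_nonneg hM
    have h2 : logHeight x ≤ C2 * (1 + Real.log M) :=
      h1.trans (mul_le_mul_of_nonneg_right hC12 (by linarith))
    have h3 : C2 * (1 + Real.log M) ≤ C2 * (1 + (1 / (2 * C2) * (1 + logHeight x) +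
        Real.log (B0 + 1))) := by
      refine mul_le_mul_of_nonneg_left ?_ hC20.le
      linarith
    have h4 : C2 * (1 + (1 / (2 * C2) * (1 + logHeight x) + Real.log (B0 + 1))) =
        C2 * (1 + 1 / (2 * C2) + Real.log (B0 + 1)) + logHeight x / 2 := by
      field_simp
      ring
    linarith)
  refine ⟨G.1, C, G.2.1, G.2.2, fun x y w hx hy hw hF hBx hG => ?_⟩
  refine hC (x, y, w) (fun i => ?_) hG hw hF hBx
  refine Fin.addCases (fun i => ?_) (fun i => ?_) i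
  · rw [Fin.append_left]
    show CompR Γ (b i) z B0 _ (Fin.append x y (Fin.castAdd p i))
    rw [Fin.append_left]
    exact hx i
  · rw [Fin.append_right]
    show CompR Γ (c i) z B0 _ (Fin.append x y (Fin.natAdd (n + 1) i))
    rw [Fin.append_right]
    exact hy i

/-- values of polynomials at integral points -/
theorem aeval_le {k : ℕ} (F : MvPolynomial (Fin k) ℚ) (x : Fin k → ℤ) (X : ℝ) (hX : 1 ≤ X)
    (hx : ∀ i, |(x i : ℝ)| ≤ X) :
    |((MvPolynomial.aeval (fun i => (x i : ℚ)) F : ℚ) : ℝ)| ≤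
      (∑ α ∈ F.support, |((F.coeff α : ℚ) : ℝ)|) * X ^ F.totalDegree := by
  rw [MvPolynomial.aeval_def, MvPolynomial.eval₂_eq']
  push_cast
  refine (Finset.abs_sum_le_sum_abs _ _).trans ?_
  rw [Finset.sum_mul]
  refine Finset.sum_le_sum fun α hα => ?_
  rw [abs_mul]
  have h0 : (algebraMap ℚ ℚ (MvPolynomial.coeff α F)) = MvPolynomial.coeff α F := rfl
  rw [h0]
  refine mul_le_mul_of_nonneg_left ?_ (abs_nonneg _)
  rw [Finset.abs_prod]
  have h1 : ∏ i, |((x i : ℝ)) ^ (α i)| ≤ ∏ i, X ^ (α i) :=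
    Finset.prod_le_prod (fun _ _ => abs_nonneg _) fun i _ => by
      rw [abs_pow]
      exact pow_le_pow_left₀ (abs_nonneg _) (hx i) _
  refine h1.trans ?_
  rw [Finset.prod_pow_eq_pow_sum]
  refine pow_le_pow_right₀ hX ?_
  have h2 := MvPolynomial.le_totalDegree hα
  rwa [Finsupp.sum_fintype _ _ (by simp)] at h2

/-- **Campana points with compressible digits.** -/
theorem campanaDigits (n q p : ℕ)
    (FF : Finset (MvPolynomial (Fin (n + 1)) ℚ)) (hhom : ∀ F ∈ FF, ∃ e, F.IsHomogeneous e)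
    (hprime : (Ideal.span (FF : Set (MvPolynomial (Fin (n + 1)) ℚ))).IsPrime)
    (B : Fin q → MvPolynomial (Fin (n + 1)) ℚ)
    (hB : ∀ i, B i ∉ Ideal.span (FF : Set (MvPolynomial (Fin (n + 1)) ℚ)) ∧
      ∃ e, 1 ≤ e ∧ (B i).IsHomogeneous e)
    (m : Fin q → ℕ∞) (hm : ∃ i, m i = ⊤)
    (hnu : ¬ OrbUniruled (Ideal.span (FF : Set (MvPolynomial (Fin (n + 1)) ℚ))) B m)
    (τ : Fin p → Fin q) (e : Fin p → ℕ) (he : ∀ j, m (τ j) ≤ (e j : ℕ∞)) (he1 : ∀ j, 1 ≤ e j)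
    (Γ : Subgroup ℚˣ) (hΓ : Γ.FG) (b : Fin (n + 1) → ℕ) (c : Fin p → ℕ)
    (hb : ∀ i, 2 ≤ b i) (hc : ∀ i, 2 ≤ c i) (z : ℕ) :
    ∃ (G : MvPolynomial (Fin (n + 1)) ℚ) (C : ℝ), (∃ e, G.IsHomogeneous e) ∧
      G ∉ Ideal.span (FF : Set (MvPolynomial (Fin (n + 1)) ℚ)) ∧
      ∀ (x : Fin (n + 1) → ℤ) (y : Fin p → ℤ) (w : Fin q → ℤ), Finset.univ.gcd x = 1 →
        (∀ i, LZDigits (b i) z (x i)) → (∀ j, LZDigits (c j) z (y j)) →
        (∀ i, ∃ g ∈ Γ, (w i : ℚ) = ((g : ℚˣ) : ℚ)) →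
        (∀ F ∈ FF, MvPolynomial.aeval (fun i => (x i : ℚ)) F = 0) →
        (∀ i, MvPolynomial.aeval (fun i => (x i : ℚ)) (B i) =
          ((w i * ∏ j with τ j = i, y j ^ (e j) : ℤ) : ℚ)) →
        (∀ i, MvPolynomial.aeval (fun i => (x i : ℚ)) (B i) ≠ 0) →
        MvPolynomial.aeval (fun i => (x i : ℚ)) G ≠ 0 → ∀ i, |(x i : ℝ)| ≤ C := by
  classical
  have hlb : ∀ {r : ℕ} (b : Fin r → ℕ), (∀ i, 2 ≤ b i) → ∀ i, 0 ≤ Real.log (b i) := fun b hb i =>
    Real.log_nonneg (by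
      have : 1 ≤ b i := by have := hb i; omega
      exact_mod_cast this)
  let cc : Fin q → ℝ := fun i => ∑ α ∈ (B i).support, |(((B i).coeff α : ℚ) : ℝ)|
  have hcc : ∀ i, 0 ≤ cc i := fun i => Finset.sum_nonneg fun _ _ => abs_nonneg _
  obtain ⟨S1, hS1⟩ : ∃ S1 : ℝ, S1 = ∑ i, Real.log (b i) := ⟨_, rfl⟩
  obtain ⟨S2, hS2⟩ : ∃ S2 : ℝ, S2 = ∑ i, Real.log (c i) := ⟨_, rfl⟩
  obtain ⟨S3, hS3⟩ : ∃ S3 : ℝ, S3 = ∑ i, (Real.log (cc i + 1) + (B i).totalDegree) := ⟨_, rfl⟩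
  have hS10 : 0 ≤ S1 := by
    rw [hS1]
    exact Finset.sum_nonneg fun i _ => hlb b hb i
  have hS20 : 0 ≤ S2 := by
    rw [hS2]
    exact Finset.sum_nonneg fun i _ => hlb c hc i
  have h3n : ∀ i, 0 ≤ Real.log (cc i + 1) + (B i).totalDegree := fun i =>
    add_nonneg (Real.log_nonneg (by linarith [hcc i])) (Nat.cast_nonneg _)
  have hS30 : 0 ≤ S3 := by
    rw [hS3]
    exact Finset.sum_nonneg fun i _ => h3n i
  obtain ⟨B0, hB0⟩ : ∃ B0 : ℕ, B0 = ∑ i, b i + ∑ i, c i := ⟨_, rfl⟩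
  obtain ⟨G, C, hGh, hGI, hC⟩ := campanaLZ n q p 1 FF hhom hprime B hB m hm hnu τ e he Γ hΓ
    (fun i _ => b i) (fun i _ => c i) (fun i _ => hb i) (fun i _ => hc i) z B0
    (Int.natCast_nonneg _) (1 + S1 + S2 + S3) (by positivity)
  refine ⟨G, Real.exp C, hGh, hGI, ?_⟩
  intro x y w hgcd hx hy hw hF hBx hne hG
  have hH := Rat.logHeight_eq_max_abs_of_gcd_eq_one hgcd
  have hxn : ∃ i, x i ≠ 0 := by
    by_contra hno
    push Not at hno
    rw [Finset.gcd_eq_zero_iff.2 fun i _ => hno i] at hgcd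
    exact zero_ne_one hgcd
  obtain ⟨X, hXd⟩ : ∃ X : ℝ, X = ((⨆ i, |x i| : ℤ) : ℝ) := ⟨_, rfl⟩
  have hxi : ∀ i, |(x i : ℝ)| ≤ X := by
    intro i
    rw [hXd, ← Int.cast_abs]
    have h1 : |x i| ≤ ⨆ i, |x i| := le_ciSup (f := fun i => |x i|) (Finite.bddAbove_range _) i
    exact_mod_cast h1
  have hX1 : 1 ≤ X := by
    obtain ⟨i, hi⟩ := hxn
    have : (1 : ℝ) ≤ |(x i : ℝ)| := by exact_mod_cast Int.one_le_abs hi
    exact this.trans (hxi i)
  have hHX : logHeight (fun i => (x i : ℚ)) = Real.log X := by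
    rw [hXd]
    exact hH
  have hlX : 0 ≤ Real.log X := Real.log_nonneg hX1
  have hbig : ∀ {r : ℕ} (b : Fin r → ℕ), (∀ i, 2 ≤ b i) → ∀ i, Real.log (b i) ≤
      ∑ i, Real.log (b i) := fun b hb i =>
    Finset.single_le_sum (f := fun i => Real.log (b i)) (fun i _ => hlb b hb i) (Finset.mem_univ i)
  have hbn : ∀ {r : ℕ} (b : Fin r → ℕ) i, b i ≤ ∑ i, b i := fun b i =>
    Finset.single_le_sum (f := b) (fun _ _ => Nat.zero_le _) (Finset.mem_univ i)
  have hwd : ∀ (b' : ℕ) (hb' : 2 ≤ b') (hb'' : b' ≤ B0) (a : ℤ), LZDigits b' z a →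
      Real.log b' + Real.log (max 1 |(a : ℝ)|) ≤ (1 + S1 + S2 + S3) * (1 + Real.log X) →
      CompR Γ (fun _ : Fin 1 => b') z B0 ((1 + S1 + S2 + S3) *
        (1 + logHeight (fun i => (x i : ℚ)))) (a : ℚ) := by
    intro b' hb' hb'' a ha hle
    rw [hHX]
    obtain ⟨l, N', h2, h3, h4, h5⟩ := LZDigits.toWd hb' ha ((places_le hb' a).trans hle)
    refine CompR.one ⟨l, N', h2, fun j hj => (h3 j hj).trans ?_, h4, h5⟩
    exact_mod_cast hb''
  have hfin := hC (fun i => (x i : ℚ)) (fun i => (y i : ℚ)) (fun i => (w i : ℚ)) (fun i => by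
      refine hwd (b i) (hb i) (by rw [hB0]; exact (hbn b i).trans (Nat.le_add_right _ _)) (x i)
        (hx i) ?_
      have h1 := hbig b hb i
      rw [← hS1] at h1
      have h2 : Real.log (max 1 |(x i : ℝ)|) ≤ Real.log X :=
        Real.log_le_log (by positivity) (max_le hX1 (hxi i))
      nlinarith [mul_nonneg hS10 hlX, mul_nonneg hS20 hlX, mul_nonneg hS30 hlX]) (fun j => by
      refine hwd (c j) (hc j) (by rw [hB0]; exact (hbn c j).trans (Nat.le_add_left _ _)) (y j)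
        (hy j) ?_
      have h1 := hbig c hc j
      rw [← hS2] at h1
      have hBj := hBx (τ j)
      have hnej := hne (τ j)
      rw [hBj] at hnej
      have hne' : w (τ j) * ∏ l with τ l = τ j, y l ^ (e l) ≠ 0 := by exact_mod_cast hnej
      have hdv : y j ∣ w (τ j) * ∏ l with τ l = τ j, y l ^ (e l) := by
        refine Dvd.dvd.mul_left ?_ _
        refine (dvd_pow_self (y j) (by have := he1 j; omega : e j ≠ 0)).trans ?_
        exact Finset.dvd_prod_of_mem (fun l => y l ^ (e l))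
          (Finset.mem_filter.2 ⟨Finset.mem_univ _, rfl⟩)
      have h2 : |(y j : ℝ)| ≤ |((w (τ j) * ∏ l with τ l = τ j, y l ^ (e l) : ℤ) : ℝ)| := by
        have h1 : (y j).natAbs ≤ (w (τ j) * ∏ l with τ l = τ j, y l ^ (e l)).natAbs :=
          Nat.le_of_dvd (Int.natAbs_pos.2 hne') (Int.natAbs_dvd_natAbs.2 hdv)
        have h2 : ((y j).natAbs : ℝ) ≤
            ((w (τ j) * ∏ l with τ l = τ j, y l ^ (e l)).natAbs : ℝ) := by exact_mod_cast h1
        rwa [Nat.cast_natAbs, Nat.cast_natAbs, Int.cast_abs, Int.cast_abs] at h2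
      have h3 := aeval_le (B (τ j)) x X hX1 hxi
      rw [hBj] at h3
      have h4 : (((w (τ j) * ∏ l with τ l = τ j, y l ^ (e l) : ℤ) : ℚ) : ℝ) =
          ((w (τ j) * ∏ l with τ l = τ j, y l ^ (e l) : ℤ) : ℝ) := Rat.cast_intCast _
      rw [h4] at h3
      have h5 : max 1 |(y j : ℝ)| ≤ (cc (τ j) + 1) * X ^ (B (τ j)).totalDegree := by
        have h6 : (1 : ℝ) ≤ X ^ (B (τ j)).totalDegree := one_le_pow₀ hX1
        refine max_le ?_ ?_
        · nlinarith [hcc (τ j)]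
        · refine (h2.trans h3).trans ?_
          exact mul_le_mul_of_nonneg_right (by show cc (τ j) ≤ _; linarith) (by positivity)
      have h6 : Real.log (max 1 |(y j : ℝ)|) ≤ Real.log (cc (τ j) + 1) +
          (B (τ j)).totalDegree * Real.log X := by
        refine (Real.log_le_log (by positivity) h5).trans ?_
        rw [Real.log_mul (by have := hcc (τ j); positivity) (by positivity), Real.log_pow]
      have h7 : Real.log (cc (τ j) + 1) + (B (τ j)).totalDegree ≤ S3 := by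
        rw [hS3]
        exact Finset.single_le_sum (f := fun i => Real.log (cc i + 1) + ((B i).totalDegree : ℝ))
          (fun i _ => h3n i) (Finset.mem_univ (τ j))
      have h8 : 0 ≤ Real.log (cc (τ j) + 1) := Real.log_nonneg (by linarith [hcc (τ j)])
      have h9 : (0 : ℝ) ≤ (B (τ j)).totalDegree := Nat.cast_nonneg _
      have h10 : Real.log (cc (τ j) + 1) + (B (τ j)).totalDegree * Real.log X ≤
          S3 * (1 + Real.log X) := by
        nlinarith [mul_nonneg h8 hlX]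
      nlinarith [mul_nonneg hS10 hlX, mul_nonneg hS20 hlX]) hw hF (fun i => by
      have := hBx i
      push_cast at this
      exact this) hG
  rw [hHX] at hfin
  intro i
  calc |(x i : ℝ)| ≤ X := hxi i
    _ = Real.exp (Real.log X) := (Real.exp_log (by linarith)).symm
    _ ≤ _ := Real.exp_le_exp.2 hfin

end Pool.Agent.R343.LT
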