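import Pool.Agent.R343.LU7
import Pool.Agent.R343.LU8

set_option autoImplicit false
set_option linter.unusedSectionVars false

/-! # The truncated inequality of Vojta on the product of two lines, compressible coordinates -/

namespace Pool.Agent.R343.LT

open Finset Pool.Agent.R343.LP Pool.Agent.R343.LI Pool.Agent.TH932.Germs Pool.Agent.TH551.HA
open Filter MvPolynomial

/-- the sum of the logarithmic heights of the two points -/
noncomputable def ht2 (x : Fin 4 → ℤ) : ℝ :=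
  Real.log (max 1 (max |(x 0 : ℝ)| |(x 1 : ℝ)|)) + Real.log (max 1 (max |(x 2 : ℝ)| |(x 3 : ℝ)|))

theorem ht2_nonneg (x : Fin 4 → ℤ) : 0 ≤ ht2 x :=
  add_nonneg (Real.log_nonneg (le_max_left _ _)) (Real.log_nonneg (le_max_left _ _))

theorem p1LZ (N p r : ℕ)
    (F : Fin N → MvPolynomial (Fin 4) ℚ) (q q' : Fin N → ℕ)
    (hq : ∀ i, (F i).IsWeightedHomogeneous ![1, 1, 0, 0] (q i))
    (hr : ∀ i, (F i).IsWeightedHomogeneous ![0, 0, 1, 1] (q' i))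
    (hNC : ∀ z : Fin 4 → ℂ, (z 0 ≠ 0 ∨ z 1 ≠ 0) → (z 2 ≠ 0 ∨ z 3 ≠ 0) → LinearIndependent ℂ
      (fun i : {i : Fin N // aeval z (F i) = 0} => fun c : Fin 4 => aeval z (pderiv c (F i))))
    (τ : Fin p → Fin N) (e : Fin p → ℕ) (he : ∀ i, 1 ≤ e i) (Γ : Subgroup ℚˣ) (hΓ : Γ.FG)
    (b : Fin 4 → Fin r → ℕ) (c : Fin p → Fin r → ℕ)
    (hb : ∀ i j, 2 ≤ b i j) (hc : ∀ i j, 2 ≤ c i j) (z : ℕ) (B0 : ℤ) (hB0 : 0 ≤ B0)
    (M0 ε : ℝ) (hM0 : 0 ≤ M0) (hε : 0 < ε) :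
    ∃ (G : MvPolynomial (Fin 2) ℚ) (C : ℝ), G ≠ 0 ∧
      ∀ (x : Fin 4 → ℤ) (y : Fin p → ℤ) (w : Fin N → ℤ),
        (∀ i, CompR Γ (b i) z B0 (M0 * (1 + ht2 x)) (x i)) →
        (∀ j, CompR Γ (c j) z B0 (M0 * (1 + ht2 x)) (y j)) →
        (∀ σ, ∃ g ∈ Γ, (w σ : ℚ) = (g : ℚ)) →
        (∀ σ, aeval (fun c => (x c : ℚ)) (F σ) =
          ((w σ * ∏ i with τ i = σ, y i ^ (e i) : ℤ) : ℚ)) →
        (∀ σ, aeval (fun c => (x c : ℚ)) (F σ) ≠ 0) →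
        IsCoprime (x 0) (x 1) → IsCoprime (x 2) (x 3) → x 0 ≠ 0 → x 2 ≠ 0 →
        aeval (![(x 1 : ℚ) / x 0, (x 3 : ℚ) / x 2] : Fin 2 → ℚ) G ≠ 0 →
        ((∑ i, q i : ℕ) - 2 - ε) * Real.log (max |(x 0 : ℝ)| |(x 1 : ℝ)|) +
          ((∑ i, q' i : ℕ) - 2 - ε) * Real.log (max |(x 2 : ℝ)| |(x 3 : ℝ)|) ≤
          ∑ i, Real.log |(y i : ℝ)| + C := by
  classical
  let 𝒢 := {G : MvPolynomial (Fin 2) ℚ // G ≠ 0}
  haveI : Nonempty 𝒢 := ⟨⟨1, one_ne_zero⟩⟩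
  haveI : Countable 𝒢 := inferInstance
  let 𝒳 := (Fin 4 → ℤ) × (Fin p → ℤ) × (Fin N → ℤ)
  let Φ : ℝ → 𝒳 → Prop := fun C P =>
        (∀ σ, ∃ g ∈ Γ, (P.2.2 σ : ℚ) = (g : ℚ)) →
        (∀ σ, aeval (fun c => (P.1 c : ℚ)) (F σ) =
          ((P.2.2 σ * ∏ i with τ i = σ, P.2.1 i ^ (e i) : ℤ) : ℚ)) →
        (∀ σ, aeval (fun c => (P.1 c : ℚ)) (F σ) ≠ 0) →
        IsCoprime (P.1 0) (P.1 1) → IsCoprime (P.1 2) (P.1 3) → P.1 0 ≠ 0 → P.1 2 ≠ 0 →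
        ((∑ i, q i : ℕ) - 2 - ε) * Real.log (max |(P.1 0 : ℝ)| |(P.1 1 : ℝ)|) +
          ((∑ i, q' i : ℕ) - 2 - ε) * Real.log (max |(P.1 2 : ℝ)| |(P.1 3 : ℝ)|) ≤
          ∑ i, Real.log |(P.2.1 i : ℝ)| + C
  let Ψ : 𝒢 → 𝒳 → Prop := fun G P =>
    aeval (![(P.1 1 : ℚ) / P.1 0, (P.1 3 : ℚ) / P.1 2] : Fin 2 → ℚ) G.1 ≠ 0
  obtain ⟨C, G, hC⟩ := compTransfer (4 + p) r Γ hΓ (Fin.append b c)
    (fun i => by
      refine Fin.addCases (fun i => ?_) (fun i => ?_) i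
      · rw [Fin.append_left]; exact hb i
      · rw [Fin.append_right]; exact hc i) z B0 hB0 M0 hM0 Φ
    (fun C C' P hCC h h1 h2 h3 h4 h5 h6 h7 => (h h1 h2 h3 h4 h5 h6 h7).trans (by linarith)) Ψ
    (fun G G' => ⟨⟨G.1 * G'.1, mul_ne_zero G.2 G'.2⟩, fun P hP => by
        have h1 : aeval (![(P.1 1 : ℚ) / P.1 0, (P.1 3 : ℚ) / P.1 2] : Fin 2 → ℚ)
          (G.1 * G'.1) ≠ 0 := hP
        rw [map_mul] at h1
        exact ⟨left_ne_zero_of_mul h1, right_ne_zero_of_mul h1⟩⟩)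
    (fun P => ht2 P.1) (fun P => ht2_nonneg _)
    (fun P => Fin.append (fun i => (P.1 i : ℚ)) (fun i => (P.2.1 i : ℚ))) (by
    intro k Γ' hΓ' hle
    obtain ⟨G, C1, hG0, hall⟩ := p1D ncF csF hbF fwF N p k F q q' hq hr hNC τ e he Γ' hΓ' (ε / 2)
      (by positivity)
    obtain ⟨C2, hC2⟩ : ∃ C2 : ℝ, C2 = max C1 0 + 1 := ⟨_, rfl⟩
    have hC20 : 0 < C2 := by
      rw [hC2]
      positivity
    have hC12 : C1 ≤ C2 := by
      rw [hC2]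
      linarith [le_max_left C1 0]
    refine ⟨ε / (2 * C2), by positivity,
      C2 * (1 + ε / (2 * C2) + Real.log (B0 + 1)), ⟨G, hG0⟩, ?_⟩
    rintro ⟨x, y, w⟩ M D hM hD0 hDM hlM hsp hΨ hw hA hA0 hc1 hc2 hx0 hx2
    simp only at hw hA hA0 hc1 hc2 hx0 hx2 hlM hsp
    have hsx : ∀ i, SpR Γ' k M (D * x i) := fun i => by
      have := hsp (Fin.castAdd p i)
      rwa [Fin.append_left] at this
    have hsy : ∀ i, SpR Γ' k M (D * y i) := fun i => by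
      have := hsp (Fin.natAdd 4 i)
      rwa [Fin.append_right] at this
    have h1 := hall M hM D hD0 hDM x y w hsx hsy
      (fun σ => (hw σ).imp fun g hg => ⟨hle hg.1, hg.2⟩) hA hA0 hc1 hc2 hx0 hx2 hΨ
    obtain ⟨ha, hha⟩ : ∃ a, a = Real.log (max |(x 0 : ℝ)| |(x 1 : ℝ)|) := ⟨_, rfl⟩
    obtain ⟨hb', hhb⟩ : ∃ a, a = Real.log (max |(x 2 : ℝ)| |(x 3 : ℝ)|) := ⟨_, rfl⟩
    have hm1 : (1 : ℝ) ≤ max |(x 0 : ℝ)| |(x 1 : ℝ)| :=
      le_max_of_le_left (by exact_mod_cast Int.one_le_abs hx0)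
    have hm2 : (1 : ℝ) ≤ max |(x 2 : ℝ)| |(x 3 : ℝ)| :=
      le_max_of_le_left (by exact_mod_cast Int.one_le_abs hx2)
    have hht : ht2 x = ha + hb' := by
      unfold ht2
      rw [max_eq_right hm1, max_eq_right hm2, hha, hhb]
    have ha0 : 0 ≤ ha := by rw [hha]; exact Real.log_nonneg hm1
    have hb0 : 0 ≤ hb' := by rw [hhb]; exact Real.log_nonneg hm2
    show ((∑ i, q i : ℕ) - 2 - ε) * Real.log (max |(x 0 : ℝ)| |(x 1 : ℝ)|) +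
          ((∑ i, q' i : ℕ) - 2 - ε) * Real.log (max |(x 2 : ℝ)| |(x 3 : ℝ)|) ≤
          ∑ i, Real.log |(y i : ℝ)| + _
    rw [← hha, ← hhb] at h1 ⊢
    rw [hht] at hlM
    have hlM0 : 0 ≤ Real.log M := Real.log_nonneg hM
    have h2 : C1 * (1 + Real.log M) ≤ C2 * (1 + Real.log M) :=
      mul_le_mul_of_nonneg_right hC12 (by linarith)
    have h3 : C2 * (1 + Real.log M) ≤ C2 * (1 + (ε / (2 * C2) * (1 + (ha + hb')) +
        Real.log (B0 + 1))) := by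
      refine mul_le_mul_of_nonneg_left ?_ hC20.le
      linarith
    have h4 : C2 * (1 + (ε / (2 * C2) * (1 + (ha + hb')) + Real.log (B0 + 1))) =
        C2 * (1 + ε / (2 * C2) + Real.log (B0 + 1)) + ε / 2 * (ha + hb') := by
      field_simp
      ring
    linarith)
  refine ⟨G.1, C, G.2, fun x y w hx hy hw hA hA0 hc1 hc2 hx0 hx2 hG => ?_⟩
  refine hC (x, y, w) (fun i => ?_) hG hw hA hA0 hc1 hc2 hx0 hx2
  refine Fin.addCases (fun i => ?_) (fun i => ?_) i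
  · rw [Fin.append_left]
    show CompR Γ (b i) z B0 _ (Fin.append (fun i => (x i : ℚ)) (fun i => (y i : ℚ))
      (Fin.castAdd p i))
    rw [Fin.append_left]
    exact hx i
  · rw [Fin.append_right]
    show CompR Γ (c i) z B0 _ (Fin.append (fun i => (x i : ℚ)) (fun i => (y i : ℚ))
      (Fin.natAdd 4 i))
    rw [Fin.append_right]
    exact hy i

/-- divisors of values of polynomials -/
theorem div_log_le {k N p : ℕ} (F : Fin N → MvPolynomial (Fin k) ℚ) :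
    ∃ S : ℝ, 0 ≤ S ∧ ∀ (τ : Fin p → Fin N) (e : Fin p → ℕ), (∀ i, 1 ≤ e i) →
      ∀ (x : Fin k → ℤ) (X : ℝ), 1 ≤ X → (∀ i, |(x i : ℝ)| ≤ X) →
      ∀ (y : Fin p → ℤ) (w : Fin N → ℤ),
      (∀ σ, aeval (fun c => (x c : ℚ)) (F σ) =
          ((w σ * ∏ i with τ i = σ, y i ^ (e i) : ℤ) : ℚ)) →
      (∀ σ, aeval (fun c => (x c : ℚ)) (F σ) ≠ 0) → ∀ j,
      Real.log (max 1 |(y j : ℝ)|) ≤ S * (1 + Real.log X) := by
  classical
  let cc : Fin N → ℝ := fun i => ∑ α ∈ (F i).support, |(((F i).coeff α : ℚ) : ℝ)|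
  have hcc : ∀ i, 0 ≤ cc i := fun i => Finset.sum_nonneg fun _ _ => abs_nonneg _
  have h3n : ∀ i, 0 ≤ Real.log (cc i + 1) + (F i).totalDegree := fun i =>
    add_nonneg (Real.log_nonneg (by linarith [hcc i])) (Nat.cast_nonneg _)
  refine ⟨∑ i, (Real.log (cc i + 1) + (F i).totalDegree), Finset.sum_nonneg fun i _ => h3n i, ?_⟩
  intro τ e he x X hX1 hxi y w hBx hne j
  have hlX : 0 ≤ Real.log X := Real.log_nonneg hX1
  have hBj := hBx (τ j)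
  have hnej := hne (τ j)
  rw [hBj] at hnej
  have hne' : w (τ j) * ∏ l with τ l = τ j, y l ^ (e l) ≠ 0 := by exact_mod_cast hnej
  have hdv : y j ∣ w (τ j) * ∏ l with τ l = τ j, y l ^ (e l) := by
    refine Dvd.dvd.mul_left ?_ _
    refine (dvd_pow_self (y j) (by have := he j; omega : e j ≠ 0)).trans ?_
    exact Finset.dvd_prod_of_mem (fun l => y l ^ (e l))
      (Finset.mem_filter.2 ⟨Finset.mem_univ _, rfl⟩)
  have h2 : |(y j : ℝ)| ≤ |((w (τ j) * ∏ l with τ l = τ j, y l ^ (e l) : ℤ) : ℝ)| := by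
    have h1 : (y j).natAbs ≤ (w (τ j) * ∏ l with τ l = τ j, y l ^ (e l)).natAbs :=
      Nat.le_of_dvd (Int.natAbs_pos.2 hne') (Int.natAbs_dvd_natAbs.2 hdv)
    have h2 : ((y j).natAbs : ℝ) ≤
        ((w (τ j) * ∏ l with τ l = τ j, y l ^ (e l)).natAbs : ℝ) := by exact_mod_cast h1
    rwa [Nat.cast_natAbs, Nat.cast_natAbs, Int.cast_abs, Int.cast_abs] at h2
  have h3 := aeval_le (F (τ j)) x X hX1 hxi
  rw [hBj] at h3
  have h4 : (((w (τ j) * ∏ l with τ l = τ j, y l ^ (e l) : ℤ) : ℚ) : ℝ) =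
      ((w (τ j) * ∏ l with τ l = τ j, y l ^ (e l) : ℤ) : ℝ) := Rat.cast_intCast _
  rw [h4] at h3
  have h5 : max 1 |(y j : ℝ)| ≤ (cc (τ j) + 1) * X ^ (F (τ j)).totalDegree := by
    have h6 : (1 : ℝ) ≤ X ^ (F (τ j)).totalDegree := one_le_pow₀ hX1
    refine max_le ?_ ?_
    · nlinarith [hcc (τ j)]
    · refine (h2.trans h3).trans ?_
      exact mul_le_mul_of_nonneg_right (by show cc (τ j) ≤ _; linarith) (by positivity)
  have h6 : Real.log (max 1 |(y j : ℝ)|) ≤ Real.log (cc (τ j) + 1) +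
      (F (τ j)).totalDegree * Real.log X := by
    refine (Real.log_le_log (by positivity) h5).trans ?_
    rw [Real.log_mul (by have := hcc (τ j); positivity) (by positivity), Real.log_pow]
  have h7 : Real.log (cc (τ j) + 1) + (F (τ j)).totalDegree ≤
      ∑ i, (Real.log (cc i + 1) + (F i).totalDegree) :=
    Finset.single_le_sum (f := fun i => Real.log (cc i + 1) + ((F i).totalDegree : ℝ))
      (fun i _ => h3n i) (Finset.mem_univ (τ j))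
  have h8 : 0 ≤ Real.log (cc (τ j) + 1) := Real.log_nonneg (by linarith [hcc (τ j)])
  have h9 : (0 : ℝ) ≤ (F (τ j)).totalDegree := Nat.cast_nonneg _
  nlinarith [mul_nonneg h8 hlX]

/-- from digits to compressible integers -/
theorem CompR.ofDigits {Γ : Subgroup ℚˣ} {b z B0 : ℕ} (hb : 2 ≤ b) (hbB : b ≤ B0) {a : ℤ} {Λ : ℝ}
    (ha : LZDigits b z a) (hle : Real.log b + Real.log (max 1 |(a : ℝ)|) ≤ Λ) :
    CompR Γ (fun _ : Fin 1 => b) z B0 Λ (a : ℚ) := by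
  obtain ⟨l, N', h2, h3, h4, h5⟩ := LZDigits.toWd hb ha ((places_le hb a).trans hle)
  refine CompR.one ⟨l, N', h2, fun j hj => (h3 j hj).trans ?_, h4, h5⟩
  exact_mod_cast hbB

theorem p1Digits (N p : ℕ)
    (F : Fin N → MvPolynomial (Fin 4) ℚ) (q q' : Fin N → ℕ)
    (hq : ∀ i, (F i).IsWeightedHomogeneous ![1, 1, 0, 0] (q i))
    (hr : ∀ i, (F i).IsWeightedHomogeneous ![0, 0, 1, 1] (q' i))
    (hNC : ∀ z : Fin 4 → ℂ, (z 0 ≠ 0 ∨ z 1 ≠ 0) → (z 2 ≠ 0 ∨ z 3 ≠ 0) → LinearIndependent ℂ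
      (fun i : {i : Fin N // aeval z (F i) = 0} => fun c : Fin 4 => aeval z (pderiv c (F i))))
    (τ : Fin p → Fin N) (e : Fin p → ℕ) (he : ∀ i, 1 ≤ e i) (Γ : Subgroup ℚˣ) (hΓ : Γ.FG)
    (b : Fin 4 → ℕ) (c : Fin p → ℕ) (hb : ∀ i, 2 ≤ b i) (hc : ∀ i, 2 ≤ c i) (z : ℕ)
    (ε : ℝ) (hε : 0 < ε) :
    ∃ (G : MvPolynomial (Fin 2) ℚ) (C : ℝ), G ≠ 0 ∧
      ∀ (x : Fin 4 → ℤ) (y : Fin p → ℤ) (w : Fin N → ℤ),
        (∀ i, LZDigits (b i) z (x i)) → (∀ j, LZDigits (c j) z (y j)) →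
        (∀ σ, ∃ g ∈ Γ, (w σ : ℚ) = (g : ℚ)) →
        (∀ σ, aeval (fun c => (x c : ℚ)) (F σ) =
          ((w σ * ∏ i with τ i = σ, y i ^ (e i) : ℤ) : ℚ)) →
        (∀ σ, aeval (fun c => (x c : ℚ)) (F σ) ≠ 0) →
        IsCoprime (x 0) (x 1) → IsCoprime (x 2) (x 3) → x 0 ≠ 0 → x 2 ≠ 0 →
        aeval (![(x 1 : ℚ) / x 0, (x 3 : ℚ) / x 2] : Fin 2 → ℚ) G ≠ 0 →
        ((∑ i, q i : ℕ) - 2 - ε) * Real.log (max |(x 0 : ℝ)| |(x 1 : ℝ)|) +
          ((∑ i, q' i : ℕ) - 2 - ε) * Real.log (max |(x 2 : ℝ)| |(x 3 : ℝ)|) ≤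
          ∑ i, Real.log |(y i : ℝ)| + C := by
  classical
  have hlb : ∀ {r : ℕ} (b : Fin r → ℕ), (∀ i, 2 ≤ b i) → ∀ i, 0 ≤ Real.log (b i) := fun b hb i =>
    Real.log_nonneg (by
      have : 1 ≤ b i := by have := hb i; omega
      exact_mod_cast this)
  have hbig : ∀ {r : ℕ} (b : Fin r → ℕ), (∀ i, 2 ≤ b i) → ∀ i, Real.log (b i) ≤
      ∑ i, Real.log (b i) := fun b hb i =>
    Finset.single_le_sum (f := fun i => Real.log (b i)) (fun i _ => hlb b hb i) (Finset.mem_univ i)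
  have hbn : ∀ {r : ℕ} (b : Fin r → ℕ) i, b i ≤ ∑ i, b i := fun b i =>
    Finset.single_le_sum (f := b) (fun _ _ => Nat.zero_le _) (Finset.mem_univ i)
  obtain ⟨S, hS0, hS⟩ := div_log_le (p := p) F
  obtain ⟨S1, hS1⟩ : ∃ S1 : ℝ, S1 = ∑ i, Real.log (b i) := ⟨_, rfl⟩
  obtain ⟨S2, hS2⟩ : ∃ S2 : ℝ, S2 = ∑ i, Real.log (c i) := ⟨_, rfl⟩
  have hS10 : 0 ≤ S1 := by
    rw [hS1]
    exact Finset.sum_nonneg fun i _ => hlb b hb i
  have hS20 : 0 ≤ S2 := by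
    rw [hS2]
    exact Finset.sum_nonneg fun i _ => hlb c hc i
  obtain ⟨B0, hB0⟩ : ∃ B0 : ℕ, B0 = ∑ i, b i + ∑ i, c i := ⟨_, rfl⟩
  obtain ⟨G, C, hG0, hC⟩ := p1LZ N p 1 F q q' hq hr hNC τ e he Γ hΓ (fun i _ => b i)
    (fun i _ => c i) (fun i _ => hb i) (fun i _ => hc i) z B0 (Int.natCast_nonneg _)
    (1 + S1 + S2 + S) ε (by positivity) hε
  refine ⟨G, C, hG0, fun x y w hx hy hw hA hA0 hc1 hc2 hx0 hx2 hG => ?_⟩
  have hht := ht2_nonneg x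
  obtain ⟨X, hX⟩ : ∃ X : ℝ, X = Real.exp (ht2 x) := ⟨_, rfl⟩
  have hX1 : 1 ≤ X := by
    rw [hX]
    exact Real.one_le_exp hht
  have hlX : Real.log X = ht2 x := by rw [hX, Real.log_exp]
  have hxi : ∀ i, |(x i : ℝ)| ≤ X := by
    have e1 : max 1 (max |(x 0 : ℝ)| |(x 1 : ℝ)|) ≤ X := by
      rw [hX, ← Real.exp_log (show 0 < max 1 (max |(x 0 : ℝ)| |(x 1 : ℝ)|) by positivity)]
      refine Real.exp_le_exp.2 ?_
      unfold ht2
      linarith [Real.log_nonneg (le_max_left 1 (max |(x 2 : ℝ)| |(x 3 : ℝ)|))]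
    have e2 : max 1 (max |(x 2 : ℝ)| |(x 3 : ℝ)|) ≤ X := by
      rw [hX, ← Real.exp_log (show 0 < max 1 (max |(x 2 : ℝ)| |(x 3 : ℝ)|) by positivity)]
      refine Real.exp_le_exp.2 ?_
      unfold ht2
      linarith [Real.log_nonneg (le_max_left 1 (max |(x 0 : ℝ)| |(x 1 : ℝ)|))]
    intro i
    fin_cases i
    · exact (le_max_left _ _).trans ((le_max_right _ _).trans e1)
    · exact (le_max_right _ _).trans ((le_max_right _ _).trans e1)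
    · exact (le_max_left _ _).trans ((le_max_right _ _).trans e2)
    · exact (le_max_right _ _).trans ((le_max_right _ _).trans e2)
  refine hC x y w (fun i => ?_) (fun j => ?_) hw hA hA0 hc1 hc2 hx0 hx2 hG
  · refine CompR.ofDigits (hb i) (by rw [hB0]; exact (hbn b i).trans (Nat.le_add_right _ _))
      (hx i) ?_
    have h1 := hbig b hb i
    rw [← hS1] at h1
    have h2 : Real.log (max 1 |(x i : ℝ)|) ≤ ht2 x := by
      rw [← hlX]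
      exact Real.log_le_log (by positivity) (max_le hX1 (hxi i))
    nlinarith [mul_nonneg hS10 hht, mul_nonneg hS20 hht, mul_nonneg hS0 hht]
  · refine CompR.ofDigits (hc j) (by rw [hB0]; exact (hbn c j).trans (Nat.le_add_left _ _))
      (hy j) ?_
    have h1 := hbig c hc j
    rw [← hS2] at h1
    have h2 := hS τ e he x X hX1 hxi y w hA hA0 j
    rw [hlX] at h2
    nlinarith [mul_nonneg hS10 hht, mul_nonneg hS20 hht, mul_nonneg hS0 hht]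

end Pool.Agent.R343.LT
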