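import Pool.Agent.R343.LU1

set_option autoImplicit false
set_option linter.unusedSectionVars false

/-! # The transfer principle for families indexed by finite types -/

namespace Pool.Agent.R343.LT

open Finset Pool.Agent.R343.LP Pool.Agent.R343.LI

/-- **Transfer** for integers which are sums of products of elements of `Γ` and compressible
integers. -/
theorem compTransferF {𝒳 𝒢 κ : Type} [Countable 𝒢] [Nonempty 𝒢] [Fintype κ] (r : ℕ)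
    (Γ : Subgroup ℚˣ)
    (hΓ : Γ.FG) (b : κ → Fin r → ℕ) (hb : ∀ i j, 2 ≤ b i j) (z : ℕ) (B : ℤ) (hB : 0 ≤ B)
    (M0 : ℝ) (hM0 : 0 ≤ M0) (Φ : ℝ → 𝒳 → Prop) (hmono : ∀ C C' P, C ≤ C' → Φ C P → Φ C' P)
    (Ψ : 𝒢 → 𝒳 → Prop) (hmul : ∀ G G', ∃ G'', ∀ P, Ψ G'' P → Ψ G P ∧ Ψ G' P)
    (H : 𝒳 → ℝ) (hH : ∀ P, 0 ≤ H P) (x : 𝒳 → κ → ℚ)
    (hyp : ∀ (k : ℕ) (Γ' : Subgroup ℚˣ), Γ'.FG → Γ ≤ Γ' → ∃ δ : ℝ, 0 < δ ∧ ∃ (C : ℝ) (G : 𝒢),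
      ∀ (P : 𝒳) (M : ℝ) (D : ℕ), 1 ≤ M → 0 < D → (D : ℝ) ≤ M →
      Real.log M ≤ δ * (1 + H P) + Real.log (B + 1) → (∀ i, SpR Γ' k M (D * x P i)) → Ψ G P →
      Φ C P) :
    ∃ (C : ℝ) (G : 𝒢), ∀ P, (∀ i, CompR Γ (b i) z B (M0 * (1 + H P)) (x P i)) → Ψ G P → Φ C P := by
  classical
  let e : κ ≃ Fin (Fintype.card κ) := Fintype.equivFin κ
  obtain ⟨C, G, h⟩ := compTransfer (Fintype.card κ) r Γ hΓ (fun i => b (e.symm i))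
    (fun i j => hb _ j) z B hB M0 hM0 Φ hmono Ψ hmul H hH (fun P i => x P (e.symm i)) (by
      intro k Γ' hΓ' hle
      obtain ⟨δ, hδ, C, G, h⟩ := hyp k Γ' hΓ' hle
      refine ⟨δ, hδ, C, G, fun P M D h1 h2 h3 h4 h5 h6 => h P M D h1 h2 h3 h4 (fun i => ?_) h6⟩
      have := h5 (e i)
      rwa [Equiv.symm_apply_apply] at this)
  exact ⟨C, G, fun P hP hΨ => h P (fun i => hP _) hΨ⟩

end Pool.Agent.R343.LT
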