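import Pool.Agent.R343.LV1
import Pool.Agent.Results.MP_a41896_nt.RootStacksSparse

set_option autoImplicit false
set_option linter.unusedSectionVars false
set_option linter.unusedVariables false

/-! # Integral points on root stacks, with a common denominator

The proof is the one of `MP_a41896_nt.RootStacksSparse`. -/

namespace Pool.Agent.R343.LT

open MvPolynomial Pool.Agent.Results.MP_a41896_nt.RootStacksSparse

theorem rootD (N s g q w p k : ℕ) (G : Fin g → MvPolynomial (Fin (N + 1 + s)) ℤ)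
    (e : Fin g → ℕ) (hG : ∀ k, (G k).IsHomogeneous (e k))
    (F : Fin q → Fin w → MvPolynomial (Fin (N + 1 + s)) ℤ)
    (d : Fin q → Fin w → ℕ) (hF : ∀ i j, (F i j).IsHomogeneous (d i j))
    (J : Fin (N + 1) → Fin (N + 1 + s)) (hsm : SmoothPair s G F) (I0 : Finset (Fin q)) (m : Fin q → ℕ)
    (hm : ∀ i ∈ I0, 1 ≤ m i) (ex : Fin q → Fin p → ℕ) (hex : ∀ i ∈ I0, ∀ l, m i ∣ ex i l)
    (hexl : ∀ l, ∃ i, ex i l ≠ 0) (Γ : Subgroup ℚˣ) (hΓ : Γ.FG) (S : Finset ℕ)
    (δ : ℝ) (hδ : 0 < δ) :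
    ∃ (Φ : MvPolynomial (Fin (N + 1)) ℚ) (C : ℝ), (∃ n, Φ.IsHomogeneous n) ∧ Φ ≠ 0 ∧
      ∀ M : ℝ, 1 ≤ M → ∀ D : ℕ, 0 < D → (D : ℝ) ≤ M →
        ∀ x : Fin (N + 1 + s) → ℤ, IsPrimitive x → OnX G x →
        (∀ a, SpR Γ k M (D * x a)) → (∀ i, ∃ j, eval x (F i j) ≠ 0) →
        aeval (fun a => (x (J a) : ℚ)) Φ ≠ 0 →
        ∀ (y : Fin p → ℤ) (c : Fin q → Fin w → ℤ), (∀ l, SpR Γ k M (D * y l)) →
          (∀ i j, SpR Γ k M (D * c i j)) →
          (∀ i j, eval x (F i j) = c i j * ∏ l, y l ^ (ex i l)) →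
          (∀ i ∈ I0, ∀ r : ℕ, r.Prime → (∀ j, (r : ℤ) ∣ c i j) → r ∈ S) →
          IsIntegralPoint S F I0 m x ∧
          ∀ A : Matrix (Fin (N + 1 + s)) (Fin (N + 1)) ℤ, IsTangentBasis G x A →
            stackHeight F d I0 m x A ≤ truncatedCounting F I0 S x + δ * Real.log (height x) +
              excess S ((∏ l ∈ Finset.univ.filter (fun l => ∀ i ∈ I0, ex i l = 0), y l) *
                ∏ i ∈ I0ᶜ, Finset.univ.gcd (c i)) + C * (1 + Real.log M) := by
  classical
  obtain ⟨Φ, C, hn, hΦ0, hmain⟩ := gvFinD N s g q w p k G e hG F d hF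
    (by
      intro z hz hzG
      obtain ⟨K, J', h⟩ := hsm z hz (fun j => by
        have := hzG j
        rwa [Pool.Agent.Y731.GV.aeval_toQ_complex] at this)
      refine ⟨K, J', ?_⟩
      have hpq : (fun i : Fin q => ∀ j, aeval z (Pool.Agent.Y731.GV.toQ (F i j)) = 0) =
          fun i : Fin q => ∀ j, aeval z (F i j) = 0 := by
        funext i
        simp only [Pool.Agent.Y731.GV.aeval_toQ_complex]
      simp only [Pool.Agent.Y731.GV.toQ_pderiv]
      refine li_congr _ _ hpq _ (fun (i : Fin q) (c : Fin (N + 1 + s)) =>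
        aeval z (Pool.Agent.Y731.GV.toQ (pderiv c (F i (J' i))))) ?_
      simp only [Pool.Agent.Y731.GV.aeval_toQ_complex]
      exact h)
    J ex (fun l => by
      obtain ⟨i, hi⟩ := hexl l
      exact ⟨i, Nat.one_le_iff_ne_zero.2 hi⟩) Γ hΓ S δ hδ
  choose B hB0 hB using fun i => Pool.Agent.Y731.GO.cnt_le_hcomp (F i) (d i) (hF i)
  have hB1 : ∀ i, B i ≤ ∑ i, B i := fun i =>
    Finset.single_le_sum (fun i _ => hB0 i) (Finset.mem_univ i)
  have hBn : 0 ≤ ∑ i, B i := Finset.sum_nonneg fun i _ => hB0 i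
  have hmB : 0 ≤ ∑ i ∈ I0, (m i : ℝ)⁻¹ * ∑ i, B i :=
    Finset.sum_nonneg fun i _ => mul_nonneg (by positivity) hBn
  refine ⟨Φ, |C| + ∑ i ∈ I0, (m i : ℝ)⁻¹ * ∑ i, B i, hn, hΦ0, ?_⟩
  intro M hM D hD0 hDM x hx hX hxs hFx hΦ y c hys hcs hfac hcS
  have hc0 : ∀ i, Finset.univ.gcd (c i) ≠ 0 := by
    intro i h0
    obtain ⟨j, hj⟩ := hFx i
    apply hj
    rw [hfac, (Finset.gcd_eq_zero_iff.1 h0) j (Finset.mem_univ _), zero_mul]
  have hy0 : ∀ l, y l ≠ 0 := by
    intro l h0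
    obtain ⟨i, hi⟩ := hexl l
    obtain ⟨j, hj⟩ := hFx i
    apply hj
    rw [hfac, Finset.prod_eq_zero (i := l) (Finset.mem_univ _) (by rw [h0, zero_pow hi]), mul_zero]
  have hg : ∀ i, Finset.univ.gcd (fun j => eval x (F i j)) =
      Finset.univ.gcd (c i) * normalize (∏ l, y l ^ (ex i l)) := by
    intro i
    simp only [hfac]
    exact Finset.gcd_mul_right
  refine ⟨?_, fun A hA => ?_⟩
  · -- integral points
    intro i hi r hr hrS
    have h1 : (Finset.univ.gcd (fun j => eval x (F i j))).natAbs =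
        (Finset.univ.gcd (c i)).natAbs * ∏ l, (y l).natAbs ^ (ex i l) := by
      rw [hg, Int.natAbs_mul, ← Int.abs_eq_normalize, Int.natAbs_abs]
      congr 1
      refine (map_prod Int.natAbsHom (fun l => y l ^ ex i l) Finset.univ).trans ?_
      exact Finset.prod_congr rfl fun l _ => Int.natAbs_pow _ _
    have h2 : (Finset.univ.gcd (c i)).natAbs.factorization r = 0 := by
      apply Nat.factorization_eq_zero_of_not_dvd
      intro h3
      apply hrS
      apply hcS i hi r hr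
      intro j
      exact (Int.natCast_dvd.2 h3).trans (Finset.gcd_dvd (Finset.mem_univ j))
    have hyl : ∀ l, (y l).natAbs ^ (ex i l) ≠ 0 := fun l =>
      pow_ne_zero _ (Int.natAbs_ne_zero.2 (hy0 l))
    have h3 : intersection (F i) r x = ∑ l, ex i l * (y l).natAbs.factorization r := by
      unfold intersection
      rw [h1, Nat.factorization_mul (Int.natAbs_ne_zero.2 (hc0 i))
        (Finset.prod_ne_zero_iff.2 fun l _ => hyl l), Finsupp.add_apply, h2, zero_add,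
        Nat.factorization_prod fun l _ => hyl l, Finsupp.finsetSum_apply]
      exact Finset.sum_congr rfl fun l _ => by rw [Nat.factorization_pow]; rfl
    rw [h3]
    exact Finset.dvd_sum fun l _ => (hex i hi l).mul_right _
  · have h1 := hmain M hM D hD0 hDM x y c hX hxs hys hcs hfac hFx hx hΦ A (by
      intro κ hκ ρ
      have h5 := Fintype.linearIndependent_iff.1 hA.1 κ (by
        funext j
        rw [Finset.sum_apply, Pi.zero_apply, ← hκ j]
        exact Finset.sum_congr rfl fun c _ => by rw [Pi.smul_apply, smul_eq_mul])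
      exact h5 ρ) (fun ρ j => by
        rw [← hA.2 j ρ]
        exact Finset.sum_congr rfl fun c _ => mul_comm _ _)
    have h2 := Pool.Agent.Y731.GO.orb S F d (∑ i, B i) hBn x
      (fun i => (hB i S x hx (hFx i)).trans (by linarith [hB1 i])) hFx I0 m ex
      (fun i hi l hil => by
        have h3 := hm i hi
        exact ⟨by omega, Nat.le_of_dvd (Nat.pos_of_ne_zero hil) (hex i hi l)⟩)
      (fun l => by
        obtain ⟨i, hi⟩ := hexl l
        exact ⟨i, Nat.one_le_iff_ne_zero.2 hi⟩) y c hfac (fun i hi => by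
          apply Pool.Agent.Y731.GO.cnt_eq_zero
          intro r hr hrc _
          exact hcS i hi r hr fun j => hrc.trans (Finset.gcd_dvd (Finset.mem_univ j)))
    set W : ℤ := (∏ l ∈ Finset.univ.filter (fun l => ∀ i ∈ I0, ex i l = 0), y l) *
      ∏ i ∈ I0ᶜ, Finset.univ.gcd (c i) with hW
    -- truncation
    have h3 : Pool.Agent.Y731.GO.cnt S W ≤ truncatedCounting F I0 S x + excess S W := by
      have h4 : Pool.Agent.Y731.GO.cnt S W = ∑ p ∈ W.natAbs.primeFactors \ S, Real.log p +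
          excess S W := by
        unfold Pool.Agent.Y731.GO.cnt excess
        rw [← Finset.sum_add_distrib]
        exact Finset.sum_congr rfl fun r _ => by ring
      rw [h4]
      refine add_le_add ?_ le_rfl
      unfold truncatedCounting
      refine Finset.sum_le_sum_of_subset_of_nonneg (Finset.sdiff_subset_sdiff ?_ le_rfl)
        fun p _ _ => Real.log_natCast_nonneg p
      intro r hr
      obtain ⟨hr1, hr2, -⟩ := Nat.mem_primeFactors.1 hr
      have hr' : Prime (r : ℤ) := Nat.prime_iff_prime_int.1 hr1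
      have hF0 : ∏ i ∈ I0ᶜ, Finset.univ.gcd (fun j => eval x (F i j)) ≠ 0 := by
        refine Finset.prod_ne_zero_iff.2 fun i _ h0 => ?_
        obtain ⟨j, hj⟩ := hFx i
        exact hj (Finset.gcd_eq_zero_iff.1 h0 j (Finset.mem_univ _))
      refine Nat.mem_primeFactors.2 ⟨hr1, ?_, Int.natAbs_ne_zero.2 hF0⟩
      rw [← Int.natCast_dvd] at hr2 ⊢
      rw [hr'.dvd_finsetProd_iff]
      rw [hW, hr'.dvd_mul, hr'.dvd_finsetProd_iff, hr'.dvd_finsetProd_iff] at hr2
      rcases hr2 with ⟨l, hl, hrl⟩ | ⟨i, hi, hri⟩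
      · obtain ⟨i, hi⟩ := hexl l
        refine ⟨i, ?_, ?_⟩
        · rw [Finset.mem_compl]
          intro h
          exact hi ((Finset.mem_filter.1 hl).2 i h)
        · rw [hg]
          refine Dvd.dvd.mul_left ?_ _
          rw [dvd_normalize_iff]
          refine hrl.trans ((dvd_pow_self _ hi).trans ?_)
          exact Finset.dvd_prod_of_mem (fun l => y l ^ (ex i l)) (Finset.mem_univ l)
      · refine ⟨i, hi, ?_⟩
        rw [hg]
        exact Dvd.dvd.mul_right hri _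
    have h4 : canonicalHeight x A + ∑ i, componentHeight (F i) (d i) x ≤
        Pool.Agent.Y731.GO.cnt S ((∏ l, y l) * ∏ i, Finset.univ.gcd (c i)) +
          δ * Real.log (height x) + C * (1 + Real.log M) := h1
    have h5 : ∑ i ∈ I0, (m i : ℝ)⁻¹ * (Pool.Agent.Y731.GV.hcomp (F i) (d i) x + ∑ i, B i) =
        ∑ i ∈ I0, (m i : ℝ)⁻¹ * componentHeight (F i) (d i) x +
          ∑ i ∈ I0, (m i : ℝ)⁻¹ * ∑ i, B i := by
      rw [← Finset.sum_add_distrib]
      exact Finset.sum_congr rfl fun i _ => mul_add _ _ _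
    have h6 : stackHeight F d I0 m x A = canonicalHeight x A +
        ∑ i, componentHeight (F i) (d i) x -
          ∑ i ∈ I0, (m i : ℝ)⁻¹ * componentHeight (F i) (d i) x := by
      unfold stackHeight
      rw [← Finset.sum_add_sum_compl I0 (fun i => componentHeight (F i) (d i) x)]
      have h7 : ∑ i ∈ I0, (1 - 1 / (m i : ℝ)) * componentHeight (F i) (d i) x =
          ∑ i ∈ I0, componentHeight (F i) (d i) x -
            ∑ i ∈ I0, (m i : ℝ)⁻¹ * componentHeight (F i) (d i) x := by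
        rw [← Finset.sum_sub_distrib]
        exact Finset.sum_congr rfl fun i _ => by rw [one_div]; ring
      rw [h7]
      ring
    have hlog : 0 ≤ Real.log M := Real.log_nonneg hM
    have h7 : C * (1 + Real.log M) ≤ |C| * (1 + Real.log M) :=
      mul_le_mul_of_nonneg_right (le_abs_self C) (by linarith)
    have h8 : (∑ i ∈ I0, (m i : ℝ)⁻¹ * ∑ i, B i) * 1 ≤
        (∑ i ∈ I0, (m i : ℝ)⁻¹ * ∑ i, B i) * (1 + Real.log M) :=
      mul_le_mul_of_nonneg_left (by linarith) hmB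
    rw [h6, add_mul]
    rw [h5] at h2
    linarith


open Pool.Agent.R343.LP Pool.Agent.R343.LI in
/-- **Points with compressible coordinates on root stacks.** -/
theorem rootLZ (N s g q w p r : ℕ) (G : Fin g → MvPolynomial (Fin (N + 1 + s)) ℤ)
    (e : Fin g → ℕ) (hG : ∀ k, (G k).IsHomogeneous (e k))
    (F : Fin q → Fin w → MvPolynomial (Fin (N + 1 + s)) ℤ)
    (d : Fin q → Fin w → ℕ) (hF : ∀ i j, (F i j).IsHomogeneous (d i j))
    (hdim : DimGE N G) (hsm : SmoothPair s G F) (I0 : Finset (Fin q)) (m : Fin q → ℕ)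
    (hm : ∀ i ∈ I0, 1 ≤ m i) (ex : Fin q → Fin p → ℕ) (hex : ∀ i ∈ I0, ∀ l, m i ∣ ex i l)
    (hexl : ∀ l, ∃ i, ex i l ≠ 0) (Γ : Subgroup ℚˣ) (hΓ : Γ.FG) (S : Finset ℕ)
    (bx : Fin (N + 1 + s) → Fin r → ℕ) (bY : Fin p → Fin r → ℕ) (bc : Fin q → Fin w → Fin r → ℕ)
    (hbx : ∀ a i, 2 ≤ bx a i) (hbY : ∀ l i, 2 ≤ bY l i) (hbc : ∀ a j i, 2 ≤ bc a j i)
    (z : ℕ) (B0 : ℤ) (hB0 : 0 ≤ B0)
    (M0 δ : ℝ) (hM0 : 0 ≤ M0) (hδ : 0 < δ) :
    ∃ (Φ : MvPolynomial (Fin (N + 1 + s)) ℚ) (n : ℕ) (C : ℝ), Φ.IsHomogeneous n ∧ NonZeroOn G Φ ∧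
      ∀ x : Fin (N + 1 + s) → ℤ, IsPrimitive x → OnX G x →
        (∀ a, CompR Γ (bx a) z B0 (M0 * (1 + Real.log (max 1 (height x)))) (x a)) →
        (∀ i, ∃ j, eval x (F i j) ≠ 0) →
        eval (fun a => (x a : ℚ)) Φ ≠ 0 →
        ∀ (y : Fin p → ℤ) (c : Fin q → Fin w → ℤ),
          (∀ l, CompR Γ (bY l) z B0 (M0 * (1 + Real.log (max 1 (height x)))) (y l)) →
          (∀ i j, CompR Γ (bc i j) z B0 (M0 * (1 + Real.log (max 1 (height x)))) (c i j)) →
          (∀ i j, eval x (F i j) = c i j * ∏ l, y l ^ (ex i l)) →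
          (∀ i ∈ I0, ∀ r : ℕ, r.Prime → (∀ j, (r : ℤ) ∣ c i j) → r ∈ S) →
          IsIntegralPoint S F I0 m x ∧
          ∀ A : Matrix (Fin (N + 1 + s)) (Fin (N + 1)) ℤ, IsTangentBasis G x A →
            stackHeight F d I0 m x A ≤ truncatedCounting F I0 S x + δ * Real.log (height x) +
              excess S ((∏ l ∈ Finset.univ.filter (fun l => ∀ i ∈ I0, ex i l = 0), y l) *
                ∏ i ∈ I0ᶜ, Finset.univ.gcd (c i)) + C := by
  classical
  obtain ⟨J, hJ⟩ := hdim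
  let 𝒢 := {Φ : MvPolynomial (Fin (N + 1)) ℚ // (∃ e, Φ.IsHomogeneous e) ∧ Φ ≠ 0}
  haveI : Nonempty 𝒢 := ⟨⟨1, ⟨0, MvPolynomial.isHomogeneous_one _ _⟩, one_ne_zero⟩⟩
  haveI : Countable (MvPolynomial (Fin (N + 1)) ℚ) :=
    Pool.Agent.TH551.HA.countable_mvPolynomial (N + 1)
  haveI : Countable 𝒢 := inferInstance
  let 𝒳 := (Fin (N + 1 + s) → ℤ) × (Fin p → ℤ) × (Fin q → Fin w → ℤ)
  let κ := Fin (N + 1 + s) ⊕ (Fin p ⊕ (Fin q × Fin w))
  let Θ : ℝ → 𝒳 → Prop := fun C P => IsPrimitive P.1 → OnX G P.1 →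
        (∀ i, ∃ j, eval P.1 (F i j) ≠ 0) →
          (∀ i j, eval P.1 (F i j) = P.2.2 i j * ∏ l, P.2.1 l ^ (ex i l)) →
          (∀ i ∈ I0, ∀ r : ℕ, r.Prime → (∀ j, (r : ℤ) ∣ P.2.2 i j) → r ∈ S) →
          IsIntegralPoint S F I0 m P.1 ∧
          ∀ A : Matrix (Fin (N + 1 + s)) (Fin (N + 1)) ℤ, IsTangentBasis G P.1 A →
            stackHeight F d I0 m P.1 A ≤ truncatedCounting F I0 S P.1 +
              δ * Real.log (height P.1) +
              excess S ((∏ l ∈ Finset.univ.filter (fun l => ∀ i ∈ I0, ex i l = 0), P.2.1 l) *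
                ∏ i ∈ I0ᶜ, Finset.univ.gcd (P.2.2 i)) + C
  let Ψ : 𝒢 → 𝒳 → Prop := fun Φ P => aeval (fun a => (P.1 (J a) : ℚ)) Φ.1 ≠ 0
  let xx : 𝒳 → κ → ℚ := fun P => Sum.elim (fun a => (P.1 a : ℚ))
    (Sum.elim (fun l => (P.2.1 l : ℚ)) (fun ij => (P.2.2 ij.1 ij.2 : ℚ)))
  obtain ⟨C, Φ, hC⟩ := compTransferF (κ := κ) r Γ hΓ
    (Sum.elim bx (Sum.elim bY (fun ij => bc ij.1 ij.2))) (by
      rintro (a | l | ij)
      · exact hbx a
      · exact hbY l
      · exact hbc ij.1 ij.2) z B0 hB0 M0 hM0 Θ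
    (fun C C' P hCC h h1 h2 h3 h4 h5 => by
      obtain ⟨h6, h7⟩ := h h1 h2 h3 h4 h5
      exact ⟨h6, fun A hA => (h7 A hA).trans (by linarith)⟩) Ψ
    (fun G G' => ⟨⟨G.1 * G'.1, by
      obtain ⟨d, hd⟩ := G.2.1
      obtain ⟨d', hd'⟩ := G'.2.1
      exact ⟨d + d', hd.mul hd'⟩, mul_ne_zero G.2.2 G'.2.2⟩, fun P hP => by
        have h1 : aeval (fun a => (P.1 (J a) : ℚ)) (G.1 * G'.1) ≠ 0 := hP
        rw [map_mul] at h1
        exact ⟨left_ne_zero_of_mul h1, right_ne_zero_of_mul h1⟩⟩)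
    (fun P => Real.log (max 1 (height P.1))) (fun P => Real.log_nonneg (le_max_left _ _)) xx (by
    intro k Γ' hΓ' hle
    obtain ⟨Φ, C1, hGh, hG0, hall⟩ := rootD N s g q w p k G e hG F d hF J hsm I0 m hm ex hex hexl
      Γ' hΓ' S (δ / 2) (by positivity)
    obtain ⟨C2, hC2⟩ : ∃ C2 : ℝ, C2 = max C1 0 + 1 := ⟨_, rfl⟩
    have hC20 : 0 < C2 := by
      rw [hC2]
      positivity
    have hC12 : C1 ≤ C2 := by
      rw [hC2]
      linarith [le_max_left C1 0]
    refine ⟨δ / (2 * C2), by positivity,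
      C2 * (1 + δ / (2 * C2) + Real.log (B0 + 1)), ⟨Φ, hGh, hG0⟩, ?_⟩
    rintro ⟨x, y, c⟩ M D hM hD0 hDM hlM hsp hΨ hx hX hFx hfac hcS
    simp only at hx hX hFx hfac hcS hlM
    obtain ⟨h1, h2⟩ := hall M hM D hD0 hDM x hx hX (fun a => hsp (Sum.inl a)) hFx hΨ y c
      (fun l => hsp (Sum.inr (Sum.inl l))) (fun i j => hsp (Sum.inr (Sum.inr (i, j)))) hfac hcS
    refine ⟨h1, fun A hA => ?_⟩
    have h3 := h2 A hA
    have hh1 : (1 : ℝ) ≤ height x := by
      have h4 : 1 ≤ height x := by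
        by_contra hno
        have h5 : height x = 0 := by omega
        have h6 : ∀ i, x i = 0 := by
          intro i
          have h7 : (x i).natAbs ≤ height x :=
            Finset.le_sup (f := fun i => (x i).natAbs) (Finset.mem_univ i)
          omega
        have h8 : Finset.univ.gcd x = 0 := Finset.gcd_eq_zero_iff.2 fun c _ => h6 c
        have h9 : Finset.univ.gcd x = 1 := hx
        rw [h8] at h9
        exact zero_ne_one h9
      exact_mod_cast h4
    rw [max_eq_right hh1] at hlM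
    have hlM0 : 0 ≤ Real.log M := Real.log_nonneg hM
    have h4 : C1 * (1 + Real.log M) ≤ C2 * (1 + Real.log M) :=
      mul_le_mul_of_nonneg_right hC12 (by linarith)
    have h5 : C2 * (1 + Real.log M) ≤ C2 * (1 + (δ / (2 * C2) * (1 + Real.log (height x)) +
        Real.log (B0 + 1))) := by
      refine mul_le_mul_of_nonneg_left ?_ hC20.le
      linarith
    have h6 : C2 * (1 + (δ / (2 * C2) * (1 + Real.log (height x)) + Real.log (B0 + 1))) =
        C2 * (1 + δ / (2 * C2) + Real.log (B0 + 1)) + δ / 2 * Real.log (height x) := by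
      field_simp
      ring
    show stackHeight F d I0 m x A ≤ truncatedCounting F I0 S x + δ * Real.log (height x) +
      excess S ((∏ l ∈ Finset.univ.filter (fun l => ∀ i ∈ I0, ex i l = 0), y l) *
        ∏ i ∈ I0ᶜ, Finset.univ.gcd (c i)) + _
    linarith)
  obtain ⟨n, hn⟩ := Φ.2.1
  refine ⟨rename J Φ.1, n, C, hn.rename_isHomogeneous, ?_, ?_⟩
  · by_contra hcon
    apply Φ.2.2
    apply hJ
    intro z hz
    by_contra h0
    apply hcon
    refine ⟨z, hz, ?_⟩
    rw [aeval_rename]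
    exact h0
  intro x hx hX hxs hFx hΦ y c hys hcs hfac hcS
  rw [eval_rename] at hΦ
  refine hC (x, y, c) ?_ hΦ hx hX hFx hfac hcS
  rintro (a | l | ij)
  · exact hxs a
  · exact hys l
  · exact hcs ij.1 ij.2

end Pool.Agent.R343.LT
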