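import Pool.Agent.R343.LV2

set_option autoImplicit false
set_option linter.unusedSectionVars false
set_option linter.unusedVariables false

/-! # Integral points on root stacks, digits -/

namespace Pool.Agent.R343.LT

open MvPolynomial Pool.Agent.Results.MP_a41896_nt.RootStacksSparse
open Pool.Agent.R343.LP Pool.Agent.R343.LI

theorem abs_le_height {M : ℕ} (x : Fin M → ℤ) (i : Fin M) : |(x i : ℝ)| ≤ (height x : ℝ) := by
  have h3 : (x i).natAbs ≤ height x :=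
    Finset.le_sup (f := fun i => (x i).natAbs) (Finset.mem_univ i)
  have h4 : |(x i : ℝ)| = ((x i).natAbs : ℝ) := by rw [Nat.cast_natAbs, Int.cast_abs]
  rw [h4]
  exact_mod_cast h3

theorem one_le_height {M : ℕ} {x : Fin M → ℤ} (hx : IsPrimitive x) : (1 : ℝ) ≤ height x := by
  have h4 : 1 ≤ height x := by
    by_contra hno
    have h5 : height x = 0 := by omega
    have h6 : ∀ i, x i = 0 := by
      intro i
      have h7 : (x i).natAbs ≤ height x :=
        Finset.le_sup (f := fun i => (x i).natAbs) (Finset.mem_univ i)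
      omega
    have h8 : Finset.univ.gcd x = 0 := Finset.gcd_eq_zero_iff.2 fun c _ => h6 c
    have h9 : Finset.univ.gcd x = 1 := hx
    rw [h8] at h9
    exact zero_ne_one h9
  exact_mod_cast h4

/-- values of integral polynomials -/
theorem log_eval_le {M q w : ℕ} (F : Fin q → Fin w → MvPolynomial (Fin M) ℤ) :
    ∃ S : ℝ, 0 ≤ S ∧ ∀ (x : Fin M → ℤ), (1 : ℝ) ≤ height x → ∀ i j,
      Real.log (max 1 |((eval x (F i j) : ℤ) : ℝ)|) ≤ S * (1 + Real.log (height x)) := by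
  classical
  let cc : Fin q × Fin w → ℝ := fun t => ∑ α ∈ (Pool.Agent.Y731.GV.toQ (F t.1 t.2)).support,
    |(((Pool.Agent.Y731.GV.toQ (F t.1 t.2)).coeff α : ℚ) : ℝ)|
  let dg : Fin q × Fin w → ℕ := fun t => (Pool.Agent.Y731.GV.toQ (F t.1 t.2)).totalDegree
  have hcc : ∀ i, 0 ≤ cc i := fun i => Finset.sum_nonneg fun _ _ => abs_nonneg _
  have h3n : ∀ t, 0 ≤ Real.log (cc t + 1) + dg t := fun i =>
    add_nonneg (Real.log_nonneg (by linarith [hcc i])) (Nat.cast_nonneg _)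
  refine ⟨∑ t, (Real.log (cc t + 1) + dg t), Finset.sum_nonneg fun i _ => h3n i, ?_⟩
  intro x hX1 i j
  have hlX : 0 ≤ Real.log (height x) := Real.log_nonneg hX1
  have h3 := aeval_le (Pool.Agent.Y731.GV.toQ (F i j)) x (height x) hX1 (abs_le_height x)
  rw [Pool.Agent.Y731.GV.aeval_toQ] at h3
  have h4 : (((eval x (F i j) : ℤ) : ℚ) : ℝ) = ((eval x (F i j) : ℤ) : ℝ) := Rat.cast_intCast _
  rw [h4] at h3
  have h5 : max 1 |((eval x (F i j) : ℤ) : ℝ)| ≤ (cc (i, j) + 1) * (height x : ℝ) ^ dg (i, j) := by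
    have h6 : (1 : ℝ) ≤ (height x : ℝ) ^ dg (i, j) := one_le_pow₀ hX1
    refine max_le ?_ ?_
    · nlinarith [hcc (i, j)]
    · refine h3.trans ?_
      exact mul_le_mul_of_nonneg_right (by show cc (i, j) ≤ _; linarith) (by positivity)
  have hpos : (0 : ℝ) < height x := by linarith
  have h6 : Real.log (max 1 |((eval x (F i j) : ℤ) : ℝ)|) ≤ Real.log (cc (i, j) + 1) +
      dg (i, j) * Real.log (height x) := by
    refine (Real.log_le_log (by positivity) h5).trans ?_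
    rw [Real.log_mul (by have := hcc (i, j); positivity) (by positivity), Real.log_pow]
  have h7 : Real.log (cc (i, j) + 1) + dg (i, j) ≤ ∑ t, (Real.log (cc t + 1) + dg t) :=
    Finset.single_le_sum (f := fun t => Real.log (cc t + 1) + (dg t : ℝ))
      (fun t _ => h3n t) (Finset.mem_univ (i, j))
  have h8 : 0 ≤ Real.log (cc (i, j) + 1) := Real.log_nonneg (by linarith [hcc (i, j)])
  have h9 : (0 : ℝ) ≤ dg (i, j) := Nat.cast_nonneg _
  nlinarith [mul_nonneg h8 hlX]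

/-- the factors are bounded by the values -/
theorem factor_le {M q w p : ℕ} {F : Fin q → Fin w → MvPolynomial (Fin M) ℤ}
    {ex : Fin q → Fin p → ℕ} (hexl : ∀ l, ∃ i, ex i l ≠ 0) {x : Fin M → ℤ}
    (hFx : ∀ i, ∃ j, eval x (F i j) ≠ 0) {y : Fin p → ℤ} {c : Fin q → Fin w → ℤ}
    (hfac : ∀ i j, eval x (F i j) = c i j * ∏ l, y l ^ (ex i l)) :
    (∀ l, ∃ i j, |(y l : ℝ)| ≤ |((eval x (F i j) : ℤ) : ℝ)|) ∧
      ∀ i j, |(c i j : ℝ)| ≤ |((eval x (F i j) : ℤ) : ℝ)| := by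
  have hle : ∀ {a b : ℤ}, a ∣ b → b ≠ 0 → |(a : ℝ)| ≤ |(b : ℝ)| := by
    intro a b hab hb
    have h1 : a.natAbs ≤ b.natAbs :=
      Nat.le_of_dvd (Int.natAbs_pos.2 hb) (Int.natAbs_dvd_natAbs.2 hab)
    have h2 : (a.natAbs : ℝ) ≤ (b.natAbs : ℝ) := by exact_mod_cast h1
    rwa [Nat.cast_natAbs, Nat.cast_natAbs, Int.cast_abs, Int.cast_abs] at h2
  have hy0 : ∀ l, y l ≠ 0 := by
    intro l h0
    obtain ⟨i, hi⟩ := hexl l
    obtain ⟨j, hj⟩ := hFx i
    apply hj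
    rw [hfac, Finset.prod_eq_zero (i := l) (Finset.mem_univ _) (by rw [h0, zero_pow hi]), mul_zero]
  constructor
  · intro l
    obtain ⟨i, hi⟩ := hexl l
    obtain ⟨j, hj⟩ := hFx i
    refine ⟨i, j, hle ?_ hj⟩
    rw [hfac]
    refine Dvd.dvd.mul_left ?_ _
    refine (dvd_pow_self (y l) hi).trans ?_
    exact Finset.dvd_prod_of_mem (fun l => y l ^ (ex i l)) (Finset.mem_univ l)
  · intro i j
    by_cases h0 : c i j = 0
    · rw [h0, Int.cast_zero, abs_zero]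
      exact abs_nonneg _
    · refine hle ?_ ?_
      · rw [hfac]
        exact dvd_mul_right _ _
      · rw [hfac]
        exact mul_ne_zero h0 (Finset.prod_ne_zero_iff.2 fun l _ => pow_ne_zero _ (hy0 l))

/-- **Points with compressible digits on root stacks.** -/
theorem rootDigits (N s g q w p : ℕ) (G : Fin g → MvPolynomial (Fin (N + 1 + s)) ℤ)
    (e : Fin g → ℕ) (hG : ∀ k, (G k).IsHomogeneous (e k))
    (F : Fin q → Fin w → MvPolynomial (Fin (N + 1 + s)) ℤ)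
    (d : Fin q → Fin w → ℕ) (hF : ∀ i j, (F i j).IsHomogeneous (d i j))
    (hdim : DimGE N G) (hsm : SmoothPair s G F) (I0 : Finset (Fin q)) (m : Fin q → ℕ)
    (hm : ∀ i ∈ I0, 1 ≤ m i) (ex : Fin q → Fin p → ℕ) (hex : ∀ i ∈ I0, ∀ l, m i ∣ ex i l)
    (hexl : ∀ l, ∃ i, ex i l ≠ 0) (S : Finset ℕ)
    (bx : Fin (N + 1 + s) → ℕ) (bY : Fin p → ℕ) (bc : Fin q → Fin w → ℕ)
    (hbx : ∀ a, 2 ≤ bx a) (hbY : ∀ l, 2 ≤ bY l) (hbc : ∀ a j, 2 ≤ bc a j)
    (z : ℕ) (δ : ℝ) (hδ : 0 < δ) :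
    ∃ (Φ : MvPolynomial (Fin (N + 1 + s)) ℚ) (n : ℕ) (C : ℝ), Φ.IsHomogeneous n ∧ NonZeroOn G Φ ∧
      ∀ x : Fin (N + 1 + s) → ℤ, IsPrimitive x → OnX G x →
        (∀ a, LZDigits (bx a) z (x a)) → (∀ i, ∃ j, eval x (F i j) ≠ 0) →
        eval (fun a => (x a : ℚ)) Φ ≠ 0 →
        ∀ (y : Fin p → ℤ) (c : Fin q → Fin w → ℤ),
          (∀ l, LZDigits (bY l) z (y l)) → (∀ i j, LZDigits (bc i j) z (c i j)) →
          (∀ i j, eval x (F i j) = c i j * ∏ l, y l ^ (ex i l)) →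
          (∀ i ∈ I0, ∀ r : ℕ, r.Prime → (∀ j, (r : ℤ) ∣ c i j) → r ∈ S) →
          IsIntegralPoint S F I0 m x ∧
          ∀ A : Matrix (Fin (N + 1 + s)) (Fin (N + 1)) ℤ, IsTangentBasis G x A →
            stackHeight F d I0 m x A ≤ truncatedCounting F I0 S x + δ * Real.log (height x) +
              excess S ((∏ l ∈ Finset.univ.filter (fun l => ∀ i ∈ I0, ex i l = 0), y l) *
                ∏ i ∈ I0ᶜ, Finset.univ.gcd (c i)) + C := by
  classical
  let κ := Fin (N + 1 + s) ⊕ (Fin p ⊕ (Fin q × Fin w))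
  let bb : κ → ℕ := Sum.elim bx (Sum.elim bY (fun ij => bc ij.1 ij.2))
  have hbb : ∀ t, 2 ≤ bb t := by
    rintro (a | l | ij)
    · exact hbx a
    · exact hbY l
    · exact hbc ij.1 ij.2
  have hlb : ∀ t, 0 ≤ Real.log (bb t) := fun t => Real.log_nonneg (by
    have : 1 ≤ bb t := by have := hbb t; omega
    exact_mod_cast this)
  obtain ⟨S1, hS1⟩ : ∃ S1 : ℝ, S1 = ∑ t, Real.log (bb t) := ⟨_, rfl⟩
  have hS10 : 0 ≤ S1 := by
    rw [hS1]
    exact Finset.sum_nonneg fun t _ => hlb t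
  obtain ⟨B0, hB0⟩ : ∃ B0 : ℕ, B0 = ∑ t, bb t := ⟨_, rfl⟩
  obtain ⟨S3, hS30, hS3⟩ := log_eval_le F
  obtain ⟨Φ, n, C, hΦn, hΦ0, hC⟩ := rootLZ N s g q w p 1 G e hG F d hF hdim hsm I0 m hm ex hex hexl
    ⊥ ⟨∅, by simp⟩ S (fun a _ => bx a) (fun l _ => bY l) (fun i j _ => bc i j)
    (fun a _ => hbx a) (fun l _ => hbY l) (fun i j _ => hbc i j) z B0 (Int.natCast_nonneg _)
    (1 + S1 + S3) δ (by positivity) hδ
  refine ⟨Φ, n, C, hΦn, hΦ0, fun x hx hX hxs hFx hΦ y c hys hcs hfac hcS => ?_⟩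
  have hh := one_le_height hx
  have hlh : 0 ≤ Real.log (height x) := Real.log_nonneg hh
  obtain ⟨hf1, hf2⟩ := factor_le hexl hFx hfac
  have hwd : ∀ (t : κ) (a : ℤ), LZDigits (bb t) z a →
      Real.log (max 1 |(a : ℝ)|) ≤ (1 + S3) * (1 + Real.log (height x)) →
      CompR (⊥ : Subgroup ℚˣ) (fun _ : Fin 1 => bb t) z B0 ((1 + S1 + S3) *
        (1 + Real.log (max 1 (height x)))) (a : ℚ) := by
    intro t a ha hle
    rw [max_eq_right hh]
    refine CompR.ofDigits (hbb t) ?_ ha ?_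
    · rw [hB0]
      exact Finset.single_le_sum (f := bb) (fun _ _ => Nat.zero_le _) (Finset.mem_univ t)
    · have h1 : Real.log (bb t) ≤ S1 := by
        rw [hS1]
        exact Finset.single_le_sum (f := fun t => Real.log (bb t)) (fun t _ => hlb t)
          (Finset.mem_univ t)
      nlinarith [mul_nonneg hS10 hlh]
  have hval : ∀ (a : ℤ) i j, |(a : ℝ)| ≤ |((eval x (F i j) : ℤ) : ℝ)| →
      Real.log (max 1 |(a : ℝ)|) ≤ (1 + S3) * (1 + Real.log (height x)) := by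
    intro a i j h
    have h1 : Real.log (max 1 |(a : ℝ)|) ≤ Real.log (max 1 |((eval x (F i j) : ℤ) : ℝ)|) :=
      Real.log_le_log (by positivity) (max_le_max le_rfl h)
    have h2 := hS3 x hh i j
    nlinarith
  refine hC x hx hX (fun a => hwd (Sum.inl a) (x a) (hxs a) ?_) hFx hΦ y c
    (fun l => hwd (Sum.inr (Sum.inl l)) (y l) (hys l) ?_)
    (fun i j => hwd (Sum.inr (Sum.inr (i, j))) (c i j) (hcs i j) (hval _ i j (hf2 i j))) hfac hcS
  · have h2 : Real.log (max 1 |(x a : ℝ)|) ≤ Real.log (height x) :=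
      Real.log_le_log (by positivity) (max_le hh (abs_le_height x a))
    nlinarith [mul_nonneg hS30 hlh]
  · obtain ⟨i, j, h⟩ := hf1 l
    exact hval _ i j h

end Pool.Agent.R343.LT
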