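import Pool.Agent.R343.LUF
import Pool.Agent.R343.LU9
import Pool.Agent.Results.MP_f2148a_nt.ExponentBelowThree

set_option autoImplicit false
set_option linter.unusedSectionVars false

/-! # Hall's inequality with exponents below his for compressible integers -/

namespace Pool.Agent.R343.LT

open Finset Pool.Agent.R343.LP Pool.Agent.R343.LI

theorem hallBelowLZ (p q r : ℕ) (hp : 1 ≤ p) (hq : 1 ≤ q) (Γ : Subgroup ℚˣ) (hΓ : Γ.FG)
    (b b' : Fin r → ℕ) (hb : ∀ i, 2 ≤ b i) (hb' : ∀ i, 2 ≤ b' i) (z : ℕ) (B : ℤ)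
    (hB : 0 ≤ B) (M0 : ℝ) (hM0 : 0 ≤ M0) :
    ∃ δ : ℝ, 0 < δ ∧ ∃ K : ℝ, 0 < K ∧ ∀ x y : ℤ, y ^ q ≠ x ^ p →
      CompR Γ b z B (M0 * (1 + Real.log (max (|(x : ℝ)| ^ p) (|(y : ℝ)| ^ q)))) x →
      CompR Γ b' z B (M0 * (1 + Real.log (max (|(x : ℝ)| ^ p) (|(y : ℝ)| ^ q)))) y →
      (max (|(x : ℝ)| ^ p) (|(y : ℝ)| ^ q)) ^ (1 - 1 / (p : ℝ) - 1 / (q : ℝ) + δ) ≤
        K * |(y : ℝ) ^ q - (x : ℝ) ^ p| := by
  classical
  let Z : ℤ × ℤ → ℝ := fun P => max (|(P.1 : ℝ)| ^ p) (|(P.2 : ℝ)| ^ q)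
  obtain ⟨θ, hθ⟩ : ∃ θ : ℝ, θ = 1 - 1 / (p : ℝ) - 1 / (q : ℝ) := ⟨_, rfl⟩
  let Φ : ℝ → ℤ × ℤ → Prop := fun C P => P.2 ^ q ≠ P.1 ^ p →
    0 < C ∧ (Z P) ^ (θ + 1 / C) ≤ C * |(P.2 : ℝ) ^ q - (P.1 : ℝ) ^ p|
  have hp0 : (0 : ℝ) < p := by exact_mod_cast hp
  have hq0 : (0 : ℝ) < q := by exact_mod_cast hq
  obtain ⟨C, -, hC⟩ := compTransferF (𝒢 := Unit) (κ := Bool) r Γ hΓ
    (fun t => if t then b else b') (fun t => by
      cases t
      · simpa using hb'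
      · simpa using hb) z B hB M0 hM0 Φ
    (fun C C' P hCC h h1 => by
      obtain ⟨h2, h3⟩ := h h1
      have hZ1 : 1 ≤ Z P := one_le_max hp hq h1
      refine ⟨by linarith, ?_⟩
      have h4 : θ + 1 / C' ≤ θ + 1 / C := by
        have := one_div_le_one_div_of_le h2 hCC
        linarith
      calc (Z P) ^ (θ + 1 / C') ≤ (Z P) ^ (θ + 1 / C) := Real.rpow_le_rpow_of_exponent_le hZ1 h4
        _ ≤ C * |(P.2 : ℝ) ^ q - (P.1 : ℝ) ^ p| := h3
        _ ≤ _ := mul_le_mul_of_nonneg_right hCC (abs_nonneg _)) (fun _ _ => True)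
    (fun G G' => ⟨(), fun P hP => ⟨trivial, trivial⟩⟩)
    (fun P => Real.log (max 1 (Z P))) (fun P => Real.log_nonneg (le_max_left _ _))
    (fun P t => if t then (P.1 : ℚ) else (P.2 : ℚ)) (by
    intro k Γ' hΓ' hle
    obtain ⟨δ0, hδ0, K, hK, hall⟩ :=
      Pool.Agent.Results.MP_f2148a_nt.ExponentBelowThree.result.2.2.2 p q (k + k) hp hq Γ' hΓ'
    obtain ⟨R, hR⟩ : ∃ R : ℝ, R = K * (p + q : ℕ) + (p * q : ℕ) := ⟨_, rfl⟩
    have hR0 : 0 < R := by rw [hR]; positivity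
    have hB0 : (0 : ℝ) ≤ B := by exact_mod_cast hB
    obtain ⟨C0, hC0⟩ : ∃ C0 : ℝ, C0 = Real.exp (K * Real.log K + R * Real.log (B + 1) + δ0 / 2) :=
      ⟨_, rfl⟩
    refine ⟨δ0 / (2 * R), by positivity, max (max 1 C0) (2 / δ0), (), ?_⟩
    rintro ⟨x, y⟩ M D hM hD0 hDM hlM hsp - hne
    simp only at hne hlM
    have hZ1 : 1 ≤ Z (x, y) := one_le_max hp hq hne
    have hZ0 : 0 < Z (x, y) := by linarith
    rw [max_eq_right hZ1] at hlM
    have hlZ : 0 ≤ Real.log (Z (x, y)) := Real.log_nonneg hZ1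
    have hdiff : (1 : ℝ) ≤ |(y : ℝ) ^ q - (x : ℝ) ^ p| := by
      have h1 : (1 : ℤ) ≤ |y ^ q - x ^ p| := Int.one_le_abs (sub_ne_zero.2 hne)
      have h2 : ((1 : ℤ) : ℝ) ≤ ((|y ^ q - x ^ p| : ℤ) : ℝ) := by exact_mod_cast h1
      push_cast at h2
      exact h2
    have hCpos : (0 : ℝ) < max (max 1 C0) (2 / δ0) := by positivity
    refine ⟨hCpos, ?_⟩
    show (Z (x, y)) ^ _ ≤ _ * |(y : ℝ) ^ q - (x : ℝ) ^ p|
    have hexp : θ + 1 / max (max 1 C0) (2 / δ0) ≤ θ + δ0 / 2 := by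
      have h1 : 1 / max (max 1 C0) (2 / δ0) ≤ 1 / (2 / δ0) :=
        one_div_le_one_div_of_le (by positivity) (le_max_right _ _)
      have h2 : 1 / (2 / δ0) = δ0 / 2 := by field_simp
      linarith
    have hred : (Z (x, y)) ^ (θ + δ0 / 2) ≤ max 1 C0 * |(y : ℝ) ^ q - (x : ℝ) ^ p| →
        (Z (x, y)) ^ (θ + 1 / max (max 1 C0) (2 / δ0)) ≤
          max (max 1 C0) (2 / δ0) * |(y : ℝ) ^ q - (x : ℝ) ^ p| := fun h =>
      (Real.rpow_le_rpow_of_exponent_le hZ1 hexp).trans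
        (h.trans (mul_le_mul_of_nonneg_right (le_max_left _ _) (abs_nonneg _)))
    apply hred
    rcases le_or_gt (θ + δ0 / 2) 0 with hθ0 | hθ0
    · calc (Z (x, y)) ^ (θ + δ0 / 2) ≤ 1 := Real.rpow_le_one_of_one_le_of_nonpos hZ1 hθ0
        _ ≤ 1 * |(y : ℝ) ^ q - (x : ℝ) ^ p| := by rwa [one_mul]
        _ ≤ _ := mul_le_mul_of_nonneg_right (le_max_left _ _) (abs_nonneg _)
    obtain ⟨u, a, ha, hxa⟩ := hsp true
    obtain ⟨v, c, hc, hyc⟩ := hsp false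
    simp only [if_true, Bool.false_eq_true, if_false] at hxa hyc
    have hM0' : 0 < M := by linarith
    have hD1 : (1 : ℝ) ≤ D := by exact_mod_cast hD0
    have hMpq : (1 : ℝ) ≤ M ^ (p + q) := one_le_pow₀ hM
    have hcoef : ∀ (n : ℕ) (_ : n + 1 ≤ p + q) (t : ℤ), |(t : ℝ)| ≤ M →
        |(((D : ℤ) ^ n * t : ℤ) : ℝ)| ≤ M ^ (p + q) := by
      intro n hn t ht
      push_cast
      rw [abs_mul, abs_of_pos (show (0 : ℝ) < (D : ℝ) ^ n by positivity)]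
      calc (D : ℝ) ^ n * |(t : ℝ)| ≤ M ^ n * M :=
            mul_le_mul (pow_le_pow_left₀ (by positivity) hDM n) ht (abs_nonneg _) (by positivity)
        _ = M ^ (n + 1) := by rw [pow_succ]
        _ ≤ _ := pow_le_pow_right₀ hM hn
    have hx' : (((D : ℤ) ^ q * x : ℤ) : ℚ) = ∑ j, (((Fin.append u v j : Γ') : ℚˣ) : ℚ) *
        (Fin.append (fun j => (D : ℤ) ^ (q - 1) * a j) (fun _ => 0) j : ℤ) := by
      rw [Fin.sum_univ_add]
      simp only [Fin.append_left, Fin.append_right, Int.cast_zero, mul_zero, Finset.sum_const_zero,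
        add_zero]
      have h1 : ∀ j, ((u j : ℚˣ) : ℚ) * (((D : ℤ) ^ (q - 1) * a j : ℤ) : ℚ) =
          (D : ℚ) ^ (q - 1) * (((u j : ℚˣ) : ℚ) * a j) := by
        intro j
        push_cast
        ring
      simp_rw [h1]
      rw [← Finset.mul_sum, ← hxa]
      push_cast
      have h2 : (D : ℚ) ^ q = (D : ℚ) ^ (q - 1) * D := by rw [← pow_succ, Nat.sub_add_cancel hq]
      rw [h2]
      ring
    have hy' : (((D : ℤ) ^ p * y : ℤ) : ℚ) = ∑ j, (((Fin.append u v j : Γ') : ℚˣ) : ℚ) *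
        (Fin.append (fun _ => 0) (fun j => (D : ℤ) ^ (p - 1) * c j) j : ℤ) := by
      rw [Fin.sum_univ_add]
      simp only [Fin.append_left, Fin.append_right, Int.cast_zero, mul_zero, Finset.sum_const_zero,
        zero_add]
      have h1 : ∀ j, ((v j : ℚˣ) : ℚ) * (((D : ℤ) ^ (p - 1) * c j : ℤ) : ℚ) =
          (D : ℚ) ^ (p - 1) * (((v j : ℚˣ) : ℚ) * c j) := by
        intro j
        push_cast
        ring
      simp_rw [h1]
      rw [← Finset.mul_sum, ← hyc]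
      push_cast
      have h2 : (D : ℚ) ^ p = (D : ℚ) ^ (p - 1) * D := by rw [← pow_succ, Nat.sub_add_cancel hp]
      rw [h2]
      ring
    have hDDZ : (D : ℤ) ≠ 0 := by exact_mod_cast hD0.ne'
    have hpow : ∀ x y : ℤ, ((D : ℤ) ^ p * y) ^ q - ((D : ℤ) ^ q * x) ^ p =
        (D : ℤ) ^ (p * q) * (y ^ q - x ^ p) := by
      intro x y
      rw [mul_pow, mul_pow, ← pow_mul, ← pow_mul, mul_comm q p]
      ring
    have hne' : ((D : ℤ) ^ p * y) ^ q ≠ ((D : ℤ) ^ q * x) ^ p := by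
      intro h1
      have h2 := hpow x y
      rw [h1, sub_self] at h2
      rcases mul_eq_zero.1 h2.symm with h3 | h3
      · exact pow_ne_zero _ hDDZ h3
      · exact hne (sub_eq_zero.1 h3)
    have hmain := hall (M ^ (p + q)) hMpq (Fin.append u v)
      (Fin.append (fun j => (D : ℤ) ^ (q - 1) * a j) (fun _ => 0))
      (Fin.append (fun _ => 0) (fun j => (D : ℤ) ^ (p - 1) * c j))
      (fun j => by
        refine Fin.addCases (fun j => ?_) (fun j => ?_) j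
        · rw [Fin.append_left]
          exact hcoef (q - 1) (by omega) _ (ha j)
        · rw [Fin.append_right, Int.cast_zero, abs_zero]
          linarith)
      (fun j => by
        refine Fin.addCases (fun j => ?_) (fun j => ?_) j
        · rw [Fin.append_left, Int.cast_zero, abs_zero]
          linarith
        · rw [Fin.append_right]
          exact hcoef (p - 1) (by omega) _ (hc j)) _ _ hx' hy' hne'
    have hmaxeq : max (|(((D : ℤ) ^ q * x : ℤ) : ℝ)| ^ p) (|(((D : ℤ) ^ p * y : ℤ) : ℝ)| ^ q) =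
        (D : ℝ) ^ (p * q) * Z (x, y) := by
      show _ = (D : ℝ) ^ (p * q) * max (|(x : ℝ)| ^ p) (|(y : ℝ)| ^ q)
      rw [mul_max_of_nonneg _ _ (by positivity)]
      push_cast
      rw [abs_mul, abs_mul, mul_pow, mul_pow, abs_of_pos (show (0 : ℝ) < (D : ℝ) ^ q by positivity),
        abs_of_pos (show (0 : ℝ) < (D : ℝ) ^ p by positivity), ← pow_mul, ← pow_mul, mul_comm q p]
    have hdiffeq : |(((D : ℤ) ^ p * y : ℤ) : ℝ) ^ q - (((D : ℤ) ^ q * x : ℤ) : ℝ) ^ p| =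
        (D : ℝ) ^ (p * q) * |(y : ℝ) ^ q - (x : ℝ) ^ p| := by
      have h1 : (((D : ℤ) ^ p * y : ℤ) : ℝ) ^ q - (((D : ℤ) ^ q * x : ℤ) : ℝ) ^ p =
          (D : ℝ) ^ (p * q) * ((y : ℝ) ^ q - (x : ℝ) ^ p) := by
        have h2 := congrArg (fun n : ℤ => (n : ℝ)) (hpow x y)
        push_cast at h2
        push_cast
        exact h2
      rw [h1, abs_mul, abs_of_pos (by positivity)]
    rw [hmaxeq, hdiffeq, ← hθ] at hmain
    obtain ⟨Δ, hΔ⟩ : ∃ Δ : ℝ, Δ = |(y : ℝ) ^ q - (x : ℝ) ^ p| := ⟨_, rfl⟩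
    rw [← hΔ] at hmain hdiff ⊢
    have hΔ0 : 0 < Δ := by linarith
    have hs : 0 < θ + δ0 := by linarith
    have h1 : (Z (x, y)) ^ (θ + δ0) ≤ (K * M ^ (p + q)) ^ K * ((D : ℝ) ^ (p * q) * Δ) := by
      refine le_trans ?_ hmain
      refine Real.rpow_le_rpow hZ0.le ?_ hs.le
      have h2 : (1 : ℝ) ≤ (D : ℝ) ^ (p * q) := one_le_pow₀ hD1
      nlinarith
    have h1' : (Z (x, y)) ^ (θ + δ0) ≤ (K * M ^ (p + q)) ^ K * (M ^ (p * q) * Δ) := by
      refine h1.trans ?_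
      refine mul_le_mul_of_nonneg_left ?_ (by positivity)
      exact mul_le_mul_of_nonneg_right (pow_le_pow_left₀ (by positivity) hDM _) hΔ0.le
    have h2 : (Z (x, y)) ^ (θ + δ0 / 2) =
        (Z (x, y)) ^ (θ + δ0) * (Z (x, y)) ^ (-(δ0 / 2)) := by
      rw [← Real.rpow_add hZ0]
      congr 1
      ring
    have hKM : 0 < K * M ^ (p + q) := by positivity
    have h3 : (K * M ^ (p + q)) ^ K * M ^ (p * q) * (Z (x, y)) ^ (-(δ0 / 2)) ≤ C0 := by
      have e1 : (K * M ^ (p + q)) ^ K = Real.exp (Real.log (K * M ^ (p + q)) * K) :=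
        Real.rpow_def_of_pos hKM _
      have e2 : M ^ (p * q) = Real.exp ((p * q : ℕ) * Real.log M) := by
        rw [Real.exp_nat_mul, Real.exp_log hM0']
      have e3 : (Z (x, y)) ^ (-(δ0 / 2)) = Real.exp (Real.log (Z (x, y)) * (-(δ0 / 2))) :=
        Real.rpow_def_of_pos hZ0 _
      have e4 : Real.log (K * M ^ (p + q)) = Real.log K + (p + q : ℕ) * Real.log M := by
        rw [Real.log_mul (by positivity) (by positivity), Real.log_pow]
      rw [e1, e2, e3, ← Real.exp_add, ← Real.exp_add, e4, hC0]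
      refine Real.exp_le_exp.2 ?_
      have e5 : R * Real.log M ≤ R * (δ0 / (2 * R) * (1 + Real.log (Z (x, y))) +
          Real.log (B + 1)) := mul_le_mul_of_nonneg_left hlM hR0.le
      have e6 : R * (δ0 / (2 * R) * (1 + Real.log (Z (x, y))) + Real.log (B + 1)) =
          δ0 / 2 * (1 + Real.log (Z (x, y))) + R * Real.log (B + 1) := by
        field_simp
      have e7 : (Real.log K + (p + q : ℕ) * Real.log M) * K + (p * q : ℕ) * Real.log M =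
          K * Real.log K + R * Real.log M := by
        rw [hR]
        ring
      linarith
    calc (Z (x, y)) ^ (θ + δ0 / 2)
        = (Z (x, y)) ^ (θ + δ0) * (Z (x, y)) ^ (-(δ0 / 2)) := h2
      _ ≤ ((K * M ^ (p + q)) ^ K * (M ^ (p * q) * Δ)) * (Z (x, y)) ^ (-(δ0 / 2)) :=
          mul_le_mul_of_nonneg_right h1' (by positivity)
      _ = ((K * M ^ (p + q)) ^ K * M ^ (p * q) * (Z (x, y)) ^ (-(δ0 / 2))) * Δ := by ring
      _ ≤ C0 * Δ := mul_le_mul_of_nonneg_right h3 hΔ0.le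
      _ ≤ _ := mul_le_mul_of_nonneg_right (le_max_right _ _) hΔ0.le)
  have hmono : ∀ C C' P, C ≤ C' → Φ C P → Φ C' P := by
    intro C C' P hCC h h1
    obtain ⟨h2, h3⟩ := h h1
    have hZ1 : 1 ≤ Z P := one_le_max hp hq h1
    refine ⟨by linarith, ?_⟩
    have h4 : θ + 1 / C' ≤ θ + 1 / C := by
      have := one_div_le_one_div_of_le h2 hCC
      linarith
    calc (Z P) ^ (θ + 1 / C') ≤ (Z P) ^ (θ + 1 / C) := Real.rpow_le_rpow_of_exponent_le hZ1 h4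
      _ ≤ C * |(P.2 : ℝ) ^ q - (P.1 : ℝ) ^ p| := h3
      _ ≤ _ := mul_le_mul_of_nonneg_right hCC (abs_nonneg _)
  refine ⟨1 / max C 1, by positivity, max C 1, by positivity, fun x y hne hx hy => ?_⟩
  have hZ1 : 1 ≤ Z (x, y) := one_le_max hp hq hne
  have h1 := hC (x, y) (fun t => by
    rw [max_eq_right hZ1]
    cases t
    · simpa using hy
    · simpa using hx) trivial
  have h2 := hmono C (max C 1) (x, y) (le_max_left _ _) h1 hne
  rw [← hθ]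
  exact h2.2

/-- Mordell's equation -/
theorem mordellBelow {δ K : ℝ} (hδ : 0 < δ) (hK : 0 < K) {k x y : ℤ} (hk : k ≠ 0)
    (hxy : y ^ 2 = x ^ 3 + k)
    (h : (max (|(x : ℝ)| ^ 3) (|(y : ℝ)| ^ 2)) ^ (1 - 1 / ((3 : ℕ) : ℝ) - 1 / ((2 : ℕ) : ℝ) + δ) ≤
        K * |(y : ℝ) ^ 2 - (x : ℝ) ^ 3|) :
    |(x : ℝ)| ≤ (max K 1) ^ (2 : ℝ) * |(k : ℝ)| ^ (2 - 12 * δ / (1 + 6 * δ)) ∧
      |(y : ℝ)| ≤ (max K 1) ^ (3 : ℝ) * |(k : ℝ)| ^ (3 - 12 * δ / (1 + 6 * δ)) := by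
  have hkk : (y : ℝ) ^ 2 - (x : ℝ) ^ 3 = k := by
    have h1 : ((y ^ 2 : ℤ) : ℝ) = ((x ^ 3 + k : ℤ) : ℝ) := by rw [hxy]
    push_cast at h1
    linarith
  rw [hkk] at h
  have hk1 : (1 : ℝ) ≤ |(k : ℝ)| := by exact_mod_cast Int.one_le_abs hk
  obtain ⟨κ, hκ⟩ : ∃ κ, κ = |(k : ℝ)| := ⟨_, rfl⟩
  rw [← hκ] at h hk1 ⊢
  have hK1 : 1 ≤ max K 1 := le_max_right _ _
  have hKκ : 1 ≤ max K 1 * κ := by nlinarith
  have hKκ0 : 0 ≤ max K 1 * κ := by linarith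
  have h6 : (1 : ℝ) - 1 / ((3 : ℕ) : ℝ) - 1 / ((2 : ℕ) : ℝ) + δ = (1 + 6 * δ) / 6 := by
    push_cast
    ring
  rw [h6] at h
  have hd : 0 < 1 + 6 * δ := by linarith
  have hZn : 0 ≤ max (|(x : ℝ)| ^ 3) (|(y : ℝ)| ^ 2) := le_max_of_le_left (by positivity)
  have hZ : max (|(x : ℝ)| ^ 3) (|(y : ℝ)| ^ 2) ≤ (max K 1 * κ) ^ (6 / (1 + 6 * δ)) := by
    have h1 : (max (|(x : ℝ)| ^ 3) (|(y : ℝ)| ^ 2)) ^ ((1 + 6 * δ) / 6) ≤ max K 1 * κ :=
      h.trans (mul_le_mul_of_nonneg_right (le_max_left _ _) (by linarith))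
    have h2 := Real.rpow_le_rpow (Real.rpow_nonneg hZn _) h1
      (show 0 ≤ 6 / (1 + 6 * δ) by positivity)
    rw [← Real.rpow_mul hZn] at h2
    have h3 : (1 + 6 * δ) / 6 * (6 / (1 + 6 * δ)) = 1 := by field_simp
    rwa [h3, Real.rpow_one] at h2
  have hsub : 12 * δ / (1 + 6 * δ) = 2 - 2 / (1 + 6 * δ) := by field_simp; ring
  have key : ∀ (n : ℕ) (t : ℝ), 0 ≤ t → 2 ≤ n → n ≤ 3 → t ^ n ≤ max (|(x : ℝ)| ^ 3) (|(y : ℝ)| ^ 2) →
      t ≤ (max K 1 * κ) ^ (6 / (n * (1 + 6 * δ))) := by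
    intro n t ht hn2 hn3 htn
    have hn0 : (0 : ℝ) < n := by
      have : 0 < n := by omega
      exact_mod_cast this
    have h1 := Real.rpow_le_rpow (pow_nonneg ht n) (htn.trans hZ) (show 0 ≤ 1 / (n : ℝ) by positivity)
    rw [← Real.rpow_natCast t n, ← Real.rpow_mul ht, ← Real.rpow_mul hKκ0,
      mul_one_div_cancel hn0.ne', Real.rpow_one] at h1
    have h2 : 6 / (1 + 6 * δ) * (1 / (n : ℝ)) = 6 / (n * (1 + 6 * δ)) := by field_simp
    rwa [h2] at h1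
  have hκ0 : 0 ≤ κ := by linarith
  constructor
  · have h1 := key 3 |(x : ℝ)| (abs_nonneg _) (by norm_num) (by norm_num) (le_max_left _ _)
    have h2 : 6 / (((3 : ℕ) : ℝ) * (1 + 6 * δ)) = 2 - 12 * δ / (1 + 6 * δ) := by
      push_cast
      field_simp
      ring
    rw [h2, Real.mul_rpow (by linarith) hκ0] at h1
    refine h1.trans (mul_le_mul_of_nonneg_right ?_ (Real.rpow_nonneg hκ0 _))
    refine Real.rpow_le_rpow_of_exponent_le hK1 ?_
    have : 0 < 12 * δ / (1 + 6 * δ) := by positivity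
    linarith
  · have h1 := key 2 |(y : ℝ)| (abs_nonneg _) (by norm_num) (by norm_num) (le_max_right _ _)
    have h2 : 6 / (((2 : ℕ) : ℝ) * (1 + 6 * δ)) = 3 - 18 * δ / (1 + 6 * δ) := by
      push_cast
      field_simp
      ring
    rw [h2, Real.mul_rpow (by linarith) hκ0] at h1
    have h3 : 12 * δ / (1 + 6 * δ) ≤ 18 * δ / (1 + 6 * δ) := by
      apply div_le_div_of_nonneg_right _ hd.le
      linarith
    have h4 : 0 < 18 * δ / (1 + 6 * δ) := by positivity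
    refine h1.trans ?_
    exact mul_le_mul (Real.rpow_le_rpow_of_exponent_le hK1 (by linarith))
      (Real.rpow_le_rpow_of_exponent_le hk1 (by linarith)) (Real.rpow_nonneg hκ0 _)
      (by positivity)

end Pool.Agent.R343.LT
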