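import Mathlib
import Pool.Agent.Y780.Cz.Main1

set_option autoImplicit false

/-!
# Lempel-Ziv parses of the parity words of the 3x+1 map
-/

open Finset

namespace Pool.Agent.R343.LZ

open Pool.Agent.Y780.Cz

/-- Lempel-Ziv parse of `w 0, ..., w (n-1)` into `z` phrases -/
def Phrases (w : ℕ → ℤ) (n z : ℕ) : Prop :=
  ∃ t : ℕ → ℕ, t 0 = 0 ∧ t z = n ∧ ∀ k < z, t k < t (k + 1) ∧
    (t (k + 1) = t k + 1 ∨ ∃ j < t k, ∀ i, t k + i + 1 < t (k + 1) → w (t k + i) = w (j + i))

/-- the size in binary digits -/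
noncomputable def lg (x : ℤ) : ℝ := Real.logb 2 (|(x : ℝ)| + 1)

lemma lg_nonneg (x : ℤ) : 0 ≤ lg x :=
  Real.logb_nonneg (by norm_num) (by have := abs_nonneg (x : ℝ); linarith)

/-- `log 3 / log 2` -/
noncomputable def dl : ℝ := Real.logb 2 3

lemma dl_gt : 1 < dl := by
  unfold dl
  rw [Real.lt_logb_iff_rpow_lt (by norm_num) (by norm_num), Real.rpow_one]; norm_num

lemma lg_T (x : ℤ) : lg (T 3 1 x) ≤ lg x + (dl - 1) := by
  have h := abs_T_le (q := 3) (k := 1) (by norm_num) (by norm_num) (by norm_num) x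
  push_cast at h
  rw [abs_one] at h
  have h0 := abs_nonneg (x : ℝ)
  have h1 := abs_nonneg (T 3 1 x : ℝ)
  unfold lg dl
  have h2 : Real.logb 2 (|(T 3 1 x : ℝ)| + 1) ≤ Real.logb 2 (3 / 2 * (|(x : ℝ)| + 1)) :=
    Real.logb_le_logb_of_le (by norm_num) (by linarith) h
  rw [Real.logb_mul (by norm_num) (by linarith), Real.logb_div (by norm_num) (by norm_num),
    Real.logb_self_eq_one (by norm_num)] at h2
  linarith

lemma lg_iter (x : ℤ) (i : ℕ) : lg ((T 3 1)^[i] x) ≤ lg x + i * (dl - 1) := by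
  induction i with
  | zero => simp
  | succ i ih =>
    rw [Function.iterate_succ_apply']
    have h := lg_T ((T 3 1)^[i] x)
    push_cast
    linarith

lemma phrase_le (x : ℤ) (n a b : ℕ) (hinj : ∀ i < n, ∀ j < n, (T 3 1)^[i] x = (T 3 1)^[j] x → i = j)
    (ha : a < n) (hab : a < b)
    (h : b = a + 1 ∨ ∃ j < a, ∀ i, a + i + 1 < b → (T 3 1)^[a + i] x % 2 = (T 3 1)^[j + i] x % 2)
    (U : ℝ) (hU : ∀ i ≤ a, 2 + lg ((T 3 1)^[i] x) ≤ U) : (b : ℝ) - a ≤ U := by
  have hU2 : 2 ≤ U := by
    have h1 := hU a le_rfl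
    have h2 := lg_nonneg ((T 3 1)^[a] x)
    linarith
  rcases h with h | ⟨j, hj, h⟩
  · rw [h]; push_cast; linarith
  · obtain ⟨g, hg⟩ : ∃ g, b = a + 1 + g := ⟨b - (a + 1), by omega⟩
    have hne : (T 3 1)^[a] x ≠ (T 3 1)^[j] x := fun he => by
      have := hinj a ha j (by omega) he
      omega
    have h1 := run_le (q := 3) (k := 1) (by norm_num) (by norm_num) g ((T 3 1)^[a] x) ((T 3 1)^[j] x) hne
      (fun i hi => by
        rw [← Function.iterate_add_apply, ← Function.iterate_add_apply, Nat.add_comm i a,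
          Nat.add_comm i j]
        exact h i (by omega))
    have h2 : Real.logb 2 (mx 1 ((T 3 1)^[a] x) ((T 3 1)^[j] x)) ≤ U - 2 := by
      unfold mx
      push_cast
      rw [abs_one]
      have ha' := hU a le_rfl
      have hj' := hU j (by omega)
      unfold lg at ha' hj'
      rcases max_choice |(((T 3 1)^[a] x : ℤ) : ℝ)| |(((T 3 1)^[j] x : ℤ) : ℝ)| with e | e <;>
        rw [e] <;> linarith
    rw [hg]
    push_cast
    linarith

lemma mono_t {z : ℕ} {t : ℕ → ℕ} (h : ∀ k < z, t k < t (k + 1)) {a b : ℕ} (hab : a ≤ b) (hb : b ≤ z) :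
    t a ≤ t b := by
  induction b, hab using Nat.le_induction with
  | base => exact le_rfl
  | succ b hab ih => exact (ih (by omega)).trans (h b (by omega)).le

/-- the bound for trajectories -/
theorem traj (x : ℤ) (n z : ℕ) (hinj : ∀ i < n, ∀ j < n, (T 3 1)^[i] x = (T 3 1)^[j] x → i = j)
    (hP : Phrases (fun i => (T 3 1)^[i] x % 2) n z) :
    (n : ℝ) ≤ (2 + lg x) * ∑ k ∈ range z, dl ^ k := by
  obtain ⟨t, h0, hz, h⟩ := hP
  have hd := dl_gt
  have hlt : ∀ k < z, t k < n := fun k hk =>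
    lt_of_lt_of_le (h k hk).1 ((mono_t (fun k hk => (h k hk).1) (show k + 1 ≤ z from hk) le_rfl).trans hz.le)
  have key : ∀ k ≤ z, (t k : ℝ) ≤ (2 + lg x) * ∑ j ∈ range k, dl ^ j ∧
      ∀ i ≤ t k, 2 + lg ((T 3 1)^[i] x) ≤ (2 + lg x) * dl ^ k := by
    intro k
    induction k with
    | zero =>
      intro _
      rw [h0]
      refine ⟨by simp, fun i hi => ?_⟩
      have : i = 0 := by omega
      rw [this]; simp
    | succ k ih =>
      intro hk
      obtain ⟨h1, h2⟩ := ih (by omega)
      have h3 := phrase_le x n (t k) (t (k + 1)) hinj (hlt k (by omega)) (h k (by omega)).1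
        (h k (by omega)).2 _ h2
      have hpos : 0 ≤ (2 + lg x) * dl ^ k := by
        have := lg_nonneg x
        positivity
      refine ⟨?_, fun i hi => ?_⟩
      · rw [Finset.sum_range_succ, mul_add]
        linarith
      · have e : (2 + lg x) * dl ^ (k + 1) = (2 + lg x) * dl ^ k + (dl - 1) * ((2 + lg x) * dl ^ k) := by
          rw [pow_succ]; ring
        rcases Nat.lt_or_ge i (t k) with hik | hik
        · have := h2 i hik.le
          rw [e]
          have h5 : 0 ≤ (dl - 1) * ((2 + lg x) * dl ^ k) := mul_nonneg (by linarith) hpos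
          linarith
        · obtain ⟨c, rfl⟩ := Nat.exists_eq_add_of_le hik
          have h4 := lg_iter ((T 3 1)^[t k] x) c
          rw [← Function.iterate_add_apply, Nat.add_comm c (t k)] at h4
          have h5 := h2 (t k) le_rfl
          have h6 : (c : ℝ) ≤ (2 + lg x) * dl ^ k := by
            have : ((t k + c : ℕ) : ℝ) ≤ t (k + 1) := by exact_mod_cast hi
            push_cast at this
            linarith
          have h7 : (c : ℝ) * (dl - 1) ≤ ((2 + lg x) * dl ^ k) * (dl - 1) :=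
            mul_le_mul_of_nonneg_right h6 (by linarith)
          rw [e]
          linarith
  have := (key z le_rfl).1
  rwa [hz] at this

/-- the bound by the largest term -/
theorem traj_max (x : ℤ) (n z : ℕ) (hinj : ∀ i < n, ∀ j < n, (T 3 1)^[i] x = (T 3 1)^[j] x → i = j)
    (hP : Phrases (fun i => (T 3 1)^[i] x % 2) n z) (M : ℝ) (hM : ∀ i < n, |(((T 3 1)^[i] x : ℤ) : ℝ)| ≤ M) :
    (n : ℝ) ≤ z * (2 + Real.logb 2 (M + 1)) := by
  obtain ⟨t, h0, hz, h⟩ := hP
  have hlt : ∀ k < z, t k < n := fun k hk =>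
    lt_of_lt_of_le (h k hk).1 ((mono_t (fun k hk => (h k hk).1) (show k + 1 ≤ z from hk) le_rfl).trans hz.le)
  have key : ∀ k ≤ z, (t k : ℝ) ≤ k * (2 + Real.logb 2 (M + 1)) := by
    intro k
    induction k with
    | zero => intro _; rw [h0]; simp
    | succ k ih =>
      intro hk
      have h1 := ih (by omega)
      have h3 := phrase_le x n (t k) (t (k + 1)) hinj (hlt k (by omega)) (h k (by omega)).1
        (h k (by omega)).2 (2 + Real.logb 2 (M + 1)) (by
          intro i hi
          have h4 := hM i (by have := hlt k (by omega); omega)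
          have h5 : lg ((T 3 1)^[i] x) ≤ Real.logb 2 (M + 1) :=
            Real.logb_le_logb_of_le (by norm_num) (by have := abs_nonneg (((T 3 1)^[i] x : ℤ) : ℝ); linarith)
              (by linarith)
          linarith)
      push_cast
      linarith
  have := key z le_rfl
  rwa [hz] at this

lemma geom (z : ℕ) : ∑ k ∈ range z, dl ^ k ≤ dl ^ z / (dl - 1) := by
  have hd := dl_gt
  rw [geom_sum_eq hd.ne']
  apply div_le_div_of_nonneg_right _ (by linarith)
  linarith

end Pool.Agent.R343.LZ
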