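import Mathlib
import Pool.Agent.R343.LZ1

set_option autoImplicit false

/-!
# Classification of the cycles with a short Lempel-Ziv parse
-/

open Finset

namespace Pool.Agent.R343.LZ

open Pool.Agent.Y780.Cz Pool.Agent.W42.Form

/-- best approximation from the other side -/
theorem cf' {q1 r1 q2 r2 : ℤ} (hdet : q1 * r2 - q2 * r1 = 1) (hq1 : 0 < q1) (hq2 : 0 < q2)
    (hA : 0 < (q1 : ℝ) * Real.log 2 - r1 * Real.log 3)
    (hB : 0 < (r2 : ℝ) * Real.log 3 - q2 * Real.log 2) (p o : ℤ) (hp : 0 < p) (hp2 : p < q1) :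
    (r2 : ℝ) * Real.log 3 - q2 * Real.log 2 ≤ |(p : ℝ) * Real.log 2 - o * Real.log 3| := by
  obtain ⟨s, hs⟩ : ∃ s, s = p * r2 - o * q2 := ⟨_, rfl⟩
  obtain ⟨t, ht⟩ : ∃ t, t = q1 * o - r1 * p := ⟨_, rfl⟩
  have e1 : p = q1 * s + q2 * t := by
    rw [hs, ht]; linear_combination (-p) * hdet
  have e2 : o = r1 * s + r2 * t := by
    rw [hs, ht]; linear_combination (-o) * hdet
  set A := (q1 : ℝ) * Real.log 2 - r1 * Real.log 3 with hAd
  set B := (r2 : ℝ) * Real.log 3 - q2 * Real.log 2 with hBd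
  have e : (p : ℝ) * Real.log 2 - o * Real.log 3 = s * A - t * B := by
    rw [e1, e2, hAd, hBd]; push_cast; ring
  rw [e]
  rcases lt_trichotomy s 0 with h | h | h
  · have ht1 : 1 ≤ t := by
      by_contra hcon
      push Not at hcon
      have : t ≤ 0 := by omega
      nlinarith
    have hs' : (s : ℝ) ≤ -1 := by
      have : s ≤ -1 := by omega
      exact_mod_cast this
    have ht' : (1 : ℝ) ≤ t := by exact_mod_cast ht1
    rw [le_abs]; right
    nlinarith
  · have ht1 : 1 ≤ t := by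
      by_contra hcon
      push Not at hcon
      have : t ≤ 0 := by omega
      rw [h] at e1
      nlinarith
    have ht' : (1 : ℝ) ≤ t := by exact_mod_cast ht1
    rw [h]
    rw [le_abs]; right
    push_cast
    nlinarith
  · have ht1 : t ≤ -1 := by
      by_contra hcon
      push Not at hcon
      have : 0 ≤ t := by omega
      nlinarith
    have ht' : (t : ℝ) ≤ -1 := by exact_mod_cast ht1
    have hs' : (1 : ℝ) ≤ s := by
      have : 1 ≤ s := by omega
      exact_mod_cast this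
    rw [le_abs]; left
    nlinarith

theorem log_ratio' {a b : ℕ} {ε : ℝ} (h : (2 : ℝ) ^ a ≤ 3 ^ b * (1 - ε)) :
    ε ≤ (b : ℝ) * Real.log 3 - a * Real.log 2 := by
  have e : (b : ℝ) * Real.log 3 - a * Real.log 2 = - Real.log (2 ^ a / 3 ^ b) := by
    rw [Real.log_div (by positivity) (by positivity), Real.log_pow, Real.log_pow]; ring
  rw [e]
  have h1 : Real.log (2 ^ a / 3 ^ b) ≤ 2 ^ a / 3 ^ b - 1 := Real.log_le_sub_one_of_pos (by positivity)
  have h2 : (2 : ℝ) ^ a / 3 ^ b ≤ 1 - ε := by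
    rw [div_le_iff₀ (by positivity)]; linarith
  linarith

theorem log_ratio_up {a b : ℕ} {ε : ℝ} (h : (3 : ℝ) ^ b ≤ 2 ^ a * (1 + ε)) :
    (b : ℝ) * Real.log 3 - a * Real.log 2 ≤ ε := by
  have e : (b : ℝ) * Real.log 3 - a * Real.log 2 = Real.log (3 ^ b / 2 ^ a) := by
    rw [Real.log_div (by positivity) (by positivity), Real.log_pow, Real.log_pow]
  rw [e]
  have h1 : Real.log (3 ^ b / 2 ^ a) ≤ 3 ^ b / 2 ^ a - 1 := Real.log_le_sub_one_of_pos (by positivity)
  have h2 : (3 : ℝ) ^ b / 2 ^ a ≤ 1 + ε := by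
    rw [div_le_iff₀ (by positivity)]; linarith
  linarith

theorem nt1 : 2 ^ 84 * 1000 ≤ 3 ^ 53 * 998 := by decide +kernel
theorem nt2 : 2 ^ 1054 * 10000000 ≤ 3 ^ 665 * 9999565 := by decide +kernel
theorem nt3 : 3 ^ 665 * 100000 ≤ 2 ^ 1054 * 100005 := by decide +kernel

theorem b84 : (0.002 : ℝ) ≤ ((53 : ℕ) : ℝ) * Real.log 3 - ((84 : ℕ) : ℝ) * Real.log 2 := by
  apply log_ratio'
  have h : ((2 ^ 84 * 1000 : ℕ) : ℝ) ≤ ((3 ^ 53 * 998 : ℕ) : ℝ) := by exact_mod_cast nt1
  rw [Nat.cast_mul, Nat.cast_mul, Nat.cast_pow, Nat.cast_pow] at h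
  have : (1 : ℝ) - 0.002 = 998 / 1000 := by norm_num
  rw [this, ← mul_div_assoc, le_div_iff₀ (by norm_num)]
  exact_mod_cast h

theorem b1054 : (0.0000435 : ℝ) ≤ ((665 : ℕ) : ℝ) * Real.log 3 - ((1054 : ℕ) : ℝ) * Real.log 2 := by
  apply log_ratio'
  have h : ((2 ^ 1054 * 10000000 : ℕ) : ℝ) ≤ ((3 ^ 665 * 9999565 : ℕ) : ℝ) := by exact_mod_cast nt2
  rw [Nat.cast_mul, Nat.cast_mul, Nat.cast_pow, Nat.cast_pow] at h
  have : (1 : ℝ) - 0.0000435 = 9999565 / 10000000 := by norm_num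
  rw [this, ← mul_div_assoc, le_div_iff₀ (by norm_num)]
  exact_mod_cast h

theorem b1054u : ((665 : ℕ) : ℝ) * Real.log 3 - ((1054 : ℕ) : ℝ) * Real.log 2 ≤ 0.00005 := by
  apply log_ratio_up
  have h : ((3 ^ 665 * 100000 : ℕ) : ℝ) ≤ ((2 ^ 1054 * 100005 : ℕ) : ℝ) := by exact_mod_cast nt3
  rw [Nat.cast_mul, Nat.cast_mul, Nat.cast_pow, Nat.cast_pow] at h
  have : (1 : ℝ) + 0.00005 = 100005 / 100000 := by norm_num
  rw [this, ← mul_div_assoc, le_div_iff₀ (by norm_num)]
  exact_mod_cast h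

theorem a485 : (0 : ℝ) < ((485 : ℕ) : ℝ) * Real.log 2 - ((306 : ℕ) : ℝ) * Real.log 3 := by
  have h1 : (0.00102 : ℝ) ≤ ((485 : ℕ) : ℝ) * Real.log 2 - ((306 : ℕ) : ℝ) * Real.log 3 := by
    apply log_ratio
    have h : ((3 ^ 306 * 100000 : ℕ) : ℝ) ≤ ((2 ^ 485 * 99898 : ℕ) : ℝ) := by exact_mod_cast nat1
    rw [Nat.cast_mul, Nat.cast_mul, Nat.cast_pow, Nat.cast_pow] at h
    have : (1 : ℝ) - 0.00102 = 99898 / 100000 := by norm_num
    rw [this, ← mul_div_assoc, le_div_iff₀ (by norm_num)]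
    exact_mod_cast h
  exact lt_of_lt_of_le (by norm_num) h1

theorem a24727 : (0 : ℝ) < ((24727 : ℕ) : ℝ) * Real.log 2 - ((15601 : ℕ) : ℝ) * Real.log 3 := by
  have h1 : (0.000018 : ℝ) ≤ ((24727 : ℕ) : ℝ) * Real.log 2 - ((15601 : ℕ) : ℝ) * Real.log 3 := by
    apply log_ratio
    have h : ((3 ^ 15601 * 1000000 : ℕ) : ℝ) ≤ ((2 ^ 24727 * 999982 : ℕ) : ℝ) := by exact_mod_cast nat3
    rw [Nat.cast_mul, Nat.cast_mul, Nat.cast_pow, Nat.cast_pow] at h
    have : (1 : ℝ) - 0.000018 = 999982 / 1000000 := by norm_num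
    rw [this, ← mul_div_assoc, le_div_iff₀ (by norm_num)]
    exact_mod_cast h
  exact lt_of_lt_of_le (by norm_num) h1

theorem cfa (p o : ℤ) (hp : 0 < p) (hp2 : p < 485) :
    (0.002 : ℝ) ≤ |(p : ℝ) * Real.log 2 - o * Real.log 3| := by
  have hA := a485
  have hB := b84
  have h := cf' (q1 := 485) (r1 := 306) (q2 := 84) (r2 := 53) (by norm_num) (by norm_num) (by norm_num)
    (by push_cast at hA ⊢; linarith) (by push_cast at hB ⊢; linarith) p o hp hp2
  push_cast at h hB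
  linarith

theorem cfb (p o : ℤ) (hp : 0 < p) (hp2 : p < 24727) :
    (0.0000435 : ℝ) ≤ |(p : ℝ) * Real.log 2 - o * Real.log 3| := by
  have hA := a24727
  have hB := b1054
  have h := cf' (q1 := 24727) (r1 := 15601) (q2 := 1054) (r2 := 665) (by norm_num) (by norm_num) (by norm_num)
    (by push_cast at hA ⊢; linarith) (by push_cast at hB ⊢; linarith) p o hp hp2
  push_cast at h hB
  linarith

/-- unknown cycles have at least 1054 elements -/
theorem unknown_long {x : ℤ} {p : ℕ} (hp : 1 ≤ p) (hx : (T 3 1)^[p] x = x) (hun : x ∉ Known) : 1054 ≤ p := by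
  have hlarge := unknown_large hp hx hun
  by_contra hcon
  push Not at hcon
  have hform := form_le (m := 262144) (by norm_num) x p hx (fun i _ => by exact_mod_cast hlarge i)
  have hpb : (p : ℝ) < 1054 := by exact_mod_cast hcon
  set Λ := (p : ℝ) * Real.log 2 - od x p * Real.log 3 with hΛ
  rcases Nat.lt_or_ge p 485 with h1 | h1
  · have h2 := cfa (p : ℤ) (od x p) (by omega) (by omega)
    push_cast at h2
    rw [← hΛ] at h2
    have h3 : (p : ℝ) < 485 := by exact_mod_cast h1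
    nlinarith
  · have h2 := cf1 (p : ℤ) (od x p) (by omega) (by omega)
    push_cast at h2
    rw [← hΛ] at h2
    rcases lt_or_ge (p : ℝ) 802 with h3 | h3
    · nlinarith
    · have h3' : 802 ≤ p := by exact_mod_cast h3
      have h4 := cfa (1054 - (p : ℤ)) (665 - (od x p : ℤ)) (by omega) (by omega)
      have h5 := b1054
      have h6 := b1054u
      push_cast at h4 h5 h6
      have h7 : (1054 - (p : ℝ)) * Real.log 2 - (665 - (od x p : ℝ)) * Real.log 3 =
          -(665 * Real.log 3 - 1054 * Real.log 2) - Λ := by rw [hΛ]; ring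
      rw [h7] at h4
      have h8 : |-(665 * Real.log 3 - 1054 * Real.log 2) - Λ| ≤
          |-(665 * Real.log 3 - 1054 * Real.log 2)| + |Λ| := abs_sub _ _
      have h9 : |-(665 * Real.log 3 - 1054 * Real.log 2)| ≤ 0.00005 := by
        rw [abs_neg, abs_of_pos (by linarith)]; exact h6
      nlinarith

lemma lg_le {x : ℤ} {e : ℕ} (he : 2 ≤ e) (h : |(x : ℝ)| ≤ 2 ^ e) : lg x ≤ e + 1 / 2 := by
  have h0 := abs_nonneg (x : ℝ)
  have h4 : (4 : ℝ) ≤ 2 ^ e := by
    have : (2 : ℝ) ^ 2 ≤ 2 ^ e := pow_le_pow_right₀ (by norm_num) he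
    linarith
  have h1 : (|(x : ℝ)| + 1) ^ 2 ≤ 2 ^ (2 * e + 1) := by
    have e1 : (2 : ℝ) ^ (2 * e + 1) = 2 * (2 ^ e * 2 ^ e) := by
      rw [pow_succ, two_mul, pow_add]; ring
    rw [e1]
    nlinarith
  have h2 : Real.logb 2 ((|(x : ℝ)| + 1) ^ 2) ≤ Real.logb 2 (2 ^ (2 * e + 1)) :=
    Real.logb_le_logb_of_le (by norm_num) (by positivity) h1
  rw [Real.logb_pow, Real.logb_pow, Real.logb_self_eq_one (by norm_num)] at h2
  push_cast at h2
  unfold lg
  linarith

lemma sum7 {z : ℕ} (hz : z ≤ 7) : ∑ j ∈ range z, dl ^ j ≤ 41.25 := by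
  have h0 := delta_nonneg
  have h1 : ∑ j ∈ range z, dl ^ j ≤ ∑ j ∈ range 7, dl ^ j := by
    apply Finset.sum_le_sum_of_subset_of_nonneg
    · intro i hi
      rw [Finset.mem_range] at *
      omega
    · intro i _ _
      unfold dl
      positivity
  have h2 : ∑ j ∈ range 7, dl ^ j ≤ ∑ j ∈ range 7, (1.585 : ℝ) ^ j := by
    apply Finset.sum_le_sum
    intro j _
    exact pow_le_pow_left₀ h0 delta_le j
  have h3 : ∑ j ∈ range 7, (1.585 : ℝ) ^ j ≤ 41.25 := by
    simp only [Finset.sum_range_succ, Finset.sum_range_zero]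
    norm_num
  linarith

lemma least_le {x : ℤ} {B : ℝ} (hmin : ∀ j, |x| ≤ |(T 3 1)^[j] x|) (h : ∃ i, |(((T 3 1)^[i] x : ℤ) : ℝ)| ≤ B) :
    |(x : ℝ)| ≤ B := by
  obtain ⟨i, hi⟩ := h
  refine le_trans ?_ hi
  exact_mod_cast hmin i

/-- **Classification.** -/
theorem seven {x : ℤ} {p z : ℕ} (hp : 1 ≤ p) (hx : (T 3 1)^[p] x = x)
    (hinj : ∀ i < p, ∀ j < p, (T 3 1)^[i] x = (T 3 1)^[j] x → i = j)
    (hmin : ∀ j, |x| ≤ |(T 3 1)^[j] x|) (hz : z ≤ 7)
    (hP : Phrases (fun i => (T 3 1)^[i] x % 2) p z) : x ∈ Known := by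
  by_contra hun
  have h1054 := unknown_long hp hx hun
  have hb := traj x p z hinj hP
  have hs := sum7 hz
  have hmain : ∀ e : ℕ, 2 ≤ e → |(x : ℝ)| ≤ 2 ^ e → (p : ℝ) ≤ (2.5 + e) * 41.25 := by
    intro e he h
    have h1 := lg_le he h
    have h0 := lg_nonneg x
    have h2 : 0 ≤ ∑ j ∈ range z, dl ^ j := by
      apply Finset.sum_nonneg
      intro j _
      have := dl_gt
      positivity
    calc (p : ℝ) ≤ (2 + lg x) * ∑ j ∈ range z, dl ^ j := hb
      _ ≤ (2.5 + e) * 41.25 := by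
        apply mul_le_mul _ hs h2 (by positivity)
        linarith
  have hpl : (1054 : ℝ) ≤ p := by exact_mod_cast h1054
  rcases Nat.lt_or_ge p 24727 with h1 | h1
  · have hcf := cfb (p : ℤ) (od x p) (by omega) (by omega)
    push_cast at hcf
    have hpc : (p : ℝ) < 24727 := by exact_mod_cast h1
    rcases lt_or_ge (p : ℝ) 1094 with h2 | h2
    · have := hmain 23 (by norm_num) (least_le hmin (small_of_form x p hx hcf (by norm_num)
        (by norm_num; linarith)))
      norm_num at this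
      linarith
    rcases lt_or_ge (p : ℝ) 2180 with h3 | h3
    · have h4 := hmain 24 (by norm_num) (least_le hmin (small_of_form x p hx hcf (by norm_num)
        (by norm_num; linarith)))
      norm_num at h4
      linarith
    · have h4 := hmain 28 (by norm_num) (least_le hmin (small_of_form x p hx hcf (by norm_num)
        (by norm_num; linarith)))
      norm_num at h4
      linarith
  rcases Nat.lt_or_ge p 50508 with h2 | h2
  · have hcf := cf2 (p : ℤ) (od x p) (by omega) (by omega)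
    push_cast at hcf
    have hpc : (p : ℝ) < 50508 := by exact_mod_cast h2
    have hpd : (24727 : ℝ) ≤ p := by exact_mod_cast h1
    have h4 := hmain 30 (by norm_num) (least_le hmin (small_of_form x p hx hcf (by norm_num)
      (by norm_num; linarith)))
    norm_num at h4
    linarith
  · have hpb : (50508 : ℝ) ≤ p := by exact_mod_cast h2
    set c : ℝ := 204800 / 117649 with hc
    have hc1 : 1 < c := by rw [hc]; norm_num
    have hex : ∃ r : ℕ, 49 * (p : ℝ) ≤ c ^ r := by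
      obtain ⟨r, hr⟩ := pow_unbounded_of_one_lt (49 * (p : ℝ)) hc1
      exact ⟨r, hr.le⟩
    classical
    set r := Nat.find hex with hr
    have hspec : 49 * (p : ℝ) ≤ c ^ r := Nat.find_spec hex
    have h3 := hmain (13 + 40 * r) (by omega) (least_le hmin (poly_small x p r hp hx hspec))
    push_cast at h3
    rcases Nat.lt_or_ge r 28 with h4 | h4
    · have h5 : (r : ℝ) ≤ 27 := by exact_mod_cast (by omega : r ≤ 27)
      nlinarith
    · obtain ⟨j, hj⟩ : ∃ j, r = 28 + j := ⟨r - 28, by omega⟩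
      have h5 : c ^ (27 + j) < 49 * (p : ℝ) := by
        have := Nat.find_min hex (show 27 + j < Nat.find hex by omega)
        exact not_le.1 this
      have hb : (1 : ℝ) + 0.74 * j ≤ c ^ j := by
        have h := one_add_mul_le_pow (a := (0.74 : ℝ)) (by norm_num) j
        refine le_trans (le_of_eq (by ring)) (h.trans ?_)
        apply pow_le_pow_left₀ (by norm_num)
        rw [hc]; norm_num
      have hb2 : (3000000 : ℝ) ≤ c ^ 27 := by rw [hc]; norm_num
      have h6 : (3000000 : ℝ) * (1 + 0.74 * j) ≤ c ^ (27 + j) := by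
        rw [pow_add]
        exact mul_le_mul hb2 hb (by positivity) (by positivity)
      have h7 : (r : ℝ) = 28 + j := by rw [hj]; push_cast; ring
      have hj0 : (0 : ℝ) ≤ j := Nat.cast_nonneg _
      rw [h7] at h3
      linarith

end Pool.Agent.R343.LZ
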