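import Mathlib
import Pool.Agent.R343.LZ2
import Pool.Agent.H547R3.Cyc

set_option autoImplicit false

/-!
# Asymptotic form and counting
-/

open Finset

namespace Pool.Agent.R343.LZ

open Pool.Agent.Y780.Cz

noncomputable def cc : ℝ := 204800 / 117649

lemma cc_gt : 1 < cc := by unfold cc; norm_num

/-- the least element in terms of the length -/
theorem least_bound (x : ℤ) (p : ℕ) (hp : 1 ≤ p) (hx : (T 3 1)^[p] x = x)
    (hmin : ∀ j, |x| ≤ |(T 3 1)^[j] x|) :
    lg x ≤ 53.5 + 40 * ((Real.log 49 + Real.log p) / Real.log cc) := by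
  have hc1 := cc_gt
  have hlc : 0 < Real.log cc := Real.log_pos hc1
  have hpR : (1 : ℝ) ≤ p := by exact_mod_cast hp
  have hex : ∃ r : ℕ, 49 * (p : ℝ) ≤ cc ^ r := by
    obtain ⟨r, hr⟩ := pow_unbounded_of_one_lt (49 * (p : ℝ)) hc1
    exact ⟨r, hr.le⟩
  classical
  set r := Nat.find hex with hr
  have hspec : 49 * (p : ℝ) ≤ cc ^ r := Nat.find_spec hex
  have hr1 : 1 ≤ r := by
    by_contra hcon
    have : r = 0 := by omega
    rw [this, pow_zero] at hspec
    linarith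
  have hrle : (r : ℝ) ≤ 1 + (Real.log 49 + Real.log p) / Real.log cc := by
    have h1 : cc ^ (r - 1) < 49 * (p : ℝ) := not_le.1 (Nat.find_min hex (show r - 1 < Nat.find hex by omega))
    have h2 := Real.log_le_log (by positivity) h1.le
    rw [Real.log_pow, Real.log_mul (by norm_num) (by positivity), Nat.cast_sub hr1, Nat.cast_one] at h2
    have h3 : (r : ℝ) - 1 ≤ (Real.log 49 + Real.log p) / Real.log cc := by
      rw [le_div_iff₀ hlc]; exact h2
    linarith
  have h := lg_le (e := 13 + 40 * r) (by omega) (least_le hmin (poly_small x p r hp hx (by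
    unfold cc at hspec; exact hspec)))
  push_cast at h
  linarith

/-- the cycle bound -/
theorem cyc_bound : ∃ A : ℝ, 0 < A ∧ ∀ (x : ℤ) (p z : ℕ), 1 ≤ p → (T 3 1)^[p] x = x →
    (∀ i < p, ∀ j < p, (T 3 1)^[i] x = (T 3 1)^[j] x → i = j) →
    (∀ j, |x| ≤ |(T 3 1)^[j] x|) → Phrases (fun i => (T 3 1)^[i] x % 2) p z →
    (p : ℝ) ≤ A * (1 + Real.log p) * dl ^ z := by
  have hc1 := cc_gt
  have hlc : 0 < Real.log cc := Real.log_pos hc1
  have hd := dl_gt
  have hl49 : 0 ≤ Real.log 49 := Real.log_nonneg (by norm_num)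
  set A0 : ℝ := 55.5 + 40 * Real.log 49 / Real.log cc + 40 / Real.log cc with hA0
  have hA0p : 0 < A0 := by rw [hA0]; positivity
  refine ⟨A0 / (dl - 1), div_pos hA0p (by linarith), fun x p z hp hx hinj hmin hP => ?_⟩
  have hpR : (1 : ℝ) ≤ p := by exact_mod_cast hp
  have hlogp : 0 ≤ Real.log p := Real.log_nonneg hpR
  have h1 := traj x p z hinj hP
  have h2 := least_bound x p hp hx hmin
  have h3 := geom z
  have h4 : 2 + lg x ≤ A0 * (1 + Real.log p) := by
    have e1 : 40 * ((Real.log 49 + Real.log p) / Real.log cc) =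
      40 * Real.log 49 / Real.log cc + 40 / Real.log cc * Real.log p := by field_simp
    have e2 : 0 ≤ 40 * Real.log 49 / Real.log cc := by positivity
    have e3 : 0 ≤ 40 / Real.log cc := by positivity
    rw [hA0]
    nlinarith [mul_nonneg e2 hlogp, mul_nonneg e3 hlogp]
  have h5 : 0 ≤ ∑ k ∈ range z, dl ^ k := Finset.sum_nonneg fun j _ => by positivity
  calc (p : ℝ) ≤ (2 + lg x) * ∑ k ∈ range z, dl ^ k := h1
    _ ≤ (A0 * (1 + Real.log p)) * (dl ^ z / (dl - 1)) := mul_le_mul h4 h3 h5 (by positivity)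
    _ = _ := by ring

lemma log_dl : Real.log dl ≤ 0.85 * Real.log cc := by
  have hd := dl_gt
  have h0 : dl ≤ 1.585 := delta_le
  have h1 : dl ^ 20 ≤ cc ^ 17 := by
    calc dl ^ 20 ≤ (1.585 : ℝ) ^ 20 := pow_le_pow_left₀ (by linarith) h0 20
      _ ≤ cc ^ 17 := by unfold cc; norm_num
  have h2 := Real.log_le_log (by positivity) h1
  rw [Real.log_pow, Real.log_pow] at h2
  push_cast at h2
  linarith

/-- the least element in terms of the number of phrases -/
theorem least_phrases : ∃ C : ℝ, ∀ (x : ℤ) (p z : ℕ), 1 ≤ p → (T 3 1)^[p] x = x →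
    (∀ i < p, ∀ j < p, (T 3 1)^[i] x = (T 3 1)^[j] x → i = j) →
    (∀ j, |x| ≤ |(T 3 1)^[j] x|) → Phrases (fun i => (T 3 1)^[i] x % 2) p z →
    lg x ≤ C + 36 * z := by
  obtain ⟨A, hA, h⟩ := cyc_bound
  have hc1 := cc_gt
  have hlc : 0 < Real.log cc := Real.log_pos hc1
  have hd := dl_gt
  set C' : ℝ := Real.log A + Real.log 20 with hC'
  set K : ℝ := 40 / Real.log cc with hK
  have hK0 : 0 < K := by positivity
  refine ⟨53.5 + K * Real.log 49 + K * (20 / 19 * C'), fun x p z hp hx hinj hmin hP => ?_⟩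
  have h1 := h x p z hp hx hinj hmin hP
  have h2 := least_bound x p hp hx hmin
  have hpR : (1 : ℝ) ≤ p := by exact_mod_cast hp
  have hL : 0 ≤ Real.log p := Real.log_nonneg hpR
  have h3 := Real.log_le_log (by positivity) h1
  rw [Real.log_mul (by positivity) (by positivity), Real.log_mul hA.ne' (by positivity),
    Real.log_pow] at h3
  have h4 : Real.log (1 + Real.log p) ≤ Real.log p / 20 + Real.log 20 := by
    have e : 1 + Real.log p = ((1 + Real.log p) / 20) * 20 := by ring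
    rw [e, Real.log_mul (by positivity) (by norm_num)]
    have := Real.log_le_sub_one_of_pos (show 0 < (1 + Real.log p) / 20 by positivity)
    linarith
  have h5 := log_dl
  have hz0 : (0 : ℝ) ≤ z := Nat.cast_nonneg _
  have h6 : (z : ℝ) * Real.log dl ≤ z * (0.85 * Real.log cc) := mul_le_mul_of_nonneg_left h5 hz0
  have h7 : Real.log p ≤ 20 / 19 * C' + 20 / 19 * (z * (0.85 * Real.log cc)) := by
    rw [hC']; linarith
  have h8 : 40 * ((Real.log 49 + Real.log p) / Real.log cc) = K * Real.log 49 + K * Real.log p := by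
    rw [hK]; field_simp
  have h9 : K * Real.log p ≤ K * (20 / 19 * C' + 20 / 19 * (z * (0.85 * Real.log cc))) :=
    mul_le_mul_of_nonneg_left h7 hK0.le
  have h10 : K * (20 / 19 * (z * (0.85 * Real.log cc))) = 40 * (20 / 19) * 0.85 * z := by
    rw [hK]; field_simp
  rw [h8] at h2
  have h11 : K * (20 / 19 * C' + 20 / 19 * (z * (0.85 * Real.log cc))) =
      K * (20 / 19 * C') + 40 * (20 / 19) * 0.85 * z := by rw [mul_add, h10]
  rw [h11] at h9
  linarith

/-- Lempel-Ziv complexity -/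
noncomputable def lz (w : ℕ → ℤ) (n : ℕ) : ℕ := sInf {z | Phrases w n z}

lemma phrases_lz (w : ℕ → ℤ) (n : ℕ) : Phrases w n (lz w n) :=
  Nat.sInf_mem (s := {z | Phrases w n z})
    ⟨n, fun k => k, rfl, rfl, fun k _ => ⟨Nat.lt_succ_self k, Or.inl rfl⟩⟩

lemma lz_le {w : ℕ → ℤ} {n z : ℕ} (h : Phrases w n z) : lz w n ≤ z := Nat.sInf_le h

open Pool.Agent.H547R3 in
/-- all we need on the elements of cycles -/
lemma elem {Z : Finset ℤ} (hZ : IsCycle Z) {x : ℤ} (hx : x ∈ Z) :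
    1 ≤ Z.card ∧ (T 3 1)^[Z.card] x = x ∧
      (∀ i < Z.card, ∀ j < Z.card, (T 3 1)^[i] x = (T 3 1)^[j] x → i = j) := by
  obtain ⟨x0, h0, h1, -, h3, -, -⟩ := hZ.normal
  obtain ⟨j, hj⟩ := hZ.back h0 hx
  have hper := hZ.periodic h0
  have hmp : Function.minimalPeriod Pool.Agent.H319R2.T x = Z.card := by
    rw [← hj, Function.minimalPeriod_apply_iterate hper, h3]
  refine ⟨by omega, ?_, ?_⟩
  · rw [← T_eq, ← hmp]
    exact Function.iterate_minimalPeriod
  · intro i hi k hk hik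
    rw [← T_eq] at hik
    have hinj : Set.InjOn (fun i => Pool.Agent.H319R2.T^[i] x)
        (Set.Iio (Function.minimalPeriod Pool.Agent.H319R2.T x)) :=
      Function.iterate_injOn_Iio_minimalPeriod
    rw [hmp] at hinj
    exact hinj hi hk hik

open Pool.Agent.H547R3 in
/-- the count -/
theorem count : ∃ C : ℝ, ∀ z : ℕ,
    {Z : Finset ℤ | IsCycle Z ∧ ∃ x ∈ Z, (∀ y ∈ Z, |x| ≤ |y|) ∧
      lz (fun i => (T 3 1)^[i] x % 2) Z.card ≤ z}.Finite ∧
    ({Z : Finset ℤ | IsCycle Z ∧ ∃ x ∈ Z, (∀ y ∈ Z, |x| ≤ |y|) ∧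
      lz (fun i => (T 3 1)^[i] x % 2) Z.card ≤ z}.ncard : ℝ) ≤ C * 2 ^ (36 * z) := by
  classical
  obtain ⟨C, hC⟩ := least_phrases
  set E : ℕ := ⌈C⌉₊ with hE
  refine ⟨3 * 2 ^ E, fun z => ?_⟩
  set S := {Z : Finset ℤ | IsCycle Z ∧ ∃ x ∈ Z, (∀ y ∈ Z, |x| ≤ |y|) ∧
      lz (fun i => (T 3 1)^[i] x % 2) Z.card ≤ z} with hS
  set X : ℤ := 2 ^ (E + 36 * z) with hX
  have hmem : ∀ Z ∈ S, ∃ x : ℤ, x ∈ Finset.Icc (-X) X ∧ x ∈ Z := by
    rintro Z ⟨hZ, x, hx, hmin, hl⟩
    obtain ⟨h1, h2, h3⟩ := elem hZ hx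
    refine ⟨x, ?_, hx⟩
    have hmin' : ∀ j, |x| ≤ |(T 3 1)^[j] x| := fun j => by
      apply hmin
      have := hZ.closed hx j
      rwa [T_eq] at this
    have h4 := hC x Z.card _ h1 h2 h3 hmin' (phrases_lz _ _)
    have h5 : lg x ≤ E + 36 * z := by
      have e1 : C ≤ E := Nat.le_ceil C
      have e2 : (lz (fun i => (T 3 1)^[i] x % 2) Z.card : ℝ) ≤ z := by exact_mod_cast hl
      linarith
    have h6 : |(x : ℝ)| + 1 ≤ 2 ^ (E + 36 * z) := by
      unfold lg at h5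
      rw [Real.logb_le_iff_le_rpow (by norm_num) (by have := abs_nonneg (x : ℝ); linarith)] at h5
      have e3 : (2 : ℝ) ^ ((E : ℝ) + 36 * z) = 2 ^ (E + 36 * z) := by
        rw [← Real.rpow_natCast]; push_cast; rfl
      rwa [e3] at h5
    have h7 : |x| ≤ X := by
      have : ((|x| : ℤ) : ℝ) ≤ ((X : ℤ) : ℝ) := by
        rw [hX]; push_cast; linarith
      exact_mod_cast this
    rw [Finset.mem_Icc]
    exact abs_le.1 h7
  choose! f hf1 hf2 using hmem
  have hinj : Set.InjOn f S := by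
    intro Z hZ Z' hZ' he
    exact hZ.1.eq_of_mem hZ'.1 (hf2 Z hZ) (he ▸ hf2 Z' hZ')
  have hmaps : Set.MapsTo f S (Finset.Icc (-X) X : Finset ℤ) := fun Z hZ => by
    exact_mod_cast hf1 Z hZ
  have hfin : S.Finite := Set.Finite.of_injOn hmaps hinj (Finset.finite_toSet _)
  refine ⟨hfin, ?_⟩
  have h1 : S.ncard ≤ ((Finset.Icc (-X) X : Finset ℤ) : Set ℤ).ncard :=
    Set.ncard_le_ncard_of_injOn f hmaps hinj (Finset.finite_toSet _)
  rw [Set.ncard_coe_finset, Int.card_Icc] at h1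
  have hX0 : 1 ≤ X := by rw [hX]; exact one_le_pow₀ (by norm_num)
  have h2 : (S.ncard : ℝ) ≤ 2 * X + 1 := by
    have e : ((X + 1 - -X).toNat : ℤ) = 2 * X + 1 := by
      rw [Int.toNat_of_nonneg (by linarith)]; ring
    have h3 : (S.ncard : ℤ) ≤ 2 * X + 1 := by
      rw [← e]; exact_mod_cast h1
    exact_mod_cast h3
  have h3 : (X : ℝ) = 2 ^ E * 2 ^ (36 * z) := by rw [hX]; push_cast; rw [pow_add]
  have h4 : (1 : ℝ) ≤ X := by exact_mod_cast hX0
  calc (S.ncard : ℝ) ≤ 2 * X + 1 := h2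
    _ ≤ 3 * X := by linarith
    _ = _ := by rw [h3]; ring

end Pool.Agent.R343.LZ
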