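import Mathlib
import Pool.Agent.R343.LZ1
import Pool.Agent.H547R3.Sub.Cyc

set_option autoImplicit false

/-!
# Lempel-Ziv parses of the parity words of the maps `x / 2`, `(q x + k) / 2`
-/

open Finset

namespace Pool.Agent.R343.LZG

open Pool.Agent.Y780.Cz
open Pool.Agent.R343.LZ (Phrases mono_t)

/-- the size in binary digits -/
noncomputable def lg (k x : ℤ) : ℝ := Real.logb 2 (|(x : ℝ)| + |(k : ℝ)|)

/-- `log q / log 2` -/
noncomputable def dl (q : ℤ) : ℝ := Real.logb 2 q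

variable {q k : ℤ}

lemma lg_nonneg (hk : k % 2 = 1) (x : ℤ) : 0 ≤ lg k x :=
  Real.logb_nonneg (by norm_num) (by
    have := abs_nonneg (x : ℝ)
    have := one_le_abs_k hk
    linarith)

lemma dl_gt (hq3 : 3 ≤ q) : 1 < dl q := by
  have h3 : (3 : ℝ) ≤ q := by exact_mod_cast hq3
  unfold dl
  rw [Real.lt_logb_iff_rpow_lt (by norm_num) (by linarith), Real.rpow_one]; linarith

lemma lg_T (hq : q % 2 = 1) (hq3 : 3 ≤ q) (hk : k % 2 = 1) (x : ℤ) :
    lg k (T q k x) ≤ lg k x + (dl q - 1) := by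
  have h := abs_T_le hq hq3 hk x
  have h3 : (3 : ℝ) ≤ q := by exact_mod_cast hq3
  have h0 := abs_nonneg (x : ℝ)
  have h1 := abs_nonneg (T q k x : ℝ)
  have hk1 := one_le_abs_k hk
  unfold lg dl
  have h2 : Real.logb 2 (|(T q k x : ℝ)| + |(k : ℝ)|) ≤
      Real.logb 2 (q / 2 * (|(x : ℝ)| + |(k : ℝ)|)) :=
    Real.logb_le_logb_of_le (by norm_num) (by linarith) h
  rw [Real.logb_mul (by positivity) (by linarith), Real.logb_div (by positivity) (by norm_num),
    Real.logb_self_eq_one (by norm_num)] at h2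
  linarith

lemma lg_iter (hq : q % 2 = 1) (hq3 : 3 ≤ q) (hk : k % 2 = 1) (x : ℤ) (i : ℕ) :
    lg k ((T q k)^[i] x) ≤ lg k x + i * (dl q - 1) := by
  induction i with
  | zero => simp
  | succ i ih =>
    rw [Function.iterate_succ_apply']
    have h := lg_T hq hq3 hk ((T q k)^[i] x)
    push_cast
    linarith

lemma phrase_le (hq : q % 2 = 1) (hk : k % 2 = 1) (x : ℤ) (n a b : ℕ)
    (hinj : ∀ i < n, ∀ j < n, (T q k)^[i] x = (T q k)^[j] x → i = j)
    (ha : a < n) (hab : a < b)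
    (h : b = a + 1 ∨ ∃ j < a, ∀ i, a + i + 1 < b → (T q k)^[a + i] x % 2 = (T q k)^[j + i] x % 2)
    (U : ℝ) (hU : ∀ i ≤ a, 2 + lg k ((T q k)^[i] x) ≤ U) : (b : ℝ) - a ≤ U := by
  have hU2 : 2 ≤ U := by
    have h1 := hU a le_rfl
    have h2 := lg_nonneg hk ((T q k)^[a] x)
    linarith
  rcases h with h | ⟨j, hj, h⟩
  · rw [h]; push_cast; linarith
  · obtain ⟨g, hg⟩ : ∃ g, b = a + 1 + g := ⟨b - (a + 1), by omega⟩
    have hne : (T q k)^[a] x ≠ (T q k)^[j] x := fun he => by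
      have := hinj a ha j (by omega) he
      omega
    have h1 := run_le hq hk g ((T q k)^[a] x) ((T q k)^[j] x) hne
      (fun i hi => by
        rw [← Function.iterate_add_apply, ← Function.iterate_add_apply, Nat.add_comm i a,
          Nat.add_comm i j]
        exact h i (by omega))
    have h2 : Real.logb 2 (mx k ((T q k)^[a] x) ((T q k)^[j] x)) ≤ U - 2 := by
      unfold mx
      have ha' := hU a le_rfl
      have hj' := hU j (by omega)
      unfold lg at ha' hj'
      rcases max_choice |(((T q k)^[a] x : ℤ) : ℝ)| |(((T q k)^[j] x : ℤ) : ℝ)| with e | e <;>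
        rw [e] <;> linarith
    rw [hg]
    push_cast
    linarith

/-- the bound for trajectories -/
theorem traj (hq : q % 2 = 1) (hq3 : 3 ≤ q) (hk : k % 2 = 1) (x : ℤ) (n z : ℕ)
    (hinj : ∀ i < n, ∀ j < n, (T q k)^[i] x = (T q k)^[j] x → i = j)
    (hP : Phrases (fun i => (T q k)^[i] x % 2) n z) :
    (n : ℝ) ≤ (2 + lg k x) * ∑ j ∈ range z, dl q ^ j := by
  obtain ⟨t, h0, hz, h⟩ := hP
  have hd := dl_gt hq3
  have hd0 : 0 < dl q := by linarith
  have hlt : ∀ j < z, t j < n := fun j hj =>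
    lt_of_lt_of_le (h j hj).1 ((mono_t (fun j hj => (h j hj).1) (show j + 1 ≤ z from hj) le_rfl).trans hz.le)
  have key : ∀ c ≤ z, (t c : ℝ) ≤ (2 + lg k x) * ∑ j ∈ range c, dl q ^ j ∧
      ∀ i ≤ t c, 2 + lg k ((T q k)^[i] x) ≤ (2 + lg k x) * dl q ^ c := by
    intro c
    induction c with
    | zero =>
      intro _
      rw [h0]
      refine ⟨by simp, fun i hi => ?_⟩
      have : i = 0 := by omega
      rw [this]; simp
    | succ c ih =>
      intro hc
      obtain ⟨h1, h2⟩ := ih (by omega)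
      have h3 := phrase_le hq hk x n (t c) (t (c + 1)) hinj (hlt c (by omega)) (h c (by omega)).1
        (h c (by omega)).2 _ h2
      have hpos : 0 ≤ (2 + lg k x) * dl q ^ c := by
        have := lg_nonneg hk x
        positivity
      refine ⟨?_, fun i hi => ?_⟩
      · rw [Finset.sum_range_succ, mul_add]
        linarith
      · have e : (2 + lg k x) * dl q ^ (c + 1) =
            (2 + lg k x) * dl q ^ c + (dl q - 1) * ((2 + lg k x) * dl q ^ c) := by
          rw [pow_succ]; ring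
        rcases Nat.lt_or_ge i (t c) with hik | hik
        · have := h2 i hik.le
          rw [e]
          have h5 : 0 ≤ (dl q - 1) * ((2 + lg k x) * dl q ^ c) := mul_nonneg (by linarith) hpos
          linarith
        · obtain ⟨s, rfl⟩ := Nat.exists_eq_add_of_le hik
          have h4 := lg_iter hq hq3 hk ((T q k)^[t c] x) s
          rw [← Function.iterate_add_apply, Nat.add_comm s (t c)] at h4
          have h5 := h2 (t c) le_rfl
          have h6 : (s : ℝ) ≤ (2 + lg k x) * dl q ^ c := by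
            have : ((t c + s : ℕ) : ℝ) ≤ t (c + 1) := by exact_mod_cast hi
            push_cast at this
            linarith
          have h7 : (s : ℝ) * (dl q - 1) ≤ ((2 + lg k x) * dl q ^ c) * (dl q - 1) :=
            mul_le_mul_of_nonneg_right h6 (by linarith)
          rw [e]
          linarith
  have := (key z le_rfl).1
  rwa [hz] at this

lemma geom (hq3 : 3 ≤ q) (z : ℕ) : ∑ j ∈ range z, dl q ^ j ≤ dl q ^ z / (dl q - 1) := by
  have hd := dl_gt hq3
  rw [geom_sum_eq hd.ne']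
  apply div_le_div_of_nonneg_right _ (by linarith)
  linarith

lemma T_eq (q k : ℤ) : T q k = Pool.Agent.H547R3.Sub.Tm q k := by
  funext x; simp [T, Pool.Agent.H547R3.Sub.Tm]

/-- the least element in terms of the length -/
theorem least_bound {q : ℕ} (hq : q.Prime) (hq2 : q ≠ 2) : ∃ A : ℝ, 0 < A ∧ ∀ k : ℤ, k % 2 = 1 →
    ∀ (x : ℤ) (p : ℕ), 1 ≤ p → (T q k)^[p] x = x → (∀ j, |x| ≤ |(T q k)^[j] x|) →
    2 + lg k x ≤ A * (Real.log |(k : ℝ)| + (1 + Real.log p) ^ 2) := by
  obtain ⟨B, hB, h⟩ := Pool.Agent.H547R3.Sub.cycle_min hq hq2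
  have hl2 : 0 < Real.log 2 := Real.log_pos (by norm_num)
  refine ⟨4 + (2 + B) / Real.log 2, by positivity, fun k hk x p hp hper hmin => ?_⟩
  have hk1 : (1 : ℝ) ≤ |(k : ℝ)| := one_le_abs_k hk
  have hlk : 0 ≤ Real.log |(k : ℝ)| := Real.log_nonneg hk1
  have hpR : (1 : ℝ) ≤ p := by exact_mod_cast hp
  have hlp : 0 ≤ Real.log p := Real.log_nonneg hpR
  have hx0 := abs_nonneg (x : ℝ)
  have hkey : |(x : ℝ)| + |(k : ℝ)| ≤ 2 * (p * |(k : ℝ)| * Real.exp (B * (1 + Real.log p) ^ 2)) := by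
    have he : (1 : ℝ) ≤ Real.exp (B * (1 + Real.log p) ^ 2) := Real.one_le_exp (by positivity)
    have hkk : |(k : ℝ)| ≤ p * |(k : ℝ)| * Real.exp (B * (1 + Real.log p) ^ 2) := by
      calc |(k : ℝ)| = 1 * |(k : ℝ)| * 1 := by ring
        _ ≤ p * |(k : ℝ)| * Real.exp (B * (1 + Real.log p) ^ 2) := by gcongr
    rcases le_or_gt |k| |x| with hkx | hkx
    · have hx : x ≠ 0 := by
        rintro rfl
        rw [abs_zero] at hkx
        have : (|k| : ℤ) = 0 := le_antisymm hkx (abs_nonneg k)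
        have h0 : k = 0 := abs_eq_zero.1 this
        rw [h0] at hk
        omega
      have h1 := h k hk x p hp (by rw [← T_eq]; exact hper) hx
        (fun i => by rw [← T_eq]; exact hmin i) hkx
      linarith
    · have h1 : |(x : ℝ)| ≤ |(k : ℝ)| := by exact_mod_cast hkx.le
      linarith
  have hpos : 0 < |(x : ℝ)| + |(k : ℝ)| := by linarith
  have h1 := Real.log_le_log hpos hkey
  rw [Real.log_mul (by norm_num) (by positivity), Real.log_mul (by positivity) (Real.exp_pos _).ne',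
    Real.log_mul (by positivity) (by positivity), Real.log_exp] at h1
  have h2 : lg k x = Real.log (|(x : ℝ)| + |(k : ℝ)|) / Real.log 2 := rfl
  have h3 : lg k x ≤ (Real.log 2 + (Real.log p + Real.log |(k : ℝ)| + B * (1 + Real.log p) ^ 2)) /
      Real.log 2 := by
    rw [h2]
    exact div_le_div_of_nonneg_right h1 hl2.le
  have h4 : (Real.log 2 + (Real.log p + Real.log |(k : ℝ)| + B * (1 + Real.log p) ^ 2)) /
      Real.log 2 = 1 + (Real.log p + Real.log |(k : ℝ)| + B * (1 + Real.log p) ^ 2) / Real.log 2 := by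
    field_simp
  have hS : 1 ≤ (1 + Real.log p) ^ 2 := by nlinarith
  have hS2 : Real.log p ≤ (1 + Real.log p) ^ 2 := by nlinarith
  have h5 : Real.log p + Real.log |(k : ℝ)| + B * (1 + Real.log p) ^ 2 ≤
      (2 + B) * (Real.log |(k : ℝ)| + (1 + Real.log p) ^ 2) := by
    nlinarith [mul_nonneg hB.le hlk]
  have h6 : (Real.log p + Real.log |(k : ℝ)| + B * (1 + Real.log p) ^ 2) / Real.log 2 ≤
      (2 + B) / Real.log 2 * (Real.log |(k : ℝ)| + (1 + Real.log p) ^ 2) := by
    rw [div_mul_eq_mul_div]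
    exact div_le_div_of_nonneg_right h5 hl2.le
  have h7 : (3 : ℝ) ≤ 4 * (Real.log |(k : ℝ)| + (1 + Real.log p) ^ 2) := by linarith
  rw [h4] at h3
  have h8 : (4 + (2 + B) / Real.log 2) * (Real.log |(k : ℝ)| + (1 + Real.log p) ^ 2) =
    4 * (Real.log |(k : ℝ)| + (1 + Real.log p) ^ 2) +
    (2 + B) / Real.log 2 * (Real.log |(k : ℝ)| + (1 + Real.log p) ^ 2) := by ring
  rw [h8]
  linarith

/-- the cycle bound -/
theorem cyc_bound {q : ℕ} (hq : q.Prime) (hq2 : q ≠ 2) : ∃ A : ℝ, 0 < A ∧ ∀ k : ℤ, k % 2 = 1 →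
    ∀ (x : ℤ) (p z : ℕ), 1 ≤ p → (T q k)^[p] x = x →
    (∀ i < p, ∀ j < p, (T q k)^[i] x = (T q k)^[j] x → i = j) →
    (∀ j, |x| ≤ |(T q k)^[j] x|) → Phrases (fun i => (T q k)^[i] x % 2) p z →
    (p : ℝ) ≤ A * (Real.log |(k : ℝ)| + (1 + Real.log p) ^ 2) * dl q ^ z := by
  obtain ⟨A, hA, h⟩ := least_bound hq hq2
  have hqo : (q : ℤ) % 2 = 1 := by
    rcases hq.eq_two_or_odd with h | h
    · exact absurd h hq2
    · omega
  have hq3 : (3 : ℤ) ≤ q := by
    have := hq.two_le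
    omega
  have hd := dl_gt hq3
  refine ⟨A / (dl q - 1), div_pos hA (by linarith), fun k hk x p z hp hper hinj hmin hP => ?_⟩
  have h1 := traj hqo hq3 hk x p z hinj hP
  have h2 := h k hk x p hp hper hmin
  have h3 := geom hq3 z
  have h4 := lg_nonneg hk x
  have hd0 : 0 < dl (q : ℤ) := by linarith
  have h5 : 0 ≤ ∑ j ∈ range z, dl (q : ℤ) ^ j := Finset.sum_nonneg fun j _ => by positivity
  calc (p : ℝ) ≤ (2 + lg k x) * ∑ j ∈ range z, dl (q : ℤ) ^ j := h1
    _ ≤ (A * (Real.log |(k : ℝ)| + (1 + Real.log p) ^ 2)) * (dl (q : ℤ) ^ z / (dl q - 1)) :=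
        mul_le_mul h2 h3 h5 (by linarith)
    _ = _ := by ring

end Pool.Agent.R343.LZG
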