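import Mathlib
import Pool.Agent.R343.LZG
import Pool.Agent.R343.LZ3

set_option autoImplicit false

/-!
# Counting the cycles of bounded Lempel-Ziv complexity
-/

open Finset

namespace Pool.Agent.R343.LZG

open Pool.Agent.Y780.Cz
open Pool.Agent.R343.LZ (Phrases lz phrases_lz)

/-- `Z` is a periodic orbit of `f` -/
def IsCyc (f : ℤ → ℤ) (Z : Finset ℤ) : Prop :=
  ∃ (x : ℤ) (p : ℕ), 1 ≤ p ∧ f^[p] x = x ∧ Z = (Finset.range p).image fun i => f^[i] x

lemma iter_mul {f : ℤ → ℤ} {x : ℤ} {p : ℕ} (h : f^[p] x = x) (m i : ℕ) :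
    f^[i + p * m] x = f^[i] x := by
  induction m with
  | zero => simp
  | succ m ih =>
    have e : i + p * (m + 1) = (i + p * m) + p := by ring
    rw [e, Function.iterate_add_apply, h, ih]

lemma cyc_range {f : ℤ → ℤ} {Z : Finset ℤ} (hZ : IsCyc f Z) {y : ℤ} (hy : y ∈ Z) :
    (Z : Set ℤ) = Set.range fun j : ℕ => f^[j] y := by
  obtain ⟨x, p, hp, hper, rfl⟩ := hZ
  obtain ⟨i, hi, rfl⟩ := Finset.mem_image.1 hy
  ext w
  constructor
  · intro hw
    obtain ⟨i', hi', rfl⟩ := Finset.mem_image.1 (Finset.mem_coe.1 hw)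
    refine ⟨i' + (p - 1) * i, ?_⟩
    show f^[i' + (p - 1) * i] (f^[i] x) = f^[i'] x
    rw [← Function.iterate_add_apply]
    have e : i' + (p - 1) * i + i = i' + p * i := by
      obtain ⟨p', rfl⟩ : ∃ p', p = p' + 1 := ⟨p - 1, by omega⟩
      simp only [Nat.add_sub_cancel]
      ring
    rw [e, iter_mul hper]
  · rintro ⟨j, rfl⟩
    show f^[j] (f^[i] x) ∈ ((Finset.range p).image fun i => f^[i] x : Finset ℤ)
    rw [← Function.iterate_add_apply]
    have e : j + i = (j + i) % p + p * ((j + i) / p) := (Nat.mod_add_div _ _).symm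
    rw [e, iter_mul hper]
    exact Finset.mem_image.2 ⟨(j + i) % p, Finset.mem_range.2 (Nat.mod_lt _ (by omega)), rfl⟩

lemma cyc_eq {f : ℤ → ℤ} {Z Z' : Finset ℤ} (hZ : IsCyc f Z) (hZ' : IsCyc f Z') {y : ℤ} (hy : y ∈ Z)
    (hy' : y ∈ Z') : Z = Z' := by
  apply Finset.coe_injective
  rw [cyc_range hZ hy, cyc_range hZ' hy']

lemma cyc_per {f : ℤ → ℤ} {Z : Finset ℤ} (hZ : IsCyc f Z) {y : ℤ} (hy : y ∈ Z) :
    ∃ p, 1 ≤ p ∧ f^[p] y = y := by
  obtain ⟨x, p, hp, hper, rfl⟩ := hZ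
  obtain ⟨i, hi, rfl⟩ := Finset.mem_image.1 hy
  refine ⟨p, hp, ?_⟩
  rw [← Function.iterate_add_apply, Nat.add_comm, Function.iterate_add_apply, hper]

lemma elem {f : ℤ → ℤ} {Z : Finset ℤ} (hZ : IsCyc f Z) {x : ℤ} (hx : x ∈ Z) :
    1 ≤ Z.card ∧ f^[Z.card] x = x ∧ (∀ i < Z.card, ∀ j < Z.card, f^[i] x = f^[j] x → i = j) ∧
      ∀ j, f^[j] x ∈ Z := by
  obtain ⟨p, hp, hper⟩ := cyc_per hZ hx
  have hm : 0 < Function.minimalPeriod f x :=
    Function.IsPeriodicPt.minimalPeriod_pos (n := p) (by omega) hper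
  have hinj : Set.InjOn (fun i => f^[i] x) (Set.Iio (Function.minimalPeriod f x)) :=
    Function.iterate_injOn_Iio_minimalPeriod
  have hZeq : Z = (Finset.range (Function.minimalPeriod f x)).image fun i => f^[i] x := by
    apply Finset.coe_injective
    rw [cyc_range hZ hx]
    ext w
    constructor
    · rintro ⟨j, rfl⟩
      rw [Finset.coe_image]
      refine ⟨j % Function.minimalPeriod f x, ?_, ?_⟩
      · rw [Finset.coe_range]; exact Nat.mod_lt _ hm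
      · exact Function.iterate_mod_minimalPeriod_eq
    · intro hw
      rw [Finset.coe_image] at hw
      obtain ⟨j, -, rfl⟩ := hw
      exact ⟨j, rfl⟩
  have hcard : Z.card = Function.minimalPeriod f x := by
    conv_lhs => rw [hZeq]
    rw [Finset.card_image_of_injOn (by rw [Finset.coe_range]; exact hinj), Finset.card_range]
  refine ⟨by omega, ?_, ?_, ?_⟩
  · rw [hcard]; exact Function.iterate_minimalPeriod
  · intro i hi j hj h
    rw [hcard] at hi hj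
    exact hinj hi hj h
  · intro j
    have : f^[j] x ∈ (Z : Set ℤ) := by
      rw [cyc_range hZ hx]; exact ⟨j, rfl⟩
    exact_mod_cast this

/-- the least element in terms of the number of phrases -/
theorem least_phrases {q : ℕ} (hq : q.Prime) (hq2 : q ≠ 2) : ∃ C : ℝ, 0 < C ∧ ∀ k : ℤ, k % 2 = 1 →
    ∀ (x : ℤ) (p z : ℕ), 1 ≤ p → (T q k)^[p] x = x →
    (∀ i < p, ∀ j < p, (T q k)^[i] x = (T q k)^[j] x → i = j) →
    (∀ j, |x| ≤ |(T q k)^[j] x|) → Phrases (fun i => (T q k)^[i] x % 2) p z →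
    lg k x ≤ C * (1 + Real.log |(k : ℝ)| + (z : ℝ) ^ 2) := by
  obtain ⟨A, hA, h⟩ := cyc_bound hq hq2
  obtain ⟨A', hA', h'⟩ := least_bound hq hq2
  have hq3 : (3 : ℤ) ≤ q := by
    have h1 := hq.two_le
    omega
  have hd := dl_gt hq3
  have hld : 0 ≤ Real.log (dl (q : ℤ)) := Real.log_nonneg hd.le
  -- constants
  set a : ℝ := |Real.log A| + 10 with ha
  have ha0 : 10 ≤ a := by
    have := abs_nonneg (Real.log A)
    linarith
  set c1 : ℝ := 2 * a + 2 * Real.log (dl (q : ℤ)) + 2 with hc1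
  have hc10 : 0 < c1 := by linarith
  refine ⟨A' * (1 + 15 * c1 ^ 2), by positivity, fun k hk x p z hp hper hinj hmin hP => ?_⟩
  have h1 := h k hk x p z hp hper hinj hmin hP
  have h2 := h' k hk x p hp hper hmin
  have hk1 : (1 : ℝ) ≤ |(k : ℝ)| := one_le_abs_k hk
  have hlk : 0 ≤ Real.log |(k : ℝ)| := Real.log_nonneg hk1
  have hpR : (1 : ℝ) ≤ p := by exact_mod_cast hp
  have hlp : 0 ≤ Real.log p := Real.log_nonneg hpR
  have hz0 : (0 : ℝ) ≤ z := Nat.cast_nonneg _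
  obtain ⟨κ, hκ⟩ : ∃ κ, κ = 1 + Real.log |(k : ℝ)| := ⟨_, rfl⟩
  obtain ⟨P, hPdef⟩ : ∃ P, P = 1 + Real.log p := ⟨_, rfl⟩
  have hκ1 : 1 ≤ κ := by rw [hκ]; linarith
  have hP1 : 1 ≤ P := by rw [hPdef]; linarith
  have hlκ : 0 ≤ Real.log κ := Real.log_nonneg hκ1
  have h3 : Real.log |(k : ℝ)| + (1 + Real.log p) ^ 2 ≤ κ * P ^ 2 := by
    rw [← hPdef]
    have e1 : Real.log |(k : ℝ)| = κ - 1 := by rw [hκ]; ring
    rw [e1]
    have e2 : (1 : ℝ) ≤ P ^ 2 := one_le_pow₀ hP1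
    nlinarith
  have h4 : (p : ℝ) ≤ A * (κ * P ^ 2) * dl (q : ℤ) ^ z :=
    h1.trans (mul_le_mul_of_nonneg_right (mul_le_mul_of_nonneg_left h3 hA.le) (by positivity))
  have h5 := Real.log_le_log (by positivity) h4
  rw [Real.log_mul (by positivity) (by positivity), Real.log_mul hA.ne' (by positivity),
    Real.log_mul (by positivity) (by positivity), Real.log_pow, Real.log_pow] at h5
  push_cast at h5
  have h6 : Real.log P ≤ P / 4 + 1 := by
    have e : P = (P / 4) * 4 := by ring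
    have e1 : Real.log P = Real.log (P / 4) + Real.log 4 := by
      conv_lhs => rw [e]
      rw [Real.log_mul (by positivity) (by norm_num)]
    have e2 := Real.log_le_sub_one_of_pos (show 0 < P / 4 by positivity)
    have e3 : Real.log 4 ≤ 2 := by
      have e4 : Real.log 4 = 2 * Real.log 2 := by
        rw [show (4 : ℝ) = 2 ^ 2 by norm_num, Real.log_pow]; push_cast; ring
      have := Real.log_two_lt_d9
      linarith
    linarith
  have h7 : Real.log A ≤ a - 10 := by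
    rw [ha]
    have := le_abs_self (Real.log A)
    linarith
  have hP' : P ≤ 2 * a + 2 * Real.log κ + 2 * (z * Real.log (dl (q : ℤ))) := by
    have e : Real.log p = P - 1 := by rw [hPdef]; ring
    rw [e] at h5
    linarith
  have h8 : P ≤ c1 * (1 + Real.log κ + z) := by
    rw [hc1]
    nlinarith [mul_nonneg hz0 hld, mul_nonneg hlκ hld, mul_nonneg hlκ (show 0 ≤ a by linarith),
      mul_nonneg hz0 (show 0 ≤ a by linarith)]
  have h9 : (Real.log κ) ^ 2 ≤ 4 * κ := by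
    have e1 : Real.log κ = 2 * Real.log (Real.sqrt κ) := by
      rw [Real.log_sqrt (by linarith)]; ring
    have e2 : 0 < Real.sqrt κ := Real.sqrt_pos.2 (by linarith)
    have e3 := Real.log_le_sub_one_of_pos e2
    have e4 : Real.log κ ≤ 2 * Real.sqrt κ := by rw [e1]; linarith
    calc (Real.log κ) ^ 2 ≤ (2 * Real.sqrt κ) ^ 2 := pow_le_pow_left₀ hlκ e4 2
      _ = 4 * κ := by rw [mul_pow, Real.sq_sqrt (by linarith)]; norm_num
  have h10 : P ^ 2 ≤ c1 ^ 2 * (3 * (1 + 4 * κ + (z : ℝ) ^ 2)) := by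
    have e1 : P ^ 2 ≤ (c1 * (1 + Real.log κ + z)) ^ 2 := pow_le_pow_left₀ (by linarith) h8 2
    have e2 : (1 + Real.log κ + (z : ℝ)) ^ 2 ≤ 3 * (1 + (Real.log κ) ^ 2 + (z : ℝ) ^ 2) := by
      nlinarith [sq_nonneg (1 - Real.log κ), sq_nonneg (1 - (z : ℝ)),
        sq_nonneg (Real.log κ - (z : ℝ))]
    calc P ^ 2 ≤ (c1 * (1 + Real.log κ + z)) ^ 2 := e1
      _ = c1 ^ 2 * (1 + Real.log κ + z) ^ 2 := by ring
      _ ≤ c1 ^ 2 * (3 * (1 + 4 * κ + (z : ℝ) ^ 2)) := by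
        apply mul_le_mul_of_nonneg_left _ (by positivity)
        linarith
  have h11 : Real.log |(k : ℝ)| + (1 + Real.log p) ^ 2 ≤
      (1 + 15 * c1 ^ 2) * (1 + Real.log |(k : ℝ)| + (z : ℝ) ^ 2) := by
    rw [← hPdef]
    have e1 : 1 + Real.log |(k : ℝ)| = κ := hκ.symm
    have e2 : Real.log |(k : ℝ)| = κ - 1 := by rw [hκ]; ring
    rw [e1, e2]
    have e3 : (0 : ℝ) ≤ (z : ℝ) ^ 2 := by positivity
    have e4 : c1 ^ 2 * (3 * (1 + 4 * κ + (z : ℝ) ^ 2)) ≤ c1 ^ 2 * (15 * (κ + (z : ℝ) ^ 2)) := by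
      apply mul_le_mul_of_nonneg_left _ (by positivity)
      linarith
    nlinarith
  calc lg k x ≤ 2 + lg k x := by linarith
    _ ≤ A' * (Real.log |(k : ℝ)| + (1 + Real.log p) ^ 2) := h2
    _ ≤ A' * ((1 + 15 * c1 ^ 2) * (1 + Real.log |(k : ℝ)| + (z : ℝ) ^ 2)) :=
        mul_le_mul_of_nonneg_left h11 hA'.le
    _ = _ := by ring

/-- the set of the cycles with complexity at most `z` (read from a least element) -/
def Few (q k : ℤ) (z : ℕ) : Set (Finset ℤ) :=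
  {Z | IsCyc (T q k) Z ∧ ∃ x ∈ Z, (∀ y ∈ Z, |x| ≤ |y|) ∧
    lz (fun i => (T q k)^[i] x % 2) Z.card ≤ z}

lemma phrases_mono {w : ℕ → ℤ} {n z : ℕ} (h : lz w n ≤ z) : ∃ z', z' ≤ z ∧ Phrases w n z' :=
  ⟨_, h, phrases_lz w n⟩

/-- the count -/
theorem count {q : ℕ} (hq : q.Prime) (hq2 : q ≠ 2) : ∃ C : ℝ, 0 < C ∧ ∀ k : ℤ, k % 2 = 1 →
    ∀ z : ℕ, (Few q k z).Finite ∧
      ((Few q k z).ncard : ℝ) ≤ Real.exp (C * (1 + Real.log |(k : ℝ)| + (z : ℝ) ^ 2)) := by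
  classical
  obtain ⟨C, hC0, hC⟩ := least_phrases hq hq2
  have hl2 : 0 < Real.log 2 := Real.log_pos (by norm_num)
  refine ⟨Real.log 3 + C * Real.log 2, by have := Real.log_pos (show (1 : ℝ) < 3 by norm_num); positivity,
    fun k hk z => ?_⟩
  have hk1 : (1 : ℝ) ≤ |(k : ℝ)| := one_le_abs_k hk
  have hlk : 0 ≤ Real.log |(k : ℝ)| := Real.log_nonneg hk1
  obtain ⟨E, hE⟩ : ∃ E, E = C * (1 + Real.log |(k : ℝ)| + (z : ℝ) ^ 2) := ⟨_, rfl⟩
  have hE0 : 0 ≤ E := by rw [hE]; positivity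
  set X : ℤ := ⌊(2 : ℝ) ^ E⌋ with hX
  have h2E : (1 : ℝ) ≤ (2 : ℝ) ^ E := Real.one_le_rpow (by norm_num) hE0
  have hX0 : 1 ≤ X := by
    rw [hX, Int.le_floor]; exact_mod_cast h2E
  have hmem : ∀ Z ∈ Few q k z, ∃ x : ℤ, x ∈ Finset.Icc (-X) X ∧ x ∈ Z := by
    rintro Z ⟨hZ, x, hx, hmin, hl⟩
    obtain ⟨h1, h2, h3, h3'⟩ := elem hZ hx
    refine ⟨x, ?_, hx⟩
    have hmin' : ∀ j, |x| ≤ |(T q k)^[j] x| := fun j => hmin _ (h3' j)
    have h4 := hC k hk x Z.card _ h1 h2 h3 hmin' (phrases_lz _ _)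
    have h5 : lg k x ≤ E := by
      refine h4.trans ?_
      rw [hE]
      have e2 : (lz (fun i => (T q k)^[i] x % 2) Z.card : ℝ) ≤ z := by exact_mod_cast hl
      have e3 : (0 : ℝ) ≤ (lz (fun i => (T q k)^[i] x % 2) Z.card : ℝ) := Nat.cast_nonneg _
      have e4 : (lz (fun i => (T q k)^[i] x % 2) Z.card : ℝ) ^ 2 ≤ (z : ℝ) ^ 2 :=
        pow_le_pow_left₀ e3 e2 2
      apply mul_le_mul_of_nonneg_left _ hC0.le
      linarith
    have h6 : |(x : ℝ)| + |(k : ℝ)| ≤ 2 ^ E := by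
      unfold lg at h5
      rwa [Real.logb_le_iff_le_rpow (by norm_num) (by have := abs_nonneg (x : ℝ); linarith)] at h5
    have h7 : |x| ≤ X := by
      rw [hX, Int.le_floor]
      push_cast
      linarith
    rw [Finset.mem_Icc]
    exact abs_le.1 h7
  choose! f hf1 hf2 using hmem
  have hinj : Set.InjOn f (Few q k z) := by
    intro Z hZ Z' hZ' he
    exact cyc_eq hZ.1 hZ'.1 (hf2 Z hZ) (he ▸ hf2 Z' hZ')
  have hmaps : Set.MapsTo f (Few q k z) (Finset.Icc (-X) X : Finset ℤ) := fun Z hZ => by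
    exact_mod_cast hf1 Z hZ
  have hfin : (Few q k z).Finite := Set.Finite.of_injOn hmaps hinj (Finset.finite_toSet _)
  refine ⟨hfin, ?_⟩
  have h1 : (Few q k z).ncard ≤ ((Finset.Icc (-X) X : Finset ℤ) : Set ℤ).ncard :=
    Set.ncard_le_ncard_of_injOn f hmaps hinj (Finset.finite_toSet _)
  rw [Set.ncard_coe_finset, Int.card_Icc] at h1
  have h2 : ((Few q k z).ncard : ℝ) ≤ 2 * X + 1 := by
    have e : ((X + 1 - -X).toNat : ℤ) = 2 * X + 1 := by
      rw [Int.toNat_of_nonneg (by linarith)]; ring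
    have h3 : ((Few q k z).ncard : ℤ) ≤ 2 * X + 1 := by
      rw [← e]; exact_mod_cast h1
    exact_mod_cast h3
  have h3 : (X : ℝ) ≤ (2 : ℝ) ^ E := Int.floor_le _
  have h4 : (1 : ℝ) ≤ X := by exact_mod_cast hX0
  have h5 : (2 : ℝ) ^ E = Real.exp (Real.log 2 * E) := by
    rw [Real.rpow_def_of_pos (by norm_num)]
  have hl3 : 0 ≤ Real.log 3 := Real.log_nonneg (by norm_num)
  calc ((Few q k z).ncard : ℝ) ≤ 2 * X + 1 := h2
    _ ≤ 3 * (2 : ℝ) ^ E := by linarith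
    _ = Real.exp (Real.log 3 + Real.log 2 * E) := by
        rw [Real.exp_add, Real.exp_log (by norm_num), h5]
    _ ≤ _ := by
        apply Real.exp_le_exp.2
        rw [hE]
        have e1 : (0 : ℝ) ≤ (z : ℝ) ^ 2 := by positivity
        nlinarith [mul_nonneg hl3 hlk, mul_nonneg hl3 e1]

end Pool.Agent.R343.LZG
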