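import Mathlib

set_option autoImplicit false

namespace Pool.Agent.R343.Loc

open SimpleGraph

/-- The distance from a vertex `v` to a (nonempty) set `C` of vertices of a connected graph. -/
noncomputable def distSet {V : Type} (G : SimpleGraph V) (v : V) (C : Set V) : ℕ :=
  sInf ((fun u => G.dist v u) '' C)

/-- `c` is a locating colouring of `G` with the colours `Fin k`: it is proper, all colour classes
are nonempty, and distinct vertices have distinct colour codes. -/
def IsLocating {V : Type} (G : SimpleGraph V) (k : ℕ) (c : V → Fin k) : Prop :=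
  (∀ u v, G.Adj u v → c u ≠ c v) ∧ Function.Surjective c ∧
    ∀ u v, (∀ i, distSet G u {x | c x = i} = distSet G v {x | c x = i}) → u = v

/-- The locating chromatic number: the least number of colours of a locating colouring. -/
noncomputable def chiL {V : Type} (G : SimpleGraph V) : ℕ :=
  sInf {k | ∃ c : V → Fin k, IsLocating G k c}

theorem chiL_le {V : Type} (G : SimpleGraph V) (k : ℕ) (c : V → Fin k) (h : IsLocating G k c) :
    chiL G ≤ k := Nat.sInf_le ⟨c, h⟩

section dist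

variable {V : Type} {G : SimpleGraph V} {k : ℕ} {c : V → Fin k}

theorem ds0 {u : V} {q : Fin k} (h : c u = q) : distSet G u {x | c x = q} = 0 := by
  apply Nat.le_zero.1
  exact Nat.sInf_le ⟨u, h, dist_self⟩

theorem ds_le {u w : V} {q : Fin k} (h : c w = q) : distSet G u {x | c x = q} ≤ G.dist u w :=
  Nat.sInf_le ⟨w, h, rfl⟩

theorem ds_mem {u : V} {q : Fin k} (hne : ∃ w, c w = q) :
    ∃ w, c w = q ∧ G.dist u w = distSet G u {x | c x = q} := by
  obtain ⟨w0, hw0⟩ := hne
  have h := Nat.sInf_mem (s := (fun w => G.dist u w) '' {x | c x = q}) ⟨_, w0, hw0, rfl⟩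
  obtain ⟨w, hw, hd⟩ := h
  exact ⟨w, hw, hd⟩

theorem ds_le_one {u w : V} {q : Fin k} (ha : G.Adj u w) (h : c w = q) :
    distSet G u {x | c x = q} ≤ 1 :=
  (ds_le h).trans (le_of_eq (dist_eq_one_iff_adj.2 ha))

theorem ds_pos (hG : G.Connected) {u : V} {q : Fin k} (h : c u ≠ q) (hne : ∃ w, c w = q) :
    1 ≤ distSet G u {x | c x = q} := by
  obtain ⟨w, hw, hd⟩ := ds_mem (G := G) (u := u) hne
  rw [← hd]
  apply hG.pos_dist_of_ne
  rintro rfl
  exact h hw

theorem ds_ge_two (hG : G.Connected) {u : V} {q : Fin k} (h : c u ≠ q) (hne : ∃ w, c w = q)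
    (hno : ∀ w, G.Adj u w → c w ≠ q) : 2 ≤ distSet G u {x | c x = q} := by
  obtain ⟨w, hw, hd⟩ := ds_mem (G := G) (u := u) hne
  have h1 := ds_pos hG h hne
  by_contra hc
  have h2 : G.dist u w = 1 := by omega
  exact hno w (dist_eq_one_iff_adj.1 h2) hw

theorem ds_le_two (hG : G.Connected) {u w w' : V} {q : Fin k} (h1 : G.Adj u w) (h2 : G.Adj w w')
    (h : c w' = q) : distSet G u {x | c x = q} ≤ 2 := by
  refine (ds_le h).trans ?_
  have := hG.dist_triangle (u := u) (v := w) (w := w')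
  rw [dist_eq_one_iff_adj.2 h1, dist_eq_one_iff_adj.2 h2] at this
  exact this

/-- A potential with the Lipschitz and descent properties is the distance to `v0`. -/
theorem dist_eq_of (t : V → ℕ) (v0 : V) (h0 : t v0 = 0)
    (hlip : ∀ u v, G.Adj u v → t u ≤ t v + 1)
    (hdesc : ∀ v, v ≠ v0 → ∃ w, G.Adj v w ∧ t w + 1 = t v) (hG : G.Connected) (v : V) :
    G.dist v v0 = t v := by
  apply le_antisymm
  · suffices h : ∀ N v, t v = N → G.dist v v0 ≤ N from h _ v rfl
    intro N
    induction N with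
    | zero =>
      intro v hv
      by_cases h : v = v0
      · rw [h, dist_self]
      · obtain ⟨w, _, hw⟩ := hdesc v h
        omega
    | succ N ih =>
      intro v hv
      by_cases h : v = v0
      · rw [h, dist_self]; omega
      · obtain ⟨w, hw1, hw2⟩ := hdesc v h
        have h1 := ih w (by omega)
        have h2 := hG.dist_triangle (u := v) (v := w) (w := v0)
        rw [dist_eq_one_iff_adj.2 hw1] at h2
        omega
  · obtain ⟨p, hp⟩ := hG.exists_walk_length_eq_dist v v0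
    rw [← hp]
    suffices h : ∀ (a b : V) (p : G.Walk a b), t a ≤ t b + p.length by
      have := h v v0 p
      omega
    intro a b p
    induction p with
    | nil => simp
    | cons h q ih =>
      have := hlip _ _ h
      rw [Walk.length_cons]
      omega

end dist

section lower

variable {m n : ℕ} (L : SimpleGraph (Fin n))

/-- the product graph -/
abbrev GG (m : ℕ) {n : ℕ} (L : SimpleGraph (Fin n)) : SimpleGraph (Fin m × Fin n) :=
  (⊤ : SimpleGraph (Fin m)) □ L

theorem adj_iff {i i' : Fin m} {j j' : Fin n} :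
    (GG m L).Adj (i, j) (i', j') ↔ (i ≠ i' ∧ j = j') ∨ (L.Adj j j' ∧ i = i') := by
  rw [boxProd_adj, top_adj]

variable {L}

theorem conn (hm : 1 ≤ m) (hL : L.Connected) : (GG m L).Connected := by
  haveI : Nonempty (Fin m) := ⟨⟨0, hm⟩⟩
  exact connected_top.boxProd hL

variable {k : ℕ} {c : Fin m × Fin n → Fin k}

theorem layer_inj (hc : ∀ u v, (GG m L).Adj u v → c u ≠ c v) (j : Fin n) :
    Function.Injective (fun i => c (i, j)) := by
  intro i i' h
  by_contra hne
  exact hc (i, j) (i', j) ((adj_iff L).2 (Or.inl ⟨hne, rfl⟩)) h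

theorem le_of_proper (hn : 1 ≤ n) (hc : ∀ u v, (GG m L).Adj u v → c u ≠ c v) : m ≤ k := by
  have := Fintype.card_le_of_injective _ (layer_inj hc ⟨0, hn⟩)
  simpa using this

/-- With exactly `m` colours no colouring is locating. -/
theorem ne_m (hm : 1 ≤ m) (hn : 2 ≤ n) (hL : L.Connected) (c : Fin m × Fin n → Fin m) :
    ¬ IsLocating (GG m L) m c := by
  rintro ⟨h1, h2, h3⟩
  have hG := conn hm hL
  have hsurj : ∀ (j : Fin n) (q : Fin m), ∃ i, c (i, j) = q := fun j q =>
    (Finite.injective_iff_surjective.1 (layer_inj h1 j)) q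
  have hcode : ∀ (i : Fin m) (j : Fin n) (q : Fin m), c (i, j) ≠ q →
      distSet (GG m L) (i, j) {x | c x = q} = 1 := by
    intro i j q hq
    obtain ⟨i', hi'⟩ := hsurj j q
    apply le_antisymm
    · refine ds_le_one (w := (i', j)) ((adj_iff L).2 (Or.inl ⟨?_, rfl⟩)) hi'
      rintro rfl
      exact hq hi'
    · exact ds_pos hG hq (h2 q)
  let j0 : Fin n := ⟨0, by omega⟩
  let j1 : Fin n := ⟨1, by omega⟩
  let i0 : Fin m := ⟨0, hm⟩
  obtain ⟨i1, hi1⟩ := hsurj j1 (c (i0, j0))
  have heq : (i0, j0) = (i1, j1) := by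
    apply h3
    intro q
    by_cases hq : c (i0, j0) = q
    · rw [ds0 hq, ds0 (hi1.trans hq)]
    · rw [hcode _ _ _ hq, hcode _ _ _ (by rw [hi1]; exact hq)]
  have := congrArg Prod.snd heq
  simp [j0, j1] at this

/-- a vertex at distance exactly two from the class `mu` -/
def Good (L : SimpleGraph (Fin n)) (c : Fin m × Fin n → Fin k) (mu : Fin k)
    (v : Fin m × Fin n) : Prop :=
  (∀ w, (GG m L).Adj v w → c w ≠ mu) ∧ ∃ w w', (GG m L).Adj v w ∧ (GG m L).Adj w w' ∧ c w' = mu

end lower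

section two

variable {m n : ℕ} {L : SimpleGraph (Fin n)} {c : Fin m × Fin n → Fin (m + 1)}

/-- every colour except one occurs in a layer -/
theorem others (hc : ∀ u v, (GG m L).Adj u v → c u ≠ c v) {j : Fin n} {mu : Fin (m + 1)}
    (hmu : ∀ i, c (i, j) ≠ mu) (q : Fin (m + 1)) (hq : q ≠ mu) : ∃ i, c (i, j) = q := by
  classical
  have h1 : (Finset.univ.image (fun i => c (i, j))) ⊆ Finset.univ.erase mu := by
    intro x hx
    obtain ⟨i, _, rfl⟩ := Finset.mem_image.1 hx
    exact Finset.mem_erase.2 ⟨hmu i, Finset.mem_univ _⟩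
  have h2 : (Finset.univ.image (fun i => c (i, j))) = Finset.univ.erase mu := by
    apply Finset.eq_of_subset_of_card_le h1
    rw [Finset.card_image_of_injective _ (layer_inj hc j), Finset.card_erase_of_mem
      (Finset.mem_univ _)]
    simp
  have h3 : q ∈ Finset.univ.image (fun i => c (i, j)) := by
    rw [h2]; exact Finset.mem_erase.2 ⟨hq, Finset.mem_univ _⟩
  obtain ⟨i, _, hi⟩ := Finset.mem_image.1 h3
  exact ⟨i, hi⟩

theorem exists_missing (hc : ∀ u v, (GG m L).Adj u v → c u ≠ c v) (j : Fin n) :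
    ∃ mu, ∀ i, c (i, j) ≠ mu := by
  by_contra hcon
  push Not at hcon
  have hs : Function.Surjective (fun i => c (i, j)) := hcon
  have := Fintype.card_le_of_surjective _ hs
  simp at this

theorem contra_good (hm : 1 ≤ m) (hL : L.Connected) (h : IsLocating (GG m L) (m + 1) c)
    {mu : Fin (m + 1)} {i i' : Fin m} {j j' : Fin n} (hjj : j ≠ j')
    (hj : ∀ i, c (i, j) ≠ mu) (hj' : ∀ i, c (i, j') ≠ mu)
    (hg : Good L c mu (i, j)) (hg' : Good L c mu (i', j')) (hcc : c (i, j) = c (i', j')) :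
    False := by
  obtain ⟨h1, h2, h3⟩ := h
  have hG := conn hm hL
  have hcode1 : ∀ (i : Fin m) (j : Fin n), (∀ i, c (i, j) ≠ mu) → ∀ q, c (i, j) ≠ q → q ≠ mu →
      distSet (GG m L) (i, j) {x | c x = q} = 1 := by
    intro i j hj q hq hqm
    obtain ⟨i', hi'⟩ := others h1 hj q hqm
    apply le_antisymm
    · refine ds_le_one (w := (i', j)) ((adj_iff L).2 (Or.inl ⟨?_, rfl⟩)) hi'
      rintro rfl
      exact hq hi'
    · exact ds_pos hG hq (h2 q)
  have hcode2 : ∀ v, c v ≠ mu → Good L c mu v → distSet (GG m L) v {x | c x = mu} = 2 := by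
    rintro v hv ⟨g1, w, w', g2, g3, g4⟩
    exact le_antisymm (ds_le_two hG g2 g3 g4) (ds_ge_two hG hv (h2 mu) g1)
  have heq : (i, j) = (i', j') := by
    apply h3
    intro q
    by_cases hq : c (i, j) = q
    · rw [ds0 hq, ds0 (hcc ▸ hq)]
    · by_cases hqm : q = mu
      · subst hqm
        rw [hcode2 _ (hj i) hg, hcode2 _ (hj' i') hg']
      · rw [hcode1 i j hj q hq hqm, hcode1 i' j' hj' q (by rw [← hcc]; exact hq) hqm]
  exact hjj (congrArg Prod.snd heq)

/-- a layer missing `mu` with a neighbouring layer containing `mu` has at most two bad columns -/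
theorem few_bad (hc : ∀ u v, (GG m L).Adj u v → c u ≠ c v)
    (hdeg : ∀ j, ∃ a b, ∀ l, L.Adj j l → l = a ∨ l = b) {mu : Fin (m + 1)} {j r : Fin n}
    (hj : ∀ i, c (i, j) ≠ mu) (hr : L.Adj j r) {i0 : Fin m} (hi0 : c (i0, r) = mu) :
    ∃ y : Fin m, ∀ k, k ≠ i0 → k ≠ y → Good L c mu (k, j) := by
  classical
  obtain ⟨a, b, hab⟩ := hdeg j
  -- the other neighbour
  obtain ⟨s, hs⟩ : ∃ s, ∀ l, L.Adj j l → l = r ∨ l = s := by
    rcases hab r hr with h | h
    · exact ⟨b, fun l hl => by rcases hab l hl with h' | h'; exact Or.inl (h'.trans h.symm); exact Or.inr h'⟩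
    · exact ⟨a, fun l hl => by rcases hab l hl with h' | h'; exact Or.inr h'; exact Or.inl (h'.trans h.symm)⟩
  obtain ⟨y, hy⟩ : ∃ y : Fin m, ∀ k, k ≠ y → c (k, s) ≠ mu := by
    by_cases hex : ∃ y, c (y, s) = mu
    · obtain ⟨y, hy⟩ := hex
      exact ⟨y, fun k hk hk' => hk (layer_inj hc s (hk'.trans hy.symm))⟩
    · exact ⟨i0, fun k _ hk' => hex ⟨k, hk'⟩⟩
  refine ⟨y, fun k hk hky => ⟨?_, (i0, j), (i0, r), (adj_iff L).2 (Or.inl ⟨hk, rfl⟩),
    (adj_iff L).2 (Or.inr ⟨hr, rfl⟩), hi0⟩⟩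
  rintro ⟨w1, w2⟩ hw
  rw [adj_iff] at hw
  rcases hw with ⟨_, rfl⟩ | ⟨hw, rfl⟩
  · exact hj w1
  · rcases hs w2 hw with rfl | rfl
    · intro h
      exact hk (layer_inj hc w2 (h.trans hi0.symm))
    · exact hy k hky

/-- **(2)** with `m + 1` colours the missing colours of the layers are distinct, so `n ≤ m + 1` -/
theorem le_of_locating (hm : 5 ≤ m) (hL : L.Connected)
    (hdeg : ∀ j, ∃ a b, ∀ l, L.Adj j l → l = a ∨ l = b)
    (h : IsLocating (GG m L) (m + 1) c) : n ≤ m + 1 := by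
  classical
  have hc := h.1
  choose mu hmu using exists_missing hc
  suffices hinj : Function.Injective mu by
    have := Fintype.card_le_of_injective _ hinj
    simpa using this
  intro j j' hjj'
  by_contra hne
  set M : Set (Fin n) := {l | ∀ i, c (i, l) ≠ mu j} with hM
  have hjM : j ∈ M := hmu j
  have hj'M : j' ∈ M := by
    intro i
    rw [hjj']
    exact hmu j' i
  -- a layer outside of M
  obtain ⟨w, hw⟩ := h.2.1 (mu j)
  have hout : w.2 ∉ M := fun hcon => hcon w.1 hw
  -- two layers of M with an outside neighbour are impossible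
  have huniq : ∀ p p' : Fin n, p ∈ M → p' ∈ M → p ≠ p' → (∃ r, L.Adj p r ∧ r ∉ M) →
      (∃ r, L.Adj p' r ∧ r ∉ M) → False := by
    rintro p p' hp hp' hpp ⟨r, hr, hrM⟩ ⟨r', hr', hrM'⟩
    have e1 : ∃ i, c (i, r) = mu j := by
      by_contra hcon
      push Not at hcon
      exact hrM hcon
    have e2 : ∃ i, c (i, r') = mu j := by
      by_contra hcon
      push Not at hcon
      exact hrM' hcon
    obtain ⟨i0, hi0⟩ := e1
    obtain ⟨i0', hi0'⟩ := e2
    obtain ⟨y, hy⟩ := few_bad hc hdeg hp hr hi0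
    obtain ⟨y', hy'⟩ := few_bad hc hdeg hp' hr' hi0'
    -- a colour avoiding the exceptions
    have hcard : ({mu j, c (i0, p), c (y, p), c (i0', p'), c (y', p')} : Finset (Fin (m + 1))).card
        < (Finset.univ : Finset (Fin (m + 1))).card := by
      have := Finset.card_le_five (a := mu j) (b := c (i0, p)) (c := c (y, p))
        (d := c (i0', p')) (e := c (y', p'))
      rw [Finset.card_univ, Fintype.card_fin]
      omega
    obtain ⟨q, _, hq⟩ := Finset.exists_mem_notMem_of_card_lt_card hcard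
    simp only [Finset.mem_insert, Finset.mem_singleton, not_or] at hq
    obtain ⟨q1, q2, q3, q4, q5⟩ := hq
    obtain ⟨k, hk⟩ := others hc hp q q1
    obtain ⟨k', hk'⟩ := others hc hp' q q1
    refine contra_good (by omega) hL h hpp hp hp' (hy k ?_ ?_) (hy' k' ?_ ?_) (hk.trans hk'.symm)
    · rintro rfl; exact q2 hk.symm
    · rintro rfl; exact q3 hk.symm
    · rintro rfl; exact q4 hk'.symm
    · rintro rfl; exact q5 hk'.symm
  -- a layer of M with an outside neighbour
  obtain ⟨p, hp, r, hpr, hrM⟩ : ∃ p ∈ M, ∃ r, L.Adj p r ∧ r ∉ M := by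
    obtain ⟨walk⟩ := hL.preconnected j w.2
    obtain ⟨d, _, h1, h2⟩ := walk.exists_boundary_dart M hjM hout
    exact ⟨d.fst, h1, d.snd, d.adj, h2⟩
  -- another layer of M
  obtain ⟨l, hl, hlp⟩ : ∃ l ∈ M, l ≠ p := by
    by_cases hjp : j = p
    · exact ⟨j', hj'M, fun h => hne (hjp.trans h.symm)⟩
    · exact ⟨j, hjM, hjp⟩
  -- boundary of M minus p
  obtain ⟨p', hp', hpp', hadj⟩ : ∃ p' ∈ M, p' ≠ p ∧ L.Adj p' p := by
    obtain ⟨walk⟩ := hL.preconnected l w.2
    obtain ⟨d, _, h1, h2⟩ := walk.exists_boundary_dart (M \ {p}) ⟨hl, hlp⟩ (fun h => hout h.1)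
    refine ⟨d.fst, h1.1, h1.2, ?_⟩
    have h3 : d.snd ∈ M := by
      by_contra hcon
      exact huniq d.fst p h1.1 hp h1.2 ⟨d.snd, d.adj, hcon⟩ ⟨r, hpr, hrM⟩
    have h4 : d.snd = p := by
      by_contra hcon
      exact h2 ⟨h3, hcon⟩
    rw [← h4]
    exact d.adj
  have hp'nb : ∀ s, L.Adj p' s → s ∈ M := by
    intro s hs
    by_contra hcon
    exact huniq p' p hp' hp hpp' ⟨s, hs, hcon⟩ ⟨r, hpr, hrM⟩
  have e1 : ∃ i, c (i, r) = mu j := by
    by_contra hcon
    push Not at hcon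
    exact hrM hcon
  obtain ⟨i, hi⟩ := e1
  have hrp' : r ≠ p' := fun h => hrM (h ▸ hp')
  -- neighbours of p
  have hpnb : ∀ s, L.Adj p s → s = p' ∨ s = r := by
    intro s hs
    obtain ⟨a, b, hab⟩ := hdeg p
    have h1 := hab s hs
    have h2 := hab p' hadj.symm
    have h3 := hab r hpr
    rcases h2 with h2 | h2 <;> rcases h3 with h3 | h3 <;> rcases h1 with h1 | h1
    · exact Or.inl (h1.trans h2.symm)
    · exact absurd (h3.trans h2.symm) hrp'
    · exact Or.inl (h1.trans h2.symm)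
    · exact Or.inr (h1.trans h3.symm)
    · exact Or.inr (h1.trans h3.symm)
    · exact Or.inl (h1.trans h2.symm)
    · exact absurd (h3.trans h2.symm) hrp'
    · exact Or.inl (h1.trans h2.symm)
  obtain ⟨k, hk⟩ := others hc hp (c (i, p')) (hp' i)
  have hki : k ≠ i := by
    rintro rfl
    exact hc (k, p) (k, p') ((adj_iff L).2 (Or.inr ⟨hadj.symm, rfl⟩)) hk
  refine contra_good (by omega) hL h hpp'.symm hp hp' (i := k) (i' := i) ⟨?_, ?_⟩ ⟨?_, ?_⟩ hk
  · rintro ⟨w1, w2⟩ hw
    rw [adj_iff] at hw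
    rcases hw with ⟨_, rfl⟩ | ⟨hw, rfl⟩
    · exact hp w1
    · rcases hpnb w2 hw with rfl | rfl
      · exact hp' k
      · intro hcon
        exact hki (layer_inj hc w2 (hcon.trans hi.symm))
  · exact ⟨(i, p), (i, r), (adj_iff L).2 (Or.inl ⟨hki, rfl⟩), (adj_iff L).2 (Or.inr ⟨hpr, rfl⟩), hi⟩
  · rintro ⟨w1, w2⟩ hw
    rw [adj_iff] at hw
    rcases hw with ⟨_, rfl⟩ | ⟨hw, rfl⟩
    · exact hp' w1
    · exact hp'nb w2 hw i
  · exact ⟨(i, p), (i, r), (adj_iff L).2 (Or.inr ⟨hadj, rfl⟩), (adj_iff L).2 (Or.inr ⟨hpr, rfl⟩), hi⟩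

end two

end Pool.Agent.R343.Loc
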