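import Pool.Agent.R343.Loc1

set_option autoImplicit false

namespace Pool.Agent.R343.Loc

open Finset

/-- a partial matching between columns and colours -/
def IsMat {m k : ℕ} (R : Fin m → Fin k → Prop) : Prop :=
  (∀ i c c', R i c → R i c' → c = c') ∧ ∀ i i' c, R i c → R i' c → i = i'

theorem isMat_of_inj {m k : ℕ} {f : Fin m → Fin k} (hf : Function.Injective f) :
    IsMat (fun i c => f i = c) :=
  ⟨fun _ _ _ h h' => h.symm.trans h', fun _ _ _ h h' => hf (h.trans h'.symm)⟩

/-- **Row filling lemma.** -/
theorem row_fill {m k : ℕ} (S : Finset (Fin k)) (hS : S.card = m) (hm : 8 ≤ m)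
    (p u v : Fin m → Fin k → Prop) (hp : IsMat p) (hu : IsMat u) (hv : IsMat v)
    (hpS : ∀ i c, p i c → c ∈ S) (D : Finset (Fin m)) (hD : D.card ≤ 4)
    (hpD : ∀ i c, p i c → i ∈ D) (hup : ∀ i c, p i c → ¬ u i c) (hvp : ∀ i c, p i c → ¬ v i c) :
    ∃ φ : Fin m → Fin k, Function.Injective φ ∧ (∀ i, φ i ∈ S) ∧ (∀ i c, p i c → φ i = c) ∧
      (∀ i, ¬ u i (φ i)) ∧ ∀ i, ¬ v i (φ i) := by
  classical
  -- the prescribed columns and colours
  set DP : Finset (Fin m) := univ.filter (fun i => ∃ c, p i c) with hDP
  have hDPD : DP ⊆ D := by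
    intro i hi
    obtain ⟨c, hc⟩ := (mem_filter.1 hi).2
    exact hpD i c hc
  have hDPc : DP.card ≤ 4 := (card_le_card hDPD).trans hD
  set CP : Finset (Fin k) := S.filter (fun c => ∃ i, p i c) with hCP
  set Fr : Finset (Fin k) := S \ CP with hFr
  -- the value on prescribed columns
  have hval : ∀ i : Fin m, ∃ c : Fin k, (∃ c', p i c') → p i c := by
    intro i
    by_cases h : ∃ c', p i c'
    · obtain ⟨c', hc'⟩ := h
      exact ⟨c', fun _ => hc'⟩
    · have : 0 < S.card := by omega
      obtain ⟨c, _⟩ := Finset.card_pos.1 this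
      exact ⟨c, fun h' => absurd h' h⟩
  choose pv hpv using hval
  have hpv' : ∀ i c, p i c → pv i = c := fun i c h => hp.1 i _ _ (hpv i ⟨c, h⟩) h
  -- card of CP = card of DP
  have hCPim : CP = DP.image pv := by
    ext c
    constructor
    · intro hc
      obtain ⟨_, i, hi⟩ := mem_filter.1 hc
      exact mem_image.2 ⟨i, mem_filter.2 ⟨mem_univ _, c, hi⟩, hpv' i c hi⟩
    · intro hc
      obtain ⟨i, hi, rfl⟩ := mem_image.1 hc
      have := hpv i (mem_filter.1 hi).2
      exact mem_filter.2 ⟨hpS _ _ this, i, this⟩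
  have hinj : Set.InjOn pv ↑DP := by
    intro i hi i' hi' h
    have h1 := hpv i (mem_filter.1 hi).2
    have h2 := hpv i' (mem_filter.1 hi').2
    rw [← h] at h2
    exact hp.2 i i' _ h1 h2
  have hCPc : CP.card = DP.card := by
    rw [hCPim, card_image_of_injOn hinj]
  have hCPS : CP ⊆ S := filter_subset _ _
  have hFrc : Fr.card = m - DP.card := by
    rw [hFr, card_sdiff_of_subset hCPS, hS, hCPc]
  -- the lists
  let t : Fin m → Finset (Fin k) := fun i =>
    if (∃ c, p i c) then {pv i} else Fr.filter (fun c => ¬ u i c ∧ ¬ v i c)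
  have hHall : ∀ A : Finset (Fin m), A.card ≤ (A.biUnion t).card := by
    intro A
    set A1 := A.filter (fun i => ∃ c, p i c) with hA1
    set A2 := A.filter (fun i => ¬ ∃ c, p i c) with hA2
    have hAc : A.card = A1.card + A2.card := (card_filter_add_card_filter_not _).symm
    have hA1DP : A1 ⊆ DP := fun i hi => mem_filter.2 ⟨mem_univ _, (mem_filter.1 hi).2⟩
    have hsub1 : A1.image pv ⊆ A.biUnion t := by
      intro c hc
      obtain ⟨i, hi, rfl⟩ := mem_image.1 hc
      obtain ⟨hi1, hi2⟩ := mem_filter.1 hi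
      refine mem_biUnion.2 ⟨i, hi1, ?_⟩
      show pv i ∈ (if (∃ c, p i c) then {pv i} else Fr.filter (fun c => ¬ u i c ∧ ¬ v i c))
      rw [if_pos hi2]
      exact mem_singleton_self _
    have hsub2 : (A2.biUnion fun i => Fr.filter (fun c => ¬ u i c ∧ ¬ v i c)) ⊆ A.biUnion t := by
      intro c hc
      obtain ⟨i, hi, hc⟩ := mem_biUnion.1 hc
      obtain ⟨hi1, hi2⟩ := mem_filter.1 hi
      refine mem_biUnion.2 ⟨i, hi1, ?_⟩
      show c ∈ (if (∃ c, p i c) then {pv i} else Fr.filter (fun c => ¬ u i c ∧ ¬ v i c))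
      rw [if_neg hi2]
      exact hc
    have hdisj : Disjoint (A1.image pv) (A2.biUnion fun i => Fr.filter (fun c => ¬ u i c ∧ ¬ v i c)) := by
      rw [disjoint_left]
      intro c hc1 hc2
      have h1 : c ∈ CP := by
        rw [hCPim]
        exact image_subset_image hA1DP hc1
      obtain ⟨i, _, hc2⟩ := mem_biUnion.1 hc2
      exact (mem_sdiff.1 (mem_filter.1 hc2).1).2 h1
    have hc1 : (A1.image pv).card = A1.card :=
      card_image_of_injOn (hinj.mono (by exact_mod_cast hA1DP))
    have hc2 : A2.card ≤ (A2.biUnion fun i => Fr.filter (fun c => ¬ u i c ∧ ¬ v i c)).card := by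
      have hA2c : A2.card ≤ m - DP.card := by
        have hsub : A2 ⊆ univ \ DP := by
          intro i hi
          refine mem_sdiff.2 ⟨mem_univ _, fun h => (mem_filter.1 hi).2 (mem_filter.1 h).2⟩
        refine (card_le_card hsub).trans ?_
        rw [card_sdiff_of_subset (subset_univ _), card_univ, Fintype.card_fin]
      by_cases h0 : A2.card = 0
      · rw [h0]; exact Nat.zero_le _
      by_cases hbig : A2.card + 2 ≤ Fr.card
      · obtain ⟨i, hi⟩ := card_pos.1 (Nat.pos_of_ne_zero h0)
        have hsub : Fr.filter (fun c => ¬ u i c ∧ ¬ v i c) ⊆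
            (A2.biUnion fun i => Fr.filter (fun c => ¬ u i c ∧ ¬ v i c)) :=
          subset_biUnion_of_mem (fun i => Fr.filter (fun c => ¬ u i c ∧ ¬ v i c)) hi
        refine le_trans ?_ (card_le_card hsub)
        have h1 : Fr ⊆ (Fr.filter (fun c => ¬ u i c ∧ ¬ v i c)) ∪
            ((univ.filter fun c => u i c) ∪ (univ.filter fun c => v i c)) := by
          intro c hc
          by_cases hcu : u i c
          · exact mem_union_right _ (mem_union_left _ (mem_filter.2 ⟨mem_univ _, hcu⟩))
          · by_cases hcv : v i c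
            · exact mem_union_right _ (mem_union_right _ (mem_filter.2 ⟨mem_univ _, hcv⟩))
            · exact mem_union_left _ (mem_filter.2 ⟨hc, hcu, hcv⟩)
        have h2 : (univ.filter fun c => u i c).card ≤ 1 := by
          rw [card_le_one]
          intro a ha b hb
          exact hu.1 i a b (mem_filter.1 ha).2 (mem_filter.1 hb).2
        have h3 : (univ.filter fun c => v i c).card ≤ 1 := by
          rw [card_le_one]
          intro a ha b hb
          exact hv.1 i a b (mem_filter.1 ha).2 (mem_filter.1 hb).2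
        have h4 := (card_le_card h1).trans (card_union_le _ _)
        have h5 := card_union_le (univ.filter fun c => u i c) (univ.filter fun c => v i c)
        omega
      · -- every free colour is allowed somewhere
        have hall : Fr ⊆ (A2.biUnion fun i => Fr.filter (fun c => ¬ u i c ∧ ¬ v i c)) := by
          intro c hc
          by_contra hcon
          have h1 : A2 ⊆ (univ.filter fun i => u i c) ∪ (univ.filter fun i => v i c) := by
            intro i hi
            by_contra hcon2
            apply hcon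
            refine mem_biUnion.2 ⟨i, hi, mem_filter.2 ⟨hc, ?_, ?_⟩⟩
            · intro h
              exact hcon2 (mem_union_left _ (mem_filter.2 ⟨mem_univ _, h⟩))
            · intro h
              exact hcon2 (mem_union_right _ (mem_filter.2 ⟨mem_univ _, h⟩))
          have h2 : (univ.filter fun i => u i c).card ≤ 1 := by
            rw [card_le_one]
            intro a ha b hb
            exact hu.2 a b c (mem_filter.1 ha).2 (mem_filter.1 hb).2
          have h3 : (univ.filter fun i => v i c).card ≤ 1 := by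
            rw [card_le_one]
            intro a ha b hb
            exact hv.2 a b c (mem_filter.1 ha).2 (mem_filter.1 hb).2
          have h4 := (card_le_card h1).trans (card_union_le _ _)
          omega
        refine le_trans ?_ (card_le_card hall)
        rw [hFrc]
        exact hA2c
    calc A.card = A1.card + A2.card := hAc
      _ ≤ (A1.image pv).card +
          (A2.biUnion fun i => Fr.filter (fun c => ¬ u i c ∧ ¬ v i c)).card := by
          rw [hc1]; exact Nat.add_le_add_left hc2 _
      _ = ((A1.image pv) ∪ (A2.biUnion fun i => Fr.filter (fun c => ¬ u i c ∧ ¬ v i c))).card :=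
          (card_union_of_disjoint hdisj).symm
      _ ≤ (A.biUnion t).card := card_le_card (union_subset hsub1 hsub2)
  obtain ⟨φ, hφ1, hφ2⟩ := (all_card_le_biUnion_card_iff_exists_injective t).1 hHall
  have hcase : ∀ i, (∃ c, p i c) ∧ φ i = pv i ∨
      (¬ ∃ c, p i c) ∧ φ i ∈ Fr ∧ ¬ u i (φ i) ∧ ¬ v i (φ i) := by
    intro i
    have h := hφ2 i
    change φ i ∈ (if (∃ c, p i c) then {pv i} else Fr.filter (fun c => ¬ u i c ∧ ¬ v i c)) at h
    by_cases hex : ∃ c, p i c
    · rw [if_pos hex] at h
      exact Or.inl ⟨hex, mem_singleton.1 h⟩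
    · rw [if_neg hex] at h
      obtain ⟨h1, h2, h3⟩ := mem_filter.1 h
      exact Or.inr ⟨hex, h1, h2, h3⟩
  refine ⟨φ, hφ1, ?_, ?_, ?_, ?_⟩
  · intro i
    rcases hcase i with ⟨hex, h⟩ | ⟨_, h, _⟩
    · rw [h]; exact hpS i _ (hpv i hex)
    · exact (mem_sdiff.1 h).1
  · intro i c hc
    rcases hcase i with ⟨_, h⟩ | ⟨hex, _⟩
    · rw [h]; exact hpv' i c hc
    · exact absurd ⟨c, hc⟩ hex
  · intro i
    rcases hcase i with ⟨hex, h⟩ | ⟨_, _, h, _⟩
    · rw [h]; exact hup i _ (hpv i hex)
    · exact h
  · intro i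
    rcases hcase i with ⟨hex, h⟩ | ⟨_, _, _, h⟩
    · rw [h]; exact hvp i _ (hpv i hex)
    · exact h

/-- cyclic successor -/
def nx (n j : ℕ) : ℕ := if j + 1 = n then 0 else j + 1

/-- cyclic predecessor -/
def pr (n j : ℕ) : ℕ := if j = 0 then n - 1 else j - 1

/-- **Array lemma.** -/
theorem array_fill {m k n : ℕ} (hn : 3 ≤ n) (hm : 8 ≤ m) (S : ℕ → Finset (Fin k))
    (hS : ∀ j < n, (S j).card = m) (p : ℕ → Fin m → Fin k → Prop)
    (hp : ∀ j < n, IsMat (p j)) (hpS : ∀ j < n, ∀ i c, p j i c → c ∈ S j)
    (hD : ∀ j < n, ∃ D : Finset (Fin m), D.card ≤ 4 ∧ ∀ i c, p j i c → i ∈ D)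
    (hadj : ∀ j < n, ∀ i c, p j i c → ¬ p (nx n j) i c) :
    ∃ φ : ℕ → Fin m → Fin k, ∀ j < n, Function.Injective (φ j) ∧ (∀ i, φ j i ∈ S j) ∧
      (∀ i c, p j i c → φ j i = c) ∧ ∀ i, φ j i ≠ φ (nx n j) i := by
  -- rows `0, ..., J`
  have key : ∀ J, J + 1 < n → ∃ φ : ℕ → Fin m → Fin k,
      (∀ j ≤ J, Function.Injective (φ j) ∧ (∀ i, φ j i ∈ S j) ∧ (∀ i c, p j i c → φ j i = c) ∧
        (∀ i, ¬ p (j + 1) i (φ j i))) ∧
      (∀ j < J, ∀ i, φ j i ≠ φ (j + 1) i) ∧ (∀ i, ¬ p (n - 1) i (φ 0 i)) := by
    intro J
    induction J with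
    | zero =>
      intro hJ
      obtain ⟨D, hD1, hD2⟩ := hD 0 (by omega)
      obtain ⟨f, f1, f2, f3, f4, f5⟩ := row_fill (S 0) (hS 0 (by omega)) hm (p 0) (p 1) (p (n - 1))
        (hp 0 (by omega)) (hp 1 (by omega)) (hp (n - 1) (by omega)) (hpS 0 (by omega)) D hD1 hD2
        (by
          intro i c h
          have := hadj 0 (by omega) i c h
          simpa [nx, show (0 + 1 = n) = False from by simp; omega] using this)
        (by
          intro i c h h'
          have := hadj (n - 1) (by omega) i c h'
          unfold nx at this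
          rw [if_pos (by omega)] at this
          exact this h)
      refine ⟨fun _ => f, ?_, ?_, ?_⟩
      · intro j hj
        obtain rfl : j = 0 := by omega
        exact ⟨f1, f2, f3, f4⟩
      · intro j hj; omega
      · exact f5
    | succ J ih =>
      intro hJ
      obtain ⟨φ, h1, h2, h3⟩ := ih (by omega)
      obtain ⟨D, hD1, hD2⟩ := hD (J + 1) (by omega)
      obtain ⟨f, f1, f2, f3, f4, f5⟩ := row_fill (S (J + 1)) (hS (J + 1) (by omega)) hm
        (p (J + 1)) (fun i c => φ J i = c) (p (J + 2))
        (hp (J + 1) (by omega)) (isMat_of_inj (h1 J le_rfl).1) (hp (J + 2) (by omega))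
        (hpS (J + 1) (by omega)) D hD1 hD2
        (by
          intro i c h h'
          have := (h1 J le_rfl).2.2.2 i
          rw [h'] at this
          exact this h)
        (by
          intro i c h
          have := hadj (J + 1) (by omega) i c h
          unfold nx at this
          rw [if_neg (by omega)] at this
          exact this)
      refine ⟨Function.update φ (J + 1) f, ?_, ?_, ?_⟩
      · intro j hj
        by_cases hjJ : j = J + 1
        · subst hjJ
          rw [Function.update_self]
          exact ⟨f1, f2, f3, f5⟩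
        · rw [Function.update_of_ne hjJ]
          exact h1 j (by omega)
      · intro j hj i
        by_cases hjJ : j = J
        · subst hjJ
          rw [Function.update_self, Function.update_of_ne (by omega)]
          intro h
          exact f4 i h
        · rw [Function.update_of_ne (by omega), Function.update_of_ne (by omega)]
          exact h2 j (by omega) i
      · rw [Function.update_of_ne (by omega)]
        exact h3
  obtain ⟨φ, h1, h2, h3⟩ := key (n - 2) (by omega)
  obtain ⟨D, hD1, hD2⟩ := hD (n - 1) (by omega)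
  obtain ⟨f, f1, f2, f3, f4, f5⟩ := row_fill (S (n - 1)) (hS (n - 1) (by omega)) hm
    (p (n - 1)) (fun i c => φ (n - 2) i = c) (fun i c => φ 0 i = c)
    (hp (n - 1) (by omega)) (isMat_of_inj (h1 (n - 2) le_rfl).1)
    (isMat_of_inj (h1 0 (by omega)).1)
    (hpS (n - 1) (by omega)) D hD1 hD2
    (by
      intro i c h h'
      have := (h1 (n - 2) le_rfl).2.2.2 i
      rw [h', show n - 2 + 1 = n - 1 from by omega] at this
      exact this h)
    (by
      intro i c h h'
      have := h3 i
      rw [h'] at this
      exact this h)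
  refine ⟨Function.update φ (n - 1) f, ?_⟩
  intro j hj
  by_cases hjn : j = n - 1
  · subst hjn
    rw [Function.update_self]
    refine ⟨f1, f2, f3, fun i => ?_⟩
    unfold nx
    rw [if_pos (by omega), Function.update_of_ne (by omega)]
    intro h
    exact f5 i h.symm
  · rw [Function.update_of_ne hjn]
    obtain ⟨g1, g2, g3, g4⟩ := h1 j (by omega)
    refine ⟨g1, g2, g3, fun i => ?_⟩
    unfold nx
    rw [if_neg (by omega)]
    by_cases hjn2 : j + 1 = n - 1
    · rw [hjn2, Function.update_self]
      have : j = n - 2 := by omega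
      rw [this]
      intro h
      exact f4 i h
    · rw [Function.update_of_ne hjn2]
      exact h2 j (by omega) i

/-- a row that is injective into a set of size `m` takes every value of the set -/
theorem row_surj {m k : ℕ} {S : Finset (Fin k)} (hS : S.card = m) {f : Fin m → Fin k}
    (hf : Function.Injective f) (hfS : ∀ i, f i ∈ S) {q : Fin k} (hq : q ∈ S) : ∃ i, f i = q := by
  classical
  have h1 : univ.image f ⊆ S := by
    intro x hx
    obtain ⟨i, _, rfl⟩ := mem_image.1 hx
    exact hfS i
  have h2 : univ.image f = S := by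
    apply eq_of_subset_of_card_le h1
    rw [card_image_of_injective _ hf, hS]
    simp
  rw [← h2] at hq
  obtain ⟨i, _, hi⟩ := mem_image.1 hq
  exact ⟨i, hi⟩

end Pool.Agent.R343.Loc
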