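import Pool.Agent.R343.Loc2

set_option autoImplicit false

namespace Pool.Agent.R343.Loc

open SimpleGraph

theorem nx_spec (n j : ℕ) : (j + 1 = n ∧ nx n j = 0) ∨ (j + 1 ≠ n ∧ nx n j = j + 1) := by
  unfold nx
  by_cases h : j + 1 = n
  · exact Or.inl ⟨h, if_pos h⟩
  · exact Or.inr ⟨h, if_neg h⟩

theorem pr_spec (n j : ℕ) : (j = 0 ∧ pr n j = n - 1) ∨ (j ≠ 0 ∧ pr n j = j - 1) := by
  unfold pr
  by_cases h : j = 0
  · exact Or.inl ⟨h, if_pos h⟩
  · exact Or.inr ⟨h, if_neg h⟩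

section gen

variable {m n k : ℕ} {L : SimpleGraph (Fin n)} {φ : ℕ → Fin m → Fin k}

/-- the colouring given by an array -/
def col (φ : ℕ → Fin m → Fin k) : Fin m × Fin n → Fin k := fun v => φ v.2 v.1

theorem nx_pr {j : ℕ} (hj : j < n) : nx n (pr n j) = j := by
  have h1 := pr_spec n j
  have h2 := nx_spec n (pr n j)
  omega

theorem pr_nx {j : ℕ} (hj : j < n) : pr n (nx n j) = j := by
  have h1 := nx_spec n j
  have h2 := pr_spec n (nx n j)
  omega

theorem nx_lt {j : ℕ} (hj : j < n) : nx n j < n := by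
  have := nx_spec n j
  omega

theorem pr_lt {j : ℕ} (hj : j < n) : pr n j < n := by
  have := pr_spec n j
  omega

theorem proper_col (hLn : ∀ j l : Fin n, L.Adj j l → (l : ℕ) = nx n j ∨ (l : ℕ) = pr n j)
    (h1 : ∀ j < n, Function.Injective (φ j)) (h2 : ∀ j < n, ∀ i, φ j i ≠ φ (nx n j) i) :
    ∀ u v, (GG m L).Adj u v → col (n := n) φ u ≠ col (n := n) φ v := by
  rintro ⟨i, j⟩ ⟨i', j'⟩ h
  rw [adj_iff] at h
  rcases h with ⟨h, rfl⟩ | ⟨h, rfl⟩
  · intro hc
    exact h (h1 j j.2 hc)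
  · show φ j i ≠ φ j' i
    rcases hLn j j' h with h' | h'
    · rw [h']; exact h2 j j.2 i
    · have h3 := h2 (pr n j) (pr_lt j.2) i
      rw [nx_pr j.2] at h3
      rw [h']
      exact h3.symm

/-- the vertex does not see the colour `b` -/
theorem no_nb (hLn : ∀ j l : Fin n, L.Adj j l → (l : ℕ) = nx n j ∨ (l : ℕ) = pr n j)
    {i I : Fin m} {j : Fin n} {b : Fin k} (hb : ∀ i, φ j i ≠ b)
    (hnb : ∀ l, (l = nx n j ∨ l = pr n j) → ∀ i, φ l i = b → i = I) (hi : i ≠ I) :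
    ∀ w, (GG m L).Adj (i, j) w → col (n := n) φ w ≠ b := by
  rintro ⟨i', j'⟩ h
  rw [adj_iff] at h
  rcases h with ⟨_, rfl⟩ | ⟨h, rfl⟩
  · exact hb i'
  · intro hc
    exact hi (hnb j' (hLn j j' h) i hc)

theorem code_contra (hG : (GG m L).Connected)
    (hs : Function.Surjective (col (n := n) φ))
    (hLn : ∀ j l : Fin n, L.Adj j l → (l : ℕ) = nx n j ∨ (l : ℕ) = pr n j)
    {i i' I : Fin m} {j j' : Fin n} {b : Fin k}
    (hcode : ∀ q, distSet (GG m L) (i, j) {x | col (n := n) φ x = q} =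
      distSet (GG m L) (i', j') {x | col (n := n) φ x = q})
    (hcc : φ j i = φ j' i') (hb : ∀ i, φ j i ≠ b)
    (hnb : ∀ l, (l = nx n j ∨ l = pr n j) → ∀ i, φ l i = b → i = I)
    (hpres : ∃ k, φ j' k = b) (hi : i ≠ I) : False := by
  have h1 : 2 ≤ distSet (GG m L) (i, j) {x | col (n := n) φ x = b} :=
    ds_ge_two hG (hb i) (hs b) (no_nb hLn hb hnb hi)
  obtain ⟨k0, hk0⟩ := hpres
  have h2 : distSet (GG m L) (i', j') {x | col (n := n) φ x = b} ≤ 1 := by
    refine ds_le_one (w := (k0, j')) ((adj_iff L).2 (Or.inl ⟨?_, rfl⟩)) hk0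
    rintro rfl
    exact hb i (hcc.trans hk0)
  rw [hcode b] at h1
  omega

/-- the main trick: two vertices of the same colour in different layers -/
theorem pair_contra (hG : (GG m L).Connected)
    (hs : Function.Surjective (col (n := n) φ))
    (hLn : ∀ j l : Fin n, L.Adj j l → (l : ℕ) = nx n j ∨ (l : ℕ) = pr n j)
    {i i' I I' : Fin m} {j j' : Fin n} {b b' : Fin k}
    (hcode : ∀ q, distSet (GG m L) (i, j) {x | col (n := n) φ x = q} =
      distSet (GG m L) (i', j') {x | col (n := n) φ x = q})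
    (hcc : φ j i = φ j' i') (hX : φ j I ≠ φ j' I') (hb : ∀ i, φ j i ≠ b) (hb' : ∀ i, φ j' i ≠ b')
    (hnb : ∀ l, (l = nx n j ∨ l = pr n j) → ∀ i, φ l i = b → i = I)
    (hnb' : ∀ l, (l = nx n j' ∨ l = pr n j') → ∀ i, φ l i = b' → i = I')
    (hpres : ∃ k, φ j' k = b) (hpres' : ∃ k, φ j k = b') : False := by
  by_cases hi : i = I
  · by_cases hi' : i' = I'
    · subst hi hi'
      exact hX hcc
    · exact code_contra hG hs hLn (fun q => (hcode q).symm) hcc.symm hb' hnb' hpres' hi'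
  · exact code_contra hG hs hLn hcode hcc hb hnb hpres hi

theorem same_color {V : Type} {G : SimpleGraph V} (hG : G.Connected) {k : ℕ} {c : V → Fin k}
    {u v : V} (h : ∀ q, distSet G u {x | c x = q} = distSet G v {x | c x = q}) : c u = c v := by
  by_contra hne
  have h1 := h (c u)
  rw [ds0 rfl] at h1
  have h2 := ds_pos hG (u := v) (q := c u) (fun h' => hne h'.symm) ⟨u, rfl⟩
  omega

end gen

/-! ### `m + 1` colours for `n ≤ m + 1` -/

section three

variable {m n : ℕ}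

/-- column of layer `j` -/
def cv (m j : ℕ) : ℕ := if j < m then j else 3

theorem cv_spec (m j : ℕ) : (j < m ∧ cv m j = j) ∨ (m ≤ j ∧ cv m j = 3) := by
  unfold cv
  by_cases h : j < m
  · exact Or.inl ⟨h, if_pos h⟩
  · exact Or.inr ⟨not_lt.1 h, if_neg h⟩

/-- colour of the special vertex of layer `j` -/
def xv (n j : ℕ) : ℕ := if j + 3 < n then j + 3 else j + 3 - n

theorem xv_spec (n j : ℕ) : (j + 3 < n ∧ xv n j = j + 3) ∨ (n ≤ j + 3 ∧ xv n j = j + 3 - n) := by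
  unfold xv
  by_cases h : j + 3 < n
  · exact Or.inl ⟨h, if_pos h⟩
  · exact Or.inr ⟨not_lt.1 h, if_neg h⟩

/-- the prescribed entries -/
def P3 (m n j : ℕ) (i : Fin m) (c : Fin (m + 1)) : Prop :=
  ((i : ℕ) = cv m (pr n j) ∧ (c : ℕ) = pr n j) ∨ ((i : ℕ) = cv m (nx n j) ∧ (c : ℕ) = nx n j) ∨
    ((i : ℕ) = cv m j ∧ (c : ℕ) = xv n j)

theorem cvF_lt (hm : 8 ≤ m) (j : ℕ) : cv m j < m := by
  have := cv_spec m j
  omega

theorem exists_array3 (hm : 8 ≤ m) (hn : 7 ≤ n) (hnm : n ≤ m + 1) :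
    ∃ φ : ℕ → Fin m → Fin (m + 1), ∀ j < n, Function.Injective (φ j) ∧
      (∀ i, (φ j i : ℕ) ≠ j) ∧ (∀ i c, P3 m n j i c → φ j i = c) ∧
      ∀ i, φ j i ≠ φ (nx n j) i := by
  classical
  obtain ⟨φ, hφ⟩ := array_fill (k := m + 1) (by omega : 3 ≤ n) hm
    (fun j => Finset.univ.filter (fun c : Fin (m + 1) => (c : ℕ) ≠ j))
    (by
      intro j hj
      have h1 : (Finset.univ.filter (fun c : Fin (m + 1) => (c : ℕ) ≠ j)) =
          Finset.univ.erase ⟨j, by omega⟩ := by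
        ext c
        simp [Fin.ext_iff]
      rw [h1, Finset.card_erase_of_mem (Finset.mem_univ _)]
      simp)
    (P3 m n)
    (by
      intro j hj
      have e1 := pr_spec n j
      have e2 := nx_spec n j
      have e3 := cv_spec m (pr n j)
      have e4 := cv_spec m (nx n j)
      have e5 := cv_spec m j
      have e6 := xv_spec n j
      constructor
      · intro i c c' h h'
        apply Fin.ext
        rcases h with ⟨a1, a2⟩ | ⟨a1, a2⟩ | ⟨a1, a2⟩ <;>
          rcases h' with ⟨b1, b2⟩ | ⟨b1, b2⟩ | ⟨b1, b2⟩ <;> omega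
      · intro i i' c h h'
        apply Fin.ext
        rcases h with ⟨a1, a2⟩ | ⟨a1, a2⟩ | ⟨a1, a2⟩ <;>
          rcases h' with ⟨b1, b2⟩ | ⟨b1, b2⟩ | ⟨b1, b2⟩ <;> omega)
    (by
      intro j hj i c h
      have e1 := pr_spec n j
      have e2 := nx_spec n j
      have e6 := xv_spec n j
      rw [Finset.mem_filter]
      refine ⟨Finset.mem_univ _, ?_⟩
      rcases h with ⟨a1, a2⟩ | ⟨a1, a2⟩ | ⟨a1, a2⟩ <;> omega)
    (by
      intro j hj
      refine ⟨{⟨cv m (pr n j), cvF_lt hm _⟩, ⟨cv m (nx n j), cvF_lt hm _⟩,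
        ⟨cv m j, cvF_lt hm _⟩}, ?_, ?_⟩
      · exact (Finset.card_le_three).trans (by norm_num)
      · intro i c h
        simp only [Finset.mem_insert, Finset.mem_singleton, Fin.ext_iff]
        rcases h with ⟨a1, a2⟩ | ⟨a1, a2⟩ | ⟨a1, a2⟩
        · exact Or.inl a1
        · exact Or.inr (Or.inl a1)
        · exact Or.inr (Or.inr a1))
    (by
      intro j hj i c h h'
      have e1 := pr_spec n j
      have e2 := nx_spec n j
      have e6 := xv_spec n j
      have f1 := pr_spec n (nx n j)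
      have f2 := nx_spec n (nx n j)
      have f6 := xv_spec n (nx n j)
      rcases h with ⟨a1, a2⟩ | ⟨a1, a2⟩ | ⟨a1, a2⟩ <;>
        rcases h' with ⟨b1, b2⟩ | ⟨b1, b2⟩ | ⟨b1, b2⟩ <;> omega)
  refine ⟨φ, fun j hj => ?_⟩
  obtain ⟨h1, h2, h3, h4⟩ := hφ j hj
  exact ⟨h1, fun i => (Finset.mem_filter.1 (h2 i)).2, h3, h4⟩

theorem locating3 (hm : 8 ≤ m) (hn : 7 ≤ n) (hnm : n ≤ m + 1) (L : SimpleGraph (Fin n))
    (hL : L.Connected)
    (hLn : ∀ j l : Fin n, L.Adj j l → (l : ℕ) = nx n j ∨ (l : ℕ) = pr n j) :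
    ∃ c : Fin m × Fin n → Fin (m + 1), IsLocating (GG m L) (m + 1) c := by
  classical
  obtain ⟨φ, hφ⟩ := exists_array3 hm hn hnm
  have hG := conn (m := m) (by omega) hL
  have hpres : ∀ j < n, ∀ q : Fin (m + 1), (q : ℕ) ≠ j → ∃ i, φ j i = q := by
    intro j hj q hq
    obtain ⟨h1, h2, _⟩ := hφ j hj
    have hS : (Finset.univ.filter (fun c : Fin (m + 1) => (c : ℕ) ≠ j)).card = m := by
      have h1 : (Finset.univ.filter (fun c : Fin (m + 1) => (c : ℕ) ≠ j)) =
          Finset.univ.erase ⟨j, by omega⟩ := by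
        ext c
        simp [Fin.ext_iff]
      rw [h1, Finset.card_erase_of_mem (Finset.mem_univ _)]
      simp
    exact row_surj hS h1 (fun i => Finset.mem_filter.2 ⟨Finset.mem_univ _, h2 i⟩)
      (Finset.mem_filter.2 ⟨Finset.mem_univ _, hq⟩)
  have hs : Function.Surjective (col (n := n) φ) := by
    intro q
    by_cases hq : (q : ℕ) = 0
    · obtain ⟨i, hi⟩ := hpres 1 (by omega) q (by omega)
      exact ⟨(i, ⟨1, by omega⟩), hi⟩
    · obtain ⟨i, hi⟩ := hpres 0 (by omega) q hq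
      exact ⟨(i, ⟨0, by omega⟩), hi⟩
  refine ⟨col φ, proper_col hLn (fun j hj => (hφ j hj).1) (fun j hj => (hφ j hj).2.2.2), hs, ?_⟩
  rintro ⟨i, j⟩ ⟨i', j'⟩ hcode
  have hcc : φ j i = φ j' i' := same_color hG hcode
  by_cases hjj : j = j'
  · subst hjj
    rw [(hφ j j.2).1 hcc]
  · exfalso
    have hjj' : (j : ℕ) ≠ j' := fun h => hjj (Fin.ext h)
    have hjn := j.2
    have hj'n := j'.2
    have hnb : ∀ (j : ℕ) (hj : j < n), ∀ l, (l = nx n j ∨ l = pr n j) → ∀ i,
        φ l i = ⟨j, by omega⟩ → i = ⟨cv m j, cvF_lt hm j⟩ := by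
      intro j hj l hl i hi
      have hln : l < n := by
        rcases hl with rfl | rfl
        · exact nx_lt hj
        · exact pr_lt hj
      have h1 : φ l ⟨cv m j, cvF_lt hm j⟩ = ⟨j, by omega⟩ := by
        apply (hφ l hln).2.2.1
        rcases hl with rfl | rfl
        · left
          rw [pr_nx hj]
          exact ⟨rfl, rfl⟩
        · right; left
          rw [nx_pr hj]
          exact ⟨rfl, rfl⟩
      exact (hφ l hln).1 (hi.trans h1.symm)
    have hxlt : ∀ j < n, xv n j < m + 1 := by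
      intro j hj
      have := xv_spec n j
      omega
    have hXv : ∀ (j : ℕ) (hj : j < n), φ j ⟨cv m j, cvF_lt hm j⟩ = ⟨xv n j, hxlt j hj⟩ := by
      intro j hj
      apply (hφ j hj).2.2.1
      right; right
      exact ⟨rfl, rfl⟩
    refine pair_contra hG hs hLn (I := ⟨cv m j, cvF_lt hm j⟩) (I' := ⟨cv m j', cvF_lt hm j'⟩)
      (b := ⟨j, by omega⟩) (b' := ⟨j', by omega⟩) hcode hcc ?_ ?_ ?_ (hnb j j.2) (hnb j' j'.2)
      (hpres j' j'.2 _ hjj') (hpres j j.2 _ (Ne.symm hjj'))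
    · rw [hXv j j.2, hXv j' j'.2]
      intro h
      have h' := Fin.ext_iff.1 h
      have e1 := xv_spec n j
      have e2 := xv_spec n j'
      simp only at h'
      omega
    · intro k hk
      exact (hφ j j.2).2.1 k (Fin.ext_iff.1 hk)
    · intro k hk
      exact (hφ j' j'.2).2.1 k (Fin.ext_iff.1 hk)

end three

end Pool.Agent.R343.Loc
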