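import Pool.Agent.R343.Loc3

set_option autoImplicit false

namespace Pool.Agent.R343.Loc

open SimpleGraph

/-! ### `m + 2` colours always suffice -/

section four

variable {m n : ℕ}

/-- colour code (and column) of layer `j` -/
def Bv (n j : ℕ) : ℕ := if 2 * j ≤ n then 3 + j % 4 else 7 + j % 4

theorem Bv_spec (n j : ℕ) : (2 * j ≤ n ∧ Bv n j = 3 + j % 4) ∨ (n < 2 * j ∧ Bv n j = 7 + j % 4) := by
  unfold Bv
  by_cases h : 2 * j ≤ n
  · exact Or.inl ⟨h, if_pos h⟩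
  · exact Or.inr ⟨not_le.1 h, if_neg h⟩

theorem Bv_lt (n j : ℕ) : 3 ≤ Bv n j ∧ Bv n j ≤ 10 := by
  have := Bv_spec n j
  omega

/-- the prescribed entries -/
def P4 (m n j : ℕ) (i : Fin m) (c : Fin (m + 2)) : Prop :=
  (j = 0 ∧ (i : ℕ) = 0 ∧ (c : ℕ) = 0) ∨
  ((j = 1 ∨ j + 1 = n) ∧ (i : ℕ) = 1 ∧ (c : ℕ) = 1) ∨
  ((j = 1 ∨ j + 1 = n) ∧ (i : ℕ) = 2 ∧ (c : ℕ) = 2) ∨
  (j ≠ 0 ∧ (i : ℕ) = Bv n j ∧ (c : ℕ) = Bv n j + 8) ∨
  (nx n j ≠ 0 ∧ (i : ℕ) = Bv n (nx n j) ∧ (c : ℕ) = Bv n (nx n j)) ∨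
  (pr n j ≠ 0 ∧ (i : ℕ) = Bv n (pr n j) ∧ (c : ℕ) = Bv n (pr n j))

/-- the two missing colours of layer `j` -/
def mis (n j : ℕ) (c : ℕ) : Prop := (j = 0 ∧ (c = 1 ∨ c = 2)) ∨ (j ≠ 0 ∧ (c = 0 ∨ c = Bv n j))

theorem BvF_lt (hm : 17 ≤ m) (n j : ℕ) : Bv n j < m := by
  have := Bv_lt n j
  omega

open Classical in
/-- the colours of layer `j` -/
noncomputable def S4 (m n j : ℕ) : Finset (Fin (m + 2)) :=
  Finset.univ.filter (fun c => ¬ mis n j c)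

theorem mem_S4 {j : ℕ} {c : Fin (m + 2)} : c ∈ S4 m n j ↔ ¬ mis n j c := by
  classical
  unfold S4
  rw [Finset.mem_filter]
  exact ⟨fun h => h.2, fun h => ⟨Finset.mem_univ _, h⟩⟩

theorem card_S4 (hm : 17 ≤ m) (j : ℕ) : (S4 m n j).card = m := by
  classical
  have hB := Bv_lt n j
  by_cases hj : j = 0
  · have h1 : S4 m n j = (Finset.univ.erase (⟨1, by omega⟩ : Fin (m + 2))).erase ⟨2, by omega⟩ := by
      ext c
      rw [mem_S4, Finset.mem_erase, Finset.mem_erase]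
      simp only [mis, ne_eq, Fin.ext_iff, Finset.mem_univ, and_true]
      omega
    rw [h1, Finset.card_erase_of_mem, Finset.card_erase_of_mem (Finset.mem_univ _)]
    · simp
    · rw [Finset.mem_erase]
      refine ⟨?_, Finset.mem_univ _⟩
      intro h
      have := Fin.ext_iff.1 h
      simp at this
  · have h1 : S4 m n j = (Finset.univ.erase (⟨0, by omega⟩ : Fin (m + 2))).erase
        ⟨Bv n j, by omega⟩ := by
      ext c
      rw [mem_S4, Finset.mem_erase, Finset.mem_erase]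
      simp only [mis, ne_eq, Fin.ext_iff, Finset.mem_univ, and_true]
      omega
    rw [h1, Finset.card_erase_of_mem, Finset.card_erase_of_mem (Finset.mem_univ _)]
    · simp
    · rw [Finset.mem_erase]
      refine ⟨?_, Finset.mem_univ _⟩
      intro h
      have := Fin.ext_iff.1 h
      simp only at this
      omega

theorem exists_array4 (hm : 17 ≤ m) (hn : 8 ≤ n) :
    ∃ φ : ℕ → Fin m → Fin (m + 2), ∀ j < n, Function.Injective (φ j) ∧
      (∀ i, φ j i ∈ S4 m n j) ∧ (∀ i c, P4 m n j i c → φ j i = c) ∧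
      ∀ i, φ j i ≠ φ (nx n j) i := by
  classical
  refine array_fill (k := m + 2) (by omega : 3 ≤ n) (by omega) (S4 m n) (fun j _ => card_S4 hm j)
    (P4 m n) ?_ ?_ ?_ ?_
  · intro j hj
    have e1 := pr_spec n j
    have e2 := nx_spec n j
    have e3 := Bv_spec n (pr n j)
    have e4 := Bv_spec n (nx n j)
    have e5 := Bv_spec n j
    constructor
    · intro i c c' h h'
      apply Fin.ext
      rcases h with ⟨a0, a1, a2⟩ | ⟨a0, a1, a2⟩ | ⟨a0, a1, a2⟩ | ⟨a0, a1, a2⟩ | ⟨a0, a1, a2⟩ |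
          ⟨a0, a1, a2⟩ <;>
        rcases h' with ⟨b0, b1, b2⟩ | ⟨b0, b1, b2⟩ | ⟨b0, b1, b2⟩ | ⟨b0, b1, b2⟩ | ⟨b0, b1, b2⟩ |
          ⟨b0, b1, b2⟩ <;> omega
    · intro i i' c h h'
      apply Fin.ext
      rcases h with ⟨a0, a1, a2⟩ | ⟨a0, a1, a2⟩ | ⟨a0, a1, a2⟩ | ⟨a0, a1, a2⟩ | ⟨a0, a1, a2⟩ |
          ⟨a0, a1, a2⟩ <;>
        rcases h' with ⟨b0, b1, b2⟩ | ⟨b0, b1, b2⟩ | ⟨b0, b1, b2⟩ | ⟨b0, b1, b2⟩ | ⟨b0, b1, b2⟩ |
          ⟨b0, b1, b2⟩ <;> omega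
  · intro j hj i c h
    have e1 := pr_spec n j
    have e2 := nx_spec n j
    have e3 := Bv_spec n (pr n j)
    have e4 := Bv_spec n (nx n j)
    have e5 := Bv_spec n j
    rw [mem_S4]
    rintro (⟨f1, f2⟩ | ⟨f1, f2⟩) <;>
      rcases h with ⟨a0, a1, a2⟩ | ⟨a0, a1, a2⟩ | ⟨a0, a1, a2⟩ | ⟨a0, a1, a2⟩ | ⟨a0, a1, a2⟩ |
          ⟨a0, a1, a2⟩ <;> omega
  · intro j hj
    have e1 := pr_spec n j
    have e2 := nx_spec n j
    by_cases h0 : j = 0
    · refine ⟨{⟨0, by omega⟩, ⟨Bv n (pr n j), BvF_lt hm _ _⟩, ⟨Bv n (nx n j), BvF_lt hm _ _⟩,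
        ⟨Bv n j, BvF_lt hm _ _⟩}, Finset.card_le_four, ?_⟩
      intro i c h
      simp only [Finset.mem_insert, Finset.mem_singleton, Fin.ext_iff]
      rcases h with ⟨a0, a1, a2⟩ | ⟨a0, a1, a2⟩ | ⟨a0, a1, a2⟩ | ⟨a0, a1, a2⟩ | ⟨a0, a1, a2⟩ |
          ⟨a0, a1, a2⟩ <;> omega
    · by_cases h1 : j = 1
      · refine ⟨{⟨1, by omega⟩, ⟨2, by omega⟩, ⟨Bv n (nx n j), BvF_lt hm _ _⟩,
          ⟨Bv n j, BvF_lt hm _ _⟩}, Finset.card_le_four, ?_⟩
        intro i c h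
        simp only [Finset.mem_insert, Finset.mem_singleton, Fin.ext_iff]
        rcases h with ⟨a0, a1, a2⟩ | ⟨a0, a1, a2⟩ | ⟨a0, a1, a2⟩ | ⟨a0, a1, a2⟩ | ⟨a0, a1, a2⟩ |
          ⟨a0, a1, a2⟩ <;> omega
      · by_cases h2 : j + 1 = n
        · refine ⟨{⟨1, by omega⟩, ⟨2, by omega⟩, ⟨Bv n (pr n j), BvF_lt hm _ _⟩,
            ⟨Bv n j, BvF_lt hm _ _⟩}, Finset.card_le_four, ?_⟩
          intro i c h
          simp only [Finset.mem_insert, Finset.mem_singleton, Fin.ext_iff]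
          rcases h with ⟨a0, a1, a2⟩ | ⟨a0, a1, a2⟩ | ⟨a0, a1, a2⟩ | ⟨a0, a1, a2⟩ | ⟨a0, a1, a2⟩ |
            ⟨a0, a1, a2⟩ <;> omega
        · refine ⟨{⟨0, by omega⟩, ⟨Bv n (pr n j), BvF_lt hm _ _⟩, ⟨Bv n (nx n j), BvF_lt hm _ _⟩,
            ⟨Bv n j, BvF_lt hm _ _⟩}, Finset.card_le_four, ?_⟩
          intro i c h
          simp only [Finset.mem_insert, Finset.mem_singleton, Fin.ext_iff]
          rcases h with ⟨a0, a1, a2⟩ | ⟨a0, a1, a2⟩ | ⟨a0, a1, a2⟩ | ⟨a0, a1, a2⟩ | ⟨a0, a1, a2⟩ |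
            ⟨a0, a1, a2⟩ <;> omega
  · intro j hj i c h h'
    have e1 := pr_spec n j
    have e2 := nx_spec n j
    have e3 := Bv_spec n (pr n j)
    have e4 := Bv_spec n (nx n j)
    have e5 := Bv_spec n j
    have f1 := pr_spec n (nx n j)
    have f2 := nx_spec n (nx n j)
    have f3 := Bv_spec n (pr n (nx n j))
    have f4 := Bv_spec n (nx n (nx n j))
    rcases h with ⟨a0, a1, a2⟩ | ⟨a0, a1, a2⟩ | ⟨a0, a1, a2⟩ | ⟨a0, a1, a2⟩ | ⟨a0, a1, a2⟩ |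
        ⟨a0, a1, a2⟩ <;>
      rcases h' with ⟨b0, b1, b2⟩ | ⟨b0, b1, b2⟩ | ⟨b0, b1, b2⟩ | ⟨b0, b1, b2⟩ | ⟨b0, b1, b2⟩ |
        ⟨b0, b1, b2⟩ <;> omega

theorem locating4 (hm : 17 ≤ m) (hn : 8 ≤ n) (L : SimpleGraph (Fin n))
    (hL : L.Connected)
    (hLn : ∀ j l : Fin n, L.Adj j l → (l : ℕ) = nx n j ∨ (l : ℕ) = pr n j)
    (t : ℕ → ℕ) (ht0 : t 0 = 0)
    (hlip : ∀ j l : Fin n, L.Adj j l → t j ≤ t l + 1)
    (hdesc : ∀ j : Fin n, (j : ℕ) ≠ 0 → ∃ l, L.Adj j l ∧ t l + 1 = t j)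
    (hsep : ∀ j j' : ℕ, j ≠ 0 → j' ≠ 0 → j < n → j' < n → j ≠ j' → t j ≤ t j' + 1 →
      t j' ≤ t j + 1 → Bv n j ≠ Bv n j') :
    ∃ c : Fin m × Fin n → Fin (m + 2), IsLocating (GG m L) (m + 2) c := by
  classical
  obtain ⟨φ, hφ⟩ := exists_array4 hm hn
  have hG := conn (m := m) (by omega) hL
  have hpres : ∀ j < n, ∀ q : Fin (m + 2), ¬ mis n j q → ∃ i, φ j i = q := by
    intro j hj q hq
    obtain ⟨h1, h2, _⟩ := hφ j hj
    exact row_surj (card_S4 hm j) h1 h2 (mem_S4.2 hq)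
  have hmis : ∀ j < n, ∀ i, ¬ mis n j (φ j i) := by
    intro j hj i
    exact mem_S4.1 ((hφ j hj).2.1 i)
  have hs : Function.Surjective (col (n := n) φ) := by
    intro q
    by_cases hq : (q : ℕ) = 1 ∨ (q : ℕ) = 2
    · obtain ⟨i, hi⟩ := hpres 1 (by omega) q (by
        have := Bv_lt n 1
        rintro (⟨h1, h2⟩ | ⟨h1, h2⟩) <;> omega)
      exact ⟨(i, ⟨1, by omega⟩), hi⟩
    · obtain ⟨i, hi⟩ := hpres 0 (by omega) q (by
        rintro (⟨h1, h2⟩ | ⟨h1, h2⟩) <;> omega)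
      exact ⟨(i, ⟨0, by omega⟩), hi⟩
  have h00 : φ 0 ⟨0, by omega⟩ = ⟨0, by omega⟩ := by
    apply (hφ 0 (by omega)).2.2.1
    left
    exact ⟨rfl, rfl, rfl⟩
  have honly : ∀ (i : Fin m) (j : Fin n), φ j i = ⟨0, by omega⟩ → i = ⟨0, by omega⟩ ∧
      j = ⟨0, by omega⟩ := by
    intro i j h
    by_cases hj : (j : ℕ) = 0
    · have hj' : j = ⟨0, by omega⟩ := Fin.ext hj
      rw [hj] at h
      exact ⟨(hφ 0 (by omega)).1 (h.trans h00.symm), hj'⟩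
    · exfalso
      have h1 := hmis j j.2 i
      rw [h] at h1
      exact h1 (Or.inr ⟨hj, Or.inl rfl⟩)
  -- the distance to the vertex `(0, 0)`
  have hT : ∀ (i : Fin m) (j : Fin n), distSet (GG m L) (i, j)
      {x | col (n := n) φ x = (⟨0, by omega⟩ : Fin (m + 2))} =
      t j + if (i : ℕ) = 0 then 0 else 1 := by
    intro i j
    obtain ⟨w, hw, hd⟩ := ds_mem (G := GG m L) (u := (i, j))
      (hs (⟨0, by omega⟩ : Fin (m + 2)))
    rw [← hd]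
    have hw' : w = (⟨0, by omega⟩, ⟨0, by omega⟩) := by
      obtain ⟨a, b⟩ := honly w.1 w.2 hw
      exact Prod.ext a b
    rw [hw']
    refine dist_eq_of (G := GG m L) (fun v => t v.2 + if (v.1 : ℕ) = 0 then 0 else 1) _ ?_ ?_ ?_
      hG (i, j)
    · simp [ht0]
    · rintro ⟨i, j⟩ ⟨i', j'⟩ h
      rw [adj_iff] at h
      show t j + (if (i : ℕ) = 0 then 0 else 1) ≤ t j' + (if (i' : ℕ) = 0 then 0 else 1) + 1
      rcases h with ⟨h, rfl⟩ | ⟨h, rfl⟩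
      · split_ifs <;> omega
      · have := hlip j j' h
        split_ifs <;> omega
    · rintro ⟨i, j⟩ h
      by_cases hi : (i : ℕ) = 0
      · have hj : (j : ℕ) ≠ 0 := by
          intro hj
          exact h (Prod.ext (Fin.ext hi) (Fin.ext hj))
        obtain ⟨l, hl1, hl2⟩ := hdesc j hj
        refine ⟨(i, l), (adj_iff L).2 (Or.inr ⟨hl1, rfl⟩), ?_⟩
        show t l + (if (i : ℕ) = 0 then 0 else 1) + 1 = t j + (if (i : ℕ) = 0 then 0 else 1)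
        rw [if_pos hi]
        omega
      · refine ⟨(⟨0, by omega⟩, j), (adj_iff L).2 (Or.inl ⟨?_, rfl⟩), ?_⟩
        · intro h'
          exact hi (by rw [h'])
        · show t j + (if (0 : ℕ) = 0 then 0 else 1) + 1 = t j + (if (i : ℕ) = 0 then 0 else 1)
          rw [if_neg hi]
          simp
  refine ⟨col φ, proper_col hLn (fun j hj => (hφ j hj).1) (fun j hj => (hφ j hj).2.2.2), hs, ?_⟩
  -- neighbours of colour `Bv n j`
  have hBlt : ∀ j, Bv n j < m + 2 := fun j => by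
    have := Bv_lt n j
    omega
  have hnb : ∀ (j : ℕ) (hj : j < n), j ≠ 0 → ∀ l, (l = nx n j ∨ l = pr n j) → ∀ i,
      φ l i = ⟨Bv n j, hBlt j⟩ → i = ⟨Bv n j, BvF_lt hm n j⟩ := by
    intro j hj hj0 l hl i hi
    have hln : l < n := by
      rcases hl with rfl | rfl
      · exact nx_lt hj
      · exact pr_lt hj
    have h1 : φ l ⟨Bv n j, BvF_lt hm n j⟩ = ⟨Bv n j, hBlt j⟩ := by
      apply (hφ l hln).2.2.1
      rcases hl with rfl | rfl
      · right; right; right; right; right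
        rw [pr_nx hj]
        exact ⟨hj0, rfl, rfl⟩
      · right; right; right; right; left
        rw [nx_pr hj]
        exact ⟨hj0, rfl, rfl⟩
    exact (hφ l hln).1 (hi.trans h1.symm)
  have hXv : ∀ (j : ℕ) (hj : j < n), j ≠ 0 → φ j ⟨Bv n j, BvF_lt hm n j⟩ =
      ⟨Bv n j + 8, by have := Bv_lt n j; omega⟩ := by
    intro j hj hj0
    apply (hφ j hj).2.2.1
    right; right; right; left
    exact ⟨hj0, rfl, rfl⟩
  have hnoB : ∀ (j : ℕ) (hj : j < n), j ≠ 0 → ∀ i, φ j i ≠ ⟨Bv n j, hBlt j⟩ := by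
    intro j hj hj0 i h
    have h1 := hmis j hj i
    rw [h] at h1
    exact h1 (Or.inr ⟨hj0, Or.inr rfl⟩)
  -- one of the layers is the layer 0
  have hzero : ∀ (i i' : Fin m) (j j' : Fin n), (∀ q, distSet (GG m L) (i, j)
      {x | col (n := n) φ x = q} = distSet (GG m L) (i', j') {x | col (n := n) φ x = q}) →
      φ j i = φ j' i' → (j : ℕ) = 0 → (j' : ℕ) ≠ 0 → False := by
    intro i i' j j' hcode hcc hj hj'
    have h1 := hcode ⟨0, by omega⟩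
    rw [hT i j, hT i' j', hj, ht0] at h1
    obtain ⟨l, hl1, hl2⟩ := hdesc j' hj'
    have hi' : (i' : ℕ) = 0 := by
      by_contra hne
      rw [if_neg hne] at h1
      split_ifs at h1 <;> omega
    refine code_contra hG hs hLn (I := ⟨Bv n j', BvF_lt hm n j'⟩) (b := ⟨Bv n j', hBlt j'⟩)
      (fun q => (hcode q).symm) hcc.symm (hnoB j' j'.2 hj') (hnb j' j'.2 hj') ?_ ?_
    · apply hpres j j.2
      have := Bv_lt n j'
      rintro (⟨f1, f2⟩ | ⟨f1, f2⟩)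
      · simp only at f2; omega
      · exact f1 hj
    · intro h
      have h2 := Fin.ext_iff.1 h
      have := Bv_lt n j'
      simp only at h2
      omega
  rintro ⟨i, j⟩ ⟨i', j'⟩ hcode
  have hcc : φ j i = φ j' i' := same_color hG hcode
  by_cases hjj : j = j'
  · subst hjj
    rw [(hφ j j.2).1 hcc]
  · exfalso
    have hjj' : (j : ℕ) ≠ j' := fun h => hjj (Fin.ext h)
    by_cases hj0 : (j : ℕ) = 0
    · exact hzero i i' j j' hcode hcc hj0 (fun h => hjj' (hj0.trans h.symm))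
    by_cases hj'0 : (j' : ℕ) = 0
    · exact hzero i' i j' j (fun q => (hcode q).symm) hcc.symm hj'0 hj0
    have h1 := hcode ⟨0, by omega⟩
    rw [hT i j, hT i' j'] at h1
    have hB : Bv n j ≠ Bv n j' := by
      apply hsep j j' hj0 hj'0 j.2 j'.2 hjj'
      · split_ifs at h1 <;> omega
      · split_ifs at h1 <;> omega
    have hBj := Bv_lt n j
    have hBj' := Bv_lt n j'
    refine pair_contra hG hs hLn (I := ⟨Bv n j, BvF_lt hm n j⟩) (I' := ⟨Bv n j', BvF_lt hm n j'⟩)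
      (b := ⟨Bv n j, hBlt j⟩) (b' := ⟨Bv n j', hBlt j'⟩) hcode hcc ?_ (hnoB j j.2 hj0)
      (hnoB j' j'.2 hj'0) (hnb j j.2 hj0) (hnb j' j'.2 hj'0) ?_ ?_
    · rw [hXv j j.2 hj0, hXv j' j'.2 hj'0]
      intro h
      have h' := Fin.ext_iff.1 h
      simp only at h'
      omega
    · apply hpres j' j'.2
      rintro (⟨f1, f2⟩ | ⟨f1, f2⟩)
      · exact hj'0 f1
      · simp only at f2
        rcases f2 with f2 | f2
        · omega
        · exact hB f2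
    · apply hpres j j.2
      rintro (⟨f1, f2⟩ | ⟨f1, f2⟩)
      · exact hj0 f1
      · simp only at f2
        rcases f2 with f2 | f2
        · omega
        · exact hB f2.symm

end four

end Pool.Agent.R343.Loc
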