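import Pool.Agent.R343.Loc4

set_option autoImplicit false

namespace Pool.Agent.R343.Loc

open SimpleGraph

section five

variable {m n : ℕ}

theorem sub_val (u v : Fin n) : ((v : ℕ) ≤ u ∧ ((u - v : Fin n) : ℕ) = u - v) ∨
    ((u : ℕ) < v ∧ ((u - v : Fin n) : ℕ) = n - v + u) := by
  have hu := u.2
  have hv := v.2
  rw [Fin.sub_def]
  show (_ ∧ (n - (v : ℕ) + u) % n = _) ∨ (_ ∧ (n - (v : ℕ) + u) % n = _)
  by_cases h : (v : ℕ) ≤ u
  · left
    refine ⟨h, ?_⟩
    have h1 : n - (v : ℕ) + u = n + (u - v) := by omega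
    rw [h1, Nat.add_mod_left, Nat.mod_eq_of_lt (by omega)]
  · right
    refine ⟨by omega, ?_⟩
    rw [Nat.mod_eq_of_lt (by omega)]

theorem cyc_adj (hn : 3 ≤ n) (u v : Fin n) : (cycleGraph n).Adj u v ↔
    (v : ℕ) = nx n u ∨ (v : ℕ) = pr n u := by
  rw [cycleGraph_adj']
  have h1 := sub_val u v
  have h2 := sub_val v u
  have e1 := nx_spec n u
  have e2 := pr_spec n u
  have hu := u.2
  have hv := v.2
  omega

theorem path_adj (u v : Fin n) (h : (pathGraph n).Adj u v) :
    (v : ℕ) = nx n u ∨ (v : ℕ) = pr n u := by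
  rw [pathGraph_adj] at h
  have e1 := nx_spec n u
  have e2 := pr_spec n u
  have hu := u.2
  have hv := v.2
  omega

theorem path_conn (hn : 1 ≤ n) : (pathGraph n).Connected := by
  obtain ⟨k, rfl⟩ := Nat.exists_eq_add_of_le' hn
  exact pathGraph_connected k

theorem cyc_conn (hn : 1 ≤ n) : (cycleGraph n).Connected := by
  obtain ⟨k, rfl⟩ := Nat.exists_eq_add_of_le' hn
  exact cycleGraph_connected

theorem path4 (hm : 17 ≤ m) (hn : 8 ≤ n) :
    ∃ c : Fin m × Fin n → Fin (m + 2), IsLocating (GG m (pathGraph n)) (m + 2) c := by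
  refine locating4 hm hn (pathGraph n) (path_conn (by omega)) path_adj (fun j => j) rfl ?_ ?_ ?_
  · intro j l h
    rw [pathGraph_adj] at h
    show (j : ℕ) ≤ l + 1
    omega
  · intro j hj
    refine ⟨⟨(j : ℕ) - 1, by have := j.2; omega⟩, ?_, ?_⟩
    · rw [pathGraph_adj]
      right
      show (j : ℕ) - 1 + 1 = j
      omega
    · show (j : ℕ) - 1 + 1 = j
      omega
  · intro j j' h1 h2 h3 h4 h5 h6 h7
    have e1 := Bv_spec n j
    have e2 := Bv_spec n j'
    omega

theorem cyc4 (hm : 17 ≤ m) (hn : 8 ≤ n) :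
    ∃ c : Fin m × Fin n → Fin (m + 2), IsLocating (GG m (cycleGraph n)) (m + 2) c := by
  refine locating4 hm hn (cycleGraph n) (cyc_conn (by omega))
    (fun j l h => (cyc_adj (by omega) j l).1 h) (fun j => min j (n - j)) ?_ ?_ ?_ ?_
  · simp
  · intro j l h
    rw [cyc_adj (by omega)] at h
    have e1 := nx_spec n j
    have e2 := pr_spec n j
    have hu := j.2
    have hv := l.2
    show min (j : ℕ) (n - j) ≤ min (l : ℕ) (n - l) + 1
    omega
  · intro j hj
    have hu := j.2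
    by_cases h : 2 * (j : ℕ) ≤ n
    · refine ⟨⟨(j : ℕ) - 1, by omega⟩, ?_, ?_⟩
      · rw [cyc_adj (by omega)]
        have e2 := pr_spec n j
        right
        show (j : ℕ) - 1 = pr n j
        omega
      · show min ((j : ℕ) - 1) (n - ((j : ℕ) - 1)) + 1 = min (j : ℕ) (n - j)
        omega
    · have hnx := nx_lt hu
      refine ⟨⟨nx n j, hnx⟩, ?_, ?_⟩
      · rw [cyc_adj (by omega)]
        left
        rfl
      · have e1 := nx_spec n j
        show min (nx n j) (n - nx n j) + 1 = min (j : ℕ) (n - j)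
        omega
  · intro j j' h1 h2 h3 h4 h5 h6 h7
    have e1 := Bv_spec n j
    have e2 := Bv_spec n j'
    omega

/-- two neighbours -/
theorem deg_two (L : SimpleGraph (Fin n))
    (hLn : ∀ j l : Fin n, L.Adj j l → (l : ℕ) = nx n j ∨ (l : ℕ) = pr n j) :
    ∀ j, ∃ a b, ∀ l, L.Adj j l → l = a ∨ l = b := by
  intro j
  refine ⟨⟨nx n j, nx_lt j.2⟩, ⟨pr n j, pr_lt j.2⟩, fun l hl => ?_⟩
  rcases hLn j l hl with h | h
  · exact Or.inl (Fin.ext h)
  · exact Or.inr (Fin.ext h)

/-- the value of the locating chromatic number for a path or a cycle of layers -/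
theorem chi_eq (hm : 17 ≤ m) (hn : 8 ≤ n) (L : SimpleGraph (Fin n)) (hL : L.Connected)
    (hLn : ∀ j l : Fin n, L.Adj j l → (l : ℕ) = nx n j ∨ (l : ℕ) = pr n j)
    (h4 : ∃ c : Fin m × Fin n → Fin (m + 2), IsLocating (GG m L) (m + 2) c) :
    chiL (GG m L) = if n ≤ m + 1 then m + 1 else m + 2 := by
  have hne : {k | ∃ c : Fin m × Fin n → Fin k, IsLocating (GG m L) k c}.Nonempty := ⟨m + 2, h4⟩
  have hex : ∃ c : Fin m × Fin n → Fin (chiL (GG m L)), IsLocating (GG m L)
      (chiL (GG m L)) c := Nat.sInf_mem hne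
  have h1 : m ≤ chiL (GG m L) := by
    obtain ⟨c, hc⟩ := hex
    exact le_of_proper (by omega) hc.1
  have h2 : chiL (GG m L) ≠ m := by
    intro heq
    rw [heq] at hex
    obtain ⟨c, hc⟩ := hex
    exact ne_m (by omega) (by omega) hL c hc
  split_ifs with hnm
  · obtain ⟨c', hc'⟩ := locating3 (by omega) (by omega) hnm L hL hLn
    have := chiL_le _ _ c' hc'
    omega
  · have h3 : chiL (GG m L) ≠ m + 1 := by
      intro heq
      rw [heq] at hex
      obtain ⟨c, hc⟩ := hex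
      exact hnm (le_of_locating (by omega) hL (deg_two L hLn) hc)
    obtain ⟨c', hc'⟩ := h4
    have := chiL_le _ _ c' hc'
    omega

theorem chi_path (hm : 17 ≤ m) (hn : 8 ≤ n) :
    chiL ((⊤ : SimpleGraph (Fin m)) □ pathGraph n) = if n ≤ m + 1 then m + 1 else m + 2 :=
  chi_eq hm hn _ (path_conn (by omega)) path_adj (path4 hm hn)

theorem chi_cyc (hm : 17 ≤ m) (hn : 8 ≤ n) :
    chiL ((⊤ : SimpleGraph (Fin m)) □ cycleGraph n) = if n ≤ m + 1 then m + 1 else m + 2 :=
  chi_eq hm hn _ (cyc_conn (by omega)) (fun j l h => (cyc_adj (by omega) j l).1 h) (cyc4 hm hn)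

end five

end Pool.Agent.R343.Loc
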