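import Mathlib
import Pool.Agent.R343.LZ3
import Pool.Agent.H547R3.Sub.Tqk2

set_option autoImplicit false

/-!
# Circuits of the cycles of the 3x+1 map
-/

open Finset

namespace Pool.Agent.R343.SC

open Pool.Agent.H319R2 (T)
open Pool.Agent.H547R3 (IsCycle)
open Pool.Agent.H547R3.Sub (Dec HasPer Tm)

lemma T_Tm : T = Tm (3 : ℕ) 1 := by
  funext x; simp [T, Tm]

/-- the local minima -/
def loc (Z : Finset ℤ) : Finset ℤ := Z.filter fun y => y % 2 = 1 ∧ ∃ z ∈ Z, z % 2 = 0 ∧ T z = y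

/-- the length of the circuit starting at `y` -/
noncomputable def ci (y : ℤ) : ℕ := sInf {n | 1 ≤ n ∧ T^[n - 1] y % 2 = 0 ∧ T^[n] y % 2 = 1}

/-- the next local minimum -/
noncomputable def nx (y : ℤ) : ℤ := T^[ci y] y

lemma per {Z : Finset ℤ} (hZ : IsCycle Z) {x : ℤ} (hx : x ∈ Z) : 1 ≤ Z.card ∧ T^[Z.card] x = x := by
  obtain ⟨h1, h2, -⟩ := LZ.elem hZ hx
  exact ⟨h1, h2⟩

lemma T_inj {Z : Finset ℤ} (hZ : IsCycle Z) {a b : ℤ} (ha : a ∈ Z) (hb : b ∈ Z) (h : T a = T b) : a = b := by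
  obtain ⟨h1, h2⟩ := per hZ ha
  obtain ⟨-, h3⟩ := per hZ hb
  obtain ⟨c, hc⟩ : ∃ c, Z.card = c + 1 := ⟨Z.card - 1, by omega⟩
  rw [hc, Function.iterate_succ_apply] at h2 h3
  rw [← h2, ← h3, h]

lemma T_iter_inj {Z : Finset ℤ} (hZ : IsCycle Z) (n : ℕ) : ∀ {a b : ℤ}, a ∈ Z → b ∈ Z →
    T^[n] a = T^[n] b → a = b := by
  induction n with
  | zero => intro a b _ _ h; exact h
  | succ n ih =>
    intro a b ha hb h
    rw [Function.iterate_succ_apply', Function.iterate_succ_apply'] at h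
    exact ih ha hb (T_inj hZ (hZ.closed ha n) (hZ.closed hb n) h)

lemma mem_loc {Z : Finset ℤ} {y : ℤ} : y ∈ loc Z ↔ y ∈ Z ∧ y % 2 = 1 ∧ ∃ z ∈ Z, z % 2 = 0 ∧ T z = y := by
  unfold loc; rw [mem_filter]

lemma ci_spec {Z : Finset ℤ} (hZ : IsCycle Z) {y : ℤ} (hy : y ∈ loc Z) :
    1 ≤ ci y ∧ T^[ci y - 1] y % 2 = 0 ∧ T^[ci y] y % 2 = 1 := by
  apply Nat.sInf_mem (s := {n | 1 ≤ n ∧ T^[n - 1] y % 2 = 0 ∧ T^[n] y % 2 = 1})
  obtain ⟨hyZ, hodd, z, hz, hz0, hzy⟩ := mem_loc.1 hy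
  obtain ⟨h1, h2⟩ := per hZ hyZ
  refine ⟨Z.card, h1, ?_, by rw [h2]; exact hodd⟩
  have h3 : T^[Z.card - 1] y = z := by
    apply T_inj hZ (hZ.closed hyZ _) hz
    rw [hzy, ← Function.iterate_succ_apply' T, show (Z.card - 1).succ = Z.card by omega, h2]
  rw [h3]; exact hz0

lemma ci_min {y : ℤ} {n : ℕ} (hn : n < ci y) (h1 : 1 ≤ n) : ¬ (T^[n - 1] y % 2 = 0 ∧ T^[n] y % 2 = 1) := by
  intro h
  have := Nat.sInf_le (s := {n | 1 ≤ n ∧ T^[n - 1] y % 2 = 0 ∧ T^[n] y % 2 = 1}) (m := n) ⟨h1, h.1, h.2⟩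
  unfold ci at hn
  omega

lemma nx_mem {Z : Finset ℤ} (hZ : IsCycle Z) {y : ℤ} (hy : y ∈ loc Z) : nx y ∈ loc Z := by
  obtain ⟨h1, h2, h3⟩ := ci_spec hZ hy
  have hyZ := (mem_loc.1 hy).1
  refine mem_loc.2 ⟨hZ.closed hyZ _, h3, T^[ci y - 1] y, hZ.closed hyZ _, h2, ?_⟩
  rw [← Function.iterate_succ_apply' T, show (ci y - 1).succ = ci y by omega]
  rfl

lemma nx_iter_mem {Z : Finset ℤ} (hZ : IsCycle Z) {y : ℤ} (hy : y ∈ loc Z) (k : ℕ) : nx^[k] y ∈ loc Z := by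
  induction k with
  | zero => exact hy
  | succ k ih => rw [Function.iterate_succ_apply']; exact nx_mem hZ ih

lemma nx_inj_aux {Z : Finset ℤ} (hZ : IsCycle Z) {a b : ℤ} (ha : a ∈ loc Z) (hb : b ∈ loc Z)
    (h : nx a = nx b) (hle : ci a ≤ ci b) : a = b := by
  have haZ := (mem_loc.1 ha).1
  have hbZ := (mem_loc.1 hb).1
  obtain ⟨d, hd⟩ := Nat.exists_eq_add_of_le hle
  have h1 : T^[ci a] a = T^[ci a] (T^[d] b) := by
    rw [← Function.iterate_add_apply, ← hd]; exact h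
  have h2 := T_iter_inj hZ _ haZ (hZ.closed hbZ d) h1
  rcases Nat.eq_zero_or_pos d with h0 | h0
  · rw [h0] at h2; exact h2
  · exfalso
    obtain ⟨-, hodd, z, hz, hz0, hza⟩ := mem_loc.1 ha
    have hca := (ci_spec hZ ha).1
    apply ci_min (y := b) (n := d) (by omega) h0
    refine ⟨?_, by rw [← h2]; exact hodd⟩
    have h3 : T^[d - 1] b = z := by
      apply T_inj hZ (hZ.closed hbZ _) hz
      rw [hza, ← Function.iterate_succ_apply' T, show (d - 1).succ = d by omega, h2]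
    rw [h3]; exact hz0

lemma nx_inj {Z : Finset ℤ} (hZ : IsCycle Z) {a b : ℤ} (ha : a ∈ loc Z) (hb : b ∈ loc Z)
    (h : nx a = nx b) : a = b := by
  rcases le_total (ci a) (ci b) with hle | hle
  · exact nx_inj_aux hZ ha hb h hle
  · exact (nx_inj_aux hZ hb ha h.symm hle).symm

lemma nx_iter_inj {Z : Finset ℤ} (hZ : IsCycle Z) (n : ℕ) : ∀ {a b : ℤ}, a ∈ loc Z → b ∈ loc Z →
    nx^[n] a = nx^[n] b → a = b := by
  induction n with
  | zero => intro a b _ _ h; exact h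
  | succ n ih =>
    intro a b ha hb h
    rw [Function.iterate_succ_apply', Function.iterate_succ_apply'] at h
    exact ih ha hb (nx_inj hZ (nx_iter_mem hZ ha n) (nx_iter_mem hZ hb n) h)

/-- sums over the local minima are invariant -/
lemma sum_nx {Z : Finset ℤ} (hZ : IsCycle Z) (f : ℤ → ℝ) (k : ℕ) :
    ∑ y ∈ loc Z, f (nx^[k] y) = ∑ y ∈ loc Z, f y := by
  classical
  have hinj : Set.InjOn (nx^[k]) (loc Z : Set ℤ) := fun a ha b hb h =>
    nx_iter_inj hZ k (by exact_mod_cast ha) (by exact_mod_cast hb) h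
  have himg : (loc Z).image (nx^[k]) = loc Z := by
    apply Finset.eq_of_subset_of_card_le
    · intro y hy
      obtain ⟨z, hz, rfl⟩ := mem_image.1 hy
      exact nx_iter_mem hZ hz k
    · rw [card_image_of_injOn hinj]
  conv_rhs => rw [← himg]
  rw [sum_image hinj]

/-- the number of steps of `s` circuits -/
noncomputable def len (y : ℤ) (s : ℕ) : ℕ := ∑ k ∈ range s, ci (nx^[k] y)

lemma len_succ (y : ℤ) (s : ℕ) : len y (s + 1) = len y s + ci (nx^[s] y) := by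
  unfold len; rw [sum_range_succ]

lemma iter_len (y : ℤ) (s : ℕ) : T^[len y s] y = nx^[s] y := by
  induction s with
  | zero => rfl
  | succ s ih =>
    rw [len_succ, Nat.add_comm, Function.iterate_add_apply, ih, Function.iterate_succ_apply']
    rfl

lemma cover {Z : Finset ℤ} (hZ : IsCycle Z) : ∀ (j : ℕ) (y : ℤ), y ∈ loc Z →
    ∃ y' ∈ loc Z, ∃ i < ci y', T^[i] y' = T^[j] y := by
  intro j
  induction j using Nat.strong_induction_on with
  | _ j ih =>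
    intro y hy
    rcases Nat.lt_or_ge j (ci y) with h | h
    · exact ⟨y, hy, j, h, rfl⟩
    · obtain ⟨c, rfl⟩ := Nat.exists_eq_add_of_le h
      obtain ⟨h1, -, -⟩ := ci_spec hZ hy
      obtain ⟨y', hy', i, hi, he⟩ := ih c (by omega) (nx y) (nx_mem hZ hy)
      refine ⟨y', hy', i, hi, ?_⟩
      rw [he, Nat.add_comm, Function.iterate_add_apply]
      rfl

lemma card_le_sum {Z : Finset ℤ} (hZ : IsCycle Z) (hne : (loc Z).Nonempty) :
    Z.card ≤ ∑ y ∈ loc Z, ci y := by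
  classical
  obtain ⟨y0, hy0⟩ := hne
  have hsub : Z ⊆ (loc Z).biUnion fun y => (range (ci y)).image fun i => T^[i] y := by
    intro z hz
    obtain ⟨j, hj⟩ := hZ.back (mem_loc.1 hy0).1 hz
    obtain ⟨y', hy', i, hi, he⟩ := cover hZ j y0 hy0
    rw [mem_biUnion]
    exact ⟨y', hy', mem_image.2 ⟨i, mem_range.2 hi, by rw [he, hj]⟩⟩
  calc Z.card ≤ _ := card_le_card hsub
    _ ≤ ∑ y ∈ loc Z, ((range (ci y)).image fun i => T^[i] y).card := card_biUnion_le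
    _ ≤ ∑ y ∈ loc Z, ci y := by
      apply sum_le_sum
      intro y _
      exact card_image_le.trans (by rw [card_range])

/-- a cycle with a local minimum has no fixed point -/
lemma no_fix {Z : Finset ℤ} (hZ : IsCycle Z) {y : ℤ} (hy : y ∈ loc Z) (j : ℕ) :
    T^[j + 1] y ≠ T^[j] y := by
  intro h
  obtain ⟨hyZ, hodd, z, hz, hz0, hzy⟩ := mem_loc.1 hy
  set u := T^[j] y with hu
  have hfix : T u = u := by rw [hu, ← Function.iterate_succ_apply' T]; exact h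
  have hall : ∀ n, T^[n] u = u := fun n => Function.iterate_fixed hfix n
  have huZ : u ∈ Z := hZ.closed hyZ j
  obtain ⟨a, ha⟩ := hZ.back huZ hyZ
  obtain ⟨b, hb⟩ := hZ.back huZ hz
  rw [hall] at ha hb
  rw [← ha, hb] at hodd
  omega

lemma pa_one {y : ℤ} {i : ℕ} (h : T^[i] y % 2 = 1) : Pool.Agent.H547R3.Sub.par (3 : ℕ) 1 y i = 1 := by
  unfold Pool.Agent.H547R3.Sub.par
  rw [← T_Tm, if_neg (by omega)]

lemma pa_zero {y : ℤ} {i : ℕ} (h : T^[i] y % 2 = 0) : Pool.Agent.H547R3.Sub.par (3 : ℕ) 1 y i = 0 := by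
  unfold Pool.Agent.H547R3.Sub.par
  rw [← T_Tm, if_pos h]

/-- one circuit consists of two runs -/
lemma dec_one {Z : Finset ℤ} (hZ : IsCycle Z) {y : ℤ} (hy : y ∈ loc Z) :
    Dec (Pool.Agent.H547R3.Sub.par (3 : ℕ) 1 y) 1 2 0 (ci y) := by
  classical
  obtain ⟨h1, h2, h3⟩ := ci_spec hZ hy
  have hex : ∃ j, T^[j] y % 2 = 0 := ⟨_, h2⟩
  set k := Nat.find hex with hk
  have hk0 : T^[k] y % 2 = 0 := Nat.find_spec hex
  have hkle : k ≤ ci y - 1 := Nat.find_min' hex h2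
  have hlow : ∀ j < k, T^[j] y % 2 = 1 := fun j hj => by
    have := Nat.find_min hex hj
    omega
  have hhigh : ∀ j, k ≤ j → j < ci y → T^[j] y % 2 = 0 := by
    intro j hj
    induction j, hj using Nat.le_induction with
    | base => intro _; exact hk0
    | succ j hj ih =>
      intro hlt
      have h4 := ih (by omega)
      have h5 := ci_min (y := y) (n := j + 1) hlt (by omega)
      rw [Nat.add_sub_cancel] at h5
      by_contra hcon
      exact h5 ⟨h4, by omega⟩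
  refine ⟨fun i => if i = 0 then 0 else if i = 1 then k else ci y, by simp, by simp, ?_, ?_⟩
  · intro i hi
    interval_cases i
    · simp
    · simp; omega
  · intro i hi
    refine ⟨1, le_rfl, le_rfl, ?_⟩
    interval_cases i
    · intro j hj1 hj2
      simp at hj2
      rw [pa_one (hlow j (by omega)), pa_one (hlow (j + 1) (by omega))]
    · intro j hj1 hj2
      simp at hj1 hj2
      rw [pa_zero (hhigh j hj1 (by omega)), pa_zero (hhigh (j + 1) (by omega) hj2)]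

lemma dec_shift {w : ℕ → ℕ} {ℓ m b a : ℕ} (h : Dec (fun i => w (i + a)) ℓ m 0 b) : Dec w ℓ m a (a + b) := by
  obtain ⟨t, h0, hm, hmono, hper⟩ := h
  refine ⟨fun i => a + t i, by simp [h0], by simp [hm], fun i hi => by have := hmono i hi; simp only; omega,
    fun i hi => ?_⟩
  obtain ⟨π, h1, h2, h3⟩ := hper i hi
  refine ⟨π, h1, h2, fun j hj1 hj2 => ?_⟩
  simp only at hj1 hj2
  obtain ⟨c, rfl⟩ : ∃ c, j = c + a := ⟨j - a, by omega⟩
  have := h3 c (by omega) (by omega)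
  rw [show c + a + π = c + π + a by omega]
  exact this

lemma dec_len {Z : Finset ℤ} (hZ : IsCycle Z) {y : ℤ} (hy : y ∈ loc Z) (s : ℕ) :
    Dec (Pool.Agent.H547R3.Sub.par (3 : ℕ) 1 y) 1 (2 * s) 0 (len y s) := by
  induction s with
  | zero => exact ⟨fun _ => 0, rfl, rfl, fun i hi => by omega, fun i hi => by omega⟩
  | succ s ih =>
    have h1 := dec_one hZ (nx_iter_mem hZ hy s)
    have h2 : Dec (fun i => Pool.Agent.H547R3.Sub.par (3 : ℕ) 1 y (i + len y s)) 1 2 0 (ci (nx^[s] y)) := by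
      have e : (fun i => Pool.Agent.H547R3.Sub.par (3 : ℕ) 1 y (i + len y s)) =
          Pool.Agent.H547R3.Sub.par (3 : ℕ) 1 (nx^[s] y) := by
        funext i
        rw [← Pool.Agent.H547R3.Sub.par_shift, ← T_Tm, iter_len]
      rw [e]; exact h1
    rw [len_succ, show 2 * (s + 1) = 2 * s + 2 by ring]
    exact ih.append (dec_shift h2)

lemma loc_ne_zero {Z : Finset ℤ} {y : ℤ} (hy : y ∈ loc Z) : (1 : ℝ) ≤ |(y : ℝ)| := by
  obtain ⟨-, h, -⟩ := mem_loc.1 hy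
  have h1 : y ≠ 0 := by rintro rfl; simp at h
  have := Int.one_le_abs h1
  exact_mod_cast this

/-- **windows of `s` circuits** -/
theorem window (s : ℕ) : ∃ N0 : ℕ, ∀ (Z : Finset ℤ) (y : ℤ), IsCycle Z → y ∈ loc Z →
    (len y s : ℝ) ≤ 3 * Real.log |(y : ℝ)| + N0 := by
  obtain ⟨ε, hε, n0, hn0⟩ := Pool.Agent.H547R3.Sub.init_gen2 (q := 3) Nat.prime_three (by norm_num) 1
    (by norm_num) (2 * s) 1 one_pos
  obtain ⟨n1, hn1⟩ := exists_nat_ge (1 / ε)
  refine ⟨n0 + n1, fun Z y hZ hy => ?_⟩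
  by_contra hcon
  push Not at hcon
  have hl2 : (0.693 : ℝ) < Real.log 2 := by have := Real.log_two_gt_d9; linarith
  have hy1 := loc_ne_zero hy
  have hH : 0 ≤ Real.log |(y : ℝ)| := Real.log_nonneg hy1
  push_cast at hcon
  have hn00 : (0 : ℝ) ≤ n0 := Nat.cast_nonneg _
  have hn10 : (0 : ℝ) ≤ n1 := Nat.cast_nonneg _
  have h1 : n0 ≤ len y s := by
    have : (n0 : ℝ) ≤ len y s := by linarith
    exact_mod_cast this
  have h2 : ((1 : ℕ) : ℝ) ≤ ε * len y s := by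
    have h3 : 1 / ε ≤ len y s := by linarith
    rw [div_le_iff₀ hε] at h3
    push_cast
    linarith
  have h3 : (1 + 1) * Real.logb 2 |(y : ℝ)| ≤ len y s := by
    have h4 : Real.logb 2 |(y : ℝ)| ≤ 3 / 2 * Real.log |(y : ℝ)| := by
      unfold Real.logb
      rw [div_le_iff₀ (by linarith)]
      nlinarith
    linarith
  obtain ⟨j, π, -, h5, h6, -, h7⟩ := hn0 y 0 (len y s) 1 h1 h2 (by simpa using h3)
    (by rw [zero_add]; exact dec_len hZ hy s)
  have hπ : π = 1 := by omega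
  rw [hπ, ← T_Tm] at h7
  exact no_fix hZ hy j h7

lemma sum_len {Z : Finset ℤ} (hZ : IsCycle Z) (s : ℕ) :
    ∑ y ∈ loc Z, (len y s : ℝ) = s * ∑ y ∈ loc Z, (ci y : ℝ) := by
  unfold len
  push_cast
  rw [sum_comm]
  rw [sum_congr rfl fun k _ => sum_nx hZ (fun y => (ci y : ℝ)) k]
  rw [sum_const, card_range, nsmul_eq_mul]

/-- **the linear inequality** -/
theorem linear (ε : ℝ) (hε : 0 < ε) : ∃ C : ℝ, 0 < C ∧ ∀ Z : Finset ℤ, IsCycle Z → (loc Z).Nonempty →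
    (Z.card : ℝ) ≤ ε * ∑ y ∈ loc Z, Real.log |(y : ℝ)| + C * (loc Z).card := by
  obtain ⟨s, hs⟩ := exists_nat_ge (3 / ε)
  have hs0 : 0 < (s : ℝ) := lt_of_lt_of_le (by positivity) hs
  obtain ⟨N0, hN0⟩ := window s
  refine ⟨N0 / s + 1, by positivity, fun Z hZ hne => ?_⟩
  have h1 : (Z.card : ℝ) ≤ ∑ y ∈ loc Z, (ci y : ℝ) := by exact_mod_cast card_le_sum hZ hne
  have h2 : ∑ y ∈ loc Z, (len y s : ℝ) ≤ ∑ y ∈ loc Z, (3 * Real.log |(y : ℝ)| + N0) :=
    sum_le_sum fun y hy => hN0 Z y hZ hy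
  rw [sum_len hZ, sum_add_distrib, ← mul_sum, sum_const, nsmul_eq_mul] at h2
  have h3 : 0 ≤ ∑ y ∈ loc Z, Real.log |(y : ℝ)| :=
    sum_nonneg fun y hy => Real.log_nonneg (loc_ne_zero hy)
  have h4 : ∑ y ∈ loc Z, (ci y : ℝ) ≤ (3 * ∑ y ∈ loc Z, Real.log |(y : ℝ)| + (loc Z).card * N0) / s := by
    rw [le_div_iff₀ hs0]; linarith
  have h5 : 3 / (s : ℝ) ≤ ε := by
    rw [div_le_iff₀ hε] at hs
    rw [div_le_iff₀ hs0]; linarith
  have h6 : (3 * ∑ y ∈ loc Z, Real.log |(y : ℝ)| + (loc Z).card * N0) / s =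
      3 / s * ∑ y ∈ loc Z, Real.log |(y : ℝ)| + N0 / s * (loc Z).card := by field_simp
  rw [h6] at h4
  have h7 : 3 / (s : ℝ) * ∑ y ∈ loc Z, Real.log |(y : ℝ)| ≤ ε * ∑ y ∈ loc Z, Real.log |(y : ℝ)| :=
    mul_le_mul_of_nonneg_right h5 h3
  have h8 : (0 : ℝ) ≤ (loc Z).card := Nat.cast_nonneg _
  linarith

end Pool.Agent.R343.SC
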