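import Mathlib
import Pool.Agent.R343.SC1

set_option autoImplicit false

/-!
# Almost all circuits of almost all cycles are short
-/

open Finset

namespace Pool.Agent.R343.SC

open Pool.Agent.H319R2 (T)
open Pool.Agent.H547R3 (IsCycle)

/-- only finitely many cycles have a small element -/
theorem fin_small (X : ℤ) : {Z : Finset ℤ | IsCycle Z ∧ ∃ x ∈ Z, |x| ≤ X}.Finite := by
  classical
  set S := {Z : Finset ℤ | IsCycle Z ∧ ∃ x ∈ Z, |x| ≤ X} with hS
  have hmem : ∀ Z ∈ S, ∃ x : ℤ, x ∈ Finset.Icc (-X) X ∧ x ∈ Z := by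
    rintro Z ⟨-, x, hx, hX⟩
    exact ⟨x, Finset.mem_Icc.2 (abs_le.1 hX), hx⟩
  choose! f hf1 hf2 using hmem
  have hinj : Set.InjOn f S := by
    intro Z hZ Z' hZ' he
    exact hZ.1.eq_of_mem hZ'.1 (hf2 Z hZ) (he ▸ hf2 Z' hZ')
  have hmaps : Set.MapsTo f S (Finset.Icc (-X) X : Finset ℤ) := fun Z hZ => by
    exact_mod_cast hf1 Z hZ
  exact Set.Finite.of_injOn hmaps hinj (Finset.finite_toSet _)

lemma log_T_iter (x : ℤ) (i : ℕ) :
    Real.log (|((T^[i] x : ℤ) : ℝ)| + 1) ≤ Real.log (|(x : ℝ)| + 1) + i * (Real.log 3 - Real.log 2) := by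
  have h := LZ.lg_iter x i
  have hl2 : 0 < Real.log 2 := Real.log_pos (by norm_num)
  unfold LZ.lg LZ.dl Real.logb at h
  have h1 : Real.log (|(((Pool.Agent.Y780.Cz.T 3 1)^[i] x : ℤ) : ℝ)| + 1) / Real.log 2 * Real.log 2 ≤
      (Real.log (|(x : ℝ)| + 1) / Real.log 2 + i * (Real.log 3 / Real.log 2 - 1)) * Real.log 2 :=
    mul_le_mul_of_nonneg_right h hl2.le
  rw [div_mul_cancel₀ _ hl2.ne'] at h1
  have h2 : (Real.log (|(x : ℝ)| + 1) / Real.log 2 + i * (Real.log 3 / Real.log 2 - 1)) * Real.log 2 =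
      Real.log (|(x : ℝ)| + 1) + i * (Real.log 3 - Real.log 2) := by field_simp
  rw [h2] at h1
  exact h1

lemma len_mono (y : ℤ) {a b : ℕ} (h : a ≤ b) : len y a ≤ len y b := by
  unfold len
  exact sum_le_sum_of_subset (by intro i hi; rw [mem_range] at *; omega)

/-- the size of the local minima -/
noncomputable def H (y : ℤ) : ℝ := Real.log |(y : ℝ)|

/-- the long circuits -/
noncomputable def long (δ : ℝ) (Z : Finset ℤ) : Finset ℤ :=
  (loc Z).filter fun y => δ * Real.log |(y : ℝ)| ≤ ci y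

theorem main (δ ε : ℝ) (hδ : 0 < δ) (hε : 0 < ε) : ∃ X : ℤ, ∀ Z : Finset ℤ, IsCycle Z →
    (∀ x ∈ Z, X < |x|) → ((long δ Z).card : ℝ) ≤ ε * (loc Z).card := by
  classical
  set c1 : ℝ := Real.log 4 with hc1
  have hc10 : 0 < c1 := Real.log_pos (by norm_num)
  set D : ℝ := 2 * c1 / ε with hD
  have hD0 : 0 < D := by positivity
  obtain ⟨s, hs⟩ := exists_nat_ge (8 * Real.exp D / (δ * ε))
  have hs0 : 0 < (s : ℝ) := lt_of_lt_of_le (by positivity) hs
  obtain ⟨N0, hN0⟩ := window s
  obtain ⟨X, hX⟩ := exists_nat_ge (Real.exp (N0 + 4))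
  refine ⟨X, fun Z hZ hlarge => ?_⟩
  have hH : ∀ y ∈ loc Z, (N0 : ℝ) + 4 ≤ H y := by
    intro y hy
    have h1 := hlarge y (mem_loc.1 hy).1
    have h2 : (X : ℝ) < |(y : ℝ)| := by exact_mod_cast h1
    unfold H
    rw [Real.le_log_iff_exp_le (by linarith [loc_ne_zero hy])]
    linarith
  have hH4 : ∀ y ∈ loc Z, 4 ≤ H y := fun y hy => by
    have := hH y hy
    have h0 : (0 : ℝ) ≤ N0 := Nat.cast_nonneg _
    linarith
  have hlen : ∀ y ∈ loc Z, (len y s : ℝ) ≤ 4 * H y := fun y hy => by
    have h1 := hN0 Z y hZ hy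
    have h2 := hH y hy
    unfold H at h2 ⊢
    linarith
  -- the growth of the size
  have hl2 : Real.log 2 < 0.6932 := by have := Real.log_two_lt_d9; linarith
  have hl2' : 0.6931 < Real.log 2 := by have := Real.log_two_gt_d9; linarith
  have hl3 : Real.log 3 - Real.log 2 ≤ 0.41 := by
    have := Pool.Agent.Y780.Cz.log3_lt
    linarith
  have hl30 : 0 ≤ Real.log 3 - Real.log 2 := by
    have := Pool.Agent.Y780.Cz.log3_gt
    linarith
  have hgrow : ∀ y ∈ loc Z, ∀ k ≤ s, H (nx^[k] y) ≤ 4 * H y := by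
    intro y hy k hk
    have h1 := log_T_iter y (len y k)
    rw [iter_len] at h1
    have hy1 := loc_ne_zero hy
    have hy2 := loc_ne_zero (nx_iter_mem hZ hy k)
    have h2 : H (nx^[k] y) ≤ Real.log (|((nx^[k] y : ℤ) : ℝ)| + 1) := by
      unfold H
      exact Real.log_le_log (by linarith) (by linarith)
    have h3 : Real.log (|(y : ℝ)| + 1) ≤ H y + Real.log 2 := by
      unfold H
      rw [← Real.log_mul (by linarith) (by norm_num)]
      exact Real.log_le_log (by linarith) (by linarith)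
    have h4 : (len y k : ℝ) ≤ 4 * H y := by
      have h5 : (len y k : ℝ) ≤ len y s := by exact_mod_cast len_mono y hk
      exact h5.trans (hlen y hy)
    have h5 : (len y k : ℝ) * (Real.log 3 - Real.log 2) ≤ 4 * H y * 0.41 :=
      mul_le_mul h4 hl3 hl30 (by linarith [hH4 y hy])
    have h6 := hH4 y hy
    linarith
  set φ : ℤ → ℝ := fun y => Real.log (H y) with hφ
  have hφ1 : ∀ y ∈ loc Z, ∀ k ≤ s, φ (nx^[k] y) ≤ φ y + c1 := by
    intro y hy k hk
    have h1 := hgrow y hy k hk
    have h2 := hH4 y hy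
    have h3 := hH4 _ (nx_iter_mem hZ hy k)
    simp only [hφ]
    rw [hc1, ← Real.log_mul (by linarith) (by norm_num)]
    exact Real.log_le_log (by linarith) (by linarith)
  set bad := (loc Z).filter fun y => ∃ k < s, H (nx^[k] y) < Real.exp (-D) * H y with hbad
  have hφ2 : ∀ y ∈ bad, φ (nx^[s] y) ≤ φ y + c1 - D := by
    intro y hy
    rw [hbad, mem_filter] at hy
    obtain ⟨hyl, k, hk, hlt⟩ := hy
    have hyk := nx_iter_mem hZ hyl k
    have h1 := hφ1 _ hyk (s - k) (by omega)
    rw [← Function.iterate_add_apply, show s - k + k = s by omega] at h1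
    have h2 : φ (nx^[k] y) ≤ φ y - D := by
      have h3 := hH4 y hyl
      have h4 := hH4 _ hyk
      simp only [hφ]
      have h5 := Real.log_le_log (by linarith) hlt.le
      rw [Real.log_mul (Real.exp_pos _).ne' (by linarith), Real.log_exp] at h5
      linarith
    linarith
  have hbadcard : D * (bad.card : ℝ) ≤ c1 * (loc Z).card := by
    have h1 := sum_nx hZ φ s
    have h2 : ∑ y ∈ loc Z, φ (nx^[s] y) ≤ ∑ y ∈ loc Z, (φ y + c1 - if y ∈ bad then D else 0) := by
      apply sum_le_sum
      intro y hy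
      by_cases hb : y ∈ bad
      · rw [if_pos hb]; exact hφ2 y hb
      · rw [if_neg hb, sub_zero]; exact hφ1 y hy s le_rfl
    have h3 : ∑ y ∈ loc Z, (if y ∈ bad then D else 0) = bad.card * D := by
      rw [← sum_filter, sum_const, nsmul_eq_mul]
      congr 2
      congr 1
      ext y
      rw [mem_filter, hbad, mem_filter]
      tauto
    rw [sum_sub_distrib, sum_add_distrib, sum_const, nsmul_eq_mul, h3, h1] at h2
    linarith
  -- the number of the long circuits in a window
  set ind : ℤ → ℝ := fun y => if y ∈ long δ Z then 1 else 0 with hind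
  have hcnt : ∀ y ∈ loc Z, ∑ k ∈ range s, ind (nx^[k] y) ≤
      4 * Real.exp D / δ + if y ∈ bad then (s : ℝ) else 0 := by
    intro y hy
    by_cases hb : y ∈ bad
    · rw [if_pos hb]
      have h1 : ∑ k ∈ range s, ind (nx^[k] y) ≤ ∑ k ∈ range s, (1 : ℝ) := by
        apply sum_le_sum
        intro k _
        simp only [hind]
        split_ifs <;> norm_num
      rw [sum_const, card_range, nsmul_eq_mul, mul_one] at h1
      have h2 : 0 ≤ 4 * Real.exp D / δ := by positivity
      linarith
    · rw [if_neg hb, add_zero]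
      have hnb : ∀ k < s, Real.exp (-D) * H y ≤ H (nx^[k] y) := by
        intro k hk
        by_contra hcon
        push Not at hcon
        exact hb (by rw [hbad, mem_filter]; exact ⟨hy, k, hk, hcon⟩)
      have h4 := hH4 y hy
      have hpos : 0 < δ * (Real.exp (-D) * H y) := by
        have := Real.exp_pos (-D)
        positivity
      have h1 : ∀ k ∈ range s, ind (nx^[k] y) * (δ * (Real.exp (-D) * H y)) ≤ ci (nx^[k] y) := by
        intro k hk
        rw [mem_range] at hk
        simp only [hind]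
        split_ifs with hl
        · rw [one_mul]
          unfold long at hl
          rw [mem_filter] at hl
          refine le_trans ?_ hl.2
          exact mul_le_mul_of_nonneg_left (hnb k hk) hδ.le
        · rw [zero_mul]; exact Nat.cast_nonneg _
      have h2 := sum_le_sum h1
      rw [← sum_mul] at h2
      have h3 : ∑ k ∈ range s, (ci (nx^[k] y) : ℝ) = len y s := by unfold len; push_cast; rfl
      rw [h3] at h2
      have h5 := h2.trans (hlen y hy)
      rw [le_div_iff₀ hδ]
      have h6 : Real.exp D * Real.exp (-D) = 1 := by rw [← Real.exp_add, add_neg_cancel, Real.exp_zero]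
      have h7 : (∑ k ∈ range s, ind (nx^[k] y)) * δ * H y ≤ 4 * Real.exp D * H y := by
        have h8 := mul_le_mul_of_nonneg_left h5 (Real.exp_pos D).le
        calc (∑ k ∈ range s, ind (nx^[k] y)) * δ * H y =
            (∑ k ∈ range s, ind (nx^[k] y)) * δ * H y * (Real.exp D * Real.exp (-D)) := by
              rw [h6, mul_one]
          _ = Real.exp D * ((∑ k ∈ range s, ind (nx^[k] y)) * (δ * (Real.exp (-D) * H y))) := by ring
          _ ≤ _ := h8
          _ = _ := by ring
      exact le_of_mul_le_mul_right h7 (by linarith)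
  have hsum : ∑ y ∈ loc Z, ∑ k ∈ range s, ind (nx^[k] y) = s * (long δ Z).card := by
    rw [sum_comm, sum_congr rfl fun k _ => sum_nx hZ ind k, sum_const, card_range, nsmul_eq_mul]
    congr 1
    simp only [hind]
    rw [← sum_filter, sum_const, nsmul_eq_mul, mul_one]
    congr 2
    ext y
    rw [mem_filter]
    constructor
    · intro h; exact h.2
    · intro h
      refine ⟨?_, h⟩
      unfold long at h
      exact (mem_filter.1 h).1
  have h1 := sum_le_sum hcnt
  rw [hsum, sum_add_distrib, sum_const, nsmul_eq_mul, ← sum_filter, sum_const, nsmul_eq_mul] at h1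
  have h2 : (loc Z).filter (fun y => y ∈ bad) = bad := by
    ext y
    rw [mem_filter, hbad, mem_filter]
    tauto
  rw [h2] at h1
  have hm0 : (0 : ℝ) ≤ (loc Z).card := Nat.cast_nonneg _
  have h3 : (bad.card : ℝ) ≤ ε / 2 * (loc Z).card := by
    have h4 : bad.card * (2 * c1 / ε) ≤ c1 * (loc Z).card := by rw [← hD]; linarith
    have h5 : (bad.card : ℝ) * (2 * c1) ≤ c1 * (loc Z).card * ε := by
      rw [mul_div_assoc'] at h4
      rwa [div_le_iff₀ hε] at h4
    have h6 : (bad.card : ℝ) * 2 ≤ (loc Z).card * ε := by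
      have : c1 * ((bad.card : ℝ) * 2) ≤ c1 * ((loc Z).card * ε) := by linarith
      exact le_of_mul_le_mul_left this hc10
    linarith
  have h4 : 4 * Real.exp D / δ ≤ s * ε / 2 := by
    rw [div_le_iff₀ (by positivity)] at hs
    rw [div_le_iff₀ hδ]
    linarith
  have h5 : (s : ℝ) * (long δ Z).card ≤ s * (ε * (loc Z).card) := by
    calc (s : ℝ) * (long δ Z).card ≤ _ := h1
      _ ≤ (loc Z).card * (s * ε / 2) + ε / 2 * (loc Z).card * s := by
        apply add_le_add
        · exact mul_le_mul_of_nonneg_left h4 hm0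
        · exact mul_le_mul_of_nonneg_right h3 hs0.le
      _ = _ := by ring
  exact le_of_mul_le_mul_left h5 hs0

theorem finite_long (δ ε : ℝ) (hδ : 0 < δ) (hε : 0 < ε) :
    {Z : Finset ℤ | IsCycle Z ∧ ε * (loc Z).card < (long δ Z).card}.Finite := by
  obtain ⟨X, hX⟩ := main δ ε hδ hε
  refine (fin_small X).subset ?_
  rintro Z ⟨hZ, hlt⟩
  refine ⟨hZ, ?_⟩
  by_contra hcon
  push Not at hcon
  have := hX Z hZ hcon
  linarith

lemma cyc_zero : IsCycle {0} := ⟨0, 1, by norm_num, by decide, by decide⟩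

lemma cyc_neg : IsCycle {-1} := ⟨-1, 1, by norm_num, by decide, by decide⟩

/-- the cycles without local minima -/
theorem loc_nonempty {Z : Finset ℤ} (hZ : IsCycle Z) (h0 : Z ≠ {0}) (h1 : Z ≠ {-1}) : (loc Z).Nonempty := by
  by_contra hne
  rw [Finset.not_nonempty_iff_eq_empty] at hne
  have hno : ∀ z ∈ Z, z % 2 = 0 → T z % 2 = 0 := by
    intro z hz hz0
    by_contra hcon
    have hmem : T z ∈ loc Z := mem_loc.2 ⟨hZ.closed hz 1, by omega, z, hz, hz0, rfl⟩
    rw [hne] at hmem
    simp at hmem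
  obtain ⟨x0, hx0, -⟩ := hZ.normal
  by_cases hev : ∃ e ∈ Z, e % 2 = 0
  · obtain ⟨e, he, he0⟩ := hev
    have hall : ∀ j, T^[j] e % 2 = 0 := by
      intro j
      induction j with
      | zero => exact he0
      | succ j ih => rw [Function.iterate_succ_apply']; exact hno _ (hZ.closed he j) ih
    obtain ⟨x, hx, hmin⟩ := Finset.exists_min_image Z (fun x => |x|) ⟨x0, hx0⟩
    obtain ⟨j, hj⟩ := hZ.back he hx
    have hx2 : x % 2 = 0 := by rw [← hj]; exact hall j
    have h2 := hmin (T x) (hZ.closed hx 1)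
    have h3 : T x = x / 2 := by unfold T; rw [if_pos hx2]
    rw [h3] at h2
    have hx00 : x = 0 := by
      rcases abs_cases x with ⟨h4, _⟩ | ⟨h4, _⟩ <;> rcases abs_cases (x / 2) with ⟨h5, _⟩ | ⟨h5, _⟩ <;> omega
    exact h0 (hZ.eq_of_mem cyc_zero hx (by rw [hx00]; decide))
  · push Not at hev
    obtain ⟨x, hx, hmax⟩ := Finset.exists_max_image Z (fun x => |x|) ⟨x0, hx0⟩
    have hx2 := hev x hx
    have h2 := hmax (T x) (hZ.closed hx 1)
    have h3 : T x = (3 * x + 1) / 2 := by unfold T; rw [if_neg hx2]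
    rw [h3] at h2
    have hx00 : x = -1 := by
      rcases abs_cases x with ⟨h4, _⟩ | ⟨h4, _⟩ <;> rcases abs_cases ((3 * x + 1) / 2) with ⟨h5, _⟩ | ⟨h5, _⟩ <;> omega
    exact h1 (hZ.eq_of_mem cyc_neg hx (by rw [hx00]; decide))

/-- all but finitely many cycles satisfy `K p ≤ m log M` -/
theorem finite_max (K : ℝ) :
    {Z : Finset ℤ | IsCycle Z ∧ ∀ x ∈ Z, (loc Z).card * Real.log |(x : ℝ)| < K * Z.card}.Finite := by
  set K' : ℝ := max K 1 with hK'
  have hK1 : 1 ≤ K' := le_max_right _ _
  obtain ⟨C, hC, h⟩ := linear (1 / (2 * K')) (by positivity)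
  obtain ⟨X, hX⟩ := exists_nat_ge (Real.exp (2 * K' * C))
  refine ((fin_small X).union (Set.Finite.insert {0} (Set.finite_singleton ({-1} : Finset ℤ)))).subset ?_
  rintro Z ⟨hZ, hlt⟩
  by_cases hsmall : ∃ x ∈ Z, |x| ≤ X
  · left; exact ⟨hZ, hsmall⟩
  · by_cases hz0 : Z = {0}
    · right; left; exact hz0
    by_cases hz1 : Z = {-1}
    · right; right; exact hz1
    exfalso
    push Not at hsmall
    obtain ⟨x0, hx0, -⟩ := hZ.normal
    -- the largest term
    obtain ⟨xm, hxm, hmax⟩ := Finset.exists_max_image Z (fun x => |x|) ⟨x0, hx0⟩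
    have hxmX : (X : ℝ) < |(xm : ℝ)| := by
      have := hsmall xm hxm
      exact_mod_cast this
    have hX0 : (0 : ℝ) < X := lt_of_lt_of_le (Real.exp_pos _) hX
    have hlogm : 2 * K' * C ≤ Real.log |(xm : ℝ)| := by
      rw [Real.le_log_iff_exp_le (by linarith)]
      linarith
    have hne : (loc Z).Nonempty := loc_nonempty hZ hz0 hz1
    · have h1 := h Z hZ hne
      have h2 : ∑ y ∈ loc Z, Real.log |(y : ℝ)| ≤ (loc Z).card * Real.log |(xm : ℝ)| := by
        have h3 : ∑ y ∈ loc Z, Real.log |(y : ℝ)| ≤ ∑ y ∈ loc Z, Real.log |(xm : ℝ)| := by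
          apply sum_le_sum
          intro y hy
          apply Real.log_le_log (by linarith [loc_ne_zero hy])
          have := hmax y (mem_loc.1 hy).1
          exact_mod_cast this
        rwa [sum_const, nsmul_eq_mul] at h3
      have hm0 : (0 : ℝ) ≤ (loc Z).card := Nat.cast_nonneg _
      have h4 : C * (loc Z).card ≤ 1 / (2 * K') * ((loc Z).card * Real.log |(xm : ℝ)|) := by
        have h5 : C ≤ 1 / (2 * K') * Real.log |(xm : ℝ)| := by
          rw [div_mul_eq_mul_div, one_mul, le_div_iff₀ (by positivity)]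
          linarith
        calc C * (loc Z).card ≤ (1 / (2 * K') * Real.log |(xm : ℝ)|) * (loc Z).card :=
              mul_le_mul_of_nonneg_right h5 hm0
          _ = _ := by ring
      have h6 : 1 / (2 * K') * ∑ y ∈ loc Z, Real.log |(y : ℝ)| ≤
          1 / (2 * K') * ((loc Z).card * Real.log |(xm : ℝ)|) :=
        mul_le_mul_of_nonneg_left h2 (by positivity)
      have h7 : (Z.card : ℝ) ≤ 1 / K' * ((loc Z).card * Real.log |(xm : ℝ)|) := by
        have e : 1 / K' * ((loc Z).card * Real.log |(xm : ℝ)|) =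
          1 / (2 * K') * ((loc Z).card * Real.log |(xm : ℝ)|) +
          1 / (2 * K') * ((loc Z).card * Real.log |(xm : ℝ)|) := by field_simp; ring
        rw [e]; linarith
      have h8 : K' * (Z.card : ℝ) ≤ (loc Z).card * Real.log |(xm : ℝ)| := by
        have := mul_le_mul_of_nonneg_left h7 (show 0 ≤ K' by linarith)
        calc K' * (Z.card : ℝ) ≤ _ := this
          _ = _ := by field_simp
      have h9 := hlt xm hxm
      have h10 : K * (Z.card : ℝ) ≤ K' * Z.card :=
        mul_le_mul_of_nonneg_right (le_max_left _ _) (Nat.cast_nonneg _)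
      linarith

end Pool.Agent.R343.SC
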