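import Mathlib
import Pool.Agent.R343.SC2

set_option autoImplicit false

/-!
# Pieces of short period
-/

open Finset

namespace Pool.Agent.R343.SC

open Pool.Agent.H319R2 (T)
open Pool.Agent.H547R3.Sub (Dec HasPer Tm iter_per_mul no_rep)

lemma iter_per_aux {x : ℤ} {p : ℕ} (h : T^[p] x = x) (i : ℕ) : T^[i + p] x = T^[i] x := by
  rw [Function.iterate_add_apply, h]

/-- the inequality for all decompositions into pieces of period at most `ℓ` -/
theorem pieces (ε : ℝ) (hε : 0 < ε) : ∃ C : ℝ, 0 < C ∧ ∀ (x : ℤ) (p m ℓ : ℕ) (t : ℕ → ℕ), 1 ≤ p →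
    T^[p] x = x → (∀ j, 1 ≤ j → j < p → T^[j] x ≠ x) → t 0 = 0 → t m = p → (∀ i < m, t i ≤ t (i + 1)) →
    (∀ i < m, ∃ π, 1 ≤ π ∧ π ≤ ℓ ∧ ∀ j, t i ≤ j → j + π < t (i + 1) →
      T^[j + π] x % 2 = T^[j] x % 2) →
    (p : ℝ) ≤ ε * ∑ i ∈ range m, Real.log (|((T^[t i] x : ℤ) : ℝ)| + 1) + C * (m * (ℓ + 1)) := by
  obtain ⟨s, hs⟩ := exists_nat_ge (3 / ε)
  have hs0 : 0 < (s : ℝ) := lt_of_lt_of_le (by positivity) hs
  obtain ⟨ε1, hε1, n0, hn0⟩ := Pool.Agent.H547R3.Sub.init_gen2 (q := 3) Nat.prime_three (by norm_num) 1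
    (by norm_num) s 1 one_pos
  obtain ⟨n1, hn1⟩ := exists_nat_ge (1 / ε1)
  set N0 : ℝ := n0 + n1 + 1 with hN0
  have hn00 : (0 : ℝ) ≤ n0 := Nat.cast_nonneg _
  have hn10 : (0 : ℝ) ≤ n1 := Nat.cast_nonneg _
  refine ⟨N0 / s + 1, by positivity, fun x p m ℓ t hp hper hprim h0 hm hmono hπ => ?_⟩
  have hm1 : 1 ≤ m := by
    by_contra hcon
    have : m = 0 := by omega
    rw [this, h0] at hm
    omega
  have hmR : (1 : ℝ) ≤ m := by exact_mod_cast hm1
  have hℓ0 : (0 : ℝ) ≤ ℓ := Nat.cast_nonneg _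
  have hlog0 : ∀ y : ℤ, 0 ≤ Real.log (|(y : ℝ)| + 1) := fun y =>
    Real.log_nonneg (by have := abs_nonneg (y : ℝ); linarith)
  have hsum0 : 0 ≤ ∑ i ∈ range m, Real.log (|((T^[t i] x : ℤ) : ℝ)| + 1) :=
    sum_nonneg fun i _ => hlog0 _
  rcases Nat.lt_or_ge ℓ p with hlp | hlp
  swap
  · have h1 : (p : ℝ) ≤ ℓ := by exact_mod_cast hlp
    have h2 : (ℓ : ℝ) + 1 ≤ (N0 / s + 1) * (m * (ℓ + 1)) := by
      have h3 : (1 : ℝ) ≤ N0 / s + 1 := by
        have : 0 ≤ N0 / s := by positivity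
        linarith
      calc (ℓ : ℝ) + 1 = 1 * (1 * (ℓ + 1)) := by ring
        _ ≤ (N0 / s + 1) * (m * (ℓ + 1)) :=
          mul_le_mul h3 (mul_le_mul_of_nonneg_right hmR (by positivity)) (by positivity) (by positivity)
    have h4 : 0 ≤ ε * ∑ i ∈ range m, Real.log (|((T^[t i] x : ℤ) : ℝ)| + 1) := by positivity
    linarith
  -- periodic extension of the cuts
  set u : ℕ → ℕ := fun i => t (i % m) + i / m * p with hu
  have huc : ∀ c r, r < m → u (m * c + r) = t r + c * p := by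
    intro c r hr
    simp only [hu]
    rw [Nat.mul_add_mod, Nat.mod_eq_of_lt hr, Nat.mul_add_div hm1, Nat.div_eq_of_lt hr, add_zero]
  have hu1 : ∀ c r, r < m → u (m * c + r + 1) = t (r + 1) + c * p := by
    intro c r hr
    rcases Nat.lt_or_ge (r + 1) m with h | h
    · exact huc c (r + 1) h
    · have e0 : r + 1 = m := by omega
      have e1 : m * c + r + 1 = m * (c + 1) + 0 := by rw [mul_add, mul_one]; omega
      rw [e1, huc (c + 1) 0 hm1, e0, hm, h0]
      ring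
  have hdec : ∀ i, ∃ c r, r < m ∧ i = m * c + r := fun i =>
    ⟨i / m, i % m, Nat.mod_lt _ hm1, (Nat.div_add_mod i m).symm⟩
  have hTper : ∀ c i, T^[i + c * p] x = T^[i] x := by
    intro c i
    rw [Function.iterate_add_apply, Nat.mul_comm c p, iter_per_mul hper]
  have hstep : ∀ i, u i ≤ u (i + 1) ∧ ∃ π, 1 ≤ π ∧ π ≤ ℓ ∧ ∀ j, u i ≤ j → j + π < u (i + 1) →
      T^[j + π] x % 2 = T^[j] x % 2 := by
    intro i
    obtain ⟨c, r, hr, rfl⟩ := hdec i
    rw [hu1 c r hr, huc c r hr]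
    obtain ⟨π, h1, h2, h3⟩ := hπ r hr
    refine ⟨by have := hmono r hr; omega, π, h1, h2, fun j hj1 hj2 => ?_⟩
    obtain ⟨d, rfl⟩ : ∃ d, j = d + c * p := ⟨j - c * p, by omega⟩
    have h4 := h3 d (by omega) (by omega)
    rw [show d + c * p + π = d + π + c * p by omega, hTper, hTper]
    exact h4
  have hum : ∀ i, u (i + m) = u i + p := by
    intro i
    obtain ⟨c, r, hr, rfl⟩ := hdec i
    have e1 : m * c + r + m = m * (c + 1) + r := by rw [mul_add, mul_one]; omega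
    rw [e1, huc _ _ hr, huc _ _ hr]
    ring
  have huT : ∀ i, T^[u (i + m)] x = T^[u i] x := fun i => by rw [hum, iter_per_aux hper]
  have hDec : ∀ i, Dec (Pool.Agent.H547R3.Sub.par (3 : ℕ) 1 x) ℓ s (u i) (u (i + s)) := by
    intro i
    refine ⟨fun k => u (i + k), rfl, rfl, fun k _ => (hstep (i + k)).1, fun k _ => ?_⟩
    obtain ⟨-, π, h1, h2, h3⟩ := hstep (i + k)
    refine ⟨π, h1, h2, fun j hj1 hj2 => ?_⟩
    have h4 := h3 j hj1 hj2
    unfold Pool.Agent.H547R3.Sub.par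
    rw [← T_Tm, h4]
  have humono : ∀ i k, u i ≤ u (i + k) := by
    intro i k
    induction k with
    | zero => exact le_rfl
    | succ k ih => exact ih.trans (hstep (i + k)).1
  have hwin : ∀ i, ((u (i + s) : ℝ) - u i) ≤
      3 * Real.log (|((T^[u i] x : ℤ) : ℝ)| + 1) + N0 * (ℓ + 1) := by
    intro i
    by_contra hcon
    push Not at hcon
    obtain ⟨n, hn⟩ := Nat.exists_eq_add_of_le (humono i s)
    rw [hn] at hcon
    push_cast at hcon
    have hcon' : 3 * Real.log (|((T^[u i] x : ℤ) : ℝ)| + 1) + N0 * (ℓ + 1) < n := by linarith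
    have hly := hlog0 (T^[u i] x)
    have hNℓ : N0 ≤ N0 * (ℓ + 1) := by nlinarith
    have h1 : n0 ≤ n := by
      have : (n0 : ℝ) ≤ n := by linarith
      exact_mod_cast this
    have h2 : (ℓ : ℝ) ≤ ε1 * n := by
      have h3 : 1 / ε1 * ℓ ≤ n := by
        have h4 : 1 / ε1 * ℓ ≤ n1 * ℓ := mul_le_mul_of_nonneg_right hn1 hℓ0
        have h5 : (n1 : ℝ) * ℓ ≤ N0 * (ℓ + 1) := by
          apply mul_le_mul _ (by linarith) hℓ0 (by positivity)
          linarith
        linarith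
      rw [div_mul_eq_mul_div, one_mul, div_le_iff₀ hε1] at h3
      linarith
    have hl2 : (0.693 : ℝ) < Real.log 2 := by have := Real.log_two_gt_d9; linarith
    have h3 : (1 + 1) * Real.logb 2 |((T^[u i] x : ℤ) : ℝ)| ≤ n := by
      have h4 : Real.logb 2 |((T^[u i] x : ℤ) : ℝ)| ≤ 3 / 2 * Real.log (|((T^[u i] x : ℤ) : ℝ)| + 1) := by
        have h5 : Real.log |((T^[u i] x : ℤ) : ℝ)| ≤ Real.log (|((T^[u i] x : ℤ) : ℝ)| + 1) := by
          rcases eq_or_lt_of_le (abs_nonneg ((T^[u i] x : ℤ) : ℝ)) with h6 | h6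
          · rw [← h6, Real.log_zero]; simp
          · exact Real.log_le_log h6 (by linarith)
        unfold Real.logb
        rw [div_le_iff₀ (by linarith)]
        nlinarith
      linarith
    obtain ⟨j, π, -, h5, h6, -, h7⟩ := hn0 x (u i) n ℓ h1 h2 (by rw [← T_Tm]; exact h3)
      (by rw [← hn]; exact hDec i)
    rw [← T_Tm] at h7
    exact no_rep hp hper hprim h5 (by omega) h7
  -- summation
  have hshift : ∀ a, ∑ i ∈ range m, (u (i + (a + 1)) : ℝ) = ∑ i ∈ range m, (u (i + a) : ℝ) + p := by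
    intro a
    have h1 := Finset.sum_range_succ (fun i => (u (i + a) : ℝ)) m
    have h2 := Finset.sum_range_succ' (fun i => (u (i + a) : ℝ)) m
    rw [h1] at h2
    have h3 : (u (m + a) : ℝ) = u (0 + a) + p := by
      rw [Nat.add_comm m a, hum, zero_add]; push_cast; ring
    have h4 : ∑ i ∈ range m, (u (i + (a + 1)) : ℝ) = ∑ i ∈ range m, (u (i + 1 + a) : ℝ) :=
      sum_congr rfl fun i _ => by rw [show i + (a + 1) = i + 1 + a by omega]
    rw [h4]
    linarith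
  have htot : ∀ a : ℕ, ∑ i ∈ range m, (u (i + a) : ℝ) = ∑ i ∈ range m, (u i : ℝ) + a * p := by
    intro a
    induction a with
    | zero => simp
    | succ a ih => rw [hshift, ih]; push_cast; ring
  have hfin : (s : ℝ) * p ≤ 3 * ∑ i ∈ range m, Real.log (|((T^[t i] x : ℤ) : ℝ)| + 1) + m * (N0 * (ℓ + 1)) := by
    have h1 : ∑ i ∈ range m, ((u (i + s) : ℝ) - u i) ≤
        ∑ i ∈ range m, (3 * Real.log (|((T^[t i] x : ℤ) : ℝ)| + 1) + N0 * (ℓ + 1)) := by
      apply sum_le_sum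
      intro i hi
      rw [mem_range] at hi
      have h2 := hwin i
      have h3 : u i = t i := by
        have := huc 0 i hi
        simpa using this
      rw [h3] at h2 ⊢
      exact h2
    rw [sum_sub_distrib, htot s, sum_add_distrib, ← mul_sum, sum_const, card_range, nsmul_eq_mul] at h1
    linarith
  have h5 : 3 / (s : ℝ) ≤ ε := by
    rw [div_le_iff₀ hε] at hs
    rw [div_le_iff₀ hs0]; linarith
  have h6 : (p : ℝ) ≤ (3 * ∑ i ∈ range m, Real.log (|((T^[t i] x : ℤ) : ℝ)| + 1) + m * (N0 * (ℓ + 1))) / s := by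
    rw [le_div_iff₀ hs0]; linarith
  have h7 : (3 * ∑ i ∈ range m, Real.log (|((T^[t i] x : ℤ) : ℝ)| + 1) + m * (N0 * (ℓ + 1))) / (s : ℝ) =
      3 / s * ∑ i ∈ range m, Real.log (|((T^[t i] x : ℤ) : ℝ)| + 1) + N0 / s * (m * (ℓ + 1)) := by
    field_simp
  rw [h7] at h6
  have h8 := mul_le_mul_of_nonneg_right h5 hsum0
  have h9 : (0 : ℝ) ≤ m * (ℓ + 1) := by positivity
  linarith

end Pool.Agent.R343.SC
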