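import Mathlib

set_option autoImplicit false

/-!
# Determinants of kernels on the roots of unity of order `k + 1`
-/

namespace Pool.Agent.R343.SunDet

open Finset Matrix

/-- the residue of `m` in `Fin (k + 1)` -/
def res (k m : ℕ) : Fin (k + 1) := ⟨m % (k + 1), Nat.mod_lt _ (Nat.succ_pos k)⟩

theorem res_succ (k m : ℕ) : res k (m + 1) = res k m + res k 1 := by
  apply Fin.ext
  rw [Fin.val_add]
  simp only [res]
  exact Nat.add_mod _ _ _

/-- the sign of the translation by `m` on `Fin (k + 1)` -/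
theorem sign_addRight (k : ℕ) (m : ℕ) :
    Equiv.Perm.sign (Equiv.addRight (res k m)) = (-1 : ℤˣ) ^ (k * m) := by
  have h1 : Equiv.addRight (res k 1) = finRotate (k + 1) := by
    apply Equiv.ext
    intro i
    rw [Equiv.coe_addRight, finRotate_apply]
    congr 1
  induction m with
  | zero =>
    have : Equiv.addRight (res k 0) = 1 := by
      apply Equiv.ext
      intro i
      rw [Equiv.coe_addRight, Equiv.Perm.coe_one, id_eq]
      have : res k 0 = 0 := by
        apply Fin.ext
        simp [res]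
      rw [this]
      exact add_zero i
    rw [this]
    simp
  | succ m ih =>
    have : Equiv.addRight (res k (m + 1)) =
        Equiv.addRight (res k m) * Equiv.addRight (res k 1) := by
      apply Equiv.ext
      intro i
      simp only [Equiv.coe_addRight, Equiv.Perm.coe_mul, Function.comp_apply]
      rw [res_succ, add_assoc, add_comm (res k 1)]
    rw [this, Equiv.Perm.sign_mul, ih, h1, sign_finRotate]
    rw [← pow_add]
    congr 1

variable {F : Type*} [Field F]

/-- powers with exponents in `Fin (k + 1)` -/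
theorem pow_fin_add {k : ℕ} {x : F} (hx : x ^ (k + 1) = 1) (a b : Fin (k + 1)) :
    x ^ ((a + b : Fin (k + 1)) : ℕ) = x ^ (a : ℕ) * x ^ (b : ℕ) := by
  rw [Fin.val_add, ← pow_add, ← pow_eq_pow_mod _ hx]

/-- The determinant of the kernel `∑ a, x i ^ a * c a * x j ^ (m - a)` on the roots of unity. -/
theorem det_kernel (k m : ℕ) (x : Fin (k + 1) → F) (hx : ∀ j, x j ^ (k + 1) = 1)
    (ho : ∀ e : ℕ, 0 < e → e < k + 1 → ∑ j, x j ^ e = 0) (c : Fin (k + 1) → F)
    (M : Matrix (Fin (k + 1)) (Fin (k + 1)) F)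
    (hM : ∀ i j, M i j = ∑ a : Fin (k + 1), x i ^ (a : ℕ) * c a *
      x j ^ ((res k m - a : Fin (k + 1)) : ℕ)) :
    M.det = (-1) ^ (k * m) * ((k + 1 : ℕ) : F) ^ (k + 1) * ∏ a, c a := by
  classical
  set V : Matrix (Fin (k + 1)) (Fin (k + 1)) F := Matrix.of fun j a => x j ^ (a : ℕ) with hV
  set C : Matrix (Fin (k + 1)) (Fin (k + 1)) F :=
    Matrix.of fun a b => if b = res k m - a then c a else 0 with hC
  have hMV : M = V * C * Vᵀ := by
    ext i j
    rw [hM, Matrix.mul_apply]
    simp only [Matrix.mul_apply, Matrix.transpose_apply, hV, hC, Matrix.of_apply, mul_ite, mul_zero]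
    simp only [Finset.sum_mul]
    rw [Finset.sum_comm]
    apply Finset.sum_congr rfl
    intro a _
    rw [Finset.sum_eq_single (res k m - a)]
    · rw [if_pos rfl]
    · intro b _ hb
      rw [if_neg hb, zero_mul]
    · intro h; exact absurd (Finset.mem_univ _) h
  have hG : ∀ a b, (Vᵀ * V) a b = if a + b = 0 then ((k + 1 : ℕ) : F) else 0 := by
    intro a b
    rw [Matrix.mul_apply]
    simp only [Matrix.transpose_apply, hV, Matrix.of_apply]
    have h1 : ∀ j, x j ^ (a : ℕ) * x j ^ (b : ℕ) = x j ^ ((a + b : Fin (k + 1)) : ℕ) :=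
      fun j => (pow_fin_add (hx j) a b).symm
    simp only [h1]
    split_ifs with h
    · rw [h]
      simp
    · apply ho
      · rw [Nat.pos_iff_ne_zero]
        intro h0
        exact h (Fin.ext h0)
      · exact (a + b : Fin (k + 1)).isLt
  have hdet : M.det = (C * (Vᵀ * V)).det := by
    rw [hMV, Matrix.det_mul, Matrix.det_mul, Matrix.det_mul, Matrix.det_mul, Matrix.det_transpose]
    ring
  have hCG : C * (Vᵀ * V) = (Matrix.diagonal fun a => ((k + 1 : ℕ) : F) * c a).submatrix id
      (Equiv.addRight (res k m)) := by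
    ext a b
    rw [Matrix.mul_apply]
    simp only [hG, hC, Matrix.of_apply, Matrix.submatrix_apply, id_eq, Equiv.coe_addRight,
      Matrix.diagonal_apply]
    rw [Finset.sum_eq_single (res k m - a)]
    · rw [if_pos rfl]
      by_cases h : a = b + res k m
      · rw [if_pos h, if_pos (by rw [h]; abel)]
        ring
      · rw [if_neg h, if_neg, mul_zero]
        intro h2
        apply h
        have : b + res k m - a = 0 := by rw [← h2]; abel
        exact (sub_eq_zero.1 this).symm
    · intro d _ hd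
      rw [if_neg hd, zero_mul]
    · intro h; exact absurd (Finset.mem_univ _) h
  rw [hdet, hCG, Matrix.det_permute', sign_addRight, Matrix.det_diagonal, Finset.prod_mul_distrib]
  rw [Finset.prod_const, Finset.card_univ, Fintype.card_fin]
  push_cast
  ring

theorem res_add (k a b : ℕ) : res k (a + b) = res k a + res k b := by
  apply Fin.ext
  rw [Fin.val_add]
  simp only [res]
  exact Nat.add_mod _ _ _

/-- the sum over `ZMod p` as a sum over the residues -/
theorem sum_zmod (p : ℕ) [NeZero p] {R : Type*} [AddCommMonoid R] (f : ZMod p → R) :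
    ∑ x, f x = ∑ i ∈ range p, f (i : ZMod p) := by
  apply Finset.sum_nbij' (fun x : ZMod p => x.val) (fun i : ℕ => (i : ZMod p))
  · intro x _
    exact mem_range.2 (ZMod.val_lt x)
  · intro i _
    exact mem_univ _
  · intro x _
    exact ZMod.natCast_zmod_val x
  · intro i hi
    exact ZMod.val_natCast_of_lt (mem_range.1 hi)
  · intro x _
    rw [ZMod.natCast_zmod_val x]

/-- the sums of the powers of the squares -/
theorem sum_sq_pow (p n : ℕ) [hp : Fact p.Prime] (hpn : p = 2 * n + 1) (e : ℕ) (he : 0 < e)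
    (hen : e < n) : ∑ j : Fin n, (((((j : ℕ) + 1 : ℕ) : ZMod p)) ^ 2) ^ e = 0 := by
  have h1 : ∑ x : ZMod p, x ^ (2 * e) = 0 := by
    apply FiniteField.sum_pow_lt_card_sub_one
    rw [ZMod.card]
    omega
  rw [sum_zmod] at h1
  have h2 : ∑ i ∈ range p, (i : ZMod p) ^ (2 * e) =
      2 * ∑ i ∈ range n, ((i + 1 : ℕ) : ZMod p) ^ (2 * e) := by
    have e1 : p = (n + n) + 1 := by omega
    have e2 : ∑ i ∈ range p, (i : ZMod p) ^ (2 * e) =
        ∑ i ∈ range ((n + n) + 1), (i : ZMod p) ^ (2 * e) := by rw [← e1]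
    rw [e2, Finset.sum_range_succ']
    have e3 : ((0 : ℕ) : ZMod p) ^ (2 * e) = 0 := by
      rw [Nat.cast_zero, zero_pow (by omega)]
    have e5 : ∑ i ∈ range n, ((n + i + 1 : ℕ) : ZMod p) ^ (2 * e) =
        ∑ i ∈ range n, ((i + 1 : ℕ) : ZMod p) ^ (2 * e) := by
      rw [← Finset.sum_range_reflect (fun i => ((n + i + 1 : ℕ) : ZMod p) ^ (2 * e)) n]
      apply Finset.sum_congr rfl
      intro i hi
      rw [mem_range] at hi
      have e4 : ((n + (n - 1 - i) + 1 : ℕ) : ZMod p) = - ((i + 1 : ℕ) : ZMod p) := by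
        have : ((n + (n - 1 - i) + 1 + (i + 1) : ℕ) : ZMod p) = 0 := by
          have : n + (n - 1 - i) + 1 + (i + 1) = p := by omega
          rw [this]
          exact CharP.cast_eq_zero _ _
        push_cast at this ⊢
        linear_combination this
      rw [e4, pow_mul, pow_mul, neg_sq]
    rw [e3, add_zero, Finset.sum_range_add, e5]
    ring
  rw [h2] at h1
  have h3 : (2 : ZMod p) ≠ 0 := by
    intro h0
    have h4 : ((2 : ℕ) : ZMod p) = 0 := by exact_mod_cast h0
    rw [ZMod.natCast_eq_zero_iff] at h4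
    have := Nat.le_of_dvd (by norm_num) h4
    have := hp.out.two_le
    omega
  have h4 := (mul_eq_zero.1 h1).resolve_left h3
  rw [← h4, ← Fin.sum_univ_eq_sum_range (fun i => ((i + 1 : ℕ) : ZMod p) ^ (2 * e))]
  apply Finset.sum_congr rfl
  intro j _
  rw [← pow_mul]

/-- the coefficients of the kernel -/
def cf (k N : ℕ) (a : Fin (k + 1)) : ℤ :=
  ∑ r ∈ range (N + 1), if res k r = a then (-1) ^ (N - r) * (N.choose r : ℤ) else 0

/-- expansion of the kernel -/
theorem kernel_exp (k m : ℕ) (x y : F) (hx : x ^ (k + 1) = 1) (hy : y ^ (k + 1) = 1) :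
    (x - y) ^ (k + 1 + m) = ∑ a : Fin (k + 1), x ^ (a : ℕ) * ((cf k (k + 1 + m) a : ℤ) : F) *
      y ^ ((res k m - a : Fin (k + 1)) : ℕ) := by
  have h0 : ∀ (z : F), z ^ (k + 1) = 1 → ∀ r : ℕ, z ^ r = z ^ ((res k r : Fin (k + 1)) : ℕ) := by
    intro z hz r
    exact pow_eq_pow_mod r hz
  rw [sub_eq_add_neg, add_pow]
  have h1 : ∀ r ∈ range (k + 1 + m + 1), x ^ r * (-y) ^ (k + 1 + m - r) * ((k + 1 + m).choose r : F) =
      ∑ a : Fin (k + 1), if res k r = a then x ^ (a : ℕ) * ((-1) ^ (k + 1 + m - r) *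
        ((k + 1 + m).choose r : F)) * y ^ ((res k m - a : Fin (k + 1)) : ℕ) else 0 := by
    intro r hr
    rw [mem_range] at hr
    rw [Finset.sum_ite_eq, if_pos (mem_univ _)]
    have h2 : res k m - res k r = res k (k + 1 + m - r) := by
      have h3 : res k (k + 1 + m - r) + res k r = res k (k + 1 + m) := by
        rw [← res_add]
        congr 1
        omega
      have h4 : res k (k + 1 + m) = res k m := by
        apply Fin.ext
        simp only [res]
        exact Nat.add_mod_left _ _
      rw [← h4, ← h3]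
      abel
    rw [h2, ← h0 x hx r, ← h0 y hy, neg_pow]
    ring
  rw [Finset.sum_congr rfl h1, Finset.sum_comm]
  apply Finset.sum_congr rfl
  intro a _
  unfold cf
  push_cast
  rw [Finset.mul_sum, Finset.sum_mul]
  apply Finset.sum_congr rfl
  intro r _
  split_ifs with h
  · push_cast
    ring
  · simp

/-- the matrix with the entries `(j² - l²) ^ m * ((j² - l²) / p)`, `1 ≤ j, l ≤ n` -/
def mat (p m n : ℕ) [Fact p.Prime] : Matrix (Fin n) (Fin n) ℤ :=
  Matrix.of fun j l => ((((j : ℕ) : ℤ) + 1) ^ 2 - (((l : ℕ) : ℤ) + 1) ^ 2) ^ m *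
    legendreSym p ((((j : ℕ) : ℤ) + 1) ^ 2 - (((l : ℕ) : ℤ) + 1) ^ 2)

/-- the determinant modulo `p` -/
theorem det_mod (p k m : ℕ) [hp : Fact p.Prime] (hpk : p = 2 * (k + 1) + 1) :
    (((mat p m (k + 1)).det : ℤ) : ZMod p) = (-1) ^ (k * m) * ((k + 1 : ℕ) : ZMod p) ^ (k + 1) *
      ∏ a : Fin (k + 1), ((cf k (k + 1 + m) a : ℤ) : ZMod p) := by
  have h1 : (((mat p m (k + 1)).det : ℤ) : ZMod p) =
      ((mat p m (k + 1)).map (Int.castRingHom (ZMod p))).det := by
    rw [← RingHom.mapMatrix_apply, ← RingHom.map_det]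
    rfl
  rw [h1]
  have hx : ∀ j : Fin (k + 1), ((((j : ℕ) + 1 : ℕ) : ZMod p) ^ 2) ^ (k + 1) = 1 := by
    intro j
    rw [← pow_mul]
    have : 2 * (k + 1) = p - 1 := by omega
    rw [this]
    apply ZMod.pow_card_sub_one_eq_one
    intro h0
    rw [ZMod.natCast_eq_zero_iff] at h0
    have := Nat.le_of_dvd (by omega) h0
    have := j.isLt
    omega
  apply det_kernel k m (fun j => (((j : ℕ) + 1 : ℕ) : ZMod p) ^ 2) hx
    (sum_sq_pow p (k + 1) hpk)
  intro i j
  rw [← kernel_exp k m _ _ (hx i) (hx j)]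
  rw [Matrix.map_apply]
  simp only [mat, Matrix.of_apply, eq_intCast]
  rw [Int.cast_mul, legendreSym.eq_pow]
  have : p / 2 = k + 1 := by omega
  rw [this, pow_add]
  push_cast
  ring

end Pool.Agent.R343.SunDet
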