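import Pool.Agent.R343.SunDet

set_option autoImplicit false

namespace Pool.Agent.R343.SunDet

open Finset Matrix

theorem res_eq_iff (k r : ℕ) (hr : r < k + 1) (a : Fin (k + 1)) : res k r = a ↔ r = (a : ℕ) := by
  constructor
  · intro h
    rw [← h]
    exact (Nat.mod_eq_of_lt hr).symm
  · intro h
    apply Fin.ext
    rw [← h]
    exact Nat.mod_eq_of_lt hr

theorem res_add_self (k r : ℕ) : res k (k + 1 + r) = res k r := by
  apply Fin.ext
  simp only [res]
  exact Nat.add_mod_left _ _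

/-- the coefficients in closed form -/
theorem cf_eq (k m : ℕ) (hm : m < k + 1) (a : Fin (k + 1)) :
    cf k (k + 1 + m) a = (-1) ^ (k + 1 + m - (a : ℕ)) * ((k + 1 + m).choose a : ℤ) +
      if (a : ℕ) ≤ m then (-1) ^ (m - (a : ℕ)) * ((k + 1 + m).choose (m - a) : ℤ) else 0 := by
  unfold cf
  rw [show k + 1 + m + 1 = (k + 1) + (m + 1) by ring, Finset.sum_range_add]
  congr 1
  · rw [Finset.sum_eq_single (a : ℕ)]
    · rw [if_pos ((res_eq_iff k a a.isLt a).2 rfl)]
    · intro b hb hba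
      rw [if_neg]
      intro h
      exact hba ((res_eq_iff k b (mem_range.1 hb) a).1 h)
    · intro h
      exact absurd (mem_range.2 a.isLt) h
  · by_cases ha : (a : ℕ) ≤ m
    · rw [if_pos ha, Finset.sum_eq_single (a : ℕ)]
      · rw [res_add_self, if_pos ((res_eq_iff k a a.isLt a).2 rfl)]
        have h1 : k + 1 + m - (k + 1 + (a : ℕ)) = m - a := by omega
        rw [h1]
        congr 2
        exact Nat.choose_symm_of_eq_add (by omega)
      · intro b hb hba
        rw [res_add_self, if_neg]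
        intro h
        have := mem_range.1 hb
        exact hba ((res_eq_iff k b (by omega) a).1 h)
      · intro h
        exact absurd (mem_range.2 (by omega)) h
    · rw [if_neg ha]
      apply Finset.sum_eq_zero
      intro b hb
      rw [res_add_self, if_neg]
      intro h
      have := mem_range.1 hb
      have := (res_eq_iff k b (by omega) a).1 h
      omega

/-- the absolute values of the coefficients -/
def ff (N m a : ℕ) : ℤ := (N.choose a : ℤ) + if a ≤ m then (N.choose (m - a) : ℤ) else 0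

theorem cf_eq' (k q m : ℕ) (hk : k + 1 = 2 * q) (hm : m < k + 1) (hodd : Odd m)
    (a : Fin (k + 1)) : cf k (k + 1 + m) a = (-(-1) ^ (a : ℕ)) * ff (k + 1 + m) m a := by
  rw [cf_eq k m hm a, ff]
  have ha := a.isLt
  have h1 : ((-1 : ℤ)) ^ (k + 1 + m - (a : ℕ)) = - (-1) ^ (a : ℕ) := by
    have h2 : ((-1 : ℤ)) ^ (k + 1 + m - (a : ℕ)) * (-1) ^ (a : ℕ) = -1 := by
      rw [← pow_add]
      have : k + 1 + m - (a : ℕ) + (a : ℕ) = 2 * q + m := by omega
      rw [this, pow_add, pow_mul, hodd.neg_one_pow]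
      norm_num
    have h3 : ((-1 : ℤ) ^ (a : ℕ)) * (-1) ^ (a : ℕ) = 1 := by
      rw [← pow_add, ← two_mul, pow_mul]; norm_num
    calc ((-1 : ℤ)) ^ (k + 1 + m - (a : ℕ)) = ((-1 : ℤ)) ^ (k + 1 + m - (a : ℕ)) *
        (((-1 : ℤ) ^ (a : ℕ)) * (-1) ^ (a : ℕ)) := by rw [h3, mul_one]
      _ = (((-1 : ℤ)) ^ (k + 1 + m - (a : ℕ)) * (-1) ^ (a : ℕ)) * (-1) ^ (a : ℕ) := by ring
      _ = - (-1) ^ (a : ℕ) := by rw [h2]; ring
  rw [h1]
  by_cases hle : (a : ℕ) ≤ m
  · rw [if_pos hle, if_pos hle]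
    have h4 : ((-1 : ℤ)) ^ (m - (a : ℕ)) = - (-1) ^ (a : ℕ) := by
      have h2 : ((-1 : ℤ)) ^ (m - (a : ℕ)) * (-1) ^ (a : ℕ) = -1 := by
        rw [← pow_add]
        have : m - (a : ℕ) + (a : ℕ) = m := by omega
        rw [this, hodd.neg_one_pow]
      have h3 : ((-1 : ℤ) ^ (a : ℕ)) * (-1) ^ (a : ℕ) = 1 := by
        rw [← pow_add, ← two_mul, pow_mul]; norm_num
      calc ((-1 : ℤ)) ^ (m - (a : ℕ)) = ((-1 : ℤ)) ^ (m - (a : ℕ)) *
          (((-1 : ℤ) ^ (a : ℕ)) * (-1) ^ (a : ℕ)) := by rw [h3, mul_one]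
        _ = (((-1 : ℤ)) ^ (m - (a : ℕ)) * (-1) ^ (a : ℕ)) * (-1) ^ (a : ℕ) := by ring
        _ = - (-1) ^ (a : ℕ) := by rw [h2]; ring
    rw [h4]
    ring
  · rw [if_neg hle, if_neg hle]
    ring

theorem prod_sign (q : ℕ) : ∏ a ∈ range (2 * q), (-(-1 : ℤ) ^ a) = (-1) ^ q := by
  induction q with
  | zero => simp
  | succ q ih =>
    rw [show 2 * (q + 1) = 2 * q + 1 + 1 by ring, Finset.prod_range_succ, Finset.prod_range_succ,
      ih, pow_succ, pow_mul, pow_succ]
    norm_num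
    ring

theorem prod_pair {R : Type*} [CommRing R] (r : ℕ) (g : ℕ → R)
    (hg : ∀ i, i < 2 * r → g i = g (2 * r - 1 - i)) :
    ∏ i ∈ range (2 * r), g i = (∏ i ∈ range r, g i) ^ 2 := by
  rw [show 2 * r = r + r by ring, Finset.prod_range_add, sq]
  congr 1
  rw [← Finset.prod_range_reflect (fun i => g (r + i)) r]
  apply Finset.prod_congr rfl
  intro i hi
  rw [mem_range] at hi
  rw [hg i (by omega)]
  congr 1
  omega

/-- the square root of the product of the coefficients, up to sign -/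
def QQ (q t : ℕ) : ℤ := (∏ i ∈ range (t + 1), ff (2 * q + (2 * t + 1)) (2 * t + 1) i) *
  ∏ i ∈ range (q - t - 1), ((2 * q + (2 * t + 1)).choose (2 * t + 2 + i) : ℤ)

theorem prod_cf (k q t : ℕ) (hk : k + 1 = 2 * q) (ht : t < q) :
    ∏ a : Fin (k + 1), cf k (k + 1 + (2 * t + 1)) a = (-1) ^ q * QQ q t ^ 2 := by
  have h1 : ∀ a : Fin (k + 1), cf k (k + 1 + (2 * t + 1)) a =
      (fun b : ℕ => (-(-1 : ℤ) ^ b) * ff (k + 1 + (2 * t + 1)) (2 * t + 1) b) (a : ℕ) := fun a =>
    cf_eq' k q (2 * t + 1) hk (by omega) ⟨t, rfl⟩ a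
  rw [Finset.prod_congr rfl (fun a _ => h1 a), Fin.prod_univ_eq_prod_range
    (fun b : ℕ => (-(-1 : ℤ) ^ b) * ff (k + 1 + (2 * t + 1)) (2 * t + 1) b), hk,
    Finset.prod_mul_distrib, prod_sign]
  congr 1
  have h2 : range (2 * q) = range (2 * (t + 1) + 2 * (q - t - 1)) := by
    congr 1; omega
  rw [h2, Finset.prod_range_add, QQ, mul_pow]
  congr 1
  · apply prod_pair
    intro i hi
    unfold ff
    rw [if_pos (by omega), if_pos (by omega)]
    have e1 : 2 * (t + 1) - 1 - i = 2 * t + 1 - i := by omega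
    have e2 : 2 * t + 1 - (2 * t + 1 - i) = i := by omega
    rw [e1, e2, add_comm]
  · rw [prod_pair (q - t - 1) (fun x => ff (2 * q + (2 * t + 1)) (2 * t + 1) (2 * (t + 1) + x))]
    · congr 1
      apply Finset.prod_congr rfl
      intro i _
      unfold ff
      rw [if_neg (by omega), add_zero]
      congr 2
    · intro i hi
      unfold ff
      rw [if_neg (by omega), if_neg (by omega), add_zero, add_zero]
      congr 1
      apply Nat.choose_symm_of_eq_add
      omega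

/-- the determinant modulo `p` -/
theorem det_mod2 (p n q t : ℕ) [hp : Fact p.Prime] (hp4 : p = 4 * q + 1) (hn : n = 2 * q)
    (ht : t < q) : (((mat p (2 * t + 1) n).det : ℤ) : ZMod p) =
      -(-1) ^ q * (((n : ZMod p) ^ q) * ((QQ q t : ℤ) : ZMod p)) ^ 2 := by
  obtain ⟨k, hk⟩ : ∃ k, n = k + 1 := ⟨n - 1, by omega⟩
  subst hk
  rw [det_mod p k (2 * t + 1) (by omega), ← Int.cast_prod, prod_cf k q t hn ht]
  have h1 : ((-1 : ZMod p)) ^ (k * (2 * t + 1)) = -1 := by
    apply Odd.neg_one_pow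
    apply Odd.mul
    · exact ⟨q - 1, by omega⟩
    · exact ⟨t, rfl⟩
  rw [h1]
  have h2 : ((k + 1 : ℕ) : ZMod p) ^ (k + 1) = (((k + 1 : ℕ) : ZMod p) ^ q) ^ 2 := by
    rw [← pow_mul]
    congr 1
    omega
  rw [h2]
  push_cast
  ring

end Pool.Agent.R343.SunDet
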