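import Pool.Agent.R343.SunDet2

set_option autoImplicit false

namespace Pool.Agent.R343.SunDet

open Finset Matrix

/-- `∏ i < a, (2 m - 1 - 2 i)` -/
def PP (m a : ℕ) : ℕ := ∏ i ∈ range a, (2 * m - 1 - 2 * i)

/-- the numbers whose prime factors are the large elements of `E(m)` -/
def KK (m a : ℕ) : ℕ := PP m a * (2 ^ (m - a) * (m - a).factorial) +
  PP m (m - a) * (2 ^ a * a.factorial)

theorem two_pow_choose (p q m N a : ℕ) (hp4 : p = 4 * q + 1) (hN : N = 2 * q + m) (ha : a ≤ m) :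
    ((2 ^ a * a.factorial * N.choose a : ℕ) : ZMod p) = (PP m a : ℕ) := by
  rw [mul_assoc, ← Nat.descFactorial_eq_factorial_mul_choose, Nat.descFactorial_eq_prod_range, PP]
  have h1 : 2 ^ a * ∏ i ∈ range a, (N - i) = ∏ i ∈ range a, (2 * (N - i)) := by
    rw [Finset.prod_mul_distrib, Finset.prod_const, card_range]
  rw [h1]
  push_cast
  apply Finset.prod_congr rfl
  intro i hi
  rw [mem_range] at hi
  have h2 : 2 * (N - i) = p + (2 * m - 1 - 2 * i) := by omega
  have h3 : ((2 * (N - i) : ℕ) : ZMod p) = ((2 * m - 1 - 2 * i : ℕ) : ZMod p) := by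
    rw [h2, Nat.cast_add, CharP.cast_eq_zero, zero_add]
  push_cast at h3
  exact h3

theorem ff_KK (p q m N a : ℕ) (hp4 : p = 4 * q + 1) (hN : N = 2 * q + m) (ha : a ≤ m) :
    ((2 ^ m * (a.factorial * (m - a).factorial) : ℕ) : ZMod p) * ((ff N m a : ℤ) : ZMod p) =
      ((KK m a : ℕ) : ZMod p) := by
  have h1 := two_pow_choose p q m N a hp4 hN ha
  have h2 := two_pow_choose p q m N (m - a) hp4 hN (Nat.sub_le _ _)
  rw [KK, ff, if_pos ha]
  push_cast at h1 h2 ⊢
  rw [← h1, ← h2]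
  have h3 : (2 : ZMod p) ^ m = 2 ^ a * 2 ^ (m - a) := by
    rw [← pow_add]
    congr 1
    omega
  rw [h3]
  ring

theorem fact_ne_zero (p N : ℕ) [hp : Fact p.Prime] (h : N < p) :
    ((N.factorial : ℕ) : ZMod p) ≠ 0 := by
  intro h0
  rw [ZMod.natCast_eq_zero_iff] at h0
  have := (hp.out.dvd_factorial).1 h0
  omega

theorem choose_ne_zero (p N a : ℕ) [hp : Fact p.Prime] (h : N < p) (ha : a ≤ N) :
    ((N.choose a : ℕ) : ZMod p) ≠ 0 := by
  intro h0
  apply fact_ne_zero p N h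
  rw [← Nat.choose_mul_factorial_mul_factorial ha]
  push_cast
  rw [h0]
  ring

theorem two_ne_zero' (p : ℕ) [hp : Fact p.Prime] (h : 2 < p) : (2 : ZMod p) ≠ 0 := by
  intro h0
  have h4 : ((2 : ℕ) : ZMod p) = 0 := by exact_mod_cast h0
  rw [ZMod.natCast_eq_zero_iff] at h4
  have := Nat.le_of_dvd (by norm_num) h4
  omega

/-- the criterion for the large primes -/
theorem dvd_iff (p n q t : ℕ) [hp : Fact p.Prime] (hp4 : p = 4 * q + 1) (hn : n = 2 * q)
    (ht : t < q) : (p : ℤ) ∣ (mat p (2 * t + 1) n).det ↔ ∃ a ≤ t, p ∣ KK (2 * t + 1) a := by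
  rw [← ZMod.intCast_zmod_eq_zero_iff_dvd _ p, det_mod2 p n q t hp4 hn ht]
  have h1 : (-(-1 : ZMod p) ^ q) ≠ 0 := by
    rw [neg_ne_zero]
    exact pow_ne_zero _ (by norm_num)
  rw [mul_eq_zero, or_iff_right h1, sq_eq_zero_iff]
  have h2 : ((n : ZMod p) ^ q) ≠ 0 := by
    apply pow_ne_zero
    intro h0
    rw [ZMod.natCast_eq_zero_iff] at h0
    have := Nat.le_of_dvd (by omega) h0
    omega
  rw [mul_eq_zero, or_iff_right h2, QQ, Int.cast_mul, mul_eq_zero]
  have h3 : (((∏ i ∈ range (q - t - 1), ((2 * q + (2 * t + 1)).choose (2 * t + 2 + i) : ℤ) : ℤ)) :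
      ZMod p) ≠ 0 := by
    rw [Int.cast_prod, Finset.prod_ne_zero_iff]
    intro i hi
    rw [mem_range] at hi
    rw [Int.cast_natCast]
    exact choose_ne_zero p _ _ (by omega) (by omega)
  rw [or_iff_left h3, Int.cast_prod, Finset.prod_eq_zero_iff]
  constructor
  · rintro ⟨a, ha, h0⟩
    rw [mem_range] at ha
    refine ⟨a, by omega, ?_⟩
    rw [← ZMod.natCast_eq_zero_iff, ← ff_KK p q (2 * t + 1) (2 * q + (2 * t + 1)) a hp4 rfl (by omega),
      h0, mul_zero]
  · rintro ⟨a, ha, h0⟩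
    refine ⟨a, mem_range.2 (by omega), ?_⟩
    rw [← ZMod.natCast_eq_zero_iff, ← ff_KK p q (2 * t + 1) (2 * q + (2 * t + 1)) a hp4 rfl (by omega),
      mul_eq_zero] at h0
    apply h0.resolve_left
    push_cast
    have e1 := fact_ne_zero p a (by omega)
    have e2 := fact_ne_zero p (2 * t + 1 - a) (by omega)
    have e3 := two_ne_zero' p (by omega)
    exact mul_ne_zero (pow_ne_zero _ e3) (mul_ne_zero e1 e2)

theorem KK_pos (m a : ℕ) (ha : a ≤ m) : 0 < KK m a := by
  unfold KK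
  apply Nat.add_pos_left
  apply Nat.mul_pos
  · unfold PP
    apply Finset.prod_pos
    intro i hi
    rw [mem_range] at hi
    omega
  · exact Nat.mul_pos (pow_pos (by norm_num) _) (Nat.factorial_pos _)

end Pool.Agent.R343.SunDet
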