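import Pool.Agent.R343.SunDet3

set_option autoImplicit false

namespace Pool.Agent.R343.SunDet

open Finset Matrix

variable (p : ℕ) [hp : Fact p.Prime]

theorem leg_eq (h2 : 2 < p) (a b : ℤ)
    (h : ((legendreSym p a : ℤ) : ZMod p) = ((legendreSym p b : ℤ) : ZMod p)) :
    legendreSym p a = legendreSym p b := by
  have hv : ∀ c : ℤ, legendreSym p c = 0 ∨ legendreSym p c = 1 ∨ legendreSym p c = -1 := by
    intro c
    by_cases hc : (c : ZMod p) = 0
    · exact Or.inl ((legendreSym.eq_zero_iff p c).2 hc)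
    · exact Or.inr (legendreSym.eq_one_or_neg_one p hc)
  have hd : (p : ℤ) ∣ legendreSym p a - legendreSym p b := by
    rw [← ZMod.intCast_zmod_eq_zero_iff_dvd, Int.cast_sub, h, sub_self]
  have hz : legendreSym p a - legendreSym p b = 0 := by
    apply Int.eq_zero_of_abs_lt_dvd hd
    rcases hv a with h1 | h1 | h1 <;> rcases hv b with h3 | h3 | h3 <;> rw [h1, h3] <;>
      norm_num <;> omega
  omega

theorem leg_eq_pm (h2 : 2 < p) (a : ℤ) (ε : ℤ) (hε : ε = 1 ∨ ε = -1)
    (h : ((legendreSym p a : ℤ) : ZMod p) = (ε : ZMod p)) : legendreSym p a = ε := by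
  have hv : ∀ c : ℤ, legendreSym p c = 0 ∨ legendreSym p c = 1 ∨ legendreSym p c = -1 := by
    intro c
    by_cases hc : (c : ZMod p) = 0
    · exact Or.inl ((legendreSym.eq_zero_iff p c).2 hc)
    · exact Or.inr (legendreSym.eq_one_or_neg_one p hc)
  have hd : (p : ℤ) ∣ legendreSym p a - ε := by
    rw [← ZMod.intCast_zmod_eq_zero_iff_dvd, Int.cast_sub, h, sub_self]
  have hz : legendreSym p a - ε = 0 := by
    apply Int.eq_zero_of_abs_lt_dvd hd
    rcases hv a with h1 | h1 | h1 <;> rcases hε with h3 | h3 <;> rw [h1, h3] <;>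
      norm_num <;> omega
  omega

theorem neg_neg_pow (q : ℕ) {R : Type*} [CommRing R] : (-(-1 : R) ^ q) ^ q = 1 := by
  rcases Nat.even_or_odd q with h | h
  · rw [h.neg_one_pow, h.neg_one_pow]
  · rw [h.neg_one_pow, neg_neg, one_pow]

/-- the Legendre symbol of the square root -/
theorem leg_sqrt (n q t : ℕ) (hp4 : p = 4 * q + 1) (hn : n = 2 * q) (ht : t < q) (s : ℤ)
    (hs : s ^ 2 = (mat p (2 * t + 1) n).det) :
    legendreSym p s = legendreSym p ((n : ℤ) ^ q * QQ q t) := by
  apply leg_eq p (by omega)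
  rw [legendreSym.eq_pow, legendreSym.eq_pow]
  have h1 : p / 2 = 2 * q := by omega
  rw [h1, pow_mul, pow_mul]
  have h2 : (s : ZMod p) ^ 2 = -(-1) ^ q * (((n : ZMod p) ^ q) * ((QQ q t : ℤ) : ZMod p)) ^ 2 := by
    rw [← det_mod2 p n q t hp4 hn ht, ← hs]
    push_cast
    rfl
  rw [h2, mul_pow, neg_neg_pow, one_mul]
  push_cast
  rfl

variable (q : ℕ)

theorem fact_sq (hp4 : p = 4 * q + 1) : (((2 * q).factorial : ℕ) : ZMod p) ^ 2 = -1 := by
  have h1 := ZMod.wilsons_lemma p
  have h2 : p - 1 = 2 * q + 2 * q := by omega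
  rw [h2, ← Finset.prod_range_add_one_eq_factorial, Finset.prod_range_add,
    ← Finset.prod_range_reflect (fun x => 2 * q + x + 1) (2 * q)] at h1
  have h3 : (((∏ j ∈ range (2 * q), (2 * q + (2 * q - 1 - j) + 1) : ℕ)) : ZMod p) =
      ((2 * q).factorial : ℕ) := by
    rw [← Finset.prod_range_add_one_eq_factorial]
    push_cast
    have h4 : ∀ j ∈ range (2 * q), (2 * (q : ZMod p) + ((2 * q - 1 - j : ℕ) : ZMod p) + 1) =
        (-1) * ((j : ZMod p) + 1) := by
      intro j hj
      rw [mem_range] at hj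
      have h5 : ((2 * q + (2 * q - 1 - j) + 1 + (j + 1) : ℕ) : ZMod p) = 0 := by
        have : 2 * q + (2 * q - 1 - j) + 1 + (j + 1) = p := by omega
        rw [this]
        exact CharP.cast_eq_zero _ _
      push_cast at h5
      linear_combination h5
    rw [Finset.prod_congr rfl h4, Finset.prod_mul_distrib, Finset.prod_const, card_range, pow_mul]
    norm_num
  rw [Nat.cast_mul, h3, Finset.prod_range_add_one_eq_factorial] at h1
  rw [sq]
  exact h1

theorem leg_fact (hp4 : p = 4 * q + 1) (hq : 0 < q) :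
    legendreSym p (((2 * q).factorial : ℕ) : ℤ) = (-1) ^ q := by
  apply leg_eq_pm p (by omega)
  · exact neg_one_pow_eq_or ℤ q
  · rw [legendreSym.eq_pow]
    have h1 : p / 2 = 2 * q := by omega
    rw [h1, pow_mul, Int.cast_natCast, fact_sq p q hp4]
    push_cast
    rfl

theorem leg_two (hp4 : p = 4 * q + 1) (hq : 0 < q) : legendreSym p 2 = (-1) ^ q := by
  rw [legendreSym.at_two (by omega), ZMod.χ₈_nat_eq_if_mod_eight]
  rw [if_neg (by omega)]
  rcases Nat.even_or_odd q with h | h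
  · rw [h.neg_one_pow, if_pos]
    obtain ⟨r, hr⟩ := h
    left
    omega
  · rw [h.neg_one_pow, if_neg]
    obtain ⟨r, hr⟩ := h
    omega

/-- the numbers prime to `p` have Legendre symbol of square `1` -/
theorem leg_sq (a : ℕ) (ha : 0 < a) (hap : a < p) : legendreSym p (a : ℤ) ^ 2 = 1 := by
  apply legendreSym.sq_one
  rw [Int.cast_natCast]
  intro h0
  rw [ZMod.natCast_eq_zero_iff] at h0
  have := Nat.le_of_dvd ha h0
  omega

theorem leg_fact_sq (a : ℕ) (hap : a < p) :
    legendreSym p ((a.factorial : ℕ) : ℤ) ^ 2 = 1 := by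
  apply legendreSym.sq_one
  rw [Int.cast_natCast]
  exact fact_ne_zero p a hap

/-- a number congruent to `a / 2` -/
theorem leg_half (x a : ℕ) (hp4 : p = 4 * q + 1) (hq : 0 < q) (h : 2 * x = p + a) :
    legendreSym p (x : ℤ) = (-1) ^ q * legendreSym p (a : ℤ) := by
  have h1 : legendreSym p ((2 : ℤ) * (x : ℤ)) = legendreSym p (a : ℤ) := by
    have : ((2 : ℤ) * (x : ℤ)) = (p : ℤ) + a := by exact_mod_cast h
    rw [this, legendreSym.mod, legendreSym.mod p (a : ℤ)]
    congr 1
    simp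
  rw [legendreSym.mul, leg_two p q hp4 hq] at h1
  rw [← h1, ← mul_assoc, ← pow_add, ← two_mul, pow_mul]
  norm_num

/-- the product of the Legendre symbols of the first factorials -/
def BB (l : ℕ) : ℤ := ∏ b ∈ range l, legendreSym p ((b.factorial : ℕ) : ℤ)

theorem BB_two_mul (l : ℕ) (hl : 2 * l < p) :
    BB p (2 * l) * legendreSym p 2 ^ l * legendreSym p ((l.factorial : ℕ) : ℤ) =
      legendreSym p (((2 * l).factorial : ℕ) : ℤ) := by
  induction l with
  | zero => simp [BB]
  | succ l ih =>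
    have ih' := ih (by omega)
    have h1 : BB p (2 * (l + 1)) = BB p (2 * l) * legendreSym p (((2 * l).factorial : ℕ) : ℤ) *
        legendreSym p (((2 * l + 1).factorial : ℕ) : ℤ) := by
      unfold BB
      rw [show 2 * (l + 1) = 2 * l + 1 + 1 by ring, Finset.prod_range_succ, Finset.prod_range_succ]
    have h2 : legendreSym p (((l + 1).factorial : ℕ) : ℤ) =
        legendreSym p ((l + 1 : ℕ) : ℤ) * legendreSym p ((l.factorial : ℕ) : ℤ) := by
      rw [Nat.factorial_succ, Nat.cast_mul, legendreSym.mul]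
    have h3 : legendreSym p (((2 * (l + 1)).factorial : ℕ) : ℤ) =
        legendreSym p 2 * legendreSym p ((l + 1 : ℕ) : ℤ) *
          legendreSym p (((2 * l + 1).factorial : ℕ) : ℤ) := by
      rw [show 2 * (l + 1) = (2 * l + 1) + 1 by ring, Nat.factorial_succ, Nat.cast_mul,
        legendreSym.mul, show 2 * l + 1 + 1 = 2 * (l + 1) by ring, Nat.cast_mul, legendreSym.mul]
      rfl
    have h4 := leg_fact_sq p (2 * l) (by omega)
    rw [h1, h2, h3, pow_succ]
    calc _ = (BB p (2 * l) * legendreSym p 2 ^ l * legendreSym p ((l.factorial : ℕ) : ℤ)) *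
          legendreSym p (((2 * l).factorial : ℕ) : ℤ) *
          (legendreSym p 2 * legendreSym p ((l + 1 : ℕ) : ℤ) *
          legendreSym p (((2 * l + 1).factorial : ℕ) : ℤ)) := by ring
      _ = legendreSym p (((2 * l).factorial : ℕ) : ℤ) ^ 2 *
          (legendreSym p 2 * legendreSym p ((l + 1 : ℕ) : ℤ) *
          legendreSym p (((2 * l + 1).factorial : ℕ) : ℤ)) := by rw [ih']; ring
      _ = _ := by rw [h4, one_mul]

/-- the number of the non-residues below `p / 4` -/
def NN : ℕ := ((Finset.Ioc 0 q).filter fun k : ℕ => legendreSym p (k : ℤ) = -1).card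

theorem leg_fact_q (l : ℕ) (hl : l < p) : legendreSym p ((l.factorial : ℕ) : ℤ) =
    (-1) ^ ((Finset.Ioc 0 l).filter fun k : ℕ => legendreSym p (k : ℤ) = -1).card := by
  induction l with
  | zero => simp
  | succ l ih =>
    have h1 : Finset.Ioc 0 (l + 1) = insert (l + 1) (Finset.Ioc 0 l) := by
      ext x; simp; omega
    rw [Nat.factorial_succ, Nat.cast_mul, legendreSym.mul, ih (by omega), h1, Finset.filter_insert]
    have h2 : ((l + 1 : ℕ) : ZMod p) ≠ 0 := by
      intro h0
      rw [ZMod.natCast_eq_zero_iff] at h0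
      have := Nat.le_of_dvd (by omega) h0
      omega
    rcases legendreSym.eq_one_or_neg_one p (a := ((l + 1 : ℕ) : ℤ)) (by exact_mod_cast h2) with h3 | h3
    · rw [h3, if_neg (by norm_num), one_mul]
    · rw [h3, if_pos rfl, Finset.card_insert_of_notMem, pow_succ]
      · ring
      · simp

theorem BB_full (hp4 : p = 4 * q + 1) (hq : 0 < q) : BB p (2 * q) = (-1) ^ NN p q := by
  have h1 := BB_two_mul p q (by omega)
  rw [leg_two p q hp4 hq, leg_fact p q hp4 hq, ← pow_mul] at h1
  have h2 : ((-1 : ℤ)) ^ (q * q) = (-1) ^ q := by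
    rcases Nat.even_or_odd q with h | h
    · rw [h.neg_one_pow, (h.mul_left q).neg_one_pow]
    · rw [h.neg_one_pow, (h.mul h).neg_one_pow]
  have h3 := leg_fact_sq p q (by omega)
  have h4 : ((-1 : ℤ) ^ q) * (-1) ^ q = 1 := by
    rw [← pow_add, ← two_mul, pow_mul]; norm_num
  rw [h2] at h1
  have h5 : BB p (2 * q) = legendreSym p ((q.factorial : ℕ) : ℤ) := by
    calc BB p (2 * q) = BB p (2 * q) * ((-1 : ℤ) ^ q * (-1) ^ q) *
        legendreSym p ((q.factorial : ℕ) : ℤ) ^ 2 := by rw [h3, h4]; ring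
      _ = (BB p (2 * q) * (-1 : ℤ) ^ q * legendreSym p ((q.factorial : ℕ) : ℤ)) * (-1) ^ q *
          legendreSym p ((q.factorial : ℕ) : ℤ) := by ring
      _ = legendreSym p ((q.factorial : ℕ) : ℤ) := by rw [h1, h4, one_mul]
  rw [h5, leg_fact_q p q (by omega)]
  rfl

theorem leg_prod {ι : Type*} (s : Finset ι) (f : ι → ℤ) :
    legendreSym p (∏ i ∈ s, f i) = ∏ i ∈ s, legendreSym p (f i) := by
  classical
  induction s using Finset.induction_on with
  | empty => simp
  | insert a s ha ih => rw [Finset.prod_insert ha, Finset.prod_insert ha, legendreSym.mul, ih]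

/-- the second product -/
theorem leg_choose_prod (t r : ℕ) (hp4 : p = 4 * q + 1) (ht : t < q) (hr : r = q - t - 1) :
    legendreSym p (∏ i ∈ range r, ((2 * q + (2 * t + 1)).choose (2 * t + 2 + i) : ℤ)) =
      legendreSym p (((2 * q + (2 * t + 1)).factorial : ℕ) : ℤ) ^ r *
        (BB p (2 * q) * BB p (2 * t + 2)) := by
  set g : ℕ → ℤ := fun b => legendreSym p ((b.factorial : ℕ) : ℤ) with hg
  have h1 : ∀ i ∈ range r, legendreSym p ((2 * q + (2 * t + 1)).choose (2 * t + 2 + i) : ℤ) =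
      g (2 * q + (2 * t + 1)) * (g (2 * t + 2 + i) * g (2 * t + 2 + r + (r - 1 - i))) := by
    intro i hi
    rw [mem_range] at hi
    have e1 := Nat.choose_mul_factorial_mul_factorial
      (show 2 * t + 2 + i ≤ 2 * q + (2 * t + 1) by omega)
    have e2 : 2 * q + (2 * t + 1) - (2 * t + 2 + i) = 2 * t + 2 + r + (r - 1 - i) := by omega
    rw [e2] at e1
    have e3 : g (2 * q + (2 * t + 1)) =
        legendreSym p ((2 * q + (2 * t + 1)).choose (2 * t + 2 + i) : ℤ) * g (2 * t + 2 + i) *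
          g (2 * t + 2 + r + (r - 1 - i)) := by
      simp only [hg]
      rw [← legendreSym.mul, ← legendreSym.mul, ← e1]
      push_cast
      rfl
    rw [e3]
    have e4 : g (2 * t + 2 + i) ^ 2 = 1 := leg_fact_sq p _ (by omega)
    have e5 : g (2 * t + 2 + r + (r - 1 - i)) ^ 2 = 1 := leg_fact_sq p _ (by omega)
    calc _ = legendreSym p ((2 * q + (2 * t + 1)).choose (2 * t + 2 + i) : ℤ) *
          g (2 * t + 2 + i) ^ 2 * g (2 * t + 2 + r + (r - 1 - i)) ^ 2 := by
          rw [e4, e5]; ring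
      _ = _ := by ring
  rw [leg_prod, Finset.prod_congr rfl h1, Finset.prod_mul_distrib, Finset.prod_const, card_range,
    Finset.prod_mul_distrib]
  congr 1
  rw [Finset.prod_range_reflect (fun i => g (2 * t + 2 + r + i)) r]
  have h2 : BB p (2 * q) = BB p (2 * t + 2) * ((∏ i ∈ range r, g (2 * t + 2 + i)) *
      ∏ i ∈ range r, g (2 * t + 2 + r + i)) := by
    have e1 : 2 * q = 2 * t + 2 + r + r := by omega
    unfold BB
    rw [e1, Finset.prod_range_add, Finset.prod_range_add, mul_assoc]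
  have h3 : BB p (2 * t + 2) ^ 2 = 1 := by
    unfold BB
    rw [← Finset.prod_pow]
    apply Finset.prod_eq_one
    intro b hb
    rw [mem_range] at hb
    exact leg_fact_sq p b (by omega)
  rw [h2]
  calc _ = BB p (2 * t + 2) ^ 2 * ((∏ i ∈ range r, g (2 * t + 2 + i)) *
      ∏ i ∈ range r, g (2 * t + 2 + r + i)) := by rw [h3, one_mul]
    _ = _ := by ring

theorem leg_n (hp4 : p = 4 * q + 1) (hq : 0 < q) :
    legendreSym p ((2 * q : ℕ) : ℤ) = (-1) ^ q := by
  have h1 : legendreSym p ((2 : ℤ) * ((2 * q : ℕ) : ℤ)) = 1 := by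
    have e1 : ((2 : ℤ) * ((2 * q : ℕ) : ℤ)) = (p : ℤ) + (-1) := by rw [hp4]; push_cast; ring
    rw [e1, legendreSym.mod]
    have e2 : ((p : ℤ) + -1) % p = (-1) % p := by simp
    rw [e2, ← legendreSym.mod, legendreSym.at_neg_one (by omega), ZMod.χ₄_nat_one_mod_four (by omega)]
  rw [legendreSym.mul, leg_two p q hp4 hq] at h1
  have h4 : ((-1 : ℤ) ^ q) * (-1) ^ q = 1 := by
    rw [← pow_add, ← two_mul, pow_mul]; norm_num
  calc legendreSym p ((2 * q : ℕ) : ℤ) = (-1) ^ q * ((-1) ^ q * legendreSym p ((2 * q : ℕ) : ℤ)) := by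
        rw [← mul_assoc, h4, one_mul]
    _ = (-1) ^ q := by rw [h1, mul_one]

/-- the Legendre symbol of the square root, in terms of the first product -/
theorem leg_main (n t : ℕ) (hp4 : p = 4 * q + 1) (hn : n = 2 * q) (ht : t < q) (s : ℤ)
    (hs : s ^ 2 = (mat p (2 * t + 1) n).det) :
    legendreSym p s = (-1) ^ q * (∏ i ∈ range (t + 1), legendreSym p
      (ff (2 * q + (2 * t + 1)) (2 * t + 1) i)) *
      (legendreSym p (((2 * q + (2 * t + 1)).factorial : ℕ) : ℤ) ^ (q - t - 1) *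
        ((-1) ^ NN p q * BB p (2 * t + 2))) := by
  rw [leg_sqrt p n q t hp4 hn ht s hs, legendreSym.mul, QQ, legendreSym.mul, leg_prod,
    leg_choose_prod p q t (q - t - 1) hp4 ht rfl, BB_full p q hp4 (by omega), hn]
  have h1 : legendreSym p (((2 * q : ℕ) : ℤ) ^ q) = (-1) ^ q := by
    have : legendreSym p (((2 * q : ℕ) : ℤ) ^ q) = legendreSym p ((2 * q : ℕ) : ℤ) ^ q := by
      rw [← legendreSym.hom_apply, map_pow, legendreSym.hom_apply]
    rw [this, leg_n p q hp4 (by omega), ← pow_mul]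
    rcases Nat.even_or_odd q with h | h
    · rw [h.neg_one_pow, (h.mul_left q).neg_one_pow]
    · rw [h.neg_one_pow, (h.mul h).neg_one_pow]
  rw [h1, mul_assoc]

end Pool.Agent.R343.SunDet
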