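import Pool.Agent.R343.SunDet4
import Pool.Agent.H604R2.LEC.Pf

set_option autoImplicit false

namespace Pool.Agent.R343.SunDet

open Finset Matrix

variable (p : ℕ) [hp : Fact p.Prime] (q : ℕ)

/-- the determinant is a square of an integer -/
theorem exists_sqrt (m n : ℕ) (hp4 : p = 4 * q + 1) (hm : Odd m) :
    ∃ s : ℤ, 0 ≤ s ∧ s ^ 2 = (mat p m n).det := by
  have h1 : mat p m n = Pool.Agent.H604R2.LEC.skew (fun e => mat p m n e.1.1 e.1.2) := by
    apply Pool.Agent.H604R2.LEC.eq_skew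
    · intro i j
      simp only [mat, Matrix.of_apply]
      have h2 : ∀ a : ℤ, legendreSym p (-a) = legendreSym p a := by
        intro a
        rw [← neg_one_mul a, legendreSym.mul, legendreSym.at_neg_one (by
          rintro rfl
          omega), ZMod.χ₄_nat_one_mod_four (by omega), one_mul]
      rw [← h2 ((((i : ℕ) : ℤ) + 1) ^ 2 - (((j : ℕ) : ℤ) + 1) ^ 2), neg_sub, ← neg_sub
        ((((j : ℕ) : ℤ) + 1) ^ 2), hm.neg_pow]
      ring
    · intro i
      simp [mat]
  rw [h1, ← Pool.Agent.H604R2.LEC.pf_sq_ring]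
  exact ⟨|_|, abs_nonneg _, sq_abs _⟩

theorem leg_fact_succ (hp4 : p = 4 * q + 1) (hq : 0 < q) :
    legendreSym p (((2 * q + 1).factorial : ℕ) : ℤ) = 1 := by
  rw [Nat.factorial_succ, Nat.cast_mul, legendreSym.mul, leg_fact p q hp4 hq,
    leg_half p q (2 * q + 1) 1 hp4 hq (by omega)]
  have h4 : ((-1 : ℤ) ^ q) * (-1) ^ q = 1 := by
    rw [← pow_add, ← two_mul, pow_mul]; norm_num
  rw [Nat.cast_one, legendreSym.at_one, mul_one, h4]

theorem leg_three (hp4 : p = 4 * q + 1) (hq : 0 < q) : legendreSym p 3 = jacobiSym p 3 := by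
  have : Fact (Nat.Prime 3) := ⟨by norm_num⟩
  rw [← jacobiSym.legendreSym.to_jacobiSym]
  have := legendreSym.quadratic_reciprocity_one_mod_four (p := p) (q := 3) (by omega) (by norm_num)
  rw [this]
  rfl

theorem leg_five (hp4 : p = 4 * q + 1) (hq : 0 < q) : legendreSym p 5 = jacobiSym p 5 := by
  have : Fact (Nat.Prime 5) := ⟨by norm_num⟩
  rw [← jacobiSym.legendreSym.to_jacobiSym]
  have := legendreSym.quadratic_reciprocity_one_mod_four (p := p) (q := 5) (by omega) (by norm_num)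
  rw [this]
  rfl

/-- the case `m = 1` -/
theorem leg_one (hp4 : p = 4 * q + 1) (hq : 0 < q) (s : ℤ)
    (hs : s ^ 2 = (mat p 1 (2 * q)).det) :
    legendreSym p s = (-1) ^ NN p q * jacobiSym p 3 := by
  rw [leg_main p q (2 * q) 0 hp4 rfl hq s hs]
  have h4 : ((-1 : ℤ) ^ q) * (-1) ^ q = 1 := by
    rw [← pow_add, ← two_mul, pow_mul]; norm_num
  have h1 : ff (2 * q + (2 * 0 + 1)) (2 * 0 + 1) 0 = ((2 * q + 2 : ℕ) : ℤ) := by
    simp [ff]
    ring
  have h2 : legendreSym p (((2 * q + (2 * 0 + 1)).factorial : ℕ) : ℤ) = 1 :=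
    leg_fact_succ p q hp4 hq
  have h3 : BB p (2 * 0 + 2) = 1 := by
    simp [BB, Finset.prod_range_succ]
  rw [Finset.prod_range_one, h1, h2, h3, one_pow, one_mul, mul_one,
    leg_half p q (2 * q + 2) 3 hp4 hq (by omega), ← mul_assoc, h4, one_mul,
    ← leg_three p q hp4 hq, mul_comm]
  rfl

/-- the case `m = 3` -/
theorem leg_m3 (hp4 : p = 4 * q + 1) (hq : 1 < q) (s : ℤ)
    (hs : s ^ 2 = (mat p 3 (2 * q)).det) :
    legendreSym p s = (-1) ^ NN p q * jacobiSym p (if q % 2 = 0 then 5 else 3) := by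
  have hq0 : 0 < q := by omega
  rw [leg_main p q (2 * q) 1 hp4 rfl hq s hs]
  have h4 : ((-1 : ℤ) ^ q) * (-1) ^ q = 1 := by
    rw [← pow_add, ← two_mul, pow_mul]; norm_num
  set A : ℤ := legendreSym p 3 with hA
  set B : ℤ := legendreSym p 5 with hB
  set C : ℤ := legendreSym p 7 with hC
  set T : ℤ := legendreSym p 2 with hT
  have hT1 : T = (-1) ^ q := leg_two p q hp4 hq0
  have hA2 : A ^ 2 = 1 := leg_sq p 3 (by norm_num) (by omega)
  have hB2 : B ^ 2 = 1 := leg_sq p 5 (by norm_num) (by omega)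
  have hC2 : C ^ 2 = 1 := leg_sq p 7 (by norm_num) (by omega)
  have hT2 : T ^ 2 = 1 := leg_sq p 2 (by norm_num) (by omega)
  have h2 : legendreSym p (((2 * q + (2 * 1 + 1)).factorial : ℕ) : ℤ) = A * B := by
    rw [show 2 * q + (2 * 1 + 1) = 2 * q + 1 + 1 + 1 by ring, Nat.factorial_succ,
      Nat.factorial_succ, Nat.cast_mul, Nat.cast_mul, legendreSym.mul, legendreSym.mul,
      leg_fact_succ p q hp4 hq0, leg_half p q (2 * q + 1 + 1) 3 hp4 hq0 (by omega),
      leg_half p q (2 * q + 1 + 1 + 1) 5 hp4 hq0 (by omega), ← hT1]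
    calc T * legendreSym p ((5 : ℕ) : ℤ) * (T * legendreSym p ((3 : ℕ) : ℤ) * 1) =
      T ^ 2 * (A * B) := by simp only [hA, hB]; push_cast; ring
      _ = A * B := by rw [hT2, one_mul]
  have h3 : BB p (2 * 1 + 2) = A := by
    have e1 : BB p (2 * 1 + 2) = legendreSym p ((2 : ℕ) : ℤ) * legendreSym p ((6 : ℕ) : ℤ) := by
      simp [BB, Finset.prod_range_succ, Nat.factorial]
    have e2 : legendreSym p ((6 : ℕ) : ℤ) = T * A := by
      rw [hT, hA, ← legendreSym.mul]; norm_num
    rw [e1, e2]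
    calc legendreSym p ((2 : ℕ) : ℤ) * (T * A) = T ^ 2 * A := by simp only [hT]; push_cast; ring
      _ = A := by rw [hT2, one_mul]
  have h5 : legendreSym p (ff (2 * q + (2 * 1 + 1)) (2 * 1 + 1) 0) = A * C := by
    have e1 := ff_KK p q 3 (2 * q + 3) 0 hp4 rfl (by norm_num)
    have e2 : KK 3 0 = 63 := by decide +kernel
    rw [e2] at e1
    have e3 : legendreSym p (48 * ff (2 * q + 3) 3 0) = legendreSym p 63 := by
      rw [legendreSym.mod, legendreSym.mod p 63]
      congr 1
      apply (ZMod.intCast_eq_intCast_iff' _ _ _).1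
      push_cast
      norm_num [Nat.factorial] at e1
      exact e1
    rw [legendreSym.mul] at e3
    have e4 : legendreSym p 48 = A := by
      have : legendreSym p 48 = T ^ 2 * T ^ 2 * A := by
        simp only [hT, hA, sq, ← legendreSym.mul]; norm_num
      rw [this, hT2]; ring
    have e5 : legendreSym p 63 = C := by
      have : legendreSym p 63 = A ^ 2 * C := by
        simp only [hC, hA, sq, ← legendreSym.mul]; norm_num
      rw [this, hA2]; ring
    rw [e4, e5] at e3
    change legendreSym p (ff (2 * q + 3) 3 0) = _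
    rw [← e3, ← mul_assoc, ← sq, hA2, one_mul]
  have h6 : legendreSym p (ff (2 * q + (2 * 1 + 1)) (2 * 1 + 1) 1) = T * B * C := by
    have e1 := ff_KK p q 3 (2 * q + 3) 1 hp4 rfl (by norm_num)
    have e2 : KK 3 1 = 70 := by decide +kernel
    rw [e2] at e1
    have e3 : legendreSym p (16 * ff (2 * q + 3) 3 1) = legendreSym p 70 := by
      rw [legendreSym.mod, legendreSym.mod p 70]
      congr 1
      apply (ZMod.intCast_eq_intCast_iff' _ _ _).1
      push_cast
      norm_num [Nat.factorial] at e1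
      exact e1
    rw [legendreSym.mul] at e3
    have e4 : legendreSym p 16 = 1 := by
      have : legendreSym p 16 = T ^ 2 * T ^ 2 := by
        simp only [hT, sq, ← legendreSym.mul]; norm_num
      rw [this, hT2]; ring
    have e5 : legendreSym p 70 = T * B * C := by
      simp only [hC, hT, hB, ← legendreSym.mul]; norm_num
    rw [e4, e5, one_mul] at e3
    change legendreSym p (ff (2 * q + 3) 3 1) = _
    exact e3
  rw [Finset.prod_range_succ, Finset.prod_range_one, h5, h6, h2, h3, ← hT1]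
  have h7 : (A * B) ^ 2 = 1 := by rw [mul_pow, hA2, hB2]; norm_num
  have h8 : T * (A * C * (T * B * C)) * ((A * B) ^ (q - 1 - 1) * ((-1) ^ NN p q * A)) =
      (-1) ^ NN p q * ((A * B) ^ q * B) := by
    have e1 : (A * B) ^ q = (A * B) ^ (q - 1 - 1) * (A * B) ^ 2 := by
      rw [← pow_add]
      congr 1
      omega
    rw [e1, h7]
    calc _ = T ^ 2 * C ^ 2 * A ^ 2 * ((A * B) ^ (q - 1 - 1) * ((-1) ^ NN p q * B)) := by ring
      _ = _ := by rw [hT2, hC2, hA2]; ring
  rw [h8]
  congr 1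
  rcases Nat.even_or_odd q with h | h
  · rw [if_pos (Nat.even_iff.1 h), ← leg_five p q hp4 hq0]
    obtain ⟨r, hr⟩ := h
    rw [hr, ← two_mul, pow_mul, h7, one_pow, one_mul]
  · have h9 := Nat.odd_iff.1 h
    rw [if_neg (by omega), ← leg_three p q hp4 hq0]
    obtain ⟨r, hr⟩ := h
    rw [hr, pow_succ, pow_mul, h7, one_pow, one_mul, mul_assoc, ← sq, hB2, mul_one]

end Pool.Agent.R343.SunDet
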