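import Mathlib

set_option autoImplicit false

namespace Pool.Agent.R343.WShift

open Filter Topology

/-- distance of `k` to the multiples of `z` -/
noncomputable def dd (z k : ℕ) : ℝ := ‖((k : ℝ) : AddCircle (z : ℝ))‖

lemma dd_nonneg (z k : ℕ) : 0 ≤ dd z k := norm_nonneg _

lemma dd_add_le (z j k : ℕ) : dd z (j + k) ≤ dd z j + dd z k := by
  unfold dd
  have h := norm_add_le ((j : ℝ) : AddCircle (z : ℝ)) ((k : ℝ) : AddCircle (z : ℝ))
  rw [← AddCircle.coe_add] at h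
  rw [Nat.cast_add]
  exact h

lemma dd_le (z k : ℕ) : dd z k ≤ k := by
  unfold dd
  have h := QuotientAddGroup.norm_mk_le_norm (S := AddSubgroup.zmultiples (z : ℝ)) (m := (k : ℝ))
  have h2 : ‖(k : ℝ)‖ = k := by simp
  rw [h2] at h
  exact h

lemma dd_dvd {z k : ℕ} (h : z ∣ k) : dd z k = 0 := by
  obtain ⟨m, rfl⟩ := h
  unfold dd
  rw [norm_eq_zero, AddCircle.coe_eq_zero_iff]
  exact ⟨m, by push_cast; simp [mul_comm]⟩

lemma dd_lower {z k W : ℕ} (h1 : W ≤ k) (h2 : k + W ≤ z) : (W : ℝ) ≤ dd z k := by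
  unfold dd
  rw [AddCircle.norm_eq]
  set r : ℤ := round ((z : ℝ)⁻¹ * k) with hr
  have h1' : (W : ℝ) ≤ k := by exact_mod_cast h1
  have h2' : (k : ℝ) + W ≤ z := by exact_mod_cast h2
  have hz : (0 : ℝ) ≤ z := Nat.cast_nonneg z
  rcases le_or_gt r 0 with h | h
  · have : (r : ℝ) ≤ 0 := by exact_mod_cast h
    have h3 : (r : ℝ) * z ≤ 0 := mul_nonpos_of_nonpos_of_nonneg this hz
    have := le_abs_self ((k : ℝ) - r * z)
    linarith
  · have h4 : (1 : ℝ) ≤ r := by exact_mod_cast h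
    have h3 : (z : ℝ) ≤ r * z := by nlinarith
    have := neg_abs_le ((k : ℝ) - r * z)
    linarith

/-- The conditions on one stage of the construction. -/
structure Step (lam : ℝ) (n A a m : ℕ) : Prop where
  h1 : ((n : ℝ) + 1) * (6 * a * 2 ^ (n + 2 + m + A)) ≤ (2 : ℝ) ^ (lam * a)
  h2 : (lam - 1 / ((n : ℝ) + 1)) * a ≤ m
  h3 : ((n : ℝ) + 1) * 2 ^ A ≤ (2 : ℝ) ^ (lam * m)
  h4 : Real.exp (1 + 6 * n * A) ≤ 2 ^ m
  h5 : m + A ≤ a
  h6 : 1 ≤ m

lemma exists_step (lam : ℝ) (h0 : 0 < lam) (hl : lam ≤ 1) (n A : ℕ) :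
    ∃ a m : ℕ, Step lam n A a m := by
  set δ : ℝ := min (1 / ((n : ℝ) + 1)) (lam / 2) with hδ
  have hδ0 : 0 < δ := lt_min (by positivity) (by positivity)
  have hδ1 : δ ≤ 1 / ((n : ℝ) + 1) := min_le_left _ _
  have hδ2 : δ ≤ lam / 2 := min_le_right _ _
  let m : ℕ → ℕ := fun a => ⌈(lam - δ) * a⌉₊
  have hm1 : ∀ a : ℕ, (lam - δ) * a ≤ m a := fun a => Nat.le_ceil _
  have hm2 : ∀ a : ℕ, (m a : ℝ) ≤ (lam - δ) * a + 1 := fun a =>
    (Nat.ceil_lt_add_one (by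
      have : (0 : ℝ) ≤ lam - δ := by linarith
      positivity)).le
  have hmt : Tendsto (fun a : ℕ => (m a : ℝ)) atTop atTop := by
    have h : Tendsto (fun a : ℕ => (lam / 2) * (a : ℝ)) atTop atTop :=
      tendsto_natCast_atTop_atTop.const_mul_atTop (by positivity)
    refine tendsto_atTop_mono (fun a => ?_) h
    have h1 := hm1 a
    have : (lam / 2) * (a : ℝ) ≤ (lam - δ) * a :=
      mul_le_mul_of_nonneg_right (by linarith) (Nat.cast_nonneg a)
    linarith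
  have hmtN : Tendsto m atTop atTop := by
    exact tendsto_natCast_atTop_iff.1 hmt
  -- h1
  have e1 : ∀ᶠ a : ℕ in atTop, ((n : ℝ) + 1) * (6 * a * 2 ^ (n + 2 + m a + A)) ≤
      (2 : ℝ) ^ (lam * a) := by
    have hr : (1 : ℝ) < (2 : ℝ) ^ δ := Real.one_lt_rpow (by norm_num) hδ0
    have ht := tendsto_pow_const_div_const_pow_of_one_lt 1 hr
    set K : ℝ := ((n : ℝ) + 1) * 6 * 2 ^ (n + 2 + A) * 2 with hK
    have hKpos : 0 < K := by positivity
    have hev : ∀ᶠ a : ℕ in atTop, ((a : ℝ) ^ 1 / ((2 : ℝ) ^ δ) ^ a) < 1 / K :=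
      ht.eventually_lt_const (by positivity)
    filter_upwards [hev] with a ha
    have hp : (0 : ℝ) < ((2 : ℝ) ^ δ) ^ a := by positivity
    rw [div_lt_div_iff₀ hp hKpos, pow_one, one_mul] at ha
    have hpe : ((2 : ℝ) ^ δ) ^ a = (2 : ℝ) ^ (δ * a) := by
      rw [← Real.rpow_natCast, ← Real.rpow_mul (by norm_num)]
    rw [hpe] at ha
    have hma : (2 : ℝ) ^ (m a) ≤ 2 * (2 : ℝ) ^ ((lam - δ) * a) := by
      rw [← Real.rpow_natCast]
      calc (2 : ℝ) ^ ((m a : ℕ) : ℝ) ≤ (2 : ℝ) ^ ((lam - δ) * a + 1) :=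
            Real.rpow_le_rpow_of_exponent_le (by norm_num) (hm2 a)
        _ = 2 * (2 : ℝ) ^ ((lam - δ) * a) := by
            rw [Real.rpow_add (by norm_num), Real.rpow_one]; ring
    have hsp : (2 : ℝ) ^ (lam * a) = (2 : ℝ) ^ (δ * a) * (2 : ℝ) ^ ((lam - δ) * a) := by
      rw [← Real.rpow_add (by norm_num)]; congr 1; ring
    rw [hsp]
    calc ((n : ℝ) + 1) * (6 * a * 2 ^ (n + 2 + m a + A))
        = (((n : ℝ) + 1) * 6 * 2 ^ (n + 2 + A) * a) * 2 ^ (m a) := by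
          have : n + 2 + m a + A = (n + 2 + A) + m a := by ring
          rw [this, pow_add (2 : ℝ) (n + 2 + A) (m a)]; ring
      _ ≤ (((n : ℝ) + 1) * 6 * 2 ^ (n + 2 + A) * a) * (2 * (2 : ℝ) ^ ((lam - δ) * a)) :=
          mul_le_mul_of_nonneg_left hma (by positivity)
      _ = (a * K) * (2 : ℝ) ^ ((lam - δ) * a) := by rw [hK]; ring
      _ ≤ (2 : ℝ) ^ (δ * a) * (2 : ℝ) ^ ((lam - δ) * a) :=
          mul_le_mul_of_nonneg_right ha.le (by positivity)
  have e3 : ∀ᶠ a : ℕ in atTop, ((n : ℝ) + 1) * 2 ^ A ≤ (2 : ℝ) ^ (lam * m a) := by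
    have hr : (1 : ℝ) < (2 : ℝ) ^ lam := Real.one_lt_rpow (by norm_num) h0
    have ht := (tendsto_pow_atTop_atTop_of_one_lt hr).comp hmtN
    filter_upwards [ht.eventually_ge_atTop (((n : ℝ) + 1) * 2 ^ A)] with a ha
    have : ((2 : ℝ) ^ lam) ^ (m a) = (2 : ℝ) ^ (lam * m a) := by
      rw [← Real.rpow_natCast, ← Real.rpow_mul (by norm_num)]
    rw [← this]; exact ha
  have e4 : ∀ᶠ a : ℕ in atTop, Real.exp (1 + 6 * n * A) ≤ (2 : ℝ) ^ (m a) := by
    have ht := (tendsto_pow_atTop_atTop_of_one_lt (by norm_num : (1 : ℝ) < 2)).comp hmtN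
    exact ht.eventually_ge_atTop _
  obtain ⟨a, ha1, ha3, ha4, ha6, haa⟩ := (e1.and (e3.and (e4.and
    ((hmtN.eventually_ge_atTop 1).and (eventually_ge_atTop 1))))).exists
  refine ⟨a, m a, ha1, ?_, ha3, ha4, ?_, ha6⟩
  · refine le_trans (mul_le_mul_of_nonneg_right ?_ (Nat.cast_nonneg a)) (hm1 a)
    linarith
  · have h1 : (2 : ℝ) ^ (m a + A) ≤ (2 : ℝ) ^ a := by
      calc (2 : ℝ) ^ (m a + A) ≤ ((n : ℝ) + 1) * (6 * a * 2 ^ (n + 2 + m a + A)) := by
            have ha' : (1 : ℝ) ≤ a := by exact_mod_cast haa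
            have e : n + 2 + m a + A = (n + 2) + (m a + A) := by ring
            rw [e, pow_add (2 : ℝ) (n + 2)]
            have hx : (0 : ℝ) < 2 ^ (m a + A) := by positivity
            have hy : (1 : ℝ) ≤ 2 ^ (n + 2) := one_le_pow₀ (by norm_num)
            have hn : (1 : ℝ) ≤ (n : ℝ) + 1 := by
              have : (0 : ℝ) ≤ n := Nat.cast_nonneg n
              linarith
            have h6 : (1 : ℝ) ≤ 6 * a * 2 ^ (n + 2) := by nlinarith
            have h7 : (1 : ℝ) ≤ ((n : ℝ) + 1) * (6 * a * 2 ^ (n + 2)) := by nlinarith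
            calc (2 : ℝ) ^ (m a + A) = 1 * 2 ^ (m a + A) := (one_mul _).symm
              _ ≤ (((n : ℝ) + 1) * (6 * a * 2 ^ (n + 2))) * 2 ^ (m a + A) :=
                  mul_le_mul_of_nonneg_right h7 hx.le
              _ = _ := by ring
        _ ≤ (2 : ℝ) ^ (lam * a) := ha1
        _ ≤ (2 : ℝ) ^ ((a : ℕ) : ℝ) := by
            apply Real.rpow_le_rpow_of_exponent_le (by norm_num)
            have : (0 : ℝ) ≤ a := Nat.cast_nonneg a
            nlinarith
        _ = (2 : ℝ) ^ a := Real.rpow_natCast _ _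
    exact (pow_le_pow_iff_right₀ (by norm_num : (1 : ℝ) < 2)).1 h1

/-- A full choice of parameters. -/
structure Par (lam : ℝ) where
  a : ℕ → ℕ
  m : ℕ → ℕ
  a0 : a 0 = 0
  step : ∀ n, Step lam n (a n) (a (n + 1)) (m n)

lemma exists_par (lam : ℝ) (h0 : 0 < lam) (hl : lam ≤ 1) : Nonempty (Par lam) := by
  choose F G hFG using exists_step lam h0 hl
  let a : ℕ → ℕ := fun n => Nat.rec 0 (fun k r => F k r) n
  exact ⟨⟨a, fun n => G n (a n), rfl, fun n => hFG n (a n)⟩⟩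

variable {lam : ℝ}

namespace Par

variable (P : Par lam)

lemma a_lt (n : ℕ) : P.a n < P.a (n + 1) := by
  have h5 := (P.step n).h5
  have h6 := (P.step n).h6
  omega

lemma a_mono : StrictMono P.a := strictMono_nat_of_lt_succ P.a_lt

lemma ma_mono : Monotone (fun n => P.m n + P.a n) := by
  refine monotone_nat_of_le_succ fun n => ?_
  have h5 := (P.step n).h5
  show P.m n + P.a n ≤ P.m (n + 1) + P.a (n + 1)
  omega

/-- the threshold `W n` -/
def W (n : ℕ) : ℕ := 6 * P.a (n + 1) * 2 ^ (n + 2 + P.m n + P.a n)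

/-- one term of the function `L` -/
noncomputable def g (n k : ℕ) : ℝ :=
  min (6 * (P.a (n + 1) : ℝ)) (dd (2 ^ P.a (n + 1)) k / 2 ^ (n + 2 + P.m n + P.a n))

lemma g_nonneg (n k : ℕ) : 0 ≤ P.g n k :=
  le_min (by positivity) (div_nonneg (dd_nonneg _ _) (by positivity))

lemma g_le_dd (n k : ℕ) : P.g n k ≤ dd (2 ^ P.a (n + 1)) k / 2 ^ (n + 2 + P.m n + P.a n) :=
  min_le_right _ _

lemma g_le_div (n k : ℕ) : P.g n k ≤ (k : ℝ) / 2 ^ (n + 2 + P.m n + P.a n) :=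
  (P.g_le_dd n k).trans (div_le_div_of_nonneg_right (dd_le _ _) (by positivity))

lemma g_le_H (n k : ℕ) : P.g n k ≤ 6 * (P.a (n + 1) : ℝ) := min_le_left _ _

lemma g_add_le (n j k : ℕ) : P.g n (j + k) ≤ P.g n j + P.g n k := by
  unfold g
  have h := dd_add_le (2 ^ P.a (n + 1)) j k
  have hH : (0 : ℝ) ≤ 6 * (P.a (n + 1) : ℝ) := by positivity
  have hD : (0 : ℝ) < 2 ^ (n + 2 + P.m n + P.a n) := by positivity
  have h1 : dd (2 ^ P.a (n + 1)) (j + k) / 2 ^ (n + 2 + P.m n + P.a n) ≤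
      dd (2 ^ P.a (n + 1)) j / 2 ^ (n + 2 + P.m n + P.a n) +
      dd (2 ^ P.a (n + 1)) k / 2 ^ (n + 2 + P.m n + P.a n) := by
    rw [← add_div]; exact div_le_div_of_nonneg_right h hD.le
  have hj : 0 ≤ dd (2 ^ P.a (n + 1)) j / 2 ^ (n + 2 + P.m n + P.a n) :=
    div_nonneg (dd_nonneg _ _) hD.le
  have hk : 0 ≤ dd (2 ^ P.a (n + 1)) k / 2 ^ (n + 2 + P.m n + P.a n) :=
    div_nonneg (dd_nonneg _ _) hD.le
  rcases le_total (6 * (P.a (n + 1) : ℝ)) (dd (2 ^ P.a (n + 1)) j / 2 ^ (n + 2 + P.m n + P.a n))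
    with hc | hc
  · rw [min_eq_left hc]
    have : 0 ≤ min (6 * (P.a (n + 1) : ℝ))
        (dd (2 ^ P.a (n + 1)) k / 2 ^ (n + 2 + P.m n + P.a n)) := le_min hH hk
    linarith [min_le_left (6 * (P.a (n + 1) : ℝ))
      (dd (2 ^ P.a (n + 1)) (j + k) / 2 ^ (n + 2 + P.m n + P.a n))]
  · rcases le_total (6 * (P.a (n + 1) : ℝ))
      (dd (2 ^ P.a (n + 1)) k / 2 ^ (n + 2 + P.m n + P.a n)) with hd | hd
    · rw [min_eq_left hd, min_eq_right hc]
      linarith [min_le_left (6 * (P.a (n + 1) : ℝ))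
        (dd (2 ^ P.a (n + 1)) (j + k) / 2 ^ (n + 2 + P.m n + P.a n))]
    · rw [min_eq_right hc, min_eq_right hd]
      exact (min_le_right _ _).trans h1

lemma g_le_geom (n k : ℕ) : P.g n k ≤ k * (1 / 2 : ℝ) ^ n := by
  refine (P.g_le_div n k).trans ?_
  rw [div_eq_mul_inv]
  refine mul_le_mul_of_nonneg_left ?_ (Nat.cast_nonneg k)
  rw [one_div, inv_pow]
  apply inv_anti₀ (by positivity)
  exact pow_le_pow_right₀ (by norm_num) (by omega)

lemma summable_g (k : ℕ) : Summable (fun n => P.g n k) :=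
  Summable.of_nonneg_of_le (fun n => P.g_nonneg n k) (fun n => P.g_le_geom n k)
    ((summable_geometric_of_lt_one (by norm_num) (by norm_num)).mul_left _)

/-- the logarithm of the products of the weights -/
noncomputable def L (k : ℕ) : ℝ := ∑' n, P.g n k

lemma L_nonneg (k : ℕ) : 0 ≤ P.L k := tsum_nonneg fun n => P.g_nonneg n k

lemma g_zero (n : ℕ) : P.g n 0 = 0 :=
  le_antisymm (by simpa using P.g_le_div n 0) (P.g_nonneg n 0)

lemma L_zero : P.L 0 = 0 := by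
  unfold L
  simp [g_zero]

lemma L_add_le (j k : ℕ) : P.L (j + k) ≤ P.L j + P.L k := by
  unfold L
  rw [← (P.summable_g j).tsum_add (P.summable_g k)]
  exact (P.summable_g _).tsum_le_tsum (fun n => P.g_add_le n j k)
    ((P.summable_g j).add (P.summable_g k))

lemma g_le_L (n k : ℕ) : P.g n k ≤ P.L k :=
  (P.summable_g k).le_tsum n fun i _ => P.g_nonneg i k

lemma hasSum_half : HasSum (fun l : ℕ => (1 / 2 : ℝ) ^ (l + 1)) 1 := by
  have h := (hasSum_geometric_two).mul_left (1 / 2 : ℝ)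
  have h2 : (1 / 2 : ℝ) * 2 = 1 := by norm_num
  rw [h2] at h
  refine h.congr_fun ?_ 
  intro l
  rw [pow_succ]; ring

/-- if every term is at most `2^{-(l+1)}` then `L ≤ 1` -/
lemma L_le_one_of {j : ℕ} (h : ∀ l, P.g l j ≤ (1 / 2 : ℝ) ^ (l + 1)) : P.L j ≤ 1 := by
  unfold L
  rw [← hasSum_half.tsum_eq]
  exact (P.summable_g j).tsum_le_tsum h hasSum_half.summable

lemma g_le_half {l j : ℕ} (h : j ≤ 2 * 2 ^ (P.m l + P.a l)) : P.g l j ≤ (1 / 2 : ℝ) ^ (l + 1) := by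
  refine (P.g_le_div l j).trans ?_
  rw [div_le_iff₀ (by positivity)]
  have h' : (j : ℝ) ≤ 2 * 2 ^ (P.m l + P.a l) := by exact_mod_cast h
  refine h'.trans (le_of_eq ?_)
  have e : l + 2 + P.m l + P.a l = (l + 1) + (1 + (P.m l + P.a l)) := by ring
  rw [e, pow_add (2 : ℝ) (l + 1), ← mul_assoc, ← mul_pow]
  norm_num
  rw [pow_add]; ring

/-- (F2) -/
lemma L_le_one_digits {n d d' : ℕ} (hd : d ≤ 2 ^ P.m (n + 1)) (hd' : d' ≤ 2 ^ P.m n) :
    P.L (d * 2 ^ P.a (n + 1) + d' * 2 ^ P.a n) ≤ 1 := by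
  apply P.L_le_one_of
  intro l
  rcases lt_trichotomy l n with h | h | h
  · -- the modulus divides
    have h1 : P.a (l + 1) ≤ P.a n := P.a_mono.monotone h
    have h2 : P.a (l + 1) ≤ P.a (n + 1) := P.a_mono.monotone (by omega)
    have hdv : 2 ^ P.a (l + 1) ∣ d * 2 ^ P.a (n + 1) + d' * 2 ^ P.a n :=
      dvd_add (dvd_mul_of_dvd_right (pow_dvd_pow 2 h2) _)
        (dvd_mul_of_dvd_right (pow_dvd_pow 2 h1) _)
    refine (P.g_le_dd _ _).trans ?_
    rw [dd_dvd hdv, zero_div]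
    positivity
  · subst h
    refine (P.g_le_dd _ _).trans ?_
    have h1 : dd (2 ^ P.a (l + 1)) (d * 2 ^ P.a (l + 1) + d' * 2 ^ P.a l) ≤
        ((d' * 2 ^ P.a l : ℕ) : ℝ) := by
      refine (dd_add_le _ _ _).trans ?_
      rw [dd_dvd (dvd_mul_left _ _), zero_add]
      exact dd_le _ _
    have h2 : d' * 2 ^ P.a l ≤ 2 * 2 ^ (P.m l + P.a l) := by
      rw [pow_add]
      calc d' * 2 ^ P.a l ≤ 2 ^ P.m l * 2 ^ P.a l := Nat.mul_le_mul_right _ hd'
        _ ≤ 2 * (2 ^ P.m l * 2 ^ P.a l) := by omega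
    rw [div_le_iff₀ (by positivity)]
    refine h1.trans ?_
    have h' : ((d' * 2 ^ P.a l : ℕ) : ℝ) ≤ 2 * 2 ^ (P.m l + P.a l) := by exact_mod_cast h2
    refine h'.trans (le_of_eq ?_)
    have e : l + 2 + P.m l + P.a l = (l + 1) + (1 + (P.m l + P.a l)) := by ring
    rw [e, pow_add (2 : ℝ) (l + 1), ← mul_assoc, ← mul_pow]
    norm_num
    rw [pow_add]; ring
  · apply P.g_le_half
    have h1 : P.m (n + 1) + P.a (n + 1) ≤ P.m l + P.a l := P.ma_mono h
    have h2 : P.m n + P.a n ≤ P.m l + P.a l := P.ma_mono h.le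
    calc d * 2 ^ P.a (n + 1) + d' * 2 ^ P.a n
        ≤ 2 ^ P.m (n + 1) * 2 ^ P.a (n + 1) + 2 ^ P.m n * 2 ^ P.a n :=
          add_le_add (Nat.mul_le_mul_right _ hd) (Nat.mul_le_mul_right _ hd')
      _ = 2 ^ (P.m (n + 1) + P.a (n + 1)) + 2 ^ (P.m n + P.a n) := by rw [pow_add, pow_add]
      _ ≤ 2 ^ (P.m l + P.a l) + 2 ^ (P.m l + P.a l) :=
          add_le_add (Nat.pow_le_pow_right (by norm_num) h1)
            (Nat.pow_le_pow_right (by norm_num) h2)
      _ = 2 * 2 ^ (P.m l + P.a l) := by ring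

/-- bound of `L` on the interval `[0, 2^{m_n + a_n}]` -/
lemma L_le_small {n j : ℕ} (hj : j ≤ 2 ^ (P.m n + P.a n)) :
    P.L j ≤ 1 + 6 * n * P.a n := by
  have h1 : ∀ l, P.g l j ≤ (if l < n then 6 * (P.a n : ℝ) else 0) + (1 / 2 : ℝ) ^ (l + 1) := by
    intro l
    by_cases hl : l < n
    · rw [if_pos hl]
      have h := P.g_le_H l j
      have h2 : (P.a (l + 1) : ℝ) ≤ P.a n := by exact_mod_cast P.a_mono.monotone hl
      have h3 : (0 : ℝ) < (1 / 2 : ℝ) ^ (l + 1) := by positivity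
      linarith
    · rw [if_neg hl, zero_add]
      apply P.g_le_half
      have h2 : P.m n + P.a n ≤ P.m l + P.a l := P.ma_mono (not_lt.1 hl)
      calc j ≤ 2 ^ (P.m n + P.a n) := hj
        _ ≤ 2 ^ (P.m l + P.a l) := Nat.pow_le_pow_right (by norm_num) h2
        _ ≤ _ := by omega
  have hs : HasSum (fun l => if l < n then 6 * (P.a n : ℝ) else 0) (6 * n * P.a n) := by
    have : HasSum (fun l => if l < n then 6 * (P.a n : ℝ) else 0)
        (∑ b ∈ Finset.range n, (if b < n then 6 * (P.a n : ℝ) else 0)) :=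
      hasSum_sum_of_ne_finset_zero (by
        intro b hb
        rw [Finset.mem_range] at hb
        simp [hb])
    have e : ∑ b ∈ Finset.range n, (if b < n then 6 * (P.a n : ℝ) else 0) = 6 * n * P.a n := by
      rw [Finset.sum_congr rfl (fun x hx => if_pos (Finset.mem_range.1 hx))]
      simp; ring
    rw [e] at this
    exact this
  have hs2 := hs.add hasSum_half
  unfold L
  have := (P.summable_g j).tsum_le_tsum h1 hs2.summable
  rw [hs2.tsum_eq] at this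
  linarith

/-- the set `S` -/
def S : Set ℕ := {k | ∃ n, P.W n ≤ k ∧ k + P.W n ≤ 2 ^ P.a (n + 1)}

lemma a_succ_pos (n : ℕ) : 1 ≤ P.a (n + 1) := by
  have := P.a_lt n
  omega

lemma pow_lt_W (n : ℕ) : 2 ^ (P.m n + P.a n) < P.W n := by
  unfold W
  have h1 := P.a_succ_pos n
  have e : n + 2 + P.m n + P.a n = (n + 2) + (P.m n + P.a n) := by ring
  rw [e, pow_add 2 (n + 2)]
  have h2 : 0 < 2 ^ (P.m n + P.a n) := by positivity
  have h3 : 1 ≤ 2 ^ (n + 2) := Nat.one_le_two_pow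
  calc 2 ^ (P.m n + P.a n) = 1 * 1 * (1 * 2 ^ (P.m n + P.a n)) := by ring
    _ < 6 * P.a (n + 1) * (2 ^ (n + 2) * 2 ^ (P.m n + P.a n)) := by
        have h4 : 1 * 2 ^ (P.m n + P.a n) ≤ 2 ^ (n + 2) * 2 ^ (P.m n + P.a n) :=
          Nat.mul_le_mul_right _ h3
        have h5 : 1 * 1 < 6 * P.a (n + 1) := by omega
        exact Nat.mul_lt_mul_of_lt_of_le h5 h4 (by positivity)

/-- lower bound of `L` on `S` -/
lemma log_le_L {k : ℕ} (hk : k ∈ P.S) : 6 * Real.log k ≤ P.L k := by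
  obtain ⟨n, h1, h2⟩ := hk
  refine le_trans ?_ (P.g_le_L n k)
  have h3 := dd_lower h1 h2
  have hkz : k ≤ 2 ^ P.a (n + 1) := by omega
  have hW := P.pow_lt_W n
  have hk0 : 0 < k := lt_of_lt_of_le (lt_of_le_of_lt (Nat.zero_le _) hW) h1
  have hlog : Real.log k ≤ P.a (n + 1) := by
    have h4 : Real.log k ≤ Real.log ((2 : ℝ) ^ P.a (n + 1)) := by
      apply Real.log_le_log (by exact_mod_cast hk0)
      exact_mod_cast hkz
    rw [Real.log_pow] at h4
    have h5 : Real.log 2 ≤ 1 := by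
      have := Real.log_two_lt_d9
      linarith
    have h6 : (0 : ℝ) ≤ P.a (n + 1) := Nat.cast_nonneg _
    nlinarith
  unfold g
  refine le_min (by linarith) ?_
  rw [le_div_iff₀ (by positivity)]
  refine le_trans ?_ h3
  unfold W
  push_cast
  exact mul_le_mul_of_nonneg_right (by linarith) (by positivity)

/-- the set `S` has no element in `(2^{a_n}, W_n)` -/
lemma S_gap {n k : ℕ} (hk : k ∈ P.S) (h : 2 ^ P.a n < k) : P.W n ≤ k := by
  obtain ⟨l, h1, h2⟩ := hk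
  rcases lt_trichotomy l n with hl | hl | hl
  · exfalso
    have h3 : P.a (l + 1) ≤ P.a n := P.a_mono.monotone hl
    have h4 : 2 ^ P.a (l + 1) ≤ 2 ^ P.a n := Nat.pow_le_pow_right (by norm_num) h3
    omega
  · subst hl; exact h1
  · -- W n ≤ W l
    refine le_trans ?_ h1
    unfold W
    have h3 : P.a (n + 1) ≤ P.a (l + 1) := P.a_mono.monotone (by omega)
    have h4 : P.m n + P.a n ≤ P.m l + P.a l := P.ma_mono hl.le
    exact Nat.mul_le_mul (Nat.mul_le_mul_left _ h3)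
      (Nat.pow_le_pow_right (by norm_num) (by omega))

lemma exp_le_W {n j : ℕ} (hj : j ≤ 2 ^ (P.m n + P.a n)) : Real.exp (P.L j) ≤ P.W n := by
  have h1 := P.L_le_small hj
  have h2 := (P.step n).h4
  have h3 := P.pow_lt_W n
  have h4 : (2 : ℝ) ^ P.m n ≤ P.W n := by
    have : 2 ^ P.m n ≤ P.W n := by
      calc 2 ^ P.m n ≤ 2 ^ (P.m n + P.a n) := Nat.pow_le_pow_right (by norm_num) (by omega)
        _ ≤ _ := h3.le
    exact_mod_cast this
  exact ((Real.exp_le_exp.2 h1).trans h2).trans h4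

end Par

end Pool.Agent.R343.WShift
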