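import Pool.Agent.R343.WShift

set_option autoImplicit false

namespace Pool.Agent.R343.WShift

open Filter Topology
open scoped ENNReal

/-- the lower `q`-density of a set of positive integers, with values in `[0, ∞]` -/
noncomputable def lowerDensity (q : ℝ) (A : Set ℕ) : ℝ≥0∞ :=
  Filter.liminf (fun n : ℕ =>
    ((Set.ncard {j : ℕ | j ∈ A ∧ 1 ≤ j ∧ (j : ℝ) ≤ (n : ℝ) ^ q} : ℕ) : ℝ≥0∞) / (n : ℝ≥0∞)) atTop

lemma cnt_finite (A : Set ℕ) (r : ℝ) : {j : ℕ | j ∈ A ∧ 1 ≤ j ∧ (j : ℝ) ≤ r}.Finite := by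
  refine (Set.finite_Iic ⌊r⌋₊).subset ?_
  rintro j ⟨_, _, h⟩
  exact Nat.le_floor h

lemma cnt_le (A : Set ℕ) (r : ℝ) (F : Finset ℕ)
    (h : ∀ j, j ∈ A → 1 ≤ j → (j : ℝ) ≤ r → j ∈ F) :
    Set.ncard {j : ℕ | j ∈ A ∧ 1 ≤ j ∧ (j : ℝ) ≤ r} ≤ F.card := by
  rw [← Set.ncard_coe_finset]
  exact Set.ncard_le_ncard (fun j hj => h j hj.1 hj.2.1 hj.2.2) (Finset.finite_toSet F)

lemma le_cnt (A : Set ℕ) (r : ℝ) (F : Finset ℕ)
    (h : ∀ j ∈ F, j ∈ A ∧ 1 ≤ j ∧ (j : ℝ) ≤ r) :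
    F.card ≤ Set.ncard {j : ℕ | j ∈ A ∧ 1 ≤ j ∧ (j : ℝ) ≤ r} := by
  rw [← Set.ncard_coe_finset]
  exact Set.ncard_le_ncard (fun j hj => h j hj) (cnt_finite A r)

/-- criterion for density zero along a sequence of scales -/
lemma lowerDensity_eq_zero {lam : ℝ} (h0 : 0 < lam) (hl : lam ≤ 1) (A : Set ℕ) (N : ℕ → ℕ)
    (K : ℕ → ℝ) (hN : Tendsto N atTop atTop)
    (hK : ∀ᶠ i in atTop, ∃ F : Finset ℕ, (∀ j ∈ A, 1 ≤ j → j ≤ N i → j ∈ F) ∧ (F.card : ℝ) ≤ K i)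
    (hlim : Tendsto (fun i => K i / (N i : ℝ) ^ lam) atTop (𝓝 0)) :
    lowerDensity (1 / lam) A = 0 := by
  have hNr : Tendsto (fun i => (N i : ℝ)) atTop atTop := tendsto_natCast_atTop_atTop.comp hN
  have hNl : Tendsto (fun i => (N i : ℝ) ^ lam) atTop atTop :=
    (tendsto_rpow_atTop h0).comp hNr
  have hn : Tendsto (fun i => ⌊(N i : ℝ) ^ lam⌋₊) atTop atTop :=
    tendsto_nat_floor_atTop.comp hNl
  refine le_antisymm ?_ bot_le
  refine le_of_forall_pos_le_add (fun ε hε => ?_) 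
  rw [zero_add]
  -- reduce to a real ε
  obtain ⟨e, he0, heε⟩ : ∃ e : ℝ, 0 < e ∧ ENNReal.ofReal e ≤ ε := by
    by_cases ht : ε = ⊤
    · exact ⟨1, one_pos, by rw [ht]; exact le_top⟩
    · exact ⟨ε.toReal, ENNReal.toReal_pos hε.ne' ht, by rw [ENNReal.ofReal_toReal ht]⟩
  refine le_trans ?_ heε
  unfold lowerDensity
  refine Filter.liminf_le_of_frequently_le ?_ (by isBoundedDefault)
  have hev : ∀ᶠ i in atTop, ((Set.ncard {j : ℕ | j ∈ A ∧ 1 ≤ j ∧
      (j : ℝ) ≤ ((⌊(N i : ℝ) ^ lam⌋₊ : ℕ) : ℝ) ^ (1 / lam)} : ℕ) : ℝ≥0∞) /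
      ((⌊(N i : ℝ) ^ lam⌋₊ : ℕ) : ℝ≥0∞) ≤ ENNReal.ofReal e := by
    filter_upwards [hK, hlim.eventually_lt_const (show (0 : ℝ) < e / 2 by positivity),
      hNl.eventually_ge_atTop 2] with i hi h2 h3
    obtain ⟨F, hF, hFK⟩ := hi
    have hNpos : (0 : ℝ) < (N i : ℝ) ^ lam := by linarith
    set n : ℕ := ⌊(N i : ℝ) ^ lam⌋₊ with hndef
    have hn1 : (n : ℝ) ≤ (N i : ℝ) ^ lam := Nat.floor_le hNpos.le
    have hn2 : (N i : ℝ) ^ lam / 2 ≤ n := by
      have := Nat.lt_floor_add_one ((N i : ℝ) ^ lam)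
      rw [← hndef] at this
      linarith
    have hnpos : (0 : ℝ) < n := by linarith
    have hroot : (n : ℝ) ^ (1 / lam) ≤ N i := by
      calc (n : ℝ) ^ (1 / lam) ≤ ((N i : ℝ) ^ lam) ^ (1 / lam) :=
            Real.rpow_le_rpow hnpos.le hn1 (by positivity)
        _ = N i := by
            rw [← Real.rpow_mul (Nat.cast_nonneg _), mul_one_div_cancel h0.ne', Real.rpow_one]
    have hcard := cnt_le A ((n : ℝ) ^ (1 / lam)) F (fun j h1 h2 h3 => hF j h1 h2 (by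
      exact_mod_cast h3.trans hroot))
    have hreal : ((Set.ncard {j : ℕ | j ∈ A ∧ 1 ≤ j ∧ (j : ℝ) ≤ (n : ℝ) ^ (1 / lam)} : ℕ) : ℝ)
        / n ≤ e := by
      have h4 : ((Set.ncard {j : ℕ | j ∈ A ∧ 1 ≤ j ∧ (j : ℝ) ≤ (n : ℝ) ^ (1 / lam)} : ℕ) : ℝ)
          ≤ K i := le_trans (by exact_mod_cast hcard) hFK
      rw [div_lt_iff₀ hNpos] at h2
      rw [div_le_iff₀ hnpos]
      nlinarith
    have hconv : ((Set.ncard {j : ℕ | j ∈ A ∧ 1 ≤ j ∧ (j : ℝ) ≤ (n : ℝ) ^ (1 / lam)} : ℕ) : ℝ≥0∞)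
        / (n : ℝ≥0∞) = ENNReal.ofReal (((Set.ncard {j : ℕ | j ∈ A ∧ 1 ≤ j ∧
          (j : ℝ) ≤ (n : ℝ) ^ (1 / lam)} : ℕ) : ℝ) / n) := by
      rw [ENNReal.ofReal_div_of_pos hnpos, ENNReal.ofReal_natCast, ENNReal.ofReal_natCast]
    rw [hconv]
    exact ENNReal.ofReal_le_ofReal hreal
  exact hn.frequently hev.frequently

/-- criterion for positive density -/
lemma lowerDensity_ne_zero {lam : ℝ} (h0 : 0 < lam) (hl : lam ≤ 1) (A : Set ℕ) (C : ℝ)
    (hA : ∀ᶠ N : ℕ in atTop, ∃ F : Finset ℕ, (∀ j ∈ F, j ∈ A ∧ 1 ≤ j ∧ j ≤ N) ∧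
      (N : ℝ) ^ lam / 2 - C ≤ F.card) :
    lowerDensity (1 / lam) A ≠ 0 := by
  have h1l : 1 ≤ 1 / lam := by
    rw [le_div_iff₀ h0]; linarith
  have hroot : Tendsto (fun n : ℕ => (n : ℝ) ^ (1 / lam)) atTop atTop :=
    (tendsto_rpow_atTop (by positivity)).comp tendsto_natCast_atTop_atTop
  have hfl : Tendsto (fun n : ℕ => ⌊(n : ℝ) ^ (1 / lam)⌋₊) atTop atTop :=
    tendsto_nat_floor_atTop.comp hroot
  have hge : ENNReal.ofReal (1 / 8) ≤ lowerDensity (1 / lam) A := by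
    unfold lowerDensity
    refine Filter.le_liminf_of_le (by isBoundedDefault) ?_
    have hbig : ∀ᶠ n : ℕ in atTop, 8 * C ≤ (n : ℝ) :=
      tendsto_natCast_atTop_atTop.eventually_ge_atTop _
    filter_upwards [hfl.eventually hA, hroot.eventually_ge_atTop 2, hbig,
      eventually_ge_atTop 1] with n hn h2 h3 h4
    obtain ⟨F, hF, hFK⟩ := hn
    set N : ℕ := ⌊(n : ℝ) ^ (1 / lam)⌋₊ with hN
    have hnpos : (0 : ℝ) < n := by exact_mod_cast h4
    have hN1 : (N : ℝ) ≤ (n : ℝ) ^ (1 / lam) := Nat.floor_le (by positivity)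
    have hN2 : (n : ℝ) ^ (1 / lam) / 2 ≤ N := by
      have := Nat.lt_floor_add_one ((n : ℝ) ^ (1 / lam))
      rw [← hN] at this
      linarith
    have hNl : (n : ℝ) / 2 ≤ (N : ℝ) ^ lam := by
      have e1 : ((n : ℝ) ^ (1 / lam) / 2) ^ lam ≤ (N : ℝ) ^ lam :=
        Real.rpow_le_rpow (by positivity) hN2 h0.le
      rw [Real.div_rpow (by positivity) (by norm_num), ← Real.rpow_mul hnpos.le,
        one_div_mul_cancel h0.ne', Real.rpow_one] at e1
      refine le_trans ?_ e1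
      apply div_le_div_of_nonneg_left hnpos.le (by positivity)
      calc (2 : ℝ) ^ lam ≤ (2 : ℝ) ^ (1 : ℝ) :=
            Real.rpow_le_rpow_of_exponent_le (by norm_num) hl
        _ = 2 := Real.rpow_one 2
    have hcard := le_cnt A ((n : ℝ) ^ (1 / lam)) F (fun j hj => ⟨(hF j hj).1, (hF j hj).2.1, by
      have : (j : ℝ) ≤ N := by exact_mod_cast (hF j hj).2.2
      exact this.trans hN1⟩)
    have hcard' : (F.card : ℝ) ≤ ((Set.ncard {j : ℕ | j ∈ A ∧ 1 ≤ j ∧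
        (j : ℝ) ≤ (n : ℝ) ^ (1 / lam)} : ℕ) : ℝ) := by exact_mod_cast hcard
    have hconv : ((Set.ncard {j : ℕ | j ∈ A ∧ 1 ≤ j ∧ (j : ℝ) ≤ (n : ℝ) ^ (1 / lam)} : ℕ) : ℝ≥0∞)
        / (n : ℝ≥0∞) = ENNReal.ofReal (((Set.ncard {j : ℕ | j ∈ A ∧ 1 ≤ j ∧
          (j : ℝ) ≤ (n : ℝ) ^ (1 / lam)} : ℕ) : ℝ) / n) := by
      rw [ENNReal.ofReal_div_of_pos hnpos, ENNReal.ofReal_natCast, ENNReal.ofReal_natCast]
    rw [hconv]
    apply ENNReal.ofReal_le_ofReal
    rw [le_div_iff₀ hnpos]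
    linarith
  intro h
  rw [h] at hge
  have : (0 : ℝ≥0∞) < ENNReal.ofReal (1 / 8) := by
    rw [ENNReal.ofReal_pos]; norm_num
  exact absurd hge (not_le.2 this)

variable {lam : ℝ}

namespace Par

variable (P : Par lam)

/-- many `j ≤ N` have `L j ≤ 1` -/
lemma count_G {th : ℝ} (h0 : 0 < th) (h1 : th < lam) (hl : lam ≤ 1) :
    ∀ᶠ N : ℕ in atTop, ∃ F : Finset ℕ, (∀ j ∈ F, P.L j ≤ 1 ∧ 1 ≤ j ∧ j ≤ N) ∧
      (N : ℝ) ^ th / 2 - 1 ≤ F.card := by
  -- threshold index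
  have hinv : Tendsto (fun n : ℕ => 1 / ((n : ℝ) + 1)) atTop (𝓝 0) :=
    tendsto_one_div_add_atTop_nhds_zero_nat
  obtain ⟨n0, hn0⟩ := eventually_atTop.1
    (hinv.eventually_lt_const (show (0 : ℝ) < lam - th by linarith))
  have hM : ∀ n, n0 ≤ n → ((2 : ℝ) ^ P.a (n + 1)) ^ th ≤ 2 ^ P.m n := by
    intro n hn
    have h2 := (P.step n).h2
    have h3 := hn0 n hn
    have h4 : th * P.a (n + 1) ≤ P.m n := by
      refine le_trans (mul_le_mul_of_nonneg_right ?_ (Nat.cast_nonneg _)) h2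
      linarith
    rw [← Real.rpow_natCast, ← Real.rpow_mul (by norm_num), ← Real.rpow_natCast]
    apply Real.rpow_le_rpow_of_exponent_le (by norm_num)
    linarith
  have hatop : Tendsto (fun n => 2 ^ P.a n) atTop atTop :=
    (tendsto_pow_atTop_atTop_of_one_lt (by norm_num : 1 < 2)).comp P.a_mono.tendsto_atTop
  filter_upwards [eventually_ge_atTop (2 ^ P.a (n0 + 1))] with N hN
  -- find n with z_{n+1} ≤ N < z_{n+2}
  have hex : ∃ n, n0 ≤ n ∧ 2 ^ P.a (n + 1) ≤ N ∧ N ≤ 2 ^ P.a (n + 2) := by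
    have hE : ∃ k, N < 2 ^ P.a k := (hatop.eventually_gt_atTop N).exists
    classical
    set k := Nat.find hE with hk
    have hk1 : N < 2 ^ P.a k := Nat.find_spec hE
    have hk2 : n0 + 1 < k := by
      by_contra hc
      push Not at hc
      have : 2 ^ P.a k ≤ 2 ^ P.a (n0 + 1) :=
        Nat.pow_le_pow_right (by norm_num) (P.a_mono.monotone hc)
      omega
    obtain ⟨n, hn⟩ : ∃ n, k = n + 2 := ⟨k - 2, by omega⟩
    rw [hn] at hk1
    refine ⟨n, by omega, ?_, hk1.le⟩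
    have := Nat.find_min hE (m := n + 1) (by omega)
    exact not_lt.1 this
  obtain ⟨n, hn, hN1, hN2⟩ := hex
  have hz1 : 0 < 2 ^ P.a (n + 1) := by positivity
  have hN1r : (2 : ℝ) ^ P.a (n + 1) ≤ N := by exact_mod_cast hN1
  have hz1r : (0 : ℝ) < (2 : ℝ) ^ P.a (n + 1) := by positivity
  have hNr : (0 : ℝ) < N := lt_of_lt_of_le hz1r hN1r
  by_cases hcase : N ≤ 2 ^ (P.m (n + 1) + P.a (n + 1))
  · -- case 1
    set D : ℕ := N / 2 ^ P.a (n + 1) with hD
    have hD1 : 1 ≤ D := Nat.div_pos hN1 hz1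
    have hDm : D ≤ 2 ^ P.m (n + 1) := by
      rw [pow_add] at hcase
      exact Nat.div_le_of_le_mul (by rw [mul_comm]; exact hcase)
    have hDN : D * 2 ^ P.a (n + 1) ≤ N := Nat.div_mul_le_self _ _
    let f : ℕ × ℕ → ℕ := fun p => p.1 * 2 ^ P.a (n + 1) + p.2 * 2 ^ P.a n
    let F0 : Finset ℕ := (Finset.range D ×ˢ Finset.range (2 ^ P.m n)).image f
    have hsmall : ∀ d', d' < 2 ^ P.m n → d' * 2 ^ P.a n < 2 ^ P.a (n + 1) := by
      intro d' hd'
      calc d' * 2 ^ P.a n < 2 ^ P.m n * 2 ^ P.a n := by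
            exact Nat.mul_lt_mul_of_pos_right hd' (by positivity)
        _ = 2 ^ (P.m n + P.a n) := (pow_add _ _ _).symm
        _ ≤ 2 ^ P.a (n + 1) := Nat.pow_le_pow_right (by norm_num) (P.step n).h5
    have hinj : Set.InjOn f ↑(Finset.range D ×ˢ Finset.range (2 ^ P.m n)) := by
      rintro ⟨d1, e1⟩ h1 ⟨d2, e2⟩ h2 heq
      simp only [Finset.coe_product, Finset.coe_range, Set.mem_prod, Set.mem_Iio] at h1 h2
      have heq' : d1 * 2 ^ P.a (n + 1) + e1 * 2 ^ P.a n =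
        d2 * 2 ^ P.a (n + 1) + e2 * 2 ^ P.a n := heq
      have a1 := hsmall e1 h1.2
      have a2 := hsmall e2 h2.2
      have hdd : d1 = d2 := by
        have b1 : (d1 * 2 ^ P.a (n + 1) + e1 * 2 ^ P.a n) / 2 ^ P.a (n + 1) = d1 := by
          rw [add_comm, Nat.add_mul_div_right _ _ hz1, Nat.div_eq_of_lt a1, zero_add]
        have b2 : (d2 * 2 ^ P.a (n + 1) + e2 * 2 ^ P.a n) / 2 ^ P.a (n + 1) = d2 := by
          rw [add_comm, Nat.add_mul_div_right _ _ hz1, Nat.div_eq_of_lt a2, zero_add]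
        rw [← b1, ← b2, heq']
      subst hdd
      have hee : e1 * 2 ^ P.a n = e2 * 2 ^ P.a n := by omega
      have : e1 = e2 := Nat.eq_of_mul_eq_mul_right (by positivity) hee
      rw [this]
    have hcard : F0.card = D * 2 ^ P.m n := by
      rw [Finset.card_image_of_injOn hinj, Finset.card_product, Finset.card_range,
        Finset.card_range]
    refine ⟨F0.erase 0, ?_, ?_⟩
    · intro j hj
      rw [Finset.mem_erase] at hj
      obtain ⟨hj0, hj⟩ := hj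
      obtain ⟨⟨d, d'⟩, hp, rfl⟩ := Finset.mem_image.1 hj
      rw [Finset.mem_product, Finset.mem_range, Finset.mem_range] at hp
      refine ⟨P.L_le_one_digits (hp.1.le.trans hDm) hp.2.le, Nat.pos_of_ne_zero hj0, ?_⟩
      have a1 := hsmall d' hp.2
      have a2 : (d + 1) * 2 ^ P.a (n + 1) ≤ D * 2 ^ P.a (n + 1) :=
        Nat.mul_le_mul_right _ hp.1
      show d * 2 ^ P.a (n + 1) + d' * 2 ^ P.a n ≤ N
      rw [add_mul, one_mul] at a2
      omega
    · have h5 : F0.card - 1 ≤ (F0.erase 0).card := Finset.pred_card_le_card_erase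
      have h6 : (F0.card : ℝ) - 1 ≤ (F0.erase 0).card := by
        have : (F0.card : ℝ) ≤ (F0.erase 0).card + 1 := by
          have h7 : F0.card ≤ (F0.erase 0).card + 1 := by omega
          exact_mod_cast h7
        linarith
      refine le_trans ?_ h6
      rw [hcard]
      have h8 : (N : ℝ) / (2 * 2 ^ P.a (n + 1)) ≤ D := by
        rw [div_le_iff₀ (by positivity)]
        have h9 : N < (D + 1) * 2 ^ P.a (n + 1) := by
          rw [hD]
          have := Nat.lt_mul_of_div_lt (Nat.lt_succ_self (N / 2 ^ P.a (n + 1))) hz1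
          exact this
        have h10 : (D + 1) * 2 ^ P.a (n + 1) ≤ (2 * D) * 2 ^ P.a (n + 1) :=
          Nat.mul_le_mul_right _ (by omega)
        have h11 : (N : ℝ) ≤ ((2 * D) * 2 ^ P.a (n + 1) : ℕ) := by
          exact_mod_cast (h9.le.trans h10)
        push_cast at h11
        linarith
      have h12 := hM n hn
      push_cast
      have h13 : (N : ℝ) ^ th / 2 ≤ D * 2 ^ P.m n := by
        calc (N : ℝ) ^ th / 2 = N * (N : ℝ) ^ (th - 1) / 2 := by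
              rw [Real.rpow_sub_one hNr.ne']
              field_simp
          _ ≤ N * ((2 : ℝ) ^ P.a (n + 1)) ^ (th - 1) / 2 := by
              have h14 : (N : ℝ) ^ (th - 1) ≤ ((2 : ℝ) ^ P.a (n + 1)) ^ (th - 1) :=
                Real.rpow_le_rpow_of_nonpos hz1r hN1r (by linarith)
              have := mul_le_mul_of_nonneg_left h14 hNr.le
              linarith
          _ = (N : ℝ) / (2 * 2 ^ P.a (n + 1)) * ((2 : ℝ) ^ P.a (n + 1)) ^ th := by
              rw [Real.rpow_sub_one hz1r.ne']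
              field_simp
          _ ≤ D * 2 ^ P.m n := mul_le_mul h8 h12 (by positivity) (by positivity)
      linarith
  · -- case 2
    push Not at hcase
    let F0 : Finset ℕ := (Finset.Icc 1 (2 ^ P.m (n + 1))).image (fun d => d * 2 ^ P.a (n + 1))
    have hcard : F0.card = 2 ^ P.m (n + 1) := by
      rw [Finset.card_image_of_injective _ (fun x y hxy =>
        Nat.eq_of_mul_eq_mul_right hz1 hxy), Nat.card_Icc, Nat.add_sub_cancel]
    refine ⟨F0, ?_, ?_⟩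
    · intro j hj
      obtain ⟨d, hd, rfl⟩ := Finset.mem_image.1 hj
      rw [Finset.mem_Icc] at hd
      refine ⟨?_, ?_, ?_⟩
      · have := P.L_le_one_digits (n := n) (d := d) (d' := 0) hd.2 (by positivity)
        simpa using this
      · exact Nat.mul_pos hd.1 hz1
      · calc d * 2 ^ P.a (n + 1) ≤ 2 ^ P.m (n + 1) * 2 ^ P.a (n + 1) :=
              Nat.mul_le_mul_right _ hd.2
          _ = 2 ^ (P.m (n + 1) + P.a (n + 1)) := (pow_add _ _ _).symm
          _ ≤ N := hcase.le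
    · rw [hcard]
      have h12 := hM (n + 1) (by omega)
      have h13 : (N : ℝ) ^ th ≤ ((2 : ℝ) ^ P.a (n + 2)) ^ th :=
        Real.rpow_le_rpow hNr.le (by exact_mod_cast hN2) h0.le
      have h14 : (0 : ℝ) ≤ (N : ℝ) ^ th := by positivity
      push_cast
      have h15 : (N : ℝ) ^ th ≤ 2 ^ P.m (n + 1) := h13.trans h12
      linarith

end Par

end Pool.Agent.R343.WShift
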