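import Pool.Agent.R343.WShift2

set_option autoImplicit false

namespace Pool.Agent.R343.WShift

open Filter Topology
open scoped ENNReal

section defs

variable {X : Type*} [NormedAddCommGroup X]

/-- `S` is a `lam`-scrambled set of `T` with constant `σ`. -/
def IsScrambled (lam : ℝ) (T : X → X) (σ : ℝ) (S : Set X) : Prop :=
  ∀ x ∈ S, ∀ y ∈ S, x ≠ y →
    lowerDensity (1 / lam) {j : ℕ | ‖T^[j] x - T^[j] y‖ < σ} = 0 ∧
    ∀ ε : ℝ, 0 < ε → lowerDensity (1 / lam) {j : ℕ | ε < ‖T^[j] x - T^[j] y‖} = 0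

/-- `lam`-distributional chaos -/
def DistChaotic (lam : ℝ) (T : X → X) : Prop :=
  ∃ S : Set X, ¬ S.Countable ∧ ∃ σ : ℝ, 0 < σ ∧ IsScrambled lam T σ S

/-- dense `lam`-distributional chaos -/
def DenselyDistChaotic (lam : ℝ) (T : X → X) : Prop :=
  ∃ S : Set X, ¬ S.Countable ∧ Dense S ∧ ∃ σ : ℝ, 0 < σ ∧ IsScrambled lam T σ S

end defs

/-- an abstract Banach sequence space with the properties used in the proof -/
structure SeqSp (𝕜 X : Type*) [RCLike 𝕜] [NormedAddCommGroup X] [NormedSpace 𝕜 X] where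
  c : ℕ → X →ₗ[𝕜] 𝕜
  norm_c_le : ∀ k x, ‖c k x‖ ≤ ‖x‖
  ext : ∀ x, (∀ k, c k x = 0) → x = 0
  e : ℕ → X
  c_e : ∀ k j, c k (e j) = if k = j then 1 else 0
  norm_e : ∀ j, ‖e j‖ ≤ 1
  dense : Dense ((Submodule.span 𝕜 (Set.range e) : Submodule 𝕜 X) : Set X)
  lat : ∀ (x y : X) (j : ℕ) (M : ℝ), 0 ≤ M → (∀ k, ‖c k y‖ ≤ M * ‖c (k + j) x‖) → ‖y‖ ≤ M * ‖x‖

variable {𝕜 X : Type*} [RCLike 𝕜] [NormedAddCommGroup X] [NormedSpace 𝕜 X]

namespace SeqSp

variable (Sp : SeqSp 𝕜 X)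

/-- coordinates as continuous functionals -/
noncomputable def cc (k : ℕ) : X →L[𝕜] 𝕜 :=
  (Sp.c k).mkContinuous 1 (fun x => by rw [one_mul]; exact Sp.norm_c_le k x)

lemma cc_apply (k : ℕ) (x : X) : Sp.cc k x = Sp.c k x := rfl

lemma fin_supp {v : X} (hv : v ∈ Submodule.span 𝕜 (Set.range Sp.e)) :
    ∃ J, ∀ k, J ≤ k → Sp.c k v = 0 := by
  induction hv using Submodule.span_induction with
  | mem x hx =>
    obtain ⟨j, rfl⟩ := hx
    exact ⟨j + 1, fun k hk => by rw [Sp.c_e, if_neg (by omega)]⟩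
  | zero => exact ⟨0, fun k _ => map_zero _⟩
  | add x y _ _ hx hy =>
    obtain ⟨J1, h1⟩ := hx
    obtain ⟨J2, h2⟩ := hy
    exact ⟨max J1 J2, fun k hk => by
      rw [map_add, h1 k (le_trans (le_max_left _ _) hk), h2 k (le_trans (le_max_right _ _) hk),
        add_zero]⟩
  | smul a x _ hx =>
    obtain ⟨J1, h1⟩ := hx
    exact ⟨J1, fun k hk => by rw [map_smul, h1 k hk, smul_zero]⟩

lemma summable_smul [CompleteSpace X] {a : ℕ → 𝕜} (ha : Summable (fun k => ‖a k‖)) :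
    Summable (fun k => a k • Sp.e k) := by
  apply Summable.of_norm
  refine Summable.of_nonneg_of_le (fun k => norm_nonneg _) (fun k => ?_) ha
  rw [norm_smul]
  exact mul_le_of_le_one_right (norm_nonneg _) (Sp.norm_e k)

lemma c_tsum [CompleteSpace X] {a : ℕ → 𝕜} (ha : Summable (fun k => ‖a k‖)) (k : ℕ) :
    Sp.c k (∑' i, a i • Sp.e i) = a k := by
  rw [← Sp.cc_apply, (Sp.cc k).map_tsum (Sp.summable_smul ha)]
  rw [tsum_eq_single k]
  · rw [map_smul, Sp.cc_apply, Sp.c_e, if_pos rfl, smul_eq_mul, mul_one]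
  · intro i hi
    rw [map_smul, Sp.cc_apply, Sp.c_e, if_neg (Ne.symm hi), smul_zero]

lemma norm_le_tsum [CompleteSpace X] (y : X) (h : Summable (fun k => ‖Sp.c k y‖)) :
    ‖y‖ ≤ ∑' k, ‖Sp.c k y‖ := by
  have hy : y = ∑' i, Sp.c i y • Sp.e i := by
    rw [← sub_eq_zero]
    apply Sp.ext
    intro k
    rw [map_sub, Sp.c_tsum h, sub_self]
  have h2 : ‖∑' i, Sp.c i y • Sp.e i‖ ≤ ∑' i, ‖Sp.c i y • Sp.e i‖ := by
    apply norm_tsum_le_tsum_norm
    refine Summable.of_nonneg_of_le (fun k => norm_nonneg _) (fun k => ?_) h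
    rw [norm_smul]
    exact mul_le_of_le_one_right (norm_nonneg _) (Sp.norm_e k)
  calc ‖y‖ = ‖∑' i, Sp.c i y • Sp.e i‖ := by rw [← hy]
    _ ≤ ∑' i, ‖Sp.c i y • Sp.e i‖ := h2
    _ ≤ ∑' k, ‖Sp.c k y‖ := by
        refine Summable.tsum_le_tsum (fun k => ?_) ?_ h
        · rw [norm_smul]
          exact mul_le_of_le_one_right (norm_nonneg _) (Sp.norm_e k)
        · refine Summable.of_nonneg_of_le (fun k => norm_nonneg _) (fun k => ?_) h
          rw [norm_smul]
          exact mul_le_of_le_one_right (norm_nonneg _) (Sp.norm_e k)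

end SeqSp

lemma iter_map_sub (T : X →L[𝕜] X) (j : ℕ) (x y : X) : T^[j] x - T^[j] y = T^[j] (x - y) := by
  induction j generalizing x y with
  | zero => rfl
  | succ j ih =>
    rw [Function.iterate_succ_apply, Function.iterate_succ_apply, Function.iterate_succ_apply,
      ih, map_sub]

lemma iter_map_add (T : X →L[𝕜] X) (j : ℕ) (x y : X) : T^[j] (x + y) = T^[j] x + T^[j] y := by
  induction j generalizing x y with
  | zero => rfl
  | succ j ih =>
    rw [Function.iterate_succ_apply, Function.iterate_succ_apply, Function.iterate_succ_apply,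
      map_add, ih]

lemma iter_map_smul (T : X →L[𝕜] X) (j : ℕ) (a : 𝕜) (x : X) : T^[j] (a • x) = a • T^[j] x := by
  induction j generalizing x with
  | zero => rfl
  | succ j ih =>
    rw [Function.iterate_succ_apply, Function.iterate_succ_apply, map_smul, ih]

section main

variable {lam : ℝ} (P : Par lam) (Sp : SeqSp 𝕜 X) (T : X →L[𝕜] X)
  (hT : ∀ x k, Sp.c k (T x) = ((Real.exp (P.L (k + 1) - P.L k) : ℝ) : 𝕜) * Sp.c (k + 1) x)

include hT

lemma c_iter (j : ℕ) : ∀ (x : X) (k : ℕ), Sp.c k (T^[j] x) =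
    ((Real.exp (P.L (k + j) - P.L k) : ℝ) : 𝕜) * Sp.c (k + j) x := by
  induction j with
  | zero => intro x k; simp
  | succ j ih =>
    intro x k
    rw [Function.iterate_succ_apply, ih, hT, ← mul_assoc, ← RCLike.ofReal_mul, ← Real.exp_add]
    have h : P.L (k + j) - P.L k + (P.L (k + j + 1) - P.L (k + j)) =
      P.L (k + j + 1) - P.L k := by ring
    rw [h]
    rfl

lemma norm_iter_le (j : ℕ) (x : X) : ‖T^[j] x‖ ≤ Real.exp (P.L j) * ‖x‖ := by
  refine Sp.lat x _ j _ (Real.exp_nonneg _) (fun k => ?_)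
  rw [c_iter P Sp T hT, norm_mul, RCLike.norm_ofReal, abs_of_pos (Real.exp_pos _)]
  refine mul_le_mul_of_nonneg_right (Real.exp_le_exp.2 ?_) (norm_nonneg _)
  have := P.L_add_le k j
  linarith

lemma iter_fin {v : X} (hv : v ∈ Submodule.span 𝕜 (Set.range Sp.e)) :
    ∃ J, ∀ j, J ≤ j → T^[j] v = 0 := by
  obtain ⟨J, hJ⟩ := Sp.fin_supp hv
  refine ⟨J, fun j hj => Sp.ext _ fun k => ?_⟩
  rw [c_iter P Sp T hT, hJ _ (by omega), mul_zero]

lemma small_on_G (u : X) {σ : ℝ} (hσ : 0 < σ) :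
    ∃ J, ∀ j, J ≤ j → P.L j ≤ 1 → ‖T^[j] u‖ < σ := by
  have he := Real.exp_pos 1
  obtain ⟨v, hv, hd⟩ := Metric.dense_iff.1 Sp.dense u (σ / Real.exp 1) (by positivity)
  obtain ⟨J, hJ⟩ := iter_fin P Sp T hT hd
  refine ⟨J, fun j hj hL => ?_⟩
  have h1 : T^[j] u = T^[j] (u - v) := by
    rw [← iter_map_sub T, hJ j hj, sub_zero]
  rw [h1]
  have h2 := norm_iter_le P Sp T hT j (u - v)
  have h3 : ‖u - v‖ < σ / Real.exp 1 := by
    rw [Metric.mem_ball, dist_comm, dist_eq_norm] at hv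
    exact hv
  have h4 : Real.exp (P.L j) ≤ Real.exp 1 := Real.exp_le_exp.2 hL
  calc ‖T^[j] (u - v)‖ ≤ Real.exp (P.L j) * ‖u - v‖ := h2
    _ ≤ Real.exp 1 * ‖u - v‖ := mul_le_mul_of_nonneg_right h4 (norm_nonneg _)
    _ < Real.exp 1 * (σ / Real.exp 1) := mul_lt_mul_of_pos_left h3 he
    _ = σ := by field_simp

/-- **(A)** no `th`-distributional chaos for `th < lam` -/
theorem not_distChaotic {th : ℝ} (h0 : 0 < th) (h1 : th < lam) (hl : lam ≤ 1) :
    ¬ DistChaotic th (T : X → X) := by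
  rintro ⟨S, hS, σ, hσ, hscr⟩
  have hnt : ∃ x ∈ S, ∃ y ∈ S, x ≠ y := by
    by_contra hc
    push Not at hc
    exact hS (Set.Subsingleton.countable (fun x hx y hy => hc x hx y hy))
  obtain ⟨x, hx, y, hy, hxy⟩ := hnt
  have hz := (hscr x hx y hy hxy).1
  obtain ⟨J, hJ⟩ := small_on_G P Sp T hT (x - y) hσ
  refine lowerDensity_ne_zero h0 (by linarith) {j : ℕ | ‖T^[j] x - T^[j] y‖ < σ} (1 + J) ?_ hz
  filter_upwards [P.count_G h0 h1 hl] with N hN
  obtain ⟨F, hF, hc⟩ := hN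
  refine ⟨F.filter (fun j => J ≤ j), ?_, ?_⟩
  · intro j hj
    rw [Finset.mem_filter] at hj
    obtain ⟨hL, h1j, h2j⟩ := hF j hj.1
    refine ⟨?_, h1j, h2j⟩
    show ‖T^[j] x - T^[j] y‖ < σ
    rw [iter_map_sub T]
    exact hJ j hj.2 hL
  · have h5 : F.card ≤ (F.filter (fun j => J ≤ j)).card + J := by
      have h6 : F ⊆ F.filter (fun j => J ≤ j) ∪ Finset.range J := by
        intro j hj
        rw [Finset.mem_union, Finset.mem_filter, Finset.mem_range]
        by_cases h : J ≤ j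
        · exact Or.inl ⟨hj, h⟩
        · exact Or.inr (by omega)
      calc F.card ≤ (F.filter (fun j => J ≤ j) ∪ Finset.range J).card := Finset.card_le_card h6
        _ ≤ (F.filter (fun j => J ≤ j)).card + (Finset.range J).card := Finset.card_union_le _ _
        _ = _ := by rw [Finset.card_range]
    have h6 : (F.card : ℝ) ≤ (F.filter (fun j => J ≤ j)).card + J := by exact_mod_cast h5
    linarith

end main

end Pool.Agent.R343.WShift
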