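import Pool.Agent.R343.WShift3

set_option autoImplicit false

namespace Pool.Agent.R343.WShift

open Filter Topology
open scoped ENNReal

namespace Par

variable {lam : ℝ} (P : Par lam)

open Classical in
/-- the coordinates of the special vector -/
noncomputable def xs (k : ℕ) : ℝ := if k ∈ P.S then k * Real.exp (-P.L k) else 0

lemma xs_nonneg (k : ℕ) : 0 ≤ P.xs k := by
  unfold xs
  split_ifs
  · positivity
  · exact le_rfl

lemma pos_of_mem_S {k : ℕ} (hk : k ∈ P.S) : 1 ≤ k := by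
  obtain ⟨n, h1, _⟩ := hk
  exact (Nat.one_le_two_pow).trans ((P.pow_lt_W n).le.trans h1)

lemma exp_neg_L_le {k : ℕ} (hk : k ∈ P.S) : Real.exp (-P.L k) ≤ 1 / (k : ℝ) ^ 6 := by
  have h1 := P.log_le_L hk
  have hk1 : (0 : ℝ) < k := by exact_mod_cast P.pos_of_mem_S hk
  rw [Real.exp_neg, one_div]
  apply inv_anti₀ (by positivity)
  calc (k : ℝ) ^ 6 = Real.exp (6 * Real.log k) := by
        rw [mul_comm, Real.exp_mul, Real.exp_log hk1]
        norm_cast
    _ ≤ Real.exp (P.L k) := Real.exp_le_exp.2 h1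

lemma xs_le (k : ℕ) : P.xs k ≤ 1 / ((k : ℝ) + 1) ^ 2 := by
  unfold xs
  split_ifs with h
  · have h1 := P.exp_neg_L_le h
    have hk1 : (1 : ℝ) ≤ k := by exact_mod_cast P.pos_of_mem_S h
    have hk0 : (0 : ℝ) < k := by linarith
    calc (k : ℝ) * Real.exp (-P.L k) ≤ k * (1 / (k : ℝ) ^ 6) :=
          mul_le_mul_of_nonneg_left h1 hk0.le
      _ = 1 / (k : ℝ) ^ 5 := by field_simp
      _ ≤ 1 / ((k : ℝ) + 1) ^ 2 := by
          apply one_div_le_one_div_of_le (by positivity)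
          by_cases h2 : k = 1
          · exfalso
            -- k ≥ W ≥ 6
            obtain ⟨n, h3, _⟩ := h
            have h4 := P.pow_lt_W n
            have h5 : 1 ≤ 2 ^ (P.m n + P.a n) := Nat.one_le_two_pow
            omega
          · have h3 : 2 ≤ k := by
              have := P.pos_of_mem_S h
              omega
            have h4 : (2 : ℝ) ≤ k := by exact_mod_cast h3
            have h5 : (k : ℝ) + 1 ≤ k ^ 2 := by nlinarith
            have h6 : ((k : ℝ) + 1) ^ 2 ≤ (k ^ 2) ^ 2 :=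
              pow_le_pow_left₀ (by positivity) h5 2
            have h7 : ((k : ℝ) ^ 2) ^ 2 ≤ k ^ 5 := by
              rw [← pow_mul]
              exact pow_le_pow_right₀ hk1 (by norm_num)
            linarith
  · positivity

lemma summable_sq : Summable (fun k : ℕ => 1 / ((k : ℝ) + 1) ^ 2) := by
  have h := (Real.summable_one_div_nat_pow (p := 2)).2 (by norm_num)
  have h2 := (summable_nat_add_iff 1).2 h
  refine h2.congr (fun k => ?_)
  push_cast
  rfl

lemma summable_xs : Summable P.xs :=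
  Summable.of_nonneg_of_le P.xs_nonneg P.xs_le summable_sq

lemma W_bound (n : ℕ) : ((n : ℝ) + 1) * P.W n ≤ (((2 ^ P.a (n + 1) : ℕ)) : ℝ) ^ lam := by
  have h := (P.step n).h1
  have e : (((2 ^ P.a (n + 1) : ℕ)) : ℝ) ^ lam = (2 : ℝ) ^ (lam * P.a (n + 1)) := by
    push_cast
    rw [← Real.rpow_natCast, ← Real.rpow_mul (by norm_num), mul_comm]
  rw [e]
  unfold W
  push_cast
  exact h

lemma z_bound (h0 : 0 < lam) (n : ℕ) :
    ((n : ℝ) + 1) * 2 ^ P.a n ≤ (((2 ^ (P.m n + P.a n) : ℕ)) : ℝ) ^ lam := by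
  have h := (P.step n).h3
  refine h.trans ?_
  have e : (((2 ^ (P.m n + P.a n) : ℕ)) : ℝ) ^ lam = (2 : ℝ) ^ (lam * (P.m n + P.a n)) := by
    push_cast
    rw [← Real.rpow_natCast, ← Real.rpow_mul (by norm_num), mul_comm]
    push_cast
    rfl
  rw [e]
  apply Real.rpow_le_rpow_of_exponent_le (by norm_num)
  have : (0 : ℝ) ≤ P.a n := Nat.cast_nonneg _
  nlinarith

lemma tendsto_N1 : Tendsto (fun n => 2 ^ P.a (n + 1)) atTop atTop :=
  (tendsto_pow_atTop_atTop_of_one_lt (by norm_num : 1 < 2)).comp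
    (P.a_mono.tendsto_atTop.comp (tendsto_add_atTop_nat 1))

lemma tendsto_N2 : Tendsto (fun n => 2 ^ (P.m n + P.a n)) atTop atTop := by
  refine (tendsto_pow_atTop_atTop_of_one_lt (by norm_num : 1 < 2)).comp ?_
  exact tendsto_atTop_mono (fun n => Nat.le_add_left _ _) P.a_mono.tendsto_atTop

/-- density zero from the large set `S` -/
lemma density_large (h0 : 0 < lam) (hl : lam ≤ 1) (A : Set ℕ) (J : ℕ)
    (hA : ∀ j ∈ A, J ≤ j → j ∉ P.S) : lowerDensity (1 / lam) A = 0 := by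
  refine lowerDensity_eq_zero h0 hl A (fun n => 2 ^ P.a (n + 1))
    (fun n => J + 2 * P.W n) P.tendsto_N1 ?_ ?_
  · refine Eventually.of_forall (fun n => ?_)
    refine ⟨Finset.range J ∪ (Finset.range (P.W n) ∪
      Finset.Ioc (2 ^ P.a (n + 1) - P.W n) (2 ^ P.a (n + 1))), ?_, ?_⟩
    · intro j hj h1 h2
      rw [Finset.mem_union, Finset.mem_union, Finset.mem_range, Finset.mem_range,
        Finset.mem_Ioc]
      by_contra hc
      push Not at hc
      obtain ⟨c1, c2, c3⟩ := hc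
      apply hA j hj c1
      refine ⟨n, c2, ?_⟩
      have c4 : ¬ (2 ^ P.a (n + 1) - P.W n < j) := fun h => absurd h2 (not_le.2 (c3 h))
      have c5 : j ≤ 2 ^ P.a (n + 1) - P.W n := not_lt.1 c4
      have hW : 0 < P.W n := lt_of_le_of_lt (Nat.zero_le _) (P.pow_lt_W n)
      omega
    · have h1 : (Finset.range J ∪ (Finset.range (P.W n) ∪
        Finset.Ioc (2 ^ P.a (n + 1) - P.W n) (2 ^ P.a (n + 1)))).card ≤ J + (P.W n + P.W n) := by
        refine (Finset.card_union_le _ _).trans ?_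
        rw [Finset.card_range]
        refine Nat.add_le_add_left ((Finset.card_union_le _ _).trans ?_) _
        rw [Finset.card_range, Nat.card_Ioc]
        omega
      have h2 : ((Finset.range J ∪ (Finset.range (P.W n) ∪
        Finset.Ioc (2 ^ P.a (n + 1) - P.W n) (2 ^ P.a (n + 1)))).card : ℝ) ≤
          J + (P.W n + P.W n) := by exact_mod_cast h1
      linarith
  · have hNl : Tendsto (fun n => (((2 ^ P.a (n + 1) : ℕ)) : ℝ) ^ lam) atTop atTop :=
      (tendsto_rpow_atTop h0).comp (tendsto_natCast_atTop_atTop.comp P.tendsto_N1)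
    have t1 : Tendsto (fun n => (J : ℝ) / (((2 ^ P.a (n + 1) : ℕ)) : ℝ) ^ lam) atTop (𝓝 0) :=
      hNl.const_div_atTop _
    have t2 : Tendsto (fun n : ℕ => 2 * (1 / ((n : ℝ) + 1))) atTop (𝓝 0) := by
      have := (tendsto_one_div_add_atTop_nhds_zero_nat (𝕜 := ℝ)).const_mul 2
      rwa [mul_zero] at this
    have t3 := t1.add t2
    rw [add_zero] at t3
    refine squeeze_zero (fun n => by positivity) (fun n => ?_) t3
    have hp : (0 : ℝ) < (((2 ^ P.a (n + 1) : ℕ)) : ℝ) ^ lam := by positivity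
    rw [add_div]
    refine add_le_add le_rfl ?_
    rw [mul_div_assoc]
    refine mul_le_mul_of_nonneg_left ?_ (by norm_num)
    rw [div_le_div_iff₀ hp (by positivity), one_mul]
    have := P.W_bound n
    linarith

/-- density zero from the small intervals -/
lemma density_small (h0 : 0 < lam) (hl : lam ≤ 1) (A : Set ℕ) (J : ℕ)
    (hA : ∀ j ∈ A, J ≤ j → ∀ n, 2 ^ P.a n < j → j ≤ 2 ^ (P.m n + P.a n) → False) :
    lowerDensity (1 / lam) A = 0 := by
  refine lowerDensity_eq_zero h0 hl A (fun n => 2 ^ (P.m n + P.a n))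
    (fun n => (J + 1) + 2 ^ P.a n) P.tendsto_N2 ?_ ?_
  · refine Eventually.of_forall (fun n => ?_)
    refine ⟨Finset.range J ∪ Finset.range (2 ^ P.a n + 1), ?_, ?_⟩
    · intro j hj h1 h2
      rw [Finset.mem_union, Finset.mem_range, Finset.mem_range]
      by_contra hc
      push Not at hc
      exact hA j hj hc.1 n (by omega) h2
    · have h1 : (Finset.range J ∪ Finset.range (2 ^ P.a n + 1)).card ≤ J + (2 ^ P.a n + 1) := by
        refine (Finset.card_union_le _ _).trans ?_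
        rw [Finset.card_range, Finset.card_range]
      have h2 : ((Finset.range J ∪ Finset.range (2 ^ P.a n + 1)).card : ℝ) ≤
          J + (2 ^ P.a n + 1) := by exact_mod_cast h1
      linarith
  · have hNl : Tendsto (fun n => (((2 ^ (P.m n + P.a n) : ℕ)) : ℝ) ^ lam) atTop atTop :=
      (tendsto_rpow_atTop h0).comp (tendsto_natCast_atTop_atTop.comp P.tendsto_N2)
    have t1 : Tendsto (fun n => ((J : ℝ) + 1) / (((2 ^ (P.m n + P.a n) : ℕ)) : ℝ) ^ lam)
        atTop (𝓝 0) := hNl.const_div_atTop _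
    have t3 := t1.add (tendsto_one_div_add_atTop_nhds_zero_nat (𝕜 := ℝ))
    rw [add_zero] at t3
    refine squeeze_zero (fun n => by positivity) (fun n => ?_) t3
    have hp : (0 : ℝ) < (((2 ^ (P.m n + P.a n) : ℕ)) : ℝ) ^ lam := by positivity
    rw [add_div]
    refine add_le_add le_rfl ?_
    rw [div_le_div_iff₀ hp (by positivity), one_mul]
    have := P.z_bound h0 n
    linarith

end Par

variable {𝕜 X : Type*} [RCLike 𝕜] [NormedAddCommGroup X] [NormedSpace 𝕜 X]

lemma lowerDensity_univ {lam : ℝ} (h0 : 0 < lam) (hl : lam ≤ 1) : lowerDensity (1 / lam) Set.univ ≠ 0 := by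
  refine lowerDensity_ne_zero h0 hl _ 0 ?_
  filter_upwards [eventually_ge_atTop 1] with N hN
  refine ⟨Finset.Icc 1 N, fun j hj => ⟨Set.mem_univ _, (Finset.mem_Icc.1 hj).1,
    (Finset.mem_Icc.1 hj).2⟩, ?_⟩
  rw [Nat.card_Icc, sub_zero, Nat.add_sub_cancel]
  have h1 : (1 : ℝ) ≤ N := by exact_mod_cast hN
  have h2 : (N : ℝ) ^ lam ≤ (N : ℝ) ^ (1 : ℝ) := Real.rpow_le_rpow_of_exponent_le h1 hl
  rw [Real.rpow_one] at h2
  linarith

section main

variable {lam : ℝ} (P : Par lam) (Sp : SeqSp 𝕜 X)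

/-- the special vector -/
noncomputable def xv : X := ∑' k, ((P.xs k : ℝ) : 𝕜) • Sp.e k

lemma summable_norm_xs : Summable (fun k => ‖((P.xs k : ℝ) : 𝕜)‖) := by
  refine P.summable_xs.congr (fun k => ?_)
  rw [RCLike.norm_ofReal, abs_of_nonneg (P.xs_nonneg k)]

lemma c_xv [CompleteSpace X] (k : ℕ) : Sp.c k (xv P Sp) = ((P.xs k : ℝ) : 𝕜) :=
  Sp.c_tsum (summable_norm_xs P) k

variable (T : X →L[𝕜] X)
  (hT : ∀ x k, Sp.c k (T x) = ((Real.exp (P.L (k + 1) - P.L k) : ℝ) : 𝕜) * Sp.c (k + 1) x)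

include hT

lemma large_xv [CompleteSpace X] {j : ℕ} (hj : j ∈ P.S) : (j : ℝ) ≤ ‖T^[j] (xv P Sp)‖ := by
  have h1 := Sp.norm_c_le 0 (T^[j] (xv P Sp))
  rw [c_iter P Sp T hT, c_xv, norm_mul, RCLike.norm_ofReal, RCLike.norm_ofReal,
    abs_of_pos (Real.exp_pos _), abs_of_nonneg (P.xs_nonneg _), zero_add, P.L_zero, sub_zero] at h1
  have h2 : Real.exp (P.L j) * P.xs j = j := by
    unfold Par.xs
    rw [if_pos hj, mul_comm, mul_assoc, ← Real.exp_add]
    simp
  rwa [h2] at h1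

lemma small_xv [CompleteSpace X] {n j : ℕ} (h1 : 2 ^ P.a n < j) (h2 : j ≤ 2 ^ (P.m n + P.a n)) :
    ‖T^[j] (xv P Sp)‖ ≤ (∑' k : ℕ, 1 / ((k : ℝ) + 1) ^ 2) * (1 / (j : ℝ) ^ 2) := by
  have hj1 : 1 ≤ j := by
    have : 1 ≤ 2 ^ P.a n := Nat.one_le_two_pow
    omega
  have hj0 : (0 : ℝ) < j := by exact_mod_cast hj1
  have hj1' : (1 : ℝ) ≤ j := by exact_mod_cast hj1
  have hb : ∀ k : ℕ, ‖Sp.c k (T^[j] (xv P Sp))‖ ≤ 1 / ((k : ℝ) + 1) ^ 2 * (1 / (j : ℝ) ^ 2) := by
    intro k
    rw [c_iter P Sp T hT, c_xv, norm_mul, RCLike.norm_ofReal, RCLike.norm_ofReal,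
      abs_of_pos (Real.exp_pos _), abs_of_nonneg (P.xs_nonneg _)]
    unfold Par.xs
    split_ifs with hS
    · have hW : P.W n ≤ k + j := P.S_gap hS (by omega)
      have hE := P.exp_le_W h2
      have hkj : (0 : ℝ) < ((k + j : ℕ) : ℝ) := by exact_mod_cast P.pos_of_mem_S hS
      have hW' : (P.W n : ℝ) ≤ ((k + j : ℕ) : ℝ) := by exact_mod_cast hW
      have h3 : Real.exp (-P.L k) ≤ Real.exp (P.L j) * Real.exp (-P.L (k + j)) := by
        rw [← Real.exp_add]
        apply Real.exp_le_exp.2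
        have := P.L_add_le k j
        linarith
      have h4 := P.exp_neg_L_le hS
      have h5 : Real.exp (P.L (k + j) - P.L k) * (((k + j : ℕ) : ℝ) * Real.exp (-P.L (k + j))) =
          ((k + j : ℕ) : ℝ) * Real.exp (-P.L k) := by
        have : Real.exp (P.L (k + j) - P.L k) * Real.exp (-P.L (k + j)) = Real.exp (-P.L k) := by
          rw [← Real.exp_add]; congr 1; ring
        rw [← this]; ring
      rw [h5]
      have h6 : Real.exp (-P.L k) ≤ ((k + j : ℕ) : ℝ) * (1 / ((k + j : ℕ) : ℝ) ^ 6) := by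
        refine h3.trans ?_
        exact mul_le_mul (hE.trans hW') h4 (Real.exp_nonneg _) hkj.le
      calc ((k + j : ℕ) : ℝ) * Real.exp (-P.L k)
          ≤ ((k + j : ℕ) : ℝ) * (((k + j : ℕ) : ℝ) * (1 / ((k + j : ℕ) : ℝ) ^ 6)) :=
            mul_le_mul_of_nonneg_left h6 hkj.le
        _ = 1 / (((k + j : ℕ) : ℝ) ^ 2 * ((k + j : ℕ) : ℝ) ^ 2) := by
            field_simp
        _ ≤ 1 / (((k : ℝ) + 1) ^ 2 * (j : ℝ) ^ 2) := by
            apply one_div_le_one_div_of_le (by positivity)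
            have g1 : (k : ℝ) + 1 ≤ ((k + j : ℕ) : ℝ) := by push_cast; linarith
            have g2 : (j : ℝ) ≤ ((k + j : ℕ) : ℝ) := by
              push_cast
              have : (0 : ℝ) ≤ k := Nat.cast_nonneg k
              linarith
            exact mul_le_mul (pow_le_pow_left₀ (by positivity) g1 2)
              (pow_le_pow_left₀ hj0.le g2 2) (by positivity) (by positivity)
        _ = 1 / ((k : ℝ) + 1) ^ 2 * (1 / (j : ℝ) ^ 2) := by
            rw [one_div_mul_one_div]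
    · rw [mul_zero]; positivity
  have hs : Summable (fun k : ℕ => 1 / ((k : ℝ) + 1) ^ 2 * (1 / (j : ℝ) ^ 2)) :=
    Par.summable_sq.mul_right _
  have hs1 : Summable (fun k : ℕ => ‖Sp.c k (T^[j] (xv P Sp))‖) :=
    Summable.of_nonneg_of_le (fun k => norm_nonneg _) hb hs
  refine (Sp.norm_le_tsum _ hs1).trans ?_
  rw [← tsum_mul_right]
  exact hs1.tsum_le_tsum hb hs

/-- the key property of `v + a x` -/
lemma key_density [CompleteSpace X] (h0 : 0 < lam) (hl : lam ≤ 1) {v : X}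
    (hv : v ∈ Submodule.span 𝕜 (Set.range Sp.e)) {a : 𝕜} (ha : a ≠ 0) :
    lowerDensity (1 / lam) {j : ℕ | ‖T^[j] (v + a • xv P Sp)‖ < 1} = 0 ∧
    ∀ ε : ℝ, 0 < ε → lowerDensity (1 / lam) {j : ℕ | ε < ‖T^[j] (v + a • xv P Sp)‖} = 0 := by
  obtain ⟨J, hJ⟩ := iter_fin P Sp T hT hv
  have hit : ∀ j, J ≤ j → ‖T^[j] (v + a • xv P Sp)‖ = ‖a‖ * ‖T^[j] (xv P Sp)‖ := by
    intro j hj
    rw [iter_map_add, iter_map_smul, hJ j hj, zero_add, norm_smul]
  have ha' : 0 < ‖a‖ := norm_pos_iff.2 ha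
  constructor
  · refine P.density_large h0 hl _ (max J ⌈1 / ‖a‖⌉₊) ?_
    intro j hj hjJ hS
    have h1 : ‖T^[j] (v + a • xv P Sp)‖ < 1 := hj
    rw [hit j (le_trans (le_max_left _ _) hjJ)] at h1
    have h2 := large_xv P Sp T hT hS
    have h3 : 1 / ‖a‖ ≤ j := (Nat.le_ceil _).trans (by
      exact_mod_cast le_trans (le_max_right _ _) hjJ)
    rw [div_le_iff₀ ha'] at h3
    have h4 : ‖a‖ * (j : ℝ) ≤ ‖a‖ * ‖T^[j] (xv P Sp)‖ := mul_le_mul_of_nonneg_left h2 ha'.le
    linarith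
  · intro ε hε
    set C : ℝ := ∑' k : ℕ, 1 / ((k : ℝ) + 1) ^ 2 with hC
    have hC0 : 0 ≤ C := tsum_nonneg fun k => by positivity
    refine P.density_small h0 hl _ (max J (⌈‖a‖ * C / ε⌉₊ + 1)) ?_
    intro j hj hjJ n hn1 hn2
    have h1 : ε < ‖T^[j] (v + a • xv P Sp)‖ := hj
    rw [hit j (le_trans (le_max_left _ _) hjJ)] at h1
    have h2 := small_xv P Sp T hT hn1 hn2
    rw [← hC] at h2
    have h3 : ‖a‖ * C / ε ≤ j := (Nat.le_ceil _).trans (by
      have := le_trans (le_max_right _ _) hjJ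
      have h5 : ⌈‖a‖ * C / ε⌉₊ ≤ j := by omega
      exact_mod_cast h5)
    have hj1 : 1 ≤ j := by
      have := le_trans (le_max_right _ _) hjJ
      omega
    have hj1' : (1 : ℝ) ≤ j := by exact_mod_cast hj1
    have h4 : ‖a‖ * (C * (1 / (j : ℝ) ^ 2)) ≤ ε := by
      rw [div_le_iff₀ hε] at h3
      have h6 : (j : ℝ) ≤ j ^ 2 := by nlinarith
      rw [mul_one_div, mul_div_assoc', div_le_iff₀ (by positivity)]
      nlinarith
    have h5 : ‖a‖ * ‖T^[j] (xv P Sp)‖ ≤ ‖a‖ * (C * (1 / (j : ℝ) ^ 2)) :=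
      mul_le_mul_of_nonneg_left h2 ha'.le
    linarith

/-- **(B)** dense distributional chaos -/
theorem denselyDistChaotic [CompleteSpace X] (h0 : 0 < lam) (hl : lam ≤ 1) :
    DenselyDistChaotic lam (T : X → X) := by
  set V : Submodule 𝕜 X := Submodule.span 𝕜 (Set.range Sp.e) with hV
  have hsep : TopologicalSpace.IsSeparable (V : Set X) :=
    (Set.countable_range Sp.e).isSeparable.span
  obtain ⟨t, htV, htc, htd⟩ := hsep.exists_countable_dense_subset
  have htdense : Dense t := by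
    intro x
    have h1 : x ∈ closure (V : Set X) := Sp.dense x
    exact closure_minimal htd isClosed_closure h1
  have htne : t.Nonempty := htdense.nonempty
  obtain ⟨y, hy⟩ := htc.exists_eq_range htne
  have hyV : ∀ i, y i ∈ V := fun i => htV (by rw [hy]; exact ⟨i, rfl⟩)
  let f : ℝ → ℕ := fun a => (Nat.unpair ⌊1 / a⌋₊).1
  let F : ℝ → X := fun a => y (f a) + ((a : ℝ) : 𝕜) • xv P Sp
  have hdiff : ∀ a b : ℝ, F a - F b = (y (f a) - y (f b)) + (((a - b : ℝ)) : 𝕜) • xv P Sp := by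
    intro a b
    show y (f a) + ((a : ℝ) : 𝕜) • xv P Sp - (y (f b) + ((b : ℝ) : 𝕜) • xv P Sp) = _
    rw [RCLike.ofReal_sub, sub_smul]
    abel
  have hkey : ∀ a b : ℝ, a ≠ b →
      lowerDensity (1 / lam) {j : ℕ | ‖T^[j] (F a) - T^[j] (F b)‖ < 1} = 0 ∧
      ∀ ε : ℝ, 0 < ε → lowerDensity (1 / lam) {j : ℕ | ε < ‖T^[j] (F a) - T^[j] (F b)‖} = 0 := by
    intro a b hab
    have h1 := key_density P Sp T hT h0 hl (v := y (f a) - y (f b))
      (V.sub_mem (hyV _) (hyV _)) (a := (((a - b : ℝ)) : 𝕜)) (by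
        rw [Ne, RCLike.ofReal_eq_zero, sub_eq_zero]; exact hab)
    simp only [iter_map_sub, hdiff]
    exact h1
  have hinj : Function.Injective F := by
    intro a b hab
    by_contra hne
    have h1 := (hkey a b hne).1
    have h2 : {j : ℕ | ‖T^[j] (F a) - T^[j] (F b)‖ < 1} = Set.univ := by
      ext j
      simp [hab]
    rw [h2] at h1
    exact lowerDensity_univ h0 hl h1
  refine ⟨F '' Set.Ioo 0 1, ?_, ?_, 1, one_pos, ?_⟩
  · intro hc
    have h1 : (Set.Ioo (0 : ℝ) 1).Countable := by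
      have := hc.preimage_of_injOn (f := F) (hinj.injOn)
      exact this.mono (Set.subset_preimage_image F _)
    exact absurd (Cardinal.Real.Ioo_countable_iff.1 h1) (by norm_num)
  · -- density
    intro x
    have h1 : ∀ i, y i ∈ closure (F '' Set.Ioo 0 1) := by
      intro i
      rw [mem_closure_iff_seq_limit]
      refine ⟨fun n => F (1 / (Nat.pair i (n + 2) : ℕ)), fun n => ⟨_, ⟨?_, ?_⟩, rfl⟩, ?_⟩
      · have : 0 < Nat.pair i (n + 2) := lt_of_lt_of_le (by omega) (Nat.right_le_pair i (n + 2))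
        positivity
      · have h2 : 2 ≤ Nat.pair i (n + 2) := le_trans (by omega) (Nat.right_le_pair i (n + 2))
        have h3 : (2 : ℝ) ≤ (Nat.pair i (n + 2) : ℕ) := by exact_mod_cast h2
        rw [div_lt_one (by linarith)]
        linarith
      · have h2 : ∀ n : ℕ, F (1 / (Nat.pair i (n + 2) : ℕ)) =
            y i + (((1 / (Nat.pair i (n + 2) : ℕ) : ℝ)) : 𝕜) • xv P Sp := by
          intro n
          show y (Nat.unpair ⌊1 / (1 / ((Nat.pair i (n + 2) : ℕ) : ℝ))⌋₊).1 + _ = _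
          rw [one_div_one_div, Nat.floor_natCast, Nat.unpair_pair]
        simp only [h2]
        have h3 : Tendsto (fun n : ℕ => (1 / (Nat.pair i (n + 2) : ℕ) : ℝ)) atTop (𝓝 0) := by
          have h4 : Tendsto (fun n : ℕ => ((Nat.pair i (n + 2) : ℕ) : ℝ)) atTop atTop := by
            refine tendsto_natCast_atTop_atTop.comp ?_
            refine tendsto_atTop_mono (fun n => ?_) (tendsto_add_atTop_nat 2)
            exact Nat.right_le_pair i (n + 2)
          exact h4.const_div_atTop 1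
        have h4 : Tendsto (fun n : ℕ => (((1 / (Nat.pair i (n + 2) : ℕ) : ℝ)) : 𝕜) • xv P Sp)
            atTop (𝓝 0) := by
          have h5 : Tendsto (fun n : ℕ => (((1 / (Nat.pair i (n + 2) : ℕ) : ℝ)) : 𝕜)) atTop
              (𝓝 ((0 : ℝ) : 𝕜)) := (RCLike.continuous_ofReal.tendsto 0).comp h3
          have h6 := h5.smul_const (xv P Sp)
          rwa [RCLike.ofReal_zero, zero_smul] at h6
        have h5 := h4.const_add (y i)
        rwa [add_zero] at h5
    have h2 : t ⊆ closure (F '' Set.Ioo 0 1) := by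
      rw [hy]
      rintro _ ⟨i, rfl⟩
      exact h1 i
    exact closure_minimal h2 isClosed_closure (htdense x)
  · rintro _ ⟨a, _, rfl⟩ _ ⟨b, _, rfl⟩ hab
    exact hkey a b (fun h => hab (by rw [h]))

end main

end Pool.Agent.R343.WShift
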